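import Pool.Agent.Helper27.PR.Defs

/-!
Pairs which are not full, with given slopes and index.
-/

open Module MTPairs

namespace PR

/-- There is a pair with the slopes `Λ` and the index `N` whose group does not contain all the
similitudes. -/
def Bad (K : Type*) [Field K] (Λ : Multiset ℚ) (N : ℕ) : Prop :=
  ∃ (m : Type) (_ : Fintype m) (_ : DecidableEq m) (Γ : Subgroup (Equiv.Perm (m → K)))
    (J : Matrix m m K) (G : Subgroup (Matrix.GeneralLinearGroup m K)) (π : Matrix m m K),
    IsGalPair Γ J G ∧ IsIrr G ∧ IsCochar G π ∧ HasSlopes Γ G π Λ ∧ HasIndex Γ G π N ∧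
    ∃ g : Matrix.GeneralLinearGroup m K,
      (∃ c : K, (g : Matrix m m K).transpose * J * (g : Matrix m m K) = c • J) ∧ g ∉ G

end PR
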