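import Pool.Agent.Helper93.SR.Iso

/-!
Block PI. The form of `MTP.Pr.iso` (file `Pool/Agent/Helper93/SR/Iso.lean`) with one multiplicity
function for all stable subspaces. Same proof: with the simple module `S` of that proof put
`κ x = finrank (range (act K S x))` for `x ∈ A` (and `0` for `x ∉ A`); `iso_core` gives
`finrank (range (act K W x)) = n * κ x` with `n` depending only on `W`.
-/

set_option linter.unusedSectionVars false
set_option linter.unusedVariables false

open Module MTP

namespace PR

variable {K : Type*} [Field K] {V : Type*} [AddCommGroup V] [Module K V] [FiniteDimensional K V]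

/-- The form of `MTP.Pr.iso` with a common multiplicity function. -/
theorem pr_iso {A A' : Subalgebra K (Module.End K V)} (P : Pr A A') {a : Module.End K V}
    (ha : a ∈ A) (ha0 : a ≠ 0) (hext : ∀ y ∈ A, ∃ c : K, a * y * a = c • a) :
    ∃ (d : ℕ) (κ : Module.End K V → ℕ), 0 < d ∧ κ a = 1 ∧ ∀ W : Submodule K V,
      (∀ x ∈ A, ∀ w ∈ W, x w ∈ W) →
      ∃ n : ℕ, finrank K W = n * d ∧ ∀ x ∈ A, finrank K (W.map x) = n * κ x := by
  classical
  have hnt : Nontrivial V := by
    by_contra hcon
    rw [not_nontrivial_iff_subsingleton] at hcon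
    exact ha0 (LinearMap.ext fun v => Subsingleton.elim _ _)
  have hsm : ∀ (x : A) (v : V), x • v = (x : Module.End K V) v := fun x v => rfl
  obtain ⟨S, hS⟩ := exists_simple (K := K) (R := A) (M := V)
  -- the isotypic component
  have hC : isotypicComponent A V S = ⊤ := by
    have h1 := P.irr ((isotypicComponent A V S).restrictScalars K) (by
      intro x hx w hw
      exact (isotypicComponent A V S).smul_mem ⟨x, hx⟩ hw) (by
      intro b hb w hw
      let bL : V →ₗ[A] V :=
        { toFun := fun v => b v
          map_add' := fun v w => map_add b v w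
          map_smul' := by
            intro x v
            rw [RingHom.id_apply, hsm, hsm]
            exact (congrArg (fun z : Module.End K V => z v) (P.comm x x.2 b hb)).symm }
      exact LinearMap.le_comap_isotypicComponent S bL hw)
    rcases h1 with h1 | h1
    · exfalso
      have h2 := bot_lt_isotypicComponent (R := A) (M := V) S
      have h3 : isotypicComponent A V S = ⊥ := by
        rw [eq_bot_iff]
        intro x hx
        have h4 : x ∈ (isotypicComponent A V S).restrictScalars K := hx
        rw [h1] at h4
        exact h4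
      rw [h3] at h2
      exact lt_irrefl _ h2
    · rw [eq_top_iff]
      intro x _
      have h4 : x ∈ (isotypicComponent A V S).restrictScalars K := by rw [h1]; trivial
      exact h4
  obtain ⟨hss, hiso⟩ := isotypic_top S hC
  have hSnt : Nontrivial S := IsSimpleModule.nontrivial A S
  -- the element `a` has rank one on `S`
  have haS : ∃ s : S, a s ≠ 0 := by
    by_contra hcon
    push Not at hcon
    obtain ⟨s, hs⟩ := exists_ne (0 : S)
    apply ha0
    apply P.kill ha (u := (s : V)) (fun h => hs (Subtype.ext h))
    intro b hb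
    exact hcon ⟨_, S.smul_mem ⟨b, hb⟩ s.2⟩
  obtain ⟨s0, hs0⟩ := haS
  set s1 : S := ⟨a s0, S.smul_mem ⟨a, ha⟩ s0.2⟩ with hs1
  have hs1n : s1 ≠ 0 := fun h => hs0 (congrArg Subtype.val h)
  have hone : ∀ s : S, ∃ c : K, a s = c • a s0 := by
    intro s
    obtain ⟨y, hy⟩ := IsSimpleModule.toSpanSingleton_surjective A hs1n s
    obtain ⟨c, hc⟩ := hext y y.2
    refine ⟨c, ?_⟩
    have h3 : (s : V) = (y : Module.End K V) (a s0) := (congrArg Subtype.val hy).symm
    rw [h3]
    exact congrArg (fun z : Module.End K V => z s0) hc
  have h3 : finrank K (LinearMap.range (act K S (⟨a, ha⟩ : A))) = 1 := by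
    apply finrank_act_one (s0 := s0)
    · intro h
      exact hs0 (congrArg Subtype.val h)
    · intro s
      obtain ⟨c, hc⟩ := hone s
      exact ⟨c, Subtype.ext hc⟩
  refine ⟨finrank K S, fun x => if hx : x ∈ A then
    finrank K (LinearMap.range (act K S (⟨x, hx⟩ : A))) else 0, finrank_simple_pos (K := K) S, ?_, ?_⟩
  · simp only [ha, dif_pos]
    exact h3
  intro W hW
  let WA : Submodule A V :=
    { carrier := W
      add_mem' := fun h h' => W.add_mem h h'
      zero_mem' := W.zero_mem
      smul_mem' := fun x w hw => hW x x.2 w hw }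
  obtain ⟨n, h1, h2⟩ := iso_core (K := K) hiso WA
  have hrk : ∀ x (hx : x ∈ A), finrank K (W.map x) =
      n * finrank K (LinearMap.range (act K S (⟨x, hx⟩ : A))) := by
    intro x hx
    rw [← h2]
    have e : W.map x = (LinearMap.range (act K WA (⟨x, hx⟩ : A))).map
        (WA.subtype.restrictScalars K) := by
      apply le_antisymm
      · rintro _ ⟨w, hw, rfl⟩
        exact ⟨_, ⟨⟨w, hw⟩, rfl⟩, rfl⟩
      · rintro _ ⟨_, ⟨w, rfl⟩, rfl⟩
        exact ⟨w, w.2, rfl⟩
    rw [e, finrank_act_map]
  refine ⟨n, h1, fun x hx => ?_⟩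
  rw [hrk x hx]
  simp only [hx, dif_pos]

end PR
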