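import Pool.Agent.Helper27.PR.Str

/-!
Block ID. Minimal ideals: the decomposition without a square zero element, transitivity of the
symmetries on the minimal ideals, and their number.

* `dec`: first part of the proof of `MTP.IrrSymp.exact` (file `Pool/Agent/Helper93/SR/Dec.lean`),
  which does not use the square zero element; `k = 1 → Smp L` is the end of that proof.
* `trans_min`: let `M` be the span of the images `τ x`, `x ∈ I`, `τ ∈ T`. It is an ideal stable
  under `T` and nonzero, so it is `L`. If `I' ⊓ imT τ I = ⊥` for all `τ ∈ T` then `I'` commutes with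
  all these images (`IrrSymp.comm_of_inf`), so with `L`, and `I' = ⊥` (`IrrSymp.center`),
  contradiction. So for some `τ` the ideal `I' ⊓ imT τ I` is not `⊥`, and it is equal to both by
  minimality (`imT τ I` is a minimal ideal, as in `QI.tw`).
* `min_of_le`: let `I` be a minimal ideal contained in `I1 ⊔ M'`, where `I1` is minimal, `M'` an
  ideal, `I1 ⊓ M' = ⊥`. If `I ⊓ I1 ≠ ⊥` then `I = I1`. Otherwise `I` commutes with `I1`, so
  `I ≤ orth L I1` (`IrrSymp.le_orth`), and the component in `I1` of an element of `I` is in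
  `I1 ⊓ orth L I1 = ⊥`, so `I ≤ M'`.
* `ncard_min`: induction with `Dec`: the number of minimal ideals contained in `M` is `n` if
  `Dec ω L ρ ε n M`.
-/

set_option linter.unusedSectionVars false
set_option linter.unusedVariables false

open Module MTP

namespace PR

variable {K : Type*} [Field K] {V : Type*} [AddCommGroup V] [Module K V] [FiniteDimensional K V]
variable {ω : LinearMap.BilinForm K V} {L : Submodule K (Module.End K V)}

/-- Minimal ideals. -/
def IsMin (L I : Submodule K (Module.End K V)) : Prop :=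
  IsId L I ∧ I ≠ ⊥ ∧ ∀ J ≤ I, IsId L J → J ≠ ⊥ → J = I

theorem dec [IsAlgClosed K] [CharZero K] (hL : IrrSymp ω L) (hω : ω.Nondegenerate)
    (halt : ω.IsAlt) (hL0 : L ≠ ⊥) {T : Set (Module.End K V ≃+* Module.End K V)}
    (hT : ∀ τ ∈ T, Tw L τ) (hS : TSmp L T) :
    ∃ (k d ρ : ℕ) (ε : K), Odd k ∧ finrank K V = d ^ k ∧ finrank K V = ρ * d ∧
      Dec ω L ρ ε k L ∧ (k = 1 → Smp L) := by
  have hV : Nontrivial V := by
    by_contra hcon
    rw [not_nontrivial_iff_subsingleton] at hcon
    apply hL0
    rw [eq_bot_iff]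
    intro x _
    rw [Submodule.mem_bot]
    exact LinearMap.ext fun v => Subsingleton.elim _ _
  have hLid : IsId L L := ⟨le_rfl, hL.br⟩
  obtain ⟨I0, -, hI0, hI00, hI0min⟩ := exists_min_ideal hLid hL0
  have P := hL.pr (fun x hx y hy => hL.orth_comm hω hI0 hx hy)
    (fun z hz => hL.sup_orth hω hI0 hz)
  obtain ⟨ε, a0, hε, ha0⟩ := exists_mark hω halt (fun x hx => hL.sk x (hI0.1 hx)) P hI00
  obtain ⟨d, hd, hW⟩ := P.iso ha0.mem ha0.ne ha0.ext
  obtain ⟨n0, h1, h2, -⟩ := hW ⊤ (fun _ _ _ _ => Submodule.mem_top)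
  have hρ : finrank K V = rk a0 * d := by
    rw [finrank_top] at h1
    rw [h1, ← h2, Submodule.map_top]; rfl
  have hQ0 : QI ω L (rk a0) ε I0 := ⟨hI0, hI00, hI0min, a0, ha0, rfl⟩
  -- the span of the class
  have hspan : L ≤ Submodule.span K {x | ∃ I, QI ω L (rk a0) ε I ∧ x ∈ I} := by
    have hid : IsId L (Submodule.span K {x | ∃ I, QI ω L (rk a0) ε I ∧ x ∈ I}) := by
      constructor
      · rw [Submodule.span_le]
        rintro x ⟨I, hI, hx⟩
        exact hI.1.1 hx
      · intro x hx y hy
        refine Submodule.span_induction ?_ ?_ ?_ ?_ hy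
        · rintro z ⟨I, hI, hz⟩
          exact Submodule.subset_span ⟨I, hI, hI.1.2 x hx z hz⟩
        · simp
        · intro u v _ _ hu hv
          have e : x * (u + v) - (u + v) * x = (x * u - u * x) + (x * v - v * x) := by
            rw [mul_add, add_mul]; abel
          rw [e]; exact Submodule.add_mem _ hu hv
        · intro c u _ hu
          rw [mul_smul_comm, smul_mul_assoc, ← smul_sub]
          exact Submodule.smul_mem _ _ hu
    rcases hS _ hid (by
      intro τ hτ y hy
      obtain ⟨σ, hσ⟩ := (hT τ hτ).semi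
      refine Submodule.span_induction ?_ ?_ ?_ ?_ hy
      · rintro z ⟨I, hI, hz⟩
        apply Submodule.subset_span
        refine ⟨_, hI.tw hω hL.sk hε (hT τ hτ) hσ, ?_⟩
        rw [mem_imT, RingEquiv.symm_apply_apply]
        exact hz
      · rw [map_zero]; exact Submodule.zero_mem _
      · intro u v _ _ hu hv
        rw [map_add]; exact Submodule.add_mem _ hu hv
      · intro c u _ hu
        rw [hσ]; exact Submodule.smul_mem _ _ hu) with h | h
    · exfalso
      apply hI00
      rw [eq_bot_iff, ← h]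
      intro z hz
      exact Submodule.subset_span ⟨I0, hQ0, hz⟩
    · exact h.ge
  obtain ⟨k, hk⟩ := Dec.exists hL hω hρ hV hspan
  obtain ⟨-, b, hb, hbr⟩ := Dec.main hL hω hρ hV k L hk
  -- the marked element has rank one
  obtain ⟨v, hv⟩ : ∃ v, b v ≠ 0 := by
    by_contra h
    push Not at h
    exact hb.ne (LinearMap.ext h)
  have hone : ∀ w, ∃ c : K, b w = c • b v := by
    intro w
    have htop : orb (alg L) (b v) = ⊤ := by
      rcases hL.irr (orb (alg L) (b v)) (by
        rintro z hz _ ⟨y, hy, rfl⟩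
        exact ⟨z * y, (alg L).mul_mem (le_alg hz) hy, rfl⟩) with h | h
      · exfalso
        have h1 : b v ∈ orb (alg L) (b v) := ⟨1, (alg L).one_mem, rfl⟩
        rw [h, Submodule.mem_bot] at h1
        exact hv h1
      · exact h
    have hw : w ∈ orb (alg L) (b v) := by rw [htop]; trivial
    obtain ⟨y, hy, hyw⟩ := mem_orb.mp hw
    obtain ⟨c, hc⟩ := hb.ext y hy
    refine ⟨c, ?_⟩
    rw [← hyw]
    exact congrArg (fun z : Module.End K V => z v) hc
  have hrb : rk b = 1 := by
    have e : LinearMap.range b = Submodule.span K {b v} := by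
      apply le_antisymm
      · rintro _ ⟨w, rfl⟩
        obtain ⟨c, hc⟩ := hone w
        rw [hc]
        exact Submodule.smul_mem _ _ (Submodule.mem_span_singleton_self _)
      · rw [Submodule.span_singleton_le_iff_mem]
        exact ⟨v, rfl⟩
    unfold rk
    rw [e]
    exact finrank_span_singleton hv
  rw [hrb, one_mul] at hbr
  -- the sign
  have hanti : ∀ u v : V, ω u v = - ω v u := fun u v => (halt.neg_eq v u).symm
  have hsgn : ε ^ k ≠ 1 := by
    intro h
    have hadj := hb.adj
    rw [h, one_smul] at hadj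
    have h0 : ∀ x, ω (b x) x = 0 := by
      intro x
      have h1 := hadj x x
      rw [hanti x] at h1
      have h2 : (2 : K) * ω (b x) x = 0 := by linear_combination h1
      exact (mul_eq_zero.mp h2).resolve_left two_ne_zero
    apply hv
    apply hω.1
    intro y
    by_contra hy
    have h1 := h0 v
    obtain ⟨c, hc⟩ := hone y
    have h2 := h0 y
    rw [hc, map_smul, LinearMap.smul_apply, smul_eq_mul] at h2
    have hc0 : c = 0 := (mul_eq_zero.mp h2).resolve_right hy
    have h3 := h0 (v + y)
    rw [map_add b, hc, hc0, zero_smul, add_zero, map_add, h1, zero_add] at h3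
    exact hy h3
  have hodd : Odd k := by
    rw [← Nat.not_even_iff_odd]
    intro hev
    apply hsgn
    rcases hε with h | h
    · rw [h, one_pow]
    · rw [h]; exact hev.neg_one_pow
  refine ⟨k, d, rk a0, ε, hodd, hbr.symm, hρ, hk, ?_⟩
  intro hk1
  subst hk1
  obtain ⟨I', M', hI', hM', -, hLe⟩ := hk
  change M' = ⊥ at hM'
  rw [hM', sup_bot_eq] at hLe
  intro M hM hMi
  by_cases hM0 : M = ⊥
  · exact Or.inl hM0
  · right
    rw [hLe]
    exact hI'.2.2.1 M (by rw [← hLe]; exact hM) ⟨hM, hMi⟩ hM0

theorem trans_min [IsAlgClosed K] [CharZero K] (hL : IrrSymp ω L) (hω : ω.Nondegenerate)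
    {T : Set (Module.End K V ≃+* Module.End K V)} (hT : ∀ τ ∈ T, Tw L τ)
    (h1 : RingEquiv.refl _ ∈ T) (h2 : ∀ τ ∈ T, ∀ τ' ∈ T, τ'.trans τ ∈ T) (hS : TSmp L T)
    {I I' : Submodule K (Module.End K V)} (hI : IsMin L I) (hI' : IsMin L I') :
    ∃ τ ∈ T, ∀ x, τ x ∈ I' ↔ x ∈ I := by
  obtain ⟨hId, hne, hmin⟩ := hI
  obtain ⟨hId', hne', hmin'⟩ := hI'
  -- the span of all images is `L`
  have hspan : Submodule.span K {y : Module.End K V | ∃ τ ∈ T, ∃ x ∈ I, y = τ x} = L := by
    have hid : IsId L (Submodule.span K {y : Module.End K V | ∃ τ ∈ T, ∃ x ∈ I, y = τ x}) := by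
      constructor
      · rw [Submodule.span_le]
        rintro y ⟨τ, hτ, x, hx, rfl⟩
        exact ((hT τ hτ).mem x).mpr (hId.1 hx)
      · intro z hz y hy
        refine Submodule.span_induction ?_ ?_ ?_ ?_ hy
        · rintro y ⟨τ, hτ, x, hx, rfl⟩
          have hz' : τ.symm z ∈ L := by
            rw [← (hT τ hτ).mem, RingEquiv.apply_symm_apply]; exact hz
          apply Submodule.subset_span
          refine ⟨τ, hτ, _, hId.2 _ hz' x hx, ?_⟩
          rw [map_sub, map_mul, map_mul, RingEquiv.apply_symm_apply]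
        · simp
        · intro u v _ _ hu hv
          have e : z * (u + v) - (u + v) * z = (z * u - u * z) + (z * v - v * z) := by
            rw [mul_add, add_mul]; abel
          rw [e]; exact Submodule.add_mem _ hu hv
        · intro c u _ hu
          rw [mul_smul_comm, smul_mul_assoc, ← smul_sub]
          exact Submodule.smul_mem _ _ hu
    rcases hS _ hid (by
      intro τ hτ y hy
      obtain ⟨σ, hσ⟩ := (hT τ hτ).semi
      refine Submodule.span_induction ?_ ?_ ?_ ?_ hy
      · rintro y ⟨τ', hτ', x, hx, rfl⟩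
        apply Submodule.subset_span
        exact ⟨_, h2 τ hτ τ' hτ', x, hx, rfl⟩
      · rw [map_zero]; exact Submodule.zero_mem _
      · intro u v _ _ hu hv
        rw [map_add]; exact Submodule.add_mem _ hu hv
      · intro c u _ hu
        rw [hσ]; exact Submodule.smul_mem _ _ hu) with h | h
    · exfalso
      apply hne
      rw [eq_bot_iff, ← h]
      intro z hz
      exact Submodule.subset_span ⟨_, h1, z, hz, rfl⟩
    · exact h
  by_contra hcon
  push Not at hcon
  apply hne'
  rw [eq_bot_iff]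
  intro y hy
  rw [Submodule.mem_bot]
  apply hL.center hω (hId'.1 hy)
  intro z hz
  rw [← hspan] at hz
  refine Submodule.span_induction ?_ ?_ ?_ ?_ hz
  · rintro _ ⟨τ, hτ, x, hx, rfl⟩
    obtain ⟨σ, hσ⟩ := (hT τ hτ).semi
    have hsymm : ∀ (c : K) (x : Module.End K V), τ.symm (c • x) = σ.symm c • τ.symm x := by
      intro c x
      apply τ.injective
      rw [hσ]; simp
    have hsL : ∀ y, τ.symm y ∈ L ↔ y ∈ L := by
      intro y
      rw [← (hT τ hτ).mem, RingEquiv.apply_symm_apply]
    have himI : IsId L (imT τ hσ I) := by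
      refine ⟨fun y hy => (hsL y).mp (hId.1 hy), ?_⟩
      intro x hx y hy
      rw [mem_imT, map_sub, map_mul, map_mul]
      exact hId.2 _ ((hsL x).mpr hx) _ hy
    have hinf : I' ⊓ imT τ hσ I = ⊥ := by
      by_contra h
      have e1 : I' ⊓ imT τ hσ I = I' := hmin' _ inf_le_left (inf_isId hId' himI) h
      have hle : I' ≤ imT τ hσ I := by rw [← e1]; exact inf_le_right
      have hJ : imT τ.symm (σ := σ.symm) hsymm I' = I := by
        apply hmin
        · intro x hx
          rw [mem_imT, RingEquiv.symm_symm] at hx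
          have := hle hx
          rw [mem_imT, RingEquiv.symm_apply_apply] at this
          exact this
        · refine ⟨fun y hy => ?_, ?_⟩
          · rw [mem_imT, RingEquiv.symm_symm] at hy
            exact ((hT τ hτ).mem y).mp (hId'.1 hy)
          · intro x hx y hy
            rw [mem_imT, RingEquiv.symm_symm, map_sub, map_mul, map_mul]
            rw [mem_imT, RingEquiv.symm_symm] at hy
            exact hId'.2 _ (((hT τ hτ).mem x).mpr hx) _ hy
        · intro h'
          apply hne'
          rw [eq_bot_iff]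
          intro x hx
          have h1 : τ.symm x ∈ imT τ.symm (σ := σ.symm) hsymm I' := by
            rw [mem_imT, RingEquiv.symm_symm, RingEquiv.apply_symm_apply]; exact hx
          rw [h', Submodule.mem_bot] at h1
          rw [Submodule.mem_bot]
          have := congrArg τ h1
          simpa using this
      obtain ⟨x0, hx0⟩ := hcon τ hτ
      have e2 : τ x0 ∈ I' ↔ x0 ∈ I := by
        rw [← hJ, mem_imT, RingEquiv.symm_symm]
      rcases hx0 with h3 | h3
      · exact h3.2 (e2.mp h3.1)
      · exact h3.1 (e2.mpr h3.2)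
    have hτx : τ x ∈ imT τ hσ I := by rw [mem_imT, RingEquiv.symm_apply_apply]; exact hx
    exact IrrSymp.comm_of_inf hId' himI hinf hy hτx
  · simp
  · intro u v _ _ hu hv
    rw [mul_add, add_mul, hu, hv]
  · intro c u _ hu
    rw [mul_smul_comm, smul_mul_assoc, hu]

theorem min_of_le [IsAlgClosed K] [CharZero K] (hL : IrrSymp ω L) (hω : ω.Nondegenerate)
    {I I1 M : Submodule K (Module.End K V)} (hI : IsMin L I) (hI1 : IsMin L I1) (hM : IsId L M)
    (hinf : I1 ⊓ M = ⊥) (hle : I ≤ I1 ⊔ M) : I = I1 ∨ I ≤ M := by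
  by_cases h : I ⊓ I1 = ⊥
  · right
    have h' : I1 ⊓ I = ⊥ := by rw [inf_comm]; exact h
    intro x hx
    obtain ⟨a, ha, m, hm, hxe⟩ := Submodule.mem_sup.mp (hle hx)
    have h1 : a = 0 := by
      apply hL.inf_orth hω hI1.1 ha
      have h2 := (orth L I1).sub_mem (hL.le_orth hω hI1.1 hI.1 h' hx)
        (hL.le_orth hω hI1.1 hM hinf hm)
      rwa [← hxe, add_sub_cancel_right] at h2
    rw [← hxe, h1, zero_add]
    exact hm
  · left
    have e1 : I ⊓ I1 = I := hI.2.2 _ inf_le_left (inf_isId hI.1 hI1.1) h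
    have e2 : I ⊓ I1 = I1 := hI1.2.2 _ inf_le_right (inf_isId hI.1 hI1.1) h
    rw [← e1, e2]

private lemma ncard_aux_h1 [IsAlgClosed K] [CharZero K] (hL : IrrSymp ω L) (hω : ω.Nondegenerate)
    {ρ d : ℕ} {ε : K} (hρ : finrank K V = ρ * d) (hV : Nontrivial V) : ∀ (n : ℕ)
    (M : Submodule K (Module.End K V)), Dec ω L ρ ε n M →
    {I : Submodule K (Module.End K V) | IsMin L I ∧ I ≤ M}.Finite ∧
      {I : Submodule K (Module.End K V) | IsMin L I ∧ I ≤ M}.ncard = n := by
  intro n
  induction n with
  | zero =>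
    intro M hM
    change M = ⊥ at hM
    have e : {I : Submodule K (Module.End K V) | IsMin L I ∧ I ≤ M} = ∅ := by
      ext I
      simp only [Set.mem_ofPred_eq, Set.mem_empty_iff_false, iff_false]
      rintro ⟨h1, h2⟩
      rw [hM, le_bot_iff] at h2
      exact h1.2.1 h2
    rw [e]
    exact ⟨Set.finite_empty, Set.ncard_empty _⟩
  | succ n ih =>
    rintro M ⟨I1, M', hI1, hM', hinf, rfl⟩
    obtain ⟨hM'id, -⟩ := Dec.main hL hω hρ hV _ M' hM'
    obtain ⟨hfin, hcard⟩ := ih M' hM'
    have hmin1 : IsMin L I1 := ⟨hI1.1, hI1.2.1, hI1.2.2.1⟩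
    have e : {I : Submodule K (Module.End K V) | IsMin L I ∧ I ≤ I1 ⊔ M'} =
        insert I1 {I : Submodule K (Module.End K V) | IsMin L I ∧ I ≤ M'} := by
      ext I
      simp only [Set.mem_ofPred_eq, Set.mem_insert_iff]
      constructor
      · rintro ⟨h1, h2⟩
        rcases min_of_le hL hω h1 hmin1 hM'id hinf h2 with h | h
        · exact Or.inl h
        · exact Or.inr ⟨h1, h⟩
      · rintro (rfl | ⟨h1, h2⟩)
        · exact ⟨hmin1, le_sup_left⟩
        · exact ⟨h1, h2.trans le_sup_right⟩
    have hnot : I1 ∉ {I : Submodule K (Module.End K V) | IsMin L I ∧ I ≤ M'} := by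
      rintro ⟨-, h2⟩
      apply hI1.2.1
      rw [inf_eq_left.mpr h2] at hinf
      exact hinf
    rw [e]
    refine ⟨hfin.insert _, ?_⟩
    rw [Set.ncard_insert_of_notMem hnot hfin, hcard]

theorem ncard_min [IsAlgClosed K] [CharZero K] (hL : IrrSymp ω L) (hω : ω.Nondegenerate)
    {ρ d k : ℕ} {ε : K} (hρ : finrank K V = ρ * d) (hV : Nontrivial V)
    (hdec : Dec ω L ρ ε k L) : {I : Submodule K (Module.End K V) | IsMin L I}.ncard = k := by
  have e : {I : Submodule K (Module.End K V) | IsMin L I} =
      {I : Submodule K (Module.End K V) | IsMin L I ∧ I ≤ L} := by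
    ext I
    simp only [Set.mem_ofPred_eq]
    exact ⟨fun h => ⟨h, h.1.1⟩, fun h => h.1⟩
  rw [e]
  exact (ncard_aux_h1 hL hω hρ hV k L hdec).2

end PR
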