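import Pool.Agent.Helper27.PR.Str

/-!
Block A. Basic facts on the structure `WStr`. Model: `Pool/Agent/Helper93/SR/Str.lean`, where the
same facts are proved for the structure `Str` (the group is generated by the conjugates `SC G T p0`
of one cocharacter); here the group is generated by all its cocharacters `CC G`, so `cpt` is the
definition of `CC`, and `genA`, `genB` have `CC G` in place of `SC G T p0`.

* `c2`: copy of `Str.c2`.
* `cc_conj`: `1 + (t - 1) a p b = a (1 + (t - 1) p) b`.
* `cc_tw`: with `τ (c • x) = σ c • τ x` one has `1 + (t - 1) τ p = τ (1 + (σ⁻¹ t - 1) p)`.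
* `cc_of_sc`: from the two; `sc_conj`, `sc_tw`: copies of `Str.c3`, `Str.c4`.
* `ctx`, `lie_conj`, `lie_tw`, `isTw`, `id_conj`: copies.
* `id_top`: an ideal `M` stable under `T` which contains `2 p0 - 1` contains all `2 p - 1` with
  `p ∈ SC G T p0` (use `id_conj`).
-/

set_option linter.unusedSectionVars false
set_option linter.unusedVariables false

open Module MTP

namespace PR

variable {K : Type*} [Field K] {V : Type*} [AddCommGroup V] [Module K V] [FiniteDimensional K V]

namespace WStr
variable {ω : LinearMap.BilinForm K V} {G : Set (Module.End K V)}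
  {T : Set (Module.End K V ≃+* Module.End K V)} {p0 : Module.End K V} (D : WStr ω G T)
include D

lemma exists_ne_form : ∃ v w, ω v w ≠ 0 := by
  have := D.nt
  obtain ⟨v, hv⟩ := exists_ne (0 : V)
  by_contra hcon
  push Not at hcon
  exact hv (D.nd.1 v (hcon v))

/-- Trichotomy. -/
lemma c2 [CharZero K] {p : Module.End K V} (hp : p ∈ CC G) :
    IsSk ω ((2 : K) • p - 1) ∨ p = 0 ∨ p = 1 := by
  have hpp : p * p = p := hp.1
  obtain ⟨c, hc⟩ := D.sim _ (hp.2 2 two_ne_zero)
  have e : (1 + ((2 : K) - 1) • p) = 1 + p := by norm_num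
  rw [e] at hc
  have h4 := four hpp hc
  have hnd := D.nd
  by_cases c2 : c = 2
  · left
    intro v w
    obtain ⟨a1, -, -, a4⟩ := h4 v w
    have b1 : ω (p v) (p w) = 0 := by
      rw [c2] at a1; exact (mul_eq_zero.mp a1).resolve_left (by norm_num)
    have b4 : ω (v - p v) (w - p w) = 0 := by
      rw [c2] at a4; exact (mul_eq_zero.mp a4).resolve_left (by norm_num)
    simp only [map_sub, LinearMap.sub_apply, LinearMap.smul_apply, map_smul,
      Module.End.one_apply, smul_eq_mul] at b1 b4 ⊢
    linear_combination 2 * b1 - 2 * b4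
  · right
    have b2 : ∀ v w, ω (p v) (w - p w) = 0 := fun v w =>
      (mul_eq_zero.mp (h4 v w).2.1).resolve_left (sub_ne_zero.mpr c2)
    have b3 : ∀ v w, ω (v - p v) (p w) = 0 := fun v w =>
      (mul_eq_zero.mp (h4 v w).2.2.1).resolve_left (sub_ne_zero.mpr c2)
    by_cases c4 : c = 4
    · right
      apply LinearMap.ext
      intro v
      have b4 : ∀ w, ω (v - p v) (w - p w) = 0 := by
        intro w
        have := (h4 v w).2.2.2
        rw [c4] at this
        exact (mul_eq_zero.mp this).resolve_left (by norm_num)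
      have : v - p v = 0 := by
        apply hnd.1
        intro w
        have e : w = p w + (w - p w) := by abel
        rw [e, map_add, b3, b4, add_zero]
      rw [sub_eq_zero] at this
      exact this.symm
    · left
      apply LinearMap.ext
      intro v
      have b1 : ∀ v w, ω (p v) (p w) = 0 := fun v w =>
        (mul_eq_zero.mp (h4 v w).1).resolve_left (sub_ne_zero.mpr c4)
      have : p v = 0 := by
        apply hnd.1
        intro w
        have e : w = p w + (w - p w) := by abel
        rw [e, map_add, b1, b2, add_zero]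
      exact this

lemma sk_ne_zero [CharZero K] {p : Module.End K V} (hp : IsSk ω ((2 : K) • p - 1)) :
    p ≠ 0 ∧ p ≠ 1 := by
  obtain ⟨v, w, hw⟩ := D.exists_ne_form
  constructor
  · rintro rfl
    have := hp v w
    simp only [smul_zero, zero_sub, LinearMap.neg_apply, Module.End.one_apply, map_neg] at this
    have h2 : (2 : K) * ω v w = 0 := by linear_combination -this
    exact hw ((mul_eq_zero.mp h2).resolve_left two_ne_zero)
  · rintro rfl
    have := hp v w
    have e : (2 : K) • (1 : Module.End K V) - 1 = 1 := by module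
    rw [e] at this
    simp only [Module.End.one_apply] at this
    have h2 : (2 : K) * ω v w = 0 := by linear_combination this
    exact hw ((mul_eq_zero.mp h2).resolve_left two_ne_zero)

lemma cc_conj {p : Module.End K V} (hp : p ∈ CC G) {a b : Module.End K V} (ha : a ∈ G)
    (hb : b ∈ G) (hab : a * b = 1) (hba : b * a = 1) : a * p * b ∈ CC G := by
  refine ⟨?_, ?_⟩
  · calc a * p * b * (a * p * b) = a * p * (b * a) * p * b := by simp only [mul_assoc]
      _ = a * (p * p) * b := by rw [hba, mul_one]; simp only [mul_assoc]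
      _ = a * p * b := by rw [hp.1]
  · intro t ht
    have h1 : a * (1 + (t - 1) • p) * b = 1 + (t - 1) • (a * p * b) := by
      rw [mul_add, add_mul, mul_one, hab, mul_smul_comm, smul_mul_assoc]
    rw [← h1]
    exact D.mul _ (D.mul _ ha _ (hp.2 t ht)) _ hb

lemma cc_tw {p : Module.End K V} (hp : p ∈ CC G) {τ : Module.End K V ≃+* Module.End K V}
    (hτ : τ ∈ T) : τ p ∈ CC G := by
  obtain ⟨σ, hσ⟩ := D.semi τ hτ
  refine ⟨?_, ?_⟩
  · rw [← map_mul, hp.1]
  · intro t ht
    have ht' : σ.symm t ≠ 0 := by
      intro h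
      apply ht
      have := congrArg σ h
      rwa [RingEquiv.apply_symm_apply, map_zero] at this
    have h1 := D.tgrp τ hτ _ (hp.2 (σ.symm t) ht')
    rw [map_add, map_one, hσ, map_sub, map_one, RingEquiv.apply_symm_apply] at h1
    exact h1

lemma cc_of_sc (hp0 : p0 ∈ CC G) {p : Module.End K V} (hp : p ∈ SC G T p0) : p ∈ CC G := by
  obtain ⟨τ, hτ, g, hg, h, hh, hgh, hhg, rfl⟩ := hp
  exact D.cc_conj (D.cc_tw hp0 hτ) hg hh hgh hhg

lemma sc_conj {p : Module.End K V} (hp : p ∈ SC G T p0) {a b : Module.End K V} (ha : a ∈ G)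
    (hb : b ∈ G) (hab : a * b = 1) (hba : b * a = 1) : a * p * b ∈ SC G T p0 := by
  obtain ⟨τ, hτ, g, hg, h, hh, hgh, hhg, rfl⟩ := hp
  refine ⟨τ, hτ, a * g, D.mul _ ha _ hg, h * b, D.mul _ hh _ hb, ?_, ?_, ?_⟩
  · calc a * g * (h * b) = a * (g * h) * b := by simp only [mul_assoc]
      _ = 1 := by rw [hgh, mul_one, hab]
  · calc h * b * (a * g) = h * (b * a) * g := by simp only [mul_assoc]
      _ = 1 := by rw [hba, mul_one, hhg]
  · simp only [mul_assoc]

lemma sc_tw {p : Module.End K V} (hp : p ∈ SC G T p0) {τ : Module.End K V ≃+* Module.End K V}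
    (hτ : τ ∈ T) : τ p ∈ SC G T p0 := by
  obtain ⟨τ₁, hτ₁, g, hg, h, hh, hgh, hhg, rfl⟩ := hp
  refine ⟨τ₁.trans τ, D.tmul _ hτ _ hτ₁, τ g, D.tgrp _ hτ _ hg, τ h, D.tgrp _ hτ _ hh,
    ?_, ?_, ?_⟩
  · rw [← map_mul, hgh, map_one]
  · rw [← map_mul, hhg, map_one]
  · rw [map_mul, map_mul]; rfl

/-- The involution of a conjugate lies in the Lie algebra. -/
lemma sk_of_sc [CharZero K] (hp0 : p0 ∈ CC G) (hsk : IsSk ω ((2 : K) • p0 - 1))
    {p : Module.End K V} (hp : p ∈ SC G T p0) :
    IsSk ω ((2 : K) • p - 1) ∧ (2 : K) • p - 1 ∈ WL ω G := by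
  obtain ⟨h0, h1⟩ := D.sk_ne_zero hsk
  have hc := D.cc_of_sc hp0 hp
  have hne : p ≠ 0 ∧ p ≠ 1 := by
    obtain ⟨τ, hτ, g, hg, h, hh, hgh, hhg, rfl⟩ := hp
    have e : τ p0 = h * (g * τ p0 * h) * g := by
      calc τ p0 = 1 * τ p0 * 1 := by simp
        _ = (h * g) * τ p0 * (h * g) := by rw [hhg]
        _ = _ := by simp only [mul_assoc]
    constructor
    · intro h2
      apply h0
      apply τ.injective
      rw [e, h2, mul_zero, zero_mul, map_zero]
    · intro h2
      apply h1
      apply τ.injective
      rw [e, h2, mul_one, hhg, map_one]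
  have h2 : IsSk ω ((2 : K) • p - 1) := by
    rcases D.c2 hc with h | h | h
    · exact h
    · exact absurd h hne.1
    · exact absurd h hne.2
  exact ⟨h2, subset_lieGen _ ⟨p, hc, h2, rfl⟩⟩

private lemma sk_of_h4 [CharZero K] {p : Module.End K V} (hp : p ∈ CC G) (h0 : p ≠ 0)
    (h1 : p ≠ 1) : IsSk ω ((2 : K) • p - 1) := by
  rcases D.c2 hp with h | h | h
  · exact h
  · exact absurd h h0
  · exact absurd h h1

private lemma wi_conj_h4 [CharZero K] {s : Module.End K V} (hs : s ∈ WI ω G) {a b : Module.End K V}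
    (ha : a ∈ G) (hb : b ∈ G) (hab : a * b = 1) (hba : b * a = 1) :
    a * s * b ∈ WI ω G := by
  obtain ⟨p, hp, hsk, rfl⟩ := hs
  obtain ⟨h0, h1⟩ := D.sk_ne_zero hsk
  have e : p = b * (a * p * b) * a := by
    calc p = 1 * p * 1 := by simp
      _ = (b * a) * p * (b * a) := by rw [hba]
      _ = _ := by simp only [mul_assoc]
  refine ⟨a * p * b, D.cc_conj hp ha hb hab hba, D.sk_of_h4 (D.cc_conj hp ha hb hab hba) ?_ ?_, ?_⟩
  · intro h2; apply h0; rw [e, h2]; simp
  · intro h2; apply h1; rw [e, h2, mul_one, hba]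
  · rw [mul_sub, sub_mul, mul_one, hab, mul_smul_comm, smul_mul_assoc]

private lemma wi_tw_h4 [CharZero K] {s : Module.End K V} (hs : s ∈ WI ω G)
    {τ : Module.End K V ≃+* Module.End K V} (hτ : τ ∈ T) : τ s ∈ WI ω G := by
  obtain ⟨p, hp, hsk, rfl⟩ := hs
  obtain ⟨h0, h1⟩ := D.sk_ne_zero hsk
  obtain ⟨σ, hσ⟩ := D.semi τ hτ
  refine ⟨τ p, D.cc_tw hp hτ, D.sk_of_h4 (D.cc_tw hp hτ) ?_ ?_, ?_⟩
  · intro h2; apply h0; apply τ.injective; rw [h2, map_zero]
  · intro h2; apply h1; apply τ.injective; rw [h2, map_one]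
  · rw [map_sub, map_one, hσ]
    congr 2
    exact map_ofNat σ 2

private lemma wi_sq_h4 {s : Module.End K V} (hs : s ∈ WI ω G) : s * s = 1 := by
  obtain ⟨p, hp, hsk, rfl⟩ := hs
  have h1 : p * p = p := hp.1
  simp only [sub_mul, mul_sub, smul_mul_assoc, mul_smul_comm, h1, mul_one, one_mul]
  module

/-- The Lie algebra is irreducible and generated by involutions. -/
lemma ctx [CharZero K] : Ctx ω (WL ω G) (WI ω G) where
  irr := by
    refine ⟨fun x hx y hy => lieGen_comm hx hy, ?_, ?_⟩
    · intro x hx
      let M : Submodule K (Module.End K V) :=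
        { carrier := {x | IsSk ω x}
          add_mem' := by
            intro x y hx hy v w
            rw [LinearMap.add_apply, LinearMap.add_apply, map_add, map_add,
              LinearMap.add_apply, hx v w, hy v w]
            ring
          zero_mem' := by intro v w; simp
          smul_mem' := by
            intro c x hx v w
            rw [LinearMap.smul_apply, LinearMap.smul_apply, map_smul, map_smul,
              LinearMap.smul_apply, hx v w, smul_eq_mul, smul_eq_mul]
            ring }
      have : WL ω G ≤ M := by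
        apply lieGen_le
        · intro x hx y hy v w
          have h1 : IsSk ω x := hx
          have h2 : IsSk ω y := hy
          simp only [LinearMap.sub_apply, Module.End.mul_apply, map_sub]
          rw [h1, h2, h2, h1]
          ring
        · rintro s ⟨p, hp, hsk, rfl⟩
          exact hsk
      exact this hx
    · intro W hW
      apply D.irr W
      let M : Subalgebra K (Module.End K V) :=
        { carrier := {x | ∀ w ∈ W, x w ∈ W}
          mul_mem' := by
            intro x y hx hy w hw
            exact hx _ (hy w hw)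
          one_mem' := by intro w hw; exact hw
          add_mem' := by
            intro x y hx hy w hw
            exact W.add_mem (hx w hw) (hy w hw)
          zero_mem' := by intro w hw; exact W.zero_mem
          algebraMap_mem' := by
            intro c w hw
            exact W.smul_mem c hw }
      have hM : ∀ p ∈ CC G, p ∈ M := by
        intro p hp w hw
        rcases D.c2 hp with hsk | h | h
        · have h1 := hW _ (subset_lieGen _ ⟨p, hp, hsk, rfl⟩) w hw
          have h2 : ((2 : K) • p - 1) w = (2 : K) • p w - w := rfl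
          rw [h2] at h1
          have h3 := W.smul_mem (2 : K)⁻¹ (W.add_mem h1 hw)
          rwa [sub_add_cancel, smul_smul, inv_mul_cancel₀ two_ne_zero, one_smul] at h3
        · rw [h]; exact W.zero_mem
        · rw [h]; exact hw
      intro g hg
      exact D.genA M hM g hg
  nd := D.nd
  inv := fun s hs => ⟨subset_lieGen _ hs, D.wi_sq_h4 hs⟩
  gen := fun M h1 h2 => lieGen_le h1 h2

/-- `G` normalises the Lie algebra. -/
lemma lie_conj [CharZero K] {a b : Module.End K V} (ha : a ∈ G) (hb : b ∈ G) (hab : a * b = 1)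
    (hba : b * a = 1) {x : Module.End K V} (hx : x ∈ WL ω G) : a * x * b ∈ WL ω G := by
  let M : Submodule K (Module.End K V) :=
    { carrier := {x | a * x * b ∈ WL ω G}
      add_mem' := by
        intro x y hx hy
        rw [Set.mem_ofPred_eq] at *
        rw [mul_add, add_mul]; exact Submodule.add_mem _ hx hy
      zero_mem' := by simp
      smul_mem' := by
        intro c x hx
        rw [Set.mem_ofPred_eq] at *
        rw [mul_smul_comm, smul_mul_assoc]; exact Submodule.smul_mem _ _ hx }
  have : WL ω G ≤ M := by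
    apply lieGen_le
    · intro x hx y hy
      have hx' : a * x * b ∈ WL ω G := hx
      have hy' : a * y * b ∈ WL ω G := hy
      have h1 := lieGen_comm hx' hy'
      change a * (x * y - y * x) * b ∈ WL ω G
      have e : a * x * b * (a * y * b) - a * y * b * (a * x * b) = a * (x * y - y * x) * b := by
        calc a * x * b * (a * y * b) - a * y * b * (a * x * b)
            = a * x * (b * a) * y * b - a * y * (b * a) * x * b := by simp only [mul_assoc]
          _ = _ := by rw [hba, mul_sub, sub_mul]; simp only [mul_one, mul_assoc]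
      rw [e] at h1
      exact h1
    · intro s hs
      exact subset_lieGen _ (D.wi_conj_h4 hs ha hb hab hba)
  exact this hx

/-- The symmetries preserve the Lie algebra. -/
lemma lie_tw [CharZero K] {τ : Module.End K V ≃+* Module.End K V} (hτ : τ ∈ T)
    {x : Module.End K V} (hx : x ∈ WL ω G) : τ x ∈ WL ω G := by
  obtain ⟨σ, hσ⟩ := D.semi τ hτ
  let M : Submodule K (Module.End K V) :=
    { carrier := {x | τ x ∈ WL ω G}
      add_mem' := by
        intro x y hx hy
        rw [Set.mem_ofPred_eq] at *
        rw [map_add]; exact Submodule.add_mem _ hx hy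
      zero_mem' := by simp
      smul_mem' := by
        intro c x hx
        rw [Set.mem_ofPred_eq] at *
        rw [hσ]; exact Submodule.smul_mem _ _ hx }
  have : WL ω G ≤ M := by
    apply lieGen_le
    · intro x hx y hy
      have hx' : τ x ∈ WL ω G := hx
      have hy' : τ y ∈ WL ω G := hy
      have h1 := lieGen_comm hx' hy'
      change τ (x * y - y * x) ∈ WL ω G
      rw [map_sub, map_mul, map_mul]
      exact h1
    · intro s hs
      exact subset_lieGen _ (D.wi_tw_h4 hs hτ)
  exact this hx

lemma isTw [CharZero K] {τ : Module.End K V ≃+* Module.End K V} (hτ : τ ∈ T) :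
    Tw (WL ω G) τ where
  semi := D.semi τ hτ
  rk := D.rk τ hτ
  mem := by
    intro x
    constructor
    · intro h
      have h1 := D.lie_tw (D.tinv τ hτ) h
      rwa [RingEquiv.symm_apply_apply] at h1
    · exact fun h => D.lie_tw hτ h

/-- Ideals of the Lie algebra are stable under `G`. -/
lemma id_conj [CharZero K] {M : Submodule K (Module.End K V)} (hM : IsId (WL ω G) M)
    {g h : Module.End K V} (hg : g ∈ G) (hh : h ∈ G) (hgh : g * h = 1) (hhg : h * g = 1)
    {x : Module.End K V} (hx : x ∈ M) : g * x * h ∈ M := by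
  refine D.genB M ?_ g hg h hh hgh hhg x hx
  intro p hp t ht x hx
  rcases D.c2 hp with hsk | rfl | rfl
  · have hs : (2 : K) • p - 1 ∈ WL ω G := subset_lieGen _ ⟨p, hp, hsk, rfl⟩
    have hpp : p * p = p := hp.1
    have key : ∀ y ∈ M, p * y - y * p ∈ M := by
      intro y hy
      have h1 := hM.2 _ hs y hy
      have e : ((2 : K) • p - 1) * y - y * ((2 : K) • p - 1) = (2 : K) • (p * y - y * p) := by
        simp only [sub_mul, mul_sub, smul_mul_assoc, mul_smul_comm, mul_one, one_mul]
        module
      rw [e] at h1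
      have h2 := M.smul_mem (2 : K)⁻¹ h1
      rwa [smul_smul, inv_mul_cancel₀ two_ne_zero, one_smul] at h2
    have a1 := key x hx
    have a2 := key _ a1
    have e2 : p * (p * x - x * p) - (p * x - x * p) * p =
        p * x + x * p - (2 : K) • (p * x * p) := by
      have : p * (p * x - x * p) - (p * x - x * p) * p =
          (p * p) * x + x * (p * p) - p * x * p - p * x * p := by
        simp only [mul_sub, sub_mul, mul_assoc]; abel
      rw [this, hpp]
      module
    rw [e2] at a2
    have e3 : (1 + (t - 1) • p) * x * (1 + (t⁻¹ - 1) • p) =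
        x + ((t - t⁻¹) / 2) • (p * x - x * p) +
          ((t + t⁻¹ - 2) / 2) • (p * x + x * p - (2 : K) • (p * x * p)) := by
      have h1 : (t - 1) * (t⁻¹ - 1) = 2 - t - t⁻¹ := by field_simp; ring
      have h2 : (1 + (t - 1) • p) * x * (1 + (t⁻¹ - 1) • p) =
          x + (t - 1) • (p * x) + (t⁻¹ - 1) • (x * p) +
            ((t - 1) * (t⁻¹ - 1)) • (p * x * p) := by
        simp only [add_mul, mul_add, one_mul, mul_one, smul_mul_assoc, mul_smul_comm]
        module
      rw [h2, h1]
      module
    rw [e3]
    exact M.add_mem (M.add_mem hx (M.smul_mem _ a1)) (M.smul_mem _ a2)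
  · simpa using hx
  · have e : (1 + (t - 1) • (1 : Module.End K V)) * x * (1 + (t⁻¹ - 1) • 1) =
        (t * t⁻¹) • x := by
      simp only [add_mul, mul_add, one_mul, mul_one, smul_mul_assoc, mul_smul_comm]
      module
    rw [e, mul_inv_cancel₀ ht, one_smul]
    exact hx

lemma id_top [CharZero K] {M : Submodule K (Module.End K V)} (hM : IsId (WL ω G) M)
    (hT : ∀ τ ∈ T, ∀ x ∈ M, τ x ∈ M) (h0 : (2 : K) • p0 - 1 ∈ M) {p : Module.End K V}
    (hp : p ∈ SC G T p0) : (2 : K) • p - 1 ∈ M := by
  obtain ⟨τ, hτ, g, hg, h, hh, hgh, hhg, rfl⟩ := hp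
  obtain ⟨σ, hσ⟩ := D.semi τ hτ
  have h1 := hT τ hτ _ h0
  rw [map_sub, map_one, hσ, map_ofNat] at h1
  have h2 := D.id_conj hM hg hh hgh hhg h1
  have e : g * ((2 : K) • τ p0 - 1) * h = (2 : K) • (g * τ p0 * h) - 1 := by
    rw [mul_sub, sub_mul, mul_one, hgh, mul_smul_comm, smul_mul_assoc]
  rwa [e] at h2

end WStr

end PR
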