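import Pool.Agent.Helper93.SR.Defs

/-!
Symplectic Mumford-Tate pairs of weights zero and one with a group of semilinear symmetries, and
the data of a place of residue characteristic equal to the prime of the representation: the slopes
of a rational average of conjugates of one cocharacter.
-/

open Module MTPairs

namespace PR

section pairs

variable {K : Type*} [Field K] {m : Type*} [Fintype m] [DecidableEq m]

/-- `G` belongs to a symplectic Mumford-Tate pair of weights `0` and `1` and is normalised by the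
group `Γ` of semilinear automorphisms of `K^m`. -/
structure IsGalPair (Γ : Subgroup (Equiv.Perm (m → K))) (J : Matrix m m K)
    (G : Subgroup (Matrix.GeneralLinearGroup m K)) : Prop extends IsMTPair J G where
  semi : ∀ θ ∈ Γ, IsSemilinear θ
  norm : ∀ θ ∈ Γ, ∀ g ∈ G, ∃ g' ∈ G, ∀ v : m → K,
    (g' : Matrix m m K).mulVec (θ v) = θ ((g : Matrix m m K).mulVec v)

/-- The standard representation is irreducible. -/
def IsIrr (G : Subgroup (Matrix.GeneralLinearGroup m K)) : Prop :=
  ∀ U : Submodule K (m → K), (∀ g ∈ G, ∀ v ∈ U, (g : Matrix m m K).mulVec v ∈ U) →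
    U = ⊥ ∨ U = ⊤

/-- There are pairwise commuting conjugates `P i` of `π` under `Γ` and `G` and positive integers
`c i` such that the class under `G` of the average `ν = (∑ c i • P i) / ∑ c i` is stable under
`Γ`, and `Λ` is the multiset of the eigenvalues of `ν` (with multiplicities). -/
def HasSlopes (Γ : Subgroup (Equiv.Perm (m → K))) (G : Subgroup (Matrix.GeneralLinearGroup m K))
    (π : Matrix m m K) (Λ : Multiset ℚ) : Prop :=
  ∃ (n : ℕ) (c : Fin n → ℕ) (P : Fin n → Matrix m m K),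
    (∀ i, 0 < c i ∧ IsConj Γ G π (P i)) ∧ (∀ i j, P i * P j = P j * P i) ∧
    (∀ θ ∈ Γ, ∃ g ∈ G, ∀ v : m → K,
      (∑ i, c i • P i).mulVec ((g : Matrix m m K).mulVec (θ v)) =
        (g : Matrix m m K).mulVec (θ ((∑ i, c i • P i).mulVec v))) ∧
    Λ.card = Fintype.card m ∧
    ∀ l : ℚ, finrank K (Module.End.eigenspace (∑ i, c i • P i).mulVecLin
      (((∑ i, c i : ℕ) * l : ℚ) : K)) = Λ.count l

/-- The conjugacy class of `π` under `G` is stable under a subgroup of index `N` of `Γ`. -/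
def HasIndex (Γ : Subgroup (Equiv.Perm (m → K))) (G : Subgroup (Matrix.GeneralLinearGroup m K))
    (π : Matrix m m K) (N : ℕ) : Prop :=
  ∃ Γ' ≤ Γ, Γ'.relIndex Γ = N ∧ ∀ θ ∈ Γ', ∃ g ∈ G, ∀ v : m → K,
    π.mulVec ((g : Matrix m m K).mulVec (θ v)) = (g : Matrix m m K).mulVec (θ (π.mulVec v))

end pairs

/-- The family `x` of rational numbers is symmetric. -/
def Symm {n : ℕ} (x : Fin n → ℚ) : Prop := ∃ e : Equiv.Perm (Fin n), ∀ i, x (e i) = - x i

/-- The sums of one half and of `k` terms of a symmetric family of `d` numbers of absolute value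
at most `1 / (2 k)`, for an odd divisor `k ≥ 3` of `N` and an even `d`. -/
def TensorPolygon (Λ : Multiset ℚ) (N : ℕ) : Prop :=
  ∃ (k d : ℕ) (a : Fin d → ℚ), 3 ≤ k ∧ Odd k ∧ k ∣ N ∧ Even d ∧ Symm a ∧
    (∀ i, |a i| ≤ 1 / (2 * k)) ∧
    Λ = Finset.univ.val.map (fun φ : Fin k → Fin d => 1 / 2 + ∑ i, a (φ i))

/-- The sums of `n` terms of a family of `2 n` nonnegative numbers of sum one, or, for `N` even,
the sums of one half and `n` terms of a symmetric family of `2 n` numbers whose absolute values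
have a sum at most one; `n ≥ 3` is odd. -/
def WedgePolygon (Λ : Multiset ℚ) (N : ℕ) : Prop :=
  ∃ (n : ℕ) (x : Fin (2 * n) → ℚ), 3 ≤ n ∧ Odd n ∧
    (((∀ i, 0 ≤ x i) ∧ ∑ i, x i = 1 ∧
      Λ = (Finset.powersetCard n Finset.univ).val.map (fun I => ∑ i ∈ I, x i)) ∨
    (Even N ∧ Symm x ∧ ∑ i, |x i| ≤ 1 ∧
      Λ = (Finset.powersetCard n Finset.univ).val.map (fun I => 1 / 2 + ∑ i ∈ I, x i)))

/-- The numbers `(1 ± x 0 ± ... ± x q) / 2` with an even number of minus signs, the absolute
values of the `x i` having a sum at most one; `q ≥ 5`, and `q` is `1` modulo `4`, or `q` is `2`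
modulo `4` and `x 0 = 0`. -/
def SpinPolygon (Λ : Multiset ℚ) : Prop :=
  ∃ (q : ℕ) (x : Fin (q + 1) → ℚ), 5 ≤ q ∧ (q % 4 = 1 ∨ q % 4 = 2 ∧ x 0 = 0) ∧
    ∑ i, |x i| ≤ 1 ∧
    Λ = (Finset.univ.filter (fun I : Finset (Fin (q + 1)) => Even I.card)).val.map
      (fun I => 1 / 2 + 1 / 2 * ∑ i, if i ∈ I then - x i else x i)

end PR
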