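import Pool.Agent.Helper27.PR.Str
import Pool.Agent.Helper27.PR.Defs

/-!
Block CS. Counting eigenvalues; the slopes in the spin case.

`eig_count`: an operator which is diagonal in the basis `b`.
`symm_of_pow`: equality of the sums of all powers of the families `y` and `- y` of rational numbers
implies that they are equal up to a permutation: for every polynomial `P`,
`∑ P (y l) = ∑ P (- y l)`; with `P` the Lagrange polynomial which is `1` at a value `v` and `0` at the
other elements of `{y l} ∪ {- y l}` this says that `v` is taken equally often by the two families.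
`spin_slopes`: `2 p i - 1 = ε i • u (j i)` with `u j (b I) = - b I` iff `j ∈ I`, `ε i = 1, -1`;
`x j = ∑_{i : j i = j} ε i c i / C`, `C = ∑ c i > 0`; on `b I` the eigenvalue of `nu c p / C` is
`1/2 + 1/2 ∑ j, (if j ∈ I then - x j else x j)`. The number of the `I` in the subtype is the number
in the filtered set.
-/

set_option linter.unusedSectionVars false
set_option linter.unusedVariables false

open Module MTP

namespace PR

variable {K : Type*} [Field K] {V : Type*} [AddCommGroup V] [Module K V] [FiniteDimensional K V]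

theorem eig_count {κ : Type*} [Fintype κ] (b : Basis κ K V) (f : Module.End K V) (μ : κ → K)
    (h : ∀ I, f (b I) = μ I • b I) (l : K) [DecidablePred fun I => μ I = l] :
    finrank K (Module.End.eigenspace f l) = (Finset.univ.filter fun I => μ I = l).card := by
  classical
  have hspan : Module.End.eigenspace f l = Submodule.span K (b '' {I | μ I = l}) := by
    ext v
    rw [Module.End.mem_eigenspace_iff, b.mem_span_image]
    have hf : ∀ I, b.repr (f v) I = μ I * b.repr v I := by
      intro I
      have h1 : f v = ∑ J, (b.repr v J * μ J) • b J := by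
        conv_lhs => rw [← b.sum_repr v]
        rw [map_sum]
        refine Finset.sum_congr rfl fun J _ => ?_
        rw [map_smul, h, smul_smul]
      rw [h1, map_sum, Finsupp.finsetSum_apply, Finset.sum_eq_single I]
      · simp [mul_comm]
      · intro J _ hJ
        simp [hJ]
      · simp
    constructor
    · intro hv I hI
      rw [Finset.mem_coe, Finsupp.mem_support_iff] at hI
      have h2 := hf I
      rw [hv, map_smul, Finsupp.smul_apply, smul_eq_mul] at h2
      exact (mul_right_cancel₀ hI h2).symm
    · intro hv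
      apply b.repr.injective
      ext I
      rw [hf I, map_smul, Finsupp.smul_apply, smul_eq_mul]
      by_cases hI : b.repr v I = 0
      · rw [hI, mul_zero, mul_zero]
      · have : I ∈ {I | μ I = l} := hv (by simpa using hI)
        rw [show μ I = l from this]
  rw [hspan, Set.image_eq_range]
  have hli : LinearIndependent K fun x : {I | μ I = l} => b x.1 :=
    b.linearIndependent.comp _ Subtype.val_injective
  rw [finrank_span_eq_card hli]
  rw [Fintype.card_subtype]
  congr 1

theorem symm_of_pow {n : ℕ} (y : Fin n → ℚ) (h : ∀ q : ℕ, ∑ l, y l ^ q = (-1) ^ q * ∑ l, y l ^ q) :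
    Symm y := by
  classical
  have hP : ∀ P : Polynomial ℚ, ∑ l, P.eval (y l) = ∑ l, P.eval (- y l) := by
    intro P
    induction P using Polynomial.induction_on' with
    | add p q hp hq => simp only [Polynomial.eval_add, Finset.sum_add_distrib, hp, hq]
    | monomial k a =>
      simp only [Polynomial.eval_monomial, ← Finset.mul_sum]
      rw [h k, Finset.mul_sum]
      congr 1
      exact Finset.sum_congr rfl fun l _ => (neg_pow (y l) k).symm
  have hcard : ∀ v : ℚ, Fintype.card {l // - y l = v} = Fintype.card {l // y l = v} := by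
    intro v
    set S := Finset.univ.image y ∪ Finset.univ.image (fun l => - y l) with hS
    set P : Polynomial ℚ := ∏ w ∈ S.erase v, (Polynomial.X - Polynomial.C w) with hPd
    have hev : ∀ x : ℚ, P.eval x = ∏ w ∈ S.erase v, (x - w) := by
      intro x
      rw [hPd, Polynomial.eval_prod]
      simp
    have hv : P.eval v ≠ 0 := by
      rw [hev, Finset.prod_ne_zero_iff]
      intro w hw
      exact sub_ne_zero.mpr (Finset.ne_of_mem_erase hw).symm
    have hx : ∀ x ∈ S, P.eval x = if x = v then P.eval v else 0 := by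
      intro x hxS
      split_ifs with hxv
      · rw [hxv]
      · rw [hev]
        exact Finset.prod_eq_zero (Finset.mem_erase.mpr ⟨hxv, hxS⟩) (sub_self x)
    have h1 := hP P
    rw [Finset.sum_congr rfl (fun l _ => hx (y l) (Finset.mem_union_left _ (Finset.mem_image_of_mem _ (Finset.mem_univ l)))),
      Finset.sum_congr rfl (fun l _ => hx (- y l) (Finset.mem_union_right _ (Finset.mem_image_of_mem (fun l => - y l) (Finset.mem_univ l)))),
      ← Finset.sum_filter, ← Finset.sum_filter, Finset.sum_const, Finset.sum_const, nsmul_eq_mul, nsmul_eq_mul] at h1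
    have h2 := mul_right_cancel₀ hv h1
    rw [Fintype.card_subtype, Fintype.card_subtype]
    exact_mod_cast h2.symm
  let e1 : ∀ v : ℚ, {l // - y l = v} ≃ {l // y l = v} := fun v => Fintype.equivOfCardEq (hcard v)
  refine ⟨(Equiv.sigmaFiberEquiv (fun l => - y l)).symm.trans ((Equiv.sigmaCongrRight e1).trans (Equiv.sigmaFiberEquiv y)), fun i => ?_⟩
  have h3 := (e1 (- y i) ⟨i, rfl⟩).2
  exact h3

theorem spin_slopes [CharZero K] {n : ℕ} (hn : 0 < n) {c : Fin n → ℕ} (hc : ∀ i, 0 < c i)
    {p : Fin n → Module.End K V} {q : ℕ}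
    (b : Basis {I : Finset (Fin (q + 1)) // Even I.card} K V)
    (h : ∀ i, ∃ j : Fin (q + 1), (q % 4 = 2 → j ≠ 0) ∧
      ((∀ I, ((2 : K) • p i - 1) (b I) = (if j ∈ I.1 then (-1 : K) else 1) • b I) ∨
       (∀ I, ((2 : K) • p i - 1) (b I) = (if j ∈ I.1 then (1 : K) else -1) • b I))) :
    ∃ x : Fin (q + 1) → ℚ, (q % 4 = 2 → x 0 = 0) ∧ ∑ i, |x i| ≤ 1 ∧ ∀ l : ℚ,
      finrank K (Module.End.eigenspace (nu c p) (((∑ i, c i : ℕ) * l : ℚ) : K)) =
        (((Finset.univ : Finset (Finset (Fin (q + 1)))).filter fun I => Even I.card).filter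
          fun I => 1 / 2 + 1 / 2 * (∑ i, if i ∈ I then - x i else x i) = l).card := by
  classical
  choose j hj0 hj using h
  have hε : ∀ i, ∃ ε : ℚ, |ε| = 1 ∧ ∀ I, ((2 : K) • p i - 1) (b I) = ((ε * (if j i ∈ I.1 then -1 else 1) : ℚ) : K) • b I := by
    intro i
    rcases hj i with h1 | h1
    · refine ⟨1, by norm_num, fun I => ?_⟩
      rw [h1 I]
      split_ifs <;> simp
    · refine ⟨-1, by norm_num, fun I => ?_⟩
      rw [h1 I]
      split_ifs <;> simp
  choose ε hε1 hε using hε
  have hC : 0 < ((∑ i, c i : ℕ) : ℚ) := by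
    have : 0 < ∑ i, c i := Finset.sum_pos (fun i _ => hc i) ⟨⟨0, hn⟩, Finset.mem_univ _⟩
    exact_mod_cast this
  set C : ℚ := ((∑ i, c i : ℕ) : ℚ) with hCd
  have hCs : C = ∑ i, (c i : ℚ) := by rw [hCd]; push_cast; rfl
  set x : Fin (q + 1) → ℚ := fun k => ∑ i, if j i = k then ε i * c i / C else 0 with hx
  have hpi : ∀ i I, p i (b I) = ((1 / 2 + 1 / 2 * (ε i * (if j i ∈ I.1 then -1 else 1)) : ℚ) : K) • b I := by
    intro i I
    have h1 := hε i I
    rw [LinearMap.sub_apply, LinearMap.smul_apply, Module.End.one_apply, sub_eq_iff_eq_add] at h1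
    have h2 : (2 : K) ≠ 0 := two_ne_zero
    have h3 : p i (b I) = (2 : K)⁻¹ • ((2 : K) • p i (b I)) := by rw [smul_smul, inv_mul_cancel₀ h2, one_smul]
    rw [h3, h1, smul_add, smul_smul]
    conv_lhs => rw [← one_smul K (b I), smul_smul, smul_smul, ← add_smul]
    congr 1
    push_cast
    ring
  have hnu : ∀ I, nu c p (b I) = (((C * (1 / 2 + 1 / 2 * (∑ i, if i ∈ I.1 then - x i else x i)) : ℚ)) : K) • b I := by
    intro I
    have h1 : nu c p (b I) = ((∑ i, (c i : ℚ) * (1 / 2 + 1 / 2 * (ε i * (if j i ∈ I.1 then -1 else 1))) : ℚ) : K) • b I := by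
      unfold nu
      rw [LinearMap.sum_apply, Rat.cast_sum, Finset.sum_smul]
      refine Finset.sum_congr rfl fun i _ => ?_
      rw [LinearMap.smul_apply, hpi, ← Nat.cast_smul_eq_nsmul K, smul_smul]
      congr 1
      push_cast
      ring
    rw [h1]
    congr 2
    have h2 : ∑ k, (if k ∈ I.1 then - x k else x k) = ∑ i, ε i * c i / C * (if j i ∈ I.1 then -1 else 1) := by
      have h3 : ∀ k, (if k ∈ I.1 then - x k else x k) = ∑ i, if j i = k then ε i * c i / C * (if k ∈ I.1 then -1 else 1) else 0 := by
        intro k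
        have h4 : (if k ∈ I.1 then - x k else x k) = x k * (if k ∈ I.1 then -1 else 1) := by
          split_ifs <;> ring
        rw [h4, hx, Finset.sum_mul]
        refine Finset.sum_congr rfl fun i _ => ?_
        rw [ite_mul, zero_mul]
      rw [Finset.sum_congr rfl fun k _ => h3 k, Finset.sum_comm]
      refine Finset.sum_congr rfl fun i _ => ?_
      rw [Finset.sum_ite_eq]
      simp
    have h5 : C * ∑ i, ε i * c i / C * (if j i ∈ I.1 then -1 else 1) = ∑ i, ε i * c i * (if j i ∈ I.1 then -1 else 1) := by
      rw [Finset.mul_sum]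
      refine Finset.sum_congr rfl fun i _ => ?_
      rw [← mul_assoc, mul_div_cancel₀ _ hC.ne']
    have h6 : C * (1 / 2 + 1 / 2 * ∑ i, ε i * c i / C * (if j i ∈ I.1 then -1 else 1)) =
        1 / 2 * C + 1 / 2 * ∑ i, ε i * c i * (if j i ∈ I.1 then -1 else 1) := by
      rw [← h5]
      ring
    rw [h2, h6, hCs, Finset.mul_sum, Finset.mul_sum, ← Finset.sum_add_distrib]
    refine Finset.sum_congr rfl fun i _ => ?_
    ring
  refine ⟨x, ?_, ?_, ?_⟩
  · intro hq
    rw [hx]
    exact Finset.sum_eq_zero fun i _ => if_neg (hj0 i hq)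
  · calc ∑ k, |x k| ≤ ∑ k, ∑ i, |if j i = k then ε i * c i / C else 0| :=
          Finset.sum_le_sum fun k _ => Finset.abs_sum_le_sum_abs _ _
      _ = ∑ i, ∑ k, |if j i = k then ε i * c i / C else 0| := Finset.sum_comm
      _ = ∑ i, (c i : ℚ) / C := by
          refine Finset.sum_congr rfl fun i _ => ?_
          rw [Finset.sum_eq_single (j i)]
          · rw [if_pos rfl, abs_div, abs_mul, hε1, one_mul, abs_of_pos hC, Nat.abs_cast]
          · intro k _ hk
            rw [if_neg (Ne.symm hk), abs_zero]
          · simp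
      _ = 1 := by rw [← Finset.sum_div, ← hCs, div_self hC.ne']
      _ ≤ 1 := le_refl _
  · intro l
    rw [eig_count b (nu c p) (fun I => (((C * (1 / 2 + 1 / 2 * (∑ i, if i ∈ I.1 then - x i else x i)) : ℚ)) : K)) hnu]
    refine Finset.card_bij (fun I _ => I.1) ?_ ?_ ?_
    · intro I hI
      rw [Finset.mem_filter] at hI
      rw [Finset.mem_filter, Finset.mem_filter]
      refine ⟨⟨Finset.mem_univ _, I.2⟩, ?_⟩
      have h1 := Rat.cast_injective hI.2
      exact mul_left_cancel₀ hC.ne' h1
    · intro I _ I' _ hII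
      exact Subtype.ext hII
    · intro I hI
      rw [Finset.mem_filter, Finset.mem_filter] at hI
      refine ⟨⟨I, hI.1.2⟩, ?_, rfl⟩
      rw [Finset.mem_filter]
      refine ⟨Finset.mem_univ _, ?_⟩
      rw [hI.2]

end PR
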