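import Pool.Agent.Helper27.PR.Defs

/-!
Block RS. The multiplicity of the slope zero for the spin polygons.

* `spin_rank`: write `y i = x i` or `- x i` for the terms, `y i ≥ - |x i|`. Since
  `∑ |x i| ≤ 1` the slope `1 / 2 + 1 / 2 * ∑ y i` is zero if and only if `∑ |x i| = 1` and
  `y i = - |x i|` for all `i`, that is, `i ∈ I` for `x i > 0` and `i ∉ I` for `x i < 0`. If `z` of
  the `x i` are zero then the number of the `I` of even order is `2 ^ (z - 1)` for `z ≥ 1` and at
  most one for `z = 0`; so an odd number is one (for `z ≥ 2` toggling two fixed zeros is a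
  fixed point free involution of the set of these `I`, so the number is even; for `z ≤ 1` two such
  `I` agree outside one element, and then by parity everywhere). The total number of the even
  subsets of `Fin (q + 1)` is `2 ^ q`.
* `spin_poly`: `x 0 = 0` and `x i = 1 / q` otherwise.
-/

namespace PR

private theorem card_sd32 {n : ℕ} (I P : Finset (Fin n)) : (symmDiff I P).card + 2 * (I ∩ P).card = I.card + P.card := by
  classical
  have h1 : symmDiff I P = (I \ P) ∪ (P \ I) := rfl
  have h2 : Disjoint (I \ P) (P \ I) := by
    rw [Finset.disjoint_left]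
    intro a ha hb
    exact (Finset.mem_sdiff.1 hb).2 (Finset.mem_sdiff.1 ha).1
  rw [h1, Finset.card_union_of_disjoint h2]
  have h3 := Finset.card_sdiff_add_card_inter I P
  have h4 := Finset.card_sdiff_add_card_inter P I
  rw [Finset.inter_comm P I] at h4
  omega

private theorem ysum32 {n : ℕ} {x : Fin n → ℚ} (hx : ∑ i, |x i| ≤ 1) {I : Finset (Fin n)}
    (hI : ∑ i, (if i ∈ I then - x i else x i) = -1) : ∀ i, (if i ∈ I then - x i else x i) = - |x i| := by
  have h1 : ∑ i, ((if i ∈ I then - x i else x i) + |x i|) ≤ 0 := by
    rw [Finset.sum_add_distrib, hI]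
    linarith
  have h2 : ∀ i ∈ Finset.univ, 0 ≤ (if i ∈ I then - x i else x i) + |x i| := by
    intro i _
    split_ifs
    · have := le_abs_self (x i)
      linarith
    · have := neg_abs_le (x i)
      linarith
  have h3 := (Finset.sum_eq_zero_iff_of_nonneg h2).1 (le_antisymm h1 (Finset.sum_nonneg h2))
  intro i
  have := h3 i (Finset.mem_univ i)
  linarith

private theorem mem_iff32 {n : ℕ} {x : Fin n → ℚ} (hx : ∑ i, |x i| ≤ 1) {I : Finset (Fin n)}
    (hI : ∑ i, (if i ∈ I then - x i else x i) = -1) {i : Fin n} (hi : x i ≠ 0) : i ∈ I ↔ 0 < x i := by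
  have h1 := ysum32 hx hI i
  rcases lt_or_gt_of_ne hi with h | h
  · rw [abs_of_neg h, neg_neg] at h1
    constructor
    · intro hm
      rw [if_pos hm] at h1
      linarith
    · intro h2
      linarith
  · rw [abs_of_pos h] at h1
    constructor
    · intro _
      exact h
    · intro _
      by_contra hm
      rw [if_neg hm] at h1
      linarith

private theorem even_card32 (q : ℕ) :
    (Finset.univ.filter (fun I : Finset (Fin (q + 1)) => Even I.card)).card = 2 ^ q := by
  classical
  have h1 : (Finset.univ.filter (fun I : Finset (Fin (q + 1)) => Even I.card)).card =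
      (Finset.univ.filter (fun I : Finset (Fin (q + 1)) => ¬ Even I.card)).card := by
    refine Finset.card_bij' (fun I _ => symmDiff I {0}) (fun I _ => symmDiff I {0}) ?_ ?_ ?_ ?_
    · intro I hI
      rw [Finset.mem_filter] at hI ⊢
      refine ⟨Finset.mem_univ _, ?_⟩
      by_cases h0 : (0 : Fin (q + 1)) ∈ I
      · have h2 : symmDiff I {0} = I.erase 0 := by
          ext j
          simp only [Finset.mem_symmDiff, Finset.mem_singleton, Finset.mem_erase]
          constructor
          · rintro (⟨h, h'⟩ | ⟨h, h'⟩)
            · exact ⟨h', h⟩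
            · rw [h] at h'
              exact absurd h0 h'
          · rintro ⟨h, h'⟩
            exact Or.inl ⟨h', h⟩
        rw [h2, Finset.card_erase_of_mem h0]
        have h3 : 0 < I.card := Finset.card_pos.2 ⟨0, h0⟩
        have h4 := hI.2
        rw [Nat.even_iff] at h4 ⊢
        omega
      · have h2 : symmDiff I {0} = insert 0 I := by
          ext j
          simp only [Finset.mem_symmDiff, Finset.mem_singleton, Finset.mem_insert]
          constructor
          · rintro (⟨h, h'⟩ | ⟨h, h'⟩)
            · exact Or.inr h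
            · exact Or.inl h
          · rintro (h | h)
            · right
              rw [h]
              exact ⟨rfl, h0⟩
            · left
              refine ⟨h, fun h' => ?_⟩
              rw [h'] at h
              exact h0 h
        rw [h2, Finset.card_insert_of_notMem h0]
        have h4 := hI.2
        rw [Nat.even_iff] at h4 ⊢
        omega
    · intro I hI
      rw [Finset.mem_filter] at hI ⊢
      refine ⟨Finset.mem_univ _, ?_⟩
      by_cases h0 : (0 : Fin (q + 1)) ∈ I
      · have h2 : symmDiff I {0} = I.erase 0 := by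
          ext j
          simp only [Finset.mem_symmDiff, Finset.mem_singleton, Finset.mem_erase]
          constructor
          · rintro (⟨h, h'⟩ | ⟨h, h'⟩)
            · exact ⟨h', h⟩
            · rw [h] at h'
              exact absurd h0 h'
          · rintro ⟨h, h'⟩
            exact Or.inl ⟨h', h⟩
        rw [h2, Finset.card_erase_of_mem h0]
        have h3 : 0 < I.card := Finset.card_pos.2 ⟨0, h0⟩
        have h4 := hI.2
        rw [Nat.even_iff] at h4 ⊢
        omega
      · have h2 : symmDiff I {0} = insert 0 I := by
          ext j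
          simp only [Finset.mem_symmDiff, Finset.mem_singleton, Finset.mem_insert]
          constructor
          · rintro (⟨h, h'⟩ | ⟨h, h'⟩)
            · exact Or.inr h
            · exact Or.inl h
          · rintro (h | h)
            · right
              rw [h]
              exact ⟨rfl, h0⟩
            · left
              refine ⟨h, fun h' => ?_⟩
              rw [h'] at h
              exact h0 h
        rw [h2, Finset.card_insert_of_notMem h0]
        have h4 := hI.2
        rw [Nat.even_iff] at h4 ⊢
        omega
    · intro I _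
      exact symmDiff_symmDiff_cancel_right _ _
    · intro I _
      exact symmDiff_symmDiff_cancel_right _ _
  have h2 := Finset.card_filter_add_card_filter_not (s := (Finset.univ : Finset (Finset (Fin (q + 1)))))
    (fun I => Even I.card)
  rw [← h1, Finset.card_univ, Fintype.card_finset, Fintype.card_fin, pow_succ] at h2
  omega

private theorem count32 {n : ℕ} (x : Fin n → ℚ) :
    ((Finset.univ.filter (fun I : Finset (Fin n) => Even I.card)).val.map
      (fun I => 1 / 2 + 1 / 2 * ∑ i, if i ∈ I then - x i else x i)).count 0 =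
    (Finset.univ.filter (fun I : Finset (Fin n) => Even I.card ∧
      ∑ i, (if i ∈ I then - x i else x i) = -1)).card := by
  classical
  rw [Multiset.count_map, ← Finset.filter_val, Finset.card_val, Finset.filter_filter]
  congr 1
  apply Finset.filter_congr
  intro I _
  apply and_congr_right
  intro _
  constructor
  · intro h
    linarith
  · intro h
    rw [h]
    norm_num

/-- at most one zero: at most one set -/
private theorem card_le32 {n : ℕ} {x : Fin n → ℚ} (hx : ∑ i, |x i| ≤ 1) (hz : ∀ i j, x i = 0 → x j = 0 → i = j) :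
    (Finset.univ.filter (fun I : Finset (Fin n) => Even I.card ∧
      ∑ i, (if i ∈ I then - x i else x i) = -1)).card ≤ 1 := by
  classical
  rw [Finset.card_le_one]
  intro I hI J hJ
  rw [Finset.mem_filter] at hI hJ
  obtain ⟨-, hI1, hI2⟩ := hI
  obtain ⟨-, hJ1, hJ2⟩ := hJ
  have h1 : ∀ i, x i ≠ 0 → (i ∈ I ↔ i ∈ J) := fun i hi => by rw [mem_iff32 hx hI2 hi, mem_iff32 hx hJ2 hi]
  by_contra hne
  obtain ⟨i, hi⟩ : ∃ i, ¬ (i ∈ I ↔ i ∈ J) := by
    by_contra hcon
    push Not at hcon
    exact hne (Finset.ext hcon)
  have hxi : x i = 0 := by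
    by_contra h
    exact hi (h1 i h)
  have h2 : ∀ j, j ≠ i → (j ∈ I ↔ j ∈ J) := by
    intro j hj
    apply h1
    intro h
    exact hj (hz j i h hxi)
  have h3 : I.erase i = J.erase i := by
    ext j
    simp only [Finset.mem_erase]
    constructor
    · rintro ⟨h, h'⟩
      exact ⟨h, (h2 j h).1 h'⟩
    · rintro ⟨h, h'⟩
      exact ⟨h, (h2 j h).2 h'⟩
  rw [Nat.even_iff] at hI1 hJ1
  by_cases hiI : i ∈ I
  · have hiJ : i ∉ J := fun h => hi ⟨fun _ => h, fun _ => hiI⟩
    have h4 : J.erase i = J := Finset.erase_eq_of_notMem hiJ
    have h5 := Finset.card_erase_of_mem hiI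
    have h6 : 0 < I.card := Finset.card_pos.2 ⟨i, hiI⟩
    rw [h3, h4] at h5
    omega
  · have hiJ : i ∈ J := by
      by_contra h
      exact hi ⟨fun h' => absurd h' hiI, fun h' => absurd h' h⟩
    have h4 : I.erase i = I := Finset.erase_eq_of_notMem hiI
    have h5 := Finset.card_erase_of_mem hiJ
    have h6 : 0 < J.card := Finset.card_pos.2 ⟨i, hiJ⟩
    rw [← h3, h4] at h5
    omega

/-- two zeros: an even number of sets -/
private theorem card_even32 {n : ℕ} {x : Fin n → ℚ} {i j : Fin n} (hij : i ≠ j) (hi : x i = 0) (hj : x j = 0) :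
    Even (Finset.univ.filter (fun I : Finset (Fin n) => Even I.card ∧
      ∑ i, (if i ∈ I then - x i else x i) = -1)).card := by
  classical
  set A := Finset.univ.filter (fun I : Finset (Fin n) => Even I.card ∧
      ∑ i, (if i ∈ I then - x i else x i) = -1) with hA
  have hmem : ∀ I ∈ A, symmDiff I {i, j} ∈ A := by
    intro I hI
    rw [hA, Finset.mem_filter] at hI ⊢
    obtain ⟨-, hI1, hI2⟩ := hI
    refine ⟨Finset.mem_univ _, ?_, ?_⟩
    · have h1 := card_sd32 I {i, j}
      rw [Finset.card_pair hij] at h1
      rw [Nat.even_iff] at hI1 ⊢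
      omega
    · rw [← hI2]
      refine Finset.sum_congr rfl fun l _ => ?_
      by_cases hl : l = i ∨ l = j
      · have hxl : x l = 0 := by
          rcases hl with h | h
          · rw [h, hi]
          · rw [h, hj]
        rw [hxl]
        simp
      · have h2 : l ∈ symmDiff I {i, j} ↔ l ∈ I := by
          rw [Finset.mem_symmDiff]
          have h3 : l ∉ ({i, j} : Finset (Fin n)) := by
            rw [Finset.mem_insert, Finset.mem_singleton]
            exact hl
          constructor
          · rintro (h | h)
            · exact h.1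
            · exact absurd h.1 h3
          · intro h
            exact Or.inl ⟨h, h3⟩
        rw [if_congr h2 rfl rfl]
  have h1 : ∑ I ∈ A, (1 : ZMod 2) = 0 := by
    refine Finset.sum_involution (fun I _ => symmDiff I {i, j}) ?_ ?_ ?_ ?_
    · intro I _
      decide
    · intro I _ _ h
      have h2 : i ∈ symmDiff I {i, j} ↔ i ∉ I := by
        rw [Finset.mem_symmDiff]
        simp
      rw [h] at h2
      exact (iff_not_self h2).elim
    · intro I hI
      exact hmem I hI
    · intro I _
      exact symmDiff_symmDiff_cancel_right _ _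
  rw [Finset.sum_const, nsmul_eq_mul, mul_one] at h1
  rw [even_iff_two_dvd]
  exact (ZMod.natCast_eq_zero_iff _ _).1 h1

theorem spin_rank {Λ : Multiset ℚ} (h : SpinPolygon Λ) (h0 : Odd (Λ.count 0)) :
    ∃ q : ℕ, 5 ≤ q ∧ (q % 4 = 1 ∨ q % 4 = 2) ∧ Λ.count 0 = 1 ∧ Λ.card = 2 ^ q := by
  obtain ⟨q, x, h5, hq, hx, rfl⟩ := h
  refine ⟨q, h5, ?_, ?_, ?_⟩
  · rcases hq with h | ⟨h, -⟩
    · exact Or.inl h
    · exact Or.inr h
  · rw [count32] at h0 ⊢
    by_cases hz : ∀ i j, x i = 0 → x j = 0 → i = j
    · have h1 := card_le32 hx hz
      have h2 := h0.pos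
      omega
    · push Not at hz
      obtain ⟨i, j, hi, hj, hij⟩ := hz
      have h1 := card_even32 hij hi hj
      exact absurd h1 (Nat.not_even_iff_odd.2 h0)
  · rw [Multiset.card_map, Finset.card_val, even_card32]

theorem spin_poly {q : ℕ} (h5 : 5 ≤ q) (hq : q % 4 = 1 ∨ q % 4 = 2) :
    ∃ Λ : Multiset ℚ, SpinPolygon Λ ∧ Λ.count 0 = 1 ∧ Λ.card = 2 ^ q := by
  classical
  have hq0 : (q : ℚ) ≠ 0 := by
    have : q ≠ 0 := by omega
    exact_mod_cast this
  have hqpos : (0 : ℚ) < q := by
    have : 0 < q := by omega
    exact_mod_cast this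
  set x : Fin (q + 1) → ℚ := fun i => if i = 0 then 0 else 1 / (q : ℚ) with hxdef
  have hx0 : x 0 = 0 := by rw [hxdef]; simp
  have hxi : ∀ i : Fin q, x i.succ = 1 / (q : ℚ) := by
    intro i
    rw [hxdef]
    simp [Fin.succ_ne_zero]
  have hsum : ∑ i, |x i| = 1 := by
    rw [Fin.sum_univ_succ, hx0, abs_zero, zero_add]
    simp only [hxi]
    rw [Finset.sum_const, Finset.card_univ, Fintype.card_fin, nsmul_eq_mul, abs_of_pos (by positivity)]
    field_simp
  refine ⟨_, ⟨q, x, h5, ?_, hsum.le, rfl⟩, ?_, ?_⟩
  · rcases hq with h | h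
    · exact Or.inl h
    · exact Or.inr ⟨h, hx0⟩
  · rw [count32]
    apply le_antisymm
    · apply card_le32 hsum.le
      intro i j hi hj
      have h1 : ∀ i, x i = 0 → i = 0 := by
        intro i hi
        by_contra hne
        rw [hxdef] at hi
        simp only [if_neg hne] at hi
        have : (0 : ℚ) < 1 / q := by positivity
        linarith
      rw [h1 i hi, h1 j hj]
    · rw [Nat.succ_le_iff, Finset.card_pos]
      rcases hq with h | h
      · refine ⟨Finset.univ, Finset.mem_filter.2 ⟨Finset.mem_univ _, ?_, ?_⟩⟩
        · rw [Finset.card_univ, Fintype.card_fin, Nat.even_iff]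
          omega
        · simp only [Finset.mem_univ, if_true]
          rw [Finset.sum_neg_distrib, Fin.sum_univ_succ, hx0, zero_add]
          simp only [hxi]
          rw [Finset.sum_const, Finset.card_univ, Fintype.card_fin, nsmul_eq_mul]
          field_simp
      · refine ⟨Finset.univ.erase 0, Finset.mem_filter.2 ⟨Finset.mem_univ _, ?_, ?_⟩⟩
        · rw [Finset.card_erase_of_mem (Finset.mem_univ _), Finset.card_univ, Fintype.card_fin, Nat.even_iff]
          omega
        · rw [Fin.sum_univ_succ]
          simp only [Finset.mem_erase, Finset.mem_univ, and_true, ne_eq, Fin.succ_ne_zero, not_false_eq_true,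
            not_true_eq_false, if_true, if_false]
          rw [hx0, zero_add]
          simp only [hxi]
          rw [Finset.sum_const, Finset.card_univ, Fintype.card_fin, nsmul_eq_mul]
          field_simp
  · rw [Multiset.card_map, Finset.card_val, even_card32]

end PR
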