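import Pool.Agent.Helper27.PR.Defs

/-!
Block RT. The multiplicity of the slope zero for the tensor polygons.

* `tensor_rank`: `1 / 2 + ∑ i, a (φ i) = 0` if and only if `a (φ i) = - 1 / (2 k)` for all `i`
  (each term is at least `- 1 / (2 k)` and there are `k` of them), so with
  `r = #{j | a j = - 1 / (2 k)}` the number of the `φ` is `r ^ k` (`Fintype.card_pi` or
  `Fintype.piFinset`); by symmetry `#{j | a j = 1 / (2 k)} = r`, so `2 r ≤ d`.
* `tensor_poly`: `a j = - 1 / (2 k)` for `j < r`, `1 / (2 k)` for `d - r ≤ j`, zero otherwise, with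
  the symmetry `Fin.rev`.
-/

namespace PR

private lemma count63 {k d : ℕ} (hk : 0 < k) (a : Fin d → ℚ) (ha : ∀ i, |a i| ≤ 1 / (2 * k)) :
    (Finset.univ.val.map (fun φ : Fin k → Fin d => 1 / 2 + ∑ i, a (φ i))).count 0 =
      (Finset.univ.filter (fun j => a j = -(1 / (2 * k)))).card ^ k := by
  classical
  have hk0 : (0 : ℚ) < k := by exact_mod_cast hk
  rw [Multiset.count_map]
  have h1 : (Multiset.filter (fun φ : Fin k → Fin d => (0 : ℚ) = 1 / 2 + ∑ i, a (φ i)) Finset.univ.val).card =
      (Finset.univ.filter (fun φ : Fin k → Fin d => (0 : ℚ) = 1 / 2 + ∑ i, a (φ i))).card := rfl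
  rw [h1]
  have h2 : Finset.univ.filter (fun φ : Fin k → Fin d => (0 : ℚ) = 1 / 2 + ∑ i, a (φ i)) =
      Fintype.piFinset (fun _ : Fin k => Finset.univ.filter (fun j => a j = -(1 / (2 * k)))) := by
    ext φ
    rw [Finset.mem_filter, Fintype.mem_piFinset]
    have e : ∑ i, (a (φ i) + 1 / (2 * k)) = 1 / 2 + ∑ i, a (φ i) := by
      rw [Finset.sum_add_distrib, Finset.sum_const, Finset.card_univ, Fintype.card_fin, nsmul_eq_mul, add_comm]
      congr 1
      field_simp
    constructor
    · rintro ⟨-, h⟩ i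
      rw [← e] at h
      have h3 := (Finset.sum_eq_zero_iff_of_nonneg (fun i _ => by
        have := (abs_le.mp (ha (φ i))).1
        linarith)).mp h.symm i (Finset.mem_univ i)
      rw [Finset.mem_filter]
      exact ⟨Finset.mem_univ _, by linarith⟩
    · intro h
      refine ⟨Finset.mem_univ _, ?_⟩
      rw [← e]
      symm
      refine Finset.sum_eq_zero fun i _ => ?_
      have := (Finset.mem_filter.mp (h i)).2
      rw [this]
      ring
  rw [h2, Fintype.card_piFinset, Finset.prod_const, Finset.card_univ, Fintype.card_fin]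

private lemma card63 {k d : ℕ} (a : Fin d → ℚ) :
    (Finset.univ.val.map (fun φ : Fin k → Fin d => 1 / 2 + ∑ i, a (φ i))).card = d ^ k := by
  rw [Multiset.card_map]
  change Finset.univ.card = _
  rw [Finset.card_univ, Fintype.card_fun, Fintype.card_fin, Fintype.card_fin]

theorem tensor_rank {Λ : Multiset ℚ} {N : ℕ} (h : TensorPolygon Λ N) :
    ∃ k d r : ℕ, 3 ≤ k ∧ Odd k ∧ k ∣ N ∧ Even d ∧ 2 * r ≤ d ∧ Λ.count 0 = r ^ k ∧
      Λ.card = d ^ k := by
  classical
  obtain ⟨k, d, a, h3, hk, hN, hd, ⟨e, he⟩, ha, rfl⟩ := h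
  have hk0 : (0 : ℚ) < k := by exact_mod_cast (by omega : 0 < k)
  have hc : (0 : ℚ) < 1 / (2 * k) := by positivity
  refine ⟨k, d, (Finset.univ.filter (fun j => a j = -(1 / (2 * k)))).card, h3, hk, hN, hd, ?_,
    count63 (by omega) a ha, card63 a⟩
  set A := Finset.univ.filter (fun j => a j = -(1 / (2 * k : ℚ))) with hA
  have hdis : Disjoint A (A.map e.toEmbedding) := by
    rw [Finset.disjoint_left]
    intro j hj hj'
    rw [Finset.mem_map_equiv] at hj'
    have h1 := (Finset.mem_filter.mp hj).2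
    have h2 := (Finset.mem_filter.mp hj').2
    have h4 := he (e.symm j)
    rw [Equiv.apply_symm_apply, h1, h2] at h4
    linarith
  have h1 : (A ∪ A.map e.toEmbedding).card ≤ d := by
    have := Finset.card_le_univ (A ∪ A.map e.toEmbedding)
    rwa [Fintype.card_fin] at this
  rw [Finset.card_union_of_disjoint hdis, Finset.card_map] at h1
  omega

theorem tensor_poly {k d r N : ℕ} (h3 : 3 ≤ k) (hk : Odd k) (hN : k ∣ N) (hd : Even d)
    (hr : 2 * r ≤ d) :
    ∃ Λ : Multiset ℚ, TensorPolygon Λ N ∧ Λ.count 0 = r ^ k ∧ Λ.card = d ^ k := by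
  classical
  have hk0 : (0 : ℚ) < k := by exact_mod_cast (by omega : 0 < k)
  have hc : (0 : ℚ) < 1 / (2 * k) := by positivity
  obtain ⟨a, hadef⟩ : ∃ a : Fin d → ℚ, ∀ j, a j = if j.val < r then -(1 / (2 * k : ℚ)) else
      if d - r ≤ j.val then 1 / (2 * k : ℚ) else 0 := ⟨_, fun _ => rfl⟩
  have ha : ∀ i, |a i| ≤ 1 / (2 * k) := by
    intro i
    rw [hadef]
    split_ifs
    · rw [abs_neg, abs_of_pos hc]
    · rw [abs_of_pos hc]
    · rw [abs_zero]; exact hc.le
  refine ⟨_, ⟨k, d, a, h3, hk, hN, hd, ⟨Fin.revPerm, fun i => ?_⟩, ha, rfl⟩, ?_, card63 a⟩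
  · rw [hadef, hadef, Fin.revPerm_apply, Fin.val_rev]
    have hi := i.2
    by_cases h1 : i.val < r
    · rw [if_neg (by omega), if_pos (by omega), if_pos h1, neg_neg]
    · by_cases h2 : d - r ≤ i.val
      · rw [if_pos (by omega), if_neg h1, if_pos h2]
      · rw [if_neg (by omega), if_neg (by omega), if_neg h1, if_neg h2, neg_zero]
  · rw [count63 (by omega) a ha]
    congr 1
    have e : Finset.univ.filter (fun j => a j = -(1 / (2 * k : ℚ))) =
        Finset.univ.filter (fun j : Fin d => j.val < r) := by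
      refine Finset.filter_congr fun j _ => ?_
      rw [hadef]
      split_ifs with h1 h2
      · exact iff_of_true rfl h1
      · exact iff_of_false (by intro h; linarith) h1
      · exact iff_of_false (by intro h; linarith) h1
    rw [e, Fin.card_filter_val_lt]
    omega

end PR
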