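import Pool.Agent.Helper27.PR.ShDefs
import Pool.Agent.Helper14.PT.SpF

/-!
Block SS. Examples in the spin case.

`q = 1` modulo `4`, `q ≥ 5`: the half spin representation of `Spin (2 q + 2)`, of dimension `2 ^ q`
(symplectic, `q + 1 = 2` modulo `4`), weights the even subsets of `Fin (q + 1)`; `q = 2` modulo `4`:
the spin representation of `Spin (2 q + 1)`. On the same space `V = K ^ (2 ^ q)` with the Clifford
generators of the library (`Helper83/TR/Spin.lean`, `SpinMain.lean`, `Helper21/TR/SpinEig.lean`,
`Helper82/UN/EE`): the Lie algebra is spanned by the products of two of the `2 q + 1` (resp.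
`2 q + 2`: the products and the generators themselves) Clifford generators.
`u_j` = the involution which is `-1` on the basis vector of `I` iff `j ∈ I`; `P_j^± = (1 ± u_j) / 2`, all
conjugate under `G` (Weyl group). `Γ` = the scalars `ζ` with `ζ ^ N = 1`, `Γ' = ⊥`.
Coefficients: `|x_j|` for `P_j^+` or `P_j^-` according to the sign of `x_j`, and the rest
`1 - ∑ |x|` equally divided between `P_1^+` and `P_1^-`. The average is `1/2 + 1/2 ∑ x_j u_j`.
-/

open Module MTPairs

namespace PR

theorem sharp_spin {K : Type*} [Field K] [IsAlgClosed K] [CharZero K] {Λ : Multiset ℚ} {N : ℕ}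
    (h : SpinPolygon Λ) (hN : 0 < N) : Bad K Λ N := sharp_spin14 h hN

end PR
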