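import Pool.Agent.Helper27.PR.ShDefs
import Pool.Agent.Helper93.SR.Orb

/-!
Block ST. Examples in the tensor case.

`V = (K ^ d) ^ (⊗ k)`, index type `Fin k → Fin 2 × Fin n` with `d = 2 n` (`d ≥ 2` even as `Λ ≠ 0`),
`J = J1 ⊗ ... ⊗ J1` with `J1` the standard symplectic form of `K ^ d` (skew because `k` is odd),
`G = GT K n (k - 1)` = the Zariski closed group generated by the conjugates of
`π = X0 ⊗ 1 ⊗ .. ⊗ 1` of the example of `Helper93/SR` (`Ten4.lean`), `X0` an idempotent of rank
`d / 2` with isotropic image and kernel. `Γ` is generated by `ζ • rot`, `rot` the cyclic rotation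
of the factors, `ζ` a primitive `N`-th root of unity: cyclic of order exactly `N` (`k ∣ N`; on a
vector fixed by `rot` the power `j` acts by `ζ ^ j`), and `Γ' = ⊥` has index `N`.
Slopes: the symmetric family `a` is numbered (after sorting) by `Fin 2 × Fin n` such that its values
at `(0, j)` and `(1, j)` are `b j` and `- b j`. The values `x_j = 1/2 + k b_j` are in `[0, 1]`; with
a common denominator `Q`, `x_j = c_j / Q` with `0 ≤ c_j ≤ Q`. For `t < Q` let `P_t` be the idempotent
which is `1` on `e_j` and `0` on `f_j` if `t < c_j`, and `0` on `e_j` and `1` on `f_j` otherwise: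
`∑ P_t = diag (c_j; Q - c_j)`. Take the family of the rotations of the `P_t ⊗ 1 ⊗ .. ⊗ 1`, over the
pairs (rotation, `t`), with the coefficients `1`: all are conjugate to `π` under `Γ` and `G` (by an
element of the Weyl group, a product of three unipotents of `G`), they commute,
`ν = (1 / (k Q)) ∑_i (diag (c; Q - c) at the factor i)` commutes with the rotation, its eigenvalue
at `φ` is `(1 / k) ∑_i (1/2 + k a (φ i)) = 1/2 + ∑_i a (φ i)`.
`G` is not everything: it normalises the space of the matrices acting on the first factor only.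
-/

open Module MTPairs

namespace PR

open MTP

/-! ### The pairing of a symmetric family -/

private lemma pair54 {d : ℕ} (hd : Even d) (a : Fin d → ℚ) (hs : Symm a) :
    ∃ (n : ℕ) (b : Fin n → ℚ) (e : Fin 2 × Fin n ≃ Fin d), d = n + n ∧
      ∀ p, a (e p) = if p.1 = 0 then b p.2 else - b p.2 := by
  obtain ⟨n, rfl⟩ := hd
  obtain ⟨e, he⟩ := hs
  set σ := Tuple.sort a with hσ
  have h1 : Monotone (a ∘ σ) := Tuple.monotone_sort a
  have h2 : Monotone (a ∘ (Fin.revPerm.trans (σ.trans e) : Equiv.Perm (Fin (n + n)))) := by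
    intro i j hij
    have : ∀ i, (a ∘ (Fin.revPerm.trans (σ.trans e) : Equiv.Perm (Fin (n + n)))) i =
        - (a ∘ σ) (Fin.rev i) := by
      intro i
      simp [he]
    rw [this, this]
    exact neg_le_neg (h1 (Fin.rev_le_rev.mpr hij))
  have h3 := Tuple.unique_monotone h1 h2
  have h4 : ∀ i, a (σ (Fin.rev i)) = - a (σ i) := by
    intro i
    have := congrFun h3 i
    simp [he] at this
    linarith
  let f : Fin 2 × Fin n → Fin (n + n) := fun p =>
    if p.1 = 0 then σ (Fin.castAdd n p.2) else σ (Fin.rev (Fin.castAdd n p.2))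
  have hf : Function.Injective f := by
    rintro ⟨s, i⟩ ⟨t, j⟩ h
    have hs : s = 0 ∨ s = 1 := by fin_cases s <;> simp
    have ht : t = 0 ∨ t = 1 := by fin_cases t <;> simp
    rcases hs with rfl | rfl <;> rcases ht with rfl | rfl
    · simp only [f, if_true] at h
      have := σ.injective h
      simp only [Fin.ext_iff, Fin.val_castAdd] at this
      rw [Fin.ext this]
    · simp only [f, if_true, one_ne_zero, if_false] at h
      have := σ.injective h
      simp only [Fin.ext_iff, Fin.val_castAdd, Fin.val_rev] at this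
      omega
    · simp only [f, if_true, one_ne_zero, if_false] at h
      have := σ.injective h
      simp only [Fin.ext_iff, Fin.val_castAdd, Fin.val_rev] at this
      omega
    · simp only [f, one_ne_zero, if_false] at h
      have := Fin.rev_injective (σ.injective h)
      simp only [Fin.ext_iff, Fin.val_castAdd] at this
      rw [Fin.ext this]
  have hb : Function.Bijective f := by
    rw [Fintype.bijective_iff_injective_and_card]
    refine ⟨hf, ?_⟩
    simp
    omega
  refine ⟨n, fun j => a (σ (Fin.castAdd n j)), Equiv.ofBijective f hb, rfl, ?_⟩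
  rintro ⟨s, i⟩
  rw [Equiv.ofBijective_apply]
  by_cases hs : s = 0
  · simp [f, hs]
  · simp only [f, hs, if_false]
    rw [h4]

/-- Common denominators. -/
private lemma den54 {n : ℕ} (x : Fin n → ℚ) (h0 : ∀ j, 0 ≤ x j) (h1 : ∀ j, x j ≤ 1) :
    ∃ (Q : ℕ) (c : Fin n → ℕ), 0 < Q ∧ (∀ j, c j ≤ Q) ∧ ∀ j, (c j : ℚ) = Q * x j := by
  refine ⟨∏ j, (x j).den, fun j => (x j).num.toNat * ∏ i ∈ Finset.univ.erase j, (x i).den,
    Finset.prod_pos fun j _ => (x j).den_pos, ?_, ?_⟩
  · intro j
    rw [← Finset.mul_prod_erase Finset.univ (fun j => (x j).den) (Finset.mem_univ j)]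
    apply Nat.mul_le_mul_right
    have h2 : (x j).num ≤ (x j).den := by
      have := h1 j
      rw [← Rat.num_div_den (x j), div_le_one (by exact_mod_cast (x j).den_pos)] at this
      exact_mod_cast this
    omega
  · intro j
    rw [← Finset.mul_prod_erase Finset.univ (fun j => (x j).den) (Finset.mem_univ j)]
    push_cast
    have h3 : (((x j).num.toNat : ℕ) : ℚ) = (x j).num := by
      have : (0 : ℤ) ≤ (x j).num := Rat.num_nonneg.mpr (h0 j)
      exact_mod_cast Int.toNat_of_nonneg this
    rw [h3]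
    have h4 : ((x j).num : ℚ) = (x j).den * x j := by
      rw [mul_comm]; exact (Rat.mul_den_eq_num (x j)).symm
    rw [h4]
    ring

/-! ### Diagonal matrices -/

private lemma eig54 {K : Type*} [Field K] {m : Type*} [Fintype m] [DecidableEq m] (D : m → K)
    (μ : K) : finrank K (Module.End.eigenspace (Matrix.diagonal D).mulVecLin μ) =
      Nat.card {x // D x = μ} := by
  classical
  let F : ({x // D x = μ} → K) →ₗ[K] (m → K) :=
    { toFun := fun f x => if h : D x = μ then f ⟨x, h⟩ else 0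
      map_add' := by
        intro f g
        funext x
        by_cases h : D x = μ <;> simp [h]
      map_smul' := by
        intro c f
        funext x
        by_cases h : D x = μ <;> simp [h] }
  have hF : ∀ f x (h : D x = μ), F f x = f ⟨x, h⟩ := by
    intro f x h
    change (if h : D x = μ then f ⟨x, h⟩ else 0) = _
    rw [dif_pos h]
  have hF0 : ∀ f x, ¬ D x = μ → F f x = 0 := by
    intro f x h
    change (if h : D x = μ then f ⟨x, h⟩ else 0) = _
    rw [dif_neg h]
  have hinj : Function.Injective F := by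
    intro f g hfg
    funext ⟨x, h⟩
    rw [← hF f x h, ← hF g x h, hfg]
  have e : Module.End.eigenspace (Matrix.diagonal D).mulVecLin μ = LinearMap.range F := by
    ext v
    rw [Module.End.mem_eigenspace_iff]
    constructor
    · intro hv
      refine ⟨fun x => v x.1, ?_⟩
      funext x
      by_cases h : D x = μ
      · rw [hF _ _ h]
      · rw [hF0 _ _ h]
        have := congrFun hv x
        rw [Matrix.mulVecLin_apply, Matrix.mulVec_diagonal, Pi.smul_apply, smul_eq_mul] at this
        have h2 : (D x - μ) * v x = 0 := by rw [sub_mul, this, sub_self]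
        rcases mul_eq_zero.mp h2 with h3 | h3
        · exact absurd (sub_eq_zero.mp h3) h
        · exact h3.symm
    · rintro ⟨f, rfl⟩
      funext x
      rw [Matrix.mulVecLin_apply, Matrix.mulVec_diagonal, Pi.smul_apply, smul_eq_mul]
      by_cases h : D x = μ
      · rw [h]
      · rw [hF0 _ _ h, mul_zero, mul_zero]
  rw [e, LinearMap.finrank_range_of_inj hinj, Module.finrank_fintype_fun_eq_card,
    Nat.card_eq_fintype_card]

private lemma loc_diag54 {K : Type*} [Field K] {E : Type*} [Fintype E] [DecidableEq E] {k : ℕ}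
    (j : Fin k) (D : E → K) :
    loc j (Matrix.diagonal D) = Matrix.diagonal (fun φ : Fin k → E => D (φ j)) := by
  ext x y
  rw [loc_apply]
  by_cases h : x = y
  · subst h
    simp
  · rw [Matrix.diagonal_apply_ne _ h]
    by_cases h1 : ∀ i, i ≠ j → x i = y i
    · have h2 : x j ≠ y j := by
        intro h2
        apply h
        funext i
        by_cases hi : i = j
        · rw [hi, h2]
        · exact h1 i hi
      rw [Matrix.diagonal_apply_ne _ h2, zero_mul]
    · rw [if_neg h1, mul_zero]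

/-! ### The Weyl elements -/

section weyl
variable {K : Type*} [Field K] {n k : ℕ}

/-- The diagonal idempotent matrix attached to a set of indices. -/
private def S54 (K : Type*) [Field K] {n : ℕ} (w : Fin n → Prop) [DecidablePred w] :
    Matrix (Fin n) (Fin n) K := Matrix.diagonal (fun j => if w j then 0 else 1)

/-- The idempotent which is `1` on `e_j` if `w j` and on `f_j` otherwise. -/
private def D54 (K : Type*) [Field K] {n : ℕ} (w : Fin n → Prop) [DecidablePred w] :
    Fin 2 × Fin n → K :=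
  fun p => if p.1 = 0 then (if w p.2 then 1 else 0) else (if w p.2 then 0 else 1)

private lemma UL54 (w : Fin n → Prop) [DecidablePred w] :
    Up (S54 K w) * Lw (S54 K w) = Matrix.diagonal (fun p : Fin 2 × Fin n =>
      if p.1 = 0 then (if w p.2 then (0 : K) else 1) else 0) := by
  ext ⟨s, i⟩ ⟨t, j⟩
  rw [Matrix.mul_apply, Fintype.sum_prod_type, Fin.sum_univ_two]
  by_cases hij : i = j
  · subst hij
    fin_cases s <;> fin_cases t <;>
      simp [Up, Lw, S54, Matrix.diagonal_apply]
  · fin_cases s <;> fin_cases t <;>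
      simp [Up, Lw, S54, Matrix.diagonal_apply, hij]

private lemma LU54 (w : Fin n → Prop) [DecidablePred w] :
    Lw (S54 K w) * Up (S54 K w) = Matrix.diagonal (fun p : Fin 2 × Fin n =>
      if p.1 = 0 then 0 else (if w p.2 then (0 : K) else 1)) := by
  ext ⟨s, i⟩ ⟨t, j⟩
  rw [Matrix.mul_apply, Fintype.sum_prod_type, Fin.sum_univ_two]
  by_cases hij : i = j
  · subst hij
    fin_cases s <;> fin_cases t <;>
      simp [Up, Lw, S54, Matrix.diagonal_apply]
  · fin_cases s <;> fin_cases t <;>
      simp [Up, Lw, S54, Matrix.diagonal_apply, hij]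

private lemma ULU54 (w : Fin n → Prop) [DecidablePred w] :
    Up (S54 K w) * (Lw (S54 K w) * Up (S54 K w)) = Up (S54 K w) := by
  rw [LU54]
  ext ⟨s, i⟩ ⟨t, j⟩
  rw [Matrix.mul_diagonal]
  by_cases hij : i = j
  · subst hij
    fin_cases s <;> fin_cases t <;> simp [Up, S54]
  · fin_cases s <;> fin_cases t <;> simp [Up, S54, hij]

private lemma LUL54 (w : Fin n → Prop) [DecidablePred w] :
    Lw (S54 K w) * (Up (S54 K w) * Lw (S54 K w)) = Lw (S54 K w) := by
  rw [UL54]
  ext ⟨s, i⟩ ⟨t, j⟩
  rw [Matrix.mul_diagonal]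
  by_cases hij : i = j
  · subst hij
    fin_cases s <;> fin_cases t <;> simp [Lw, S54]
  · fin_cases s <;> fin_cases t <;> simp [Lw, S54, hij]

private lemma D54_eq (w : Fin n → Prop) [DecidablePred w] :
    Matrix.diagonal (D54 K w) = X0 K n - Up (S54 K w) * Lw (S54 K w) +
      Lw (S54 K w) * Up (S54 K w) := by
  rw [UL54, LU54, X0, Matrix.diagonal_sub, Matrix.diagonal_add]
  congr 1
  funext ⟨s, i⟩
  simp only [D54]
  by_cases hs : s = 0 <;> by_cases hw : w i <;> simp [hs, hw]

/-- The Weyl element. -/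
private def A54 (K : Type*) [Field K] {n : ℕ} (w : Fin n → Prop) [DecidablePred w] :
    Matrix (Fin 2 × Fin n) (Fin 2 × Fin n) K :=
  (1 + Up (S54 K w)) * ((1 - Lw (S54 K w)) * (1 + Up (S54 K w)))

private lemma A54_conj (w : Fin n → Prop) [DecidablePred w] :
    A54 K w * X0 K n = Matrix.diagonal (D54 K w) * A54 K w := by
  rw [D54_eq, A54]
  have z : ∀ {a b c : Matrix (Fin 2 × Fin n) (Fin 2 × Fin n) K}, a * b = c → ∀ x,
      a * (b * x) = c * x := by
    intro a b c h x
    rw [← mul_assoc, h]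
  have e1 := X0_Up (S54 K w)
  have e2 := Up_X0 (S54 K w)
  have e3 := X0_Lw (S54 K w)
  have e4 := Lw_X0 (S54 K w)
  have e5 := Up_sq (S54 K w)
  have e6 := Lw_sq (S54 K w)
  have e7 := ULU54 (K := K) w
  have e8 := LUL54 (K := K) w
  simp only [add_mul, mul_add, sub_mul, mul_sub, one_mul, mul_one, mul_assoc, e1, e2, e3, e4, e5,
    e6, e7, e8, z e1, z e3, z e5, z e6, zero_mul, mul_zero]
  abel

end weyl

/-! ### The group -/

section grp
variable {K : Type*} [Field K] [CharZero K] {n k : ℕ}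

private lemma up_mem54 {S : Matrix (Fin n) (Fin n) K} (hS : S.transpose = S) (j : Fin (k + 1)) :
    ∃ u ∈ GT K n k, (u : Matrix (Ix n (k + 1)) (Ix n (k + 1)) K) = 1 + loc j (Up S) := by
  have h1 : loc j (X0 K n) + loc j (Up S) ∈ Lam K n k := by
    have := loc_Up_mem (K := K) (n := n) (k := k) (S := -S)
      (by rw [Matrix.transpose_neg, hS]) j
    have e : X0 K n - Up (-S) = X0 K n + Up S := by
      ext p q
      simp only [Matrix.sub_apply, Matrix.add_apply, Up, Matrix.neg_apply]
      split_ifs <;> ring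
    rwa [e, loc_add] at this
  exact unip_mem (loc_X0_mem j) h1 (by rw [← loc_mul, Up_X0, loc_zero])
    (by rw [← loc_mul, Up_sq, loc_zero])

private lemma lw_mem54 {S : Matrix (Fin n) (Fin n) K} (hS : S.transpose = S) (j : Fin (k + 1)) :
    ∃ u ∈ GT K n k, (u : Matrix (Ix n (k + 1)) (Ix n (k + 1)) K) = 1 - loc j (Lw S) := by
  have h1 : loc j (X0 K n) - (2 : K) • loc j (Lw S) ∈ Lam K n k := by
    have := loc_Lw_mem (K := K) (n := n) (k := k) (S := (-2 : K) • S)
      (by rw [Matrix.transpose_smul, hS]) j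
    have e : X0 K n + Lw ((-2 : K) • S) = X0 K n - (2 : K) • Lw S := by
      ext p q
      simp only [Matrix.sub_apply, Matrix.add_apply, Lw, Matrix.smul_apply, smul_eq_mul]
      split_ifs <;> ring
    rwa [e, loc_sub, loc_smul] at this
  obtain ⟨g1, hg1, e1⟩ := (GenG_cochar (Lam_lag (loc_X0_mem (K := K) (n := n) (k := k) j)).1
    (loc_X0_mem j)).2 2 two_ne_zero
  obtain ⟨g2, hg2, e2⟩ := (GenG_cochar (Lam_lag h1).1 h1).2 2 two_ne_zero
  refine ⟨g2 * g1⁻¹, (GT K n k).mul_mem hg2 ((GT K n k).inv_mem hg1), ?_⟩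
  have k1 : loc j (Lw S) * loc j (X0 K n) = loc j (Lw S) := by rw [← loc_mul, Lw_X0]
  have e3 : (g2 : Matrix (Ix n (k + 1)) (Ix n (k + 1)) K) = (1 - loc j (Lw S)) * g1 := by
    rw [e1, e2]
    simp only [mul_add, sub_mul, mul_sub, one_mul, mul_one, mul_smul_comm, k1]
    module
  rw [Units.val_mul, e3, mul_assoc, GL_mul_inv, mul_one]

private lemma weyl_mem54 (w : Fin n → Prop) [DecidablePred w] (j : Fin (k + 1)) :
    ∃ u ∈ GT K n k, (u : Matrix (Ix n (k + 1)) (Ix n (k + 1)) K) * loc j (X0 K n) =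
      loc j (Matrix.diagonal (D54 K w)) * (u : Matrix (Ix n (k + 1)) (Ix n (k + 1)) K) := by
  have hS : (S54 K w).transpose = S54 K w := Matrix.diagonal_transpose _
  obtain ⟨g1, hg1, e1⟩ := up_mem54 (k := k) hS j
  obtain ⟨g2, hg2, e2⟩ := lw_mem54 (k := k) hS j
  refine ⟨g1 * (g2 * g1), (GT K n k).mul_mem hg1 ((GT K n k).mul_mem hg2 hg1), ?_⟩
  have e3 : ((g1 * (g2 * g1) : Matrix.GeneralLinearGroup (Ix n (k + 1)) K) :
      Matrix (Ix n (k + 1)) (Ix n (k + 1)) K) = loc j (A54 K w) := by
    rw [Units.val_mul, Units.val_mul, e1, e2, A54, loc_mul, loc_mul, loc_add, loc_sub, loc_one]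
  rw [e3, ← loc_mul, ← loc_mul, A54_conj]

end grp

/-! ### The semilinear symmetries -/

section gam
variable {K : Type*} [Field K] {n k : ℕ}

private lemma permG_apply54 (σ : Equiv.Perm (Fin k)) (v : Ix n k → K) (x : Ix n k) :
    (permG K n σ : Matrix (Ix n k) (Ix n k) K).mulVec v x = v (x ∘ σ) := by
  change ((1 : Matrix (Ix n k) (Ix n k) K).submatrix (eσ n σ) (Equiv.refl _)).mulVec v x = _
  rw [Matrix.mulVec, dotProduct, Finset.sum_eq_single (x ∘ σ)]
  · rw [Matrix.submatrix_apply]
    change (1 : Matrix (Ix n k) (Ix n k) K) (x ∘ σ) (x ∘ σ) * _ = _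
    rw [Matrix.one_apply_eq, one_mul]
  · intro y _ hy
    rw [Matrix.submatrix_apply]
    have : eσ n σ x ≠ (Equiv.refl _) y := fun h => hy h.symm
    rw [Matrix.one_apply_ne this, zero_mul]
  · intro h; exact absurd (Finset.mem_univ _) h

/-- The rotation times a scalar. -/
private def th54 (n k : ℕ) (z : Kˣ) : Matrix.GeneralLinearGroup (Ix n k) K :=
  ⟨(z : K) • (permG K n (finRotate k) : Matrix (Ix n k) (Ix n k) K),
    ((z⁻¹ : Kˣ) : K) • (((permG K n (finRotate k))⁻¹ : Matrix.GeneralLinearGroup (Ix n k) K) :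
      Matrix (Ix n k) (Ix n k) K), by
    rw [smul_mul_assoc, mul_smul_comm, GL_mul_inv, smul_smul, Units.mul_inv, one_smul], by
    rw [smul_mul_assoc, mul_smul_comm, GL_inv_mul, smul_smul, Units.inv_mul, one_smul]⟩

private lemma th_mem54 (z : Kˣ) : th54 n k z ∈ NG K n k := by
  intro P hP
  have h := permG_mem (K := K) (n := n) (finRotate k) P hP
  constructor
  · change ((z : K) • (permG K n (finRotate k) : Matrix (Ix n k) (Ix n k) K)) * P *
      (((z⁻¹ : Kˣ) : K) • (((permG K n (finRotate k))⁻¹ :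
        Matrix.GeneralLinearGroup (Ix n k) K) : Matrix (Ix n k) (Ix n k) K)) ∈ Lam0 K n k
    rw [smul_mul_assoc, smul_mul_assoc, mul_smul_comm, smul_smul, Units.mul_inv, one_smul]
    exact h.1
  · change (((z⁻¹ : Kˣ) : K) • (((permG K n (finRotate k))⁻¹ :
        Matrix.GeneralLinearGroup (Ix n k) K) : Matrix (Ix n k) (Ix n k) K)) * P *
      ((z : K) • (permG K n (finRotate k) : Matrix (Ix n k) (Ix n k) K)) ∈ Lam0 K n k
    rw [smul_mul_assoc, smul_mul_assoc, mul_smul_comm, smul_smul, Units.inv_mul, one_smul]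
    exact h.2

private lemma th_pow54 (z : Kˣ) (j : ℕ) (v : Ix n k → K) :
    ((toPerm (th54 n k z)) ^ j) v = fun x => (z : K) ^ j * v (x ∘ ((finRotate k) ^ j :
      Equiv.Perm (Fin k))) := by
  induction j with
  | zero => funext x; simp
  | succ j ih =>
    rw [pow_succ', Equiv.Perm.mul_apply, ih]
    funext x
    have e : ∀ w : Ix n k → K, toPerm (th54 n k z) w x = z * w (x ∘ finRotate k) := by
      intro w
      change ((z : K) • (permG K n (finRotate k) : Matrix (Ix n k) (Ix n k) K)).mulVec w x = _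
      rw [Matrix.smul_mulVec, Pi.smul_apply, permG_apply54, smul_eq_mul]
    rw [e, pow_succ', pow_succ', mul_assoc]
    rfl

private lemma rot_pow54 (j : ℕ) (i : Fin (k + 1)) :
    ((((finRotate (k + 1)) ^ j : Equiv.Perm (Fin (k + 1))) i : Fin (k + 1)) : ℕ) =
      ((i : ℕ) + j) % (k + 1) := by
  induction j with
  | zero => simp [Nat.mod_eq_of_lt i.2]
  | succ j ih =>
    rw [pow_succ', Equiv.Perm.mul_apply, finRotate_apply, Fin.val_add, ih, ← add_assoc]
    simp [Nat.add_mod]

end gam

private theorem main54 {K : Type*} [Field K] [IsAlgClosed K] [CharZero K] {n k N : ℕ}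
    (hn : 0 < n) (hk : 0 < k) (hk2 : Odd (k + 1)) (hkN : k + 1 ∣ N) (hN : 0 < N)
    (b : Fin n → ℚ) (hb : ∀ j, |b j| ≤ 1 / (2 * ((k + 1 : ℕ) : ℚ))) :
    Bad K ((Finset.univ : Finset (Ix n (k + 1))).val.map
      (fun φ => 1 / 2 + ∑ i, if (φ i).1 = 0 then b (φ i).2 else - b (φ i).2)) N := by
  classical
  -- the root of unity
  have : NeZero (N : K) := ⟨by exact_mod_cast hN.ne'⟩
  have : NeZero N := ⟨hN.ne'⟩
  obtain ⟨ζ, hζ⟩ := HasEnoughRootsOfUnity.exists_primitiveRoot K N
  have hζ0 : ζ ≠ 0 := hζ.ne_zero hN.ne'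
  set z : Kˣ := Units.mk0 ζ hζ0 with hz
  set θ : Equiv.Perm (Ix n (k + 1) → K) := toPerm (th54 n (k + 1) z) with hθ
  have hpow : ∀ (j : ℕ) (v : Ix n (k + 1) → K), (θ ^ j) v = fun x => ζ ^ j *
      v (x ∘ ((finRotate (k + 1)) ^ j : Equiv.Perm (Fin (k + 1)))) := fun j v => th_pow54 z j v
  have hθN : θ ^ N = 1 := by
    apply Equiv.ext
    intro v
    rw [hpow, hζ.pow_eq_one, Equiv.Perm.one_apply]
    have : ((finRotate (k + 1)) ^ N : Equiv.Perm (Fin (k + 1))) = 1 := by
      apply Equiv.ext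
      intro i
      apply Fin.ext
      obtain ⟨q, hq⟩ := hkN
      rw [rot_pow54, Equiv.Perm.one_apply, hq, Nat.add_mul_mod_self_left,
        Nat.mod_eq_of_lt i.2]
    rw [this]
    funext x
    simp
  have hθo : orderOf θ = N := by
    apply Nat.dvd_antisymm (orderOf_dvd_of_pow_eq_one hθN)
    rw [← hζ.pow_eq_one_iff_dvd]
    have h1 := pow_orderOf_eq_one θ
    have h2 := congrFun (congrArg (fun f : Equiv.Perm (Ix n (k + 1) → K) =>
      f (fun _ => 1)) h1) (fun _ => (0, ⟨0, hn⟩))
    simp only [hpow] at h2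
    simpa using h2
  have hfin : IsOfFinOrder θ := isOfFinOrder_iff_pow_eq_one.mpr ⟨N, hN, hθN⟩
  have hΓ : Subgroup.zpowers θ ≤ GamT K n (k + 1) := by
    rw [Subgroup.zpowers_le]
    exact ⟨_, th_mem54 z, fun v => rfl⟩
  have hstr := strong_ex (K := K) (n := n) hk2
  have hMT : IsMTPair (Jt (k + 1) (J1 K n)) (GT K n k) :=
    isMTPair_gen (Jt_transpose J1_transpose hk2)
      (Jt_det (c := -1) (neg_ne_zero.mpr one_ne_zero) J1_sq)
      (fun P hP => (Lam_lag hP).1) (fun P hP => (Lam_lag hP).2)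
  -- the denominators
  have hk0 : (0 : ℚ) < ((k + 1 : ℕ) : ℚ) := by positivity
  have hb' : ∀ j, |((k + 1 : ℕ) : ℚ) * b j| ≤ 1 / 2 := by
    intro j
    rw [abs_mul, abs_of_pos hk0]
    calc ((k + 1 : ℕ) : ℚ) * |b j| ≤ ((k + 1 : ℕ) : ℚ) * (1 / (2 * ((k + 1 : ℕ) : ℚ))) :=
          mul_le_mul_of_nonneg_left (hb j) hk0.le
      _ = 1 / 2 := by field_simp
  obtain ⟨Q, c, hQ, hcQ, hc⟩ := den54 (fun j => 1 / 2 + ((k + 1 : ℕ) : ℚ) * b j)
    (fun j => by have := (abs_le.mp (hb' j)).1; linarith)
    (fun j => by have := (abs_le.mp (hb' j)).2; linarith)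
  let Pf : Fin (k + 1) × Fin Q → Matrix (Ix n (k + 1)) (Ix n (k + 1)) K := fun p =>
    loc p.1 (Matrix.diagonal (D54 K (fun j => (p.2 : ℕ) < c j)))
  have hPf : ∀ p, Pf p = Matrix.diagonal (fun φ : Ix n (k + 1) =>
      D54 K (fun j => (p.2 : ℕ) < c j) (φ p.1)) := fun p => loc_diag54 _ _
  let M : Fin 2 × Fin n → ℚ := fun p => if p.1 = 0 then c p.2 else Q - c p.2
  have hM : ∀ p, ∑ t : Fin Q, D54 K (fun j => (t : ℕ) < c j) p = (M p : K) := by
    have h1 : ∀ m ≤ Q, ∑ t : Fin Q, (if (t : ℕ) < m then (1 : K) else 0) = m := by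
      intro m hm
      rw [Fin.sum_univ_eq_sum_range (fun t => if t < m then (1 : K) else 0) Q,
        ← Finset.sum_filter]
      have : (Finset.range Q).filter (fun t => t < m) = Finset.range m := by
        ext t
        simp only [Finset.mem_filter, Finset.mem_range]
        omega
      rw [this]
      simp
    rintro ⟨s, j⟩
    simp only [D54, M]
    by_cases hs : s = 0
    · simp only [hs, if_true]
      rw [h1 _ (hcQ j)]
      simp
    · simp only [hs, if_false]
      have h2 : ∀ t : Fin Q, (if (t : ℕ) < c j then (0 : K) else 1) =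
          1 - (if (t : ℕ) < c j then (1 : K) else 0) := by
        intro t
        split_ifs <;> ring
      rw [Finset.sum_congr rfl (fun t _ => h2 t), Finset.sum_sub_distrib, h1 _ (hcQ j)]
      simp
  set e : Fin (k + 1) × Fin Q ≃ Fin ((k + 1) * Q) := finProdFinEquiv with he
  have hsum : ∑ i : Fin ((k + 1) * Q), (1 : ℕ) • Pf (e.symm i) =
      Matrix.diagonal (fun φ : Ix n (k + 1) => ((∑ i, M (φ i) : ℚ) : K)) := by
    rw [Equiv.sum_comp e.symm (fun p => (1 : ℕ) • Pf p), Fintype.sum_prod_type]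
    ext x y
    rw [Matrix.sum_apply]
    by_cases hxy : x = y
    · subst hxy
      rw [Matrix.diagonal_apply_eq, Rat.cast_sum]
      apply Finset.sum_congr rfl
      intro i _
      rw [← hM, Matrix.sum_apply]
      apply Finset.sum_congr rfl
      intro t _
      rw [one_smul, hPf, Matrix.diagonal_apply_eq]
    · rw [Matrix.diagonal_apply_ne _ hxy]
      apply Finset.sum_eq_zero
      intro i _
      rw [Matrix.sum_apply]
      apply Finset.sum_eq_zero
      intro t _
      rw [one_smul, hPf, Matrix.diagonal_apply_ne _ hxy]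
  refine ⟨Ix n (k + 1), inferInstance, inferInstance, Subgroup.zpowers θ,
    Jt (k + 1) (J1 K n), GT K n k, loc 0 (X0 K n), ?_, ?_, hstr.coch, ?_, ?_, ?_⟩
  · exact
      { toIsMTPair := hMT
        semi := fun θ' h => hstr.semi θ' (hΓ h)
        norm := fun θ' h => hstr.norm θ' (hΓ h) }
  · intro U hU
    exact (split_ex (K := K) (n := n) (k := k)).irr () U le_top hU
  · refine ⟨(k + 1) * Q, fun _ => 1, fun i => Pf (e.symm i), ?_, ?_, ?_, ?_, ?_⟩
    · intro i
      refine ⟨one_pos, ?_⟩
      beta_reduce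
      generalize e.symm i = p
      obtain ⟨g, hg, hgw⟩ := weyl_mem54 (K := K) (n := n) (k := k)
        (fun j => (p.2 : ℕ) < c j) p.1
      set τ : Equiv.Perm (Fin (k + 1)) := (finRotate (k + 1)) ^ (p.1 : ℕ) with hτ
      refine ⟨θ ^ (p.1 : ℕ), Subgroup.pow_mem _ (Subgroup.mem_zpowers θ) _, g, hg, fun v => ?_⟩
      have e1 : ∀ v : Ix n (k + 1) → K, (θ ^ (p.1 : ℕ)) v =
          ζ ^ (p.1 : ℕ) • (permG K n τ : Matrix _ _ K).mulVec v := by
        intro v
        rw [hpow]
        funext x
        rw [Pi.smul_apply, permG_apply54, smul_eq_mul]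
      have e2 : (permG K n τ : Matrix (Ix n (k + 1)) (Ix n (k + 1)) K) * loc 0 (X0 K n) =
          loc p.1 (X0 K n) * (permG K n τ : Matrix (Ix n (k + 1)) (Ix n (k + 1)) K) := by
        have h1 := permG_conj τ (loc 0 (X0 K n))
        rw [permG_loc] at h1
        have h2 : τ 0 = p.1 := by
          apply Fin.ext
          rw [hτ, rot_pow54, Fin.val_zero, zero_add, Nat.mod_eq_of_lt p.1.2]
        rw [h2] at h1
        rw [← h1, mul_assoc _ _ (permG K n τ : Matrix (Ix n (k + 1)) (Ix n (k + 1)) K),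
          GL_inv_mul, mul_one]
      have e3 : Pf p * ((g : Matrix (Ix n (k + 1)) (Ix n (k + 1)) K) *
          (permG K n τ : Matrix (Ix n (k + 1)) (Ix n (k + 1)) K)) =
          (g : Matrix (Ix n (k + 1)) (Ix n (k + 1)) K) *
          ((permG K n τ : Matrix (Ix n (k + 1)) (Ix n (k + 1)) K) * loc 0 (X0 K n)) := by
        rw [e2, ← mul_assoc, ← mul_assoc, hgw]
      rw [e1, e1, Matrix.mulVec_smul, Matrix.mulVec_smul, Matrix.mulVec_smul]
      congr 1
      simp only [Matrix.mulVec_mulVec]
      rw [e3]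
    · intro i j
      beta_reduce
      rw [hPf, hPf, Matrix.diagonal_mul_diagonal, Matrix.diagonal_mul_diagonal]
      congr 1
      funext φ
      rw [mul_comm]
    · intro θ' hθ'
      refine ⟨1, Subgroup.one_mem _, fun v => ?_⟩
      rw [← hfin.mem_powers_iff_mem_zpowers] at hθ'
      obtain ⟨j, rfl⟩ := hθ'
      rw [hsum, Units.val_one, Matrix.one_mulVec, Matrix.one_mulVec]
      funext x
      change _ = (θ ^ j) _ x
      rw [Matrix.mulVec_diagonal]
      change _ * (θ ^ j) v x = _
      rw [hpow, hpow]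
      beta_reduce
      rw [Matrix.mulVec_diagonal]
      have e1 : ∑ i, M ((x ∘ ((finRotate (k + 1)) ^ j : Equiv.Perm (Fin (k + 1)))) i) =
          ∑ i, M (x i) :=
        Equiv.sum_comp ((finRotate (k + 1)) ^ j : Equiv.Perm (Fin (k + 1))) (fun i => M (x i))
      rw [e1]
      ring
    · rw [Multiset.card_map]
      rfl
    · intro l
      rw [hsum, eig54, Multiset.count_map]
      have hs : ∀ φ : Ix n (k + 1), ∑ i, M (φ i) = ((k + 1 : ℕ) : ℚ) * Q *
          (1 / 2 + ∑ i, if (φ i).1 = 0 then b (φ i).2 else - b (φ i).2) := by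
        intro φ
        have h1 : ∀ i, M (φ i) = Q * (1 / 2) + ((k + 1 : ℕ) : ℚ) * Q *
            (if (φ i).1 = 0 then b (φ i).2 else - b (φ i).2) := by
          intro i
          simp only [M]
          split_ifs
          · rw [hc]; ring
          · rw [hc]; ring
        rw [Finset.sum_congr rfl (fun i _ => h1 i), Finset.sum_add_distrib, Finset.sum_const,
          Finset.card_univ, Fintype.card_fin, nsmul_eq_mul, mul_add, Finset.mul_sum]
        ring
      have h2 : ∀ φ : Ix n (k + 1), (((∑ i, M (φ i) : ℚ) : K) =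
          ((((∑ _i : Fin ((k + 1) * Q), 1 : ℕ) : ℚ) * l : ℚ) : K)) ↔
          l = 1 / 2 + ∑ i, if (φ i).1 = 0 then b (φ i).2 else - b (φ i).2 := by
        intro φ
        rw [Rat.cast_inj, hs]
        have h3 : (((∑ _i : Fin ((k + 1) * Q), 1 : ℕ) : ℚ)) = ((k + 1 : ℕ) : ℚ) * Q := by
          simp
        rw [h3]
        have h4 : ((k + 1 : ℕ) : ℚ) * Q ≠ 0 := by positivity
        rw [mul_right_inj' h4]
        exact eq_comm
      rw [Nat.card_congr (Equiv.subtypeEquivRight h2), Nat.card_eq_fintype_card,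
        Fintype.card_subtype]
      rfl
  · refine ⟨⊥, bot_le, ?_, ?_⟩
    · rw [Subgroup.relIndex_bot_left, Nat.card_zpowers, hθo]
    · intro θ' hθ'
      rw [Subgroup.mem_bot] at hθ'
      subst hθ'
      refine ⟨1, Subgroup.one_mem _, fun v => ?_⟩
      rw [Units.val_one, Matrix.one_mulVec, Matrix.one_mulVec]
      rfl
  · by_contra hcon
    push Not at hcon
    apply not_full_ex (K := K) hn hk hk2
    intro g hg _
    exact hcon g hg

theorem sharp_tensor {K : Type*} [Field K] [IsAlgClosed K] [CharZero K] {Λ : Multiset ℚ} {N : ℕ}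
    (h : TensorPolygon Λ N) (hΛ : Λ ≠ 0) (hN : 0 < N) : Bad K Λ N := by
  obtain ⟨k, d, a, hk3, hk2, hkN, hd, hs, ha, rfl⟩ := h
  obtain ⟨k, rfl⟩ : ∃ l, k = l + 1 := ⟨k - 1, by omega⟩
  obtain ⟨n, b, e, hdn, he⟩ := pair54 hd a hs
  have hn : 0 < n := by
    rcases Nat.eq_zero_or_pos n with rfl | h
    · exfalso
      apply hΛ
      have : d = 0 := by omega
      subst this
      have : IsEmpty (Fin (k + 1) → Fin 0) := ⟨fun f => (f 0).elim0⟩
      simp
    · exact h
  have hb : ∀ j, |b j| ≤ 1 / (2 * ((k + 1 : ℕ) : ℚ)) := by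
    intro j
    have h1 := ha (e (0, j))
    rw [he] at h1
    simpa using h1
  have h2 := main54 (K := K) hn (by omega) hk2 hkN hN b hb
  have h3 : (Finset.univ : Finset (Fin (k + 1) → Fin d)).val.map
      (fun φ : Fin (k + 1) → Fin d => 1 / 2 + ∑ i, a (φ i)) =
      (Finset.univ : Finset (Ix n (k + 1))).val.map
      (fun φ => 1 / 2 + ∑ i, if (φ i).1 = 0 then b (φ i).2 else - b (φ i).2) := by
    rw [← Multiset.map_univ_val_equiv (Equiv.arrowCongr (Equiv.refl (Fin (k + 1))) e),
      Multiset.map_map]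
    apply Multiset.map_congr rfl
    intro φ _
    simp only [Function.comp_apply]
    congr 1
    apply Finset.sum_congr rfl
    intro i _
    rw [← he]
    rfl
  rw [h3]
  exact h2

end PR
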