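import Pool.Agent.Helper43.PR.ShWb

/-!
Block SW. Examples in the wedge case.

`V` has the basis `v_I`, `I` the `n`-subsets of `Fin (2 n)`, `n ≥ 3` odd; `G` is the group of the
scalars times the image of `GL (2 n)` on the exterior power of degree `n`. First case: the
symmetries are scalars (`PR.wedge_one`). Second case (`N` even): the symmetries are the powers of
`c • J`, `J` the star operator, which normalises `G` (`PR.wedge_two`).
-/

open Module MTPairs

namespace PR

theorem sharp_wedge {K : Type*} [Field K] [IsAlgClosed K] [CharZero K] {Λ : Multiset ℚ} {N : ℕ}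
    (h : WedgePolygon Λ N) (hN : 0 < N) : Bad K Λ N := by
  obtain ⟨n, x, h3, hn, ⟨hx, hx1, rfl⟩ | ⟨hev, hx, hx1, rfl⟩⟩ := h
  · exact wedge_one hn h3 x hx hx1 hN
  · exact wedge_two hn h3 x hx hx1 hN hev

end PR
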