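import Pool.Agent.Helper27.PR.Fwd
import Pool.Agent.Helper27.PR.ShT
import Pool.Agent.Helper27.PR.ShW
import Pool.Agent.Helper27.PR.ShS
import Pool.Agent.Helper27.PR.RkT
import Pool.Agent.Helper27.PR.RkW
import Pool.Agent.Helper27.PR.RkS

/-!
The criterion for the slopes and for the multiplicity of the slope zero.
-/

open MTPairs

namespace PR

/-- The group contains all the similitudes. -/
def Full {K : Type*} [Field K] {m : Type*} [Fintype m] [DecidableEq m] (J : Matrix m m K)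
    (G : Subgroup (Matrix.GeneralLinearGroup m K)) : Prop :=
  ∀ g : Matrix.GeneralLinearGroup m K,
    (∃ c : K, (g : Matrix m m K).transpose * J * (g : Matrix m m K) = c • J) → g ∈ G

/-- The exceptional triples (multiplicity of the slope zero, dimension, index). -/
def RankExc (f D N : ℕ) : Prop :=
  (∃ k d r : ℕ, 3 ≤ k ∧ Odd k ∧ k ∣ N ∧ Even d ∧ 2 * r ≤ d ∧ f = r ^ k ∧ D = d ^ k) ∨
  (∃ n z : ℕ, 3 ≤ n ∧ Odd n ∧ z < 2 * n ∧ f = z.choose n ∧ D = (2 * n).choose n) ∨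
  (∃ q : ℕ, 5 ≤ q ∧ (q % 4 = 1 ∨ q % 4 = 2) ∧ f = 1 ∧ D = 2 ^ q)

variable {K : Type*} [Field K] [IsAlgClosed K] [CharZero K]

lemma bad_iff {Λ : Multiset ℚ} {N : ℕ} (hodd : ∃ l, Odd (Λ.count l)) (hN : 0 < N) :
    Bad K Λ N ↔ TensorPolygon Λ N ∨ WedgePolygon Λ N ∨ SpinPolygon Λ := by
  constructor
  · rintro ⟨m, _, _, Γ, J, G, π, h1, h2, h3, h4, h5, g, hg, hgG⟩
    rcases forward h1 h2 h3 h4 h5 hodd with h | h
    · exact absurd (h g hg) hgG
    · exact h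
  · rintro (h | h | h)
    · refine sharp_tensor h ?_ hN
      rintro rfl
      obtain ⟨l, hl⟩ := hodd
      simp at hl
    · exact sharp_wedge h hN
    · exact sharp_spin h hN

/-- **The criterion for the slopes.** -/
theorem criterion (Λ : Multiset ℚ) (N : ℕ) (hodd : ∃ l, Odd (Λ.count l)) (hN : 0 < N) :
    (∀ (m : Type) [Fintype m] [DecidableEq m] (Γ : Subgroup (Equiv.Perm (m → K)))
      (J : Matrix m m K) (G : Subgroup (Matrix.GeneralLinearGroup m K)) (π : Matrix m m K),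
      IsGalPair Γ J G → IsIrr G → IsCochar G π → HasSlopes Γ G π Λ → HasIndex Γ G π N →
      Full J G) ↔
    ¬ TensorPolygon Λ N ∧ ¬ WedgePolygon Λ N ∧ ¬ SpinPolygon Λ := by
  rw [← not_or, ← not_or, ← bad_iff (K := K) hodd hN]
  constructor
  · rintro h ⟨m, i1, i2, Γ, J, G, π, h1, h2, h3, h4, h5, g, hg, hgG⟩
    exact hgG (h m Γ J G π h1 h2 h3 h4 h5 g hg)
  · intro h m _ _ Γ J G π h1 h2 h3 h4 h5 g hg
    by_contra hgG
    exact h ⟨m, _, _, Γ, J, G, π, h1, h2, h3, h4, h5, g, hg, hgG⟩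

/-- **The criterion for the multiplicity of the slope zero.** -/
theorem rank_criterion (f D N : ℕ) (hf : Odd f) (hN : 0 < N) :
    (∀ (m : Type) [Fintype m] [DecidableEq m] (Γ : Subgroup (Equiv.Perm (m → K)))
      (J : Matrix m m K) (G : Subgroup (Matrix.GeneralLinearGroup m K)) (π : Matrix m m K)
      (Λ : Multiset ℚ), Fintype.card m = D → Λ.count 0 = f →
      IsGalPair Γ J G → IsIrr G → IsCochar G π → HasSlopes Γ G π Λ → HasIndex Γ G π N →
      Full J G) ↔ ¬ RankExc f D N := by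
  constructor
  · intro h
    have key : ∀ Λ : Multiset ℚ, Λ.count 0 = f → Λ.card = D → ¬ Bad K Λ N := by
      rintro Λ h0 hD ⟨m, i1, i2, Γ, J, G, π, h1, h2, h3, h4, h5, g, hg, hgG⟩
      have hc : Fintype.card m = D := by
        obtain ⟨_, _, _, _, _, _, hh, _⟩ := h4
        rw [← hh, hD]
      exact hgG (h m Γ J G π Λ hc h0 h1 h2 h3 h4 h5 g hg)
    have key2 : ∀ Λ : Multiset ℚ, Λ.count 0 = f → Λ.card = D →
        ¬ (TensorPolygon Λ N ∨ WedgePolygon Λ N ∨ SpinPolygon Λ) := by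
      intro Λ h0 hD
      rw [← bad_iff (K := K) ⟨0, by rw [h0]; exact hf⟩ hN]
      exact key Λ h0 hD
    rintro (⟨k, d, r, h3, hk, hkN, hd, hr, rfl, rfl⟩ | ⟨n, z, h3, hn, hz, rfl, rfl⟩ |
      ⟨q, h5, hq, rfl, rfl⟩)
    · obtain ⟨Λ, hΛ, h0, hD⟩ := tensor_poly (N := N) h3 hk hkN hd hr
      exact key2 Λ h0 hD (Or.inl hΛ)
    · obtain ⟨Λ, hΛ, h0, hD⟩ := wedge_poly (N := N) h3 hn hz
      exact key2 Λ h0 hD (Or.inr (Or.inl hΛ))
    · obtain ⟨Λ, hΛ, h0, hD⟩ := spin_poly h5 hq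
      exact key2 Λ h0 hD (Or.inr (Or.inr hΛ))
  · intro h m _ _ Γ J G π Λ hm h0 h1 h2 h3 h4 h5 g hg
    by_contra hgG
    have hD : Λ.card = D := by
      obtain ⟨_, _, _, _, _, _, hh, _⟩ := h4
      rw [hh, hm]
    have hb : Bad K Λ N :=
      ⟨m, _, _, Γ, J, G, π, h1, h2, h3, h4, h5, g, hg, hgG⟩
    rcases (bad_iff (K := K) ⟨0, by rw [h0]; exact hf⟩ hN).mp hb with h' | h' | h'
    · obtain ⟨k, d, r, e1, e2, e3, e4, e5, e6, e7⟩ := tensor_rank h'
      exact h (Or.inl ⟨k, d, r, e1, e2, e3, e4, e5, by rw [← h0, e6], by rw [← hD, e7]⟩)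
    · obtain ⟨n, z, e1, e2, e3, e4, e5⟩ := wedge_rank h' (by rw [h0]; exact hf)
      exact h (Or.inr (Or.inl ⟨n, z, e1, e2, e3, by rw [← h0, e4], by rw [← hD, e5]⟩))
    · obtain ⟨q, e1, e2, e3, e4⟩ := spin_rank h' (by rw [h0]; exact hf)
      exact h (Or.inr (Or.inr ⟨q, e1, e2, by rw [← h0, e3], by rw [← hD, e4]⟩))

end PR
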