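import Pool.Agent.Helper27.PR.RhoT
import Pool.Agent.Helper27.PR.StrA

/-!
Block K3. Invariance under the group.

* `chi_grp`: `WStr.genC` with `M = WL ω G` and
  `R = LinearMap.toMatrix b b ∘ rho ∘ π`, where `π : End V → WL ω G` is a linear map which is the
  identity on `WL ω G` (`Submodule.exists_isCompl`, `Submodule.linearProjOfIsCompl`, or
  `LinearMap.exists_leftInverse_of_injective`) and `b` is a basis of `K × LP L s` indexed by
  `Fin N`; the trace of the power of the matrix is the trace of the power of the operator. The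
  hypothesis for `p ∈ CC G` is `chi_torus`, with `WStr.c2`.
* `rd_conj`, `chi_conj`: `rd_tw`, `chi_tw` for the automorphism `τ x = g x h` with `σ = id` give
  `chi L (g s h) r q (g x h) = chi L s r q x`, and `chi L s r q (g x h) = chi L s r q x` for
  `x ∈ L`; if `x ∉ L` both sides are `0` (`lie_conj`).
* `rd_sc`, `chi_sc`: `2 p - 1 = g τ(2 p0 - 1) h`, and `τ (2 x - 1) = 2 τ x - 1`.
* `chi_rat`: the composition `τ' x = g (τ x) h` is a `σ`-semilinear automorphism with
  `τ' x = x` for the given `x`, and `a * τ p * b` is a conjugate under `G` of `τ' p`: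
  `chi (2 a τ(p) b - 1) x = chi (τ (2 p - 1)) x = chi (g τ(2 p - 1) h) x = chi (τ' (2 p - 1)) (τ' x)
  = σ (chi (2 p - 1) x)`.
-/

set_option linter.unusedSectionVars false
set_option linter.unusedVariables false

open Module MTP

namespace PR

variable {K : Type*} [Field K] {V : Type*} [AddCommGroup V] [Module K V] [FiniteDimensional K V]
variable {ω : LinearMap.BilinForm K V} {G : Set (Module.End K V)}
  {T : Set (Module.End K V ≃+* Module.End K V)} {p0 : Module.End K V}
  {s : Module.End K V} {r : K}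

/-- Conjugation by `g` with the inverse `h`, as a ring automorphism. -/
private noncomputable def conj35 {g h : Module.End K V} (hgh : g * h = 1) (hhg : h * g = 1) :
    Module.End K V ≃+* Module.End K V where
  toFun x := g * x * h
  invFun x := h * x * g
  left_inv x := by
    show h * (g * x * h) * g = x
    calc h * (g * x * h) * g = (h * g) * x * (h * g) := by simp only [mul_assoc]
      _ = x := by rw [hhg, one_mul, mul_one]
  right_inv x := by
    show g * (h * x * g) * h = x
    calc g * (h * x * g) * h = (g * h) * x * (g * h) := by simp only [mul_assoc]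
      _ = x := by rw [hgh, one_mul, mul_one]
  map_mul' x y := by
    show g * (x * y) * h = g * x * h * (g * y * h)
    calc g * (x * y) * h = g * x * 1 * y * h := by simp only [mul_assoc, mul_one]
      _ = g * x * (h * g) * y * h := by rw [hhg]
      _ = g * x * h * (g * y * h) := by simp only [mul_assoc]
  map_add' x y := by
    show g * (x + y) * h = g * x * h + g * y * h
    rw [mul_add, add_mul]

private lemma conj35_apply {g h : Module.End K V} (hgh : g * h = 1) (hhg : h * g = 1)
    (x : Module.End K V) : conj35 hgh hhg x = g * x * h := rfl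

private lemma conj35_smul {g h : Module.End K V} (hgh : g * h = 1) (hhg : h * g = 1) (c : K)
    (x : Module.End K V) :
    conj35 hgh hhg (c • x) = (RingEquiv.refl K) c • conj35 hgh hhg x := by
  rw [conj35_apply, conj35_apply, RingEquiv.refl_apply, mul_smul_comm, smul_mul_assoc]

private lemma lie_iff35 [CharZero K] (D : WStr ω G T) {g h : Module.End K V} (hg : g ∈ G)
    (hh : h ∈ G) (hgh : g * h = 1) (hhg : h * g = 1) (x : Module.End K V) :
    conj35 hgh hhg x ∈ WL ω G ↔ x ∈ WL ω G := by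
  constructor
  · intro hx
    have h1 := D.lie_conj hh hg hhg hgh hx
    rw [conj35_apply] at h1
    have h2 : h * (g * x * h) * g = x := by
      calc h * (g * x * h) * g = (h * g) * x * (h * g) := by simp only [mul_assoc]
        _ = x := by rw [hhg, one_mul, mul_one]
    rwa [h2] at h1
  · intro hx
    exact D.lie_conj hg hh hgh hhg hx

private lemma lie_iff_tw35 [CharZero K] (D : WStr ω G T)
    {τ : Module.End K V ≃+* Module.End K V} (hτ : τ ∈ T) (x : Module.End K V) :
    τ x ∈ WL ω G ↔ x ∈ WL ω G := by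
  constructor
  · intro hx
    have h1 := D.lie_tw (D.tinv τ hτ) hx
    rwa [RingEquiv.symm_apply_apply] at h1
  · intro hx
    exact D.lie_tw hτ hx

private lemma tw_inv35 {τ : Module.End K V ≃+* Module.End K V} {σ : K ≃+* K}
    (hσ : ∀ (c : K) (x : Module.End K V), τ (c • x) = σ c • τ x) (p : Module.End K V) :
    τ ((2 : K) • p - 1) = (2 : K) • τ p - 1 := by
  rw [map_sub, map_one, hσ, map_ofNat]

private lemma conj_inv35 {g h : Module.End K V} (hgh : g * h = 1) (p : Module.End K V) :
    g * ((2 : K) • p - 1) * h = (2 : K) • (g * p * h) - 1 := by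
  rw [mul_sub, sub_mul, mul_one, hgh, mul_smul_comm, smul_mul_assoc]

theorem WStr.chi_grp [CharZero K] (D : WStr ω G T) (R : RD (WL ω G) s r) {g h : Module.End K V}
    (hg : g ∈ G) (hh : h ∈ G) (hgh : g * h = 1) (hhg : h * g = 1) {x : Module.End K V}
    (hx : x ∈ WL ω G) (q : ℕ) : chi (WL ω G) s r q (g * x * h) = chi (WL ω G) s r q x := by
  obtain ⟨π, hπ⟩ := LinearMap.exists_leftInverse_of_injective (WL ω G).subtype
    (Submodule.ker_subtype _)
  have hπ' : ∀ y : WL ω G, π y.1 = y := fun y => LinearMap.congr_fun hπ y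
  let b := Module.finBasis K (K × LP (WL ω G) s)
  let R' : Module.End K V →ₗ[K] Matrix (Fin (Module.finrank K (K × LP (WL ω G) s)))
      (Fin (Module.finrank K (K × LP (WL ω G) s))) K :=
    (LinearMap.toMatrix b b).toLinearMap ∘ₗ R.rho ∘ₗ π
  have key : ∀ y, y ∈ WL ω G → (R' y ^ q).trace = chi (WL ω G) s r q y := by
    intro y hy
    rw [chi_eq R hy q]
    have h1 : R' y = LinearMap.toMatrix b b (R.rho ⟨y, hy⟩) := by
      show LinearMap.toMatrix b b (R.rho (π y)) = _
      rw [hπ' ⟨y, hy⟩]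
    rw [h1, LinearMap.toMatrix_pow, LinearMap.trace_eq_matrix_trace K b]
  have hcc : ∀ p ∈ CC G, (2 : K) • p - 1 ∈ WL ω G ∨ p = 0 ∨ p = 1 := by
    intro p hp
    rcases D.c2 hp with h1 | h1
    · exact Or.inl (subset_lieGen _ ⟨p, hp, h1, rfl⟩)
    · exact Or.inr h1
  have hst : ∀ p ∈ CC G, ∀ t : K, t ≠ 0 → ∀ y ∈ WL ω G,
      (1 + (t - 1) • p) * y * (1 + (t⁻¹ - 1) • p) ∈ WL ω G :=
    fun p hp t ht y hy => (chi_torus R hp.1 (hcc p hp) ht hy q).1
  have h1 := D.genC (WL ω G) _ q R' hst (by
    intro p hp t ht y hy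
    rw [key _ (hst p hp t ht y hy), key y hy]
    exact (chi_torus R hp.1 (hcc p hp) ht hy q).2) g hg h hh hgh hhg x hx
  rw [key _ (D.lie_conj hg hh hgh hhg hx), key x hx] at h1
  exact h1

theorem WStr.rd_conj [CharZero K] (D : WStr ω G T) (R : RD (WL ω G) s r) {g h : Module.End K V}
    (hg : g ∈ G) (hh : h ∈ G) (hgh : g * h = 1) (hhg : h * g = 1) :
    RD (WL ω G) (g * s * h) r :=
  rd_tw R (τ := conj35 hgh hhg) (conj35_smul hgh hhg) (lie_iff35 D hg hh hgh hhg) rfl

theorem WStr.chi_conj [CharZero K] (D : WStr ω G T) (R : RD (WL ω G) s r) {g h : Module.End K V}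
    (hg : g ∈ G) (hh : h ∈ G) (hgh : g * h = 1) (hhg : h * g = 1) (q : ℕ)
    (x : Module.End K V) : chi (WL ω G) (g * s * h) r q x = chi (WL ω G) s r q x := by
  by_cases hx : x ∈ WL ω G
  · have h1 := chi_tw R (τ := conj35 hgh hhg) (conj35_smul hgh hhg)
      (lie_iff35 D hg hh hgh hhg) rfl q (h * x * g)
    rw [conj35_apply, conj35_apply, RingEquiv.refl_apply] at h1
    have h2 : g * (h * x * g) * h = x := by
      calc g * (h * x * g) * h = (g * h) * x * (g * h) := by simp only [mul_assoc]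
        _ = x := by rw [hgh, one_mul, mul_one]
    rw [h2] at h1
    rw [h1]
    exact D.chi_grp R hh hg hhg hgh hx q
  · unfold chi
    rw [dif_neg (fun h => hx h.2), dif_neg (fun h => hx h.2)]

private lemma rd_tw35 [CharZero K] (D : WStr ω G T) {m : ℕ} {p : Module.End K V}
    {τ : Module.End K V ≃+* Module.End K V} (hτ : τ ∈ T)
    (R : RD (WL ω G) ((2 : K) • p - 1) (m : K)) :
    RD (WL ω G) ((2 : K) • τ p - 1) (m : K) := by
  obtain ⟨σ, hσ⟩ := D.semi τ hτ
  have h1 := rd_tw R hσ (lie_iff_tw35 D hτ) (map_natCast σ m)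
  rwa [tw_inv35 hσ] at h1

private lemma rd_conj35 [CharZero K] (D : WStr ω G T) {m : ℕ} {p g h : Module.End K V}
    (hg : g ∈ G) (hh : h ∈ G) (hgh : g * h = 1) (hhg : h * g = 1)
    (R : RD (WL ω G) ((2 : K) • p - 1) (m : K)) :
    RD (WL ω G) ((2 : K) • (g * p * h) - 1) (m : K) := by
  have h1 := D.rd_conj R hg hh hgh hhg
  rwa [conj_inv35 hgh] at h1

/-- If one conjugate of `p0` satisfies `RD` then so do all. -/
theorem WStr.rd_sc [CharZero K] (D : WStr ω G T) {m : ℕ} {p p' : Module.End K V}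
    (hp : p ∈ SC G T p0) (hp' : p' ∈ SC G T p0)
    (R : RD (WL ω G) ((2 : K) • p - 1) (m : K)) : RD (WL ω G) ((2 : K) • p' - 1) (m : K) := by
  obtain ⟨τ, hτ, g, hg, h, hh, hgh, hhg, rfl⟩ := hp
  obtain ⟨τ', hτ', g', hg', h', hh', hgh', hhg', rfl⟩ := hp'
  have h1 := rd_conj35 D hh hg hhg hgh R
  have h2 : h * (g * τ p0 * h) * g = τ p0 := by
    calc h * (g * τ p0 * h) * g = (h * g) * τ p0 * (h * g) := by simp only [mul_assoc]
      _ = τ p0 := by rw [hhg, one_mul, mul_one]
  rw [h2] at h1
  have h3 := rd_tw35 D (D.tinv τ hτ) h1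
  rw [RingEquiv.symm_apply_apply] at h3
  exact rd_conj35 D hg' hh' hgh' hhg' (rd_tw35 D hτ' h3)

/-- Rational invariance: `p' = a (τ p) b` and `x = g (τ x) h`. -/
theorem WStr.chi_rat [CharZero K] (D : WStr ω G T) {m : ℕ} {p : Module.End K V}
    (R : RD (WL ω G) ((2 : K) • p - 1) (m : K)) {τ : Module.End K V ≃+* Module.End K V}
    (hτ : τ ∈ T) {σ : K ≃+* K} (hσ : ∀ (c : K) (x : Module.End K V), τ (c • x) = σ c • τ x)
    {a b g h : Module.End K V} (ha : a ∈ G) (hb : b ∈ G) (hab : a * b = 1) (hba : b * a = 1)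
    (hg : g ∈ G) (hh : h ∈ G) (hgh : g * h = 1) (hhg : h * g = 1) {x : Module.End K V}
    (hx : g * τ x * h = x) (q : ℕ) :
    chi (WL ω G) ((2 : K) • (a * τ p * b) - 1) (m : K) q x =
      σ (chi (WL ω G) ((2 : K) • p - 1) (m : K) q x) := by
  have R1 : RD (WL ω G) ((2 : K) • τ p - 1) (m : K) := rd_tw35 D hτ R
  have h1 := chi_tw R hσ (lie_iff_tw35 D hτ) (map_natCast σ m) q x
  rw [tw_inv35 hσ] at h1
  rw [← conj_inv35 hab, D.chi_conj R1 ha hb hab hba q x, ← h1]
  have h2 : τ x = h * x * g := by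
    calc τ x = (h * g) * τ x * (h * g) := by rw [hhg, one_mul, mul_one]
      _ = h * (g * τ x * h) * g := by simp only [mul_assoc]
      _ = h * x * g := by rw [hx]
  by_cases hxL : x ∈ WL ω G
  · rw [h2]
    exact (D.chi_grp R1 hh hg hhg hgh hxL q).symm
  · have h3 : τ x ∉ WL ω G := fun h => hxL ((lie_iff_tw35 D hτ x).1 h)
    unfold chi
    rw [dif_neg (fun h => hxL h.2), dif_neg (fun h => h3 h.2)]

end PR
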