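import Pool.Agent.Helper27.PR.WDb
import Pool.Agent.Helper27.PR.RhoG

/-!
Block Z2. Power sums, when both classes of cocharacters occur in the wedge case.

Write `L = WL ω G`, `r = (2 m - 2).choose (m - 1)`, `s i = 2 p i - 1`, `s0 = 2 p0 - 1`. The trace form
on `L` is nondegenerate (`nd_form`: `L` is irreducible, `IrrSymp.inf_orth` with `I = L`). `RD L s r`
holds for `s = t j`, `- t j` (`WD.rd`, `WD.rd_neg`), so for `s0` and all conjugates (`rd_sc`).
* `pow_sum`: let `s i = t a`, `s i' = - t b`, `p i = g1 (τ1 p0) h1`, `p i' = g2 (τ2 p0) h2`,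
  `τ = τ2 ∘ τ1⁻¹ ∈ T`, `p i' = a' (τ (p i)) b'` with `a', b' ∈ G` inverse to each other, and
  `g (τ ν) h = ν` (`Newt.rat`), `ν = nu c p`; `x = ∑ c i • s i = 2 ν - C` also satisfies
  `g (τ x) h = x`. `chi_rat`: `chi L (s i') r q x = σ (chi L (s i) r q x)`. By `chi_t`
  `chi L (t a) r q x = ∑ y l ^ q` with `x = ∑ β l • t l`, `y l = (∑ β) / m - 2 β l` (the `β l` are
  integers, so fixed by `σ`), the same for `t b`, and `chi_neg` gives
  `chi L (- t b) r q x = (-1) ^ q ∑ y l ^ q`.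
-/

set_option linter.unusedSectionVars false
set_option linter.unusedVariables false

open Module MTP

namespace PR

variable {K : Type*} [Field K] {V : Type*} [AddCommGroup V] [Module K V] [FiniteDimensional K V]

variable {ω : LinearMap.BilinForm K V} {G : Set (Module.End K V)}
  {T : Set (Module.End K V ≃+* Module.End K V)} {p0 : Module.End K V}

theorem WStr.nd_form [IsAlgClosed K] [CharZero K] (D : WStr ω G T) :
    ∀ x ∈ WL ω G, (∀ y ∈ WL ω G, LinearMap.trace K V (x * y) = 0) → x = 0 := by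
  intro x hx hx'
  have C := D.ctx
  have hLL : IsId (WL ω G) (WL ω G) := ⟨le_refl _, C.irr.br⟩
  exact C.irr.inf_orth C.nd hLL hx ⟨hx, hx'⟩

private lemma sum_nu53 {n : ℕ} (c : Fin n → ℕ) (p : Fin n → Module.End K V) :
    ∑ i, (c i : K) • ((2 : K) • p i - 1) = (2 : K) • nu c p - ((∑ i, c i : ℕ) : K) • (1 : Module.End K V) := by
  unfold nu
  push_cast
  rw [Finset.smul_sum, Finset.sum_smul, ← Finset.sum_sub_distrib]
  refine Finset.sum_congr rfl fun i _ => ?_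
  rw [smul_sub, smul_comm, ← Nat.cast_smul_eq_nsmul K]

private lemma cast_sum53 [CharZero K] {m : ℕ} (β : Fin (2 * m) → ℤ) (q : ℕ) :
    ∑ l, ((∑ i, ((β i : ℤ) : K)) / m - 2 * ((β l : ℤ) : K)) ^ q =
      ((∑ l, (((∑ i, β i : ℤ) : ℚ) / m - 2 * β l) ^ q : ℚ) : K) := by
  push_cast
  rfl

theorem WStr.pow_sum [IsAlgClosed K] [CharZero K] (D : WStr ω G T) {n : ℕ} {c : Fin n → ℕ}
    {p : Fin n → Module.End K V} (N : Newt G T p0 c p) {m : ℕ} (W : WD (WL ω G) m)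
    {i i' : Fin n} {a b : Fin (2 * m)} (hi : (2 : K) • p i - 1 = W.t a)
    (hi' : (2 : K) • p i' - 1 = - W.t b) {β : Fin (2 * m) → ℤ}
    (hβ : ∑ i, (c i : K) • ((2 : K) • p i - 1) = ∑ l, (β l : K) • W.t l) (q : ℕ) :
    ∑ l, (((∑ i, β i : ℤ) : ℚ) / m - 2 * β l) ^ q =
      (-1) ^ q * ∑ l, (((∑ i, β i : ℤ) : ℚ) / m - 2 * β l) ^ q := by
  have hbr := D.ctx.irr.br
  have hnd := D.nd_form
  obtain ⟨x, hx⟩ : ∃ x : Module.End K V, x = ∑ l, ((β l : ℤ) : K) • W.t l := ⟨_, rfl⟩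
  rw [← hx] at hβ
  rw [sum_nu53] at hβ
  obtain ⟨τ1, hτ1, g1, hg1, h1, hh1, e1, e1', hpi⟩ := N.conj i
  obtain ⟨τ2, hτ2, g2, hg2, h2, hh2, e2, e2', hpi'⟩ := N.conj i'
  obtain ⟨τ, hτdef⟩ : ∃ τ : Module.End K V ≃+* Module.End K V, τ = τ1.symm.trans τ2 := ⟨_, rfl⟩
  have hτ : τ ∈ T := by
    rw [hτdef]
    exact D.tmul τ2 hτ2 τ1.symm (D.tinv τ1 hτ1)
  obtain ⟨σ, hσ⟩ := D.semi τ hτ
  obtain ⟨g, hg, h, hh, hgh, hhg, hrat⟩ := N.rat τ hτ
  -- the element is fixed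
  have hfix : g * τ x * h = x := by
    rw [← hβ, map_sub, hσ, hσ, map_one, map_ofNat, map_natCast, mul_sub, sub_mul, mul_smul_comm, smul_mul_assoc, hrat,
      mul_smul_comm, smul_mul_assoc, mul_one, hgh]
  -- the conjugation
  have hp0 : τ1 p0 = h1 * p i * g1 := by
    rw [hpi]
    calc τ1 p0 = (h1 * g1) * τ1 p0 * (h1 * g1) := by rw [e1', one_mul, mul_one]
      _ = _ := by simp only [mul_assoc]
  have hp0' : τ2 p0 = τ h1 * τ (p i) * τ g1 := by
    rw [← map_mul, ← map_mul, ← hp0, hτdef]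
    show τ2 p0 = τ2 (τ1.symm (τ1 p0))
    rw [RingEquiv.symm_apply_apply]
  have hpc : p i' = (g2 * τ h1) * τ (p i) * (τ g1 * h2) := by
    rw [hpi', hp0']
    simp only [mul_assoc]
  have hab : (g2 * τ h1) * (τ g1 * h2) = 1 := by
    calc (g2 * τ h1) * (τ g1 * h2) = g2 * τ (h1 * g1) * h2 := by
          rw [map_mul]
          simp only [mul_assoc]
      _ = 1 := by rw [e1', map_one, mul_one, e2]
  have hba : (τ g1 * h2) * (g2 * τ h1) = 1 := by
    calc (τ g1 * h2) * (g2 * τ h1) = τ g1 * (h2 * g2) * τ h1 := by simp only [mul_assoc]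
      _ = 1 := by rw [e2', mul_one, ← map_mul, e1, map_one]
  have R : RD (WL ω G) ((2 : K) • p i - 1) (((2 * m - 2).choose (m - 1) : ℕ) : K) := by
    rw [hi]
    exact W.rd hbr hnd a
  have key := D.chi_rat R hτ hσ (D.mul _ hg2 _ (D.tgrp τ hτ _ hh1)) (D.mul _ (D.tgrp τ hτ _ hg1) _ hh2) hab hba hg hh hgh hhg hfix q
  rw [← hpc, hi', hi, chi_neg (W.rd hbr hnd b) (W.rd_neg hbr hnd b) hnd q x, hx, W.chi_t hbr hnd b, W.chi_t hbr hnd a,
    cast_sum53, map_ratCast] at key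
  have h3 : (((-1) ^ q * ∑ l, (((∑ i, β i : ℤ) : ℚ) / m - 2 * β l) ^ q : ℚ) : K) =
      ((∑ l, (((∑ i, β i : ℤ) : ℚ) / m - 2 * β l) ^ q : ℚ) : K) := by
    rw [← key]
    push_cast
    rfl
  exact (Rat.cast_injective h3).symm

end PR
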