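import Pool.Agent.Helper27.PR.StrA
import Pool.Agent.Helper27.PR.IdM
import Pool.Agent.Helper27.PR.WPow
import Pool.Agent.Helper14.PT.Diag

/-!
Block MA. Unipotent elements, and the monodromy operator in the non simple case.

* `mono_sq`: `[nu, x * x] = 2 ε C (x * x)` with `C = ∑ c i > 0`. In a common eigenbasis of the
  involutions `s i = 2 p i - 1` (`exists_basis14` in `Helper14/PT/Diag.lean`) the eigenvalues of the
  commutator with `∑ w i • s i` are integers of absolute value at most `2 ∑ w i` (`eig54`); here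
  `∑ c i • s i = 2 nu - C` and the eigenvalue at `x * x` would be `4 ε C`.
* `unip_mem`: copy of `Str.quad_mem` (`Helper93/SR/Str.lean`).
* `no_mono`: put `L = WL ω G`, `S = ∑ c i • s i ∈ L`, so `[S, x] = 2 ε C x`. Let `M` be an ideal,
  `x = a + b` with `a ∈ M`, `b ∈ orth L M`; every `s i` is in `M` or in `orth L M`
  (`IrrSymp.inv_dich`), `S = SA + SB`, and `[SA, a] = 2 ε C a`, `[SB, b] = 2 ε C b`. By `eig54` all
  `s i` are in `M` if `a ≠ 0`, and in `orth L M` if `b ≠ 0` (`side54`). Let `I` be an ideal of least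
  dimension with `S ∈ I`; by `side54` it is a minimal ideal. As `L` is not simple, `I ≠ L`,
  `orth L I ≠ ⊥`; let `I'` be a minimal ideal in `orth L I`, `τ ∈ T` with `τ I = I'` (`trans_min`) and
  `g, h` with `g * τ (nu c p) * h = nu c p` (`N.rat`), so `g * τ S * h = S` is in `I'` (`id_conj`).
  So `S ∈ I ⊓ orth L I = ⊥`, `S = 0`. Contradiction.
-/

set_option linter.unusedSectionVars false
set_option linter.unusedVariables false

open Module MTP

namespace PR

variable {K : Type*} [Field K] {V : Type*} [AddCommGroup V] [Module K V] [FiniteDimensional K V]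
variable {ω : LinearMap.BilinForm K V} {G : Set (Module.End K V)}
  {T : Set (Module.End K V ≃+* Module.End K V)} {p0 : Module.End K V}

/-- The eigenvalues of the commutator with a combination of commuting involutions. -/
private lemma eig54 [CharZero K] {n : ℕ} (s : Fin n → Module.End K V) (hss : ∀ i, s i * s i = 1)
    (hc : ∀ i j, s i * s j = s j * s i) (w : Fin n → ℕ) {y : Module.End K V} (hy : y ≠ 0) {μ : K}
    (h : (∑ i, (w i : K) • s i) * y - y * (∑ i, (w i : K) • s i) = μ • y) :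
    ∃ z : ℤ, μ = (z : K) ∧ |z| ≤ 2 * ((∑ i, w i : ℕ) : ℤ) := by
  classical
  obtain ⟨b, χ, hχ, hb⟩ := exists_basis14 s hss hc
  have hS : ∀ j, (∑ i, (w i : K) • s i) (b j) = (∑ i, (w i : K) * (χ i j : K)) • b j := by
    intro j
    rw [LinearMap.sum_apply, Finset.sum_smul]
    apply Finset.sum_congr rfl
    intro i _
    rw [LinearMap.smul_apply, hb, smul_smul]
  obtain ⟨j, hj⟩ : ∃ j, y (b j) ≠ 0 := by
    by_contra hcon
    push Not at hcon
    exact hy (b.ext fun j => by rw [hcon, LinearMap.zero_apply])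
  obtain ⟨k, hk⟩ : ∃ k, b.repr (y (b j)) k ≠ 0 := by
    by_contra hcon
    push Not at hcon
    apply hj
    apply b.repr.injective
    ext k
    rw [hcon, map_zero, Finsupp.zero_apply]
  have h1 := congrArg (fun T : Module.End K V => b.repr (T (b j)) k) h
  simp only [LinearMap.sub_apply, Module.End.mul_apply, map_sub, Finsupp.sub_apply,
    LinearMap.smul_apply, map_smul, Finsupp.smul_apply, smul_eq_mul] at h1
  rw [repr14 b hS, hS, map_smul, map_smul, Finsupp.smul_apply, smul_eq_mul, ← sub_mul] at h1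
  have h2 := mul_right_cancel₀ hk h1
  refine ⟨∑ i, (w i : ℤ) * (χ i k - χ i j), ?_, ?_⟩
  · rw [← h2, ← Finset.sum_sub_distrib]
    push_cast
    apply Finset.sum_congr rfl
    intro i _
    ring
  · refine (Finset.abs_sum_le_sum_abs _ _).trans ?_
    push_cast
    rw [Finset.mul_sum]
    apply Finset.sum_le_sum
    intro i _
    have h3 : |χ i k - χ i j| ≤ 2 := by
      rcases hχ i k with h | h <;> rcases hχ i j with h' | h' <;> rw [h, h'] <;> norm_num
    rw [abs_mul, abs_of_nonneg (Int.natCast_nonneg (w i))]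
    calc (w i : ℤ) * |χ i k - χ i j| ≤ (w i : ℤ) * 2 :=
          mul_le_mul_of_nonneg_left h3 (Int.natCast_nonneg (w i))
      _ = 2 * (w i : ℤ) := by ring

private lemma inv54 [CharZero K] {p : Module.End K V} (hp : p * p = p) :
    ((2 : K) • p - 1) * ((2 : K) • p - 1) = 1 := by
  simp only [sub_mul, mul_sub, smul_mul_assoc, mul_smul_comm, hp, mul_one, one_mul]
  module

private lemma comm54 {p q : Module.End K V} (h : p * q = q * p) :
    ((2 : K) • p - 1) * ((2 : K) • q - 1) = ((2 : K) • q - 1) * ((2 : K) • p - 1) := by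
  simp only [sub_mul, mul_sub, smul_mul_assoc, mul_smul_comm, h, mul_one, one_mul]
  module

private lemma sum54 {n : ℕ} (c : Fin n → ℕ) (p : Fin n → Module.End K V) :
    ∑ i, (c i : K) • ((2 : K) • p i - 1) =
      (2 : K) • nu c p - ((∑ i, c i : ℕ) : K) • (1 : Module.End K V) := by
  unfold nu
  push_cast
  rw [Finset.smul_sum, Finset.sum_smul, ← Finset.sum_sub_distrib]
  refine Finset.sum_congr rfl fun i _ => ?_
  rw [smul_sub, smul_comm, ← Nat.cast_smul_eq_nsmul K]

private lemma brack54 {n : ℕ} (c : Fin n → ℕ) (p : Fin n → Module.End K V)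
    (y : Module.End K V) :
    (∑ i, (c i : K) • ((2 : K) • p i - 1)) * y - y * (∑ i, (c i : K) • ((2 : K) • p i - 1)) =
      (2 : K) • (nu c p * y - y * nu c p) := by
  rw [sum54]
  simp only [sub_mul, mul_sub, smul_mul_assoc, mul_smul_comm, mul_one, one_mul]
  module

private lemma pos54 {n : ℕ} (hn : 0 < n) {c : Fin n → ℕ} (hc : ∀ i, 0 < c i) :
    0 < ∑ i, c i :=
  Finset.sum_pos (fun i _ => hc i) ⟨⟨0, hn⟩, Finset.mem_univ _⟩

theorem mono_sq [CharZero K] {n : ℕ} (hn : 0 < n) {c : Fin n → ℕ} (hc : ∀ i, 0 < c i)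
    {p : Fin n → Module.End K V} (hp : ∀ i, p i * p i = p i)
    (hcomm : ∀ i j, p i * p j = p j * p i) {x : Module.End K V} {ε : K} (hε : ε = 1 ∨ ε = -1)
    (h : nu c p * x - x * nu c p = (ε * ((∑ i, c i : ℕ) : K)) • x) : x * x = 0 := by
  by_contra hne
  have h1 : nu c p * (x * x) - (x * x) * nu c p =
      (2 * (ε * ((∑ i, c i : ℕ) : K))) • (x * x) := by
    have e : nu c p * (x * x) - (x * x) * nu c p =
        (nu c p * x - x * nu c p) * x + x * (nu c p * x - x * nu c p) := by
      simp only [sub_mul, mul_sub, mul_assoc]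
      abel
    rw [e, h, smul_mul_assoc, mul_smul_comm, ← add_smul]
    congr 1
    ring
  have h2 := brack54 c p (x * x)
  rw [h1, smul_smul] at h2
  obtain ⟨z, hz, hz2⟩ := eig54 (fun i => (2 : K) • p i - 1) (fun i => inv54 (hp i))
    (fun i j => comm54 (hcomm i j)) c hne h2
  have hC := pos54 hn hc
  generalize (∑ i, c i) = C at hz hz2 hC
  have hC' : (0 : ℤ) < C := by exact_mod_cast hC
  rcases hε with rfl | rfl
  · have h3 : z = 4 * (C : ℤ) := by
      have : (z : K) = ((4 * (C : ℤ) : ℤ) : K) := by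
        rw [← hz]; push_cast; ring
      exact_mod_cast this
    rw [h3, abs_of_pos (by linarith)] at hz2
    linarith
  · have h3 : z = - (4 * (C : ℤ)) := by
      have : (z : K) = ((- (4 * (C : ℤ)) : ℤ) : K) := by
        rw [← hz]; push_cast; ring
      exact_mod_cast this
    rw [h3, abs_neg, abs_of_pos (by linarith)] at hz2
    linarith

theorem WStr.unip_mem [IsAlgClosed K] [CharZero K] (D : WStr ω G T) {x : Module.End K V}
    (hx : x * x = 0) (h : 1 + x ∈ G) : x ∈ WL ω G := by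
  have C := D.ctx
  obtain ⟨u', hu', huu, huu'⟩ := D.inv _ h
  have huN' : u' = 1 - x := by
    have e2 : (1 + x) * (1 - x) = 1 := by
      have e3 : (1 + x) * (1 - x) = 1 - x * x := by
        simp only [mul_sub, add_mul, mul_one, one_mul]; abel
      rw [e3, hx, sub_zero]
    calc u' = u' * ((1 + x) * (1 - x)) := by rw [e2, mul_one]
      _ = _ := by rw [← mul_assoc, huu', one_mul]
  obtain ⟨c, hc⟩ := D.sim _ h
  obtain ⟨c', hc'⟩ := D.sim u' hu'
  have hcc : c * c' = 1 := by
    obtain ⟨v, w, hw⟩ := D.exists_ne_form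
    have h1 : ∀ y, (1 + x) (u' y) = y := fun y => LinearMap.congr_fun huu y
    have e1 := hc (u' v) (u' w)
    rw [h1, h1, hc'] at e1
    have e2 : (c * c' - 1) * ω v w = 0 := by linear_combination -e1
    have e3 := (mul_eq_zero.mp e2).resolve_right hw
    linear_combination e3
  have hsk : IsSk ω x := by
    apply quad_skew hx (c := c) (c' := c') _ _ hcc D.nd
    · intro v w; exact hc v w
    · intro v w; rw [← huN']; exact hc' v w
  apply C.irr.mem_of_normalize C.nd hsk
  intro y hy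
  have h1 := D.lie_conj h hu' huu huu' hy
  have h2 := D.lie_conj hu' h huu' huu hy
  rw [huN'] at h1 h2
  have h3 := (WL ω G).smul_mem (2 : K)⁻¹ ((WL ω G).sub_mem h1 h2)
  have e : (1 + x) * y * (1 - x) - (1 - x) * y * (1 + x) =
      (2 : K) • (x * y - y * x) := by
    have : (1 + x) * y * (1 - x) - (1 - x) * y * (1 + x) =
      (x * y - y * x) + (x * y - y * x) := by
      simp only [mul_sub, sub_mul, mul_add, add_mul, mul_one, one_mul, mul_assoc]; abel
    rw [this, two_smul]
  rw [e, smul_smul, inv_mul_cancel₀ two_ne_zero, one_smul] at h3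
  exact h3

/-- All the involutions are on one side of every ideal. -/
private lemma side54 [IsAlgClosed K] [CharZero K] {L M : Submodule K (Module.End K V)}
    (hL : IrrSymp ω L) (hω : ω.Nondegenerate) (hM : IsId L M) {n : ℕ} {c : Fin n → ℕ}
    (hc : ∀ i, 0 < c i) (s : Fin n → Module.End K V) (hsL : ∀ i, s i ∈ L)
    (hss : ∀ i, s i * s i = 1) (hcomm : ∀ i j, s i * s j = s j * s i) {x : Module.End K V}
    (hx : x ∈ L) (hx0 : x ≠ 0) {ε : K} (hε : ε = 1 ∨ ε = -1)
    (h : (∑ i, (c i : K) • s i) * x - x * (∑ i, (c i : K) • s i) =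
      (2 * (ε * ((∑ i, c i : ℕ) : K))) • x) :
    (∀ i, s i ∈ M) ∨ ∀ i, s i ∈ orth L M := by
  classical
  set μ : K := 2 * (ε * ((∑ i, c i : ℕ) : K)) with hμ
  have hO := orth_isId hL.br hM
  have hdich : ∀ i, s i ∈ M ∨ s i ∈ orth L M := fun i => hL.inv_dich hω hM (hsL i) (hss i)
  obtain ⟨a, ha, hb⟩ := hL.sup_orth hω hM hx
  obtain ⟨b, hbd⟩ : ∃ b, b = x - a := ⟨_, rfl⟩
  rw [← hbd] at hb
  have hxab : x = a + b := by rw [hbd]; abel
  -- the two parts of the sum
  let wA : Fin n → ℕ := fun i => if s i ∈ M then c i else 0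
  let wB : Fin n → ℕ := fun i => if s i ∈ M then 0 else c i
  have hwAB : ∑ i, (c i : K) • s i = ∑ i, (wA i : K) • s i + ∑ i, (wB i : K) • s i := by
    rw [← Finset.sum_add_distrib]
    apply Finset.sum_congr rfl
    intro i _
    by_cases hi : s i ∈ M <;> simp [wA, wB, hi]
  obtain ⟨SA, hSA⟩ : ∃ SA, SA = ∑ i, (wA i : K) • s i := ⟨_, rfl⟩
  obtain ⟨SB, hSB⟩ : ∃ SB, SB = ∑ i, (wB i : K) • s i := ⟨_, rfl⟩
  rw [← hSA, ← hSB] at hwAB
  have hSAM : SA ∈ M := by
    rw [hSA]
    apply Submodule.sum_mem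
    intro i _
    by_cases hi : s i ∈ M
    · exact M.smul_mem _ hi
    · simp [wA, hi]
  have hSBO : SB ∈ orth L M := by
    rw [hSB]
    apply Submodule.sum_mem
    intro i _
    by_cases hi : s i ∈ M
    · simp [wB, hi]
    · exact (orth L M).smul_mem _ ((hdich i).resolve_left hi)
  have c1 : SA * b = b * SA := hL.orth_comm hω hM hSAM hb
  have c2 : a * SB = SB * a := hL.orth_comm hω hM ha hSBO
  rw [hwAB, hxab] at h
  have e : (SA * a - a * SA - μ • a) + (SB * b - b * SB - μ • b) = 0 := by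
    have e1 : (SA + SB) * (a + b) - (a + b) * (SA + SB) =
        (SA * a - a * SA) + (SB * b - b * SB) := by
      simp only [add_mul, mul_add, c1, c2]
      abel
    rw [e1, smul_add] at h
    rw [← sub_eq_zero] at h
    rw [← h]
    abel
  have hA1 : SA * a - a * SA - μ • a ∈ M :=
    M.sub_mem (hM.2 _ (hM.1 hSAM) _ ha) (M.smul_mem _ ha)
  have hB1 : SB * b - b * SB - μ • b ∈ orth L M :=
    (orth L M).sub_mem (hO.2 _ (hO.1 hSBO) _ hb) ((orth L M).smul_mem _ hb)
  have hA0 : SA * a - a * SA - μ • a = 0 := by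
    apply hL.inf_orth hω hM hA1
    rw [eq_neg_of_add_eq_zero_left e]
    exact (orth L M).neg_mem hB1
  have hB0 : SB * b - b * SB - μ • b = 0 := by
    rw [hA0, zero_add] at e
    exact e
  -- the size of the eigenvalue
  have hsize : ∀ (w : Fin n → ℕ) (S y : Module.End K V), S = ∑ i, (w i : K) • s i →
      (∀ i, w i ≤ c i) → y ≠ 0 → S * y - y * S - μ • y = 0 → ∀ i, w i ≠ 0 := by
    intro w S y hS hw hy hyS i hi
    rw [sub_eq_zero, hS] at hyS
    obtain ⟨z, hz, hz2⟩ := eig54 s hss hcomm w hy hyS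
    have hlt : ∑ i, w i < ∑ i, c i :=
      Finset.sum_lt_sum (fun i _ => hw i) ⟨i, Finset.mem_univ _, by rw [hi]; exact hc i⟩
    have hlt' : ((∑ i, w i : ℕ) : ℤ) < ((∑ i, c i : ℕ) : ℤ) := by exact_mod_cast hlt
    generalize (∑ i, c i) = C at hμ hlt'
    have hC' : (0 : ℤ) ≤ ((∑ i, w i : ℕ) : ℤ) := Int.natCast_nonneg _
    rw [hμ] at hz
    rcases hε with rfl | rfl
    · have h3 : z = 2 * (C : ℤ) := by
        have : (z : K) = ((2 * (C : ℤ) : ℤ) : K) := by
          rw [← hz]; push_cast; ring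
        exact_mod_cast this
      rw [h3, abs_of_pos (by linarith)] at hz2
      linarith
    · have h3 : z = - (2 * (C : ℤ)) := by
        have : (z : K) = ((- (2 * (C : ℤ)) : ℤ) : K) := by
          rw [← hz]; push_cast; ring
        exact_mod_cast this
      rw [h3, abs_neg, abs_of_pos (by linarith)] at hz2
      linarith
  by_cases ha0 : a = 0
  · right
    have hb0 : b ≠ 0 := by
      intro h0
      apply hx0
      rw [hxab, ha0, h0, add_zero]
    intro i
    have h1 := hsize wB SB b hSB (fun i => by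
      by_cases hi : s i ∈ M <;> simp [wB, hi]) hb0 hB0 i
    by_cases hi : s i ∈ M
    · exact absurd (by simp [wB, hi]) h1
    · exact (hdich i).resolve_left hi
  · left
    intro i
    have h1 := hsize wA SA a hSA (fun i => by
      by_cases hi : s i ∈ M <;> simp [wA, hi]) ha0 hA0 i
    by_contra hi
    exact h1 (by simp [wA, hi])

theorem WStr.no_mono [IsAlgClosed K] [CharZero K] (D : WStr ω G T) (hS : TSmp (WL ω G) T)
    (hns : ¬ Smp (WL ω G)) (hsk : IsSk ω ((2 : K) • p0 - 1)) {n : ℕ} (hn : 0 < n)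
    {c : Fin n → ℕ} {p : Fin n → Module.End K V} (N : Newt G T p0 c p) {x : Module.End K V}
    (hx : x ∈ WL ω G) {ε : K} (hε : ε = 1 ∨ ε = -1)
    (h : nu c p * x - x * nu c p = (ε * ((∑ i, c i : ℕ) : K)) • x) : x = 0 := by
  classical
  by_contra hx0
  have hL := D.ctx.irr
  have hω := D.nd
  have hpp : ∀ i, p i * p i = p i := fun i => (D.cc_of_sc N.base (N.conj i)).1
  have hsL : ∀ i, (2 : K) • p i - 1 ∈ WL ω G := fun i =>
    (D.sk_of_sc N.base hsk (N.conj i)).2
  obtain ⟨S, hSd⟩ : ∃ S, S = ∑ i, (c i : K) • ((2 : K) • p i - 1) := ⟨_, rfl⟩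
  have hSL : S ∈ WL ω G := by
    rw [hSd]
    exact Submodule.sum_mem _ fun i _ => Submodule.smul_mem _ _ (hsL i)
  have hSx : S * x - x * S = (2 * (ε * ((∑ i, c i : ℕ) : K))) • x := by
    rw [hSd, brack54, h, smul_smul]
  have hC0 : ((∑ i, c i : ℕ) : K) ≠ 0 := by
    exact_mod_cast (pos54 hn N.pos).ne'
  have hε0 : ε ≠ 0 := by
    rcases hε with rfl | rfl
    · exact one_ne_zero
    · exact neg_ne_zero.mpr one_ne_zero
  have hS0 : S ≠ 0 := by
    intro h0
    rw [h0, zero_mul, mul_zero, sub_zero] at hSx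
    rcases smul_eq_zero.mp hSx.symm with h1 | h1
    · exact mul_ne_zero two_ne_zero (mul_ne_zero hε0 hC0) h1
    · exact hx0 h1
  have hside : ∀ M, IsId (WL ω G) M → S ∈ M ∨ S ∈ orth (WL ω G) M := by
    intro M hM
    rcases side54 hL hω hM N.pos (fun i => (2 : K) • p i - 1) hsL (fun i => inv54 (hpp i))
      (fun i j => comm54 (N.comm i j)) hx hx0 hε (by rw [← hSd]; exact hSx) with h1 | h1
    · left
      rw [hSd]
      exact Submodule.sum_mem _ fun i _ => Submodule.smul_mem _ _ (h1 i)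
    · right
      rw [hSd]
      exact Submodule.sum_mem _ fun i _ => Submodule.smul_mem _ _ (h1 i)
  -- a least ideal with `S`
  have hex : ∃ d, ∃ I : Submodule K (Module.End K V), IsId (WL ω G) I ∧ S ∈ I ∧
      finrank K I = d := ⟨_, WL ω G, ⟨le_rfl, hL.br⟩, hSL, rfl⟩
  obtain ⟨I, hI, hSI, hd⟩ := Nat.find_spec hex
  have hleast : ∀ J, IsId (WL ω G) J → S ∈ J → finrank K I ≤ finrank K J := by
    intro J hJ hSJ
    rw [hd]
    exact Nat.find_min' hex ⟨J, hJ, hSJ, rfl⟩
  have hle : ∀ J, IsId (WL ω G) J → S ∈ J → I ≤ J := by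
    intro J hJ hSJ
    have h1 := hleast _ (inf_isId hI hJ) ⟨hSI, hSJ⟩
    have h2 : I ⊓ J = I := Submodule.eq_of_le_of_finrank_le inf_le_left h1
    rw [← h2]
    exact inf_le_right
  have hmin : IsMin (WL ω G) I := by
    refine ⟨hI, ?_, ?_⟩
    · rintro rfl
      exact hS0 ((Submodule.mem_bot K).mp hSI)
    · intro J hJI hJ hJ0
      rcases hside J hJ with h1 | h1
      · exact le_antisymm hJI (hle J hJ h1)
      · exfalso
        apply hJ0
        rw [eq_bot_iff]
        intro y hy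
        rw [Submodule.mem_bot]
        exact hL.inf_orth hω hJ hy (hle _ (orth_isId hL.br hJ) h1 (hJI hy))
  have hIne : I ≠ WL ω G := by
    intro hIL
    apply hns
    intro M hM hMi
    by_cases hM0 : M = ⊥
    · exact Or.inl hM0
    · right
      have := hmin.2.2 M (by rw [hIL]; exact hM) ⟨hM, hMi⟩ hM0
      rw [this, hIL]
  have hO := orth_isId hL.br hI
  have hO0 : orth (WL ω G) I ≠ ⊥ := by
    intro h0
    apply hIne
    apply le_antisymm hI.1
    intro z hz
    obtain ⟨y, hy, hzy⟩ := hL.sup_orth hω hI hz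
    rw [h0, Submodule.mem_bot, sub_eq_zero] at hzy
    rw [hzy]
    exact hy
  obtain ⟨I', hI'le, hI', hI'0, hI'min⟩ := exists_min_ideal hO hO0
  obtain ⟨τ, hτ, hτI⟩ := trans_min hL hω (fun τ hτ => D.isTw hτ) D.tone D.tmul hS hmin
    (⟨hI', hI'0, hI'min⟩ : IsMin (WL ω G) I')
  obtain ⟨g, hg, g', hg', hgg', hg'g, hrat⟩ := N.rat τ hτ
  obtain ⟨σ, hσ⟩ := D.semi τ hτ
  have hSrat : g * τ S * g' = S := by
    rw [hSd, sum54, map_sub, hσ, hσ, map_one, map_ofNat, map_natCast, mul_sub, sub_mul,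
      mul_smul_comm, smul_mul_assoc, hrat, mul_smul_comm, smul_mul_assoc, mul_one, hgg']
  have hτS : τ S ∈ I' := (hτI S).mpr hSI
  have h1 := D.id_conj hI' hg hg' hgg' hg'g hτS
  rw [hSrat] at h1
  exact hS0 (hL.inf_orth hω hI hSI (hI'le h1))

end PR
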