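import Pool.Agent.Helper27.PR.Defs

/-!
Slopes with a nonzero monodromy operator.
-/

open Module MTPairs

namespace PR

variable {K : Type*} [Field K] {m : Type*} [Fintype m] [DecidableEq m]

/-- As `HasSlopes`, and moreover some element `u ≠ 1` of `G` satisfies
`ν (u - 1) - (u - 1) ν = ± (u - 1)`. -/
def HasMono (Γ : Subgroup (Equiv.Perm (m → K))) (G : Subgroup (Matrix.GeneralLinearGroup m K))
    (π : Matrix m m K) (Λ : Multiset ℚ) : Prop :=
  ∃ (n : ℕ) (c : Fin n → ℕ) (P : Fin n → Matrix m m K),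
    (∀ i, 0 < c i ∧ IsConj Γ G π (P i)) ∧ (∀ i j, P i * P j = P j * P i) ∧
    (∀ θ ∈ Γ, ∃ g ∈ G, ∀ v : m → K,
      (∑ i, c i • P i).mulVec ((g : Matrix m m K).mulVec (θ v)) =
        (g : Matrix m m K).mulVec (θ ((∑ i, c i • P i).mulVec v))) ∧
    Λ.card = Fintype.card m ∧
    (∀ l : ℚ, finrank K (Module.End.eigenspace (∑ i, c i • P i).mulVecLin
      (((∑ i, c i : ℕ) * l : ℚ) : K)) = Λ.count l) ∧
    ∃ u ∈ G, u ≠ 1 ∧ ∃ ε : K, (ε = 1 ∨ ε = -1) ∧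
      (∑ i, c i • P i) * ((u : Matrix m m K) - 1) - ((u : Matrix m m K) - 1) * (∑ i, c i • P i) =
        (ε * ((∑ i, c i : ℕ) : K)) • ((u : Matrix m m K) - 1)

end PR
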