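import Pool.Agent.Helper27.PR.Cnt
import Pool.Agent.Helper21.MT.Rank

/-!
Block MS. The monodromy operator in the spin case has rank one if some multiplicity is odd.

`nu c p (b I) = n I • b I` with `n I = ∑ c i` over the `i` with `p i (b I) = b I` (the others have
`p i (b I) = 0`), an integer between `0` and `C = ∑ c i`. Since `[nu, x] = ε C x`, `x` maps the
eigenspace for `z` to the one for `z + ε C`, so `x (b I) = 0` unless `n I = 0` (for `ε = 1`),
respectively `n I = C` (for `ε = -1`). Claim: at most one `I` has `n I = 0` (and at most one has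
`n I = C`). Suppose `I ≠ I'` both have `n = 0`. Then for all `i`, `s i (b I) = - b I` and
`s i (b I') = - b I'`, so by the form of `s i` with the index `j i`: `j i ∈ I ↔ j i ∈ I'`. The
symmetric difference of `I` and `I'` is not empty and of even order (both orders are even), so it
contains two different elements `a, a'`, and `j i ≠ a, a'` for all `i`. Toggling `a` and `a'`
(`J ↦ symmDiff J {a, a'}`) is an involution of the even subsets without fixed points, and it
preserves `n`; so all the numbers `#{J | n J = z}` are even, and by `eig_count` all eigenspaces of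
`nu` have even dimension: contradiction. The same for `n = C`. So the range of `x` is spanned by one
vector, and `x ≠ 0`: `rk x = 1`.
-/

set_option linter.unusedSectionVars false
set_option linter.unusedVariables false

open Module MTP

namespace PR

variable {K : Type*} [Field K] {V : Type*} [AddCommGroup V] [Module K V] [FiniteDimensional K V]

private lemma even_symm56 {α : Type*} [DecidableEq α] {s t : Finset α} (hs : Even s.card) (ht : Even t.card) :
    Even (symmDiff s t).card := by
  have h1 := Finset.card_sdiff_add_card_inter s t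
  have h2 := Finset.card_sdiff_add_card_inter t s
  rw [Finset.inter_comm] at h2
  have h3 : (symmDiff s t).card = (s \ t).card + (t \ s).card := by
    have : symmDiff s t = (s \ t) ∪ (t \ s) := rfl
    rw [this, Finset.card_union_of_disjoint]
    rw [Finset.disjoint_left]
    intro a ha hb
    rw [Finset.mem_sdiff] at ha hb
    exact ha.2 hb.1
  rw [h3]
  rw [Nat.even_iff] at hs ht ⊢
  omega

private lemma even_card56 {α : Type*} [DecidableEq α] (s : Finset α) (g : α → α) (h1 : ∀ a ∈ s, g a ∈ s)
    (h2 : ∀ a ∈ s, g a ≠ a) (h3 : ∀ a ∈ s, g (g a) = a) : Even s.card := by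
  have h := Finset.sum_involution (s := s) (f := fun _ => (1 : ZMod 2)) (fun a _ => g a)
    (fun a ha => by decide) (fun a ha _ => h2 a ha) (fun a ha => h1 a ha) (fun a ha => h3 a ha)
  rw [Finset.sum_const, nsmul_eq_mul, mul_one] at h
  exact (ZMod.natCast_eq_zero_iff_even).mp h

theorem spin_mono [CharZero K] {n : ℕ} (hn : 0 < n) {c : Fin n → ℕ} (hc : ∀ i, 0 < c i)
    {p : Fin n → Module.End K V} {q : ℕ}
    (b : Basis {I : Finset (Fin (q + 1)) // Even I.card} K V)
    (h : ∀ i, ∃ j : Fin (q + 1), (q % 4 = 2 → j ≠ 0) ∧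
      ((∀ I, ((2 : K) • p i - 1) (b I) = (if j ∈ I.1 then (-1 : K) else 1) • b I) ∨
       (∀ I, ((2 : K) • p i - 1) (b I) = (if j ∈ I.1 then (1 : K) else -1) • b I)))
    {x : Module.End K V} (hx0 : x ≠ 0) {ε : K} (hε : ε = 1 ∨ ε = -1)
    (hrel : nu c p * x - x * nu c p = (ε * ((∑ i, c i : ℕ) : K)) • x) {μ : K}
    (hodd : Odd (finrank K (Module.End.eigenspace (nu c p) μ))) : rk x = 1 := by
  classical
  choose j _ hj using h
  have h2 : (2 : K) ≠ 0 := two_ne_zero
  have key : ∀ (i : Fin n) (I : {I : Finset (Fin (q + 1)) // Even I.card}) (s : K),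
      ((2 : K) • p i - 1) (b I) = s • b I → p i (b I) = ((1 + s) / 2) • b I := by
    intro i I s h1
    rw [LinearMap.sub_apply, LinearMap.smul_apply, Module.End.one_apply, sub_eq_iff_eq_add] at h1
    have h3 : p i (b I) = (2 : K)⁻¹ • ((2 : K) • p i (b I)) := by
      rw [smul_smul, inv_mul_cancel₀ h2, one_smul]
    rw [h3, h1, smul_add, smul_smul, ← add_smul]
    congr 1
    ring
  have hτ : ∀ i, ∃ τ : Prop, ∀ I, p i (b I) = (if (j i ∈ I.1 ↔ τ) then (1 : K) else 0) • b I := by
    intro i
    rcases hj i with h1 | h1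
    · refine ⟨False, fun I => ?_⟩
      rw [key i I _ (h1 I)]
      congr 1
      by_cases hI : j i ∈ I.1
      · rw [if_pos hI, if_neg (by simpa using hI)]
        ring
      · rw [if_neg hI, if_pos (by simpa using hI)]
        field_simp
        norm_num
    · refine ⟨True, fun I => ?_⟩
      rw [key i I _ (h1 I)]
      congr 1
      by_cases hI : j i ∈ I.1
      · rw [if_pos hI, if_pos (by simpa using hI)]
        field_simp
        norm_num
      · rw [if_neg hI, if_neg (by simpa using hI)]
        ring
  choose τ hτ using hτ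
  obtain ⟨N, hN⟩ : ∃ N : {I : Finset (Fin (q + 1)) // Even I.card} → ℕ,
      ∀ I, N I = ∑ i, if (j i ∈ I.1 ↔ τ i) then c i else 0 := ⟨_, fun I => rfl⟩
  have hNle : ∀ I, N I ≤ ∑ i, c i := by
    intro I
    rw [hN]
    refine Finset.sum_le_sum fun i _ => ?_
    split_ifs
    · exact le_rfl
    · exact Nat.zero_le _
  have hnu : ∀ I, nu c p (b I) = ((N I : ℕ) : K) • b I := by
    intro I
    unfold nu
    rw [LinearMap.sum_apply, hN, Nat.cast_sum, Finset.sum_smul]
    refine Finset.sum_congr rfl fun i _ => ?_
    rw [LinearMap.smul_apply, hτ]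
    split_ifs
    · rw [one_smul, Nat.cast_smul_eq_nsmul]
    · rw [zero_smul, smul_zero, Nat.cast_zero, zero_smul]
  have hrepr : ∀ v J, b.repr (nu c p v) J = ((N J : ℕ) : K) * b.repr v J := by
    intro v I
    have h1 : nu c p v = ∑ J, (b.repr v J * ((N J : ℕ) : K)) • b J := by
      conv_lhs => rw [← b.sum_repr v]
      rw [map_sum]
      refine Finset.sum_congr rfl fun J _ => ?_
      rw [map_smul, hnu, smul_smul]
    rw [h1, map_sum, Finsupp.finsetSum_apply, Finset.sum_eq_single I]
    · simp [mul_comm]
    · intro J _ hJ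
      simp [hJ]
    · simp
  have hC : 0 < ∑ i, c i := Finset.sum_pos (fun i _ => hc i) ⟨⟨0, hn⟩, Finset.mem_univ _⟩
  have hco : ∀ I J, b.repr (x (b I)) J ≠ 0 → ((N J : ℕ) : K) - N I = ε * ((∑ i, c i : ℕ) : K) := by
    intro I J hJ
    have h1 := congrArg (fun f : Module.End K V => b.repr (f (b I)) J) hrel
    simp only [LinearMap.sub_apply, Module.End.mul_apply, LinearMap.smul_apply, map_sub, map_smul,
      Finsupp.sub_apply, Finsupp.smul_apply, smul_eq_mul, hrepr, hnu] at h1
    apply mul_right_cancel₀ hJ
    rw [sub_mul]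
    exact h1
  obtain ⟨t, ht, ht'⟩ : ∃ t : ℕ, (t = 0 ∨ t = ∑ i, c i) ∧ ∀ I, x (b I) ≠ 0 → N I = t := by
    rcases hε with rfl | rfl
    · refine ⟨0, Or.inl rfl, fun I hI => ?_⟩
      obtain ⟨J, hJ⟩ := Finsupp.ne_iff.mp (fun h => hI (b.repr.map_eq_zero_iff.mp h))
      have h1 := hco I J hJ
      have h3 : ((N J : ℕ) : K) = ((N I + ∑ i, c i : ℕ) : K) := by
        rw [Nat.cast_add]
        linear_combination h1
      have h4 : N J = N I + ∑ i, c i := Nat.cast_injective h3
      have h5 := hNle J
      omega
    · refine ⟨∑ i, c i, Or.inr rfl, fun I hI => ?_⟩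
      obtain ⟨J, hJ⟩ := Finsupp.ne_iff.mp (fun h => hI (b.repr.map_eq_zero_iff.mp h))
      have h1 := hco I J hJ
      have h3 : ((N I : ℕ) : K) = ((N J + ∑ i, c i : ℕ) : K) := by
        rw [Nat.cast_add]
        linear_combination -h1
      have h4 : N I = N J + ∑ i, c i := Nat.cast_injective h3
      have h5 := hNle I
      omega
  have hiff : ∀ I, N I = t → ∀ i, (j i ∈ I.1 ↔ τ i) ↔ t ≠ 0 := by
    intro I hI i
    rcases ht with h0 | h0
    · rw [h0, hN, Finset.sum_eq_zero_iff] at hI
      have h3 := hI i (Finset.mem_univ i)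
      have h4 := hc i
      constructor
      · intro h5
        rw [if_pos h5] at h3
        omega
      · intro h5
        exact absurd h0 h5
    · have h5 : t ≠ 0 := by omega
      refine ⟨fun _ => h5, fun _ => ?_⟩
      rw [h0, hN] at hI
      have h6 := (Finset.sum_eq_sum_iff_of_le (s := Finset.univ) (f := fun i => if (j i ∈ I.1 ↔ τ i) then c i else 0)
        (g := c) (fun i _ => by
          split_ifs
          · exact le_rfl
          · exact Nat.zero_le _)).mp hI i (Finset.mem_univ i)
      by_contra h7
      simp only [if_neg h7] at h6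
      have := hc i
      omega
  have huniq : ∀ I I', N I = t → N I' = t → I = I' := by
    intro I I' hI hI'
    by_contra hne
    have hmem : ∀ i, (j i ∈ I.1 ↔ j i ∈ I'.1) := by
      intro i
      have h3 := hiff I hI i
      have h4 := hiff I' hI' i
      tauto
    have hD : Even (symmDiff I.1 I'.1).card := even_symm56 I.2 I'.2
    have hD0 : (symmDiff I.1 I'.1).card ≠ 0 := by
      intro h3
      rw [Finset.card_eq_zero] at h3
      exact hne (Subtype.ext (symmDiff_eq_bot.mp h3))
    have hD1 : 1 < (symmDiff I.1 I'.1).card := by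
      rw [Nat.even_iff] at hD
      omega
    obtain ⟨a, ha, a', ha', haa⟩ := Finset.one_lt_card.mp hD1
    have hjD : ∀ i, j i ∉ ({a, a'} : Finset (Fin (q + 1))) := by
      intro i hi
      rw [Finset.mem_insert, Finset.mem_singleton] at hi
      have h3 : j i ∈ symmDiff I.1 I'.1 := by
        rcases hi with h | h
        · rw [h]; exact ha
        · rw [h]; exact ha'
      rw [Finset.mem_symmDiff] at h3
      have h4 := hmem i
      tauto
    have hpair : Even ({a, a'} : Finset (Fin (q + 1))).card := by
      rw [Finset.card_pair haa]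
      exact even_two
    rw [eig_count b (nu c p) (fun I => ((N I : ℕ) : K)) hnu μ] at hodd
    refine (Nat.not_even_iff_odd.mpr hodd) ?_
    refine even_card56 _ (fun J => ⟨symmDiff J.1 {a, a'}, even_symm56 J.2 hpair⟩) ?_ ?_ ?_
    · intro J hJ
      rw [Finset.mem_filter] at hJ ⊢
      refine ⟨Finset.mem_univ _, ?_⟩
      rw [← hJ.2]
      congr 1
      rw [hN, hN]
      refine Finset.sum_congr rfl fun i _ => ?_
      have h3 : (j i ∈ symmDiff J.1 {a, a'}) ↔ j i ∈ J.1 := by
        rw [Finset.mem_symmDiff]
        have := hjD i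
        tauto
      simp only [h3]
    · intro J _ h3
      have h4 := congrArg Subtype.val h3
      simp only at h4
      have h5 : ({a, a'} : Finset (Fin (q + 1))) = ∅ := by
        have := symmDiff_eq_left.mp h4
        exact this
      exact Finset.insert_ne_empty _ _ h5
    · intro J _
      apply Subtype.ext
      simp only
      rw [symmDiff_assoc, symmDiff_self, symmDiff_bot]
  -- the rank
  obtain ⟨I₀, hI₀⟩ : ∃ I, x (b I) ≠ 0 := by
    by_contra! hcon
    exact hx0 (b.ext fun I => by rw [hcon I]; rfl)
  have hzero : ∀ I, I ≠ I₀ → x (b I) = 0 := by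
    intro I hI
    by_contra h3
    exact hI (huniq I I₀ (ht' I h3) (ht' I₀ hI₀))
  have hrange : LinearMap.range x = Submodule.span K {x (b I₀)} := by
    apply le_antisymm
    · rintro _ ⟨v, rfl⟩
      have h3 : x v = b.repr v I₀ • x (b I₀) := by
        conv_lhs => rw [← b.sum_repr v]
        rw [map_sum, Finset.sum_eq_single I₀]
        · rw [map_smul]
        · intro I _ hI
          rw [map_smul, hzero I hI, smul_zero]
        · intro h
          exact absurd (Finset.mem_univ _) h
      rw [h3]
      exact Submodule.smul_mem _ _ (Submodule.mem_span_singleton_self _)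
    · rw [Submodule.span_singleton_le_iff_mem]
      exact ⟨b I₀, rfl⟩
  unfold rk
  rw [hrange]
  exact finrank_span_singleton hI₀

end PR
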