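import Pool.Agent.Helper27.PR.WDa
import Pool.Agent.Helper27.PR.Cnt

/-!
Block MW. The monodromy operator in the wedge case: all multiplicities are even.

Write `s i = 2 p i - 1 = ± t (j i)`, `∑ c i • s i = ∑_l β l • t l` with integers
`β l = ∑_{i, j i = l} ± c i`, so `∑ |β l| ≤ C = ∑ c i` and `2 • nu c p = C + ∑ β l • t l`. By `t_e`
the commutator with `2 • nu` multiplies `e i j` by `2 (β j - β i)` and kills the `t l`; `x ∈ L` is
in the span of these (`D.span`), so if `x ≠ 0` and `[2 nu, x] = 2 ε C x`, `C > 0`, there are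
`i ≠ j` with `β j - β i = C` or `= - C` (otherwise write `x` as a sum of eigenvectors of the
commutator with `2 nu` for eigenvalues different from `2 ε C`; so `x = 0`); exchanging `i` and `j`,
`β j - β i = C`, so `β l = 0` for the other `l`. The eigenvalue of `nu` on `b I` is
`(C + ∑_l β l (1 - 2 [l ∈ I])) / 2`: it depends only on `[i ∈ I]` and `[j ∈ I]`. The number of
the `I` of order `m` with `[i ∈ I]` and `[j ∈ I]` given is `(2 m - 2).choose r` with
`r = m, m - 1, m - 2`. These numbers are even: `2 (m - 1)` over `m - 1` is a central binomial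
coefficient (`Nat.centralBinom`, `Nat.two_dvd_centralBinom_of_one_le`), and
`(m - 2) * (2 m - 2).choose (m - 2) = (2 m - 2) * (2 m - 3).choose (m - 3)` with `m - 2` odd
(for `m = 3`: `1 * 4`), and `(2 m - 2).choose m = (2 m - 2).choose (m - 2)`. The dimension of an
eigenspace is a number of the `I` (`eig_count` in `Cnt.lean`).
-/

set_option linter.unusedSectionVars false
set_option linter.unusedVariables false

open Module MTP

namespace PR

variable {K : Type*} [Field K] {V : Type*} [AddCommGroup V] [Module K V] [FiniteDimensional K V]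
variable {L : Submodule K (Module.End K V)} {m : ℕ}

private lemma even_choose34 {m : ℕ} (hm : Odd m) (h3 : 3 ≤ m) {a : ℕ} (ha : a ≤ 2) :
    Even ((2 * m - 2).choose (m - a)) := by
  have hkey : Even ((2 * m - 2).choose (m - 2)) := by
    have h1 := Nat.add_one_mul_choose_eq (2 * m - 3) (m - 3)
    have e1 : 2 * m - 3 + 1 = 2 * m - 2 := by omega
    have e2 : m - 3 + 1 = m - 2 := by omega
    rw [e1, e2] at h1
    have h2 : Even ((2 * m - 2).choose (m - 2) * (m - 2)) := by
      rw [← h1]
      exact Even.mul_right ⟨m - 1, by omega⟩ _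
    rcases Nat.even_mul.mp h2 with h | h
    · exact h
    · exfalso
      obtain ⟨k, hk⟩ := hm
      obtain ⟨l, hl⟩ := h
      omega
  interval_cases a
  · have h1 : (2 * m - 2).choose (2 * m - 2 - m) = (2 * m - 2).choose m :=
      Nat.choose_symm (by omega)
    have e1 : 2 * m - 2 - m = m - 2 := by omega
    rw [Nat.sub_zero, ← h1, e1]
    exact hkey
  · have h1 := Nat.two_dvd_centralBinom_of_one_le (n := m - 1) (by omega)
    rw [Nat.centralBinom_eq_two_mul_choose] at h1
    have e1 : 2 * (m - 1) = 2 * m - 2 := by omega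
    rw [e1] at h1
    exact even_iff_two_dvd.mpr h1
  · exact hkey

/-- The number of the subsets of order `m` with a given intersection with `{i, j}`. -/
private lemma card_fib34 {m : ℕ} (h3 : 3 ≤ m) {i j : Fin (2 * m)} (hij : i ≠ j)
    {A : Finset (Fin (2 * m))} (hA : A ⊆ {i, j}) :
    ((Finset.univ : Finset {I : Finset (Fin (2 * m)) // I.card = m}).filter
      (fun I => I.1 ∩ {i, j} = A)).card = (2 * m - 2).choose (m - A.card) := by
  classical
  have hT : ({i, j} : Finset (Fin (2 * m))).card = 2 := Finset.card_pair hij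
  have hA2 : A.card ≤ 2 := (Finset.card_le_card hA).trans hT.le
  have hc : (Finset.univ \ ({i, j} : Finset (Fin (2 * m)))).card = 2 * m - 2 := by
    rw [Finset.card_sdiff_of_subset (Finset.subset_univ _), Finset.card_univ, Fintype.card_fin, hT]
  rw [← hc, ← Finset.card_powersetCard]
  refine Finset.card_bij (fun I _ => I.1 \ {i, j}) ?_ ?_ ?_
  · intro I hI
    rw [Finset.mem_filter] at hI
    rw [Finset.mem_powersetCard]
    refine ⟨Finset.sdiff_subset_sdiff (Finset.subset_univ _) (Finset.Subset.refl _), ?_⟩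
    have h1 := Finset.card_sdiff_add_card_inter I.1 {i, j}
    rw [hI.2, I.2] at h1
    omega
  · intro I hI I' hI' h
    rw [Finset.mem_filter] at hI hI'
    apply Subtype.ext
    rw [← Finset.sdiff_union_inter I.1 {i, j}, ← Finset.sdiff_union_inter I'.1 {i, j}, hI.2, hI'.2]
    exact congrArg (fun J => J ∪ A) h
  · intro J hJ
    rw [Finset.mem_powersetCard] at hJ
    have hd : Disjoint J ({i, j} : Finset (Fin (2 * m))) :=
      Finset.disjoint_of_subset_left hJ.1 Finset.sdiff_disjoint
    have hd2 : Disjoint J A := Finset.disjoint_of_subset_right hA hd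
    refine ⟨⟨J ∪ A, ?_⟩, ?_, ?_⟩
    · rw [Finset.card_union_of_disjoint hd2, hJ.2]
      omega
    · rw [Finset.mem_filter]
      refine ⟨Finset.mem_univ _, ?_⟩
      change (J ∪ A) ∩ {i, j} = A
      rw [Finset.union_inter_distrib_right, Finset.disjoint_iff_inter_eq_empty.mp hd,
        Finset.empty_union, Finset.inter_eq_left.mpr hA]
    · change (J ∪ A) \ {i, j} = J
      rw [Finset.union_sdiff_distrib, Finset.sdiff_eq_empty_iff_subset.mpr hA, Finset.union_empty,
        Finset.sdiff_eq_self_of_disjoint hd]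

/-- A union of classes has an even number of elements. -/
private lemma even_filter34 {m : ℕ} (hm : Odd m) (h3 : 3 ≤ m) {i j : Fin (2 * m)} (hij : i ≠ j)
    {P : {I : Finset (Fin (2 * m)) // I.card = m} → Prop} [DecidablePred P]
    (hP : ∀ I I', I.1 ∩ {i, j} = I'.1 ∩ {i, j} → P I → P I') :
    Even ((Finset.univ : Finset {I : Finset (Fin (2 * m)) // I.card = m}).filter P).card := by
  classical
  have h1 : ∀ I ∈ (Finset.univ : Finset {I : Finset (Fin (2 * m)) // I.card = m}).filter P,
      I.1 ∩ {i, j} ∈ ({i, j} : Finset (Fin (2 * m))).powerset := by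
    intro I _
    rw [Finset.mem_powerset]
    exact Finset.inter_subset_right
  rw [Finset.card_eq_sum_card_fiberwise h1]
  refine Finset.even_sum _ fun A hA => ?_
  rw [Finset.mem_powerset] at hA
  by_cases hex : ∃ I, P I ∧ I.1 ∩ {i, j} = A
  · obtain ⟨I0, hI0, hA0⟩ := hex
    have h2 : ((Finset.univ : Finset {I : Finset (Fin (2 * m)) // I.card = m}).filter P).filter
        (fun I => I.1 ∩ {i, j} = A) = (Finset.univ.filter (fun I => I.1 ∩ {i, j} = A)) := by
      ext I
      simp only [Finset.mem_filter, Finset.mem_univ, true_and]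
      exact ⟨fun h => h.2, fun h => ⟨hP I0 I (hA0.trans h.symm) hI0, h⟩⟩
    rw [h2, card_fib34 h3 hij hA]
    refine even_choose34 hm h3 ?_
    calc A.card ≤ ({i, j} : Finset (Fin (2 * m))).card := Finset.card_le_card hA
      _ = 2 := Finset.card_pair hij
  · have h2 : ((Finset.univ : Finset {I : Finset (Fin (2 * m)) // I.card = m}).filter P).filter
        (fun I => I.1 ∩ {i, j} = A) = ∅ := by
      rw [Finset.filter_eq_empty_iff]
      intro I hI hIA
      exact hex ⟨I, (Finset.mem_filter.mp hI).2, hIA⟩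
    rw [h2, Finset.card_empty]
    exact Even.zero

/-- An eigenvector of the commutator with `C + ∑ β l • t l`. -/
private lemma exists_pair34 [CharZero K] (W : WD L m) (β : Fin (2 * m) → ℤ) (a : ℤ) (ha : a ≠ 0)
    {x : Module.End K V} (hx : x ∈ L) (hx0 : x ≠ 0)
    (h : (∑ l, ((β l : ℤ) : K) • W.t l) * x - x * (∑ l, ((β l : ℤ) : K) • W.t l) =
      (2 * (a : K)) • x) : ∃ i j, i ≠ j ∧ β j - β i = a := by
  classical
  by_contra hcon
  push Not at hcon
  set B : Module.End K V := ∑ l, ((β l : ℤ) : K) • W.t l with hB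
  let D : Module.End K (Module.End K V) := LinearMap.mulLeft K B - LinearMap.mulRight K B
  have hD : ∀ y, D y = B * y - y * B := fun y => rfl
  have hx1 : x ∈ D.eigenspace (2 * (a : K)) := by
    rw [Module.End.mem_eigenspace_iff, hD]
    exact h
  have hle : Submodule.span K (Set.range W.t ∪ {x | ∃ i j, i ≠ j ∧ x = W.e i j}) ≤
      ⨆ c : K, ⨆ _ : c ≠ 2 * (a : K), D.eigenspace c := by
    rw [Submodule.span_le]
    rintro y (⟨l, rfl⟩ | ⟨i, j, hij, rfl⟩)
    · have h0 : (0 : K) ≠ 2 * (a : K) := by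
        intro h0
        have h1 : (a : K) = 0 := (mul_eq_zero.mp h0.symm).resolve_left two_ne_zero
        exact ha (by exact_mod_cast h1)
      refine (le_iSup₂ (f := fun (c : K) (_ : c ≠ 2 * (a : K)) => D.eigenspace c) 0 h0) ?_
      rw [Module.End.mem_eigenspace_iff, hD, zero_smul, hB, Finset.sum_mul, Finset.mul_sum,
        ← Finset.sum_sub_distrib]
      refine Finset.sum_eq_zero fun k _ => ?_
      rw [smul_mul_assoc, mul_smul_comm, W.t_comm k l, sub_self]
    · have h0 : (2 : K) * (((β j - β i : ℤ)) : K) ≠ 2 * (a : K) := by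
        intro h0
        have h1 := mul_left_cancel₀ (two_ne_zero) h0
        exact hcon i j hij (by exact_mod_cast h1)
      refine (le_iSup₂ (f := fun (c : K) (_ : c ≠ 2 * (a : K)) => D.eigenspace c) _ h0) ?_
      rw [Module.End.mem_eigenspace_iff, hD, hB, Finset.sum_mul, Finset.mul_sum,
        ← Finset.sum_sub_distrib]
      have h1 : ∀ k, (((β k : ℤ) : K) • W.t k) * W.e i j - W.e i j * (((β k : ℤ) : K) • W.t k) =
          (((β k : ℤ) : K) * ((if k = j then (2 : K) else 0) - (if k = i then (2 : K) else 0))) •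
            W.e i j := by
        intro k
        rw [smul_mul_assoc, mul_smul_comm, ← smul_sub, W.t_e k i j hij, smul_smul]
      rw [Finset.sum_congr rfl fun k _ => h1 k, ← Finset.sum_smul]
      congr 1
      simp only [mul_sub, mul_ite, mul_zero, Finset.sum_sub_distrib, Finset.sum_ite_eq',
        Finset.mem_univ, if_true]
      push_cast
      ring
  have hx2 : x ∈ ⨆ c : K, ⨆ _ : c ≠ 2 * (a : K), D.eigenspace c := hle (W.span hx)
  have hdis := D.eigenspaces_iSupIndep (2 * (a : K))
  exact hx0 (Submodule.disjoint_def.mp hdis x hx1 hx2)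

theorem WD.mono_even [CharZero K] (W : WD L m) {n : ℕ} (hn : 0 < n) {c : Fin n → ℕ}
    (hc : ∀ i, 0 < c i) {p : Fin n → Module.End K V}
    (hW : ∀ i, ∃ j, (2 : K) • p i - 1 = W.t j ∨ (2 : K) • p i - 1 = - W.t j)
    {x : Module.End K V} (hx : x ∈ L) (hx0 : x ≠ 0) {ε : K} (hε : ε = 1 ∨ ε = -1)
    (h : nu c p * x - x * nu c p = (ε * ((∑ i, c i : ℕ) : K)) • x) (μ : K) :
    Even (Module.finrank K (Module.End.eigenspace (nu c p) μ)) := by
  classical
  have h3 := W.three
  have hC : 0 < ∑ i, c i := Finset.sum_pos (fun i _ => hc i) ⟨⟨0, hn⟩, Finset.mem_univ _⟩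
  choose j hj using hW
  have hs : ∀ i, ∃ s : ℤ, |s| = 1 ∧ (2 : K) • p i - 1 = (s : K) • W.t (j i) := by
    intro i
    rcases hj i with h1 | h1
    · exact ⟨1, by norm_num, by rw [h1]; simp⟩
    · exact ⟨-1, by norm_num, by rw [h1]; simp⟩
  choose s hs1 hs2 using hs
  set β : Fin (2 * m) → ℤ := fun l => ∑ i, if j i = l then s i * (c i : ℤ) else 0 with hβ
  have hβsum : ∑ l, |β l| ≤ ((∑ i, c i : ℕ) : ℤ) := by
    calc ∑ l, |β l| ≤ ∑ l, ∑ i, |if j i = l then s i * (c i : ℤ) else 0| :=
          Finset.sum_le_sum fun l _ => Finset.abs_sum_le_sum_abs _ _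
      _ = ∑ i, ∑ l, |if j i = l then s i * (c i : ℤ) else 0| := Finset.sum_comm
      _ = ∑ i, (c i : ℤ) := by
          refine Finset.sum_congr rfl fun i _ => ?_
          rw [Finset.sum_eq_single (j i)]
          · rw [if_pos rfl, abs_mul, hs1, one_mul, Nat.abs_cast]
          · intro k _ hk
            rw [if_neg (Ne.symm hk), abs_zero]
          · simp
      _ = ((∑ i, c i : ℕ) : ℤ) := by push_cast; rfl
      _ ≤ _ := le_refl _
  have hnu : (2 : K) • nu c p = ((∑ i, c i : ℕ) : K) • (1 : Module.End K V) +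
      ∑ l, ((β l : ℤ) : K) • W.t l := by
    have h1 : ∀ l, ((β l : ℤ) : K) • W.t l =
        ∑ i, if j i = l then ((s i : K) * (c i : K)) • W.t l else 0 := by
      intro l
      rw [hβ]
      push_cast
      rw [Finset.sum_smul]
      refine Finset.sum_congr rfl fun i _ => ?_
      split_ifs
      · rfl
      · rw [zero_smul]
    have h2 : ∑ l, ((β l : ℤ) : K) • W.t l = ∑ i, ((s i : K) * (c i : K)) • W.t (j i) := by
      rw [Finset.sum_congr rfl fun l _ => h1 l, Finset.sum_comm]
      refine Finset.sum_congr rfl fun i _ => ?_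
      rw [Finset.sum_ite_eq]
      simp
    rw [h2]
    unfold nu
    rw [Finset.smul_sum, Nat.cast_sum, Finset.sum_smul, ← Finset.sum_add_distrib]
    refine Finset.sum_congr rfl fun i _ => ?_
    have h4 : (2 : K) • p i = 1 + (s i : K) • W.t (j i) := by
      rw [← hs2 i]; abel
    rw [smul_comm, h4, smul_add, ← Nat.cast_smul_eq_nsmul K, ← Nat.cast_smul_eq_nsmul K, smul_smul,
      mul_comm (c i : K)]
  have hε' : ∃ e : ℤ, (e = 1 ∨ e = -1) ∧ ε = (e : K) := by
    rcases hε with h1 | h1
    · exact ⟨1, Or.inl rfl, by rw [h1]; simp⟩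
    · exact ⟨-1, Or.inr rfl, by rw [h1]; simp⟩
  obtain ⟨e, he, hεe⟩ := hε'
  have hcomm : (∑ l, ((β l : ℤ) : K) • W.t l) * x - x * (∑ l, ((β l : ℤ) : K) • W.t l) =
      (2 * ((e * ((∑ i, c i : ℕ) : ℤ) : ℤ) : K)) • x := by
    have h1 : ∑ l, ((β l : ℤ) : K) • W.t l = (2 : K) • nu c p -
        ((∑ i, c i : ℕ) : K) • (1 : Module.End K V) := by
      rw [hnu]; abel
    rw [h1, sub_mul, mul_sub, smul_mul_assoc, mul_smul_comm, smul_mul_assoc, mul_smul_comm, one_mul,
      mul_one, sub_sub_sub_cancel_right, ← smul_sub, h, smul_smul, hεe]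
    push_cast
    rfl
  have ha : e * ((∑ i, c i : ℕ) : ℤ) ≠ 0 := by
    have h1 : ((∑ i, c i : ℕ) : ℤ) ≠ 0 := by exact_mod_cast hC.ne'
    rcases he with h2 | h2 <;> rw [h2] <;> simpa using h1
  obtain ⟨i1, j1, hij1, hd1⟩ := exists_pair34 W β _ ha hx hx0 hcomm
  obtain ⟨i0, j0, hij, hd⟩ : ∃ i j, i ≠ j ∧ β j - β i = ((∑ i, c i : ℕ) : ℤ) := by
    rcases he with h2 | h2
    · exact ⟨i1, j1, hij1, by rw [hd1, h2, one_mul]⟩
    · exact ⟨j1, i1, hij1.symm, by rw [h2] at hd1; linarith⟩
  have hzero : ∀ l, l ≠ i0 → l ≠ j0 → β l = 0 := by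
    intro l hl1 hl2
    have h1 : |β i0| + |β j0| + |β l| ≤ ∑ l, |β l| := by
      have h2 : ∑ k ∈ ({i0, j0, l} : Finset (Fin (2 * m))), |β k| ≤ ∑ l, |β l| :=
        Finset.sum_le_sum_of_subset_of_nonneg (Finset.subset_univ _) (fun k _ _ => abs_nonneg _)
      rw [Finset.sum_insert, Finset.sum_insert, Finset.sum_singleton] at h2
      · linarith
      · rw [Finset.mem_singleton]; exact hl2.symm
      · rw [Finset.mem_insert, Finset.mem_singleton]
        push Not
        exact ⟨hij, hl1.symm⟩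
    have h2 : β j0 - β i0 ≤ |β i0| + |β j0| := by
      have := le_abs_self (β j0)
      have := neg_abs_le (β i0)
      linarith
    have h4 : |β l| ≤ 0 := by linarith
    exact abs_nonpos_iff.mp h4
  have hb : ∀ I, nu c p (W.b I) = ((2 : K)⁻¹ * (((∑ i, c i : ℕ) : K) +
      (((β i0 : ℤ) : K) * (if i0 ∈ I.1 then (-1 : K) else 1) +
        ((β j0 : ℤ) : K) * (if j0 ∈ I.1 then (-1 : K) else 1)))) • W.b I := by
    intro I
    have h1 : (2 : K) • nu c p (W.b I) = (((∑ i, c i : ℕ) : K) +
      (((β i0 : ℤ) : K) * (if i0 ∈ I.1 then (-1 : K) else 1) +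
        ((β j0 : ℤ) : K) * (if j0 ∈ I.1 then (-1 : K) else 1))) • W.b I := by
      have h2 := LinearMap.congr_fun hnu (W.b I)
      rw [LinearMap.smul_apply] at h2
      rw [h2, LinearMap.add_apply, LinearMap.smul_apply, Module.End.one_apply, add_smul]
      congr 1
      rw [LinearMap.sum_apply]
      have h4 : ∀ l, (((β l : ℤ) : K) • W.t l) (W.b I) =
          (((β l : ℤ) : K) * (if l ∈ I.1 then (-1 : K) else 1)) • W.b I := by
        intro l
        rw [LinearMap.smul_apply, W.t_b, smul_smul]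
      rw [Finset.sum_congr rfl fun l _ => h4 l, ← Finset.sum_smul]
      congr 1
      rw [← Finset.sum_subset (Finset.subset_univ ({i0, j0} : Finset (Fin (2 * m))))]
      · rw [Finset.sum_pair hij]
      · intro l _ hl
        rw [Finset.mem_insert, Finset.mem_singleton] at hl
        push Not at hl
        rw [hzero l hl.1 hl.2]
        simp
    rw [← smul_smul, ← h1, smul_smul, inv_mul_cancel₀ (two_ne_zero), one_smul]
  rw [eig_count W.b (nu c p) _ hb μ]
  refine even_filter34 W.odd h3 hij ?_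
  intro I I' hII hI
  have h1 : ∀ k ∈ ({i0, j0} : Finset (Fin (2 * m))), (k ∈ I.1 ↔ k ∈ I'.1) := by
    intro k hk
    have h2 : k ∈ I.1 ∩ {i0, j0} ↔ k ∈ I'.1 ∩ {i0, j0} := by rw [hII]
    rw [Finset.mem_inter, Finset.mem_inter] at h2
    exact ⟨fun h => (h2.mp ⟨h, hk⟩).1, fun h => (h2.mpr ⟨h, hk⟩).1⟩
  have h2 := h1 i0 (by simp)
  have h4 := h1 j0 (by simp)
  simp only [h2, h4] at hI
  exact hI

end PR
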