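import Pool.Agent.Helper27.PR.Fwd
import Pool.Agent.Helper27.PR.MonoDefs
import Pool.Agent.Helper27.PR.MonoA
import Pool.Agent.Helper27.PR.MonoW
import Pool.Agent.Helper27.PR.MonoS

/-!
A pair with a slope of odd multiplicity and a nonzero monodromy operator is full.
-/

set_option linter.unusedSectionVars false
set_option linter.unusedVariables false

open Module MTPairs MTP

namespace PR

variable {K : Type*} [Field K] {m : Type*} [Fintype m] [DecidableEq m]
  {Γ : Subgroup (Equiv.Perm (m → K))} {J : Matrix m m K}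
  {G : Subgroup (Matrix.GeneralLinearGroup m K)} {π : Matrix m m K}

private lemma inv_left_27 (g : Matrix.GeneralLinearGroup m K) :
    Matrix.toLin' ((g⁻¹ : Matrix.GeneralLinearGroup m K) : Matrix m m K) *
      Matrix.toLin' (g : Matrix m m K) = 1 := by
  have h := Matrix.toLin'_mul ((g⁻¹ : Matrix.GeneralLinearGroup m K) : Matrix m m K)
    (g : Matrix m m K)
  have e : ((g⁻¹ : Matrix.GeneralLinearGroup m K) : Matrix m m K) * (g : Matrix m m K) = 1 := by
    rw [← Units.val_mul, inv_mul_cancel, Units.val_one]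
  rw [e, Matrix.toLin'_one] at h
  exact h.symm

private lemma inv_right_27 (g : Matrix.GeneralLinearGroup m K) :
    Matrix.toLin' (g : Matrix m m K) *
      Matrix.toLin' ((g⁻¹ : Matrix.GeneralLinearGroup m K) : Matrix m m K) = 1 := by
  have h := Matrix.toLin'_mul (g : Matrix m m K)
    ((g⁻¹ : Matrix.GeneralLinearGroup m K) : Matrix m m K)
  have e : (g : Matrix m m K) * ((g⁻¹ : Matrix.GeneralLinearGroup m K) : Matrix m m K) = 1 := by
    rw [← Units.val_mul, mul_inv_cancel, Units.val_one]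
  rw [e, Matrix.toLin'_one] at h
  exact h.symm

private lemma conj_27 {P Q : Matrix m m K} {θ : Equiv.Perm (m → K)}
    {g : Matrix.GeneralLinearGroup m K} {τ : Module.End K (m → K) ≃+* Module.End K (m → K)}
    (hτ : ∀ (x : Module.End K (m → K)) (v : m → K), τ x (θ v) = θ (x v))
    (hP : ∀ v : m → K, P.mulVec ((g : Matrix m m K).mulVec (θ v)) =
      (g : Matrix m m K).mulVec (θ (Q.mulVec v))) :
    Matrix.toLin' P = Matrix.toLin' (g : Matrix m m K) * τ (Matrix.toLin' Q) *
      Matrix.toLin' ((g⁻¹ : Matrix.GeneralLinearGroup m K) : Matrix m m K) := by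
  apply LinearMap.ext
  intro w
  obtain ⟨v, hv⟩ : ∃ v, v = θ.symm
    (Matrix.toLin' ((g⁻¹ : Matrix.GeneralLinearGroup m K) : Matrix m m K) w) := ⟨_, rfl⟩
  have h1 : Matrix.toLin' ((g⁻¹ : Matrix.GeneralLinearGroup m K) : Matrix m m K) w = θ v := by
    rw [hv, Equiv.apply_symm_apply]
  have h2 : w = Matrix.toLin' (g : Matrix m m K) (θ v) := by
    rw [← h1, ← Module.End.mul_apply, inv_right_27, Module.End.one_apply]
  rw [Module.End.mul_apply, Module.End.mul_apply, h1, hτ]
  nth_rw 1 [h2]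
  have h3 := hP v
  rw [← Matrix.toLin'_apply, ← Matrix.toLin'_apply, ← Matrix.toLin'_apply,
    ← Matrix.toLin'_apply] at h3
  exact h3

theorem newt_of_mono (hG : IsGalPair Γ J G) (hπ : IsCochar G π) {Λ : Multiset ℚ}
    (h : HasMono Γ G π Λ) : ∃ (n : ℕ) (c : Fin n → ℕ) (p : Fin n → Module.End K (m → K)),
      Newt (GE G) (TE Γ) (Matrix.toLin' π) c p ∧ Λ.card = Fintype.card m ∧
      (∀ l : ℚ, finrank K (Module.End.eigenspace (nu c p) (((∑ i, c i : ℕ) * l : ℚ) : K)) =
        Λ.count l) ∧ ∃ x : Module.End K (m → K), x ≠ 0 ∧ 1 + x ∈ GE G ∧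
        ∃ ε : K, (ε = 1 ∨ ε = -1) ∧
          nu c p * x - x * nu c p = (ε * ((∑ i, c i : ℕ) : K)) • x := by
  obtain ⟨n, c, P, h1, h2, h3, h4, h5, u, hu, hu1, ε, hε, hrel⟩ := h
  have hnu : nu c (fun i => Matrix.toLin' (P i)) = Matrix.toLin' (∑ i, c i • P i) := by
    unfold nu
    rw [map_sum]
    exact Finset.sum_congr rfl fun i _ => (map_nsmul _ _ _).symm
  have e : ∀ A B : Matrix m m K, Matrix.toLin' A * Matrix.toLin' B = Matrix.toLin' (A * B) :=
    fun A B => (Matrix.toLin'_mul A B).symm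
  refine ⟨n, c, fun i => Matrix.toLin' (P i), ⟨mem_cc.2 hπ, fun i => (h1 i).1, ?_, ?_, ?_⟩, h4, ?_,
    Matrix.toLin' ((u : Matrix m m K) - 1), ?_, ?_, ε, hε, ?_⟩
  · intro i
    obtain ⟨θ, hθ, g, hg, hP⟩ := (h1 i).2
    obtain ⟨τ, hτT, hτ⟩ := exists_te hG hθ
    exact ⟨τ, hτT, _, ⟨g, hg, rfl⟩, _, ⟨g⁻¹, G.inv_mem hg, rfl⟩, inv_right_27 g, inv_left_27 g,
      conj_27 hτ hP⟩
  · intro i j
    change Matrix.toLin' (P i) * Matrix.toLin' (P j) = Matrix.toLin' (P j) * Matrix.toLin' (P i)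
    rw [e, e, h2]
  · rintro τ ⟨θ, hθ, hτ⟩
    obtain ⟨g, hg, hP⟩ := h3 θ hθ
    refine ⟨_, ⟨g, hg, rfl⟩, _, ⟨g⁻¹, G.inv_mem hg, rfl⟩, inv_right_27 g, inv_left_27 g, ?_⟩
    rw [hnu]
    exact (conj_27 hτ hP).symm
  · intro l
    rw [hnu, ← h5 l]
    rfl
  · intro h0
    apply hu1
    apply Units.ext
    have h6 := (map_eq_zero_iff _ (Matrix.toLin' (R := K) (m := m) (n := m)).injective).mp h0
    rw [sub_eq_zero] at h6
    exact h6
  · refine ⟨u, hu, ?_⟩
    rw [map_sub, Matrix.toLin'_one]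
    change 1 + (_ - (1 : Module.End K (m → K))) = _
    abel
  · rw [hnu, e, e, ← map_sub, hrel, map_smul]

/-- **The theorem for places of bad semistable reduction.** -/
theorem forward_bad [IsAlgClosed K] [CharZero K] {Λ : Multiset ℚ} (hG : IsGalPair Γ J G)
    (hirr : IsIrr G) (hπ : IsCochar G π) (hΛ : HasMono Γ G π Λ)
    (hodd : ∃ l, Odd (Λ.count l)) (g : Matrix.GeneralLinearGroup m K)
    (hg : ∃ c : K, (g : Matrix m m K).transpose * J * (g : Matrix m m K) = c • J) : g ∈ G := by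
  classical
  obtain ⟨l, hl⟩ := hodd
  obtain ⟨n, c, p, NN, hcard, hcount, x, hx0, hxG, ε, hε, hrel⟩ := newt_of_mono hG hπ hΛ
  have hpos : 0 < Λ.card := lt_of_lt_of_le hl.pos (Multiset.count_le_card _ _)
  have : Nonempty m := by
    rw [← Fintype.card_pos_iff, ← hcard]
    exact hpos
  have D := wstr hG hirr
  have hodd' : Odd (finrank K (Module.End.eigenspace (nu c p)
      ((((∑ i, c i : ℕ) * l : ℚ) : ℚ) : K))) := by rw [hcount]; exact hl
  obtain ⟨hsk, hS⟩ := D.tsmp NN hodd'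
  have hn : 0 < n := by
    rcases Nat.eq_zero_or_pos n with h0 | h0
    · exfalso
      subst h0
      have h1 : ∀ l : ℚ, Λ.count l = Λ.card := by
        intro l
        rw [← hcount l, hcard]
        have e1 : nu c p = 0 := by simp [nu]
        have e2 : (((∑ i, c i : ℕ) * l : ℚ) : K) = 0 := by simp
        rw [e1, e2]
        have e3 : Module.End.eigenspace (0 : Module.End K (m → K)) 0 = ⊤ := by
          rw [Module.End.eigenspace_zero]
          exact LinearMap.ker_zero
        rw [e3, finrank_top, Module.finrank_pi]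
      obtain ⟨x, hx⟩ := Multiset.card_pos_iff_exists_mem.mp hpos
      have h2 := Multiset.count_eq_card.mp (h1 0) x hx
      have h3 := Multiset.count_eq_card.mp (h1 1) x hx
      rw [← h2] at h3
      exact one_ne_zero h3
    · exact h0
  have hid : ∀ i, p i * p i = p i := fun i => (D.cc_of_sc NN.base (NN.conj i)).1
  have hxx : x * x = 0 := mono_sq hn NN.pos hid NN.comm hε hrel
  have hxL : x ∈ WL (Matrix.toBilin' J) (GE G) := D.unip_mem hxx hxG
  have hV := D.nt
  by_cases hs : Smp (WL (Matrix.toBilin' J) (GE G))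
  · rcases D.simple_case hs hsk hn NN with h | ⟨a, W, hW⟩ | ⟨q, hq, h5, b, hb⟩
    · exact full_of_sk hG.toIsMTPair hirr h g hg
    · exfalso
      exact (Nat.not_even_iff_odd.mpr hodd') (W.mono_even hn NN.pos hW hxL hx0 hε hrel _)
    · have h1 := spin_mono hn NN.pos b hb hx0 hε hrel hodd'
      exact full_of_sk hG.toIsMTPair hirr (fun z hz => D.ctx.eq_sp_of_odd D.alt hxL hxx
        (by rw [h1]; exact odd_one) hz) g hg
  · exact absurd (D.no_mono hS hs hsk hn NN hxL hε hrel) hx0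

end PR
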