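import Pool.Agent.Helper27.PR.SDefs
import Pool.Agent.Helper27.PR.RkT
import Pool.Agent.Helper27.PR.RkW
import Pool.Agent.Helper27.PR.RkS

/-!
Block SR. The multiplicity of the slope zero for all wedge polygons (not only odd multiplicities).
The proofs of `wedge_rank` (`RkW.lean`) contain most of it.

* `wedge_rankS`: first kind: the number of the `I` of order `n` contained in `Z = {i | x i = 0}` is
  `z.choose n`, `z < 2 n`. Second kind (`N` even): if the sum of the `|y i|` is less than one there is
  no `I` (number `0 = (0).choose n`, `z = 0`); if it is one, let `a ≥ 1` be the number of the negative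
  `y i` (and of the positive ones); the `I` are the sets of order `n` containing all negative `i`
  and no positive `i`: `(2 (n - a)).choose (n - a)`, `b = n - a < n`.
* `wedge_polyS`: `a = n - b` entries `- 1 / (2 a)`, `a` entries `1 / (2 a)`, the others zero.
-/

namespace PR

private theorem count_first_h83 {n : ℕ} (x : Fin (2 * n) → ℚ) (hx : ∀ i, 0 ≤ x i) :
    ((Finset.powersetCard n (Finset.univ : Finset (Fin (2 * n)))).val.map (fun I => ∑ i ∈ I, x i)).count 0 =
      ((Finset.univ.filter (fun i => x i = 0)).card).choose n := by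
  classical
  rw [Multiset.count_map, ← Finset.card_powersetCard, ← Finset.filter_val, Finset.card_val]
  congr 1
  ext I
  simp only [Finset.mem_filter, Finset.mem_powersetCard, Finset.subset_univ, true_and]
  constructor
  · rintro ⟨h1, h2⟩
    refine ⟨fun i hi => ?_, h1⟩
    rw [Finset.mem_filter]
    exact ⟨Finset.mem_univ i, (Finset.sum_eq_zero_iff_of_nonneg (fun j _ => hx j)).1 h2.symm i hi⟩
  · rintro ⟨h1, h2⟩
    refine ⟨h2, ?_⟩
    symm
    refine Finset.sum_eq_zero fun i hi => ?_
    exact (Finset.mem_filter.1 (h1 hi)).2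

private theorem card_map_h83 {n : ℕ} (f : Finset (Fin (2 * n)) → ℚ) :
    ((Finset.powersetCard n (Finset.univ : Finset (Fin (2 * n)))).val.map f).card = (2 * n).choose n := by
  rw [Multiset.card_map, Finset.card_val, Finset.card_powersetCard, Finset.card_univ, Fintype.card_fin]

private theorem second_h83 {n : ℕ} {x : Fin (2 * n) → ℚ} (hs : Symm x) (h1 : ∑ i, |x i| ≤ 1) :
    (∑ i, |x i| < 1 → ((Finset.powersetCard n (Finset.univ : Finset (Fin (2 * n)))).val.map (fun I => 1 / 2 + ∑ i ∈ I, x i)).count 0 = 0) ∧
    (∑ i, |x i| = 1 → ((Finset.powersetCard n (Finset.univ : Finset (Fin (2 * n)))).val.map (fun I => 1 / 2 + ∑ i ∈ I, x i)).count 0 =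
      (2 * (n - (Finset.univ.filter (fun i => x i < 0)).card)).choose (n - (Finset.univ.filter (fun i => x i < 0)).card)) := by
  classical
  obtain ⟨e, he⟩ := hs
  rw [Multiset.count_map, ← Finset.filter_val, Finset.card_val]
  set y : Fin (2 * n) → ℚ := fun i => if x i < 0 then x i else 0 with hy
  have hsum0 : ∑ i, x i = 0 := by
    have e1 : ∑ i, x (e i) = ∑ i, x i := Equiv.sum_comp e x
    simp only [he, Finset.sum_neg_distrib] at e1
    linarith
  have habs : ∑ i, |x i| = - 2 * ∑ i, y i := by
    have e1 : ∀ i, |x i| = x i - 2 * y i := by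
      intro i
      simp only [hy]
      split_ifs with h
      · rw [abs_of_neg h]; ring
      · rw [abs_of_nonneg (not_lt.1 h)]; ring
    have e2 : ∑ i, |x i| = ∑ i, x i - 2 * ∑ i, y i := by
      rw [Finset.mul_sum, ← Finset.sum_sub_distrib]
      exact Finset.sum_congr rfl fun i _ => e1 i
    rw [hsum0] at e2
    linarith
  have hy2 : -(1 / 2 : ℚ) ≤ ∑ i, y i := by linarith
  have hdiff : ∀ I : Finset (Fin (2 * n)), ∑ i ∈ I, x i - ∑ i, y i = ∑ i, ((if i ∈ I then x i else 0) - y i) := by
    intro I
    rw [Finset.sum_sub_distrib, Finset.sum_ite_mem, Finset.univ_inter]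
  have hnn : ∀ (I : Finset (Fin (2 * n))) (i : Fin (2 * n)), 0 ≤ (if i ∈ I then x i else 0) - y i := by
    intro I i
    simp only [hy]
    split_ifs with h2 h3 h3 <;> linarith
  have key : ∀ I : Finset (Fin (2 * n)), 0 = 1 / 2 + ∑ i ∈ I, x i ↔
      (∑ i, y i = -(1 / 2) ∧ (∀ i, x i < 0 → i ∈ I) ∧ ∀ i ∈ I, x i ≤ 0) := by
    intro I
    constructor
    · intro h
      have e1 : ∑ i, ((if i ∈ I then x i else 0) - y i) = 0 := by
        refine le_antisymm ?_ (Finset.sum_nonneg fun i _ => hnn I i)
        rw [← hdiff]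
        linarith
      have e2 := (Finset.sum_eq_zero_iff_of_nonneg (fun i _ => hnn I i)).1 e1
      refine ⟨?_, ?_, ?_⟩
      · rw [← hdiff] at e1
        linarith
      · intro i hi
        by_contra hI
        have := e2 i (Finset.mem_univ i)
        simp only [hy, if_neg hI, if_pos hi] at this
        linarith
      · intro i hi
        by_contra hI
        have := e2 i (Finset.mem_univ i)
        simp only [hy, if_pos hi] at this
        rw [if_neg (by linarith)] at this
        linarith
    · rintro ⟨h2, h3, h4⟩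
      have e1 : ∑ i, ((if i ∈ I then x i else 0) - y i) = 0 := by
        refine Finset.sum_eq_zero fun i _ => ?_
        simp only [hy]
        by_cases hi : x i < 0
        · rw [if_pos (h3 i hi), if_pos hi, sub_self]
        · rw [if_neg hi]
          by_cases hI : i ∈ I
          · rw [if_pos hI]
            have := h4 i hI
            linarith
          · rw [if_neg hI, sub_self]
      rw [← hdiff] at e1
      linarith
  refine ⟨fun hlt => ?_, fun heq => ?_⟩
  · have e1 : Finset.filter (fun I => 0 = 1 / 2 + ∑ i ∈ I, x i) (Finset.powersetCard n (Finset.univ : Finset (Fin (2 * n)))) = ∅ := by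
      rw [Finset.filter_eq_empty_iff]
      intro I _ hI
      have := ((key I).1 hI).1
      rw [habs, this] at hlt
      norm_num at hlt
    rw [e1, Finset.card_empty]
  have hS : ∑ i, y i = -(1 / 2) := by linarith
  set Ng := Finset.univ.filter (fun i => x i < 0) with hNg
  set Ps := Finset.univ.filter (fun i => 0 < x i) with hPs
  set Z := Finset.univ.filter (fun i => x i = 0) with hZ
  have c1 : Ng.card = Ps.card := by
    refine Finset.card_bij (fun i _ => e i) ?_ ?_ ?_
    · intro i hi
      rw [hPs, Finset.mem_filter, he]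
      have := (Finset.mem_filter.1 hi).2
      exact ⟨Finset.mem_univ _, by linarith⟩
    · intro i _ j _ h
      exact e.injective h
    · intro j hj
      refine ⟨e.symm j, ?_, e.apply_symm_apply j⟩
      rw [hNg, Finset.mem_filter]
      have h2 := (Finset.mem_filter.1 hj).2
      have h3 := he (e.symm j)
      rw [e.apply_symm_apply] at h3
      exact ⟨Finset.mem_univ _, by linarith⟩
  have c2 : Ng.card + Ps.card + Z.card = 2 * n := by
    have d1 : Disjoint Ng Ps := by
      rw [Finset.disjoint_left]
      intro i hi hj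
      have h2 := (Finset.mem_filter.1 hi).2
      have h3 := (Finset.mem_filter.1 hj).2
      linarith
    have d2 : Disjoint (Ng ∪ Ps) Z := by
      rw [Finset.disjoint_left]
      intro i hi hj
      have h3 := (Finset.mem_filter.1 hj).2
      rcases Finset.mem_union.1 hi with h | h
      · have h2 := (Finset.mem_filter.1 h).2
        linarith
      · have h2 := (Finset.mem_filter.1 h).2
        linarith
    have d3 : Ng ∪ Ps ∪ Z = Finset.univ := by
      rw [Finset.eq_univ_iff_forall]
      intro i
      rcases lt_trichotomy (x i) 0 with h | h | h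
      · exact Finset.mem_union_left _ (Finset.mem_union_left _ (Finset.mem_filter.2 ⟨Finset.mem_univ i, h⟩))
      · exact Finset.mem_union_right _ (Finset.mem_filter.2 ⟨Finset.mem_univ i, h⟩)
      · exact Finset.mem_union_left _ (Finset.mem_union_right _ (Finset.mem_filter.2 ⟨Finset.mem_univ i, h⟩))
    rw [← Finset.card_union_of_disjoint d1, ← Finset.card_union_of_disjoint d2, d3, Finset.card_univ, Fintype.card_fin]
  have hdZ : ∀ J : Finset (Fin (2 * n)), J ⊆ Z → Disjoint Ng J := by
    intro J hJ
    rw [Finset.disjoint_left]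
    intro i hi hj
    have h2 := (Finset.mem_filter.1 hi).2
    have h3 := (Finset.mem_filter.1 (hJ hj)).2
    linarith
  have himg : Finset.filter (fun I => 0 = 1 / 2 + ∑ i ∈ I, x i) (Finset.powersetCard n (Finset.univ : Finset (Fin (2 * n)))) =
      (Finset.powersetCard (n - Ng.card) Z).image (fun J => Ng ∪ J) := by
    ext I
    rw [Finset.mem_filter, Finset.mem_powersetCard, key, Finset.mem_image]
    constructor
    · rintro ⟨⟨-, h2⟩, -, h3, h4⟩
      have hsub : Ng ⊆ I := fun i hi => h3 i (Finset.mem_filter.1 hi).2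
      refine ⟨I \ Ng, ?_, Finset.union_sdiff_of_subset hsub⟩
      rw [Finset.mem_powersetCard]
      refine ⟨?_, ?_⟩
      · intro i hi
        rw [Finset.mem_sdiff] at hi
        rw [hZ, Finset.mem_filter]
        refine ⟨Finset.mem_univ i, le_antisymm (h4 i hi.1) ?_⟩
        by_contra hc
        exact hi.2 (Finset.mem_filter.2 ⟨Finset.mem_univ i, not_le.1 hc⟩)
      · rw [Finset.card_sdiff_of_subset hsub, h2]
    · rintro ⟨J, hJ, rfl⟩
      rw [Finset.mem_powersetCard] at hJ
      refine ⟨⟨Finset.subset_univ _, ?_⟩, hS, ?_, ?_⟩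
      · rw [Finset.card_union_of_disjoint (hdZ J hJ.1), hJ.2]
        omega
      · intro i hi
        exact Finset.mem_union_left _ (Finset.mem_filter.2 ⟨Finset.mem_univ i, hi⟩)
      · intro i hi
        rcases Finset.mem_union.1 hi with h | h
        · exact (Finset.mem_filter.1 h).2.le
        · exact (Finset.mem_filter.1 (hJ.1 h)).2.le
  have hcard : (Finset.filter (fun I => 0 = 1 / 2 + ∑ i ∈ I, x i) (Finset.powersetCard n (Finset.univ : Finset (Fin (2 * n))))).card =
      (Z.card).choose (n - Ng.card) := by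
    rw [himg, Finset.card_image_of_injOn, Finset.card_powersetCard]
    intro J hJ J' hJ' h
    have hJ1 := (Finset.mem_powersetCard.1 (Finset.mem_coe.1 hJ)).1
    have hJ1' := (Finset.mem_powersetCard.1 (Finset.mem_coe.1 hJ')).1
    have h2 : Ng ∪ J = Ng ∪ J' := h
    have e1 : (Ng ∪ J) \ Ng = J := Finset.union_sdiff_cancel_left (hdZ J hJ1)
    have e2 : (Ng ∪ J') \ Ng = J' := Finset.union_sdiff_cancel_left (hdZ J' hJ1')
    rw [← e1, ← e2, h2]
  have hZc : Z.card = 2 * (n - Ng.card) := by omega
  rw [hcard, hZc]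

theorem wedge_rankS {Λ : Multiset ℚ} {N : ℕ} (h : WedgePolygon Λ N) :
    ∃ n : ℕ, 3 ≤ n ∧ Odd n ∧ ((∃ z < 2 * n, Λ.count 0 = z.choose n) ∨
      (Even N ∧ ∃ b < n, Λ.count 0 = (2 * b).choose b)) ∧ Λ.card = (2 * n).choose n := by
  classical
  obtain ⟨n, x, h3, hn, h | h⟩ := h
  · obtain ⟨hx, hs, rfl⟩ := h
    refine ⟨n, h3, hn, Or.inl ⟨(Finset.univ.filter (fun i => x i = 0)).card, ?_, count_first_h83 x hx⟩, card_map_h83 _⟩
    have h1 : (Finset.univ.filter (fun i => x i = 0)).card ≤ 2 * n := by
      have := Finset.card_filter_le (Finset.univ : Finset (Fin (2 * n))) (fun i => x i = 0)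
      rwa [Finset.card_univ, Fintype.card_fin] at this
    refine lt_of_le_of_ne h1 fun h2 => ?_
    have h4 : Finset.univ.filter (fun i => x i = 0) = Finset.univ := by
      rw [← Finset.card_eq_iff_eq_univ, h2, Fintype.card_fin]
    have h5 : ∑ i, x i = 0 := by
      refine Finset.sum_eq_zero fun i _ => ?_
      have : i ∈ Finset.univ.filter (fun i => x i = 0) := by
        rw [h4]
        exact Finset.mem_univ i
      exact (Finset.mem_filter.1 this).2
    rw [h5] at hs
    exact absurd hs (by norm_num)
  · obtain ⟨hN, hs, hx, rfl⟩ := h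
    obtain ⟨g1, g2⟩ := second_h83 hs hx
    rcases lt_or_eq_of_le hx with hlt | heq
    · refine ⟨n, h3, hn, Or.inl ⟨0, by omega, ?_⟩, card_map_h83 _⟩
      rw [g1 hlt, Nat.choose_eq_zero_of_lt (by omega)]
    · refine ⟨n, h3, hn, Or.inr ⟨hN, _, ?_, g2 heq⟩, card_map_h83 _⟩
      have h6 : 0 < (Finset.univ.filter (fun i => x i < 0)).card := by
        rw [Finset.card_pos]
        by_contra h0
        rw [Finset.not_nonempty_iff_eq_empty, Finset.filter_eq_empty_iff] at h0
        have hnn : ∀ i, 0 ≤ x i := fun i => not_lt.1 (h0 (Finset.mem_univ i))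
        obtain ⟨e, he⟩ := hs
        have h7 : ∀ i, |x i| = 0 := by
          intro i
          have a1 := hnn i
          have a2 := hnn (e i)
          rw [he] at a2
          have a3 : x i = 0 := by linarith
          rw [a3, abs_zero]
        rw [Finset.sum_congr rfl (fun i _ => h7 i), Finset.sum_const_zero] at heq
        exact zero_ne_one heq
      omega

theorem wedge_polyS {n b N : ℕ} (h3 : 3 ≤ n) (hn : Odd n) (hN : Even N) (hb : b < n) :
    ∃ Λ : Multiset ℚ, WedgePolygon Λ N ∧ Λ.count 0 = (2 * b).choose b ∧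
      Λ.card = (2 * n).choose n := by
  classical
  obtain ⟨a, ha⟩ : ∃ a : ℕ, a = n - b := ⟨_, rfl⟩
  have ha0 : 0 < a := by omega
  have hq : (0 : ℚ) < 2 * a := by
    have : (0 : ℚ) < a := by exact_mod_cast ha0
    linarith
  have hc : (0 : ℚ) < 1 / (2 * a) := by positivity
  obtain ⟨x, hxdef⟩ : ∃ x : Fin (2 * n) → ℚ, ∀ j, x j = if j.val < a then -(1 / (2 * a : ℚ)) else
      if 2 * n - a ≤ j.val then 1 / (2 * a : ℚ) else 0 := ⟨_, fun _ => rfl⟩
  have hsym : Symm x := by
    refine ⟨Fin.revPerm, fun i => ?_⟩
    rw [hxdef, hxdef, Fin.revPerm_apply, Fin.val_rev]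
    have hi := i.2
    by_cases h1 : i.val < a
    · rw [if_neg (by omega), if_pos (by omega), if_pos h1, neg_neg]
    · by_cases h2 : 2 * n - a ≤ i.val
      · rw [if_pos (by omega), if_neg h1, if_pos h2]
      · rw [if_neg (by omega), if_neg (by omega), if_neg h1, if_neg h2, neg_zero]
  have c1 : (Finset.univ.filter (fun i : Fin (2 * n) => i.val < a)).card = a := by
    rw [Fin.card_filter_val_lt]
    omega
  have c2 : (Finset.univ.filter (fun i : Fin (2 * n) => ¬ (i.val < 2 * n - a))).card = a := by
    have h1 := Finset.card_filter_add_card_filter_not (s := (Finset.univ : Finset (Fin (2 * n))))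
      (fun i : Fin (2 * n) => (i : ℕ) < 2 * n - a)
    rw [Fin.card_filter_val_lt, Finset.card_univ, Fintype.card_fin] at h1
    omega
  have hsum : ∑ i, |x i| = 1 := by
    have e1 : ∀ i : Fin (2 * n), |x i| = (if i.val < a then 1 / (2 * a : ℚ) else 0) +
        (if ¬ (i.val < 2 * n - a) then 1 / (2 * a : ℚ) else 0) := by
      intro i
      rw [hxdef]
      by_cases h1 : i.val < a
      · rw [if_pos h1, if_pos h1, if_neg (by omega), abs_neg, abs_of_pos hc, add_zero]
      · rw [if_neg h1, if_neg h1, zero_add]
        by_cases h2 : 2 * n - a ≤ i.val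
        · rw [if_pos h2, if_pos (by omega), abs_of_pos hc]
        · rw [if_neg h2, if_neg (by omega), abs_zero]
    rw [Finset.sum_congr rfl (fun i _ => e1 i), Finset.sum_add_distrib, ← Finset.sum_filter, ← Finset.sum_filter,
      Finset.sum_const, Finset.sum_const, c1, c2, nsmul_eq_mul]
    field_simp
    norm_num
  have hNg : (Finset.univ.filter (fun i => x i < 0)).card = a := by
    rw [← c1]
    congr 1
    refine Finset.filter_congr fun j _ => ?_
    rw [hxdef]
    split_ifs with h1 h2
    · exact iff_of_true (by linarith) h1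
    · exact iff_of_false (by linarith) h1
    · exact iff_of_false (by linarith) h1
  refine ⟨_, ⟨n, x, h3, hn, Or.inr ⟨hN, hsym, hsum.le, rfl⟩⟩, ?_, card_map_h83 _⟩
  rw [(second_h83 hsym hsum.le).2 hsum, hNg, show n - a = b by omega]

end PR
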