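import Pool.Agent.Helper27.PR.SDefs
import Pool.Agent.Helper27.PR.RkS

/-!
Block SQ. The multiplicity of the slope zero for all spin polygons (not only odd multiplicities).

* `spin_rankS`: see `spin_rank` (`RkS.lean`). If `∑ |x i| < 1` there is no `I` (`0`). If the sum is
  one, `I` must contain the `i` with `x i > 0` and not those with `x i < 0`; the `z` zeros are free
  up to the parity of `I`: `2 ^ (z - 1)` sets for `z ≥ 1` (and `z ≤ q`, as `x` is not zero), at most
  one set for `z = 0`.
* `spin_polyS`: `f = 0`: `x = 0`. `f = 2 ^ j`: `j + 1` entries zero (including `x 0`), and the other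
  `q - j ≥ 1` entries equal to `1 / (q - j)`.
-/

namespace PR

private theorem card_sd63 {n : ℕ} (I P : Finset (Fin n)) : (symmDiff I P).card + 2 * (I ∩ P).card = I.card + P.card := by
  classical
  have h1 : symmDiff I P = (I \ P) ∪ (P \ I) := rfl
  have h2 : Disjoint (I \ P) (P \ I) := by
    rw [Finset.disjoint_left]
    intro a ha hb
    exact (Finset.mem_sdiff.1 hb).2 (Finset.mem_sdiff.1 ha).1
  rw [h1, Finset.card_union_of_disjoint h2]
  have h3 := Finset.card_sdiff_add_card_inter I P
  have h4 := Finset.card_sdiff_add_card_inter P I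
  rw [Finset.inter_comm P I] at h4
  omega

private theorem ysum63 {n : ℕ} {x : Fin n → ℚ} (hx : ∑ i, |x i| ≤ 1) {I : Finset (Fin n)}
    (hI : ∑ i, (if i ∈ I then - x i else x i) = -1) : ∀ i, (if i ∈ I then - x i else x i) = - |x i| := by
  have h1 : ∑ i, ((if i ∈ I then - x i else x i) + |x i|) ≤ 0 := by
    rw [Finset.sum_add_distrib, hI]
    linarith
  have h2 : ∀ i ∈ Finset.univ, 0 ≤ (if i ∈ I then - x i else x i) + |x i| := by
    intro i _
    split_ifs
    · have := le_abs_self (x i)
      linarith
    · have := neg_abs_le (x i)
      linarith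
  have h3 := (Finset.sum_eq_zero_iff_of_nonneg h2).1 (le_antisymm h1 (Finset.sum_nonneg h2))
  intro i
  have := h3 i (Finset.mem_univ i)
  linarith

private theorem mem_iff63 {n : ℕ} {x : Fin n → ℚ} (hx : ∑ i, |x i| ≤ 1) {I : Finset (Fin n)}
    (hI : ∑ i, (if i ∈ I then - x i else x i) = -1) {i : Fin n} (hi : x i ≠ 0) : i ∈ I ↔ 0 < x i := by
  have h1 := ysum63 hx hI i
  rcases lt_or_gt_of_ne hi with h | h
  · rw [abs_of_neg h, neg_neg] at h1
    constructor
    · intro hm
      rw [if_pos hm] at h1
      linarith
    · intro h2
      linarith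
  · rw [abs_of_pos h] at h1
    constructor
    · intro _
      exact h
    · intro _
      by_contra hm
      rw [if_neg hm] at h1
      linarith

private theorem even_card63 (q : ℕ) :
    (Finset.univ.filter (fun I : Finset (Fin (q + 1)) => Even I.card)).card = 2 ^ q := by
  classical
  have h1 : (Finset.univ.filter (fun I : Finset (Fin (q + 1)) => Even I.card)).card =
      (Finset.univ.filter (fun I : Finset (Fin (q + 1)) => ¬ Even I.card)).card := by
    refine Finset.card_bij' (fun I _ => symmDiff I {0}) (fun I _ => symmDiff I {0}) ?_ ?_ ?_ ?_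
    · intro I hI
      rw [Finset.mem_filter] at hI ⊢
      refine ⟨Finset.mem_univ _, ?_⟩
      by_cases h0 : (0 : Fin (q + 1)) ∈ I
      · have h2 : symmDiff I {0} = I.erase 0 := by
          ext j
          simp only [Finset.mem_symmDiff, Finset.mem_singleton, Finset.mem_erase]
          constructor
          · rintro (⟨h, h'⟩ | ⟨h, h'⟩)
            · exact ⟨h', h⟩
            · rw [h] at h'
              exact absurd h0 h'
          · rintro ⟨h, h'⟩
            exact Or.inl ⟨h', h⟩
        rw [h2, Finset.card_erase_of_mem h0]
        have h3 : 0 < I.card := Finset.card_pos.2 ⟨0, h0⟩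
        have h4 := hI.2
        rw [Nat.even_iff] at h4 ⊢
        omega
      · have h2 : symmDiff I {0} = insert 0 I := by
          ext j
          simp only [Finset.mem_symmDiff, Finset.mem_singleton, Finset.mem_insert]
          constructor
          · rintro (⟨h, h'⟩ | ⟨h, h'⟩)
            · exact Or.inr h
            · exact Or.inl h
          · rintro (h | h)
            · right
              rw [h]
              exact ⟨rfl, h0⟩
            · left
              refine ⟨h, fun h' => ?_⟩
              rw [h'] at h
              exact h0 h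
        rw [h2, Finset.card_insert_of_notMem h0]
        have h4 := hI.2
        rw [Nat.even_iff] at h4 ⊢
        omega
    · intro I hI
      rw [Finset.mem_filter] at hI ⊢
      refine ⟨Finset.mem_univ _, ?_⟩
      by_cases h0 : (0 : Fin (q + 1)) ∈ I
      · have h2 : symmDiff I {0} = I.erase 0 := by
          ext j
          simp only [Finset.mem_symmDiff, Finset.mem_singleton, Finset.mem_erase]
          constructor
          · rintro (⟨h, h'⟩ | ⟨h, h'⟩)
            · exact ⟨h', h⟩
            · rw [h] at h'
              exact absurd h0 h'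
          · rintro ⟨h, h'⟩
            exact Or.inl ⟨h', h⟩
        rw [h2, Finset.card_erase_of_mem h0]
        have h3 : 0 < I.card := Finset.card_pos.2 ⟨0, h0⟩
        have h4 := hI.2
        rw [Nat.even_iff] at h4 ⊢
        omega
      · have h2 : symmDiff I {0} = insert 0 I := by
          ext j
          simp only [Finset.mem_symmDiff, Finset.mem_singleton, Finset.mem_insert]
          constructor
          · rintro (⟨h, h'⟩ | ⟨h, h'⟩)
            · exact Or.inr h
            · exact Or.inl h
          · rintro (h | h)
            · right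
              rw [h]
              exact ⟨rfl, h0⟩
            · left
              refine ⟨h, fun h' => ?_⟩
              rw [h'] at h
              exact h0 h
        rw [h2, Finset.card_insert_of_notMem h0]
        have h4 := hI.2
        rw [Nat.even_iff] at h4 ⊢
        omega
    · intro I _
      exact symmDiff_symmDiff_cancel_right _ _
    · intro I _
      exact symmDiff_symmDiff_cancel_right _ _
  have h2 := Finset.card_filter_add_card_filter_not (s := (Finset.univ : Finset (Finset (Fin (q + 1)))))
    (fun I => Even I.card)
  rw [← h1, Finset.card_univ, Fintype.card_finset, Fintype.card_fin, pow_succ] at h2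
  omega

private theorem count63 {n : ℕ} (x : Fin n → ℚ) :
    ((Finset.univ.filter (fun I : Finset (Fin n) => Even I.card)).val.map
      (fun I => 1 / 2 + 1 / 2 * ∑ i, if i ∈ I then - x i else x i)).count 0 =
    (Finset.univ.filter (fun I : Finset (Fin n) => Even I.card ∧
      ∑ i, (if i ∈ I then - x i else x i) = -1)).card := by
  classical
  rw [Multiset.count_map, ← Finset.filter_val, Finset.card_val, Finset.filter_filter]
  congr 1
  apply Finset.filter_congr
  intro I _
  apply and_congr_right
  intro _
  constructor
  · intro h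
    linarith
  · intro h
    rw [h]
    norm_num

/-- membership in the set of the `I` with slope zero, from one member -/
private theorem mem_A63 {n : ℕ} {x : Fin n → ℚ} (hx : ∑ i, |x i| ≤ 1) {I₀ : Finset (Fin n)}
    (h1 : Even I₀.card) (h2 : ∑ i, (if i ∈ I₀ then - x i else x i) = -1) (I : Finset (Fin n)) :
    (Even I.card ∧ ∑ i, (if i ∈ I then - x i else x i) = -1) ↔
      (symmDiff I I₀ ⊆ Finset.univ.filter (fun i => x i = 0) ∧ Even (symmDiff I I₀).card) := by
  classical
  have h3 := card_sd63 I I₀
  constructor
  · rintro ⟨h4, h5⟩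
    refine ⟨?_, ?_⟩
    · intro i hi
      rw [Finset.mem_filter]
      refine ⟨Finset.mem_univ _, ?_⟩
      by_contra h
      have h6 := mem_iff63 hx h5 h
      have h7 := mem_iff63 hx h2 h
      rw [Finset.mem_symmDiff] at hi
      tauto
    · rw [Nat.even_iff] at h1 h4 ⊢
      omega
  · rintro ⟨h4, h5⟩
    refine ⟨?_, ?_⟩
    · rw [Nat.even_iff] at h1 h5 ⊢
      omega
    · rw [← h2]
      refine Finset.sum_congr rfl fun i _ => ?_
      by_cases hi : x i = 0
      · rw [hi]
        simp
      · have h6 : i ∉ symmDiff I I₀ := fun h => hi (Finset.mem_filter.1 (h4 h)).2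
        rw [Finset.mem_symmDiff] at h6
        have h7 : i ∈ I ↔ i ∈ I₀ := by tauto
        rw [if_congr h7 rfl rfl]

private theorem card_A63 {n : ℕ} {x : Fin n → ℚ} (hx : ∑ i, |x i| ≤ 1) {I₀ : Finset (Fin n)}
    (h1 : Even I₀.card) (h2 : ∑ i, (if i ∈ I₀ then - x i else x i) = -1) :
    (Finset.univ.filter (fun I : Finset (Fin n) => Even I.card ∧
      ∑ i, (if i ∈ I then - x i else x i) = -1)).card =
    ((Finset.univ.filter (fun i => x i = 0)).powerset.filter (fun W => Even W.card)).card := by
  classical
  refine Finset.card_bij' (fun I _ => symmDiff I I₀) (fun W _ => symmDiff W I₀) ?_ ?_ ?_ ?_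
  · intro I hI
    rw [Finset.mem_filter] at hI
    rw [Finset.mem_filter, Finset.mem_powerset]
    exact (mem_A63 hx h1 h2 I).1 hI.2
  · intro W hW
    rw [Finset.mem_filter, Finset.mem_powerset] at hW
    rw [Finset.mem_filter]
    refine ⟨Finset.mem_univ _, (mem_A63 hx h1 h2 _).2 ?_⟩
    rw [symmDiff_symmDiff_cancel_right]
    exact hW
  · intro I _
    exact symmDiff_symmDiff_cancel_right _ _
  · intro I _
    exact symmDiff_symmDiff_cancel_right _ _

/-- the number of the even subsets -/
private theorem even_sub63 {α : Type*} [DecidableEq α] {Z : Finset α} {z : ℕ} (hz : Z.card = z + 1) :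
    (Z.powerset.filter (fun W => Even W.card)).card = 2 ^ z := by
  have hne : Z.Nonempty := by
    rw [← Finset.card_pos]
    omega
  have h1 := Finset.sum_powerset_neg_one_pow_card_of_nonempty hne
  have h2 : ∀ W ∈ Z.powerset, ((-1 : ℤ) ^ W.card) = if Even W.card then 1 else -1 := by
    intro W _
    split_ifs with h
    · exact h.neg_one_pow
    · exact (Nat.not_even_iff_odd.1 h).neg_one_pow
  rw [Finset.sum_congr rfl h2, Finset.sum_ite, Finset.sum_const, Finset.sum_const, nsmul_eq_mul,
    nsmul_eq_mul] at h1
  have h3 := Finset.card_filter_add_card_filter_not (s := Z.powerset) (fun W => Even W.card)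
  rw [Finset.card_powerset, hz, pow_succ] at h3
  have h4 : (((Z.powerset.filter (fun W => Even W.card)).card : ℕ) : ℤ) =
      ((Z.powerset.filter (fun W => ¬ Even W.card)).card : ℕ) := by linarith
  have h5 : (Z.powerset.filter (fun W => Even W.card)).card =
      (Z.powerset.filter (fun W => ¬ Even W.card)).card := by exact_mod_cast h4
  omega

theorem spin_rankS {Λ : Multiset ℚ} (h : SpinPolygon Λ) :
    ∃ q : ℕ, 5 ≤ q ∧ (q % 4 = 1 ∨ q % 4 = 2) ∧ (Λ.count 0 = 0 ∨ ∃ j < q, Λ.count 0 = 2 ^ j) ∧
      Λ.card = 2 ^ q := by
  classical
  obtain ⟨q, x, h5, hq, hx, rfl⟩ := h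
  refine ⟨q, h5, ?_, ?_, ?_⟩
  · rcases hq with h | ⟨h, -⟩
    · exact Or.inl h
    · exact Or.inr h
  · rw [count63]
    rcases Finset.eq_empty_or_nonempty (Finset.univ.filter (fun I : Finset (Fin (q + 1)) => Even I.card ∧
      ∑ i, (if i ∈ I then - x i else x i) = -1)) with hA | ⟨I₀, hI₀⟩
    · left
      rw [hA, Finset.card_empty]
    · right
      rw [Finset.mem_filter] at hI₀
      obtain ⟨-, h1, h2⟩ := hI₀
      rw [card_A63 hx h1 h2]
      rcases Nat.eq_zero_or_pos (Finset.univ.filter (fun i => x i = 0)).card with hz | hz
      · refine ⟨0, by omega, ?_⟩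
        rw [Finset.card_eq_zero] at hz
        rw [hz, Finset.powerset_empty]
        rfl
      · refine ⟨(Finset.univ.filter (fun i => x i = 0)).card - 1, ?_, even_sub63 (by omega)⟩
        have h3 : (Finset.univ.filter (fun i => x i = 0)).card < q + 1 := by
          have h4 : (Finset.univ.filter (fun i => x i = 0)).card < (Finset.univ : Finset (Fin (q + 1))).card := by
            apply Finset.card_lt_card
            rw [Finset.ssubset_univ_iff]
            intro hall
            have h6 : ∀ i, x i = 0 := by
              intro i
              have h7 : i ∈ Finset.univ.filter (fun i => x i = 0) := by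
                rw [hall]
                exact Finset.mem_univ _
              exact (Finset.mem_filter.1 h7).2
            have h8 : ∑ i, (if i ∈ I₀ then - x i else x i) = 0 := by
              refine Finset.sum_eq_zero fun i _ => ?_
              rw [h6 i]
              simp
            rw [h8] at h2
            norm_num at h2
          rwa [Finset.card_univ, Fintype.card_fin] at h4
        omega
  · rw [Multiset.card_map, Finset.card_val, even_card63]

theorem spin_polyS {q f : ℕ} (h5 : 5 ≤ q) (hq : q % 4 = 1 ∨ q % 4 = 2)
    (hf : f = 0 ∨ ∃ j < q, f = 2 ^ j) :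
    ∃ Λ : Multiset ℚ, SpinPolygon Λ ∧ Λ.count 0 = f ∧ Λ.card = 2 ^ q := by
  classical
  rcases hf with rfl | ⟨j, hj, rfl⟩
  · refine ⟨_, ⟨q, fun _ => 0, h5, ?_, ?_, rfl⟩, ?_, ?_⟩
    · rcases hq with h | h
      · exact Or.inl h
      · exact Or.inr ⟨h, rfl⟩
    · simp
    · rw [count63, Finset.card_eq_zero, Finset.filter_eq_empty_iff]
      rintro I - ⟨-, h⟩
      simp at h
    · rw [Multiset.card_map, Finset.card_val, even_card63]
  · have hqj : (0 : ℚ) < ((q - j : ℕ) : ℚ) := by
      have : 0 < q - j := by omega
      exact_mod_cast this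
    set x : Fin (q + 1) → ℚ := fun i => if i.val ≤ j then 0 else 1 / ((q - j : ℕ) : ℚ) with hxdef
    have hx0 : x 0 = 0 := by rw [hxdef]; simp
    have hzero : ∀ i, x i = 0 ↔ i.val ≤ j := by
      intro i
      constructor
      · intro h
        by_contra hne
        rw [hxdef] at h
        simp only [if_neg hne] at h
        have : (0 : ℚ) < 1 / ((q - j : ℕ) : ℚ) := by positivity
        linarith
      · intro h
        rw [hxdef]
        simp only [if_pos h]
    have hZ : (Finset.univ.filter (fun i => x i = 0)).card = j + 1 := by
      have e : Finset.univ.filter (fun i => x i = 0) =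
          Finset.univ.filter (fun i : Fin (q + 1) => i.val < j + 1) := by
        apply Finset.filter_congr
        intro i _
        rw [hzero]
        omega
      rw [e, Fin.card_filter_val_lt]
      omega
    have hP : (Finset.univ.filter (fun i : Fin (q + 1) => ¬ i.val ≤ j)).card = q - j := by
      have h1 := Finset.card_filter_add_card_filter_not (s := (Finset.univ : Finset (Fin (q + 1))))
        (fun i => x i = 0)
      rw [hZ, Finset.card_univ, Fintype.card_fin] at h1
      have e : Finset.univ.filter (fun i : Fin (q + 1) => ¬ x i = 0) =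
          Finset.univ.filter (fun i : Fin (q + 1) => ¬ i.val ≤ j) := by
        apply Finset.filter_congr
        intro i _
        rw [hzero]
      rw [e] at h1
      omega
    have hsum : ∑ i, x i = 1 := by
      rw [hxdef]
      simp only
      rw [Finset.sum_ite, Finset.sum_const_zero, zero_add, Finset.sum_const, hP, nsmul_eq_mul]
      field_simp
    have hnn : ∀ i, 0 ≤ x i := by
      intro i
      rw [hxdef]
      simp only
      split_ifs
      · exact le_refl _
      · positivity
    have habs : ∑ i, |x i| = 1 := by
      rw [← hsum]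
      exact Finset.sum_congr rfl fun i _ => abs_of_nonneg (hnn i)
    -- a set of slope zero
    obtain ⟨I₀, h1, h2⟩ : ∃ I₀ : Finset (Fin (q + 1)), Even I₀.card ∧
        ∑ i, (if i ∈ I₀ then - x i else x i) = -1 := by
      have key : ∀ I : Finset (Fin (q + 1)), (∀ i, x i ≠ 0 → i ∈ I) →
          ∑ i, (if i ∈ I then - x i else x i) = -1 := by
        intro I hI
        rw [← hsum, ← Finset.sum_neg_distrib]
        refine Finset.sum_congr rfl fun i _ => ?_
        by_cases h : x i = 0
        · rw [h]
          simp
        · rw [if_pos (hI i h)]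
      rcases Nat.even_or_odd (q - j) with he | ho
      · refine ⟨Finset.univ.filter (fun i : Fin (q + 1) => ¬ i.val ≤ j), by rw [hP]; exact he, key _ ?_⟩
        intro i hi
        rw [Finset.mem_filter]
        exact ⟨Finset.mem_univ _, fun h => hi ((hzero i).2 h)⟩
      · refine ⟨insert 0 (Finset.univ.filter (fun i : Fin (q + 1) => ¬ i.val ≤ j)), ?_, key _ ?_⟩
        · rw [Finset.card_insert_of_notMem, hP]
          · exact ho.add_one
          · rw [Finset.mem_filter]
            intro h
            exact h.2 (by simp)
        · intro i hi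
          rw [Finset.mem_insert, Finset.mem_filter]
          exact Or.inr ⟨Finset.mem_univ _, fun h => hi ((hzero i).2 h)⟩
    refine ⟨_, ⟨q, x, h5, ?_, habs.le, rfl⟩, ?_, ?_⟩
    · rcases hq with h | h
      · exact Or.inl h
      · exact Or.inr ⟨h, hx0⟩
    · rw [count63, card_A63 habs.le h1 h2, even_sub63 hZ]
    · rw [Multiset.card_map, Finset.card_val, even_card63]

end PR
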