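import Pool.Agent.Helper27.PR.SDefs
import Pool.Agent.Helper27.PR.ShS

/-!
The examples of `ShS.lean` are strong pairs: the group is generated, as a Zariski closed group,
by the conjugates of the one cocharacter `π` under `Γ` and `G`.
-/

set_option linter.unusedSectionVars false
set_option linter.unusedVariables false

open Module MTPairs MTP TRSpin

namespace PR

section fam

variable {K : Type*} [Field K] {m : Type} [Fintype m] [DecidableEq m]

/-- A pair which is not full from a family of diagonal conjugates. -/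
theorem badS_of_diag14 [IsAlgClosed K] [CharZero K] [Nonempty m] {J : Matrix m m K}
    {G : Subgroup (Matrix.GeneralLinearGroup m K)} {π : Matrix m m K} (h1 : IsMTPair J G)
    (h2 : IsIrr G) (h3 : IsCochar G π)
    (hgen : ∀ H : Subgroup (Matrix.GeneralLinearGroup m K), ZariskiClosed H →
      (∀ g ∈ G, IsCochar H ((g : Matrix m m K) * π *
        ((g⁻¹ : Matrix.GeneralLinearGroup m K) : Matrix m m K))) → G ≤ H)
    (h4 : ∃ g : Matrix.GeneralLinearGroup m K,
      (∃ c : K, (g : Matrix m m K).transpose * J * (g : Matrix m m K) = c • J) ∧ g ∉ G)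
    {N : ℕ} (hN : 0 < N) {ι : Type*} [Fintype ι] (c : ι → ℕ) (P : ι → Matrix m m K)
    (hC : 0 < ∑ i, c i)
    (hc : ∀ i, c i ≠ 0 → ∃ g ∈ G, P i * (g : Matrix m m K) = (g : Matrix m m K) * π)
    (hcomm : ∀ i j, P i * P j = P j * P i) (lam : m → ℚ)
    (hdiag : ∑ i, c i • P i =
      Matrix.diagonal (fun p => ((((∑ i, c i : ℕ) : ℚ) * lam p : ℚ) : K))) :
    BadS K (Finset.univ.val.map lam) N := by
  classical
  obtain ⟨Γ, hΓ, hsc⟩ := exists_scalars14 K m hN
  have hcom : ∀ (A : Matrix m m K), ∀ θ ∈ Γ, ∀ v : m → K, A.mulVec (θ v) = θ (A.mulVec v) := by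
    intro A θ hθ v
    obtain ⟨ζ, hζ⟩ := hsc θ hθ
    rw [hζ, hζ, Matrix.mulVec_smul]
  refine ⟨m, inferInstance, inferInstance, Γ, J, G, π, ?_, h2, ?_, ?_, h4⟩
  · refine
      { skew := h1.skew, det := h1.det, sim := h1.sim, closed := h1.closed, coch := h3,
        semi := ?_, norm := ?_, gen := ?_ }
    · intro θ hθ
      obtain ⟨ζ, hζ⟩ := hsc θ hθ
      refine ⟨RingEquiv.refl K, fun v w => ?_, fun a v => ?_⟩
      · rw [hζ, hζ, hζ, smul_add]
      · rw [hζ, hζ, smul_comm]; rfl
    · intro θ hθ g hg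
      exact ⟨g, hg, fun v => hcom _ θ hθ v⟩
    · intro H hH hcH
      apply hgen H hH
      intro g hg
      apply hcH
      refine ⟨1, Subgroup.one_mem _, g, hg, fun v => ?_⟩
      rw [Equiv.Perm.one_apply, Equiv.Perm.one_apply, Matrix.mulVec_mulVec, Matrix.mulVec_mulVec,
        mul_assoc, MTP.GL_inv_mul, mul_one]
  · apply hasSlopes_of_family14 c P
    · intro i hi
      obtain ⟨g, hg, hgP⟩ := hc i hi
      refine ⟨1, Subgroup.one_mem _, g, hg, fun v => ?_⟩
      rw [Equiv.Perm.one_apply, Equiv.Perm.one_apply, Matrix.mulVec_mulVec, hgP,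
        Matrix.mulVec_mulVec]
    · exact hcomm
    · intro θ hθ
      refine ⟨1, Subgroup.one_mem _, fun v => ?_⟩
      rw [Units.val_one, Matrix.one_mulVec, Matrix.one_mulVec]
      exact hcom _ θ hθ v
    · rw [Multiset.card_map]
      rfl
    · intro l
      have hb : ∀ p, (∑ i, c i • P i).mulVecLin ((Pi.basisFun K m) p) =
          ((((∑ i, c i : ℕ) : ℚ) * lam p : ℚ) : K) • (Pi.basisFun K m) p := by
        intro p
        rw [Matrix.mulVecLin_apply, hdiag, Pi.basisFun_apply, Matrix.diagonal_mulVec_single,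
          mul_one]
        funext q
        by_cases hq : q = p
        · subst hq
          simp
        · simp [Pi.single_apply, hq]
      rw [eigen14 (Pi.basisFun K m) hb, finrank_span14]
      have hC' : (((∑ i, c i : ℕ) : ℚ)) ≠ 0 := by exact_mod_cast hC.ne'
      have e1 : (Finset.univ.filter (fun p => ((((∑ i, c i : ℕ) : ℚ) * lam p : ℚ) : K) =
          ((((∑ i, c i : ℕ) : ℚ) * l : ℚ) : K))) = Finset.univ.filter (fun p => l = lam p) := by
        apply Finset.filter_congr
        intro p _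
        rw [Rat.cast_inj, mul_right_inj' hC']
        exact eq_comm
      rw [e1, Multiset.count_map]
      rfl
  · refine ⟨⊥, bot_le, ?_, ?_⟩
    · rw [Subgroup.relIndex_bot_left, hΓ]
    · intro θ hθ
      rw [Subgroup.mem_bot] at hθ
      subst hθ
      exact ⟨1, Subgroup.one_mem _, fun v => by simp⟩

end fam

section
variable {K : Type*} [Field K] {k : ℕ}

theorem spin_badS14 [IsAlgClosed K] [CharZero K] {n : ℕ} (hk : n = k + 2)
    (hn : n % 4 = 1 ∨ n % 4 = 2) (hn5 : 5 ≤ n)
    {H : Subgroup (Matrix.GeneralLinearGroup (Sx (k + 2)) K)}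
    (h1 : EN (VS K (k + 2)) (x0 K k) (y0 K k) ≤ H) (h2 : H ≤ ED (VS K (k + 2)) (x0 K k) (y0 K k))
    (h3 : H ≤ Iso (JS K (k + 2))) (h4 : H ≤ GenG (OrbN H (x0 K k * y0 K k)))
    (x : Fin (k + 2 + 1) → ℚ) (hx : ∑ i, |x i| ≤ 1)
    (h5 : x 0 ≠ 0 → ∀ g, g = g0 K (k + 2) ∨ g = -g0 K (k + 2) →
      (2 : K)⁻¹ • (1 + g) ∈ OrbN H (x0 K k * y0 K k)) {N : ℕ} (hN : 0 < N) :
    BadS K (Finset.univ.val.map
      (fun p : Sx (k + 2) => 1 / 2 + 1 / 2 * ∑ j, (sg p j : ℚ) * x j)) N := by
  classical
  have hn' : (k + 2) % 4 = 1 ∨ (k + 2) % 4 = 2 := by rw [← hk]; exact hn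
  have hJt : (JS K (k + 2)).transpose = -JS K (k + 2) := JS_t hn'
  have hJd : (JS K (k + 2)).det ≠ 0 := JS_det hn'
  have hee : (-1 : K) ^ (k + 2) * (-1 : K) ^ (k + 2) = 1 := by
    rw [← mul_pow]; simp
  have hP0 : x0 K k * y0 K k ∈ LagSet (JS K (k + 2)) := hyp_lag hee JS_VS
    ⟨_, jw_mem 0 mem_cm, _, jw_mem 0 mem_am, x0_sq, y0_sq, x0_y0, rfl⟩
  have hlag : ∀ P ∈ OrbN H (x0 K k * y0 K k), P ∈ LagSet (JS K (k + 2)) :=
    fun P hP => orb_lag14 hP0 h3 hP
  obtain ⟨M, X, hM, hX⟩ := exists_int14 x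
  -- the remainder
  have hsum : ∑ j, (X j).natAbs ≤ M := by
    have e1 : ((∑ j, (X j).natAbs : ℕ) : ℚ) = M * ∑ j, |x j| := by
      rw [Finset.mul_sum, Nat.cast_sum]
      apply Finset.sum_congr rfl
      intro j _
      rw [Nat.cast_natAbs, Int.cast_abs, hX, abs_mul, abs_of_nonneg (Nat.cast_nonneg M)]
    have hM' : (0 : ℚ) ≤ M := Nat.cast_nonneg M
    have e2 : ((∑ j, (X j).natAbs : ℕ) : ℚ) ≤ M := by rw [e1]; nlinarith
    exact_mod_cast e2
  obtain ⟨R, hR⟩ := Nat.exists_eq_add_of_le hsum
  set P : Fin (k + 2 + 1) × Bool → Matrix (Sx (k + 2)) (Sx (k + 2)) K := fun jb =>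
    Matrix.diagonal (fun p => if sg p jb.1 = (if jb.2 then 1 else -1) then (1 : K) else 0)
    with hPdef
  set c : Fin (k + 2 + 1) × Bool → ℕ := fun jb =>
    2 * (if jb.2 then (X jb.1).toNat else (-X jb.1).toNat) + (if jb.1 = 1 then R else 0)
    with hcdef
  have hcsum : ∑ jb, c jb = 2 * M := by
    rw [Fintype.sum_prod_type]
    simp only [Fintype.sum_bool, hcdef, if_true, Bool.false_eq_true, if_false]
    have e1 : ∀ j : Fin (k + 2 + 1), 2 * (X j).toNat + (if j = 1 then R else 0) +
        (2 * (-X j).toNat + (if j = 1 then R else 0)) =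
        2 * (X j).natAbs + (if j = 1 then 2 * R else 0) := by
      intro j
      by_cases hj : j = 1
      · simp only [hj, if_true]; omega
      · simp only [hj, if_false]; omega
    rw [Finset.sum_congr rfl (fun j _ => e1 j), Finset.sum_add_distrib, ← Finset.mul_sum,
      Finset.sum_ite_eq' Finset.univ (1 : Fin (k + 2 + 1)) (fun _ => 2 * R),
      if_pos (Finset.mem_univ _), hR]
    ring
  refine badS_of_diag14 (J := JS K (k + 2)) (G := GenG (OrbN H (x0 K k * y0 K k)))
    (π := x0 K k * y0 K k) (isMTPair_gen hJt hJd (fun P hP => (hlag P hP).1)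
      (fun P hP => (hlag P hP).2)) ?_ (GenG_cochar hP0.1 (OrbN_self _ _))
    (fun H' hH' hc' => GenG_le hH' (by
      rintro _ ⟨h, hh, rfl⟩
      exact hc' h (h4 hh)))
    (not_full14 hk hn hn5 h2) hN c P (by rw [hcsum]; omega) ?_ ?_ _ ?_
  · -- irreducible
    intro U hU
    apply spin_irr
    intro P hP v hv
    have hP' : P ∈ OrbN H (x0 K k * y0 K k) := OrbN_mono14 h1 _ hP
    obtain ⟨g, hg, hgt⟩ := (GenG_cochar (hlag P hP').1 hP').2 2 two_ne_zero
    have e1 := hU g hg v hv
    have e2 : (g : Matrix _ _ K).mulVec v = P.mulVec v + v := by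
      rw [hgt]
      have : (2 : K) • P + (1 - P) = P + 1 := by rw [two_smul]; abel
      rw [this, Matrix.add_mulVec, Matrix.one_mulVec]
    rw [e2] at e1
    have := U.sub_mem e1 hv
    rwa [add_sub_cancel_right] at this
  · -- conjugates
    rintro ⟨j, b⟩ hj
    have hmem : P (j, b) ∈ OrbN H (x0 K k * y0 K k) := by
      revert hj
      refine Fin.cases ?_ (fun i => ?_) j
      · intro hj
        have hX0 : X 0 ≠ 0 := by
          intro h0
          apply hj
          have h10 : (0 : Fin (k + 2 + 1)) ≠ 1 := by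
            intro h
            have := congrArg Fin.val h
            simp at this
          simp only [hcdef, h0, h10, if_false, neg_zero, Int.toNat_zero]
          cases b <;> rfl
        have hx0 : x 0 ≠ 0 := by
          intro h0
          apply hX0
          have := hX 0
          rw [h0, mul_zero] at this
          exact_mod_cast this
        have h6 := h5 hx0 (if b then g0 K (k + 2) else -g0 K (k + 2)) (by
          cases b <;> simp)
        have e : P (0, b) = (2 : K)⁻¹ • (1 + (if b then g0 K (k + 2) else -g0 K (k + 2))) := by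
          simp only [hPdef]
          rw [diag_g14, ← Matrix.diagonal_one]
          ext p q
          by_cases hpq : p = q
          · subst hpq
            rcases sg_or p 0 with h | h <;> cases b <;>
              simp [h, Matrix.add_apply, Matrix.smul_apply] <;> norm_num
          · cases b <;> simp [Matrix.diagonal_apply_ne _ hpq, Matrix.add_apply,
              Matrix.smul_apply, Matrix.one_apply_ne hpq]
        rw [e]
        exact h6
      · intro _
        have e : P (i.succ, b) = loc i (if b then am K * cm K else cm K * am K) :=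
          (diag_loc14 i b).symm
        rw [e]
        cases b
        · exact (orb_loc14 h1 i).1
        · exact (orb_loc14 h1 i).2
    obtain ⟨h, hh, he⟩ := hmem
    refine ⟨h, h4 hh, ?_⟩
    rw [he, mul_assoc, GL_inv_mul, mul_one]
  · rintro jb jb'
    simp only [hPdef]
    rw [Matrix.diagonal_mul_diagonal, Matrix.diagonal_mul_diagonal]
    congr 1
    funext p
    exact mul_comm _ _
  · -- the diagonal form
    ext p q
    rw [Matrix.sum_apply]
    by_cases hpq : p = q
    · subst hpq
      rw [Matrix.diagonal_apply_eq]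
      have e1 : ∀ jb : Fin (k + 2 + 1) × Bool, (c jb • P jb) p p =
          (((c jb : ℤ) * (if sg p jb.1 = (if jb.2 then 1 else -1) then 1 else 0) : ℤ) : K) := by
        intro jb
        simp only [hPdef]
        rw [Matrix.smul_apply, Matrix.diagonal_apply_eq, nsmul_eq_mul]
        split_ifs <;> simp
      rw [Finset.sum_congr rfl (fun jb _ => e1 jb), ← Int.cast_sum]
      have e2 : ∑ jb : Fin (k + 2 + 1) × Bool, (c jb : ℤ) *
          (if sg p jb.1 = (if jb.2 then 1 else -1) then 1 else 0) =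
          M + ∑ j, sg p j * X j := by
        rw [Fintype.sum_prod_type]
        have e3 : ∀ j : Fin (k + 2 + 1), ∑ b : Bool, (c (j, b) : ℤ) *
            (if sg p j = (if b then 1 else -1) then 1 else 0) =
            ((X j).natAbs : ℤ) + sg p j * X j + (if j = 1 then (R : ℤ) else 0) := by
          intro j
          rw [Fintype.sum_bool]
          simp only [hcdef, if_true, Bool.false_eq_true, if_false]
          rw [aux14 (X j) _ (sg_or p j), Nat.cast_ite, Nat.cast_zero]
        rw [Finset.sum_congr rfl (fun j _ => e3 j), Finset.sum_add_distrib,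
          Finset.sum_add_distrib,
          Finset.sum_ite_eq' Finset.univ (1 : Fin (k + 2 + 1)) (fun _ => (R : ℤ)),
          if_pos (Finset.mem_univ _), hR]
        push_cast
        ring
      rw [e2, hcsum]
      have e4 : (((2 * M : ℕ) : ℚ) * (1 / 2 + 1 / 2 * ∑ j, (sg p j : ℚ) * x j)) =
          ((M + ∑ j, sg p j * X j : ℤ) : ℚ) := by
        push_cast
        have e5 : ∑ j, (sg p j : ℚ) * (X j : ℚ) = M * ∑ j, (sg p j : ℚ) * x j := by
          rw [Finset.mul_sum]
          apply Finset.sum_congr rfl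
          intro j _
          rw [hX]; ring
        rw [e5]
        ring
      rw [e4, Rat.cast_intCast]
    · rw [Matrix.diagonal_apply_ne _ hpq]
      apply Finset.sum_eq_zero
      intro jb _
      simp only [hPdef]
      rw [Matrix.smul_apply, Matrix.diagonal_apply_ne _ hpq, smul_zero]

end

/-- The spin examples. -/
theorem sharp_spinS {K : Type*} [Field K] [IsAlgClosed K] [CharZero K] {Λ : Multiset ℚ} {N : ℕ}
    (h : SpinPolygon Λ) (hN : 0 < N) : BadS K Λ N := by
  obtain ⟨q, x, hq5, hq, hx, rfl⟩ := h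
  rw [spin_multiset14]
  obtain ⟨k, rfl⟩ : ∃ k, q = k + 2 := ⟨q - 2, by omega⟩
  have hV : IsCliff (VS K (k + 2)) := VS_cliff
  rcases hq with hq | ⟨hq, hx0⟩
  · have hodd : Odd (k + 2) := by
      rw [Nat.odd_iff]; omega
    refine spin_badS14 rfl (Or.inl hq) hq5 (H := ED (VS K (k + 2)) (x0 K k) (y0 K k))
      (EN_le_ED _ _ _) le_rfl ?_ (ED_le_gen14 x0_sq y0_sq x0_y0) x hx
      (fun _ g hg => orb_g14 hg) hN
    refine ED_iso14 ?_ (jw_mem 0 mem_cm) (jw_mem 0 mem_am) x0_sq y0_sq
    intro v hv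
    rw [JS_VS v hv, hodd.neg_one_pow, neg_smul, one_smul]
  · have hee : (-1 : K) ^ (k + 2) * (-1 : K) ^ (k + 2) = 1 := by
      rw [← mul_pow]; simp
    refine spin_badS14 rfl (Or.inr hq) hq5 (H := EN (VS K (k + 2)) (x0 K k) (y0 K k))
      le_rfl (EN_le_ED _ _ _) (EN_iso14 hee JS_VS (jw_mem 0 mem_cm) (jw_mem 0 mem_am) x0_sq
        y0_sq) (EN_le_gen x0_sq y0_sq x0_y0) x hx (fun h => absurd hx0 h) hN

end PR
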