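import Pool.Agent.Helper27.PR.SDefs
import Pool.Agent.Helper27.PR.ShW
import Pool.Agent.Helper43.PR.ShStr

/-!
The examples of `ShW.lean` are strong pairs: the group is generated, as a Zariski closed group,
by the conjugates of the one cocharacter `π` under `Γ` and `G`.
-/

set_option linter.unusedSectionVars false
set_option linter.unusedVariables false

open Module MTPairs

namespace PR

theorem sharp_wedgeS {K : Type*} [Field K] [IsAlgClosed K] [CharZero K] {Λ : Multiset ℚ} {N : ℕ}
    (h : WedgePolygon Λ N) (hN : 0 < N) : BadS K Λ N := by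
  obtain ⟨n, x, h3, hn, ⟨hx, hx1, rfl⟩ | ⟨hev, hx, hx1, rfl⟩⟩ := h
  · exact wedge_oneS hn h3 x hx hx1 hN
  · exact wedge_twoS hn h3 x hx hx1 hN hev

end PR
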