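import Pool.Agent.Helper27.PR.ShDefs
import Pool.Agent.Helper93.SR.NormC

/-!
Strong pairs which are not full, with given slopes and index, and the exceptional triples for the
multiplicity of the slope zero.
-/

open Module MTPairs MTP

namespace PR

/-- There is a strong pair (the group is generated by the conjugates of `π` under `Γ` and `G`) with
the slopes `Λ` and the index `N` whose group does not contain all the similitudes. -/
def BadS (K : Type*) [Field K] (Λ : Multiset ℚ) (N : ℕ) : Prop :=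
  ∃ (m : Type) (_ : Fintype m) (_ : DecidableEq m) (Γ : Subgroup (Equiv.Perm (m → K)))
    (J : Matrix m m K) (G : Subgroup (Matrix.GeneralLinearGroup m K)) (π : Matrix m m K),
    IsStrongMTPair Γ J G π ∧ IsIrr G ∧ HasSlopes Γ G π Λ ∧ HasIndex Γ G π N ∧
    ∃ g : Matrix.GeneralLinearGroup m K,
      (∃ c : K, (g : Matrix m m K).transpose * J * (g : Matrix m m K) = c • J) ∧ g ∉ G

theorem strong_gal {K : Type*} [Field K] {m : Type*} [Fintype m] [DecidableEq m]
    {Γ : Subgroup (Equiv.Perm (m → K))} {J : Matrix m m K}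
    {G : Subgroup (Matrix.GeneralLinearGroup m K)} {π : Matrix m m K}
    (h : IsStrongMTPair Γ J G π) : IsGalPair Γ J G :=
  { toIsMTPair := isMTPair_of_strong h
    semi := h.semi
    norm := h.norm }

theorem BadS.bad {K : Type*} [Field K] {Λ : Multiset ℚ} {N : ℕ} (h : BadS K Λ N) :
    Bad K Λ N := by
  obtain ⟨m, i1, i2, Γ, J, G, π, h1, h2, h3, h4, h5⟩ := h
  exact ⟨m, i1, i2, Γ, J, G, π, strong_gal h1, h2, h1.coch, h3, h4, h5⟩

/-- The exceptional triples (multiplicity of the slope zero, dimension, index). -/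
def RankExcS (f D N : ℕ) : Prop :=
  (∃ k d r : ℕ, 3 ≤ k ∧ Odd k ∧ k ∣ N ∧ Even d ∧ 0 < d ∧ 2 * r ≤ d ∧ f = r ^ k ∧ D = d ^ k) ∨
  (∃ n : ℕ, 3 ≤ n ∧ Odd n ∧ ((∃ z < 2 * n, f = z.choose n) ∨
    (Even N ∧ ∃ b < n, f = (2 * b).choose b)) ∧ D = (2 * n).choose n) ∨
  (∃ q : ℕ, 5 ≤ q ∧ (q % 4 = 1 ∨ q % 4 = 2) ∧ (f = 0 ∨ ∃ j < q, f = 2 ^ j) ∧ D = 2 ^ q)

end PR
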