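import Pool.Agent.Helper27.PR.StrW
import Pool.Agent.Helper27.PR.SDefs
import Pool.Agent.Helper27.PR.IdM
import Pool.Agent.Helper27.PR.WPow

/-!
Block SA. A strong pair has no proper nonzero ideal stable under the symmetries.

Write `ω = toBilin' J`, `L = WL ω (GE G)`, `T = TE Γ`, `p0 = toLin' π`, `D = wstr ..` (`WStr`,
`StrW.lean`; `strong_gal`).
(1) Let `X` be a set of endomorphisms of `K^m` such that every `p ∈ SC (GE G) T p0` commutes with
`X`. Then every element of `GE G` commutes with `X`: the group `H` of the `g` with `toLin' g`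
commuting with `X` is Zariski closed (linear equations), and for `IsConj Γ G π P` we have
`toLin' P ∈ SC (GE G) T p0` (as in the proof of `newt_of_slopes` in `Full.lean`), so `P` is an
idempotent (`cc_of_sc`, `mem_cc`) and `t P + (1 - P)` commutes with `X` (the invertible matrix is
the one of `IsCochar G P`, `isCochar` is given by `mem_cc` and `cc_of_sc`); so `G ≤ H` by the field
`gen` of `IsStrongMTPair`.
(2) `2 p0 - 1` is skew: otherwise `p0 = 0` or `p0 = 1` (`c2`), all `p ∈ SC (GE G) T p0` are `0` or `1`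
and commute with everything, so `G` is scalar by (1) (Schur or directly: a matrix commuting
with all matrices is a scalar), every subspace is stable, so by `IsIrr` the dimension is one, but
the form is alternating and nondegenerate and `K^m` is not zero.
(3) Let `I` be an ideal of `L` stable under `T`. By `IrrSymp.inv_dich`, `2 p0 - 1 ∈ I` or
`2 p0 - 1 ∈ orth L I`. In the first case all `2 p - 1`, `p ∈ SC`, are in `I` (`id_top`) and commute
with `orth L I` (`IrrSymp.orth_comm`), so `G` commutes with `orth L I` (1), in particular every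
`p ∈ CC (GE G)` does (`1 + (2 - 1) p ∈ GE G`), so `L = lieGen (WI)` commutes with `orth L I`, and
`orth L I = ⊥` (`IrrSymp.center`), `I = L` (`sup_orth`). In the second case the same for the ideal
`orth L I`, stable under `T` (see the end of the proof of `WStr.tsmp` in `StrB.lean`): `L = orth L I`
and `I = ⊥` (`inf_orth`).
-/

set_option linter.unusedSectionVars false
set_option linter.unusedVariables false

open Module MTPairs MTP

namespace PR

variable {K : Type*} [Field K] {m : Type*} [Fintype m] [DecidableEq m]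
  {Γ : Subgroup (Equiv.Perm (m → K))} {J : Matrix m m K}
  {G : Subgroup (Matrix.GeneralLinearGroup m K)} {π : Matrix m m K}

private lemma inv_left_99 (g : Matrix.GeneralLinearGroup m K) :
    Matrix.toLin' ((g⁻¹ : Matrix.GeneralLinearGroup m K) : Matrix m m K) *
      Matrix.toLin' (g : Matrix m m K) = 1 := by
  have h := Matrix.toLin'_mul ((g⁻¹ : Matrix.GeneralLinearGroup m K) : Matrix m m K)
    (g : Matrix m m K)
  have e : ((g⁻¹ : Matrix.GeneralLinearGroup m K) : Matrix m m K) * (g : Matrix m m K) = 1 := by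
    rw [← Units.val_mul, inv_mul_cancel, Units.val_one]
  rw [e, Matrix.toLin'_one] at h
  exact h.symm

private lemma inv_right_99 (g : Matrix.GeneralLinearGroup m K) :
    Matrix.toLin' (g : Matrix m m K) *
      Matrix.toLin' ((g⁻¹ : Matrix.GeneralLinearGroup m K) : Matrix m m K) = 1 := by
  have h := Matrix.toLin'_mul (g : Matrix m m K)
    ((g⁻¹ : Matrix.GeneralLinearGroup m K) : Matrix m m K)
  have e : (g : Matrix m m K) * ((g⁻¹ : Matrix.GeneralLinearGroup m K) : Matrix m m K) = 1 := by
    rw [← Units.val_mul, mul_inv_cancel, Units.val_one]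
  rw [e, Matrix.toLin'_one] at h
  exact h.symm

private lemma conj_99 {P Q : Matrix m m K} {θ : Equiv.Perm (m → K)}
    {g : Matrix.GeneralLinearGroup m K} {τ : Module.End K (m → K) ≃+* Module.End K (m → K)}
    (hτ : ∀ (x : Module.End K (m → K)) (v : m → K), τ x (θ v) = θ (x v))
    (hP : ∀ v : m → K, P.mulVec ((g : Matrix m m K).mulVec (θ v)) =
      (g : Matrix m m K).mulVec (θ (Q.mulVec v))) :
    Matrix.toLin' P = Matrix.toLin' (g : Matrix m m K) * τ (Matrix.toLin' Q) *
      Matrix.toLin' ((g⁻¹ : Matrix.GeneralLinearGroup m K) : Matrix m m K) := by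
  apply LinearMap.ext
  intro w
  obtain ⟨v, hv⟩ : ∃ v, v = θ.symm
    (Matrix.toLin' ((g⁻¹ : Matrix.GeneralLinearGroup m K) : Matrix m m K) w) := ⟨_, rfl⟩
  have h1 : Matrix.toLin' ((g⁻¹ : Matrix.GeneralLinearGroup m K) : Matrix m m K) w = θ v := by
    rw [hv, Equiv.apply_symm_apply]
  have h2 : w = Matrix.toLin' (g : Matrix m m K) (θ v) := by
    rw [← h1, ← Module.End.mul_apply, inv_right_99, Module.End.one_apply]
  rw [Module.End.mul_apply, Module.End.mul_apply, h1, hτ]
  nth_rw 1 [h2]
  have h3 := hP v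
  rw [← Matrix.toLin'_apply, ← Matrix.toLin'_apply, ← Matrix.toLin'_apply,
    ← Matrix.toLin'_apply] at h3
  exact h3

private theorem ge_mul_99 (g g' : Matrix.GeneralLinearGroup m K) :
    Matrix.toLin' (g : Matrix m m K) * Matrix.toLin' (g' : Matrix m m K) =
      Matrix.toLin' ((g * g' : Matrix.GeneralLinearGroup m K) : Matrix m m K) := by
  rw [Units.val_mul, Matrix.toLin'_mul]
  rfl

private theorem ge_one_99 : (1 : Module.End K (m → K)) =
    Matrix.toLin' ((1 : Matrix.GeneralLinearGroup m K) : Matrix m m K) := by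
  rw [Units.val_one, Matrix.toLin'_one]
  rfl

private theorem key_99 (P : Matrix m m K) (t : K) :
    Matrix.toLin' (t • P + (1 - P)) = (1 : Module.End K (m → K)) + (t - 1) • Matrix.toLin' P := by
  have e : t • P + (1 - P) = 1 + (t - 1) • P := by module
  rw [e, map_add, map_smul, Matrix.toLin'_one]
  rfl

/-- A subalgebra which contains the conjugates of the cocharacter contains the group. -/
private theorem genS_99 (hG : IsStrongMTPair Γ J G π)
    (D : WStr (Matrix.toBilin' J) (GE G) (TE Γ)) (M : Subalgebra K (Module.End K (m → K)))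
    (hM : ∀ p ∈ SC (GE G) (TE Γ) (Matrix.toLin' π), p ∈ M) : ∀ g ∈ GE G, g ∈ M := by
  rintro _ ⟨g, hg, rfl⟩
  let H : Subgroup (Matrix.GeneralLinearGroup m K) :=
    { carrier := {g | g ∈ G ∧ Matrix.toLin' (g : Matrix m m K) ∈ M}
      one_mem' := ⟨G.one_mem, by rw [← ge_one_99]; exact M.one_mem⟩
      mul_mem' := by
        rintro g g' ⟨hg, hgM⟩ ⟨hg', hgM'⟩
        refine ⟨G.mul_mem hg hg', ?_⟩
        rw [← ge_mul_99]; exact M.mul_mem hgM hgM'
      inv_mem' := by
        rintro g ⟨hg, hgM⟩
        refine ⟨G.inv_mem hg, ?_⟩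
        apply inv_mem_subalgebra (A := Module.End K (m → K)) M hgM
        rw [ge_mul_99, inv_mul_cancel, ge_one_99] }
  have hHclosed : ZariskiClosed H := by
    apply closed_of_linear G H hG.closed
      ((Subalgebra.toSubmodule M).comap (Matrix.toLin' (R := K) (m := m) (n := m)).toLinearMap)
    intro g
    rfl
  have hGH := hG.gen H hHclosed (by
    intro P hP
    obtain ⟨θ, hθ, a, ha, hP⟩ := hP
    obtain ⟨τ, hτT, hτ⟩ := exists_te (strong_gal hG) hθ
    have hsc : Matrix.toLin' P ∈ SC (GE G) (TE Γ) (Matrix.toLin' π) :=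
      ⟨τ, hτT, _, ⟨a, ha, rfl⟩, _, ⟨a⁻¹, G.inv_mem ha, rfl⟩, inv_right_99 a, inv_left_99 a,
        conj_99 hτ hP⟩
    have hcc := mem_cc.1 (D.cc_of_sc (mem_cc.2 hG.coch) hsc)
    refine ⟨hcc.1, fun t ht0 => ?_⟩
    obtain ⟨b, hb, hbt⟩ := hcc.2 t ht0
    refine ⟨b, ⟨hb, ?_⟩, hbt⟩
    rw [hbt, key_99]
    exact M.add_mem M.one_mem (M.smul_mem (hM _ hsc) _))
  exact (hGH hg).2

/-- The cocharacter is not central. -/
private theorem nc_99 [CharZero K] (hG : IsStrongMTPair Γ J G π)
    (D : WStr (Matrix.toBilin' J) (GE G) (TE Γ))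
    (h : Matrix.toLin' π = 0 ∨ Matrix.toLin' π = (1 : Module.End K (m → K))) : False := by
  have hM : ∀ p ∈ SC (GE G) (TE Γ) (Matrix.toLin' π),
      p ∈ (⊥ : Subalgebra K (Module.End K (m → K))) := by
    rintro p ⟨τ, hτ, g, hg, b, hb, hgb, hbg, rfl⟩
    rcases h with h | h
    · rw [h, map_zero, mul_zero, zero_mul]
      exact Subalgebra.zero_mem _
    · rw [h, map_one, mul_one, hgb]
      exact Subalgebra.one_mem _
  have hgen := genS_99 hG D ⊥ hM
  have := D.nt
  obtain ⟨v, hv⟩ := exists_ne (0 : m → K)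
  have hU : Submodule.span K {v} = ⊥ ∨ Submodule.span K {v} = ⊤ := by
    apply D.irr
    intro g hg w hw
    obtain ⟨c, hc⟩ := Algebra.mem_bot.1 (hgen g hg)
    rw [← hc, Module.algebraMap_end_apply]
    exact Submodule.smul_mem _ _ hw
  rcases hU with hU | hU
  · have h1 : v ∈ Submodule.span K {v} := Submodule.mem_span_singleton_self v
    rw [hU, Submodule.mem_bot] at h1
    exact hv h1
  · apply hv
    apply D.nd.1
    intro w
    have h1 : w ∈ Submodule.span K {v} := by rw [hU]; trivial
    obtain ⟨c, hc⟩ := Submodule.mem_span_singleton.1 h1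
    rw [← hc, map_smul, D.alt v, smul_zero]

theorem tsmp_strong [IsAlgClosed K] [CharZero K] [Nonempty m] (hG : IsStrongMTPair Γ J G π)
    (hirr : IsIrr G) : IsSk (Matrix.toBilin' J) ((2 : K) • Matrix.toLin' π - 1) ∧
      TSmp (WL (Matrix.toBilin' J) (GE G)) (TE Γ) := by
  have D := wstr (strong_gal hG) hirr
  have C := D.ctx
  have hbase : Matrix.toLin' π ∈ CC (GE G) := mem_cc.2 hG.coch
  have hsk : IsSk (Matrix.toBilin' J) ((2 : K) • Matrix.toLin' π - 1) := by
    rcases D.c2 hbase with h | h | h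
    · exact h
    · exact (nc_99 hG D (Or.inl h)).elim
    · exact (nc_99 hG D (Or.inr h)).elim
  refine ⟨hsk, ?_⟩
  have htop : ∀ I : Submodule K (Module.End K (m → K)), IsId (WL (Matrix.toBilin' J) (GE G)) I →
      (∀ τ ∈ TE Γ, ∀ x ∈ I, τ x ∈ I) → (2 : K) • Matrix.toLin' π - 1 ∈ I →
      WL (Matrix.toBilin' J) (GE G) ≤ I := by
    intro I hI hIT h0
    let A : Subalgebra K (Module.End K (m → K)) :=
      Subalgebra.centralizer K (orth (WL (Matrix.toBilin' J) (GE G)) I : Set (Module.End K (m → K)))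
    have h1 : ∀ p ∈ SC (GE G) (TE Γ) (Matrix.toLin' π), p ∈ A := by
      intro p hp
      rw [Subalgebra.mem_centralizer_iff]
      intro x hx
      have h2 := C.irr.orth_comm C.nd hI (D.id_top hI hIT h0 hp) hx
      rw [mul_sub, sub_mul, mul_one, one_mul, mul_smul_comm, smul_mul_assoc, sub_left_inj] at h2
      exact (smul_right_injective _ (two_ne_zero (α := K)) h2).symm
    have h2 := genS_99 hG D A h1
    have h3 : WL (Matrix.toBilin' J) (GE G) ≤ Subalgebra.toSubmodule A := by
      apply lieGen_le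
      · intro x hx y hy
        exact A.sub_mem (A.mul_mem hx hy) (A.mul_mem hy hx)
      · rintro s ⟨p, hp, -, rfl⟩
        have h4 := h2 _ (hp.2 2 two_ne_zero)
        have h5 : p ∈ A := by
          have h6 := A.sub_mem h4 A.one_mem
          have e : (1 : Module.End K (m → K)) + ((2 : K) - 1) • p - 1 = p := by
            rw [show (2 : K) - 1 = 1 by norm_num, one_smul, add_sub_cancel_left]
          rwa [e] at h6
        exact A.sub_mem (A.smul_mem h5 _) A.one_mem
    have h4 : orth (WL (Matrix.toBilin' J) (GE G)) I = ⊥ := by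
      rw [eq_bot_iff]
      intro x hx
      rw [Submodule.mem_bot]
      apply C.irr.center C.nd hx.1
      intro y hy
      exact (Subalgebra.mem_centralizer_iff K).1 (h3 hy) x hx
    intro z hz
    obtain ⟨a, ha, hb⟩ := C.irr.sup_orth C.nd hI hz
    rw [h4, Submodule.mem_bot, sub_eq_zero] at hb
    rw [hb]
    exact ha
  intro I hI hIT
  have hs : (2 : K) • Matrix.toLin' π - 1 ∈ WI (Matrix.toBilin' J) (GE G) := ⟨_, hbase, hsk, rfl⟩
  obtain ⟨hsL, hss⟩ := C.inv _ hs
  rcases C.irr.inv_dich C.nd hI hsL hss with h | h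
  · right
    exact le_antisymm hI.1 (htop I hI hIT h)
  · left
    have hN := orth_isId C.irr.br hI
    have hNT : ∀ τ ∈ TE Γ, ∀ x ∈ orth (WL (Matrix.toBilin' J) (GE G)) I,
        τ x ∈ orth (WL (Matrix.toBilin' J) (GE G)) I := by
      intro τ hτ x hx
      rw [C.irr.mem_orth_iff C.nd hI (D.lie_tw hτ hx.1)]
      intro y hy
      have h1 := hIT _ (D.tinv τ hτ) y hy
      have h2 := (C.irr.mem_orth_iff C.nd hI hx.1).mp hx _ h1
      have h3 := congrArg τ h2
      rwa [map_mul, map_mul, RingEquiv.apply_symm_apply] at h3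
    have h1 := htop _ hN hNT h
    rw [eq_bot_iff]
    intro x hx
    rw [Submodule.mem_bot]
    exact C.irr.inf_orth C.nd hI hx (h1 (hI.1 hx))

end PR
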