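import Pool.Agent.Helper27.PR.Crit
import Pool.Agent.Helper27.PR.MonoFwd
import Pool.Agent.Helper27.PR.StrS
import Pool.Agent.Helper27.PR.SRk
import Pool.Agent.Helper27.PR.SRs
import Pool.Agent.Helper27.PR.ShTS
import Pool.Agent.Helper27.PR.ShWS
import Pool.Agent.Helper27.PR.ShSS

/-!
The criterion for strong pairs.
-/

open MTPairs

namespace PR

theorem forward_strong {K : Type*} [Field K] [IsAlgClosed K] [CharZero K] {m : Type*} [Fintype m]
    [DecidableEq m] {Γ : Subgroup (Equiv.Perm (m → K))} {J : Matrix m m K}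
    {G : Subgroup (Matrix.GeneralLinearGroup m K)} {π : Matrix m m K} {Λ : Multiset ℚ} {N : ℕ}
    (hG : IsStrongMTPair Γ J G π) (hirr : IsIrr G) (hΛ : HasSlopes Γ G π Λ)
    (hN : HasIndex Γ G π N) (h0 : Λ ≠ 0) :
    Full J G ∨ TensorPolygon Λ N ∨ WedgePolygon Λ N ∨ SpinPolygon Λ := by
  have hpos : 0 < Λ.card := Multiset.card_pos.mpr h0
  have : Nonempty m := by
    obtain ⟨_, _, _, _, _, _, hh, _⟩ := hΛ
    rw [← Fintype.card_pos_iff, ← hh]
    exact hpos
  obtain ⟨hsk, hS⟩ := tsmp_strong hG hirr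
  exact forward_core (strong_gal hG) hirr hG.coch hΛ hN hpos hsk hS

variable {K : Type*} [Field K] [IsAlgClosed K] [CharZero K]

lemma badS_iff {Λ : Multiset ℚ} {N : ℕ} (h0 : Λ ≠ 0) (hN : 0 < N) :
    BadS K Λ N ↔ TensorPolygon Λ N ∨ WedgePolygon Λ N ∨ SpinPolygon Λ := by
  constructor
  · rintro ⟨m, _, _, Γ, J, G, π, h1, h2, h4, h5, g, hg, hgG⟩
    rcases forward_strong h1 h2 h4 h5 h0 with h | h
    · exact absurd (h g hg) hgG
    · exact h
  · rintro (h | h | h)
    · exact sharp_tensorS h h0 hN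
    · exact sharp_wedgeS h hN
    · exact sharp_spinS h hN

/-- **The criterion for the slopes of strong pairs.** -/
theorem criterionS (Λ : Multiset ℚ) (N : ℕ) (h0 : Λ ≠ 0) (hN : 0 < N) :
    (∀ (m : Type) [Fintype m] [DecidableEq m] (Γ : Subgroup (Equiv.Perm (m → K)))
      (J : Matrix m m K) (G : Subgroup (Matrix.GeneralLinearGroup m K)) (π : Matrix m m K),
      IsStrongMTPair Γ J G π → IsIrr G → HasSlopes Γ G π Λ → HasIndex Γ G π N →
      Full J G) ↔
    ¬ TensorPolygon Λ N ∧ ¬ WedgePolygon Λ N ∧ ¬ SpinPolygon Λ := by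
  rw [← not_or, ← not_or, ← badS_iff (K := K) h0 hN]
  constructor
  · rintro h ⟨m, i1, i2, Γ, J, G, π, h1, h2, h4, h5, g, hg, hgG⟩
    exact hgG (h m Γ J G π h1 h2 h4 h5 g hg)
  · intro h m _ _ Γ J G π h1 h2 h4 h5 g hg
    by_contra hgG
    exact h ⟨m, _, _, Γ, J, G, π, h1, h2, h4, h5, g, hg, hgG⟩

/-- **The criterion for the multiplicity of the slope zero.** -/
theorem rank_criterionS (f D N : ℕ) (hN : 0 < N) :
    (∀ (m : Type) [Fintype m] [DecidableEq m] (Γ : Subgroup (Equiv.Perm (m → K)))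
      (J : Matrix m m K) (G : Subgroup (Matrix.GeneralLinearGroup m K)) (π : Matrix m m K)
      (Λ : Multiset ℚ), Fintype.card m = D → Λ.count 0 = f →
      IsGalPair Γ J G → IsIrr G → IsCochar G π → IsStrongMTPair Γ J G π ∨ Odd f →
      HasSlopes Γ G π Λ → HasIndex Γ G π N → Full J G) ↔ ¬ RankExcS f D N := by
  constructor
  · intro h
    have key : ∀ Λ : Multiset ℚ, Λ.count 0 = f → Λ.card = D → ¬ BadS K Λ N := by
      rintro Λ h0 hD ⟨m, i1, i2, Γ, J, G, π, h1, h2, h4, h5, g, hg, hgG⟩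
      have hc : Fintype.card m = D := by
        obtain ⟨_, _, _, _, _, _, hh, _⟩ := h4
        rw [← hh, hD]
      exact hgG (h m Γ J G π Λ hc h0 (strong_gal h1) h2 h1.coch (Or.inl h1) h4 h5 g hg)
    have key2 : ∀ Λ : Multiset ℚ, Λ.count 0 = f → Λ.card = D → 0 < D →
        ¬ (TensorPolygon Λ N ∨ WedgePolygon Λ N ∨ SpinPolygon Λ) := by
      intro Λ h0 hD hD0
      rw [← badS_iff (K := K) (by
        rintro rfl
        rw [Multiset.card_zero] at hD
        omega) hN]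
      exact key Λ h0 hD
    rintro (⟨k, d, r, h3, hk, hkN, hd, hd0, hr, rfl, rfl⟩ | ⟨n, h3, hn, hf, rfl⟩ |
      ⟨q, h5, hq, hf, rfl⟩)
    · obtain ⟨Λ, hΛ, h0, hD⟩ := tensor_poly (N := N) h3 hk hkN hd hr
      exact key2 Λ h0 hD (by positivity) (Or.inl hΛ)
    · have hpos : 0 < (2 * n).choose n := Nat.choose_pos (by omega)
      rcases hf with ⟨z, hz, rfl⟩ | ⟨hNe, b, hb, rfl⟩
      · obtain ⟨Λ, hΛ, h0, hD⟩ := wedge_poly (N := N) h3 hn hz
        exact key2 Λ h0 hD hpos (Or.inr (Or.inl hΛ))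
      · obtain ⟨Λ, hΛ, h0, hD⟩ := wedge_polyS h3 hn hNe hb
        exact key2 Λ h0 hD hpos (Or.inr (Or.inl hΛ))
    · obtain ⟨Λ, hΛ, h0, hD⟩ := spin_polyS h5 hq hf
      exact key2 Λ h0 hD (by positivity) (Or.inr (Or.inr hΛ))
  · intro h m _ _ Γ J G π Λ hm h0 h1 h2 h3 hs h4 h5
    have hD : Λ.card = D := by
      obtain ⟨_, _, _, _, _, _, hh, _⟩ := h4
      rw [hh, hm]
    rcases isEmpty_or_nonempty m with he | hne
    · intro g _
      have : g = 1 := by
        apply Units.ext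
        exact Subsingleton.elim _ _
      rw [this]
      exact G.one_mem
    have hΛ0 : Λ ≠ 0 := by
      rintro rfl
      rw [Multiset.card_zero, ← hm] at hD
      exact Fintype.card_ne_zero hD.symm
    have hfull : Full J G ∨ TensorPolygon Λ N ∨ WedgePolygon Λ N ∨ SpinPolygon Λ := by
      rcases hs with hs | hs
      · exact forward_strong hs h2 h4 h5 hΛ0
      · exact forward h1 h2 h3 h4 h5 ⟨0, by rw [h0]; exact hs⟩
    rcases hfull with h' | h' | h' | h'
    · exact h'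
    · exfalso
      obtain ⟨k, d, r, e1, e2, e3, e4, e5, e6, e7⟩ := tensor_rank h'
      refine h (Or.inl ⟨k, d, r, e1, e2, e3, e4, ?_, e5, by rw [← h0, e6], by rw [← hD, e7]⟩)
      rcases Nat.eq_zero_or_pos d with hd | hd
      · exfalso
        rw [hd, zero_pow (by omega)] at e7
        exact hΛ0 (Multiset.card_eq_zero.mp e7)
      · exact hd
    · exfalso
      obtain ⟨n, e1, e2, e3, e4⟩ := wedge_rankS h'
      rw [h0] at e3
      exact h (Or.inr (Or.inl ⟨n, e1, e2, e3, by rw [← hD, e4]⟩))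
    · exfalso
      obtain ⟨q, e1, e2, e3, e4⟩ := spin_rankS h'
      rw [h0] at e3
      exact h (Or.inr (Or.inr ⟨q, e1, e2, e3, by rw [← hD, e4]⟩))

end PR
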