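import Pool.Agent.Helper27.PR.StrW
import Pool.Agent.Helper98.MT.GSplit

/-!
Block F. Consequences in matrix form.

* `full_of_sk`: `MTP.grpCore` and `GrpCore.gsp_of_LJ` for the one element family, as in the end of
  the proof of `MTP.isFull_of_core` (`Pool/Agent/Helper93/SR/Asm.lean`), with `MTP.goursat`.
* `newt_of_slopes`: `p i = toLin' (P i)`; `IsConj Γ G π (P i)` gives `p i = g (τ p0) g⁻¹`.
* `index_of`: `π (g θ v) = g θ (π v)` gives `g (τ p0) g⁻¹ = p0`.
-/

set_option linter.unusedSectionVars false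
set_option linter.unusedVariables false

open Module MTPairs MTP

namespace PR

variable {K : Type*} [Field K] {m : Type*} [Fintype m] [DecidableEq m]
  {Γ : Subgroup (Equiv.Perm (m → K))} {J : Matrix m m K}
  {G : Subgroup (Matrix.GeneralLinearGroup m K)} {π : Matrix m m K}

private lemma inv_left_45 (g : Matrix.GeneralLinearGroup m K) :
    Matrix.toLin' ((g⁻¹ : Matrix.GeneralLinearGroup m K) : Matrix m m K) *
      Matrix.toLin' (g : Matrix m m K) = 1 := by
  have h := Matrix.toLin'_mul ((g⁻¹ : Matrix.GeneralLinearGroup m K) : Matrix m m K)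
    (g : Matrix m m K)
  have e : ((g⁻¹ : Matrix.GeneralLinearGroup m K) : Matrix m m K) * (g : Matrix m m K) = 1 := by
    rw [← Units.val_mul, inv_mul_cancel, Units.val_one]
  rw [e, Matrix.toLin'_one] at h
  exact h.symm

private lemma inv_right_45 (g : Matrix.GeneralLinearGroup m K) :
    Matrix.toLin' (g : Matrix m m K) *
      Matrix.toLin' ((g⁻¹ : Matrix.GeneralLinearGroup m K) : Matrix m m K) = 1 := by
  have h := Matrix.toLin'_mul (g : Matrix m m K)
    ((g⁻¹ : Matrix.GeneralLinearGroup m K) : Matrix m m K)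
  have e : (g : Matrix m m K) * ((g⁻¹ : Matrix.GeneralLinearGroup m K) : Matrix m m K) = 1 := by
    rw [← Units.val_mul, mul_inv_cancel, Units.val_one]
  rw [e, Matrix.toLin'_one] at h
  exact h.symm

private lemma conj_45 {P Q : Matrix m m K} {θ : Equiv.Perm (m → K)}
    {g : Matrix.GeneralLinearGroup m K} {τ : Module.End K (m → K) ≃+* Module.End K (m → K)}
    (hτ : ∀ (x : Module.End K (m → K)) (v : m → K), τ x (θ v) = θ (x v))
    (hP : ∀ v : m → K, P.mulVec ((g : Matrix m m K).mulVec (θ v)) =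
      (g : Matrix m m K).mulVec (θ (Q.mulVec v))) :
    Matrix.toLin' P = Matrix.toLin' (g : Matrix m m K) * τ (Matrix.toLin' Q) *
      Matrix.toLin' ((g⁻¹ : Matrix.GeneralLinearGroup m K) : Matrix m m K) := by
  apply LinearMap.ext
  intro w
  obtain ⟨v, hv⟩ : ∃ v, v = θ.symm
    (Matrix.toLin' ((g⁻¹ : Matrix.GeneralLinearGroup m K) : Matrix m m K) w) := ⟨_, rfl⟩
  have h1 : Matrix.toLin' ((g⁻¹ : Matrix.GeneralLinearGroup m K) : Matrix m m K) w = θ v := by
    rw [hv, Equiv.apply_symm_apply]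
  have h2 : w = Matrix.toLin' (g : Matrix m m K) (θ v) := by
    rw [← h1, ← Module.End.mul_apply, inv_right_45, Module.End.one_apply]
  rw [Module.End.mul_apply, Module.End.mul_apply, h1, hτ]
  nth_rw 1 [h2]
  have h3 := hP v
  rw [← Matrix.toLin'_apply, ← Matrix.toLin'_apply, ← Matrix.toLin'_apply,
    ← Matrix.toLin'_apply] at h3
  exact h3

theorem full_of_sk [IsAlgClosed K] [CharZero K] [Nonempty m] (hG : IsMTPair J G)
    (hirr : IsIrr G)
    (h : ∀ z, IsSk (Matrix.toBilin' J) z → z ∈ WL (Matrix.toBilin' J) (GE G))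
    (g : Matrix.GeneralLinearGroup m K)
    (hg : ∃ c : K, (g : Matrix m m K).transpose * J * (g : Matrix m m K) = c • J) : g ∈ G := by
  obtain ⟨c, hc⟩ := hg
  have hirr' : Irr G := hirr
  let b := Module.finBasis K (∀ _ : Unit, Module.End K (m → K))
  have D := grpCore b hG hirr'
  have hfull : ∀ (j : Unit) (z : Module.End K (m → K)), IsSk (Matrix.toBilin' J) z →
      z ∈ GrpCore.LJ (fun _ : Unit => Matrix.toBilin' J) (GU G) j := by
    intro j z hz
    have hle : WL (Matrix.toBilin' J) (GE G) ≤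
        GrpCore.LJ (fun _ : Unit => Matrix.toBilin' J) (GU G) j := by
      apply lieGen_le
      · intro x hx y hy
        exact lieGen_comm hx hy
      · rintro s ⟨p, ⟨hp1, hp2⟩, hsk, rfl⟩
        apply subset_lieGen
        refine ⟨fun _ => (2 : K) • p - 1, ⟨fun _ => p, ⟨?_, ?_, fun _ => hsk⟩, rfl⟩, rfl⟩
        · funext _
          exact hp1
        · intro t ht
          obtain ⟨g', hg', hgt⟩ := hp2 t ht
          refine ⟨g', hg', ?_⟩
          funext _
          exact hgt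
    exact hle (h z hz)
  have hc0 : c ≠ 0 := by
    rintro rfl
    rw [zero_smul] at hc
    have h1 := congrArg Matrix.det hc
    rw [Matrix.det_mul, Matrix.det_mul, Matrix.det_transpose, Matrix.det_zero] at h1
    have hg : (g : Matrix m m K).det ≠ 0 :=
      ((Matrix.isUnit_iff_isUnit_det _).mp g.isUnit).ne_zero
    exact (mul_ne_zero (mul_ne_zero hg hG.det) hg) h1
  obtain ⟨g', hg', hga⟩ := D.gsp_of_LJ (fun L h1 h2 h3 h4 =>
    goursat (W := fun _ : Unit => (m → K)) (fun _ => inferInstance)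
      (fun _ => Matrix.toBilin' J) (fun j => D.nd j) (fun j => D.alt j) L h1 h2 h3 h4)
    hfull hc0 (g := fun _ => Matrix.toLin' (g : Matrix m m K))
    (fun j v w => toBilin'_sim hc v w)
  have : g = g' := by
    apply Units.ext
    apply Matrix.toLin'.injective
    exact congrFun hga ()
  rw [this]
  exact hg'

theorem newt_of_slopes (hG : IsGalPair Γ J G) (hπ : IsCochar G π) {Λ : Multiset ℚ}
    (h : HasSlopes Γ G π Λ) : ∃ (n : ℕ) (c : Fin n → ℕ) (p : Fin n → Module.End K (m → K)),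
      Newt (GE G) (TE Γ) (Matrix.toLin' π) c p ∧ Λ.card = Fintype.card m ∧
      ∀ l : ℚ, finrank K (Module.End.eigenspace (nu c p) (((∑ i, c i : ℕ) * l : ℚ) : K)) =
        Λ.count l := by
  obtain ⟨n, c, P, h1, h2, h3, h4, h5⟩ := h
  have hnu : nu c (fun i => Matrix.toLin' (P i)) = Matrix.toLin' (∑ i, c i • P i) := by
    unfold nu
    rw [map_sum]
    exact Finset.sum_congr rfl fun i _ => (map_nsmul _ _ _).symm
  refine ⟨n, c, fun i => Matrix.toLin' (P i), ⟨mem_cc.2 hπ, fun i => (h1 i).1, ?_, ?_, ?_⟩, h4, ?_⟩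
  · intro i
    obtain ⟨θ, hθ, g, hg, hP⟩ := (h1 i).2
    obtain ⟨τ, hτT, hτ⟩ := exists_te hG hθ
    exact ⟨τ, hτT, _, ⟨g, hg, rfl⟩, _, ⟨g⁻¹, G.inv_mem hg, rfl⟩, inv_right_45 g, inv_left_45 g,
      conj_45 hτ hP⟩
  · intro i j
    change Matrix.toLin' (P i) * Matrix.toLin' (P j) = Matrix.toLin' (P j) * Matrix.toLin' (P i)
    have e : ∀ A B : Matrix m m K, Matrix.toLin' A * Matrix.toLin' B = Matrix.toLin' (A * B) :=
      fun A B => (Matrix.toLin'_mul A B).symm
    rw [e, e, h2]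
  · rintro τ ⟨θ, hθ, hτ⟩
    obtain ⟨g, hg, hP⟩ := h3 θ hθ
    refine ⟨_, ⟨g, hg, rfl⟩, _, ⟨g⁻¹, G.inv_mem hg, rfl⟩, inv_right_45 g, inv_left_45 g, ?_⟩
    rw [hnu]
    exact (conj_45 hτ hP).symm
  · intro l
    rw [hnu, ← h5 l]
    rfl

theorem index_of (hG : IsGalPair Γ J G) {N : ℕ} (h : HasIndex Γ G π N) :
    ∃ Γ' ≤ Γ, Γ'.relIndex Γ = N ∧ ∀ θ ∈ Γ', ∀ τ : Module.End K (m → K) ≃+* Module.End K (m → K),
      (∀ (x : Module.End K (m → K)) (v : m → K), τ x (θ v) = θ (x v)) →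
      ∃ g ∈ GE G, ∃ h ∈ GE G, g * h = 1 ∧ h * g = 1 ∧
        g * τ (Matrix.toLin' π) * h = Matrix.toLin' π := by
  obtain ⟨Γ', hle, hN, h1⟩ := h
  refine ⟨Γ', hle, hN, fun θ hθ τ hτ => ?_⟩
  obtain ⟨g, hg, hP⟩ := h1 θ hθ
  exact ⟨_, ⟨g, hg, rfl⟩, _, ⟨g⁻¹, G.inv_mem hg, rfl⟩, inv_right_45 g, inv_left_45 g,
    (conj_45 hτ hP).symm⟩

end PR
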