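import Pool.Agent.Helper27.PR.StrA
import Pool.Agent.Helper27.PR.IdM

/-!
Block N. The number of minimal ideals divides the index of the stabiliser.

* `dvd_index`: the group `Γ` acts on the orbit of `x0`; the stabiliser `S` of `x0` in `Γ` has index
  `k` in `Γ` (orbit stabiliser theorem, e.g. for the action of the subgroup `Γ` on the subtype of the
  orbit, or directly: the map from `Γ ⧸ S` to the orbit is a bijection), `Γ' ≤ S ≤ Γ`, and
  `S.relIndex Γ` divides `Γ'.relIndex Γ` (`Subgroup.relIndex_dvd_of_le_left`).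
* `two_dvd_index`: `S2 = {a ∈ Γ | f a x0 = x0 or f a x0 = ι x0}` is a subgroup (`f a (ι x0) =
  ι (f a x0)`, `ι (ι x0) = x0`). The stabiliser `S` of `x0` has index two in `S2` (`a0 ∈ S2` is not
  in `S`, and `a0⁻¹ a ∈ S` for the other elements `a` of `S2` outside `S`), so
  `2 = S.relIndex S2` divides `S.relIndex Γ`, which divides `Γ'.relIndex Γ`.
* `orbit`: take the minimal ideal `I` which contains `2 p0 - 1` (from `Dec`: `Dec.find` is for
  square zero elements, the same proof works for `s * s = 1` with `IrrSymp.sq_dich`, `c = 1`; or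
  take any minimal ideal `J` of `L` not commuting with `s`). If `g * τ p0 * h = p0` then
  `2 p0 - 1` is in `τ I` (`τ I` is an ideal, stable under `G`, `id_conj`) and in `I`, so
  `τ I = I`. The images of `I` under `T` are minimal ideals and all minimal ideals occur
  (`trans_min`), so their number is `k` (`ncard_min`).
-/

set_option linter.unusedSectionVars false
set_option linter.unusedVariables false

open Module MTP

namespace PR

theorem dvd_index {A X : Type*} [Group A] {Γ Γ' : Subgroup A} (hle : Γ' ≤ Γ) (f : A → X → X)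
    (h1 : ∀ x, f 1 x = x) (hmul : ∀ a ∈ Γ, ∀ b ∈ Γ, ∀ x, f (a * b) x = f a (f b x)) (x0 : X)
    (hfix : ∀ a ∈ Γ', f a x0 = x0) {k : ℕ} (hk0 : k ≠ 0)
    (hk : {y | ∃ a ∈ Γ, y = f a x0}.ncard = k) : k ∣ Γ'.relIndex Γ := by
  let act : MulAction Γ X :=
    { smul := fun a x => f a x
      one_smul := fun x => h1 x
      mul_smul := fun a b x => hmul a a.2 b b.2 x }
  have e1 : MulAction.orbit Γ x0 = {y | ∃ a ∈ Γ, y = f a x0} := by
    ext y
    constructor
    · rintro ⟨a, rfl⟩
      exact ⟨a, a.2, rfl⟩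
    · rintro ⟨a, ha, rfl⟩
      exact ⟨⟨a, ha⟩, rfl⟩
  have e2 : (MulAction.stabilizer Γ x0).index = k := by
    rw [MulAction.index_stabilizer, e1, hk]
  rw [← e2]
  apply Subgroup.index_dvd_of_le
  intro a ha
  rw [MulAction.mem_stabilizer_iff]
  exact hfix a (Subgroup.mem_subgroupOf.mp ha)

theorem two_dvd_index {A X : Type*} [Group A] {Γ Γ' : Subgroup A} (hle : Γ' ≤ Γ) (f : A → X → X)
    (h1 : ∀ x, f 1 x = x) (hmul : ∀ a ∈ Γ, ∀ b ∈ Γ, ∀ x, f (a * b) x = f a (f b x)) (ι : X → X)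
    (hι : ∀ a ∈ Γ, ∀ x, f a (ι x) = ι (f a x)) (x0 : X) (hιι : ι (ι x0) = x0) (hne : ι x0 ≠ x0)
    (hfix : ∀ a ∈ Γ', f a x0 = x0) {a0 : A} (ha0 : a0 ∈ Γ) (h0 : f a0 x0 = ι x0) :
    2 ∣ Γ'.relIndex Γ := by
  have hinv : ∀ a ∈ Γ, ∀ x, f a⁻¹ (f a x) = x := by
    intro a ha x
    rw [← hmul _ (Γ.inv_mem ha) _ ha, inv_mul_cancel, h1]
  let S : Subgroup A :=
    { carrier := {a | a ∈ Γ ∧ f a x0 = x0}
      mul_mem' := by
        rintro a b ⟨ha, ha'⟩ ⟨hb, hb'⟩
        exact ⟨Γ.mul_mem ha hb, by rw [hmul a ha b hb, hb', ha']⟩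
      one_mem' := ⟨Γ.one_mem, h1 x0⟩
      inv_mem' := by
        rintro a ⟨ha, ha'⟩
        refine ⟨Γ.inv_mem ha, ?_⟩
        have := hinv a ha x0
        rwa [ha'] at this }
  let S2 : Subgroup A :=
    { carrier := {a | a ∈ Γ ∧ (f a x0 = x0 ∨ f a x0 = ι x0)}
      mul_mem' := by
        rintro a b ⟨ha, ha'⟩ ⟨hb, hb'⟩
        refine ⟨Γ.mul_mem ha hb, ?_⟩
        rw [hmul a ha b hb]
        rcases hb' with hb' | hb'
        · rw [hb']; exact ha'
        · rw [hb', hι a ha]
          rcases ha' with ha' | ha'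
          · right; rw [ha']
          · left; rw [ha', hιι]
      one_mem' := ⟨Γ.one_mem, Or.inl (h1 x0)⟩
      inv_mem' := by
        rintro a ⟨ha, ha'⟩
        refine ⟨Γ.inv_mem ha, ?_⟩
        have h2 := hinv a ha x0
        rcases ha' with ha' | ha'
        · left; rwa [ha'] at h2
        · right
          rw [ha', hι _ (Γ.inv_mem ha)] at h2
          have h3 : ι (ι (f a⁻¹ x0)) = f a⁻¹ x0 := by
            rw [← hι _ (Γ.inv_mem ha), ← hι _ (Γ.inv_mem ha), hιι]
          rw [← h3, h2] }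
  have k1 : S ≤ S2 := fun a ha => ⟨ha.1, Or.inl ha.2⟩
  have k2 : S2 ≤ Γ := fun a ha => ha.1
  have k3 : Γ' ≤ S := fun a ha => ⟨hle ha, hfix a ha⟩
  have e1 : {y | ∃ a ∈ S2, y = f a x0} = {x0, ι x0} := by
    ext y
    simp only [Set.mem_ofPred_eq, Set.mem_insert_iff, Set.mem_singleton_iff]
    constructor
    · rintro ⟨a, ⟨ha, ha'⟩, rfl⟩
      exact ha'
    · rintro (rfl | rfl)
      · exact ⟨1, S2.one_mem, (h1 _).symm⟩
      · exact ⟨a0, ⟨ha0, Or.inr h0⟩, h0.symm⟩
  have h2 : 2 ∣ S.relIndex S2 := by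
    apply dvd_index k1 f h1 (fun a ha b hb => hmul a (k2 ha) b (k2 hb)) x0 (fun a ha => ha.2)
      two_ne_zero
    rw [e1, Set.ncard_pair hne.symm]
  have h3 := Subgroup.relIndex_mul_relIndex S S2 Γ k1 k2
  have h4 : S.relIndex Γ ∣ Γ'.relIndex Γ := Subgroup.relIndex_dvd_of_le_left Γ k3
  exact (h2.trans (h3 ▸ dvd_mul_right _ _)).trans h4

variable {K : Type*} [Field K] {V : Type*} [AddCommGroup V] [Module K V] [FiniteDimensional K V]
variable {ω : LinearMap.BilinForm K V} {G : Set (Module.End K V)}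
  {T : Set (Module.End K V ≃+* Module.End K V)} {p0 : Module.End K V}

private lemma symm_smul52 {τ : Module.End K V ≃+* Module.End K V} {σ : K ≃+* K}
    (hσ : ∀ (c : K) (x : Module.End K V), τ (c • x) = σ c • τ x) (c : K) (x : Module.End K V) :
    τ.symm (c • x) = σ.symm c • τ.symm x := by
  apply τ.injective
  rw [hσ]; simp

private lemma imT_isId52 {L I : Submodule K (Module.End K V)} (hId : IsId L I)
    {τ : Module.End K V ≃+* Module.End K V} (hτ : Tw L τ) {σ : K ≃+* K}
    (hσ : ∀ (c : K) (x : Module.End K V), τ (c • x) = σ c • τ x) : IsId L (imT τ hσ I) := by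
  have hsL : ∀ y, τ.symm y ∈ L ↔ y ∈ L := by
    intro y
    rw [← hτ.mem, RingEquiv.apply_symm_apply]
  refine ⟨fun y hy => (hsL y).mp (hId.1 hy), ?_⟩
  intro x hx y hy
  rw [mem_imT, map_sub, map_mul, map_mul]
  exact hId.2 _ ((hsL x).mpr hx) _ hy

private lemma imT_min52 {L I : Submodule K (Module.End K V)} (hI : IsMin L I)
    {τ : Module.End K V ≃+* Module.End K V} (hτ : Tw L τ) {σ : K ≃+* K}
    (hσ : ∀ (c : K) (x : Module.End K V), τ (c • x) = σ c • τ x) : IsMin L (imT τ hσ I) := by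
  obtain ⟨hId, hne, hmin⟩ := hI
  refine ⟨imT_isId52 hId hτ hσ, ?_, ?_⟩
  · intro h
    apply hne
    rw [eq_bot_iff]
    intro x hx
    have h1 : τ x ∈ imT τ hσ I := by rw [mem_imT, RingEquiv.symm_apply_apply]; exact hx
    rw [h, Submodule.mem_bot] at h1
    rw [Submodule.mem_bot]
    exact (map_eq_zero_iff τ τ.injective).mp h1
  · intro J hJ hJid hJ0
    have e1 : imT τ.symm (σ := σ.symm) (symm_smul52 hσ) J = I := by
      apply hmin
      · intro x hx
        rw [mem_imT, RingEquiv.symm_symm] at hx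
        have := hJ hx
        rwa [mem_imT, RingEquiv.symm_apply_apply] at this
      · refine ⟨fun y hy => ?_, ?_⟩
        · rw [mem_imT, RingEquiv.symm_symm] at hy
          exact (hτ.mem y).mp (hJid.1 hy)
        · intro x hx y hy
          rw [mem_imT, RingEquiv.symm_symm, map_sub, map_mul, map_mul]
          rw [mem_imT, RingEquiv.symm_symm] at hy
          exact hJid.2 _ ((hτ.mem x).mpr hx) _ hy
      · intro h'
        apply hJ0
        rw [eq_bot_iff]
        intro x hx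
        have h1 : τ.symm x ∈ imT τ.symm (σ := σ.symm) (symm_smul52 hσ) J := by
          rw [mem_imT, RingEquiv.symm_symm, RingEquiv.apply_symm_apply]; exact hx
        rw [h', Submodule.mem_bot] at h1
        rw [Submodule.mem_bot]
        exact (map_eq_zero_iff τ.symm τ.symm.injective).mp h1
    apply le_antisymm hJ
    intro x hx
    rw [mem_imT, ← e1, mem_imT, RingEquiv.symm_symm, RingEquiv.apply_symm_apply] at hx
    exact hx

private lemma coe_imT52 {I : Submodule K (Module.End K V)}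
    {τ : Module.End K V ≃+* Module.End K V} {σ : K ≃+* K}
    (hσ : ∀ (c : K) (x : Module.End K V), τ (c • x) = σ c • τ x) :
    (imT τ hσ I : Set (Module.End K V)) = τ '' (I : Set (Module.End K V)) := by
  ext y
  constructor
  · intro hy
    exact ⟨τ.symm y, hy, RingEquiv.apply_symm_apply τ y⟩
  · rintro ⟨x, hx, rfl⟩
    change τ x ∈ imT τ hσ I
    rw [mem_imT, RingEquiv.symm_apply_apply]
    exact hx

private lemma find52 [IsAlgClosed K] [CharZero K] {L : Submodule K (Module.End K V)}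
    (hL : IrrSymp ω L) (hω : ω.Nondegenerate) {ρ d : ℕ}
    {ε : K} (hρ : finrank K V = ρ * d) (hV : Nontrivial V) {x : Module.End K V} {c : K}
    (hxx : x * x = c • 1) (hx0 : x ≠ 0) : ∀ (n : ℕ) (M : Submodule K (Module.End K V)),
    Dec ω L ρ ε n M → x ∈ M → ∃ I, QI ω L ρ ε I ∧ x ∈ I := by
  intro n
  induction n with
  | zero =>
    intro M hM hx
    change M = ⊥ at hM
    rw [hM, Submodule.mem_bot] at hx
    exact absurd hx hx0
  | succ n ih =>
    rintro M hMM hx
    obtain ⟨hMid, -⟩ := Dec.main hL hω hρ hV _ M hMM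
    obtain ⟨I, M', hI, hM', hinf, rfl⟩ := hMM
    obtain ⟨hM'id, -⟩ := Dec.main hL hω hρ hV _ M' hM'
    rcases hL.sq_dich hω hI.1 (hMid.1 hx) hxx with h | h
    · exact ⟨I, hI, h⟩
    · obtain ⟨i, hi, m, hm, hxe⟩ := Submodule.mem_sup.mp hx
      have h1 : i = 0 := by
        apply hL.inf_orth hω hI.1 hi
        have h2 := (orth L I).sub_mem h (hL.le_orth hω hI.1 hM'id hinf hm)
        rwa [← hxe, add_sub_cancel_right] at h2
      have h2 : x = m := by rw [← hxe, h1, zero_add]
      exact ih M' hM' (by rw [h2]; exact hm)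

theorem WStr.orbit [IsAlgClosed K] [CharZero K] (D : WStr ω G T) (hS : TSmp (WL ω G) T)
    (hp0 : p0 ∈ CC G) (hsk : IsSk ω ((2 : K) • p0 - 1)) {k d ρ : ℕ} {ε : K}
    (hρ : finrank K V = ρ * d) (hdec : Dec ω (WL ω G) ρ ε k (WL ω G)) :
    ∃ I : Submodule K (Module.End K V),
      (∀ τ ∈ T, ∀ g ∈ G, ∀ h ∈ G, g * h = 1 → h * g = 1 → g * τ p0 * h = p0 →
        τ '' (I : Set (Module.End K V)) = I) ∧
      {J : Set (Module.End K V) | ∃ τ ∈ T, J = τ '' (I : Set (Module.End K V))}.ncard = k := by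
  have hL : IrrSymp ω (WL ω G) := D.ctx.irr
  have hω := D.nd
  have hV := D.nt
  have hs : (2 : K) • p0 - 1 ∈ WL ω G := subset_lieGen _ ⟨p0, hp0, hsk, rfl⟩
  have hss : ((2 : K) • p0 - 1) * ((2 : K) • p0 - 1) = (1 : K) • 1 := by
    have h1 : p0 * p0 = p0 := hp0.1
    simp only [sub_mul, mul_sub, smul_mul_assoc, mul_smul_comm, h1, mul_one, one_mul]
    module
  have hs0 : (2 : K) • p0 - 1 ≠ 0 := by
    intro h
    rw [h, zero_mul, one_smul] at hss
    exact zero_ne_one hss
  obtain ⟨I, hQ, hsI⟩ := find52 hL hω hρ hV hss hs0 k _ hdec hs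
  have hmin : IsMin (WL ω G) I := ⟨hQ.1, hQ.2.1, hQ.2.2.1⟩
  refine ⟨I, ?_, ?_⟩
  · intro τ hτ g hg h hh hgh hhg he
    obtain ⟨σ, hσ⟩ := D.semi τ hτ
    have hm2 := imT_min52 hmin (D.isTw hτ) hσ
    have h1 : τ ((2 : K) • p0 - 1) ∈ imT τ hσ I := by
      rw [mem_imT, RingEquiv.symm_apply_apply]; exact hsI
    have h2 := D.id_conj hm2.1 hg hh hgh hhg h1
    have e : g * τ ((2 : K) • p0 - 1) * h = (2 : K) • p0 - 1 := by
      rw [map_sub, map_one, hσ, map_ofNat, mul_sub, sub_mul, mul_one, hgh, mul_smul_comm,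
        smul_mul_assoc, he]
    rw [e] at h2
    have hne : I ⊓ imT τ hσ I ≠ ⊥ := by
      intro h3
      apply hs0
      rw [← Submodule.mem_bot (R := K), ← h3]
      exact ⟨hsI, h2⟩
    have e1 : I ⊓ imT τ hσ I = I := hmin.2.2 _ inf_le_left (inf_isId hmin.1 hm2.1) hne
    have e2 : I ⊓ imT τ hσ I = imT τ hσ I :=
      hm2.2.2 _ inf_le_right (inf_isId hmin.1 hm2.1) hne
    rw [← coe_imT52 hσ, ← e2, e1]
  · have e : {J : Set (Module.End K V) | ∃ τ ∈ T, J = τ '' (I : Set (Module.End K V))} =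
        (fun I' : Submodule K (Module.End K V) => (I' : Set (Module.End K V))) ''
          {I' | IsMin (WL ω G) I'} := by
      ext J
      constructor
      · rintro ⟨τ, hτ, rfl⟩
        obtain ⟨σ, hσ⟩ := D.semi τ hτ
        exact ⟨imT τ hσ I, imT_min52 hmin (D.isTw hτ) hσ, coe_imT52 hσ⟩
      · rintro ⟨I', hI', rfl⟩
        obtain ⟨τ, hτ, h⟩ := trans_min hL hω (fun τ hτ => D.isTw hτ) D.tone D.tmul hS hmin hI'
        refine ⟨τ, hτ, ?_⟩
        ext y
        constructor
        · intro hy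
          refine ⟨τ.symm y, ?_, RingEquiv.apply_symm_apply τ y⟩
          apply (h _).mp
          rw [RingEquiv.apply_symm_apply]
          exact hy
        · rintro ⟨x, hx, rfl⟩
          exact (h x).mpr hx
    rw [e, Set.ncard_image_of_injective _ SetLike.coe_injective]
    exact ncard_min hL hω hρ hV hdec

end PR
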