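import Pool.Agent.Helper27.PR.GE
import Pool.Agent.Helper98.MT.GOne

/-!
Block W2. Unipotent elements of the group: field `uni` of `WStr`.

For `x, y` in the Lie algebra `WL` the commutator is in the Lie algebra `lieOf b` of `G`:
`x - c • 1 ∈ lieOf b` for some `c`, for every `x ∈ WL` (for the generators `2 p - 1` it is
`lieOf_cochar`, and `lieOf` is closed under sums, multiples and commutators: `lieOf_add`,
`lieOf_smul`, `lieOf_comm` of `Pool/Agent/Helper21/MT/Zar.lean`; see `MTP.lie_mod`,
`MTP.lie_comm_mem` in `Pool/Agent/Helper21/MT/Grp2.lean` and the same lemmas for `GrpCore` in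
`Pool/Agent/Helper98/MT/GCore*.lean`). Then `lieOf_exp` and the field `closed` of
`MTP.grpCore` (`Pool/Agent/Helper98/MT/GOne.lean`) show that `1 + c (x y - y x)` is in `G`. The
family is indexed by the type `Unit` there: `GU G` is `GE G` up to `fun _ : Unit => _`.
-/

set_option linter.unusedSectionVars false
set_option linter.unusedVariables false

open Module MTPairs MTP

namespace PR

variable {K : Type*} [Field K] {m : Type*} [Fintype m] [DecidableEq m]
  {Γ : Subgroup (Equiv.Perm (m → K))} {J : Matrix m m K}
  {G : Subgroup (Matrix.GeneralLinearGroup m K)} {π : Matrix m m K}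

/-- The constant family as an algebra homomorphism. -/
private def cst_23 (K : Type*) [Field K] (m : Type*) [Fintype m] [DecidableEq m] :
    Module.End K (m → K) →ₐ[K] (∀ _ : Unit, Module.End K (m → K)) :=
  AlgHom.pi (fun _ => AlgHom.id K _)

private lemma cst_apply_23 (x : Module.End K (m → K)) :
    cst_23 K m x = fun _ : Unit => x := rfl

private lemma mem_GU_23 {x : Module.End K (m → K)} : cst_23 K m x ∈ GU G ↔ x ∈ GE G := by
  constructor
  · rintro ⟨g, hg, h⟩
    exact ⟨g, hg, congrFun h ()⟩
  · rintro ⟨g, hg, h⟩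
    exact ⟨g, hg, by rw [cst_apply_23, h]⟩

private lemma wl_23 [IsAlgClosed K] [CharZero K] [Nonempty m] (hG : IsMTPair J G) {σ : Type*}
    [Fintype σ] (b : Basis σ K (∀ _ : Unit, Module.End K (m → K)))
    (D : GrpCore (W := fun _ : Unit => (m → K)) (fun _ => Matrix.toBilin' J) b (GU G))
    {x : Module.End K (m → K)} (hx : x ∈ WL (Matrix.toBilin' J) (GE G)) :
    ∃ c : K, cst_23 K m (x - c • 1) ∈ lieOf b (GU G) := by
  let M : Submodule K (Module.End K (m → K)) :=
    { carrier := {x | ∃ c : K, cst_23 K m (x - c • 1) ∈ lieOf b (GU G)}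
      add_mem' := by
        rintro x y ⟨c, hc⟩ ⟨d, hd⟩
        refine ⟨c + d, ?_⟩
        have e : x + y - (c + d) • (1 : Module.End K (m → K)) = (x - c • 1) + (y - d • 1) := by
          rw [add_smul]
          abel
        rw [e, map_add]
        exact lieOf_add hc hd
      zero_mem' := by
        refine ⟨0, ?_⟩
        rw [zero_smul, sub_zero, map_zero]
        exact lieOf_zero
      smul_mem' := by
        rintro a x ⟨c, hc⟩
        refine ⟨a * c, ?_⟩
        have e : a • x - (a * c) • (1 : Module.End K (m → K)) = a • (x - c • 1) := by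
          rw [smul_sub, smul_smul]
        rw [e, map_smul]
        exact lieOf_smul a hc }
  have hle : WL (Matrix.toBilin' J) (GE G) ≤ M := by
    apply lieGen_le
    · rintro x ⟨c, hc⟩ y ⟨d, hd⟩
      refine ⟨0, ?_⟩
      have h := lieOf_comm hc hd
      have e : x * y - y * x - (0 : K) • (1 : Module.End K (m → K)) =
          (x - c • 1) * (y - d • 1) - (y - d • 1) * (x - c • 1) := by
        simp only [sub_mul, mul_sub, smul_mul_assoc, mul_smul_comm, one_mul, mul_one]
        module
      rw [e, map_sub, map_mul, map_mul]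
      exact h
    · rintro s ⟨p, ⟨hp1, hp2⟩, -, rfl⟩
      refine ⟨-1, ?_⟩
      have e : (2 : K) • p - 1 - (-1 : K) • (1 : Module.End K (m → K)) = (2 : K) • p := by
        module
      rw [e, map_smul]
      apply lieOf_smul
      apply lieOf_cochar D.mul
      intro t ht
      have h := mem_GU_23.2 (hp2 t ht)
      rw [map_add, map_smul, map_one] at h
      exact h
  exact hle hx

theorem uni_c [IsAlgClosed K] [CharZero K] [Nonempty m] (hG : IsMTPair J G) (hirr : IsIrr G)
    {x y : Module.End K (m → K)} (hx : x ∈ WL (Matrix.toBilin' J) (GE G))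
    (hy : y ∈ WL (Matrix.toBilin' J) (GE G)) (h0 : (x * y - y * x) * (x * y - y * x) = 0)
    (c : K) : 1 + c • (x * y - y * x) ∈ GE G := by
  have hirr' : Irr G := hirr
  let b := Module.finBasis K (∀ _ : Unit, Module.End K (m → K))
  have D := grpCore b hG hirr'
  obtain ⟨s, hs⟩ := wl_23 hG b D hx
  obtain ⟨t, ht⟩ := wl_23 hG b D hy
  set z : Module.End K (m → K) := x * y - y * x with hz
  have hzl : cst_23 K m z ∈ lieOf b (GU G) := by
    have h := lieOf_comm hs ht
    have e : z = (x - s • 1) * (y - t • 1) - (y - t • 1) * (x - s • 1) := by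
      rw [hz]
      simp only [sub_mul, mul_sub, smul_mul_assoc, mul_smul_comm, one_mul, mul_one]
      module
    rw [e, map_sub, map_mul, map_mul]
    exact h
  have hzz : cst_23 K m z * cst_23 K m z = 0 := by
    rw [← map_mul, h0, map_zero]
  have hinv : cst_23 K m (1 + c • z) * cst_23 K m (1 - c • z) = 1 := by
    rw [← map_mul]
    have e : (1 + c • z) * (1 - c • z) = 1 := by
      have h1 : (c • z) * (c • z) = 0 := by
        rw [smul_mul_assoc, mul_smul_comm, h0, smul_zero, smul_zero]
      rw [mul_sub, mul_one, add_mul, one_mul, h1, add_zero]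
      abel
    rw [e, map_one]
  rw [← mem_GU_23]
  apply D.closed _ _ hinv
  intro p hp
  have h := lieOf_exp D.one hzl hzz c hp
  rw [map_add, map_smul, map_one]
  exact h

end PR
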