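import Pool.Agent.Helper27.PR.GenC
import Pool.Agent.Helper27.PR.Uni

/-!
Block W. From the matrix form to the abstract structure `WStr`.

Models: `MTP.grpCore` (`Pool/Agent/Helper98/MT/GOne.lean`) for the fields which do not involve `T`,
and `MTP.strU` (`Pool/Agent/Helper93/SR/Asm.lean`, for a summand of a strong pair) for the others.
* `semi`, `rk`, `tone`, `tmul`, `tinv`, `tgrp`: `τ x = θ ∘ x ∘ θ⁻¹`; `rk` because `θ` is a semilinear
  bijection of `K^m` which maps the range of `x` to the range of `τ x`.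
* `exists_te`: existence of `τ` for `θ ∈ Γ`.
* `genA`: the group of the `g ∈ G` with `toLin' g ∈ M` is Zariski closed
  (`MTP.closed_of_linear`) and contains the cocharacters (`mem_cc`).
* `genB`: `closed_normaliser` (`Pool/Agent/Helper93/SR/NormC.lean`).
* `genC`, `uni`: `gen_c`, `uni_c`.
-/

set_option linter.unusedSectionVars false
set_option linter.unusedVariables false

open Module MTPairs MTP

namespace PR

variable {K : Type*} [Field K] {m : Type*} [Fintype m] [DecidableEq m]
  {Γ : Subgroup (Equiv.Perm (m → K))} {J : Matrix m m K}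
  {G : Subgroup (Matrix.GeneralLinearGroup m K)} {π : Matrix m m K}

/-! ### Semilinear bijections -/

section te

variable {θ : Equiv.Perm (m → K)} {σ : K ≃+* K}

private theorem symm_smul57 (hσ : ∀ (c : K) (v : m → K), θ (c • v) = σ c • θ v) (c : K) (v : m → K) :
    θ.symm (c • v) = σ.symm c • θ.symm v := by
  rw [Equiv.symm_apply_eq, hσ, RingEquiv.apply_symm_apply, Equiv.apply_symm_apply]

private theorem symm_add57 (hadd : ∀ v w : m → K, θ (v + w) = θ v + θ w) (v w : m → K) :
    θ.symm (v + w) = θ.symm v + θ.symm w := by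
  rw [Equiv.symm_apply_eq, hadd, Equiv.apply_symm_apply, Equiv.apply_symm_apply]

/-- conjugation by a semilinear bijection -/
private def teE57 (hadd : ∀ v w : m → K, θ (v + w) = θ v + θ w)
    (hσ : ∀ (c : K) (v : m → K), θ (c • v) = σ c • θ v) :
    Module.End K (m → K) ≃+* Module.End K (m → K) where
  toFun := fun x =>
    { toFun := fun v => θ (x (θ.symm v))
      map_add' := by intro v w; rw [symm_add57 hadd, map_add, hadd]
      map_smul' := by
        intro c v
        rw [symm_smul57 hσ, map_smul, hσ, RingEquiv.apply_symm_apply]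
        rfl }
  invFun := fun x =>
    { toFun := fun v => θ.symm (x (θ v))
      map_add' := by intro v w; rw [hadd, map_add, symm_add57 hadd]
      map_smul' := by
        intro c v
        rw [hσ, map_smul, symm_smul57 hσ, RingEquiv.symm_apply_apply]
        rfl }
  left_inv := by
    intro x
    apply LinearMap.ext
    intro v
    change θ.symm (θ (x (θ.symm (θ v)))) = x v
    rw [Equiv.symm_apply_apply, Equiv.symm_apply_apply]
  right_inv := by
    intro x
    apply LinearMap.ext
    intro v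
    change θ (θ.symm (x (θ (θ.symm v)))) = x v
    rw [Equiv.apply_symm_apply, Equiv.apply_symm_apply]
  map_mul' := by
    intro x y
    apply LinearMap.ext
    intro v
    change θ (x (y (θ.symm v))) = θ (x (θ.symm (θ (y (θ.symm v)))))
    rw [Equiv.symm_apply_apply]
  map_add' := by
    intro x y
    apply LinearMap.ext
    intro v
    change θ (x (θ.symm v) + y (θ.symm v)) = θ (x (θ.symm v)) + θ (y (θ.symm v))
    rw [hadd]

end te

theorem exists_te (hG : IsGalPair Γ J G) {θ : Equiv.Perm (m → K)} (hθ : θ ∈ Γ) :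
    ∃ τ ∈ TE Γ, ∀ (x : Module.End K (m → K)) (v : m → K), τ x (θ v) = θ (x v) := by
  obtain ⟨σ, hadd, hσ⟩ := hG.semi θ hθ
  have h : ∀ (x : Module.End K (m → K)) (v : m → K), teE57 hadd hσ x (θ v) = θ (x v) := by
    intro x v
    change θ (x (θ.symm (θ v))) = θ (x v)
    rw [Equiv.symm_apply_apply]
  exact ⟨teE57 hadd hσ, ⟨θ, hθ, h⟩, h⟩

private theorem te_ext57 {θ : Equiv.Perm (m → K)} {x y : Module.End K (m → K)}
    (h : ∀ v, x (θ v) = y (θ v)) : x = y := by
  apply LinearMap.ext
  intro w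
  have := h (θ.symm w)
  rwa [Equiv.apply_symm_apply] at this

private theorem rk57 {θ : Equiv.Perm (m → K)} {σ : K ≃+* K}
    (hadd : ∀ v w : m → K, θ (v + w) = θ v + θ w)
    (hσ : ∀ (c : K) (v : m → K), θ (c • v) = σ c • θ v) {x y : Module.End K (m → K)}
    (h : ∀ v, y (θ v) = θ (x v)) : rk y = rk x := by
  have hr : Module.rank K (LinearMap.range x) = Module.rank K (LinearMap.range y) := by
    let j : LinearMap.range x ≃+ LinearMap.range y :=
      { toFun := fun v => ⟨θ v, by
          obtain ⟨w, hw⟩ := v.2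
          exact ⟨θ w, by rw [h, hw]⟩⟩
        invFun := fun v => ⟨θ.symm v, by
          obtain ⟨w, hw⟩ := v.2
          refine ⟨θ.symm w, ?_⟩
          rw [Equiv.eq_symm_apply, ← h, Equiv.apply_symm_apply, hw]⟩
        left_inv := by intro v; apply Subtype.ext; exact Equiv.symm_apply_apply θ _
        right_inv := by intro v; apply Subtype.ext; exact Equiv.apply_symm_apply θ _
        map_add' := by intro v w; apply Subtype.ext; exact hadd _ _ }
    refine rank_eq_of_equiv_equiv (σ : K → K) j σ.bijective ?_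
    intro c v
    apply Subtype.ext
    exact hσ c v
  unfold MTP.rk finrank
  rw [hr]

/-! ### The group -/

private theorem ge_mul57 (g g' : Matrix.GeneralLinearGroup m K) :
    Matrix.toLin' (g : Matrix m m K) * Matrix.toLin' (g' : Matrix m m K) =
      Matrix.toLin' ((g * g' : Matrix.GeneralLinearGroup m K) : Matrix m m K) := by
  rw [Units.val_mul, Matrix.toLin'_mul]
  rfl

private theorem ge_one57 : (1 : Module.End K (m → K)) =
    Matrix.toLin' ((1 : Matrix.GeneralLinearGroup m K) : Matrix m m K) := by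
  rw [Units.val_one, Matrix.toLin'_one]
  rfl

private theorem key57 (P : Matrix m m K) (t : K) :
    Matrix.toLin' (t • P + (1 - P)) = (1 : Module.End K (m → K)) + (t - 1) • Matrix.toLin' P := by
  have e : t • P + (1 - P) = 1 + (t - 1) • P := by module
  rw [e, map_add, map_smul, Matrix.toLin'_one]
  rfl

private theorem genA57 (hG : IsMTPair J G) (M : Subalgebra K (Module.End K (m → K)))
    (hM : ∀ p ∈ CC (GE G), p ∈ M) : ∀ g ∈ GE G, g ∈ M := by
  rintro _ ⟨g, hg, rfl⟩
  let H : Subgroup (Matrix.GeneralLinearGroup m K) :=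
    { carrier := {g | g ∈ G ∧ Matrix.toLin' (g : Matrix m m K) ∈ M}
      one_mem' := ⟨G.one_mem, by rw [← ge_one57]; exact M.one_mem⟩
      mul_mem' := by
        rintro g g' ⟨hg, hgM⟩ ⟨hg', hgM'⟩
        refine ⟨G.mul_mem hg hg', ?_⟩
        rw [← ge_mul57]; exact M.mul_mem hgM hgM'
      inv_mem' := by
        rintro g ⟨hg, hgM⟩
        refine ⟨G.inv_mem hg, ?_⟩
        apply inv_mem_subalgebra (A := Module.End K (m → K)) M hgM
        rw [ge_mul57, inv_mul_cancel, ge_one57] }
  have hHclosed : ZariskiClosed H := by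
    apply closed_of_linear G H hG.closed
      ((Subalgebra.toSubmodule M).comap (Matrix.toLin' (R := K) (m := m) (n := m)).toLinearMap)
    intro g
    rfl
  have hGH := hG.gen H hHclosed (by
    intro P hP
    refine ⟨hP.1, fun t ht0 => ?_⟩
    obtain ⟨g, hg, hgt⟩ := hP.2 t ht0
    refine ⟨g, ⟨hg, ?_⟩, hgt⟩
    rw [hgt, key57]
    exact M.add_mem M.one_mem (M.smul_mem (hM _ (mem_cc.2 hP)) _))
  exact (hGH hg).2

private theorem genB57 (hG : IsMTPair J G) (M : Submodule K (Module.End K (m → K)))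
    (hM : ∀ p ∈ CC (GE G), ∀ t : K, t ≠ 0 → ∀ x ∈ M,
      (1 + (t - 1) • p) * x * (1 + (t⁻¹ - 1) • p) ∈ M) :
    ∀ g ∈ GE G, ∀ h ∈ GE G, g * h = 1 → h * g = 1 → ∀ x ∈ M, g * x * h ∈ M := by
  -- the inverse
  have hinv : ∀ (g : Matrix.GeneralLinearGroup m K) (b : Module.End K (m → K)),
      b * Matrix.toLin' (g : Matrix m m K) = 1 →
      b = Matrix.toLin' ((g⁻¹ : Matrix.GeneralLinearGroup m K) : Matrix m m K) := by
    intro g b hb
    calc b = b * (Matrix.toLin' (g : Matrix m m K) *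
          Matrix.toLin' ((g⁻¹ : Matrix.GeneralLinearGroup m K) : Matrix m m K)) := by
          rw [ge_mul57, mul_inv_cancel, ← ge_one57, mul_one]
      _ = _ := by rw [← mul_assoc, hb, one_mul]
  rintro _ ⟨g, hg, rfl⟩ h _ _ hba x hx
  rw [hinv g h hba]
  let N : Submodule K (Matrix m m K) :=
    M.comap (Matrix.toLin' (R := K) (m := m) (n := m)).toLinearMap
  have hN : ∀ A : Matrix m m K, A ∈ N ↔ Matrix.toLin' A ∈ M := fun A => Iff.rfl
  have hclosed : ZariskiClosed (G ⊓ Nrm N) :=
    closed_normaliser G (G ⊓ Nrm N) hG.closed N fun g => Iff.rfl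
  have hGH := hG.gen _ hclosed (by
    intro P hP
    refine ⟨hP.1, fun t ht => ?_⟩
    obtain ⟨h, hh, hht⟩ := hP.2 t ht
    refine ⟨h, ⟨hh, ?_⟩, hht⟩
    intro X hX
    have hp := mem_cc.2 hP
    have h1 := hM _ hp t ht _ hX
    have h2 : (1 : Module.End K (m → K)) + (t⁻¹ - 1) • Matrix.toLin' P =
        Matrix.toLin' ((h⁻¹ : Matrix.GeneralLinearGroup m K) : Matrix m m K) := by
      apply hinv
      rw [hht, key57]
      have hpp : Matrix.toLin' P * Matrix.toLin' P = Matrix.toLin' P := hp.1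
      simp only [mul_add, add_mul, mul_one, one_mul, smul_mul_assoc, mul_smul_comm, hpp]
      have : (t⁻¹ - 1) + (t - 1) + (t - 1) * (t⁻¹ - 1) = 0 := by field_simp; ring
      trans (1 + ((t⁻¹ - 1) + (t - 1) + (t - 1) * (t⁻¹ - 1)) • Matrix.toLin' P)
      · module
      · rw [this, zero_smul, add_zero]
    rw [hN]
    have h3 : Matrix.toLin' ((h : Matrix m m K) * X *
        ((h⁻¹ : Matrix.GeneralLinearGroup m K) : Matrix m m K)) =
        (1 + (t - 1) • Matrix.toLin' P) * Matrix.toLin' X * (1 + (t⁻¹ - 1) • Matrix.toLin' P) := by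
      rw [h2, ← key57, ← hht, Matrix.toLin'_mul, Matrix.toLin'_mul]
      rfl
    rw [h3]
    exact h1)
  have h4 := (hGH hg).2 (LinearMap.toMatrix' x) (by
    rw [hN, Matrix.toLin'_toMatrix']
    exact hx)
  rw [hN] at h4
  have h5 : Matrix.toLin' ((g : Matrix m m K) * LinearMap.toMatrix' x *
        ((g⁻¹ : Matrix.GeneralLinearGroup m K) : Matrix m m K)) =
      Matrix.toLin' (g : Matrix m m K) * x *
        Matrix.toLin' ((g⁻¹ : Matrix.GeneralLinearGroup m K) : Matrix m m K) := by
    rw [Matrix.toLin'_mul, Matrix.toLin'_mul, Matrix.toLin'_toMatrix']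
    rfl
  rw [h5] at h4
  exact h4

theorem wstr [IsAlgClosed K] [CharZero K] [Nonempty m] (hG : IsGalPair Γ J G)
    (hirr : IsIrr G) : WStr (Matrix.toBilin' J) (GE G) (TE Γ) := by
  have hM : IsMTPair J G := hG.toIsMTPair
  refine
    { nt := inferInstance
      nd := toBilin'_nd hM.skew hM.det
      alt := ?_
      one := ⟨1, G.one_mem, ge_one57⟩
      mul := ?_
      inv := ?_
      sim := ?_
      irr := ?_
      semi := ?_
      rk := ?_
      tone := ⟨1, Γ.one_mem, fun _ _ => rfl⟩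
      tmul := ?_
      tinv := ?_
      tgrp := ?_
      genA := genA57 hM
      genB := genB57 hM
      genC := gen_c hM
      uni := fun x hx y hy h0 c => uni_c hM hirr hx hy h0 c }
  · intro v
    have := toBilin'_skew hM.skew v v
    have h2 : (2 : K) * Matrix.toBilin' J v v = 0 := by linear_combination this
    exact (mul_eq_zero.mp h2).resolve_left two_ne_zero
  · rintro a ⟨g, hg, rfl⟩ a' ⟨g', hg', rfl⟩
    exact ⟨g * g', G.mul_mem hg hg', ge_mul57 g g'⟩
  · rintro a ⟨g, hg, rfl⟩
    refine ⟨_, ⟨g⁻¹, G.inv_mem hg, rfl⟩, ?_, ?_⟩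
    · rw [ge_mul57, mul_inv_cancel, ← ge_one57]
    · rw [ge_mul57, inv_mul_cancel, ← ge_one57]
  · rintro a ⟨g, hg, rfl⟩
    obtain ⟨c, hc⟩ := hM.sim g hg
    exact ⟨c, fun v w => toBilin'_sim hc v w⟩
  · intro U hU
    apply hirr U
    intro g hg v hv
    have := hU _ ⟨g, hg, rfl⟩ v hv
    rwa [Matrix.toLin'_apply] at this
  · rintro τ ⟨θ, hθ, hτ⟩
    obtain ⟨σ, hadd, hσ⟩ := hG.semi θ hθ
    refine ⟨σ, fun c x => te_ext57 (θ := θ) fun v => ?_⟩
    rw [hτ, LinearMap.smul_apply, LinearMap.smul_apply, hσ, hτ]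
  · rintro τ ⟨θ, hθ, hτ⟩ x
    obtain ⟨σ, hadd, hσ⟩ := hG.semi θ hθ
    exact rk57 hadd hσ (hτ x)
  · rintro τ ⟨θ, hθ, hτ⟩ τ' ⟨θ', hθ', hτ'⟩
    refine ⟨θ * θ', Γ.mul_mem hθ hθ', fun x v => ?_⟩
    rw [RingEquiv.trans_apply, Equiv.Perm.mul_apply, Equiv.Perm.mul_apply, hτ, hτ']
  · rintro τ ⟨θ, hθ, hτ⟩
    refine ⟨θ⁻¹, Γ.inv_mem hθ, fun x v => ?_⟩
    apply θ.injective
    rw [← hτ, RingEquiv.apply_symm_apply, perm_apply_inv, perm_apply_inv]
  · rintro τ ⟨θ, hθ, hτ⟩ a ⟨g, hg, rfl⟩
    obtain ⟨g', hg', h⟩ := hG.norm θ hθ g hg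
    refine ⟨g', hg', te_ext57 (θ := θ) fun v => ?_⟩
    rw [hτ, Matrix.toLin'_apply, Matrix.toLin'_apply, h]

end PR
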