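import Pool.Agent.Helper27.PR.StrA
import Pool.Agent.Helper27.PR.PrIso
import Pool.Agent.Helper27.PR.IdM
import Pool.Agent.Helper27.PR.Defs
import Pool.Agent.Helper14.PT.Tw

/-!
Block T. The slopes in the tensor case.

Proof. Write `L = WL ω G`, `s i = 2 p i - 1 ∈ L` (skew, `s i * s i = 1`, commuting), `C = ∑ c i`,
`S = ∑ c i • s i`, so `nu c p = (C + S) / 2`.
(1) For a submodule `M` of `L` put `S_M = ∑ c i • s i` and `C_M = ∑ c i` over the `i` with
`s i ∈ M`. Let `I` be a minimal ideal and `M` an ideal with `I ⊓ M = ⊥`. Every `s i` is in `I` or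
in `orth L I` (`IrrSymp.inv_dich`); so if `s i ∈ I ⊔ M` then `s i ∈ I` or `s i ∈ M`, not both. So
`S_{I ⊔ M} = S_I + S_M`, `C_{I ⊔ M} = C_I + C_M`, and `S_M` commutes with `I`.
(2) `S_M` is a sum of commuting involutions with positive integral coefficients: `V`, and every
subspace stable under the `s i`, is the direct sum of its intersections with the eigenspaces of
`S_M` for the integers `z` with `|z| ≤ C_M`. `S_M` is skew, so the eigenspaces for `z` and `-z` have
the same dimension.
(3) For a minimal ideal `I` of the decomposition (`QI ω L ρ ε I`), `pr_iso` for `alg I` (and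
`alg (orth L I)`, `IrrSymp.pr`) has the number `d` (as in `QI.iso`) and a function `κ`; put
`m_I z = d - κ (S_I - z)`: for every subspace `W` stable under `alg I`, of dimension `n d`, the
eigenspace of `S_I` on `W` for `z` has dimension `n * m_I z`. `∑_z m_I z = d`, `m_I (-z) = m_I z`,
`m_I z = 0` for `|z| > C_I`.
(4) `m_I = m_{I'}` for two such ideals: take `τ ∈ T` with `τ I = I'` (`trans_min`), `g, h ∈ G` with
`g * τ (nu c p) * h = nu c p` and put `τ' x = g * τ x * h`: a semilinear ring automorphism of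
`End V` which preserves ranks, `L`, maps `I` to `I'` (`id_conj`) and fixes `S` (the scalar `C` is
fixed, `2 • nu c p = C • 1 + S`). `S = S_I + (element of orth L I)`, `τ' (orth L I) = orth L I'`,
and the components in `I'` and `orth L I'` are unique: `τ' S_I = S_{I'}`, so
`rk (S_I - z) = rk (S_{I'} - z)` for integers `z`, and `rk (S_I - z) = ρ * κ (S_I - z)`.
So `m := m_I` is independent of `I`, and `m z = 0` unless `|z| ≤ C_0 :=` the least `C_I`; and
`k * C_0 ≤ C` (sum over the `k` ideals of the decomposition, induction with `Dec`).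
(5) `a : Fin d → ℚ` takes each value `z / (2 C)` exactly `m z` times. It is symmetric.
(6) Induction with `Dec`: if `Dec ω L ρ ε n M` then for every integer `z`
`dim (eigenspace S_M z) * d ^ n = dim V * #{φ : Fin n → Fin d | ∑ 2 C a (φ i) = z}`. Step
`M = I ⊔ M'`: `W_y = eigenspace S_{M'} y` is stable under `alg I`, of dimension `n_y d`; `V` is the
direct sum of the `W_y`, and the eigenspace of `S_I + S_{M'}` for `z` is the direct sum of the
eigenspaces of `S_I` on `W_y` for `z - y`, of dimension `n_y * m (z - y)`. For `M = L`, `n = k`,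
`dim V = d ^ k`. Finally `nu c p - C l = (S - C (2 l - 1)) / 2`, and eigenvalues of `S` are integers.
`d` is even because `dim V` is even (`ω` alternating) and `k ≠ 0`.
-/

set_option linter.unusedSectionVars false
set_option linter.unusedVariables false

open Module MTP

namespace PR

variable {K : Type*} [Field K] {V : Type*} [AddCommGroup V] [Module K V] [FiniteDimensional K V]
variable {ω : LinearMap.BilinForm K V} {G : Set (Module.End K V)}
  {T : Set (Module.End K V ≃+* Module.End K V)} {p0 : Module.End K V}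

/-- Rewriting of the counting conditions. -/
private lemma cond14 {C : ℕ} (hC : 0 < C) (x : ℤ) (l : ℚ) :
    ((C : ℚ) + x) / 2 = C * l ↔ (x : ℚ) = C * (2 * l - 1) := by
  have hC' : (C : ℚ) ≠ 0 := by exact_mod_cast hC.ne'
  constructor
  · intro h
    linarith
  · intro h
    linarith

private lemma cond14' {C : ℕ} (hC : 0 < C) (x : ℤ) (l : ℚ) :
    1 / 2 + (x : ℚ) / (2 * C) = l ↔ (x : ℚ) = C * (2 * l - 1) := by
  have hC' : (C : ℚ) ≠ 0 := by exact_mod_cast hC.ne'
  constructor
  · intro h
    rw [← h]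
    field_simp
    ring
  · intro h
    rw [h]
    field_simp
    ring

theorem WStr.tensor [IsAlgClosed K] [CharZero K] (D : WStr ω G T) (hS : TSmp (WL ω G) T)
    (hsk : IsSk ω ((2 : K) • p0 - 1)) {n : ℕ} (hn : 0 < n) {c : Fin n → ℕ}
    {p : Fin n → Module.End K V} (N : Newt G T p0 c p) {k d ρ : ℕ} {ε : K}
    (hd : finrank K V = d ^ k) (hρ : finrank K V = ρ * d)
    (hdec : Dec ω (WL ω G) ρ ε k (WL ω G)) :
    Even d ∧ ∃ a : Fin d → ℚ, Symm a ∧ (∀ i, |a i| ≤ 1 / (2 * k)) ∧ ∀ l : ℚ,
      finrank K (Module.End.eigenspace (nu c p) (((∑ i, c i : ℕ) * l : ℚ) : K)) =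
        (Finset.univ.filter (fun φ : Fin k → Fin d => 1 / 2 + ∑ i, a (φ i) = l)).card := by
  classical
  have hL := D.ctx.irr
  have hω := D.nd
  have hnt := D.nt
  have hsp := fun i => D.sk_of_sc N.base hsk (N.conj i)
  have hpp : ∀ i, p i * p i = p i := fun i => (D.cc_of_sc N.base (N.conj i)).1
  obtain ⟨s, hsdef⟩ : ∃ s : Fin n → Module.End K V, ∀ i, s i = (2 : K) • p i - 1 :=
    ⟨_, fun _ => rfl⟩
  have hs : ∀ i, s i ∈ WL ω G := fun i => by rw [hsdef]; exact (hsp i).2
  have hss : ∀ i, s i * s i = 1 := by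
    intro i
    rw [hsdef]
    simp only [sub_mul, mul_sub, smul_mul_assoc, mul_smul_comm, hpp, mul_one, one_mul]
    module
  have hcomm : ∀ i j, s i * s j = s j * s i := by
    intro i j
    rw [hsdef, hsdef]
    simp only [sub_mul, mul_sub, smul_mul_assoc, mul_smul_comm, mul_one, one_mul]
    rw [N.comm i j]
    module
  obtain ⟨D', hD'⟩ : ∃ D', D' = finrank K V := ⟨_, rfl⟩
  have hB := exists_basis14 s hss hcomm
  rw [← hD'] at hB
  obtain ⟨b, χ, hχ, hb⟩ := hB
  have hD0 : 0 < D' := by rw [hD']; exact Module.finrank_pos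
  -- `k` is positive
  have hk0 : k ≠ 0 := by
    rintro rfl
    have h1 : WL ω G = ⊥ := hdec
    have h2 := hs ⟨0, hn⟩
    rw [h1, Submodule.mem_bot] at h2
    have h3 := hss ⟨0, hn⟩
    rw [h2, mul_zero] at h3
    exact one_ne_zero h3.symm
  obtain ⟨I0, hI0⟩ : ∃ I0, QI ω (WL ω G) ρ ε I0 := by
    obtain ⟨k', rfl⟩ := Nat.exists_eq_succ_of_ne_zero hk0
    obtain ⟨I, M', hI, -, -, -⟩ := hdec
    exact ⟨I, hI⟩
  obtain ⟨C, hC⟩ : ∃ C, C = ∑ i, c i := ⟨_, rfl⟩
  have hC0 : 0 < C := by
    rw [hC]
    exact Finset.sum_pos (fun i _ => N.pos i) ⟨⟨0, hn⟩, Finset.mem_univ _⟩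
  -- the common multiplicity function
  obtain ⟨m, hm0, hm0'⟩ := QI_mult14 b hL hω hρ hI0 (X := XI c s I0) XI_mem
    (XI_b b hb I0)
  have hρ0 : 0 < ρ := (QI_kappa14 hL hω hρ hI0).1
  have hrk : ∀ (M : Submodule K (Module.End K V)) (z : ℤ), MTP.rk (XI c s M - (z : K) • 1) +
      (Finset.univ.filter (fun j => FI c s χ M j = z)).card = D' := by
    intro M z
    have h1 : ∀ j, (XI c s M - (z : K) • 1) (b j) = (((FI c s χ M j - z : ℤ) : K)) • b j := by
      intro j
      rw [LinearMap.sub_apply, XI_b b hb, LinearMap.smul_apply, Module.End.one_apply, ← sub_smul]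
      push_cast
      rfl
    have h5 : (Finset.univ.filter (fun j => ((FI c s χ M j - z : ℤ) : K) ≠ 0)) =
        Finset.univ.filter (fun j => ¬ FI c s χ M j = z) := by
      apply Finset.filter_congr
      intro j _
      rw [Ne, Int.cast_eq_zero, sub_eq_zero]
    rw [rk14 b h1, h5, add_comm]
    have h6 := Finset.card_filter_add_card_filter_not (s := (Finset.univ : Finset (Fin D')))
      (fun j => FI c s χ M j = z)
    rw [Finset.card_univ, Fintype.card_fin] at h6
    exact h6
  have hm : ∀ I, QI ω (WL ω G) ρ ε I →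
      (∀ z, (Finset.univ.filter (fun j => FI c s χ I j = z)).card = ρ * m z) ∧
      ∀ J : Finset (Fin D'), (∀ x ∈ alg I, ∀ w ∈ Submodule.span K (b '' (J : Set (Fin D'))),
        x w ∈ Submodule.span K (b '' (J : Set (Fin D')))) →
        ∀ z, (J.filter (fun j => FI c s χ I j = z)).card * d = J.card * m z := by
    intro I hI
    obtain ⟨mI, h1, h2⟩ := QI_mult14 b hL hω hρ hI (X := XI c s I) XI_mem (XI_b b hb I)
    have h3 : mI = m := by
      funext z
      apply Nat.eq_of_mul_eq_mul_left hρ0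
      rw [← h1, ← hm0]
      have e1 := hrk I z
      have e2 := hrk I0 z
      have e3 := XI_conj14 D hS N hsdef hs hss (QI.isMin14 hI) (QI.isMin14 hI0) z
      omega
    subst h3
    exact ⟨h1, h2⟩
  have hFC : ∀ M j, |FI c s χ M j| ≤ (C : ℤ) := by
    intro M j
    refine (FI_le hχ M j).trans ?_
    rw [hC]
    push_cast
    exact Finset.sum_le_univ_sum_of_nonneg (fun i => by positivity)
  have h0 : ∀ z, m z ≠ 0 → |z| ≤ (C : ℤ) := by
    intro z hz
    have h2 : (Finset.univ.filter (fun j => FI c s χ I0 j = z)).Nonempty := by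
      rw [← Finset.card_pos, hm0]
      positivity
    obtain ⟨j, hj⟩ := h2
    rw [Finset.mem_filter] at hj
    rw [← hj.2]
    exact hFC I0 j
  have hsum : ∑ z ∈ Finset.Icc (-(C : ℤ)) C, m z = d := by
    apply Nat.eq_of_mul_eq_mul_left hρ0
    rw [← hρ, ← hD', Finset.mul_sum]
    have h1 := Finset.card_eq_sum_card_fiberwise (f := fun j => FI c s χ I0 j)
      (s := (Finset.univ : Finset (Fin D'))) (t := Finset.Icc (-(C : ℤ)) C) (by
        intro j _
        rw [Finset.coe_Icc, Set.mem_Icc, ← abs_le]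
        exact hFC I0 j)
    rw [Finset.card_univ, Fintype.card_fin] at h1
    rw [h1]
    apply Finset.sum_congr rfl
    intro z _
    rw [hm0]
  have hmsym : ∀ z, m (-z) = m z := by
    intro z
    apply Nat.eq_of_mul_eq_mul_left hρ0
    rw [← hm0, ← hm0]
    have e1 := hrk I0 z
    have e2 := hrk I0 (-z)
    have e3 := rk_symm14 hω (hL.sk _ (hI0.1.1 (XI_mem (c := c) (s := s)))) (z : K)
    rw [Int.cast_neg] at e2
    omega
  obtain ⟨β, hβ, e, he⟩ := exists_family14 C m h0 hsum hmsym
  obtain ⟨hbd, hcnt⟩ := ind14 b hL hω hρ hs hss hb hχ hC.symm hρ0 hm h0 hβ k _ hdec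
  have hAL : AI s (WL ω G) = Finset.univ := by
    ext i
    rw [mem_AI]
    simp [hs i]
  refine ⟨?_, fun t => (β t : ℚ) / (2 * C), ⟨e, ?_⟩, ?_, ?_⟩
  · -- parity
    have h1 : Even D' := by
      have e1 : ∀ z : ℤ, ∀ j, (s ⟨0, hn⟩ - (z : K) • 1) (b j) =
          (((χ ⟨0, hn⟩ j - z : ℤ) : K)) • b j := by
        intro z j
        rw [LinearMap.sub_apply, hb, LinearMap.smul_apply, Module.End.one_apply, ← sub_smul]
        push_cast
        rfl
      have e2 := rk_symm14 hω (hL.sk _ (hs ⟨0, hn⟩)) ((1 : ℤ) : K)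
      rw [← Int.cast_neg, rk14 b (e1 1), rk14 b (e1 (-1))] at e2
      have h5 : ∀ z : ℤ, (Finset.univ.filter (fun j => ((χ ⟨0, hn⟩ j - z : ℤ) : K) ≠ 0)) =
          Finset.univ.filter (fun j => ¬ χ ⟨0, hn⟩ j = z) := by
        intro z
        apply Finset.filter_congr
        intro j _
        rw [Ne, Int.cast_eq_zero, sub_eq_zero]
      rw [h5, h5] at e2
      have h6 := Finset.card_filter_add_card_filter_not (s := (Finset.univ : Finset (Fin D')))
        (fun j => χ ⟨0, hn⟩ j = 1)
      rw [Finset.card_univ, Fintype.card_fin, e2] at h6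
      have h7 : (Finset.univ.filter (fun j => ¬ χ ⟨0, hn⟩ j = -1)) =
          Finset.univ.filter (fun j => χ ⟨0, hn⟩ j = 1) := by
        apply Finset.filter_congr
        intro j _
        rcases hχ ⟨0, hn⟩ j with h | h <;> rw [h] <;> simp
      rw [h7] at h6
      exact ⟨_, h6.symm⟩
    rw [hD', hd] at h1
    exact (Nat.even_pow.mp h1).1
  · intro t
    simp only
    rw [he, Int.cast_neg, neg_div]
  · intro t
    have h1 : m (β t) ≠ 0 := by
      rw [← hβ]
      intro h
      rw [Finset.card_eq_zero, Finset.filter_eq_empty_iff] at h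
      exact h (Finset.mem_univ t) rfl
    have h2 := hbd _ h1
    rw [hAL] at h2
    have h3 : (k : ℚ) * |(β t : ℚ)| ≤ C := by
      have h4 : (((k : ℤ) * |β t| : ℤ) : ℚ) ≤ ((∑ i, (c i : ℤ) : ℤ) : ℚ) := by exact_mod_cast h2
      rw [hC]
      push_cast at h4 ⊢
      exact h4
    have hk1 : (0 : ℚ) < k := by
      have : 0 < k := Nat.pos_of_ne_zero hk0
      exact_mod_cast this
    have hC1 : (0 : ℚ) < C := by exact_mod_cast hC0
    rw [abs_div, abs_of_pos (by positivity : (0 : ℚ) < 2 * C), div_le_div_iff₀ (by positivity)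
      (by positivity)]
    nlinarith
  · intro l
    have hnub : ∀ j, nu c p (b j) =
        ((((C : ℚ) + (FI c s χ (WL ω G) j : ℤ)) / 2 : ℚ) : K) • b j := by
      intro j
      have e1 : nu c p = (2 : K)⁻¹ • (XI c s (WL ω G) + (C : K) • 1) := by
        unfold nu XI
        rw [hAL, hC, Nat.cast_sum, Finset.sum_smul, ← Finset.sum_add_distrib, Finset.smul_sum]
        apply Finset.sum_congr rfl
        intro i _
        rw [hsdef, Nat.cast_smul_eq_nsmul, ← smul_add, sub_add_cancel, smul_comm,
          smul_smul, inv_mul_cancel₀ two_ne_zero, one_smul]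
      rw [e1, LinearMap.smul_apply, LinearMap.add_apply, XI_b b hb, LinearMap.smul_apply,
        Module.End.one_apply, ← add_smul, smul_smul]
      congr 1
      push_cast
      ring
    rw [eigen14 b hnub, finrank_span14, ← hC]
    have e2 : (Finset.univ.filter (fun j => ((((C : ℚ) + (FI c s χ (WL ω G) j : ℤ)) / 2 : ℚ) : K) =
        (((C : ℕ) * l : ℚ) : K))) =
        Finset.univ.filter (fun j => ((FI c s χ (WL ω G) j : ℤ) : ℚ) = C * (2 * l - 1)) := by
      apply Finset.filter_congr
      intro j _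
      rw [Rat.cast_inj]
      exact cond14 hC0 _ l
    have e3 : (Finset.univ.filter (fun φ : Fin k → Fin d =>
        1 / 2 + ∑ i, (β (φ i) : ℚ) / (2 * C) = l)) =
        Finset.univ.filter (fun φ : Fin k → Fin d =>
          ((∑ i, β (φ i) : ℤ) : ℚ) = C * (2 * l - 1)) := by
      apply Finset.filter_congr
      intro φ _
      rw [← Finset.sum_div, ← Int.cast_sum]
      exact cond14' hC0 _ l
    rw [e2, e3]
    by_cases hz : ∃ z : ℤ, (z : ℚ) = C * (2 * l - 1)
    · obtain ⟨z, hz⟩ := hz
      have h1 := hcnt z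
      unfold cnt14 at h1
      have hdk : 0 < d ^ k := by rw [← hd, ← hD']; exact hD0
      have h3 : D' = d ^ k := hD'.trans hd
      rw [← h3, mul_comm D'] at h1
      have h2 := Nat.eq_of_mul_eq_mul_right hD0 h1
      rw [← hz]
      simp only [Int.cast_inj]
      exact h2
    · push Not at hz
      rw [Finset.filter_false_of_mem (fun j _ => hz _),
        Finset.filter_false_of_mem (fun φ _ => hz _)]
      rfl

end PR
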