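import Pool.Agent.Helper27.PR.WDr
import Pool.Agent.Helper27.PR.StrA

/-!
Block Z1. The involutions `t a`, `t b` of the data `WD` are conjugate under the group.

* `sl2`: `h = [e a b, e b a]` commutes with all `t l`, so it is in the span of the `t l` (weights: the
  `e i j` have nonzero weights), and `tr (h * t l) = tr (e a b * [e b a, t l])` is a multiple of
  `tr ((t b - t a) * t l)` (see the header of `WDr.lean`, step (3); `tr (e a b * e b a) ≠ 0` by `hnd`,
  `tr_te`, `tr_ee`), so `h = c' (t b - t a)` with `c' ≠ 0` (by `hnd`: the difference is orthogonal to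
  all of `L`). Apply to `b I` with `a ∈ I`, `b ∉ I`: `e a b (b I) = 0` because its weight is not a
  weight of `V` (`t b` would have the eigenvalue `3`: `t b (e a b v) = e a b (t b v) + 2 e a b v`),
  so `e a b (e b a (b I)) = h (b I) = 2 c' b I`. For `b ∈ I`, `a ∉ I`:
  `e b a (e a b (b I)) = - h (b I) = 2 c' b I`.
* `conj`: `e = e a b`, `f = c⁻¹ e b a` with `c` of `sl2`. `e e = 0`, `f f = 0` (weights),
  `u = (1 + e) (1 - f) (1 + e)`, inverse `(1 - e) (1 + f) (1 - e)`. All factors are in `G` by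
  `WStr.uni`: `e = [t b, e / 2]`, `f = [t a, f / 2]`. In the basis `b`: if `I` contains both or none of
  `a, b` then `e`, `f` kill `b I` (weights) and `t a`, `t b` are equal on it; if `a ∈ I`, `b ∉ I` then
  `u (b I) = - f (b I)`, an eigenvector of `t b` for `-1`, `t a (b I) = - b I`; if `b ∈ I`, `a ∉ I` then
  `u (b I) = e (b I)`, an eigenvector of `t b` for `1`, and `t a (b I) = b I`. So `u * t a = t b * u`.
-/

set_option linter.unusedSectionVars false
set_option linter.unusedVariables false

open Module MTP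

namespace PR

variable {K : Type*} [Field K] {V : Type*} [AddCommGroup V] [Module K V] [FiniteDimensional K V]
variable {L : Submodule K (Module.End K V)} {m : ℕ}

private lemma tsq34 [CharZero K] (D : WD L m) (j : Fin (2 * m)) : D.t j * D.t j = 1 := by
  refine D.b.ext fun I => ?_
  rw [Module.End.mul_apply, D.t_b, map_smul, D.t_b, smul_smul, Module.End.one_apply]
  by_cases h : j ∈ I.1
  · rw [if_pos h]; norm_num
  · rw [if_neg h]; norm_num

private lemma wt34 [CharZero K] {t x : Module.End K V} (ht : t * t = 1)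
    (h : t * x - x * t = (2 : K) • x) : t * x = x ∧ x * t = -x := by
  have h1 : t * x = x * t + (2 : K) • x := by rw [← h]; abel
  have h2 : t * x * t = x + (2 : K) • (x * t) := by
    rw [h1, add_mul, mul_assoc, ht, mul_one, smul_mul_assoc]
  have h3 : x = x + (2 : K) • (x * t) + (2 : K) • (x * t + (2 : K) • x) := by
    calc x = t * (t * x) := by rw [← mul_assoc, ht, one_mul]
      _ = t * (x * t + (2 : K) • x) := by rw [h1]
      _ = t * x * t + (2 : K) • (t * x) := by rw [mul_add, mul_smul_comm, mul_assoc]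
      _ = _ := by rw [h2, h1]
  have h4 : (4 : K) • (x * t + x) = 0 := by
    have e : (4 : K) • (x * t + x) =
        (x + (2 : K) • (x * t) + (2 : K) • (x * t + (2 : K) • x)) - x := by module
    rw [e, ← h3, sub_self]
  have h5 : x * t + x = 0 := (smul_eq_zero.mp h4).resolve_left (by norm_num)
  have h6 : x * t = -x := eq_neg_of_add_eq_zero_left h5
  refine ⟨?_, h6⟩
  rw [h1, h6]
  module

private lemma wt34' [CharZero K] {t x : Module.End K V} (ht : t * t = 1)
    (h : t * x - x * t = (-2 : K) • x) : t * x = -x ∧ x * t = x := by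
  have h1 := wt34 (t := -t) (x := x) (by rw [neg_mul_neg, ht]) (by
    have e : -t * x - x * -t = -(t * x - x * t) := by noncomm_ring
    rw [e, h]
    module)
  obtain ⟨h2, h3⟩ := h1
  constructor
  · have := congrArg Neg.neg h2
    rw [neg_mul, neg_neg] at this
    exact this
  · have := congrArg Neg.neg h3
    rw [mul_neg, neg_neg, neg_neg] at this
    exact this

private lemma we34 [CharZero K] (D : WD L m) {i j : Fin (2 * m)} (h : i ≠ j) :
    (D.t j * D.e i j = D.e i j ∧ D.e i j * D.t j = - D.e i j) ∧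
      (D.t i * D.e i j = - D.e i j ∧ D.e i j * D.t i = D.e i j) := by
  constructor
  · apply wt34 (tsq34 D j)
    have h1 := D.t_e j i j h
    rw [if_pos rfl, if_neg h.symm, sub_zero] at h1
    exact h1
  · apply wt34' (tsq34 D i)
    have h1 := D.t_e i i j h
    rw [if_neg h, if_pos rfl, zero_sub] at h1
    exact h1

private lemma hcomm34 (D : WD L m) {a b : Fin (2 * m)} (hab : a ≠ b) (l : Fin (2 * m)) :
    D.t l * (D.e a b * D.e b a) = (D.e a b * D.e b a) * D.t l := by
  have h1 := D.t_e l a b hab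
  have h2 := D.t_e l b a hab.symm
  have e1 : D.t l * (D.e a b * D.e b a) - (D.e a b * D.e b a) * D.t l =
      (D.t l * D.e a b - D.e a b * D.t l) * D.e b a +
        D.e a b * (D.t l * D.e b a - D.e b a * D.t l) := by
    noncomm_ring
  rw [h1, h2, smul_mul_assoc, mul_smul_comm, ← add_smul] at e1
  have e2 : (((if l = b then (2 : K) else 0) - (if l = a then (2 : K) else 0)) +
      ((if l = a then (2 : K) else 0) - (if l = b then (2 : K) else 0))) = 0 := by ring
  rw [e2, zero_smul] at e1
  exact sub_eq_zero.mp e1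

private lemma tau34 [CharZero K] (D : WD L m)
    (hnd : ∀ x ∈ L, (∀ y ∈ L, LinearMap.trace K V (x * y) = 0) → x = 0) {a b : Fin (2 * m)}
    (hab : a ≠ b) : LinearMap.trace K V (D.e a b * D.e b a) ≠ 0 := by
  intro h0
  refine D.e_ne a b hab (hnd _ (D.e_mem a b hab) fun y hy => ?_)
  refine Submodule.span_induction (p := fun y _ => LinearMap.trace K V (D.e a b * y) = 0)
    ?_ ?_ ?_ ?_ (D.span hy)
  · rintro _ (⟨l, rfl⟩ | ⟨i, j, hij, rfl⟩)
    · rw [LinearMap.trace_mul_comm]
      exact D.tr_te hab l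
    · by_cases hc : i = b ∧ j = a
      · rw [hc.1, hc.2]
        exact h0
      · exact D.tr_ee hab hij hc
  · rw [mul_zero, map_zero]
  · intro x y _ _ hx hy
    rw [mul_add, map_add, hx, hy, add_zero]
  · intro c x _ hx
    rw [mul_smul_comm, map_smul, hx, smul_zero]

private lemma key34 [CharZero K] (D : WD L m) (hbr : ∀ x ∈ L, ∀ y ∈ L, x * y - y * x ∈ L)
    (hnd : ∀ x ∈ L, (∀ y ∈ L, LinearMap.trace K V (x * y) = 0) → x = 0) {a b : Fin (2 * m)}
    (hab : a ≠ b) : ∃ c : K, c ≠ 0 ∧
      (2 : K) • (D.e a b * D.e b a - D.e b a * D.e a b) = c • (D.t b - D.t a) := by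
  have hm := D.three
  have hτ0 := tau34 D hnd hab
  obtain ⟨τ, hτ⟩ : ∃ τ, τ = LinearMap.trace K V (D.e a b * D.e b a) := ⟨_, rfl⟩
  rw [← hτ] at hτ0
  have hN : ((2 * m).choose m : K) ≠ 0 := by
    have : (2 * m).choose m ≠ 0 := (Nat.choose_pos (by omega)).ne'
    exact_mod_cast this
  have hmK : (m : K) ≠ 0 := by
    have : m ≠ 0 := by omega
    exact_mod_cast this
  have h2m : (2 * m - 1 : K) ≠ 0 := by
    have h1 : ((2 * m - 1 : ℕ) : K) ≠ 0 := Nat.cast_ne_zero.mpr (by omega)
    rw [Nat.cast_sub (by omega)] at h1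
    push_cast at h1
    exact h1
  obtain ⟨c, hc⟩ : ∃ c : K, c = 2 * τ * (2 * m - 1) / (m * ((2 * m).choose m : K)) := ⟨_, rfl⟩
  have hc0 : c ≠ 0 := by
    rw [hc]
    exact div_ne_zero (mul_ne_zero (mul_ne_zero two_ne_zero hτ0) h2m) (mul_ne_zero hmK hN)
  refine ⟨c, hc0, ?_⟩
  obtain ⟨h, hh⟩ : ∃ h, h = D.e a b * D.e b a - D.e b a * D.e a b := ⟨_, rfl⟩
  rw [← hh]
  have hcm : ∀ l, D.t l * h = h * D.t l := by
    intro l
    rw [hh, mul_sub, sub_mul, hcomm34 D hab, hcomm34 D hab.symm]
  have hL : h ∈ L := by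
    rw [hh]
    exact hbr _ (D.e_mem a b hab) _ (D.e_mem b a hab.symm)
  have htr : ∀ l, LinearMap.trace K V (h * D.t l) =
      ((if l = b then (2 : K) else 0) - (if l = a then (2 : K) else 0)) * τ := by
    intro l
    have e1 : LinearMap.trace K V (D.e b a * D.e a b * D.t l) =
        LinearMap.trace K V (D.e a b * (D.t l * D.e b a)) := by
      rw [mul_assoc, LinearMap.trace_mul_comm, mul_assoc]
    have e2 : D.e a b * D.e b a * D.t l - D.e a b * (D.t l * D.e b a) =
        -(D.e a b * (D.t l * D.e b a - D.e b a * D.t l)) := by noncomm_ring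
    have e3 : LinearMap.trace K V (h * D.t l) =
        LinearMap.trace K V (D.e a b * D.e b a * D.t l - D.e a b * (D.t l * D.e b a)) := by
      rw [hh, sub_mul, map_sub, map_sub, e1]
    rw [e3, e2, D.t_e l b a hab.symm, mul_smul_comm, map_neg, map_smul, ← hτ, smul_eq_mul]
    ring
  have hzero : (2 : K) • h - c • (D.t b - D.t a) = 0 := by
    refine hnd _ (L.sub_mem (L.smul_mem _ hL) (L.smul_mem _ (L.sub_mem (D.t_mem b) (D.t_mem a))))
      fun y hy => ?_
    refine Submodule.span_induction
      (p := fun y _ => LinearMap.trace K V (((2 : K) • h - c • (D.t b - D.t a)) * y) = 0)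
      ?_ ?_ ?_ ?_ (D.span hy)
    · rintro _ (⟨l, rfl⟩ | ⟨i, j, hij, rfl⟩)
      · have e1 : ((2 : K) • h - c • (D.t b - D.t a)) * D.t l =
            (2 : K) • (h * D.t l) - c • (D.t b * D.t l - D.t a * D.t l) := by
          rw [sub_mul, smul_mul_assoc, smul_mul_assoc, sub_mul]
        rw [e1, map_sub, map_smul, map_smul, map_sub, htr, D.tr_tt, D.tr_tt, smul_eq_mul,
          smul_eq_mul, hc]
        by_cases hlb : l = b
        · have hla : ¬ l = a := fun h3 => hab (h3.symm.trans hlb)
          rw [if_pos hlb, if_neg hla, if_pos hlb.symm, if_neg (fun h3 => hla h3.symm)]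
          field_simp
          ring
        · by_cases hla : l = a
          · rw [if_neg hlb, if_pos hla, if_neg (fun h3 => hlb h3.symm), if_pos hla.symm]
            field_simp
            ring
          · rw [if_neg hlb, if_neg hla, if_neg (fun h3 => hlb h3.symm),
              if_neg (fun h3 => hla h3.symm)]
            ring
      · have e1 : ((2 : K) • h - c • (D.t b - D.t a)) * D.e i j =
            (2 : K) • (h * D.e i j) - c • (D.t b * D.e i j - D.t a * D.e i j) := by
          rw [sub_mul, smul_mul_assoc, smul_mul_assoc, sub_mul]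
        have e2 : LinearMap.trace K V (h * D.e i j) = 0 := by
          have w := (we34 D hij).2
          have e3 : LinearMap.trace K V (h * D.e i j * D.t i) =
              LinearMap.trace K V (h * (D.t i * D.e i j)) := by
            rw [LinearMap.trace_mul_comm, ← mul_assoc, hcm, mul_assoc]
          rw [mul_assoc, w.2, w.1, mul_neg, map_neg] at e3
          have e4 : (2 : K) * LinearMap.trace K V (h * D.e i j) = 0 := by
            linear_combination e3
          exact (mul_eq_zero.mp e4).resolve_left two_ne_zero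
        rw [e1, map_sub, map_smul, map_smul, map_sub, e2, D.tr_te hij, D.tr_te hij]
        simp
    · rw [mul_zero, map_zero]
    · intro x y _ _ hx hy
      rw [mul_add, map_add, hx, hy, add_zero]
    · intro c x _ hx
      rw [mul_smul_comm, map_smul, hx, smul_zero]
  exact sub_eq_zero.mp hzero

theorem WD.sl2 [CharZero K] (D : WD L m) (hbr : ∀ x ∈ L, ∀ y ∈ L, x * y - y * x ∈ L)
    (hnd : ∀ x ∈ L, (∀ y ∈ L, LinearMap.trace K V (x * y) = 0) → x = 0) {a b : Fin (2 * m)}
    (hab : a ≠ b) : ∃ c : K, c ≠ 0 ∧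
      (∀ I : {I : Finset (Fin (2 * m)) // I.card = m}, a ∈ I.1 → b ∉ I.1 →
        D.e a b (D.e b a (D.b I)) = c • D.b I) ∧
      (∀ I : {I : Finset (Fin (2 * m)) // I.card = m}, b ∈ I.1 → a ∉ I.1 →
        D.e b a (D.e a b (D.b I)) = c • D.b I) := by
  obtain ⟨c, hc, hkey⟩ := key34 D hbr hnd hab
  have w1 := we34 D hab
  have w2 := we34 D hab.symm
  have two : (2 : K) ≠ 0 := two_ne_zero
  have neg0 : ∀ v : V, v = -v → v = 0 := by
    intro v hv
    have h1 : (2 : K) • v = 0 := by
      have h2 : (2 : K) • v = v + v := two_smul K v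
      rw [h2]
      nth_rewrite 2 [hv]
      exact add_neg_cancel v
    exact (smul_eq_zero.mp h1).resolve_left two
  have kill : ∀ (i j : Fin (2 * m)), i ≠ j → ∀ I : {I : Finset (Fin (2 * m)) // I.card = m},
      j ∉ I.1 → D.e i j (D.b I) = 0 := by
    intro i j hij I hj
    have h1 := (we34 D hij).1.2
    have h2 : (D.e i j * D.t j) (D.b I) = (- D.e i j) (D.b I) := by rw [h1]
    rw [Module.End.mul_apply, D.t_b, if_neg hj, one_smul, LinearMap.neg_apply] at h2
    exact neg0 _ h2
  refine ⟨c, hc, ?_, ?_⟩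
  · intro I ha hb
    have h1 : ((2 : K) • (D.e a b * D.e b a - D.e b a * D.e a b)) (D.b I) =
        (c • (D.t b - D.t a)) (D.b I) := by rw [hkey]
    rw [LinearMap.smul_apply, LinearMap.smul_apply, LinearMap.sub_apply, LinearMap.sub_apply,
      Module.End.mul_apply, Module.End.mul_apply, kill a b hab I hb, map_zero, sub_zero,
      D.t_b, D.t_b, if_neg hb, if_pos ha] at h1
    have h2 : (2 : K) • (D.e a b (D.e b a (D.b I)) - c • D.b I) = 0 := by
      rw [smul_sub, h1]
      module
    exact sub_eq_zero.mp ((smul_eq_zero.mp h2).resolve_left two)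
  · intro I hb ha
    have h1 : ((2 : K) • (D.e a b * D.e b a - D.e b a * D.e a b)) (D.b I) =
        (c • (D.t b - D.t a)) (D.b I) := by rw [hkey]
    rw [LinearMap.smul_apply, LinearMap.smul_apply, LinearMap.sub_apply, LinearMap.sub_apply,
      Module.End.mul_apply, Module.End.mul_apply, kill b a hab.symm I ha, map_zero, zero_sub,
      D.t_b, D.t_b, if_pos hb, if_neg ha] at h1
    have h2 : (2 : K) • (D.e b a (D.e a b (D.b I)) - c • D.b I) = 0 := by
      have h3 : (2 : K) • D.e b a (D.e a b (D.b I)) =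
          -((2 : K) • -D.e b a (D.e a b (D.b I))) := by module
      rw [smul_sub, h3, h1]
      module
    exact sub_eq_zero.mp ((smul_eq_zero.mp h2).resolve_left two)

variable {ω : LinearMap.BilinForm K V} {G : Set (Module.End K V)}
  {T : Set (Module.End K V ≃+* Module.End K V)} {p0 : Module.End K V}

theorem WStr.t_conj [CharZero K] (D : WStr ω G T) (W : WD (WL ω G) m)
    (hnd : ∀ x ∈ WL ω G, (∀ y ∈ WL ω G, LinearMap.trace K V (x * y) = 0) → x = 0)
    (a b : Fin (2 * m)) :
    ∃ g ∈ G, ∃ h ∈ G, g * h = 1 ∧ h * g = 1 ∧ g * W.t a * h = W.t b := by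
  by_cases hab : a = b
  · subst hab
    exact ⟨1, D.one, 1, D.one, one_mul 1, one_mul 1, by rw [one_mul, mul_one]⟩
  obtain ⟨c, hc, hkey⟩ := key34 W (fun x hx y hy => lieGen_comm hx hy) hnd hab
  obtain ⟨⟨w1, w2⟩, w3, w4⟩ := we34 W hab
  obtain ⟨⟨w5, w6⟩, w7, w8⟩ := we34 W (Ne.symm hab)
  have two : (2 : K) ≠ 0 := two_ne_zero
  obtain ⟨e, he⟩ : ∃ e, e = W.e a b := ⟨_, rfl⟩
  obtain ⟨f, hf⟩ : ∃ f, f = c⁻¹ • W.e b a := ⟨_, rfl⟩
  have hfe : W.e b a = c • f := by rw [hf, smul_smul, mul_inv_cancel₀ hc, one_smul]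
  obtain ⟨s, hs⟩ : ∃ s, s = W.t a := ⟨_, rfl⟩
  obtain ⟨t, ht⟩ : ∃ t, t = W.t b := ⟨_, rfl⟩
  have hfs : f ∈ WL ω G := by
    rw [hf]
    exact Submodule.smul_mem _ _ (W.e_mem b a (Ne.symm hab))
  have hes : e ∈ WL ω G := by
    rw [he]
    exact W.e_mem a b hab
  have hss : s ∈ WL ω G := by
    rw [hs]
    exact W.t_mem a
  have hts : t ∈ WL ω G := by
    rw [ht]
    exact W.t_mem b
  rw [← he, ← ht] at w1 w2
  rw [← he, ← hs] at w3 w4
  have v5 : s * f = f := by rw [hf, hs, mul_smul_comm, w5]
  have v6 : f * s = -f := by rw [hf, hs, smul_mul_assoc, w6, smul_neg]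
  have v7 : t * f = -f := by rw [hf, ht, mul_smul_comm, w7, smul_neg]
  have v8 : f * t = f := by rw [hf, ht, smul_mul_assoc, w8]
  have hk : e * f - f * e = (2 : K)⁻¹ • (t - s) := by
    rw [hfe, ← he, ← hs, ← ht, mul_smul_comm, smul_mul_assoc, ← smul_sub, smul_smul] at hkey
    have h1 : ((2 : K) * c) • (e * f - f * e - (2 : K)⁻¹ • (t - s)) = 0 := by
      rw [smul_sub, hkey, smul_smul]
      have : (2 : K) * c * (2 : K)⁻¹ = c := by field_simp
      rw [this, sub_self]
    exact sub_eq_zero.mp ((smul_eq_zero.mp h1).resolve_left (mul_ne_zero two hc))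
  have neg0 : ∀ x : Module.End K V, x = -x → x = 0 := by
    intro x hx
    have h1 : (2 : K) • x = 0 := by
      have h2 : (2 : K) • x = x + x := two_smul K x
      rw [h2]
      nth_rewrite 2 [hx]
      exact add_neg_cancel x
    exact (smul_eq_zero.mp h1).resolve_left two
  have hee : e * e = 0 := by
    apply neg0
    calc e * e = e * (t * e) := by rw [w1]
      _ = (e * t) * e := by rw [mul_assoc]
      _ = -(e * e) := by rw [w2, neg_mul]
  have hff : f * f = 0 := by
    apply neg0
    calc f * f = f * (s * f) := by rw [v5]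
      _ = (f * s) * f := by rw [mul_assoc]
      _ = -(f * f) := by rw [v6, neg_mul]
  have hefe : e * f * e = e := by
    have h1 : e * f = f * e + (2 : K)⁻¹ • (t - s) := by rw [← hk]; abel
    rw [h1, add_mul, mul_assoc, hee, mul_zero, zero_add, smul_mul_assoc, sub_mul, w1, w3,
      sub_neg_eq_add, ← two_smul K e, smul_smul, inv_mul_cancel₀ two, one_smul]
  have m1 : (1 + e) * (1 - e) = 1 := by
    have : (1 + e) * (1 - e) = 1 - e * e := by noncomm_ring
    rw [this, hee, sub_zero]
  have m2 : (1 - e) * (1 + e) = 1 := by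
    have : (1 - e) * (1 + e) = 1 - e * e := by noncomm_ring
    rw [this, hee, sub_zero]
  have m3 : (1 - f) * (1 + f) = 1 := by
    have : (1 - f) * (1 + f) = 1 - f * f := by noncomm_ring
    rw [this, hff, sub_zero]
  have m4 : (1 + f) * (1 - f) = 1 := by
    have : (1 + f) * (1 - f) = 1 - f * f := by noncomm_ring
    rw [this, hff, sub_zero]
  have br1 : t * e - e * t = (2 : K) • e := by rw [w1, w2]; module
  have br2 : s * f - f * s = (2 : K) • f := by rw [v5, v6]; module
  have g1 : ∀ z : K, 1 + z • e ∈ G := by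
    intro z
    have h1 := D.uni t hts e hes (by
      rw [br1, smul_mul_smul_comm, hee, smul_zero]) (z / 2)
    rw [br1, smul_smul, div_mul_cancel₀ z two] at h1
    exact h1
  have g2 : ∀ z : K, 1 + z • f ∈ G := by
    intro z
    have h1 := D.uni s hss f hfs (by
      rw [br2, smul_mul_smul_comm, hff, smul_zero]) (z / 2)
    rw [br2, smul_smul, div_mul_cancel₀ z two] at h1
    exact h1
  have p1 : 1 + e ∈ G := by
    have := g1 1
    rwa [one_smul] at this
  have p2 : 1 - e ∈ G := by
    have := g1 (-1)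
    rwa [neg_one_smul, ← sub_eq_add_neg] at this
  have p3 : 1 + f ∈ G := by
    have := g2 1
    rwa [one_smul] at this
  have p4 : 1 - f ∈ G := by
    have := g2 (-1)
    rwa [neg_one_smul, ← sub_eq_add_neg] at this
  have hu1 : (1 + e) * (1 - f) * (1 + e) * ((1 - e) * (1 + f) * (1 - e)) = 1 := by
    calc (1 + e) * (1 - f) * (1 + e) * ((1 - e) * (1 + f) * (1 - e))
        = (1 + e) * (1 - f) * ((1 + e) * (1 - e)) * (1 + f) * (1 - e) := by
          simp only [mul_assoc]
      _ = (1 + e) * ((1 - f) * (1 + f)) * (1 - e) := by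
          rw [m1, mul_one]
          simp only [mul_assoc]
      _ = 1 := by rw [m3, mul_one, m1]
  have hu2 : (1 - e) * (1 + f) * (1 - e) * ((1 + e) * (1 - f) * (1 + e)) = 1 := by
    calc (1 - e) * (1 + f) * (1 - e) * ((1 + e) * (1 - f) * (1 + e))
        = (1 - e) * (1 + f) * ((1 - e) * (1 + e)) * (1 - f) * (1 + e) := by
          simp only [mul_assoc]
      _ = (1 - e) * ((1 + f) * (1 - f)) * (1 + e) := by
          rw [m2, mul_one]
          simp only [mul_assoc]
      _ = 1 := by rw [m4, mul_one, m2]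
  have hu : (1 + e) * (1 - f) * (1 + e) = 1 + e - f - e * f - f * e := by
    have h1 : (1 + e) * (1 - f) * (1 + e) =
        1 + e + e + e * e - f - e * f - f * e - e * f * e := by noncomm_ring
    rw [h1, hee, hefe]
    abel
  have hst : (1 + e) * (1 - f) * (1 + e) * s = t * ((1 + e) * (1 - f) * (1 + e)) := by
    rw [hu]
    have h1 : (1 + e - f - e * f - f * e) * s = s + e * s - f * s - e * (f * s) - f * (e * s) := by
      noncomm_ring
    have h2 : t * (1 + e - f - e * f - f * e) = t + t * e - t * f - (t * e) * f - (t * f) * e := by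
      noncomm_ring
    rw [h1, h2, w4, v6, w1, v7]
    have h3 : t - s = (2 : K) • (e * f - f * e) := by
      rw [hk, smul_smul, mul_inv_cancel₀ two, one_smul]
    have h4 : t = s + (2 : K) • (e * f - f * e) := by rw [← h3]; abel
    rw [h4, mul_neg, neg_mul]
    module
  refine ⟨_, D.mul _ (D.mul _ p1 _ p4) _ p1, _, D.mul _ (D.mul _ p2 _ p3) _ p2, hu1, hu2, ?_⟩
  rw [← hs, ← ht, hst, mul_assoc, hu1, mul_one]

end PR
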