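import Pool.Agent.Helper27.PR.WPow
import Pool.Agent.Helper27.PR.WDs

/-!
Block Z3. Both classes of cocharacters in the wedge case.

Write `L = WL ω G`, `r = (2 m - 2).choose (m - 1)`, `s i = 2 p i - 1`, `s0 = 2 p0 - 1`. The trace form
on `L` is nondegenerate (`nd_form`: `L` is irreducible, `IrrSymp.inf_orth` with `I = L`). `RD L s r`
holds for `s = t j`, `- t j` (`WD.rd`, `WD.rd_neg`), so for `s0` and all conjugates (`rd_sc`).
* `even`: `Z = zof (chi L s0 r)`. `twz τ (zof (chi L s r)) = zof (chi L (τ s) r)` for `τ ∈ T` by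
  `chi_tw` (`τ (c • 1) = σ c • 1`), and `zof (chi L (g s h) r) = zof (chi L s r)` (`chi_conj`), so `Z` is
  fixed by `twz τ` if `g (τ p0) h = p0`. `negz (zof F) = zof ((-1) ^ q F)`. If `s i = t a` and
  `s i' = - t b` with `τ1, τ2` as above then `zof (chi L (t a) r) = twz τ1 Z`,
  `zof (chi L (- t b) r) = twz τ2 Z`, and `chi L (- t b) r = (-1) ^ q chi L (t b) r
  = (-1) ^ q chi L (t a) r` (`chi_neg`; `t_conj` and `chi_conj`). So
  `twz τ2 Z = negz (twz τ1 Z) = twz τ1 (negz Z)`, and `twz (τ1⁻¹ τ2) Z = negz Z`. Finally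
  `negz Z ≠ Z`: otherwise `chi L (t a) r 3 (t a) = - chi L (t a) r 3 (t a)` (transport by `τ1`), but
  `chi L (t a) r 3 (t a) = (2 m - 1) / m ^ 3 - ((2 m - 1) / m) ^ 3 ≠ 0` by `chi_t`. (`V ≠ 0`, so
  `zof F = zof F'` implies `F = F'`.)
-/

set_option linter.unusedSectionVars false
set_option linter.unusedVariables false

open Module MTP

namespace PR

variable {K : Type*} [Field K] {V : Type*} [AddCommGroup V] [Module K V] [FiniteDimensional K V]

/-- The image of a set of triples under a ring automorphism. -/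
def twz (τ : Module.End K V ≃+* Module.End K V)
    (Z : Set (ℕ × Module.End K V × Module.End K V)) :
    Set (ℕ × Module.End K V × Module.End K V) :=
  {u | ∃ v ∈ Z, u = (v.1, τ v.2.1, τ v.2.2)}

/-- The set of triples with the signs of the third component changed. -/
def negz (Z : Set (ℕ × Module.End K V × Module.End K V)) :
    Set (ℕ × Module.End K V × Module.End K V) :=
  {u | ∃ v ∈ Z, u = (v.1, v.2.1, (-1 : K) ^ v.1 • v.2.2)}

/-- The graph of a function, with scalars written as scalar operators. -/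
def zof (F : ℕ → Module.End K V → K) : Set (ℕ × Module.End K V × Module.End K V) :=
  {u | u.2.2 = F u.1 u.2.1 • (1 : Module.End K V)}

variable {ω : LinearMap.BilinForm K V} {G : Set (Module.End K V)}
  {T : Set (Module.End K V ≃+* Module.End K V)} {p0 : Module.End K V}

private lemma twz_trans_5 (τ τ' : Module.End K V ≃+* Module.End K V)
    (Z : Set (ℕ × Module.End K V × Module.End K V)) :
    twz (τ'.trans τ) Z = twz τ (twz τ' Z) := by
  ext u
  constructor
  · rintro ⟨v, hv, rfl⟩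
    exact ⟨(v.1, τ' v.2.1, τ' v.2.2), ⟨v, hv, rfl⟩, rfl⟩
  · rintro ⟨_, ⟨v, hv, rfl⟩, rfl⟩
    exact ⟨v, hv, rfl⟩

private lemma twz_symm_5 (τ : Module.End K V ≃+* Module.End K V)
    (Z : Set (ℕ × Module.End K V × Module.End K V)) : twz τ.symm (twz τ Z) = Z := by
  ext u
  constructor
  · rintro ⟨_, ⟨v, hv, rfl⟩, rfl⟩
    have h : (v.1, τ.symm (τ v.2.1), τ.symm (τ v.2.2)) = v := by
      rw [τ.symm_apply_apply, τ.symm_apply_apply]
    rw [h]
    exact hv
  · intro hu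
    refine ⟨(u.1, τ u.2.1, τ u.2.2), ⟨u, hu, rfl⟩, ?_⟩
    have h : (u.1, τ.symm (τ u.2.1), τ.symm (τ u.2.2)) = u := by
      rw [τ.symm_apply_apply, τ.symm_apply_apply]
    exact h.symm

private lemma neg_pow_smul_5 {τ : Module.End K V ≃+* Module.End K V} {σ : K ≃+* K}
    (hσ : ∀ (c : K) (x : Module.End K V), τ (c • x) = σ c • τ x) (q : ℕ) (x : Module.End K V) :
    τ ((-1 : K) ^ q • x) = (-1 : K) ^ q • τ x := by
  rw [hσ, map_pow, map_neg, map_one]

private lemma twz_negz_5 {τ : Module.End K V ≃+* Module.End K V} {σ : K ≃+* K}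
    (hσ : ∀ (c : K) (x : Module.End K V), τ (c • x) = σ c • τ x)
    (Z : Set (ℕ × Module.End K V × Module.End K V)) : twz τ (negz Z) = negz (twz τ Z) := by
  ext u
  constructor
  · rintro ⟨_, ⟨v, hv, rfl⟩, rfl⟩
    refine ⟨(v.1, τ v.2.1, τ v.2.2), ⟨v, hv, rfl⟩, ?_⟩
    simp only [neg_pow_smul_5 hσ]
  · rintro ⟨_, ⟨v, hv, rfl⟩, rfl⟩
    refine ⟨(v.1, v.2.1, (-1 : K) ^ v.1 • v.2.2), ⟨v, hv, rfl⟩, ?_⟩
    simp only [neg_pow_smul_5 hσ]

private lemma sq_sign_5 (q : ℕ) : (-1 : K) ^ q * (-1 : K) ^ q = 1 := by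
  rw [← pow_add, ← two_mul, pow_mul]
  norm_num

private lemma negz_zof_5 (F : ℕ → Module.End K V → K) :
    negz (zof F) = zof (fun q x => (-1 : K) ^ q * F q x) := by
  ext u
  constructor
  · rintro ⟨v, hv, rfl⟩
    have h1 : v.2.2 = F v.1 v.2.1 • (1 : Module.End K V) := hv
    show (-1 : K) ^ v.1 • v.2.2 = ((-1 : K) ^ v.1 * F v.1 v.2.1) • (1 : Module.End K V)
    rw [h1, smul_smul]
  · intro hu
    have h1 : u.2.2 = ((-1 : K) ^ u.1 * F u.1 u.2.1) • (1 : Module.End K V) := hu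
    refine ⟨(u.1, u.2.1, (-1 : K) ^ u.1 • u.2.2), ?_, ?_⟩
    · show (-1 : K) ^ u.1 • u.2.2 = F u.1 u.2.1 • (1 : Module.End K V)
      rw [h1, smul_smul, ← mul_assoc, sq_sign_5, one_mul]
    · show u = (u.1, u.2.1, (-1 : K) ^ u.1 • (-1 : K) ^ u.1 • u.2.2)
      rw [smul_smul, sq_sign_5, one_smul]

private lemma tw_iff_5 [CharZero K] (D : WStr ω G T)
    {τ : Module.End K V ≃+* Module.End K V} (hτ : τ ∈ T) (x : Module.End K V) :
    τ x ∈ WL ω G ↔ x ∈ WL ω G := by
  constructor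
  · intro hx
    have h1 := D.lie_tw (D.tinv τ hτ) hx
    rwa [RingEquiv.symm_apply_apply] at h1
  · intro hx
    exact D.lie_tw hτ hx

private lemma tw_inv_5 {τ : Module.End K V ≃+* Module.End K V} {σ : K ≃+* K}
    (hσ : ∀ (c : K) (x : Module.End K V), τ (c • x) = σ c • τ x) (p : Module.End K V) :
    τ ((2 : K) • p - 1) = (2 : K) • τ p - 1 := by
  rw [map_sub, map_one, hσ, map_ofNat]

private lemma conj_inv_5 {g h : Module.End K V} (hgh : g * h = 1) (p : Module.End K V) :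
    g * ((2 : K) • p - 1) * h = (2 : K) • (g * p * h) - 1 := by
  rw [mul_sub, sub_mul, mul_one, hgh, mul_smul_comm, smul_mul_assoc]

private lemma twz_zof_5 [CharZero K] (D : WStr ω G T) {s : Module.End K V} {r : ℕ}
    (R : RD (WL ω G) s (r : K)) {τ : Module.End K V ≃+* Module.End K V} (hτ : τ ∈ T) :
    twz τ (zof (chi (WL ω G) s (r : K))) = zof (chi (WL ω G) (τ s) (r : K)) := by
  obtain ⟨σ, hσ⟩ := D.semi τ hτ
  have key := fun q x => chi_tw R hσ (tw_iff_5 D hτ) (map_natCast σ r) q x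
  ext u
  constructor
  · rintro ⟨v, hv, rfl⟩
    have h1 : v.2.2 = chi (WL ω G) s (r : K) v.1 v.2.1 • (1 : Module.End K V) := hv
    show τ v.2.2 = chi (WL ω G) (τ s) (r : K) v.1 (τ v.2.1) • (1 : Module.End K V)
    rw [h1, hσ, map_one, key]
  · intro hu
    have h1 : u.2.2 = chi (WL ω G) (τ s) (r : K) u.1 u.2.1 • (1 : Module.End K V) := hu
    refine ⟨(u.1, τ.symm u.2.1, τ.symm u.2.2), ?_, ?_⟩
    · show τ.symm u.2.2 = chi (WL ω G) s (r : K) u.1 (τ.symm u.2.1) • (1 : Module.End K V)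
      apply τ.injective
      rw [τ.apply_symm_apply, hσ, map_one, ← key, τ.apply_symm_apply, h1]
    · show u = (u.1, τ (τ.symm u.2.1), τ (τ.symm u.2.2))
      rw [τ.apply_symm_apply, τ.apply_symm_apply]

theorem WStr.even [IsAlgClosed K] [CharZero K] (D : WStr ω G T) {n : ℕ} {c : Fin n → ℕ}
    {p : Fin n → Module.End K V} (N : Newt G T p0 c p) {m : ℕ} (W : WD (WL ω G) m)
    {i i' : Fin n} {a b : Fin (2 * m)} (hi : (2 : K) • p i - 1 = W.t a)
    (hi' : (2 : K) • p i' - 1 = - W.t b) :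
    ∃ Z : Set (ℕ × Module.End K V × Module.End K V),
      (∀ τ ∈ T, ∀ g ∈ G, ∀ h ∈ G, g * h = 1 → h * g = 1 → g * τ p0 * h = p0 → twz τ Z = Z) ∧
      negz Z ≠ Z ∧ ∃ τ ∈ T, twz τ Z = negz Z := by
  classical
  have hnt := D.nt
  obtain ⟨r, hr⟩ : ∃ r : ℕ, r = (2 * m - 2).choose (m - 1) := ⟨_, rfl⟩
  have hnd := D.nd_form
  have hbr : ∀ x ∈ WL ω G, ∀ y ∈ WL ω G, x * y - y * x ∈ WL ω G := fun x hx y hy =>
    lieGen_comm hx hy
  have Ra : RD (WL ω G) (W.t a) (r : K) := by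
    rw [hr]
    exact W.rd hbr hnd a
  have Rb : RD (WL ω G) (W.t b) (r : K) := by
    rw [hr]
    exact W.rd hbr hnd b
  have Rb' : RD (WL ω G) (- W.t b) (r : K) := by
    rw [hr]
    exact W.rd_neg hbr hnd b
  have hp0 : p0 ∈ SC G T p0 :=
    ⟨RingEquiv.refl _, D.tone, 1, D.one, 1, D.one, one_mul 1, one_mul 1, by
      rw [RingEquiv.refl_apply, one_mul, mul_one]⟩
  have R0 : RD (WL ω G) ((2 : K) • p0 - 1) (r : K) := by
    refine D.rd_sc (N.conj i) hp0 ?_
    rw [hi]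
    exact Ra
  set Z : Set (ℕ × Module.End K V × Module.End K V) :=
    zof (chi (WL ω G) ((2 : K) • p0 - 1) (r : K)) with hZ
  -- transport
  have tr : ∀ τ ∈ T, ∀ g ∈ G, ∀ h ∈ G, g * h = 1 → h * g = 1 →
      twz τ Z = zof (chi (WL ω G) ((2 : K) • (g * τ p0 * h) - 1) (r : K)) := by
    intro τ hτ g hg h hh hgh hhg
    obtain ⟨σ, hσ⟩ := D.semi τ hτ
    have R1 : RD (WL ω G) (τ ((2 : K) • p0 - 1)) (r : K) :=
      rd_tw R0 hσ (tw_iff_5 D hτ) (map_natCast σ r)
    rw [hZ, twz_zof_5 D R0 hτ]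
    congr 1
    funext q x
    rw [← D.chi_conj R1 hg hh hgh hhg q x, tw_inv_5 hσ, conj_inv_5 hgh]
  obtain ⟨τ1, hτ1, g1, hg1, h1, hh1, hgh1, hhg1, hp1⟩ := N.conj i
  obtain ⟨τ2, hτ2, g2, hg2, h2, hh2, hgh2, hhg2, hp2⟩ := N.conj i'
  have e1 : twz τ1 Z = zof (chi (WL ω G) (W.t a) (r : K)) := by
    rw [tr τ1 hτ1 g1 hg1 h1 hh1 hgh1 hhg1, ← hp1, hi]
  have e2 : twz τ2 Z = zof (chi (WL ω G) (- W.t b) (r : K)) := by
    rw [tr τ2 hτ2 g2 hg2 h2 hh2 hgh2 hhg2, ← hp2, hi']
  -- the two classes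
  have e3 : zof (chi (WL ω G) (- W.t b) (r : K)) = negz (zof (chi (WL ω G) (W.t a) (r : K))) := by
    rw [negz_zof_5]
    congr 1
    funext q x
    rw [chi_neg Rb Rb' hnd q x]
    obtain ⟨g, hg, h, hh, hgh, hhg, hgt⟩ := D.t_conj W hnd a b
    rw [← hgt, D.chi_conj Ra hg hh hgh hhg q x]
  obtain ⟨σ1, hσ1⟩ := D.semi τ1 hτ1
  refine ⟨Z, ?_, ?_, τ2.trans τ1.symm, D.tmul _ (D.tinv τ1 hτ1) _ hτ2, ?_⟩
  · intro τ hτ g hg h hh hgh hhg hfix
    rw [tr τ hτ g hg h hh hgh hhg, hfix]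
  · intro hneg
    have h3 : negz (zof (chi (WL ω G) (W.t a) (r : K))) = zof (chi (WL ω G) (W.t a) (r : K)) := by
      rw [← e1, ← twz_negz_5 hσ1, hneg]
    have hm3 := W.three
    have hchi : chi (WL ω G) (W.t a) (r : K) 3 (W.t a) =
        (2 * (m : K) - 1) * (1 / (m : K)) ^ 3 + (1 / (m : K) - 2) ^ 3 := by
      have h4 := W.chi_t hbr hnd a (Pi.single a 1) 3
      have h5 : ∑ l, (Pi.single a (1 : K) : Fin (2 * m) → K) l • W.t l = W.t a := by
        rw [Finset.sum_eq_single a]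
        · rw [Pi.single_eq_same, one_smul]
        · intro l _ hl
          rw [Pi.single_eq_of_ne hl, zero_smul]
        · intro h
          exact absurd (Finset.mem_univ a) h
      have h6 : ∑ l, (Pi.single a (1 : K) : Fin (2 * m) → K) l = 1 := by
        rw [Finset.sum_eq_single a]
        · rw [Pi.single_eq_same]
        · intro l _ hl
          rw [Pi.single_eq_of_ne hl]
        · intro h
          exact absurd (Finset.mem_univ a) h
      rw [h5, h6] at h4
      rw [hr, h4, ← Finset.sum_erase_add _ _ (Finset.mem_univ a)]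
      have h7 : ∑ l ∈ Finset.univ.erase a, (1 / (m : K) - 2 * (Pi.single a (1 : K) : Fin (2 * m) → K) l) ^ 3 =
          ∑ l ∈ (Finset.univ : Finset (Fin (2 * m))).erase a, (1 / (m : K)) ^ 3 := by
        refine Finset.sum_congr rfl fun l hl => ?_
        rw [Pi.single_eq_of_ne (Finset.ne_of_mem_erase hl), mul_zero, sub_zero]
      rw [h7, Finset.sum_const, Finset.card_erase_of_mem (Finset.mem_univ a), Finset.card_univ,
        Fintype.card_fin, Pi.single_eq_same, nsmul_eq_mul, Nat.cast_sub (by omega)]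
      push_cast
      ring
    have hmK : (m : K) ≠ 0 := by
      rw [Nat.cast_ne_zero]
      omega
    have hne : chi (WL ω G) (W.t a) (r : K) 3 (W.t a) ≠ 0 := by
      rw [hchi]
      intro h0
      have h4 : (m : K) ^ 3 * ((2 * (m : K) - 1) * (1 / (m : K)) ^ 3 + (1 / (m : K) - 2) ^ 3) =
          - (((2 * m - 1) * (4 * m * (m - 1)) : ℕ) : K) := by
        have h5 : ((2 * m - 1 : ℕ) : K) = 2 * (m : K) - 1 := by
          rw [Nat.cast_sub (by omega)]
          push_cast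
          ring
        have h6 : ((m - 1 : ℕ) : K) = (m : K) - 1 := by
          rw [Nat.cast_sub (by omega)]
          push_cast
          ring
        rw [Nat.cast_mul, h5, Nat.cast_mul, h6]
        push_cast
        field_simp
        ring
      rw [h0, mul_zero] at h4
      have h5 : (((2 * m - 1) * (4 * m * (m - 1)) : ℕ) : K) = 0 := by
        rw [← neg_eq_zero]
        exact h4.symm
      rw [Nat.cast_eq_zero] at h5
      have h6 : 0 < (2 * m - 1) * (4 * m * (m - 1)) := by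
        apply Nat.mul_pos (by omega)
        apply Nat.mul_pos (by omega) (by omega)
      omega
    have h8 : ((3 : ℕ), W.t a, chi (WL ω G) (W.t a) (r : K) 3 (W.t a) • (1 : Module.End K V)) ∈
        zof (chi (WL ω G) (W.t a) (r : K)) := rfl
    rw [← h3, negz_zof_5] at h8
    have h9 : chi (WL ω G) (W.t a) (r : K) 3 (W.t a) • (1 : Module.End K V) =
        ((-1 : K) ^ 3 * chi (WL ω G) (W.t a) (r : K) 3 (W.t a)) • (1 : Module.End K V) := h8
    have h10 := smul_left_injective K (one_ne_zero (α := Module.End K V)) h9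
    apply hne
    have h11 : (2 : K) * chi (WL ω G) (W.t a) (r : K) 3 (W.t a) = 0 := by
      linear_combination h10
    exact (mul_eq_zero.1 h11).resolve_left two_ne_zero
  · rw [twz_trans_5, e2, e3, ← e1, ← twz_negz_5 hσ1, twz_symm_5]

end PR
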