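import Pool.Agent.Helper27.PR.WPow
import Pool.Agent.Helper27.PR.Cnt

/-!
Block CW. The slopes in the wedge case.

`wedge_slopes`: write `2 p i - 1 = ε i • W.t (j i)` with `ε i = 1, -1` and
`β l = ∑_{i : j i = l} ε i c i` (an integer), `C = ∑ c i > 0`, `B = ∑ β l`. Then
`∑ c i (2 p i - 1) = ∑ β l t l`, and `2 nu c p = C + ∑ β l t l`. On `b I` (`WD.eig`) the eigenvalue of
`nu c p / C` is `1/2 + (B - 2 ∑_{l ∈ I} β l) / (2 C)`.
(a) All `ε i = 1`: `β ≥ 0`, `B = C`, the slope is `1 - ∑_{l ∈ I} β l / C`, the sum of `β l / C` over the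
complement of `I`: first case with `x l = β l / C`, by the bijection `I → Iᶜ` of the `m`-subsets.
(b) All `ε i = -1`: `β ≤ 0`, `B = - C`, the slope is `- ∑_{l ∈ I} β l / C`: first case, `x = - β / C`.
(c) Otherwise `pow_sum` and `symm_of_pow`: `y l = B / m - 2 β l` is a symmetric family. Put
`x l = y l / (2 C)`; since `I` has `m` elements, `∑_{l ∈ I} x l = (B - 2 ∑_I β l) / (2 C)`: second case.
`∑ |x l| ≤ 1`: for a symmetric family `∑ |y l| ≤ ∑ |y l - u|` for every `u` (pair `y l` with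
`y (e l) = - y l`: `|y - u| + |- y - u| ≥ 2 |y|`), take `u = B / m`: `∑ |y l| ≤ 2 ∑ |β l| ≤ 2 C`.
Counting: `eig_count` of `Cnt.lean`.
-/

set_option linter.unusedSectionVars false
set_option linter.unusedVariables false

open Module MTP

namespace PR

variable {K : Type*} [Field K] {V : Type*} [AddCommGroup V] [Module K V] [FiniteDimensional K V]

variable {ω : LinearMap.BilinForm K V} {G : Set (Module.End K V)}
  {T : Set (Module.End K V ≃+* Module.End K V)} {p0 : Module.End K V}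

private theorem fib_sum99 {M κ : Type*} [AddCommGroup M] [Fintype κ] [DecidableEq κ] {n : ℕ}
    (j : Fin n → κ) (a : Fin n → ℤ) (g : κ → M) :
    ∑ l, (∑ i, if j i = l then a i else 0) • g l = ∑ i, a i • g (j i) := by
  simp_rw [Finset.sum_smul]
  rw [Finset.sum_comm]
  refine Finset.sum_congr rfl fun i _ => ?_
  simp only [ite_smul, zero_smul]
  rw [Finset.sum_ite_eq Finset.univ (j i) (fun l => a i • g l)]
  simp

private theorem fib_sumQ99 {κ : Type*} [Fintype κ] [DecidableEq κ] {n : ℕ}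
    (j : Fin n → κ) (a : Fin n → ℤ) (g : κ → ℚ) :
    ∑ l, ((∑ i, if j i = l then a i else 0 : ℤ) : ℚ) * g l = ∑ i, (a i : ℚ) * g (j i) := by
  have h := fib_sum99 j a g
  simpa only [zsmul_eq_mul] using h

private theorem count99 [CharZero K] {L : Submodule K (Module.End K V)} {n : ℕ} (hn : 0 < n)
    {c : Fin n → ℕ} (hc : ∀ i, 0 < c i) {p : Fin n → Module.End K V} {m : ℕ} (W : WD L m)
    (j : Fin n → Fin (2 * m)) (e : Fin n → ℤ)
    (he : ∀ i, (2 : K) • p i - 1 = (e i : K) • W.t (j i)) (F : Finset (Fin (2 * m)) → ℚ)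
    (hF : ∀ I : Finset (Fin (2 * m)), I.card = m → ((∑ i, c i : ℕ) : ℚ) * F I =
      (∑ i, c i : ℕ) / 2 + (∑ l, ((∑ i, if j i = l then e i * c i else 0 : ℤ) : ℚ)) / 2 -
        ∑ l ∈ I, ((∑ i, if j i = l then e i * c i else 0 : ℤ) : ℚ)) (l : ℚ) :
    finrank K (Module.End.eigenspace (nu c p) (((∑ i, c i : ℕ) * l : ℚ) : K)) =
      ((Finset.powersetCard m Finset.univ).filter fun I => F I = l).card := by
  classical
  have hC : (0 : ℚ) < ((∑ i, c i : ℕ) : ℚ) := by
    have h1 : 0 < ∑ i, c i :=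
      Finset.sum_pos (fun i _ => hc i) ⟨⟨0, hn⟩, Finset.mem_univ _⟩
    exact_mod_cast h1
  have h2 : (2 : K) ≠ 0 := two_ne_zero
  have hp : ∀ i (I : {I : Finset (Fin (2 * m)) // I.card = m}), p i (W.b I) =
      (((1 + e i * (if j i ∈ I.1 then (-1 : ℚ) else 1)) / 2 : ℚ) : K) • W.b I := by
    intro i I
    have h3 := congrArg (fun f : Module.End K V => f (W.b I)) (he i)
    simp only [LinearMap.sub_apply, LinearMap.smul_apply, Module.End.one_apply, W.t_b] at h3
    have h4 : (2 : K) • p i (W.b I) = W.b I + (e i : K) • (if j i ∈ I.1 then (-1 : K) else 1) • W.b I := by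
      rw [← h3]; abel
    have h5 : p i (W.b I) = (2 : K)⁻¹ • (W.b I + (e i : K) • (if j i ∈ I.1 then (-1 : K) else 1) • W.b I) := by
      rw [← h4, smul_smul, inv_mul_cancel₀ h2, one_smul]
    rw [h5, smul_smul, smul_add, smul_smul]
    nth_rewrite 1 [← one_smul K (W.b I)]
    rw [smul_smul, ← add_smul]
    congr 1
    split_ifs <;> push_cast <;> ring
  have hnu : ∀ I : {I : Finset (Fin (2 * m)) // I.card = m}, nu c p (W.b I) =
      ((((∑ i, c i : ℕ) : ℚ) * F I.1 : ℚ) : K) • W.b I := by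
    intro I
    have h3 : nu c p (W.b I) = ∑ i, (c i) • p i (W.b I) := by
      simp only [nu, LinearMap.sum_apply, LinearMap.smul_apply]
    rw [h3]
    simp_rw [hp]
    have h4 : ∀ i, (c i) • ((((1 + e i * (if j i ∈ I.1 then (-1 : ℚ) else 1)) / 2 : ℚ) : K) • W.b I) =
        ((((c i : ℚ) * ((1 + e i * (if j i ∈ I.1 then (-1 : ℚ) else 1)) / 2)) : ℚ) : K) • W.b I := by
      intro i
      rw [← Nat.cast_smul_eq_nsmul K, smul_smul]
      congr 1
      push_cast
      ring
    simp_rw [h4]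
    rw [← Finset.sum_smul, ← Rat.cast_sum]
    congr 2
    rw [hF I.1 I.2]
    have h5 := fib_sumQ99 j (fun i => e i * c i) (fun l => if l ∈ I.1 then (-1 : ℚ) else 1)
    have h6 : ∑ l, ((∑ i, if j i = l then e i * c i else 0 : ℤ) : ℚ) * (if l ∈ I.1 then (-1 : ℚ) else 1) =
        (∑ l, ((∑ i, if j i = l then e i * c i else 0 : ℤ) : ℚ)) -
          2 * ∑ l ∈ I.1, ((∑ i, if j i = l then e i * c i else 0 : ℤ) : ℚ) := by
      rw [← Finset.sum_filter_add_sum_filter_not Finset.univ (fun l => l ∈ I.1)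
        (fun l => ((∑ i, if j i = l then e i * c i else 0 : ℤ) : ℚ)),
        ← Finset.sum_filter_add_sum_filter_not Finset.univ (fun l => l ∈ I.1)
        (fun l => ((∑ i, if j i = l then e i * c i else 0 : ℤ) : ℚ) * (if l ∈ I.1 then (-1 : ℚ) else 1))]
      have h7 : Finset.univ.filter (fun l => l ∈ I.1) = I.1 := by ext l; simp
      rw [h7]
      have h8 : ∑ l ∈ I.1, ((∑ i, if j i = l then e i * c i else 0 : ℤ) : ℚ) * (if l ∈ I.1 then (-1 : ℚ) else 1) =
          - ∑ l ∈ I.1, ((∑ i, if j i = l then e i * c i else 0 : ℤ) : ℚ) := by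
        rw [← Finset.sum_neg_distrib]
        refine Finset.sum_congr rfl fun l hl => ?_
        rw [if_pos hl]; ring
      have h9 : ∑ l ∈ Finset.univ.filter (fun l => l ∉ I.1), ((∑ i, if j i = l then e i * c i else 0 : ℤ) : ℚ) *
          (if l ∈ I.1 then (-1 : ℚ) else 1) =
          ∑ l ∈ Finset.univ.filter (fun l => l ∉ I.1), ((∑ i, if j i = l then e i * c i else 0 : ℤ) : ℚ) := by
        refine Finset.sum_congr rfl fun l hl => ?_
        rw [if_neg (Finset.mem_filter.1 hl).2, mul_one]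
      rw [h8, h9]
      ring
    rw [h6] at h5
    have h10 : ∑ i, ((c i : ℚ) * ((1 + e i * (if j i ∈ I.1 then (-1 : ℚ) else 1)) / 2)) =
        ((∑ i, c i : ℕ) : ℚ) / 2 + (∑ i, ((e i * c i : ℤ) : ℚ) * (if j i ∈ I.1 then (-1 : ℚ) else 1)) / 2 := by
      push_cast
      rw [Finset.sum_div, Finset.sum_div, ← Finset.sum_add_distrib]
      refine Finset.sum_congr rfl fun i _ => ?_
      ring
    rw [h10, ← h5]
    ring
  rw [eig_count W.b (nu c p) _ hnu]
  refine Finset.card_bij (fun I _ => I.1) ?_ ?_ ?_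
  · intro I hI
    have h3 := (Finset.mem_filter.1 hI).2
    have h4 : ((∑ i, c i : ℕ) : ℚ) * F I.1 = ((∑ i, c i : ℕ) : ℚ) * l := Rat.cast_injective h3
    exact Finset.mem_filter.2 ⟨Finset.mem_powersetCard.2 ⟨Finset.subset_univ _, I.2⟩,
      mul_left_cancel₀ hC.ne' h4⟩
  · intro I _ I' _ h
    exact Subtype.ext h
  · intro I hI
    obtain ⟨h3, h4⟩ := Finset.mem_filter.1 hI
    refine ⟨⟨I, (Finset.mem_powersetCard.1 h3).2⟩, Finset.mem_filter.2 ⟨Finset.mem_univ _, ?_⟩, rfl⟩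
    simp only [h4]

private theorem symm_le99 {k : ℕ} {y : Fin k → ℚ} (hy : Symm y) (u : ℚ) :
    ∑ l, |y l| ≤ ∑ l, |y l - u| := by
  obtain ⟨e, he⟩ := hy
  have h1 : ∑ l, |y l - u| = ∑ l, |y (e l) - u| := (Equiv.sum_comp e fun l => |y l - u|).symm
  have h2 : ∑ l, (2 * |y l|) ≤ ∑ l, (|y l - u| + |y (e l) - u|) := by
    refine Finset.sum_le_sum fun l _ => ?_
    rw [he]
    have h3 : |y l - u| + |(-y l) - u| ≥ |(y l - u) - ((-y l) - u)| := by
      have := abs_sub (y l - u) ((-y l) - u)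
      linarith
    have h4 : (y l - u) - ((-y l) - u) = 2 * y l := by ring
    rw [h4, abs_mul] at h3
    have h5 : |(2 : ℚ)| = 2 := abs_of_pos (by norm_num)
    rw [h5] at h3
    exact h3
  rw [Finset.sum_add_distrib, ← h1, ← Finset.mul_sum] at h2
  linarith

theorem WStr.wedge_slopes [IsAlgClosed K] [CharZero K] (D : WStr ω G T) {n : ℕ} (hn : 0 < n)
    {c : Fin n → ℕ} {p : Fin n → Module.End K V} (N : Newt G T p0 c p) {m : ℕ}
    (W : WD (WL ω G) m)
    (hW : ∀ i, ∃ j, (2 : K) • p i - 1 = W.t j ∨ (2 : K) • p i - 1 = - W.t j) :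
    ∃ x : Fin (2 * m) → ℚ,
      ((∀ i, 0 ≤ x i) ∧ ∑ i, x i = 1 ∧ ∀ l : ℚ,
        finrank K (Module.End.eigenspace (nu c p) (((∑ i, c i : ℕ) * l : ℚ) : K)) =
          ((Finset.powersetCard m Finset.univ).filter fun I => ∑ i ∈ I, x i = l).card) ∨
      (Symm x ∧ ∑ i, |x i| ≤ 1 ∧ (∀ l : ℚ,
        finrank K (Module.End.eigenspace (nu c p) (((∑ i, c i : ℕ) * l : ℚ) : K)) =
          ((Finset.powersetCard m Finset.univ).filter fun I => 1 / 2 + ∑ i ∈ I, x i = l).card) ∧
        ∃ (i i' : Fin n) (a b : Fin (2 * m)), (2 : K) • p i - 1 = W.t a ∧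
          (2 : K) • p i' - 1 = - W.t b) := by
  classical
  have hCN : 0 < ∑ i, c i :=
    Finset.sum_pos (fun i _ => N.pos i) ⟨⟨0, hn⟩, Finset.mem_univ _⟩
  have hC : (0 : ℚ) < ((∑ i, c i : ℕ) : ℚ) := by exact_mod_cast hCN
  have hm : 3 ≤ m := W.three
  have hmq : (m : ℚ) ≠ 0 := by
    have : (3 : ℚ) ≤ m := by exact_mod_cast hm
    linarith
  by_cases ha : ∀ i, ∃ j, (2 : K) • p i - 1 = W.t j
  · choose j hj using ha
    have he : ∀ i, (2 : K) • p i - 1 = ((1 : ℤ) : K) • W.t (j i) := fun i => by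
      rw [hj, Int.cast_one, one_smul]
    obtain ⟨β, hβ⟩ : ∃ β : Fin (2 * m) → ℤ, β = fun l => ∑ i, if j i = l then (1 : ℤ) * c i else 0 := ⟨_, rfl⟩
    have hB : ∑ l, (β l : ℚ) = ((∑ i, c i : ℕ) : ℚ) := by
      have h1 := fib_sumQ99 j (fun i => (1 : ℤ) * c i) (fun _ => (1 : ℚ))
      simp only [mul_one] at h1
      rw [hβ]
      simp only
      rw [h1]
      push_cast
      simp
    have hβ0 : ∀ l, 0 ≤ β l := by
      intro l
      rw [hβ]
      refine Finset.sum_nonneg fun i _ => ?_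
      split_ifs
      · positivity
      · exact le_refl _
    refine ⟨fun l => (β l : ℚ) / ((∑ i, c i : ℕ) : ℚ), Or.inl ⟨fun l => ?_, ?_, fun l => ?_⟩⟩
    · have h1 : (0 : ℚ) ≤ β l := by exact_mod_cast hβ0 l
      exact div_nonneg h1 hC.le
    · rw [← Finset.sum_div, hB, div_self hC.ne']
    · have h1 := count99 hn N.pos W j (fun _ => 1) he
        (fun I => ∑ l ∈ Iᶜ, (β l : ℚ) / ((∑ i, c i : ℕ) : ℚ)) (by
          intro I hI
          have h2 : (∑ l, ((∑ i, if j i = l then (1 : ℤ) * c i else 0 : ℤ) : ℚ)) = ((∑ i, c i : ℕ) : ℚ) := by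
            rw [← hB, hβ]
          have h3 : ∑ l ∈ I, ((∑ i, if j i = l then (1 : ℤ) * c i else 0 : ℤ) : ℚ) = ∑ l ∈ I, (β l : ℚ) := by
            rw [hβ]
          rw [h2, h3, ← Finset.sum_div, mul_div_cancel₀ _ hC.ne']
          have h4 := Finset.sum_add_sum_compl I (fun l => (β l : ℚ))
          rw [hB] at h4
          linarith) l
      rw [h1]
      refine Finset.card_nbij' (fun I => Iᶜ) (fun I => Iᶜ) ?_ ?_ ?_ ?_
      · intro I hI
        rw [Finset.mem_coe, Finset.mem_filter, Finset.mem_powersetCard] at hI ⊢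
        refine ⟨⟨Finset.subset_univ _, ?_⟩, hI.2⟩
        rw [Finset.card_compl, Fintype.card_fin, hI.1.2]
        omega
      · intro I hI
        rw [Finset.mem_coe, Finset.mem_filter, Finset.mem_powersetCard] at hI ⊢
        refine ⟨⟨Finset.subset_univ _, ?_⟩, ?_⟩
        · rw [Finset.card_compl, Fintype.card_fin, hI.1.2]
          omega
        · rw [compl_compl]
          exact hI.2
      · intro I _
        exact compl_compl I
      · intro I _
        exact compl_compl I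
  by_cases hb : ∀ i, ∃ j, (2 : K) • p i - 1 = - W.t j
  · choose j hj using hb
    have he : ∀ i, (2 : K) • p i - 1 = ((-1 : ℤ) : K) • W.t (j i) := fun i => by
      rw [hj, Int.cast_neg, Int.cast_one, neg_smul, one_smul]
    obtain ⟨β, hβ⟩ : ∃ β : Fin (2 * m) → ℤ, β = fun l => ∑ i, if j i = l then (-1 : ℤ) * c i else 0 := ⟨_, rfl⟩
    have hB : ∑ l, (β l : ℚ) = - ((∑ i, c i : ℕ) : ℚ) := by
      have h1 := fib_sumQ99 j (fun i => (-1 : ℤ) * c i) (fun _ => (1 : ℚ))
      simp only [mul_one] at h1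
      rw [hβ]
      simp only
      rw [h1]
      push_cast
      simp
    have hβ0 : ∀ l, β l ≤ 0 := by
      intro l
      rw [hβ]
      refine Finset.sum_nonpos fun i _ => ?_
      split_ifs
      · have : (0 : ℤ) ≤ c i := by positivity
        linarith
      · exact le_refl _
    refine ⟨fun l => - (β l : ℚ) / ((∑ i, c i : ℕ) : ℚ), Or.inl ⟨fun l => ?_, ?_, fun l => ?_⟩⟩
    · have h1 : (β l : ℚ) ≤ 0 := by exact_mod_cast hβ0 l
      exact div_nonneg (by linarith) hC.le
    · rw [← Finset.sum_div, Finset.sum_neg_distrib, hB, neg_neg, div_self hC.ne']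
    · exact count99 hn N.pos W j (fun _ => -1) he
        (fun I => ∑ l ∈ I, - (β l : ℚ) / ((∑ i, c i : ℕ) : ℚ)) (by
          intro I hI
          have h2 : (∑ l, ((∑ i, if j i = l then (-1 : ℤ) * c i else 0 : ℤ) : ℚ)) = - ((∑ i, c i : ℕ) : ℚ) := by
            rw [← hB, hβ]
          have h3 : ∑ l ∈ I, ((∑ i, if j i = l then (-1 : ℤ) * c i else 0 : ℤ) : ℚ) = ∑ l ∈ I, (β l : ℚ) := by
            rw [hβ]
          rw [h2, h3, ← Finset.sum_div, mul_div_cancel₀ _ hC.ne', Finset.sum_neg_distrib]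
          ring) l
  · have hab : ∃ i a, (2 : K) • p i - 1 = W.t a := by
      push Not at hb
      obtain ⟨i, hi⟩ := hb
      obtain ⟨a, h1 | h1⟩ := hW i
      · exact ⟨i, a, h1⟩
      · exact absurd h1 (hi a)
    have hab' : ∃ i b, (2 : K) • p i - 1 = - W.t b := by
      push Not at ha
      obtain ⟨i, hi⟩ := ha
      obtain ⟨a, h1 | h1⟩ := hW i
      · exact absurd h1 (hi a)
      · exact ⟨i, a, h1⟩
    obtain ⟨i₀, a, hia⟩ := hab
    obtain ⟨i₁, b, hib⟩ := hab'
    have hje : ∀ i, ∃ (j : Fin (2 * m)) (e : ℤ), |e| = 1 ∧ (2 : K) • p i - 1 = (e : K) • W.t j := by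
      intro i
      obtain ⟨j, h1 | h1⟩ := hW i
      · exact ⟨j, 1, by simp, by rw [h1, Int.cast_one, one_smul]⟩
      · exact ⟨j, -1, by simp, by rw [h1, Int.cast_neg, Int.cast_one, neg_smul, one_smul]⟩
    choose j e he1 he using hje
    obtain ⟨β, hβ⟩ : ∃ β : Fin (2 * m) → ℤ, β = fun l => ∑ i, if j i = l then e i * c i else 0 := ⟨_, rfl⟩
    have hsum : ∑ i, (c i : K) • ((2 : K) • p i - 1) = ∑ l, (β l : K) • W.t l := by
      have h1 := fib_sum99 j (fun i => e i * c i) W.t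
      have h2 : ∑ l, (β l : K) • W.t l = ∑ l, (β l) • W.t l :=
        Finset.sum_congr rfl fun l _ => Int.cast_smul_eq_zsmul K _ _
      rw [h2, hβ, h1]
      refine Finset.sum_congr rfl fun i _ => ?_
      rw [he, smul_smul, ← Int.cast_smul_eq_zsmul K]
      congr 1
      push_cast
      ring
    have hpow := fun q => D.pow_sum N W hia hib hsum q
    have hsy := symm_of_pow _ hpow
    obtain ⟨B, hBdef⟩ : ∃ B : ℚ, B = ((∑ i, β i : ℤ) : ℚ) := ⟨_, rfl⟩
    rw [← hBdef] at hsy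
    have hB : ∑ l, (β l : ℚ) = B := by rw [hBdef]; push_cast; rfl
    refine ⟨fun l => (B / m - 2 * β l) / (2 * ((∑ i, c i : ℕ) : ℚ)), Or.inr ⟨?_, ?_, fun l => ?_, i₀, i₁, a, b, hia, hib⟩⟩
    · obtain ⟨σ, hσ⟩ := hsy
      refine ⟨σ, fun l => ?_⟩
      have h1 := hσ l
      simp only at h1 ⊢
      rw [h1]
      ring
    · have h1 := symm_le99 hsy (B / m)
      have h2 : ∑ l, |(B / m - 2 * (β l : ℚ)) - B / m| = 2 * ∑ l, |(β l : ℚ)| := by
        rw [Finset.mul_sum]
        refine Finset.sum_congr rfl fun l _ => ?_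
        have h3 : (B / m - 2 * (β l : ℚ)) - B / m = -(2 * (β l : ℚ)) := by ring
        rw [h3, abs_neg, abs_mul, abs_of_pos (show (0 : ℚ) < 2 by norm_num)]
      have h3 : ∑ l, |(β l : ℚ)| ≤ ((∑ i, c i : ℕ) : ℚ) := by
        have h4 : ∀ l, |(β l : ℚ)| ≤ ((∑ i, if j i = l then (c i : ℤ) else 0 : ℤ) : ℚ) := by
          intro l
          have h5 : |β l| ≤ ∑ i, if j i = l then (c i : ℤ) else 0 := by
            rw [hβ]
            refine (Finset.abs_sum_le_sum_abs _ _).trans (Finset.sum_le_sum fun i _ => ?_)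
            split_ifs
            · rw [abs_mul, he1, one_mul, abs_of_nonneg (show (0 : ℤ) ≤ c i by positivity)]
            · simp
          rw [← Int.cast_abs]
          exact_mod_cast h5
        refine (Finset.sum_le_sum fun l _ => h4 l).trans (le_of_eq ?_)
        have h6 := fib_sumQ99 j (fun i => (c i : ℤ)) (fun _ => (1 : ℚ))
        simp only [mul_one] at h6
        rw [h6]
        push_cast
        rfl
      have h4 : ∀ l, |(B / m - 2 * (β l : ℚ)) / (2 * ((∑ i, c i : ℕ) : ℚ))| =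
          |B / m - 2 * (β l : ℚ)| / (2 * ((∑ i, c i : ℕ) : ℚ)) := by
        intro l
        rw [abs_div, abs_of_pos (show (0 : ℚ) < 2 * ((∑ i, c i : ℕ) : ℚ) by linarith)]
      simp only [h4]
      rw [← Finset.sum_div, div_le_one (by linarith)]
      linarith
    · exact count99 hn N.pos W j e he
        (fun I => 1 / 2 + ∑ l ∈ I, (B / m - 2 * (β l : ℚ)) / (2 * ((∑ i, c i : ℕ) : ℚ))) (by
          intro I hI
          have h2 : (∑ l, ((∑ i, if j i = l then e i * c i else 0 : ℤ) : ℚ)) = B := by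
            rw [← hB, hβ]
          have h3 : ∑ l ∈ I, ((∑ i, if j i = l then e i * c i else 0 : ℤ) : ℚ) = ∑ l ∈ I, (β l : ℚ) := by
            rw [hβ]
          rw [h2, h3, ← Finset.sum_div, Finset.sum_sub_distrib, Finset.sum_const, hI, nsmul_eq_mul,
            ← Finset.mul_sum, mul_div_cancel₀ _ hmq]
          field_simp
          ring) l

end PR
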