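import Pool.Agent.Helper27.PR.StrB
import Pool.Agent.Helper27.PR.StrW
import Pool.Agent.Helper27.PR.Ten
import Pool.Agent.Helper27.PR.Full
import Pool.Agent.Helper27.PR.Orb
import Pool.Agent.Helper27.PR.WPol
import Pool.Agent.Helper27.PR.WEven
import Pool.Agent.Helper27.PR.Cnt
import Pool.Agent.Helper43.PR.Class
import Pool.Agent.Helper93.SR.Strong

/-!
A symplectic Mumford-Tate pair with symmetries whose slopes contain one with an odd multiplicity is
full or one of the three exceptional types.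
-/

set_option linter.unusedSectionVars false
set_option linter.unusedVariables false

open Module MTPairs MTP

attribute [local instance 100] LieRing.ofAssociativeRing

namespace PR

lemma eq_map_of_count {ι : Type*} (s : Finset ι) (f : ι → ℚ) (Λ : Multiset ℚ)
    (h : ∀ l, Λ.count l = (s.filter (fun i => f i = l)).card) : Λ = s.val.map f := by
  ext l
  rw [h l, Multiset.count_map, Finset.card_def, Finset.filter_val]
  congr 1
  exact Multiset.filter_congr fun x _ => eq_comm

section abs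

variable {K : Type*} [Field K] {V : Type*} [AddCommGroup V] [Module K V] [FiniteDimensional K V]
variable {ω : LinearMap.BilinForm K V} {G : Set (Module.End K V)}
  {T : Set (Module.End K V ≃+* Module.End K V)} {p0 : Module.End K V}

lemma invol {p : Module.End K V} (hp : p * p = p) :
    ((2 : K) • p - 1) * ((2 : K) • p - 1) = 1 := by
  simp only [sub_mul, mul_sub, smul_mul_assoc, mul_smul_comm, hp, mul_one, one_mul]
  module

/-- The simple case. -/
theorem WStr.simple_case [IsAlgClosed K] [CharZero K] (D : WStr ω G T) (hS : Smp (WL ω G))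
    (hsk : IsSk ω ((2 : K) • p0 - 1)) {n : ℕ} (hn : 0 < n) {c : Fin n → ℕ}
    {p : Fin n → Module.End K V} (N : Newt G T p0 c p) :
    (∀ z, IsSk ω z → z ∈ WL ω G) ∨
    (∃ m, ∃ W : WD (WL ω G) m, ∀ i, ∃ j, (2 : K) • p i - 1 = W.t j ∨
      (2 : K) • p i - 1 = - W.t j) ∨
    (∃ q, (q % 4 = 1 ∨ q % 4 = 2) ∧ 5 ≤ q ∧
      ∃ b : Basis {I : Finset (Fin (q + 1)) // Even I.card} K V,
        ∀ i, ∃ j : Fin (q + 1), (q % 4 = 2 → j ≠ 0) ∧
          ((∀ I, ((2 : K) • p i - 1) (b I) = (if j ∈ I.1 then (-1 : K) else 1) • b I) ∨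
            (∀ I, ((2 : K) • p i - 1) (b I) = (if j ∈ I.1 then (1 : K) else -1) • b I))) := by
  have hV := D.nt
  have hC := D.ctx
  have hbr : ∀ x ∈ WL ω G, ∀ y ∈ WL ω G, x * y - y * x ∈ WL ω G := hC.irr.br
  have hs0 : (2 : K) • p0 - 1 ∈ WL ω G := hC.inv _ ⟨p0, N.base, hsk, rfl⟩ |>.1
  have hsq : ((2 : K) • p0 - 1) * ((2 : K) • p0 - 1) = 1 := invol N.base.1
  have hne : (2 : K) • p0 - 1 ≠ 0 := by
    intro h
    rw [h, mul_zero] at hsq
    exact zero_ne_one hsq
  have hnc : ∃ y ∈ WL ω G, ((2 : K) • p0 - 1) * y - y * ((2 : K) • p0 - 1) ≠ 0 := by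
    by_contra hcon
    push Not at hcon
    exact hne (hC.irr.center D.nd hs0 fun y hy => sub_eq_zero.mp (hcon y hy))
  obtain ⟨y, hy, hyc⟩ := hnc
  have hsimple := toLie_simple hbr hS hs0 hy hyc
  have hmem : ∀ i, IsSk ω ((2 : K) • p i - 1) ∧ (2 : K) • p i - 1 ∈ WL ω G :=
    fun i => D.sk_of_sc N.base hsk (N.conj i)
  have hid : ∀ i, p i * p i = p i := fun i => (D.cc_of_sc N.base (N.conj i)).1
  exact class_com (L := toLie (WL ω G) hbr) (S0 := WI ω G) hC D.alt hsimple hn
    (fun i => (2 : K) • p i - 1) (fun i => (hmem i).2) (fun i => invol (hid i))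
    (fun i j => by
      have := N.comm i j
      simp only [sub_mul, mul_sub, smul_mul_assoc, mul_smul_comm, mul_one, one_mul, this]
      module)

end abs

section conc

variable {K : Type*} [Field K] {m : Type*} [Fintype m] [DecidableEq m]
  {Γ : Subgroup (Equiv.Perm (m → K))} {J : Matrix m m K}
  {G : Subgroup (Matrix.GeneralLinearGroup m K)} {π : Matrix m m K}

/-- The action of the permutations of `K^m` on the sets of endomorphisms. -/
def actS (θ : Equiv.Perm (m → K)) (S : Set (Module.End K (m → K))) :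
    Set (Module.End K (m → K)) :=
  {y | ∃ x ∈ S, ∀ v, y (θ v) = θ (x v)}

/-- The action of the permutations of `K^m` on the sets of triples. -/
def actZ (θ : Equiv.Perm (m → K))
    (Z : Set (ℕ × Module.End K (m → K) × Module.End K (m → K))) :
    Set (ℕ × Module.End K (m → K) × Module.End K (m → K)) :=
  {u | ∃ v ∈ Z, u.1 = v.1 ∧ (∀ w, u.2.1 (θ w) = θ (v.2.1 w)) ∧ ∀ w, u.2.2 (θ w) = θ (v.2.2 w)}

lemma eq_of_perm {θ : Equiv.Perm (m → K)} {y y' : Module.End K (m → K)}
    (h : ∀ v, y (θ v) = y' (θ v)) : y = y' := by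
  apply LinearMap.ext
  intro v
  have := h (θ.symm v)
  rwa [Equiv.apply_symm_apply] at this

lemma actS_eq {θ : Equiv.Perm (m → K)} {τ : Module.End K (m → K) ≃+* Module.End K (m → K)}
    (hτ : ∀ (x : Module.End K (m → K)) (v : m → K), τ x (θ v) = θ (x v))
    (S : Set (Module.End K (m → K))) : actS θ S = τ '' S := by
  ext y
  constructor
  · rintro ⟨x, hx, h⟩
    exact ⟨x, hx, eq_of_perm fun v => by rw [hτ, h]⟩
  · rintro ⟨x, hx, rfl⟩
    exact ⟨x, hx, hτ x⟩

lemma actZ_eq {θ : Equiv.Perm (m → K)} {τ : Module.End K (m → K) ≃+* Module.End K (m → K)}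
    (hτ : ∀ (x : Module.End K (m → K)) (v : m → K), τ x (θ v) = θ (x v))
    (Z : Set (ℕ × Module.End K (m → K) × Module.End K (m → K))) : actZ θ Z = twz τ Z := by
  ext ⟨a, b, c⟩
  constructor
  · rintro ⟨⟨a', x, y⟩, hx, h1, h2, h3⟩
    refine ⟨_, hx, ?_⟩
    simp only at h1 h2 h3 ⊢
    rw [h1, eq_of_perm (θ := θ) (y := b) (y' := τ x) fun v => by rw [hτ, h2],
      eq_of_perm (θ := θ) (y := c) (y' := τ y) fun v => by rw [hτ, h3]]
  · rintro ⟨⟨a', x, y⟩, hx, h⟩
    simp only [Prod.mk.injEq] at h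
    obtain ⟨rfl, rfl, rfl⟩ := h
    exact ⟨_, hx, rfl, hτ x, hτ y⟩

lemma actS_one (S : Set (Module.End K (m → K))) : actS 1 S = S := by
  rw [actS_eq (τ := RingEquiv.refl _) (fun x v => rfl)]
  simp

lemma actZ_one (Z : Set (ℕ × Module.End K (m → K) × Module.End K (m → K))) : actZ 1 Z = Z := by
  rw [actZ_eq (τ := RingEquiv.refl _) (fun x v => rfl)]
  ext u
  constructor
  · rintro ⟨v, hv, rfl⟩
    exact hv
  · intro hu
    exact ⟨u, hu, rfl⟩

lemma twz_trans (τ τ' : Module.End K (m → K) ≃+* Module.End K (m → K))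
    (Z : Set (ℕ × Module.End K (m → K) × Module.End K (m → K))) :
    twz (τ'.trans τ) Z = twz τ (twz τ' Z) := by
  ext u
  constructor
  · rintro ⟨v, hv, rfl⟩
    exact ⟨_, ⟨v, hv, rfl⟩, rfl⟩
  · rintro ⟨_, ⟨v, hv, rfl⟩, rfl⟩
    exact ⟨v, hv, rfl⟩

lemma actS_mul (hG : IsGalPair Γ J G) {a b : Equiv.Perm (m → K)} (ha : a ∈ Γ) (hb : b ∈ Γ)
    (S : Set (Module.End K (m → K))) : actS (a * b) S = actS a (actS b S) := by
  obtain ⟨τ, _, hτ⟩ := exists_te hG ha
  obtain ⟨τ', _, hτ'⟩ := exists_te hG hb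
  rw [actS_eq hτ, actS_eq hτ', actS_eq (τ := τ'.trans τ) (fun x v => by
    rw [RingEquiv.trans_apply, Equiv.Perm.mul_apply, hτ, hτ']; rfl)]
  ext y
  constructor
  · rintro ⟨x, hx, rfl⟩
    exact ⟨_, ⟨x, hx, rfl⟩, rfl⟩
  · rintro ⟨_, ⟨x, hx, rfl⟩, rfl⟩
    exact ⟨x, hx, rfl⟩

lemma actZ_mul (hG : IsGalPair Γ J G) {a b : Equiv.Perm (m → K)} (ha : a ∈ Γ) (hb : b ∈ Γ)
    (Z : Set (ℕ × Module.End K (m → K) × Module.End K (m → K))) :
    actZ (a * b) Z = actZ a (actZ b Z) := by
  obtain ⟨τ, _, hτ⟩ := exists_te hG ha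
  obtain ⟨τ', _, hτ'⟩ := exists_te hG hb
  rw [actZ_eq hτ, actZ_eq hτ', actZ_eq (τ := τ'.trans τ) (fun x v => by
    rw [RingEquiv.trans_apply, Equiv.Perm.mul_apply, hτ, hτ']; rfl), twz_trans]

lemma negz_negz (Z : Set (ℕ × Module.End K (m → K) × Module.End K (m → K))) :
    negz (negz Z) = Z := by
  have key : ∀ v : ℕ × Module.End K (m → K) × Module.End K (m → K),
      (v.1, v.2.1, (-1 : K) ^ v.1 • ((-1 : K) ^ v.1 • v.2.2)) = v := by
    intro v
    rw [smul_smul, ← mul_pow, neg_one_mul, neg_neg, one_pow, one_smul]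
  ext u
  constructor
  · rintro ⟨_, ⟨v, hv, rfl⟩, rfl⟩
    simp only
    rw [key]
    exact hv
  · intro hu
    exact ⟨_, ⟨u, hu, rfl⟩, (key u).symm⟩

lemma twz_negz (τ : Module.End K (m → K) ≃+* Module.End K (m → K))
    (Z : Set (ℕ × Module.End K (m → K) × Module.End K (m → K))) :
    twz τ (negz Z) = negz (twz τ Z) := by
  have key : ∀ (a : ℕ) (x : Module.End K (m → K)),
      τ ((-1 : K) ^ a • x) = (-1 : K) ^ a • τ x := by
    intro a x
    rcases Nat.even_or_odd a with h | h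
    · rw [h.neg_one_pow, one_smul, one_smul]
    · have e : ∀ y : Module.End K (m → K), (-1 : K) • y = - y := fun y => by module
      rw [h.neg_one_pow, e, e, map_neg]
  ext u
  constructor
  · rintro ⟨_, ⟨v, hv, rfl⟩, rfl⟩
    refine ⟨_, ⟨v, hv, rfl⟩, ?_⟩
    simp only [key]
  · rintro ⟨_, ⟨v, hv, rfl⟩, rfl⟩
    refine ⟨_, ⟨v, hv, rfl⟩, ?_⟩
    simp only [key]

/-- The Newton polygon theorem for pairs without ideals stable under the symmetries. -/
theorem forward_core [IsAlgClosed K] [CharZero K] {Λ : Multiset ℚ} {N : ℕ} (hG : IsGalPair Γ J G)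
    (hirr : IsIrr G) (hπ : IsCochar G π) (hΛ : HasSlopes Γ G π Λ) (hN : HasIndex Γ G π N)
    (hpos : 0 < Λ.card) (hsk : IsSk (Matrix.toBilin' J) ((2 : K) • Matrix.toLin' π - 1))
    (hS : TSmp (WL (Matrix.toBilin' J) (GE G)) (TE Γ)) :
    (∀ g : Matrix.GeneralLinearGroup m K,
      (∃ c : K, (g : Matrix m m K).transpose * J * (g : Matrix m m K) = c • J) → g ∈ G) ∨
    TensorPolygon Λ N ∨ WedgePolygon Λ N ∨ SpinPolygon Λ := by
  classical
  obtain ⟨n, c, p, NN, hcard, hcount⟩ := newt_of_slopes hG hπ hΛ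
  have : Nonempty m := by
    rw [← Fintype.card_pos_iff, ← hcard]
    exact hpos
  have D := wstr hG hirr
  have hn : 0 < n := by
    rcases Nat.eq_zero_or_pos n with h0 | h0
    · exfalso
      subst h0
      have h1 : ∀ l : ℚ, Λ.count l = Λ.card := by
        intro l
        rw [← hcount l, hcard]
        have e1 : nu c p = 0 := by simp [nu]
        have e2 : (((∑ i, c i : ℕ) * l : ℚ) : K) = 0 := by simp
        rw [e1, e2]
        have e3 : Module.End.eigenspace (0 : Module.End K (m → K)) 0 = ⊤ := by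
          rw [Module.End.eigenspace_zero]
          exact LinearMap.ker_zero
        rw [e3, finrank_top, Module.finrank_pi]
      obtain ⟨x, hx⟩ := Multiset.card_pos_iff_exists_mem.mp hpos
      have h2 := Multiset.count_eq_card.mp (h1 0) x hx
      have h3 := Multiset.count_eq_card.mp (h1 1) x hx
      rw [← h2] at h3
      exact one_ne_zero h3
    · exact h0
  have hs0 : (2 : K) • Matrix.toLin' π - 1 ∈ WL (Matrix.toBilin' J) (GE G) :=
    (D.ctx.inv _ ⟨_, NN.base, hsk, rfl⟩).1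
  have hsq : ((2 : K) • Matrix.toLin' π - 1) * ((2 : K) • Matrix.toLin' π - 1) = 1 :=
    invol NN.base.1
  have hV := D.nt
  have hL0 : WL (Matrix.toBilin' J) (GE G) ≠ ⊥ := by
    intro h
    rw [h, Submodule.mem_bot] at hs0
    rw [hs0, mul_zero] at hsq
    exact zero_ne_one hsq
  obtain ⟨k, d, ρ, ε, hk, hd, hρ, hdec, hk1⟩ :=
    dec D.ctx.irr D.nd D.alt hL0 (fun τ hτ => D.isTw hτ) hS
  obtain ⟨Γ', hle, hrel, hstab⟩ := index_of hG hN
  by_cases hk' : k = 1
  · rcases D.simple_case (hk1 hk') hsk hn NN with h | ⟨a, W, hW⟩ | ⟨q, hq, h5, b, hb⟩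
    · left
      intro g hg
      exact full_of_sk hG.toIsMTPair hirr h g hg
    · right; right; left
      rcases D.wedge_slopes hn NN W hW with ⟨x, ⟨hx0, hx1, hx⟩ | ⟨hx0, hx1, hx, i, i', j, j', hi, hi'⟩⟩
      · refine ⟨a, x, W.three, W.odd, Or.inl ⟨hx0, hx1, ?_⟩⟩
        apply eq_map_of_count
        intro l
        rw [← hcount l, hx l]
      · refine ⟨a, x, W.three, W.odd, Or.inr ⟨?_, hx0, hx1, ?_⟩⟩
        · obtain ⟨Z, hZ1, hZ2, τ, hτ, hZ3⟩ := D.even NN W hi hi'
          obtain ⟨θ, hθ, hθτ⟩ := hτ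
          have := two_dvd_index hle (actZ (K := K) (m := m)) actZ_one
            (fun a ha b hb x => actZ_mul hG ha hb x) negz
            (fun a ha x => by
              obtain ⟨τ', _, hτ'⟩ := exists_te hG ha
              rw [actZ_eq hτ', actZ_eq hτ', twz_negz]) Z (negz_negz Z) hZ2
            (fun a ha => by
              obtain ⟨τ', hτ1, hτ'⟩ := exists_te hG (hle ha)
              rw [actZ_eq hτ']
              obtain ⟨g, hg, h, hh, hgh, hhg, hfix⟩ := hstab a ha τ' hτ'
              exact hZ1 τ' hτ1 g hg h hh hgh hhg hfix) hθ (by rw [actZ_eq hθτ, hZ3])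
          rw [hrel] at this
          exact even_iff_two_dvd.mpr this
        · apply eq_map_of_count
          intro l
          rw [← hcount l, hx l]
    · right; right; right
      obtain ⟨x, hx0, hx1, hx⟩ := spin_slopes hn NN.pos b hb
      refine ⟨q, x, h5, ?_, hx1, ?_⟩
      · rcases hq with hq | hq
        · exact Or.inl hq
        · exact Or.inr ⟨hq, hx0 hq⟩
      · apply eq_map_of_count
        intro l
        rw [← hcount l, hx l]
  · right; left
    obtain ⟨hd2, a, ha1, ha2, ha⟩ := D.tensor hS hsk hn NN hd hρ hdec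
    have hk3 : 3 ≤ k := by
      obtain ⟨r, hr⟩ := hk
      omega
    refine ⟨k, d, a, hk3, hk, ?_, hd2, ha1, ha2, ?_⟩
    · obtain ⟨I, hI1, hI2⟩ := D.orbit hS NN.base hsk hρ hdec
      have := dvd_index hle (actS (K := K) (m := m)) actS_one
        (fun a ha b hb x => actS_mul hG ha hb x) (I : Set (Module.End K (m → K)))
        (fun a ha => by
          obtain ⟨τ', hτ1, hτ'⟩ := exists_te hG (hle ha)
          rw [actS_eq hτ']
          obtain ⟨g, hg, h, hh, hgh, hhg, hfix⟩ := hstab a ha τ' hτ'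
          exact hI1 τ' hτ1 g hg h hh hgh hhg hfix) (k := k) (by omega) (by
        rw [← hI2]
        congr 1
        ext S
        constructor
        · rintro ⟨θ, hθ, rfl⟩
          obtain ⟨τ', hτ1, hτ'⟩ := exists_te hG hθ
          exact ⟨τ', hτ1, actS_eq hτ' _⟩
        · rintro ⟨τ, ⟨θ, hθ, hθτ⟩, rfl⟩
          exact ⟨θ, hθ, (actS_eq hθτ _).symm⟩)
      rw [hrel] at this
      exact this
    · apply eq_map_of_count
      intro l
      rw [← hcount l, ha l]

/-- **The Newton polygon theorem.** A pair whose slopes contain one with an odd multiplicity is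
full or the slopes are of one of the three exceptional types. -/
theorem forward [IsAlgClosed K] [CharZero K] {Λ : Multiset ℚ} {N : ℕ} (hG : IsGalPair Γ J G)
    (hirr : IsIrr G) (hπ : IsCochar G π) (hΛ : HasSlopes Γ G π Λ) (hN : HasIndex Γ G π N)
    (hodd : ∃ l, Odd (Λ.count l)) :
    (∀ g : Matrix.GeneralLinearGroup m K,
      (∃ c : K, (g : Matrix m m K).transpose * J * (g : Matrix m m K) = c • J) → g ∈ G) ∨
    TensorPolygon Λ N ∨ WedgePolygon Λ N ∨ SpinPolygon Λ := by
  obtain ⟨l, hl⟩ := hodd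
  obtain ⟨n, c, p, NN, hcard, hcount⟩ := newt_of_slopes hG hπ hΛ
  have hpos : 0 < Λ.card := lt_of_lt_of_le hl.pos (Multiset.count_le_card _ _)
  have : Nonempty m := by
    rw [← Fintype.card_pos_iff, ← hcard]
    exact hpos
  have D := wstr hG hirr
  obtain ⟨hsk, hS⟩ := D.tsmp NN (μ := (((∑ i, c i : ℕ) * l : ℚ) : K)) (by rw [hcount]; exact hl)
  exact forward_core hG hirr hπ hΛ hN hpos hsk hS

end conc

end PR
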