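import Pool.Agent.Helper27.PR.Str
import Pool.Agent.Helper27.PR.Defs

/-!
The group of a pair as a set of endomorphisms of `K^m`.
-/

open Module MTPairs MTP

namespace PR

variable {K : Type*} [Field K] {m : Type*} [Fintype m] [DecidableEq m]
  {Γ : Subgroup (Equiv.Perm (m → K))} {J : Matrix m m K}
  {G : Subgroup (Matrix.GeneralLinearGroup m K)} {π : Matrix m m K}

/-- The elements of `G` as endomorphisms. -/
def GE (G : Subgroup (Matrix.GeneralLinearGroup m K)) : Set (Module.End K (m → K)) :=
  {a | ∃ g ∈ G, a = Matrix.toLin' (g : Matrix m m K)}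

/-- The symmetries of the algebra of endomorphisms induced by `Γ`. -/
def TE (Γ : Subgroup (Equiv.Perm (m → K))) :
    Set (Module.End K (m → K) ≃+* Module.End K (m → K)) :=
  {τ | ∃ θ ∈ Γ, ∀ (x : Module.End K (m → K)) (v : m → K), τ x (θ v) = θ (x v)}

theorem mem_cc {P : Matrix m m K} : Matrix.toLin' P ∈ CC (GE G) ↔ IsCochar G P := by
  have key : ∀ t : K, (1 : Module.End K (m → K)) + (t - 1) • Matrix.toLin' P =
      Matrix.toLin' (t • P + (1 - P)) := by
    intro t
    have e : t • P + (1 - P) = 1 + (t - 1) • P := by module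
    rw [e, map_add, map_smul, Matrix.toLin'_one]
    rfl
  constructor
  · rintro ⟨h1, h2⟩
    refine ⟨?_, fun t ht => ?_⟩
    · apply Matrix.toLin'.injective
      rw [Matrix.toLin'_mul]
      exact h1
    · obtain ⟨g, hg, hgt⟩ := h2 t ht
      refine ⟨g, hg, ?_⟩
      apply Matrix.toLin'.injective
      rw [← hgt, key]
  · rintro ⟨h1, h2⟩
    refine ⟨?_, fun t ht => ?_⟩
    · have := congrArg Matrix.toLin' h1
      rw [Matrix.toLin'_mul] at this
      exact this
    · obtain ⟨g, hg, hgt⟩ := h2 t ht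
      exact ⟨g, hg, by rw [key, hgt]⟩

end PR
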