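import Pool.Agent.Helper27.PR.GE
import Pool.Agent.Helper93.SR.NormC

/-!
Block W1. Invariance of traces of powers under the group: field `genC` of `WStr`.

The subgroup `H` of the `g ∈ G` such that `g X g⁻¹ ∈ M` for all `X ∈ M` and
`tr (R (g X g⁻¹) ^ q) = tr (R X ^ q)` for all `X ∈ M` (it is closed under inverses: `g X g⁻¹ ∈ M`
for all `X ∈ M` implies `g⁻¹ X g ∈ M` by dimension, and then `X = g (g⁻¹ X g) g⁻¹`) is Zariski
closed: with the matrix of polynomials `cpol X = Y X adj Y` of
`Pool/Agent/Helper93/SR/NormC.lean`, whose value at `g` is `det g • g X g⁻¹`, the second condition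
is `tr ((∑ R (E i j) cpol X i j) ^ q) = det ^ q * tr (R X ^ q)`, a polynomial equation in the
entries of `g` (`E i j` the matrix units; the matrix `∑ R (E i j) cpol X i j` has polynomial
entries), and the first one is in `closed_normaliser`. `H` has the same cocharacters as `G`
(`mem_cc`), so `G ≤ H` by `IsMTPair.gen`.
-/

set_option linter.unusedSectionVars false
set_option linter.unusedVariables false

open Module MTPairs MTP

namespace PR

variable {K : Type*} [Field K] {m : Type*} [Fintype m] [DecidableEq m]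
  {Γ : Subgroup (Equiv.Perm (m → K))} {J : Matrix m m K}
  {G : Subgroup (Matrix.GeneralLinearGroup m K)} {π : Matrix m m K}

private lemma cpol34 (X : Matrix m m K) (g : Matrix.GeneralLinearGroup m K) :
    (MvPolynomial.eval (fun ij : m × m => (g : Matrix m m K) ij.1 ij.2)).mapMatrix (cpol X) =
      (g : Matrix m m K).det • ((g : Matrix m m K) * X *
        ((g⁻¹ : Matrix.GeneralLinearGroup m K) : Matrix m m K)) := by
  set ev := MvPolynomial.eval (fun ij : m × m => (g : Matrix m m K) ij.1 ij.2) with hev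
  have h2 : ev.mapMatrix (Matrix.mvPolynomialX m m K) = (g : Matrix m m K) :=
    Matrix.mvPolynomialX_mapMatrix_eval _
  have h3 : ev.mapMatrix ((MvPolynomial.C (σ := m × m) (R := K)).mapMatrix X) = X := by
    ext i j
    simp [hev]
  have h4 : (g : Matrix m m K).adjugate = (g : Matrix m m K).det •
      ((g⁻¹ : Matrix.GeneralLinearGroup m K) : Matrix m m K) := by
    calc (g : Matrix m m K).adjugate
        = (((g⁻¹ : Matrix.GeneralLinearGroup m K) : Matrix m m K) * (g : Matrix m m K)) *
          (g : Matrix m m K).adjugate := by rw [GL_inv_mul, one_mul]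
      _ = _ := by rw [mul_assoc, Matrix.mul_adjugate, mul_smul_comm, mul_one]
  rw [cpol, map_mul, map_mul, h2, h3, RingHom.map_adjugate, h2, h4, mul_smul_comm]

private noncomputable def rpol34 {N : ℕ}
    (R : Module.End K (m → K) →ₗ[K] Matrix (Fin N) (Fin N) K) (X : Matrix m m K) :
    Matrix (Fin N) (Fin N) (MvPolynomial (m × m) K) :=
  Matrix.of fun a b => ∑ i, ∑ j,
    MvPolynomial.C (R (Matrix.toLin' (Matrix.single i j 1)) a b) * cpol X i j

private lemma rpol34_eval {N : ℕ} (R : Module.End K (m → K) →ₗ[K] Matrix (Fin N) (Fin N) K)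
    (X : Matrix m m K) (g : Matrix.GeneralLinearGroup m K) :
    (MvPolynomial.eval (fun ij : m × m => (g : Matrix m m K) ij.1 ij.2)).mapMatrix (rpol34 R X) =
      (g : Matrix m m K).det • R (Matrix.toLin' ((g : Matrix m m K) * X *
        ((g⁻¹ : Matrix.GeneralLinearGroup m K) : Matrix m m K))) := by
  rw [← map_smul, ← map_smul, ← cpol34 X g]
  set ev := MvPolynomial.eval (fun ij : m × m => (g : Matrix m m K) ij.1 ij.2) with hev
  set Y := ev.mapMatrix (cpol X) with hY
  ext a b
  have h1 : Y = ∑ i, ∑ j, (Y i j) • Matrix.single i j (1 : K) := by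
    conv_lhs => rw [Matrix.matrix_eq_sum_single Y]
    refine Finset.sum_congr rfl fun i _ => Finset.sum_congr rfl fun j _ => ?_
    rw [Matrix.smul_single, smul_eq_mul, mul_one]
  have h2 : R (Matrix.toLin' Y) =
      ∑ i, ∑ j, (Y i j) • R (Matrix.toLin' (Matrix.single i j (1 : K))) := by
    conv_lhs => rw [h1]
    simp only [map_sum, map_smul]
  rw [h2, RingHom.mapMatrix_apply, Matrix.map_apply, rpol34, Matrix.of_apply, map_sum,
    Matrix.sum_apply]
  refine Finset.sum_congr rfl fun i _ => ?_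
  rw [map_sum, Matrix.sum_apply]
  refine Finset.sum_congr rfl fun j _ => ?_
  rw [map_mul, Matrix.smul_apply, smul_eq_mul, mul_comm]
  congr 1
  exact MvPolynomial.eval_C _

theorem gen_c (hG : IsMTPair J G) (M : Submodule K (Module.End K (m → K))) (N q : ℕ)
    (R : Module.End K (m → K) →ₗ[K] Matrix (Fin N) (Fin N) K)
    (h1 : ∀ p ∈ CC (GE G), ∀ t : K, t ≠ 0 → ∀ x ∈ M,
      (1 + (t - 1) • p) * x * (1 + (t⁻¹ - 1) • p) ∈ M)
    (h2 : ∀ p ∈ CC (GE G), ∀ t : K, t ≠ 0 → ∀ x ∈ M,
      (R ((1 + (t - 1) • p) * x * (1 + (t⁻¹ - 1) • p)) ^ q).trace = (R x ^ q).trace) :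
    ∀ g ∈ GE G, ∀ h ∈ GE G, g * h = 1 → h * g = 1 → ∀ x ∈ M,
      (R (g * x * h) ^ q).trace = (R x ^ q).trace := by
  classical
  let M' : Submodule K (Matrix m m K) := M.comap (Matrix.toLin' (R := K) (m := m) (n := m)).toLinearMap
  have hM' : ∀ X, X ∈ M' ↔ Matrix.toLin' X ∈ M := fun X => Iff.rfl
  let H : Subgroup (Matrix.GeneralLinearGroup m K) :=
    { carrier := {g | g ∈ G ⊓ Nrm M' ∧ ∀ X ∈ M', (R (Matrix.toLin' ((g : Matrix m m K) * X *
        ((g⁻¹ : Matrix.GeneralLinearGroup m K) : Matrix m m K))) ^ q).trace =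
          (R (Matrix.toLin' X) ^ q).trace}
      one_mem' := by
        refine ⟨Subgroup.one_mem _, fun X hX => ?_⟩
        rw [inv_one, Units.val_one, one_mul, mul_one]
      mul_mem' := by
        rintro g g' ⟨ha, hb⟩ ⟨ha', hb'⟩
        refine ⟨Subgroup.mul_mem _ ha ha', fun X hX => ?_⟩
        have e := hb _ (ha'.2 X hX)
        rw [hb' X hX] at e
        rw [← e, mul_inv_rev, Units.val_mul, Units.val_mul]
        simp only [mul_assoc]
      inv_mem' := by
        rintro g ⟨ha, hb⟩
        refine ⟨Subgroup.inv_mem _ ha, fun X hX => ?_⟩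
        have hY := ((G ⊓ Nrm M').inv_mem ha).2 X hX
        have e := hb _ hY
        rw [← e, inv_inv]
        congr 4
        rw [← mul_assoc, ← mul_assoc, GL_mul_inv, one_mul, mul_assoc, GL_mul_inv, mul_one] }
  have hH : ∀ g, g ∈ H ↔ g ∈ G ⊓ Nrm M' ∧ ∀ X ∈ M', (R (Matrix.toLin' ((g : Matrix m m K) * X *
        ((g⁻¹ : Matrix.GeneralLinearGroup m K) : Matrix m m K))) ^ q).trace =
          (R (Matrix.toLin' X) ^ q).trace := fun g => Iff.rfl
  have hcl : ZariskiClosed H := by
    obtain ⟨P, hP⟩ := closed_normaliser G (G ⊓ Nrm M') hG.closed M' fun g => Iff.rfl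
    refine ⟨P ∪ {p | ∃ X ∈ M', p = (rpol34 R X ^ q).trace -
      MvPolynomial.C ((R (Matrix.toLin' X) ^ q).trace) *
        (Matrix.mvPolynomialX m m K).det ^ q}, fun g => ?_⟩
    have hdet : (g : Matrix m m K).det ≠ 0 :=
      ((Matrix.isUnit_iff_isUnit_det _).mp g.isUnit).ne_zero
    have key : ∀ X, MvPolynomial.eval (fun ij => (g : Matrix m m K) ij.1 ij.2)
        ((rpol34 R X ^ q).trace - MvPolynomial.C ((R (Matrix.toLin' X) ^ q).trace) *
          (Matrix.mvPolynomialX m m K).det ^ q) = (g : Matrix m m K).det ^ q *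
        ((R (Matrix.toLin' ((g : Matrix m m K) * X *
        ((g⁻¹ : Matrix.GeneralLinearGroup m K) : Matrix m m K))) ^ q).trace -
          (R (Matrix.toLin' X) ^ q).trace) := by
      intro X
      have e1 : MvPolynomial.eval (fun ij => (g : Matrix m m K) ij.1 ij.2)
          ((rpol34 R X ^ q).trace) = (g : Matrix m m K).det ^ q *
          (R (Matrix.toLin' ((g : Matrix m m K) * X *
        ((g⁻¹ : Matrix.GeneralLinearGroup m K) : Matrix m m K))) ^ q).trace := by
        rw [AddMonoidHom.map_trace, ← RingHom.mapMatrix_apply, map_pow, rpol34_eval, smul_pow,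
          Matrix.trace_smul, smul_eq_mul]
      have e2 : MvPolynomial.eval (fun ij => (g : Matrix m m K) ij.1 ij.2)
          ((Matrix.mvPolynomialX m m K).det) = (g : Matrix m m K).det := by
        rw [RingHom.map_det, Matrix.mvPolynomialX_mapMatrix_eval]
      rw [map_sub, map_mul, map_pow, e1, e2, MvPolynomial.eval_C]
      ring
    rw [hH, hP]
    constructor
    · rintro ⟨ha, hb⟩ p (hp | ⟨X, hX, rfl⟩)
      · exact ha p hp
      · rw [key, hb X hX, sub_self, mul_zero]
    · intro h
      refine ⟨fun p hp => h p (Or.inl hp), fun X hX => ?_⟩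
      have e := h _ (Or.inr ⟨X, hX, rfl⟩)
      rw [key] at e
      exact sub_eq_zero.mp ((mul_eq_zero.mp e).resolve_left (pow_ne_zero _ hdet))
  have hle : G ≤ H := by
    refine hG.gen H hcl fun P hP => ⟨hP.1, fun t ht => ?_⟩
    obtain ⟨g, hg, hgt⟩ := hP.2 t ht
    have hcc := mem_cc.2 hP
    have e1 : Matrix.toLin' (g : Matrix m m K) = 1 + (t - 1) • Matrix.toLin' P := by
      have e : (g : Matrix m m K) = 1 + (t - 1) • P := by
        rw [hgt]
        module
      rw [e, map_add, map_smul, Matrix.toLin'_one]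
      rfl
    have e2 : Matrix.toLin' ((g⁻¹ : Matrix.GeneralLinearGroup m K) : Matrix m m K) =
        1 + (t⁻¹ - 1) • Matrix.toLin' P := by
      have e : ((g⁻¹ : Matrix.GeneralLinearGroup m K) : Matrix m m K) = 1 + (t⁻¹ - 1) • P := by
        have e3 : (g : Matrix m m K) * (1 + (t⁻¹ - 1) • P) = 1 := by
          have e4 : (g : Matrix m m K) = 1 + (t - 1) • P := by
            rw [hgt]
            module
          rw [e4, mul_add, add_mul, add_mul, one_mul, mul_one, one_mul, smul_mul_smul_comm, hP.1,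
            add_assoc, ← add_smul, ← add_smul]
          have e5 : (t - 1) + ((t⁻¹ - 1) + (t - 1) * (t⁻¹ - 1)) = 0 := by
            field_simp
            ring
          rw [e5, zero_smul, add_zero]
        calc ((g⁻¹ : Matrix.GeneralLinearGroup m K) : Matrix m m K)
            = ((g⁻¹ : Matrix.GeneralLinearGroup m K) : Matrix m m K) *
              ((g : Matrix m m K) * (1 + (t⁻¹ - 1) • P)) := by rw [e3, mul_one]
          _ = _ := by rw [← mul_assoc, GL_inv_mul, one_mul]
      rw [e, map_add, map_smul, Matrix.toLin'_one]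
      rfl
    have e3 : ∀ X, Matrix.toLin' ((g : Matrix m m K) * X *
        ((g⁻¹ : Matrix.GeneralLinearGroup m K) : Matrix m m K)) =
        (1 + (t - 1) • Matrix.toLin' P) * Matrix.toLin' X * (1 + (t⁻¹ - 1) • Matrix.toLin' P) := by
      intro X
      rw [Matrix.toLin'_mul, Matrix.toLin'_mul, e1, e2]
      rfl
    refine ⟨g, (hH g).2 ⟨⟨hg, fun X hX => ?_⟩, fun X hX => ?_⟩, hgt⟩
    · rw [hM', e3]
      exact h1 _ hcc t ht _ hX
    · rw [e3]
      exact h2 _ hcc t ht _ hX
  rintro _ ⟨A, hA, rfl⟩ _ ⟨B, hB, rfl⟩ hAB hBA x hx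
  have e1 : (A : Matrix m m K) * (B : Matrix m m K) = 1 := by
    apply Matrix.toLin'.injective
    rw [Matrix.toLin'_mul, Matrix.toLin'_one]
    exact hAB
  have e2 : ((A⁻¹ : Matrix.GeneralLinearGroup m K) : Matrix m m K) = (B : Matrix m m K) := by
    calc ((A⁻¹ : Matrix.GeneralLinearGroup m K) : Matrix m m K)
        = ((A⁻¹ : Matrix.GeneralLinearGroup m K) : Matrix m m K) *
          ((A : Matrix m m K) * (B : Matrix m m K)) := by rw [e1, mul_one]
      _ = _ := by rw [← mul_assoc, GL_inv_mul, one_mul]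
  have hx' : LinearMap.toMatrix' x ∈ M' := by
    rw [hM', Matrix.toLin'_toMatrix']
    exact hx
  have e3 := ((hH A).1 (hle hA)).2 _ hx'
  rw [Matrix.toLin'_mul, Matrix.toLin'_mul, Matrix.toLin'_toMatrix', e2] at e3
  exact e3

end PR
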