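import Pool.Agent.Helper27.PR.JDefs
import Pool.Agent.Helper27.PR.ShTS

/-!
Block JST. One strong pair of the tensor type with all the places.

`G = GT21 K n k` (the group of `ShTS.lean`), `d = 2 n`, `k + 1` factors, with the same `J` and `π` as
in `ShTS.lean`; `Γ = Nor G` (`strong_nor`). For a place with data `j ≤ k + 1`, `j ∣ N`, `a` as in
`TensorAt`: `Γv` is the cyclic group generated by `z` times the rotation of the first `j` factors (the
other factors are fixed), `z` a primitive root of unity of order `N` (so that `Γv` has order `N`,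
`Γ' = ⊥`), `πv = π` (one of the first `j` factors), slopes with the average over the first `j`
factors only.
-/

set_option linter.unusedSectionVars false
set_option linter.unusedVariables false

open Module MTPairs

namespace PR

open MTP

/-! ### The pairing of a symmetric family -/

private lemma pair21 {d : ℕ} (hd : Even d) (a : Fin d → ℚ) (hs : Symm a) :
    ∃ (n : ℕ) (b : Fin n → ℚ) (e : Fin 2 × Fin n ≃ Fin d), d = n + n ∧
      ∀ p, a (e p) = if p.1 = 0 then b p.2 else - b p.2 := by
  obtain ⟨n, rfl⟩ := hd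
  obtain ⟨e, he⟩ := hs
  set σ := Tuple.sort a with hσ
  have h1 : Monotone (a ∘ σ) := Tuple.monotone_sort a
  have h2 : Monotone (a ∘ (Fin.revPerm.trans (σ.trans e) : Equiv.Perm (Fin (n + n)))) := by
    intro i j hij
    have : ∀ i, (a ∘ (Fin.revPerm.trans (σ.trans e) : Equiv.Perm (Fin (n + n)))) i =
        - (a ∘ σ) (Fin.rev i) := by
      intro i
      simp [he]
    rw [this, this]
    exact neg_le_neg (h1 (Fin.rev_le_rev.mpr hij))
  have h3 := Tuple.unique_monotone h1 h2
  have h4 : ∀ i, a (σ (Fin.rev i)) = - a (σ i) := by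
    intro i
    have := congrFun h3 i
    simp [he] at this
    linarith
  let f : Fin 2 × Fin n → Fin (n + n) := fun p =>
    if p.1 = 0 then σ (Fin.castAdd n p.2) else σ (Fin.rev (Fin.castAdd n p.2))
  have hf : Function.Injective f := by
    rintro ⟨s, i⟩ ⟨t, j⟩ h
    have hs : s = 0 ∨ s = 1 := by fin_cases s <;> simp
    have ht : t = 0 ∨ t = 1 := by fin_cases t <;> simp
    rcases hs with rfl | rfl <;> rcases ht with rfl | rfl
    · simp only [f, if_true] at h
      have := σ.injective h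
      simp only [Fin.ext_iff, Fin.val_castAdd] at this
      rw [Fin.ext this]
    · simp only [f, if_true, one_ne_zero, if_false] at h
      have := σ.injective h
      simp only [Fin.ext_iff, Fin.val_castAdd, Fin.val_rev] at this
      omega
    · simp only [f, if_true, one_ne_zero, if_false] at h
      have := σ.injective h
      simp only [Fin.ext_iff, Fin.val_castAdd, Fin.val_rev] at this
      omega
    · simp only [f, one_ne_zero, if_false] at h
      have := Fin.rev_injective (σ.injective h)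
      simp only [Fin.ext_iff, Fin.val_castAdd] at this
      rw [Fin.ext this]
  have hb : Function.Bijective f := by
    rw [Fintype.bijective_iff_injective_and_card]
    refine ⟨hf, ?_⟩
    simp
    omega
  refine ⟨n, fun j => a (σ (Fin.castAdd n j)), Equiv.ofBijective f hb, rfl, ?_⟩
  rintro ⟨s, i⟩
  rw [Equiv.ofBijective_apply]
  by_cases hs : s = 0
  · simp [f, hs]
  · simp only [f, hs, if_false]
    rw [h4]

/-- Common denominators. -/
private lemma den21 {n : ℕ} (x : Fin n → ℚ) (h0 : ∀ j, 0 ≤ x j) (h1 : ∀ j, x j ≤ 1) :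
    ∃ (Q : ℕ) (c : Fin n → ℕ), 0 < Q ∧ (∀ j, c j ≤ Q) ∧ ∀ j, (c j : ℚ) = Q * x j := by
  refine ⟨∏ j, (x j).den, fun j => (x j).num.toNat * ∏ i ∈ Finset.univ.erase j, (x i).den,
    Finset.prod_pos fun j _ => (x j).den_pos, ?_, ?_⟩
  · intro j
    rw [← Finset.mul_prod_erase Finset.univ (fun j => (x j).den) (Finset.mem_univ j)]
    apply Nat.mul_le_mul_right
    have h2 : (x j).num ≤ (x j).den := by
      have := h1 j
      rw [← Rat.num_div_den (x j), div_le_one (by exact_mod_cast (x j).den_pos)] at this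
      exact_mod_cast this
    omega
  · intro j
    rw [← Finset.mul_prod_erase Finset.univ (fun j => (x j).den) (Finset.mem_univ j)]
    push_cast
    have h3 : (((x j).num.toNat : ℕ) : ℚ) = (x j).num := by
      have : (0 : ℤ) ≤ (x j).num := Rat.num_nonneg.mpr (h0 j)
      exact_mod_cast Int.toNat_of_nonneg this
    rw [h3]
    have h4 : ((x j).num : ℚ) = (x j).den * x j := by
      rw [mul_comm]; exact (Rat.mul_den_eq_num (x j)).symm
    rw [h4]
    ring

/-! ### Diagonal matrices -/

private lemma eig21 {K : Type*} [Field K] {m : Type*} [Fintype m] [DecidableEq m] (D : m → K)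
    (μ : K) : finrank K (Module.End.eigenspace (Matrix.diagonal D).mulVecLin μ) =
      Nat.card {x // D x = μ} := by
  classical
  let F : ({x // D x = μ} → K) →ₗ[K] (m → K) :=
    { toFun := fun f x => if h : D x = μ then f ⟨x, h⟩ else 0
      map_add' := by
        intro f g
        funext x
        by_cases h : D x = μ <;> simp [h]
      map_smul' := by
        intro c f
        funext x
        by_cases h : D x = μ <;> simp [h] }
  have hF : ∀ f x (h : D x = μ), F f x = f ⟨x, h⟩ := by
    intro f x h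
    change (if h : D x = μ then f ⟨x, h⟩ else 0) = _
    rw [dif_pos h]
  have hF0 : ∀ f x, ¬ D x = μ → F f x = 0 := by
    intro f x h
    change (if h : D x = μ then f ⟨x, h⟩ else 0) = _
    rw [dif_neg h]
  have hinj : Function.Injective F := by
    intro f g hfg
    funext ⟨x, h⟩
    rw [← hF f x h, ← hF g x h, hfg]
  have e : Module.End.eigenspace (Matrix.diagonal D).mulVecLin μ = LinearMap.range F := by
    ext v
    rw [Module.End.mem_eigenspace_iff]
    constructor
    · intro hv
      refine ⟨fun x => v x.1, ?_⟩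
      funext x
      by_cases h : D x = μ
      · rw [hF _ _ h]
      · rw [hF0 _ _ h]
        have := congrFun hv x
        rw [Matrix.mulVecLin_apply, Matrix.mulVec_diagonal, Pi.smul_apply, smul_eq_mul] at this
        have h2 : (D x - μ) * v x = 0 := by rw [sub_mul, this, sub_self]
        rcases mul_eq_zero.mp h2 with h3 | h3
        · exact absurd (sub_eq_zero.mp h3) h
        · exact h3.symm
    · rintro ⟨f, rfl⟩
      funext x
      rw [Matrix.mulVecLin_apply, Matrix.mulVec_diagonal, Pi.smul_apply, smul_eq_mul]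
      by_cases h : D x = μ
      · rw [h]
      · rw [hF0 _ _ h, mul_zero, mul_zero]
  rw [e, LinearMap.finrank_range_of_inj hinj, Module.finrank_fintype_fun_eq_card,
    Nat.card_eq_fintype_card]

private lemma loc_diag21 {K : Type*} [Field K] {E : Type*} [Fintype E] [DecidableEq E] {k : ℕ}
    (j : Fin k) (D : E → K) :
    loc j (Matrix.diagonal D) = Matrix.diagonal (fun φ : Fin k → E => D (φ j)) := by
  ext x y
  rw [loc_apply]
  by_cases h : x = y
  · subst h
    simp
  · rw [Matrix.diagonal_apply_ne _ h]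
    by_cases h1 : ∀ i, i ≠ j → x i = y i
    · have h2 : x j ≠ y j := by
        intro h2
        apply h
        funext i
        by_cases hi : i = j
        · rw [hi, h2]
        · exact h1 i hi
      rw [Matrix.diagonal_apply_ne _ h2, zero_mul]
    · rw [if_neg h1, mul_zero]

/-! ### The Weyl elements -/

section weyl
variable {K : Type*} [Field K] {n k : ℕ}

/-- The diagonal idempotent matrix attached to a set of indices. -/
private def S21 (K : Type*) [Field K] {n : ℕ} (w : Fin n → Prop) [DecidablePred w] :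
    Matrix (Fin n) (Fin n) K := Matrix.diagonal (fun j => if w j then 0 else 1)

/-- The idempotent which is `1` on `e_j` if `w j` and on `f_j` otherwise. -/
private def D21 (K : Type*) [Field K] {n : ℕ} (w : Fin n → Prop) [DecidablePred w] :
    Fin 2 × Fin n → K :=
  fun p => if p.1 = 0 then (if w p.2 then 1 else 0) else (if w p.2 then 0 else 1)

private lemma UL21 (w : Fin n → Prop) [DecidablePred w] :
    Up (S21 K w) * Lw (S21 K w) = Matrix.diagonal (fun p : Fin 2 × Fin n =>
      if p.1 = 0 then (if w p.2 then (0 : K) else 1) else 0) := by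
  ext ⟨s, i⟩ ⟨t, j⟩
  rw [Matrix.mul_apply, Fintype.sum_prod_type, Fin.sum_univ_two]
  by_cases hij : i = j
  · subst hij
    fin_cases s <;> fin_cases t <;>
      simp [Up, Lw, S21, Matrix.diagonal_apply]
  · fin_cases s <;> fin_cases t <;>
      simp [Up, Lw, S21, Matrix.diagonal_apply, hij]

private lemma LUm21 (w : Fin n → Prop) [DecidablePred w] :
    Lw (S21 K w) * Up (S21 K w) = Matrix.diagonal (fun p : Fin 2 × Fin n =>
      if p.1 = 0 then 0 else (if w p.2 then (0 : K) else 1)) := by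
  ext ⟨s, i⟩ ⟨t, j⟩
  rw [Matrix.mul_apply, Fintype.sum_prod_type, Fin.sum_univ_two]
  by_cases hij : i = j
  · subst hij
    fin_cases s <;> fin_cases t <;>
      simp [Up, Lw, S21, Matrix.diagonal_apply]
  · fin_cases s <;> fin_cases t <;>
      simp [Up, Lw, S21, Matrix.diagonal_apply, hij]

private lemma ULU21 (w : Fin n → Prop) [DecidablePred w] :
    Up (S21 K w) * (Lw (S21 K w) * Up (S21 K w)) = Up (S21 K w) := by
  rw [LUm21]
  ext ⟨s, i⟩ ⟨t, j⟩
  rw [Matrix.mul_diagonal]
  by_cases hij : i = j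
  · subst hij
    fin_cases s <;> fin_cases t <;> simp [Up, S21]
  · fin_cases s <;> fin_cases t <;> simp [Up, S21, hij]

private lemma LUL21 (w : Fin n → Prop) [DecidablePred w] :
    Lw (S21 K w) * (Up (S21 K w) * Lw (S21 K w)) = Lw (S21 K w) := by
  rw [UL21]
  ext ⟨s, i⟩ ⟨t, j⟩
  rw [Matrix.mul_diagonal]
  by_cases hij : i = j
  · subst hij
    fin_cases s <;> fin_cases t <;> simp [Lw, S21]
  · fin_cases s <;> fin_cases t <;> simp [Lw, S21, hij]

private lemma D21_eq (w : Fin n → Prop) [DecidablePred w] :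
    Matrix.diagonal (D21 K w) = X0 K n - Up (S21 K w) * Lw (S21 K w) +
      Lw (S21 K w) * Up (S21 K w) := by
  rw [UL21, LUm21, X0, Matrix.diagonal_sub, Matrix.diagonal_add]
  congr 1
  funext ⟨s, i⟩
  simp only [D21]
  by_cases hs : s = 0 <;> by_cases hw : w i <;> simp [hs, hw]

/-- The Weyl element. -/
private def A21 (K : Type*) [Field K] {n : ℕ} (w : Fin n → Prop) [DecidablePred w] :
    Matrix (Fin 2 × Fin n) (Fin 2 × Fin n) K :=
  (1 + Up (S21 K w)) * ((1 - Lw (S21 K w)) * (1 + Up (S21 K w)))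

private lemma A21_conj (w : Fin n → Prop) [DecidablePred w] :
    A21 K w * X0 K n = Matrix.diagonal (D21 K w) * A21 K w := by
  rw [D21_eq, A21]
  have z : ∀ {a b c : Matrix (Fin 2 × Fin n) (Fin 2 × Fin n) K}, a * b = c → ∀ x,
      a * (b * x) = c * x := by
    intro a b c h x
    rw [← mul_assoc, h]
  have e1 := X0_Up (S21 K w)
  have e2 := Up_X0 (S21 K w)
  have e3 := X0_Lw (S21 K w)
  have e4 := Lw_X0 (S21 K w)
  have e5 := Up_sq (S21 K w)
  have e6 := Lw_sq (S21 K w)
  have e7 := ULU21 (K := K) w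
  have e8 := LUL21 (K := K) w
  simp only [add_mul, mul_add, sub_mul, mul_sub, one_mul, mul_one, mul_assoc, e1, e2, e3, e4, e5,
    e6, e7, e8, z e1, z e3, z e5, z e6, zero_mul, mul_zero]
  abel

end weyl

/-! ### The group -/

section grp
variable {K : Type*} [Field K] {n k : ℕ}

/-- The generating idempotents. -/
private def LUs21 (K : Type*) [Field K] (n k : ℕ) : Set (Matrix (Ix n (k + 1)) (Ix n (k + 1)) K) :=
  {P | ∃ (j : Fin (k + 1)) (S : Matrix (Fin n) (Fin n) K), S.transpose = S ∧
    (P = loc j (X0 K n - Up S) ∨ P = loc j (X0 K n + Lw S))}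

/-- The group of the example. -/
private def GT21 (K : Type*) [Field K] (n k : ℕ) :
    Subgroup (Matrix.GeneralLinearGroup (Ix n (k + 1)) K) := GenG (LUs21 K n k)

private lemma LU_sub21 {P : Matrix (Ix n (k + 1)) (Ix n (k + 1)) K} (hP : P ∈ LUs21 K n k) :
    P ∈ Lam K n k := by
  obtain ⟨j, S, hS, rfl | rfl⟩ := hP
  · exact loc_Up_mem hS j
  · exact loc_Lw_mem hS j

private lemma LU_lag21 {P : Matrix (Ix n (k + 1)) (Ix n (k + 1)) K} (hP : P ∈ LUs21 K n k) :
    P ∈ LagSet (Jt (k + 1) (J1 K n)) := Lam_lag (LU_sub21 hP)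

private lemma LU_Up21 {S : Matrix (Fin n) (Fin n) K} (hS : S.transpose = S) (j : Fin (k + 1)) :
    loc j (X0 K n - Up S) ∈ LUs21 K n k := ⟨j, S, hS, Or.inl rfl⟩

private lemma LU_Lw21 {S : Matrix (Fin n) (Fin n) K} (hS : S.transpose = S) (j : Fin (k + 1)) :
    loc j (X0 K n + Lw S) ∈ LUs21 K n k := ⟨j, S, hS, Or.inr rfl⟩

private lemma LU_X021 (j : Fin (k + 1)) : loc j (X0 K n) ∈ LUs21 K n k := by
  have h := LU_Up21 (K := K) (n := n) (k := k) (S := 0) (Matrix.transpose_zero) j
  have e : X0 K n - Up (0 : Matrix (Fin n) (Fin n) K) = X0 K n := by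
    ext p q
    simp only [Matrix.sub_apply, Up, Matrix.zero_apply, ite_self, sub_zero]
  rwa [e] at h

private lemma LU_perm21 (σ : Equiv.Perm (Fin (k + 1))) {P : Matrix (Ix n (k + 1)) (Ix n (k + 1)) K}
    (hP : P ∈ LUs21 K n k) : (permG K n σ : Matrix (Ix n (k + 1)) (Ix n (k + 1)) K) * P *
      (((permG K n σ)⁻¹ : Matrix.GeneralLinearGroup (Ix n (k + 1)) K) :
        Matrix (Ix n (k + 1)) (Ix n (k + 1)) K) ∈ LUs21 K n k := by
  obtain ⟨j, S, hS, rfl | rfl⟩ := hP
  · rw [permG_conj, permG_loc]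
    exact LU_Up21 hS _
  · rw [permG_conj, permG_loc]
    exact LU_Lw21 hS _

variable [CharZero K]

private lemma GT21_le : GT21 K n k ≤ GT K n k := by
  apply GenG_le (GenG_closed _)
  intro P hP
  exact GenG_cochar (Lam_lag (LU_sub21 hP)).1 (LU_sub21 hP)

private lemma up_mem21 {S : Matrix (Fin n) (Fin n) K} (hS : S.transpose = S) (j : Fin (k + 1)) :
    ∃ u ∈ GT21 K n k, (u : Matrix (Ix n (k + 1)) (Ix n (k + 1)) K) = 1 + loc j (Up S) := by
  have h1 : loc j (X0 K n) + loc j (Up S) ∈ LUs21 K n k := by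
    have := LU_Up21 (K := K) (n := n) (k := k) (S := -S)
      (by rw [Matrix.transpose_neg, hS]) j
    have e : X0 K n - Up (-S) = X0 K n + Up S := by
      ext p q
      simp only [Matrix.sub_apply, Matrix.add_apply, Up, Matrix.neg_apply]
      split_ifs <;> ring
    rwa [e, loc_add] at this
  exact unip_mem (LU_X021 j) h1 (by rw [← loc_mul, Up_X0, loc_zero])
    (by rw [← loc_mul, Up_sq, loc_zero])

private lemma lw_mem21 {S : Matrix (Fin n) (Fin n) K} (hS : S.transpose = S) (j : Fin (k + 1)) :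
    ∃ u ∈ GT21 K n k, (u : Matrix (Ix n (k + 1)) (Ix n (k + 1)) K) = 1 - loc j (Lw S) := by
  have h1 : loc j (X0 K n) - (2 : K) • loc j (Lw S) ∈ LUs21 K n k := by
    have := LU_Lw21 (K := K) (n := n) (k := k) (S := (-2 : K) • S)
      (by rw [Matrix.transpose_smul, hS]) j
    have e : X0 K n + Lw ((-2 : K) • S) = X0 K n - (2 : K) • Lw S := by
      ext p q
      simp only [Matrix.sub_apply, Matrix.add_apply, Lw, Matrix.smul_apply, smul_eq_mul]
      split_ifs <;> ring
    rwa [e, loc_sub, loc_smul] at this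
  obtain ⟨g1, hg1, e1⟩ := (GenG_cochar (LU_lag21 (LU_X021 (K := K) (n := n) (k := k) j)).1
    (LU_X021 j)).2 2 two_ne_zero
  obtain ⟨g2, hg2, e2⟩ := (GenG_cochar (LU_lag21 h1).1 h1).2 2 two_ne_zero
  refine ⟨g2 * g1⁻¹, (GT21 K n k).mul_mem hg2 ((GT21 K n k).inv_mem hg1), ?_⟩
  have k1 : loc j (Lw S) * loc j (X0 K n) = loc j (Lw S) := by rw [← loc_mul, Lw_X0]
  have e3 : (g2 : Matrix (Ix n (k + 1)) (Ix n (k + 1)) K) = (1 - loc j (Lw S)) * g1 := by
    rw [e1, e2]
    simp only [mul_add, sub_mul, mul_sub, one_mul, mul_one, mul_smul_comm, k1]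
    module
  rw [Units.val_mul, e3, mul_assoc, GL_mul_inv, mul_one]

private lemma weyl_mem21 (w : Fin n → Prop) [DecidablePred w] (j : Fin (k + 1)) :
    ∃ u ∈ GT21 K n k, (u : Matrix (Ix n (k + 1)) (Ix n (k + 1)) K) * loc j (X0 K n) =
      loc j (Matrix.diagonal (D21 K w)) * (u : Matrix (Ix n (k + 1)) (Ix n (k + 1)) K) := by
  have hS : (S21 K w).transpose = S21 K w := Matrix.diagonal_transpose _
  obtain ⟨g1, hg1, e1⟩ := up_mem21 (k := k) hS j
  obtain ⟨g2, hg2, e2⟩ := lw_mem21 (k := k) hS j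
  refine ⟨g1 * (g2 * g1), (GT21 K n k).mul_mem hg1 ((GT21 K n k).mul_mem hg2 hg1), ?_⟩
  have e3 : ((g1 * (g2 * g1) : Matrix.GeneralLinearGroup (Ix n (k + 1)) K) :
      Matrix (Ix n (k + 1)) (Ix n (k + 1)) K) = loc j (A21 K w) := by
    rw [Units.val_mul, Units.val_mul, e1, e2, A21, loc_mul, loc_mul, loc_add, loc_sub, loc_one]
  rw [e3, ← loc_mul, ← loc_mul, A21_conj]

/-- Irreducibility. -/
private lemma LU_irr21 {U : Submodule K (Ix n (k + 1) → K)} (hU : ∀ P ∈ LUs21 K n k, Pres U P) :
    U = ⊥ ∨ U = ⊤ := by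
  have hone : Pres U (1 : Matrix (Ix n (k + 1)) (Ix n (k + 1)) K) := by
    intro v hv; rwa [Matrix.one_mulVec]
  have hadd : ∀ {M N : Matrix (Ix n (k + 1)) (Ix n (k + 1)) K}, Pres U M → Pres U N →
      Pres U (M + N) := by
    intro M N h1 h2 v hv
    rw [Matrix.add_mulVec]
    exact U.add_mem (h1 v hv) (h2 v hv)
  have hsmul : ∀ (c : K) {M : Matrix (Ix n (k + 1)) (Ix n (k + 1)) K}, Pres U M →
      Pres U (c • M) := by
    intro c M h1 v hv
    rw [Matrix.smul_mulVec]
    exact U.smul_mem c (h1 v hv)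
  -- the local matrices
  have hX0 : ∀ j, Pres U (loc j (X0 K n)) := fun j => hU _ (LU_X021 j)
  have hUp : ∀ j (S : Matrix (Fin n) (Fin n) K), S.transpose = S → Pres U (loc j (Up S)) := by
    intro j S hS
    have h := (hX0 j).sub (hU _ (LU_Up21 hS j))
    rwa [← loc_sub, sub_sub_cancel] at h
  have hLw : ∀ j (S : Matrix (Fin n) (Fin n) K), S.transpose = S → Pres U (loc j (Lw S)) := by
    intro j S hS
    have h := (hU _ (LU_Lw21 hS j)).sub (hX0 j)
    rwa [← loc_sub, add_sub_cancel_left] at h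
  have hmul : ∀ j (X Y : Matrix (Fin 2 × Fin n) (Fin 2 × Fin n) K), Pres U (loc j X) →
      Pres U (loc j Y) → Pres U (loc j (X * Y)) := by
    intro j X Y h1 h2
    rw [loc_mul]; exact h1.mul h2
  have hE : ∀ a : Fin n, (Matrix.single a a (1 : K)).transpose = Matrix.single a a 1 := by
    intro a; rw [Matrix.transpose_single]
  have hD : ∀ j (p : Fin 2 × Fin n), Pres U (loc j (Matrix.single p p (1 : K))) := by
    rintro j ⟨s, a⟩
    have e : s = 0 ∨ s = 1 := by fin_cases s <;> simp
    rcases e with rfl | rfl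
    · have h := hmul j _ _ (hUp j _ (hE a)) (hLw j _ (hE a))
      have e : Up (Matrix.single a a (1 : K)) * Lw (Matrix.single a a (1 : K)) =
          Matrix.single (0, a) (0, a) 1 := by
        ext ⟨s, b⟩ ⟨t, c⟩
        rw [Matrix.mul_apply, Fintype.sum_prod_type, Fin.sum_univ_two]
        fin_cases s <;> fin_cases t <;> simp [Up, Lw, Matrix.single_apply, ite_and] <;>
          split_ifs <;> rfl
      rwa [e] at h
    · have h := hmul j _ _ (hLw j _ (hE a)) (hUp j _ (hE a))
      have e : Lw (Matrix.single a a (1 : K)) * Up (Matrix.single a a (1 : K)) =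
          Matrix.single (1, a) (1, a) 1 := by
        ext ⟨s, b⟩ ⟨t, c⟩
        rw [Matrix.mul_apply, Fintype.sum_prod_type, Fin.sum_univ_two]
        fin_cases s <;> fin_cases t <;> simp [Up, Lw, Matrix.single_apply, ite_and] <;>
          split_ifs <;> rfl
      rwa [e] at h
  have hcut : ∀ j (p q : Fin 2 × Fin n) (M : Matrix (Fin 2 × Fin n) (Fin 2 × Fin n) K),
      Pres U (loc j M) → M p q = 1 → Pres U (loc j (Matrix.single p q (1 : K))) := by
    intro j p q M hM hpq
    have h := hmul j _ _ (hmul j _ _ (hD j p) hM) (hD j q)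
    have e : Matrix.single p p (1 : K) * M * Matrix.single q q 1 = Matrix.single p q 1 := by
      ext x y
      rw [Matrix.mul_apply]
      simp only [Matrix.mul_apply, Matrix.single_apply]
      by_cases hx : p = x
      · subst hx
        by_cases hy : q = y
        · subst hy
          simp [hpq]
        · simp [hy]
      · simp [hx]
    rwa [e] at h
  have hones : (Matrix.of fun _ _ : Fin n => (1 : K)).transpose = Matrix.of fun _ _ => 1 := rfl
  have h01 : ∀ j (a b : Fin n), Pres U (loc j (Matrix.single ((0 : Fin 2), a) (1, b) (1 : K))) :=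
    fun j a b => hcut j _ _ _ (hUp j _ hones) (by simp [Up])
  have h10 : ∀ j (a b : Fin n), Pres U (loc j (Matrix.single ((1 : Fin 2), a) (0, b) (1 : K))) :=
    fun j a b => hcut j _ _ _ (hLw j _ hones) (by simp [Lw])
  have hall : ∀ j (p q : Fin 2 × Fin n), Pres U (loc j (Matrix.single p q (1 : K))) := by
    rintro j ⟨s, a⟩ ⟨t, b⟩
    have e : s = 0 ∨ s = 1 := by fin_cases s <;> simp
    have e' : t = 0 ∨ t = 1 := by fin_cases t <;> simp
    rcases e with rfl | rfl <;> rcases e' with rfl | rfl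
    · have h := hmul j _ _ (h01 j a a) (h10 j a b)
      rwa [Matrix.single_mul_single_same, one_mul] at h
    · exact h01 j a b
    · exact h10 j a b
    · have h := hmul j _ _ (h10 j a a) (h01 j a b)
      rwa [Matrix.single_mul_single_same, one_mul] at h
  have hloc : ∀ j (X : Matrix (Fin 2 × Fin n) (Fin 2 × Fin n) K), Pres U (loc j X) := by
    intro j X
    rw [Matrix.matrix_eq_sum_single X]
    have e : loc j (∑ p, ∑ q, Matrix.single p q (X p q)) =
        ∑ p, ∑ q, X p q • loc j (Matrix.single p q (1 : K)) := by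
      have := map_sum (locL K (Fin 2 × Fin n) j) (fun p => ∑ q, Matrix.single p q (X p q))
        Finset.univ
      change loc j _ = _ at this
      rw [this]
      apply Finset.sum_congr rfl
      intro p _
      rw [map_sum]
      apply Finset.sum_congr rfl
      intro q _
      have h : Matrix.single p q (X p q) = X p q • Matrix.single p q (1 : K) := by
        rw [Matrix.smul_single, smul_eq_mul, mul_one]
      rw [h, map_smul]
      rfl
    rw [e]
    intro v hv
    rw [Matrix.sum_mulVec]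
    apply U.sum_mem
    intro p _
    rw [Matrix.sum_mulVec]
    apply U.sum_mem
    intro q _
    exact hsmul _ (hall j p q) v hv
  apply trivial_of_single
  intro x y
  rw [single_eq_Tn]
  exact Tn_mem (P := fun M => Pres U M) hone (fun A B h1 h2 => h1.mul h2) hloc _

/-- The generating idempotents are conjugate to the local ones. -/
private lemma LU_conj21 {P : Matrix (Ix n (k + 1)) (Ix n (k + 1)) K} (hP : P ∈ LUs21 K n k) :
    ∃ j : Fin (k + 1), ∃ g ∈ GT21 K n k,
      P * (g : Matrix (Ix n (k + 1)) (Ix n (k + 1)) K) =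
        (g : Matrix (Ix n (k + 1)) (Ix n (k + 1)) K) * loc j (X0 K n) := by
  obtain ⟨j, S, hS, rfl | rfl⟩ := hP
  · obtain ⟨g, hg, e⟩ := up_mem21 (k := k) hS j
    refine ⟨j, g, hg, ?_⟩
    have e1 : (g : Matrix (Ix n (k + 1)) (Ix n (k + 1)) K) = loc j (1 + Up S) := by
      rw [e, loc_add, loc_one]
    rw [e1, ← loc_mul, ← loc_mul]
    congr 1
    have e2 := X0_Up S
    have e3 := Up_X0 S
    have e5 := Up_sq S
    simp only [add_mul, mul_add, sub_mul, mul_sub, one_mul, mul_one, e2, e3, e5]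
    abel
  · obtain ⟨g, hg, e⟩ := lw_mem21 (K := K) (k := k) (S := -S)
      (by rw [Matrix.transpose_neg, hS]) j
    refine ⟨j, g, hg, ?_⟩
    have e0 : Lw (-S) = -Lw S := by
      ext p q
      simp only [Matrix.neg_apply, Lw]
      split_ifs <;> simp
    have e1 : (g : Matrix (Ix n (k + 1)) (Ix n (k + 1)) K) = loc j (1 + Lw S) := by
      rw [e, e0, ← loc_one (K := K) (E := Fin 2 × Fin n) j, ← loc_sub, sub_neg_eq_add]
    rw [e1, ← loc_mul, ← loc_mul]
    congr 1
    have e2 := X0_Lw S
    have e3 := Lw_X0 S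
    have e5 := Lw_sq S
    simp only [add_mul, mul_add, sub_mul, mul_sub, one_mul, mul_one, e2, e3, e5]
    abel

end grp

/-! ### The semilinear symmetries -/

section gam
variable {K : Type*} [Field K] {n k : ℕ}

private lemma permG_apply21 (σ : Equiv.Perm (Fin k)) (v : Ix n k → K) (x : Ix n k) :
    (permG K n σ : Matrix (Ix n k) (Ix n k) K).mulVec v x = v (x ∘ σ) := by
  change ((1 : Matrix (Ix n k) (Ix n k) K).submatrix (eσ n σ) (Equiv.refl _)).mulVec v x = _
  rw [Matrix.mulVec, dotProduct, Finset.sum_eq_single (x ∘ σ)]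
  · rw [Matrix.submatrix_apply]
    change (1 : Matrix (Ix n k) (Ix n k) K) (x ∘ σ) (x ∘ σ) * _ = _
    rw [Matrix.one_apply_eq, one_mul]
  · intro y _ hy
    rw [Matrix.submatrix_apply]
    have : eσ n σ x ≠ (Equiv.refl _) y := fun h => hy h.symm
    rw [Matrix.one_apply_ne this, zero_mul]
  · intro h; exact absurd (Finset.mem_univ _) h

/-- A permutation of the factors times a scalar. -/
private def th21 (n : ℕ) {k : ℕ} (σ : Equiv.Perm (Fin k)) (z : Kˣ) :
    Matrix.GeneralLinearGroup (Ix n k) K :=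
  ⟨(z : K) • (permG K n σ : Matrix (Ix n k) (Ix n k) K),
    ((z⁻¹ : Kˣ) : K) • (((permG K n σ)⁻¹ : Matrix.GeneralLinearGroup (Ix n k) K) :
      Matrix (Ix n k) (Ix n k) K), by
    rw [smul_mul_assoc, mul_smul_comm, GL_mul_inv, smul_smul, Units.mul_inv, one_smul], by
    rw [smul_mul_assoc, mul_smul_comm, GL_inv_mul, smul_smul, Units.inv_mul, one_smul]⟩

private lemma th_pow21 (σ : Equiv.Perm (Fin k)) (z : Kˣ) (j : ℕ) (v : Ix n k → K) :
    ((toPerm (th21 n σ z)) ^ j) v = fun x => (z : K) ^ j * v (x ∘ (σ ^ j :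
      Equiv.Perm (Fin k))) := by
  induction j with
  | zero => funext x; simp
  | succ j ih =>
    rw [pow_succ', Equiv.Perm.mul_apply, ih]
    funext x
    have e : ∀ w : Ix n k → K, toPerm (th21 n σ z) w x = z * w (x ∘ σ) := by
      intro w
      change ((z : K) • (permG K n σ : Matrix (Ix n k) (Ix n k) K)).mulVec w x = _
      rw [Matrix.smul_mulVec, Pi.smul_apply, permG_apply21, smul_eq_mul]
    rw [e, pow_succ', pow_succ', mul_assoc]
    rfl

private lemma rot_pow21 (j : ℕ) (i : Fin (k + 1)) :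
    ((((finRotate (k + 1)) ^ j : Equiv.Perm (Fin (k + 1))) i : Fin (k + 1)) : ℕ) =
      ((i : ℕ) + j) % (k + 1) := by
  induction j with
  | zero => simp [Nat.mod_eq_of_lt i.2]
  | succ j ih =>
    rw [pow_succ', Equiv.Perm.mul_apply, finRotate_apply, Fin.val_add, ih, ← add_assoc]
    simp [Nat.add_mod]

private lemma cyc_pow21 (q : Fin (k + 1)) (t : ℕ) (x : Fin (k + 1)) :
    (((q.cycleRange ^ t : Equiv.Perm (Fin (k + 1))) x : Fin (k + 1)) : ℕ) =
      if (x : ℕ) ≤ q then ((x : ℕ) + t) % ((q : ℕ) + 1) else x := by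
  induction t with
  | zero =>
    split_ifs with h
    · simp [Nat.mod_eq_of_lt (Nat.lt_succ_of_le h)]
    · simp
  | succ t ih =>
    rw [pow_succ', Equiv.Perm.mul_apply]
    set y := (q.cycleRange ^ t : Equiv.Perm (Fin (k + 1))) x with hy
    by_cases h : (x : ℕ) ≤ q
    · rw [if_pos h] at ih ⊢
      have hyq : (y : ℕ) ≤ q := by
        rw [ih]
        exact Nat.lt_succ_iff.mp (Nat.mod_lt _ (Nat.succ_pos _))
      have h1 := Fin.coe_cycleRange_of_le (i := y) (j := q) hyq
      rw [h1, ← add_assoc]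
      have h2 : ((x : ℕ) + t + 1) % ((q : ℕ) + 1) = ((y : ℕ) + 1) % ((q : ℕ) + 1) := by
        rw [ih]
        simp [Nat.add_mod]
      rw [h2]
      split_ifs with h3
      · rw [h3, Nat.mod_self]
      · rw [Nat.mod_eq_of_lt]
        have : (y : ℕ) ≠ q := fun h4 => h3 (Fin.ext h4)
        omega
    · rw [if_neg h] at ih ⊢
      have h1 : q < y := by
        rw [Fin.lt_def, ih]
        omega
      rw [Fin.cycleRange_of_gt h1, ih]

private lemma hperm21 (σ : Equiv.Perm (Fin k)) (z : Kˣ) (j : ℕ) (v : Ix n k → K) :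
    ((toPerm (th21 n σ z)) ^ j) v =
      (z : K) ^ j • (permG K n (σ ^ j) : Matrix (Ix n k) (Ix n k) K).mulVec v := by
  rw [th_pow21]
  funext x
  rw [Pi.smul_apply, permG_apply21, smul_eq_mul]

private lemma hcj21 (σ : Equiv.Perm (Fin (k + 1))) (z : Kˣ) (t : ℕ) (j : Fin (k + 1))
    (h2 : (σ ^ t : Equiv.Perm (Fin (k + 1))) 0 = j)
    (P : Matrix (Ix n (k + 1)) (Ix n (k + 1)) K)
    (g : Matrix.GeneralLinearGroup (Ix n (k + 1)) K)
    (hPg : P * (g : Matrix (Ix n (k + 1)) (Ix n (k + 1)) K) =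
        (g : Matrix (Ix n (k + 1)) (Ix n (k + 1)) K) * loc j (X0 K n))
    (v : Ix n (k + 1) → K) : P.mulVec ((g : Matrix (Ix n (k + 1)) (Ix n (k + 1)) K).mulVec
        (((toPerm (th21 n σ z)) ^ t) v)) = (g : Matrix (Ix n (k + 1)) (Ix n (k + 1)) K).mulVec
        (((toPerm (th21 n σ z)) ^ t) ((loc 0 (X0 K n)).mulVec v)) := by
  set τ : Equiv.Perm (Fin (k + 1)) := σ ^ t with hτ
  have e2 : (permG K n τ : Matrix (Ix n (k + 1)) (Ix n (k + 1)) K) * loc 0 (X0 K n) =
      loc j (X0 K n) * (permG K n τ : Matrix (Ix n (k + 1)) (Ix n (k + 1)) K) := by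
    have h1 := permG_conj τ (loc 0 (X0 K n))
    rw [permG_loc] at h1
    rw [h2] at h1
    rw [← h1, mul_assoc _ _ (permG K n τ : Matrix (Ix n (k + 1)) (Ix n (k + 1)) K),
      GL_inv_mul, mul_one]
  have e3 : P * ((g : Matrix (Ix n (k + 1)) (Ix n (k + 1)) K) *
      (permG K n τ : Matrix (Ix n (k + 1)) (Ix n (k + 1)) K)) =
      (g : Matrix (Ix n (k + 1)) (Ix n (k + 1)) K) *
      ((permG K n τ : Matrix (Ix n (k + 1)) (Ix n (k + 1)) K) * loc 0 (X0 K n)) := by
    rw [e2, ← mul_assoc, ← mul_assoc, hPg]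
  rw [hperm21, hperm21, Matrix.mulVec_smul, Matrix.mulVec_smul, Matrix.mulVec_smul]
  congr 1
  simp only [Matrix.mulVec_mulVec]
  rw [← hτ, e3]

private lemma gal21 [CharZero K] (hk2 : Odd (k + 1)) (σ : Equiv.Perm (Fin (k + 1))) (z : Kˣ)
    (hfin : IsOfFinOrder (toPerm (th21 n σ z))) :
    IsGalPair (Subgroup.zpowers (toPerm (th21 n σ z))) (Jt (k + 1) (J1 K n)) (GT21 K n k) := by
  have hMT : IsMTPair (Jt (k + 1) (J1 K n)) (GT21 K n k) :=
    isMTPair_gen (Jt_transpose J1_transpose hk2)
      (Jt_det (c := -1) (neg_ne_zero.mpr one_ne_zero) J1_sq)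
      (fun P hP => (LU_lag21 hP).1) (fun P hP => (LU_lag21 hP).2)
  exact
    { toIsMTPair := hMT
      semi := by
        intro θ' hθ'
        rw [← hfin.mem_powers_iff_mem_zpowers] at hθ'
        obtain ⟨j, rfl⟩ := hθ'
        refine ⟨RingEquiv.refl K, fun v w => ?_, fun c v => ?_⟩
        · change ((toPerm (th21 n σ z)) ^ j) _ = ((toPerm (th21 n σ z)) ^ j) _ +
            ((toPerm (th21 n σ z)) ^ j) _
          rw [hperm21, hperm21, hperm21, Matrix.mulVec_add, smul_add]
        · change ((toPerm (th21 n σ z)) ^ j) _ = c • ((toPerm (th21 n σ z)) ^ j) _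
          rw [hperm21, hperm21, Matrix.mulVec_smul, smul_comm]
      norm := by
        intro θ' hθ' g hg
        rw [← hfin.mem_powers_iff_mem_zpowers] at hθ'
        obtain ⟨j, rfl⟩ := hθ'
        refine ⟨permG K n (σ ^ j) * g * (permG K n (σ ^ j))⁻¹,
          GenG_conj (fun P hP => (LU_lag21 hP).1) (fun P hP => LU_perm21 (σ ^ j) hP) hg,
          fun v => ?_⟩
        change Matrix.mulVec _ (((toPerm (th21 n σ z)) ^ j) v) =
          ((toPerm (th21 n σ z)) ^ j) _
        rw [hperm21, hperm21, Units.val_mul, Units.val_mul, Matrix.mulVec_smul,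
          Matrix.mulVec_mulVec, Matrix.mulVec_mulVec, mul_assoc, mul_assoc, GL_inv_mul,
          mul_one] }

private lemma pow_one21 (q : Fin (k + 1)) {z : Kˣ} {N : ℕ} (hz : (z : K) ^ N = 1)
    (hq : (q : ℕ) + 1 ∣ N) : (toPerm (th21 n q.cycleRange z)) ^ N = 1 := by
  apply Equiv.ext
  intro v
  rw [th_pow21, hz, Equiv.Perm.one_apply]
  have : (q.cycleRange ^ N : Equiv.Perm (Fin (k + 1))) = 1 := by
    apply Equiv.ext
    intro i
    apply Fin.ext
    obtain ⟨l, hl⟩ := hq
    rw [cyc_pow21, Equiv.Perm.one_apply]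
    split_ifs with h
    · rw [hl, Nat.add_mul_mod_self_left, Nat.mod_eq_of_lt (Nat.lt_succ_of_le h)]
    · rfl
  rw [this]
  funext x
  simp

private lemma strong21 [CharZero K] (hk2 : Odd (k + 1)) :
    IsStrongMTPair (Nor (GT21 K n k)) (Jt (k + 1) (J1 K n)) (GT21 K n k)
      (loc 0 (X0 K n)) := by
  set θ : Equiv.Perm (Ix n (k + 1) → K) := toPerm (th21 n (Fin.last k).cycleRange 1) with hθ
  have hp : θ ^ (k + 1) = 1 :=
    pow_one21 (Fin.last k) (by rw [Units.val_one, one_pow]) (by rw [Fin.val_last])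
  have hfin : IsOfFinOrder θ := isOfFinOrder_iff_pow_eq_one.mpr ⟨k + 1, Nat.succ_pos k, hp⟩
  have hgal := gal21 (n := n) hk2 (Fin.last k).cycleRange (1 : Kˣ) hfin
  apply strong_nor (Γ := Subgroup.zpowers θ)
  exact
    { skew := hgal.skew
      det := hgal.det
      sim := hgal.sim
      closed := hgal.closed
      semi := hgal.semi
      norm := hgal.norm
      coch := GenG_cochar (LU_lag21 (LU_X021 (K := K) (n := n) (k := k) 0)).1 (LU_X021 0)
      gen := by
        intro H hH hc
        apply GenG_le hH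
        intro P hP
        obtain ⟨j, g, hg, e⟩ := LU_conj21 hP
        refine hc P ⟨θ ^ (j : ℕ), Subgroup.pow_mem _ (Subgroup.mem_zpowers θ) _, g, hg,
          hcj21 (Fin.last k).cycleRange 1 j j ?_ P g e⟩
        apply Fin.ext
        rw [cyc_pow21, Fin.val_zero, if_pos (Nat.zero_le _), zero_add, Fin.val_last,
          Nat.mod_eq_of_lt j.2] }

end gam

/-- The multiset of the values of a function of the first component. -/
private lemma mult21 {A B C : Type*} [Fintype A] [Fintype B] (f : A → C) :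
    (Finset.univ : Finset (A × B)).val.map (fun p => f p.1) =
      Fintype.card B • (Finset.univ : Finset A).val.map f := by
  classical
  have key : ∀ (s : Multiset A) (t : Multiset B),
      (s.product t).map (fun p => f p.1) = Multiset.card t • s.map f := by
    intro s t
    induction s using Multiset.induction_on with
    | empty => simp [Multiset.product]
    | cons a s ih =>
      have h1 : Multiset.product (a ::ₘ s) t = t.map (Prod.mk a) + Multiset.product s t :=
        Multiset.cons_product a s t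
      rw [h1, Multiset.map_add, ih, Multiset.map_map, Multiset.map_cons,
        ← Multiset.singleton_add, smul_add, Multiset.nsmul_singleton]
      congr 1
      rw [Multiset.eq_replicate]
      refine ⟨by rw [Multiset.card_map], ?_⟩
      intro c hc
      rw [Multiset.mem_map] at hc
      obtain ⟨b, _, rfl⟩ := hc
      rfl
  have h := key (Finset.univ : Finset A).val (Finset.univ : Finset B).val
  rw [← Finset.univ_product_univ]
  exact h

section place
variable {K : Type*} [Field K] [IsAlgClosed K] [CharZero K] {n k : ℕ}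

private lemma place21 {q N : ℕ} (hn : 0 < n) (hk2 : Odd (k + 1)) (hq : q + 1 ≤ k + 1)
    (hqN : q + 1 ∣ N) (hN : 0 < N) (b : Fin n → ℚ)
    (hb : ∀ j, |b j| ≤ 1 / (2 * ((q + 1 : ℕ) : ℚ))) :
    HasPl (Nor (GT21 K n k)) (GT21 K n k) ((Finset.univ : Finset (Ix n (k + 1))).val.map
      (fun φ => 1 / 2 + ∑ i : Fin (q + 1), if (φ (Fin.castLE hq i)).1 = 0 then
        b (φ (Fin.castLE hq i)).2 else - b (φ (Fin.castLE hq i)).2)) N := by
  classical
  have : NeZero (N : K) := ⟨by exact_mod_cast hN.ne'⟩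
  have : NeZero N := ⟨hN.ne'⟩
  obtain ⟨ζ, hζ⟩ := HasEnoughRootsOfUnity.exists_primitiveRoot K N
  have hζ0 : ζ ≠ 0 := hζ.ne_zero hN.ne'
  set z : Kˣ := Units.mk0 ζ hζ0 with hz
  set Q' : Fin (k + 1) := ⟨q, by omega⟩ with hQ'
  set θ : Equiv.Perm (Ix n (k + 1) → K) := toPerm (th21 n Q'.cycleRange z) with hθ
  have hpow : ∀ (j : ℕ) (v : Ix n (k + 1) → K), (θ ^ j) v = fun x => ζ ^ j *
      v (x ∘ (Q'.cycleRange ^ j : Equiv.Perm (Fin (k + 1)))) :=
    fun j v => th_pow21 Q'.cycleRange z j v
  have hθN : θ ^ N = 1 := pow_one21 Q' hζ.pow_eq_one hqN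
  have hθo : orderOf θ = N := by
    apply Nat.dvd_antisymm (orderOf_dvd_of_pow_eq_one hθN)
    rw [← hζ.pow_eq_one_iff_dvd]
    have h1 := pow_orderOf_eq_one θ
    have h2 := congrFun (congrArg (fun f : Equiv.Perm (Ix n (k + 1) → K) =>
      f (fun _ => 1)) h1) (fun _ => (0, ⟨0, hn⟩))
    simp only [hpow] at h2
    simpa using h2
  have hfin : IsOfFinOrder θ := isOfFinOrder_iff_pow_eq_one.mpr ⟨N, hN, hθN⟩
  have hgal := gal21 (n := n) hk2 Q'.cycleRange z hfin
  -- the restriction of the rotation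
  have hrot : ∀ (t : ℕ) (i : Fin (q + 1)),
      (Q'.cycleRange ^ t : Equiv.Perm (Fin (k + 1))) (Fin.castLE hq i) =
        Fin.castLE hq (((finRotate (q + 1)) ^ t : Equiv.Perm (Fin (q + 1))) i) := by
    intro t i
    apply Fin.ext
    rw [cyc_pow21, Fin.val_castLE, Fin.val_castLE, rot_pow21, if_pos]
    exact Nat.lt_succ_iff.mp i.2
  have h0 : ∀ i : Fin (q + 1), (Q'.cycleRange ^ (i : ℕ) : Equiv.Perm (Fin (k + 1))) 0 =
      Fin.castLE hq i := by
    intro i
    apply Fin.ext
    rw [cyc_pow21, Fin.val_zero, if_pos (Nat.zero_le _), zero_add, Fin.val_castLE]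
    exact Nat.mod_eq_of_lt i.2
  -- the denominators
  have hk0 : (0 : ℚ) < ((q + 1 : ℕ) : ℚ) := by positivity
  have hb' : ∀ j, |((q + 1 : ℕ) : ℚ) * b j| ≤ 1 / 2 := by
    intro j
    rw [abs_mul, abs_of_pos hk0]
    calc ((q + 1 : ℕ) : ℚ) * |b j| ≤ ((q + 1 : ℕ) : ℚ) * (1 / (2 * ((q + 1 : ℕ) : ℚ))) :=
          mul_le_mul_of_nonneg_left (hb j) hk0.le
      _ = 1 / 2 := by field_simp
  obtain ⟨Q, c, hQ, hcQ, hc⟩ := den21 (fun j => 1 / 2 + ((q + 1 : ℕ) : ℚ) * b j)
    (fun j => by have := (abs_le.mp (hb' j)).1; linarith)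
    (fun j => by have := (abs_le.mp (hb' j)).2; linarith)
  let Pf : Fin (q + 1) × Fin Q → Matrix (Ix n (k + 1)) (Ix n (k + 1)) K := fun p =>
    loc (Fin.castLE hq p.1) (Matrix.diagonal (D21 K (fun j => (p.2 : ℕ) < c j)))
  have hPf : ∀ p, Pf p = Matrix.diagonal (fun φ : Ix n (k + 1) =>
      D21 K (fun j => (p.2 : ℕ) < c j) (φ (Fin.castLE hq p.1))) := fun p => loc_diag21 _ _
  let M : Fin 2 × Fin n → ℚ := fun p => if p.1 = 0 then c p.2 else Q - c p.2
  have hM : ∀ p, ∑ t : Fin Q, D21 K (fun j => (t : ℕ) < c j) p = (M p : K) := by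
    have h1 : ∀ m ≤ Q, ∑ t : Fin Q, (if (t : ℕ) < m then (1 : K) else 0) = m := by
      intro m hm
      rw [Fin.sum_univ_eq_sum_range (fun t => if t < m then (1 : K) else 0) Q,
        ← Finset.sum_filter]
      have : (Finset.range Q).filter (fun t => t < m) = Finset.range m := by
        ext t
        simp only [Finset.mem_filter, Finset.mem_range]
        omega
      rw [this]
      simp
    rintro ⟨s, j⟩
    simp only [D21, M]
    by_cases hs : s = 0
    · simp only [hs, if_true]
      rw [h1 _ (hcQ j)]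
      simp
    · simp only [hs, if_false]
      have h2 : ∀ t : Fin Q, (if (t : ℕ) < c j then (0 : K) else 1) =
          1 - (if (t : ℕ) < c j then (1 : K) else 0) := by
        intro t
        split_ifs <;> ring
      rw [Finset.sum_congr rfl (fun t _ => h2 t), Finset.sum_sub_distrib, h1 _ (hcQ j)]
      simp
  set e : Fin (q + 1) × Fin Q ≃ Fin ((q + 1) * Q) := finProdFinEquiv with he
  have hsum : ∑ i : Fin ((q + 1) * Q), (1 : ℕ) • Pf (e.symm i) =
      Matrix.diagonal (fun φ : Ix n (k + 1) =>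
        ((∑ i : Fin (q + 1), M (φ (Fin.castLE hq i)) : ℚ) : K)) := by
    rw [Equiv.sum_comp e.symm (fun p => (1 : ℕ) • Pf p), Fintype.sum_prod_type]
    ext x y
    rw [Matrix.sum_apply]
    by_cases hxy : x = y
    · subst hxy
      rw [Matrix.diagonal_apply_eq, Rat.cast_sum]
      apply Finset.sum_congr rfl
      intro i _
      rw [← hM, Matrix.sum_apply]
      apply Finset.sum_congr rfl
      intro t _
      rw [one_smul, hPf, Matrix.diagonal_apply_eq]
    · rw [Matrix.diagonal_apply_ne _ hxy]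
      apply Finset.sum_eq_zero
      intro i _
      rw [Matrix.sum_apply]
      apply Finset.sum_eq_zero
      intro t _
      rw [one_smul, hPf, Matrix.diagonal_apply_ne _ hxy]
  -- the cocharacter
  have hcard : 0 < Fintype.card (Ix n (k + 1)) :=
    Fintype.card_pos_iff.mpr ⟨fun _ => (0, ⟨0, hn⟩)⟩
  have hX : ∀ p : Fin 2 × Fin n, loc (K := K) (0 : Fin (k + 1)) (X0 K n) (fun _ => p)
      (fun _ => p) = if p.1 = 0 then 1 else 0 := by
    intro p
    rw [loc_apply, X0, Matrix.diagonal_apply_eq]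
    simp
  have hπ0 : loc (0 : Fin (k + 1)) (X0 K n) ≠ 0 := by
    intro h
    have h1 := hX (0, ⟨0, hn⟩)
    rw [h] at h1
    simp at h1
  have hπ1 : loc (0 : Fin (k + 1)) (X0 K n) ≠ 1 := by
    intro h
    have h1 := hX (1, ⟨0, hn⟩)
    rw [h, Matrix.one_apply_eq] at h1
    simp at h1
  refine HasPl.mk' hgal
    (GenG_cochar (LU_lag21 (LU_X021 (K := K) (n := n) (k := k) 0)).1 (LU_X021 0)) hπ0 hπ1 ?_ ?_
  · refine ⟨(q + 1) * Q, fun _ => 1, fun i => Pf (e.symm i), ?_, ?_, ?_, ?_, ?_⟩
    · intro i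
      refine ⟨one_pos, ?_⟩
      beta_reduce
      generalize e.symm i = p
      obtain ⟨g, hg, hgw⟩ := weyl_mem21 (K := K) (n := n) (k := k)
        (fun j => (p.2 : ℕ) < c j) (Fin.castLE hq p.1)
      exact ⟨θ ^ (p.1 : ℕ), Subgroup.pow_mem _ (Subgroup.mem_zpowers θ) _, g, hg,
        hcj21 Q'.cycleRange z p.1 (Fin.castLE hq p.1) (h0 p.1) (Pf p) g hgw.symm⟩
    · intro i j
      beta_reduce
      rw [hPf, hPf, Matrix.diagonal_mul_diagonal, Matrix.diagonal_mul_diagonal]
      congr 1
      funext φ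
      rw [mul_comm]
    · intro θ' hθ'
      refine ⟨1, Subgroup.one_mem _, fun v => ?_⟩
      rw [← hfin.mem_powers_iff_mem_zpowers] at hθ'
      obtain ⟨j, rfl⟩ := hθ'
      rw [hsum, Units.val_one, Matrix.one_mulVec, Matrix.one_mulVec]
      funext x
      change _ = (θ ^ j) _ x
      rw [Matrix.mulVec_diagonal]
      change _ * (θ ^ j) v x = _
      rw [hpow, hpow]
      beta_reduce
      rw [Matrix.mulVec_diagonal]
      have e1 : ∑ i, M ((x ∘ (Q'.cycleRange ^ j : Equiv.Perm (Fin (k + 1))))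
          (Fin.castLE hq i)) = ∑ i, M (x (Fin.castLE hq i)) := by
        rw [← Equiv.sum_comp ((finRotate (q + 1)) ^ j : Equiv.Perm (Fin (q + 1)))
          (fun i => M (x (Fin.castLE hq i)))]
        apply Finset.sum_congr rfl
        intro i _
        rw [Function.comp_apply, hrot]
      rw [e1]
      ring
    · rw [Multiset.card_map]
      rfl
    · intro l
      rw [hsum, eig21, Multiset.count_map]
      have hs : ∀ φ : Ix n (k + 1), ∑ i, M (φ (Fin.castLE hq i)) = ((q + 1 : ℕ) : ℚ) * Q *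
          (1 / 2 + ∑ i : Fin (q + 1), if (φ (Fin.castLE hq i)).1 = 0 then
            b (φ (Fin.castLE hq i)).2 else - b (φ (Fin.castLE hq i)).2) := by
        intro φ
        have h1 : ∀ i, M (φ (Fin.castLE hq i)) = Q * (1 / 2) + ((q + 1 : ℕ) : ℚ) * Q *
            (if (φ (Fin.castLE hq i)).1 = 0 then b (φ (Fin.castLE hq i)).2 else
              - b (φ (Fin.castLE hq i)).2) := by
          intro i
          simp only [M]
          split_ifs
          · rw [hc]; ring
          · rw [hc]; ring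
        rw [Finset.sum_congr rfl (fun i _ => h1 i), Finset.sum_add_distrib, Finset.sum_const,
          Finset.card_univ, Fintype.card_fin, nsmul_eq_mul, mul_add, Finset.mul_sum]
        ring
      have h2 : ∀ φ : Ix n (k + 1), (((∑ i, M (φ (Fin.castLE hq i)) : ℚ) : K) =
          ((((∑ _i : Fin ((q + 1) * Q), 1 : ℕ) : ℚ) * l : ℚ) : K)) ↔
          l = 1 / 2 + ∑ i : Fin (q + 1), if (φ (Fin.castLE hq i)).1 = 0 then
            b (φ (Fin.castLE hq i)).2 else - b (φ (Fin.castLE hq i)).2 := by
        intro φ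
        rw [Rat.cast_inj, hs]
        have h3 : (((∑ _i : Fin ((q + 1) * Q), 1 : ℕ) : ℚ)) = ((q + 1 : ℕ) : ℚ) * Q := by
          simp
        rw [h3]
        have h4 : ((q + 1 : ℕ) : ℚ) * Q ≠ 0 := by positivity
        rw [mul_right_inj' h4]
        exact eq_comm
      rw [Nat.card_congr (Equiv.subtypeEquivRight h2), Nat.card_eq_fintype_card,
        Fintype.card_subtype]
      rfl
  · refine ⟨⊥, bot_le, ?_, ?_⟩
    · rw [Subgroup.relIndex_bot_left, Nat.card_zpowers, hθo]
    · intro θ' hθ'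
      rw [Subgroup.mem_bot] at hθ'
      subst hθ'
      refine ⟨1, Subgroup.one_mem _, fun v => ?_⟩
      rw [Units.val_one, Matrix.one_mulVec, Matrix.one_mulVec]
      rfl

end place

theorem jbad_tensor {K : Type*} [Field K] [IsAlgClosed K] [CharZero K] {k d : ℕ} (hk3 : 3 ≤ k)
    (hk : Odd k) (hd0 : 0 < d) (hd : Even d) : JBad K (TensorAt k d) := by
  classical
  obtain ⟨k, rfl⟩ : ∃ l, k = l + 1 := ⟨k - 1, by omega⟩
  obtain ⟨n, rfl⟩ := hd
  have hn : 0 < n := by omega
  refine ⟨Ix n (k + 1), inferInstance, inferInstance, Nor (GT21 K n k),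
    Jt (k + 1) (J1 K n), GT21 K n k, loc 0 (X0 K n), strong21 hk, ?_, ?_, ?_⟩
  · intro U hU
    apply LU_irr21
    intro π hπ v hv
    obtain ⟨g, hg, hgt⟩ := (GenG_cochar (LU_lag21 hπ).1 hπ).2 2 two_ne_zero
    have h1 := hU g hg v hv
    have h2 : (g : Matrix _ _ K).mulVec v = π.mulVec v + v := by
      rw [hgt]
      have : (2 : K) • π + (1 - π) = π + 1 := by rw [two_smul]; abel
      rw [this, Matrix.add_mulVec, Matrix.one_mulVec]
    rw [h2] at h1
    have := U.sub_mem h1 hv
    rwa [add_sub_cancel_right] at this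
  · rintro Λ N hN ⟨j, a, hj0, hjk, hjN, hs, ha, rfl⟩
    obtain ⟨q, rfl⟩ : ∃ l, j = l + 1 := ⟨j - 1, by omega⟩
    obtain ⟨n', b, e, hdn, he⟩ := pair21 ⟨n, rfl⟩ a hs
    obtain rfl : n' = n := by omega
    have hb : ∀ j, |b j| ≤ 1 / (2 * ((q + 1 : ℕ) : ℚ)) := by
      intro j
      have h1 := ha (e (0, j))
      rw [he] at h1
      simpa using h1
    have h2 := place21 (K := K) hn hk hjk hjN hN b hb
    obtain ⟨r, hr⟩ : ∃ r, k + 1 = (q + 1) + r := ⟨k + 1 - (q + 1), by omega⟩
    have h3 : (n' + n') ^ (k + 1 - (q + 1)) • (Finset.univ : Finset (Fin (q + 1) →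
        Fin (n' + n'))).val.map (fun φ : Fin (q + 1) → Fin (n' + n') => 1 / 2 + ∑ i, a (φ i)) =
        (Finset.univ : Finset (Ix n' (k + 1))).val.map
        (fun φ => 1 / 2 + ∑ i : Fin (q + 1), if (φ (Fin.castLE hjk i)).1 = 0 then
          b (φ (Fin.castLE hjk i)).2 else - b (φ (Fin.castLE hjk i)).2) := by
      have h4 : (Finset.univ : Finset (Fin (q + 1) → Fin (n' + n'))).val.map
          (fun φ : Fin (q + 1) → Fin (n' + n') => 1 / 2 + ∑ i, a (φ i)) =
          (Finset.univ : Finset (Fin (q + 1) → Fin 2 × Fin n')).val.map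
          (fun φ => 1 / 2 + ∑ i, if (φ i).1 = 0 then b (φ i).2 else - b (φ i).2) := by
        rw [← Multiset.map_univ_val_equiv (Equiv.arrowCongr (Equiv.refl (Fin (q + 1))) e),
          Multiset.map_map]
        apply Multiset.map_congr rfl
        intro φ _
        simp only [Function.comp_apply]
        congr 1
        apply Finset.sum_congr rfl
        intro i _
        rw [← he]
        rfl
      have hcd : Fintype.card (Fin r → Fin 2 × Fin n') = (n' + n') ^ (k + 1 - (q + 1)) := by
        rw [Fintype.card_fun, Fintype.card_prod, Fintype.card_fin, Fintype.card_fin,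
          Fintype.card_fin]
        congr 1
        · ring
        · omega
      rw [h4, ← hcd, ← mult21]
      rw [← Multiset.map_univ_val_equiv ((Fin.appendEquiv (q + 1) r).trans
        (Equiv.arrowCongr (finCongr hr.symm) (Equiv.refl (Fin 2 × Fin n')))), Multiset.map_map]
      apply Multiset.map_congr rfl
      intro φ _
      simp only [Function.comp_apply]
      congr 1
      have h5 : ∀ i : Fin (q + 1), (((Fin.appendEquiv (q + 1) r).trans
          (Equiv.arrowCongr (finCongr hr.symm) (Equiv.refl (Fin 2 × Fin n')))) φ)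
          (Fin.castLE hjk i) = φ.1 i := by
        intro i
        change Fin.append φ.1 φ.2 ((finCongr hr.symm).symm (Fin.castLE hjk i)) = φ.1 i
        have h6 : (finCongr hr.symm).symm (Fin.castLE hjk i) = Fin.castAdd r i := by
          apply Fin.ext
          simp
        rw [h6, Fin.append_left]
      apply Finset.sum_congr rfl
      intro i _
      rw [h5]
    rw [h3]
    exact h2
  · by_contra hcon
    push Not at hcon
    apply not_full_ex (K := K) hn (by omega) hk
    intro g hg _
    exact GT21_le (hcon g hg)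

end PR
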