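import Pool.Agent.Helper27.PR.JDefs
import Pool.Agent.Helper43.PR.ShStr

/-!
Block JSW. One strong pair of the wedge type with all the places.

`G = Gw K n`, `J = Jw K n`, `π = M K n i0 i0` (`Helper43/PR/ShStr.lean`, `Gw_pair`, `Gw_irr`,
`Gw_cochar`, `Gw_gen`, `Gw_not`), `Γ = Nor G` (`strong_nor`, with `strong_mk`). Places: the proof of
`bad_scalarsS` gives `IsGalPair (scal K m N) J G`, `HasSlopes` and `HasIndex` for the first kind
(restate it so that these are in the conclusion, cf. `wedge_oneS`); `wedge_two_gal` gives the second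
kind. `HasPl.mk'` (`JDefs.lean`). `π ≠ 0, 1`: diagonal entries.
-/

open Module MTPairs

namespace PR

/-- The scalars are symmetries of every pair. -/
private lemma scal_gal_h4 {K : Type*} [Field K] [CharZero K] [IsAlgClosed K] {m : Type} [Fintype m]
    [DecidableEq m] {J : Matrix m m K} {G : Subgroup (Matrix.GeneralLinearGroup m K)}
    (hG : IsMTPair J G) {N : ℕ} : IsGalPair (scal K m N) J G := by
  refine ⟨hG, semi_scal, ?_⟩
  intro θ hθ g hg
  obtain ⟨ζ, -, h⟩ := mem_scal.mp hθ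
  exact ⟨g, hg, fun v => by rw [h, h, Matrix.mulVec_smul]⟩

/-- A place with the scalars as symmetries. -/
private lemma scal_place_h4 {K : Type*} [Field K] [CharZero K] [IsAlgClosed K] {m : Type}
    [Fintype m] [DecidableEq m] [Nonempty m] {J : Matrix m m K}
    {G : Subgroup (Matrix.GeneralLinearGroup m K)} {π : Matrix m m K} (hG : IsMTPair J G)
    (hπ : IsCochar G π) (hπ0 : π ≠ 0) (hπ1 : π ≠ 1)
    {κ : Type*} [Fintype κ] (w : κ → ℚ)
    (hw : ∀ k, 0 ≤ w k) (hw1 : ∑ k, w k = 1) (S : κ → m → Prop) [∀ k i, Decidable (S k i)]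
    (hconj : ∀ k, 0 < w k → ∃ g ∈ G,
      Matrix.diagonal (fun i => if S k i then (1 : K) else 0) * (g : Matrix m m K) =
        (g : Matrix m m K) * π)
    (d : m → ℚ) (hd : ∀ i, d i = ∑ k, if S k i then w k else 0)
    {N : ℕ} (hN : 0 < N) : HasPl (Nor G) G (Finset.univ.val.map d) N := by
  refine HasPl.mk' (scal_gal_h4 (N := N) hG) hπ hπ0 hπ1 ?_ ?_
  · refine hasSlopes_diag w hw hw1 S ?_ d hd semi_scal ?_
    · intro k hk
      obtain ⟨g, hg, h⟩ := hconj k hk
      refine ⟨1, Subgroup.one_mem _, g, hg, fun v => ?_⟩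
      rw [Equiv.Perm.one_apply, Equiv.Perm.one_apply, Matrix.mulVec_mulVec,
        Matrix.mulVec_mulVec, h]
    · intro θ hθ
      obtain ⟨ζ, -, h⟩ := mem_scal.mp hθ
      refine ⟨1, Subgroup.one_mem _, fun v => ?_⟩
      rw [Units.val_one, Matrix.one_mulVec, Matrix.one_mulVec, h, h, Matrix.mulVec_smul]
  · refine ⟨⊥, bot_le, ?_, ?_⟩
    · rw [Subgroup.relIndex_bot_left, card_scal hN]
    · intro θ hθ
      rw [Subgroup.mem_bot] at hθ
      refine ⟨1, Subgroup.one_mem _, fun v => ?_⟩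
      rw [hθ, Units.val_one, Matrix.one_mulVec, Matrix.one_mulVec]
      rfl

open TR.W3 TR.Wdg

theorem jbad_wedge {K : Type*} [Field K] [IsAlgClosed K] [CharZero K] {n : ℕ} (h3 : 3 ≤ n)
    (hn : Odd n) : JBad K (WedgeAt n) := by
  classical
  have hπ0 : M K n (⟨0, by omega⟩ : Fin (2 * n)) ⟨0, by omega⟩ ≠ 0 := by
    obtain ⟨S, hS, hc⟩ : ∃ S : Finset (Fin (2 * n)), {(⟨0, by omega⟩ : Fin (2 * n))} ⊆ S ∧
        S.card = n := by
      obtain ⟨S, h1, -, h2⟩ := Finset.exists_subsuperset_card_eq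
        (Finset.subset_univ {(⟨0, by omega⟩ : Fin (2 * n))}) (n := n)
        (by rw [Finset.card_singleton]; omega)
        (by rw [Finset.card_univ, Fintype.card_fin]; omega)
      exact ⟨S, h1, h2⟩
    intro h
    have h1 := congrFun (congrFun h (⟨S, hc⟩ : Ix (Fin (2 * n)) n)) ⟨S, hc⟩
    rw [M_same, Matrix.diagonal_apply_eq, Matrix.zero_apply,
      if_pos (hS (Finset.mem_singleton_self _))] at h1
    exact one_ne_zero h1
  have hπ1 : M K n (⟨0, by omega⟩ : Fin (2 * n)) ⟨0, by omega⟩ ≠ 1 := by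
    obtain ⟨S, hS, hc⟩ : ∃ S : Finset (Fin (2 * n)),
        S ⊆ Finset.univ.erase (⟨0, by omega⟩ : Fin (2 * n)) ∧ S.card = n := by
      refine Finset.exists_subset_card_eq ?_
      rw [Finset.card_erase_of_mem (Finset.mem_univ _), Finset.card_univ, Fintype.card_fin]
      omega
    intro h
    have h1 := congrFun (congrFun h (⟨S, hc⟩ : Ix (Fin (2 * n)) n)) ⟨S, hc⟩
    rw [M_same, Matrix.diagonal_apply_eq, Matrix.one_apply_eq,
      if_neg (fun h2 => Finset.notMem_erase _ _ (hS h2))] at h1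
    exact zero_ne_one h1
  have hco : IsCochar (Gw K n) (M K n (⟨0, by omega⟩ : Fin (2 * n)) ⟨0, by omega⟩) :=
    Gw_cochar (Or.inl ⟨_, rfl⟩)
  have hne : Nonempty (Ix (Fin (2 * n)) n) := by
    obtain ⟨S, -, hS⟩ : ∃ S : Finset (Fin (2 * n)), S ⊆ Finset.univ ∧ S.card = n :=
      Finset.exists_subset_card_eq (by rw [Finset.card_univ, Fintype.card_fin]; omega)
    exact ⟨⟨S, hS⟩⟩
  refine ⟨Ix (Fin (2 * n)) n, inferInstance, inferInstance, Nor (Gw K n), Jw K n, Gw K n,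
    M K n (⟨0, by omega⟩ : Fin (2 * n)) ⟨0, by omega⟩,
    strong_nor (strong_mk (scal_gal_h4 (N := 1) (Gw_pair hn)) hco (Gw_gen _)), Gw_irr, ?_,
    Gw_not hn h3⟩
  rintro Λ N hN ⟨x, ⟨hx, hx1, rfl⟩ | ⟨hev, hx, hx1, rfl⟩⟩
  · rw [← map_slopes]
    refine scal_place_h4 (Gw_pair hn) hco hπ0 hπ1 x hx hx1 (fun i I => i ∈ I.1) ?_ _ ?_ hN
    · intro i _
      obtain ⟨g, hg, h⟩ := Gw_perm (K := K) (Equiv.swap (⟨0, by omega⟩ : Fin (2 * n)) i)
      refine ⟨g, hg, ?_⟩
      have h1 := h ⟨0, by omega⟩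
      rw [Equiv.swap_apply_left] at h1
      rw [← M_same]
      exact h1
    · intro I
      rw [← Finset.sum_ite_mem_eq]
  · obtain ⟨Γ, h1, h2, h4⟩ := wedge_two_gal (K := K) hn h3 x hx hx1 hN hev
    exact HasPl.mk' h1 hco hπ0 hπ1 h2 h4

end PR
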