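import Pool.Agent.Helper27.PR.JFwd
import Pool.Agent.Helper27.PR.JShT
import Pool.Agent.Helper27.PR.JShW
import Pool.Agent.Helper27.PR.JShS

/-!
The criterion for several places.
-/

open Module MTPairs MTP

namespace PR

variable {K : Type*} [Field K] [IsAlgClosed K] [CharZero K]

lemma jfull_empty {m : Type*} [Fintype m] [DecidableEq m] [IsEmpty m]
    (J : Matrix m m K) (G : Subgroup (Matrix.GeneralLinearGroup m K))
    (g : Matrix.GeneralLinearGroup m K)
    (_ : ∃ c : K, (g : Matrix m m K).transpose * J * (g : Matrix m m K) = c • J) : g ∈ G := by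
  have : g = 1 := by
    apply Units.ext
    exact Subsingleton.elim _ _
  rw [this]
  exact G.one_mem

/-- Exceptional sets are realised by strong pairs which are not full. -/
theorem jbad {R : Set (Multiset ℚ × ℕ)} (hR : ∀ r ∈ R, 0 < r.2) (h : Exceptional R) :
    ∃ (m : Type) (_ : Fintype m) (_ : DecidableEq m) (Γ : Subgroup (Equiv.Perm (m → K)))
      (J : Matrix m m K) (G : Subgroup (Matrix.GeneralLinearGroup m K)) (π : Matrix m m K),
      IsStrongMTPair Γ J G π ∧ IsIrr G ∧ (∀ r ∈ R, HasPl Γ G r.1 r.2) ∧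
      ∃ g : Matrix.GeneralLinearGroup m K,
        (∃ c : K, (g : Matrix m m K).transpose * J * (g : Matrix m m K) = c • J) ∧ g ∉ G := by
  rcases h with ⟨k, d, h1, h2, h3, h4, h5⟩ | ⟨n, h1, h2, h5⟩ | ⟨q, h1, h2, h5⟩
  · obtain ⟨m, i1, i2, Γ, J, G, π, e1, e2, e3, e4⟩ := jbad_tensor (K := K) h1 h2 h3 h4
    exact ⟨m, i1, i2, Γ, J, G, π, e1, e2, fun r hr => e3 _ _ (hR r hr) (h5 r hr), e4⟩
  · obtain ⟨m, i1, i2, Γ, J, G, π, e1, e2, e3, e4⟩ := jbad_wedge (K := K) h1 h2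
    exact ⟨m, i1, i2, Γ, J, G, π, e1, e2, fun r hr => e3 _ _ (hR r hr) (h5 r hr), e4⟩
  · obtain ⟨m, i1, i2, Γ, J, G, π, e1, e2, e3, e4⟩ := jbad_spin (K := K) h1 h2
    exact ⟨m, i1, i2, Γ, J, G, π, e1, e2, fun r hr => e3 _ _ (hR r hr) (h5 r hr), e4⟩

/-- Strong pairs. -/
theorem jcrit_strong (R : Set (Multiset ℚ × ℕ)) (hR : ∀ r ∈ R, 0 < r.2) :
    (∀ (m : Type) [Fintype m] [DecidableEq m] (Γ : Subgroup (Equiv.Perm (m → K)))
      (J : Matrix m m K) (G : Subgroup (Matrix.GeneralLinearGroup m K)) (π : Matrix m m K),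
      IsStrongMTPair Γ J G π → IsIrr G → (∀ r ∈ R, HasPl Γ G r.1 r.2) →
      ∀ g : Matrix.GeneralLinearGroup m K,
        (∃ c : K, (g : Matrix m m K).transpose * J * (g : Matrix m m K) = c • J) → g ∈ G) ↔
    ¬ Exceptional R := by
  constructor
  · intro h hx
    obtain ⟨m, i1, i2, Γ, J, G, π, e1, e2, e3, g, e4, e5⟩ := jbad (K := K) hR hx
    exact e5 (h m Γ J G π e1 e2 e3 g e4)
  · intro h m _ _ Γ J G π h1 h2 h3 g hg
    rcases isEmpty_or_nonempty m with he | hne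
    · exact jfull_empty J G g hg
    · obtain ⟨hsk, hS⟩ := tsmp_strong h1 h2
      rcases jforward (strong_gal h1) h2 hsk h1.coch hS R h3 with h4 | h4
      · exact h4 g hg
      · exact absurd h4 h

/-- Weak pairs. -/
theorem jcrit_weak (R : Set (Multiset ℚ × ℕ)) (hR : ∀ r ∈ R, 0 < r.2)
    (hodd : ∃ r ∈ R, ∃ l, Odd (r.1.count l)) :
    (∀ (m : Type) [Fintype m] [DecidableEq m] (Γ : Subgroup (Equiv.Perm (m → K)))
      (J : Matrix m m K) (G : Subgroup (Matrix.GeneralLinearGroup m K)),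
      IsGalPair Γ J G → IsIrr G → (∀ r ∈ R, HasPl Γ G r.1 r.2) →
      ∀ g : Matrix.GeneralLinearGroup m K,
        (∃ c : K, (g : Matrix m m K).transpose * J * (g : Matrix m m K) = c • J) → g ∈ G) ↔
    ¬ Exceptional R := by
  constructor
  · intro h hx
    obtain ⟨m, i1, i2, Γ, J, G, π, e1, e2, e3, g, e4, e5⟩ := jbad (K := K) hR hx
    exact e5 (h m Γ J G (strong_gal e1) e2 e3 g e4)
  · intro h m _ _ Γ J G h1 h2 h3 g hg
    rcases isEmpty_or_nonempty m with he | hne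
    · exact jfull_empty J G g hg
    · obtain ⟨⟨Λ0, N0⟩, hr0, l, hl⟩ := hodd
      obtain ⟨Γv, hle, πv, k1, k2, k3, k4, k5⟩ := h3 _ hr0
      have hG := h1.mono hle
      obtain ⟨n, c, p, NN, hcard, hcount⟩ := newt_of_slopes hG k1 k4
      have D := wstr hG h2
      obtain ⟨hsk, hS⟩ := D.tsmp NN (μ := (((∑ i, c i : ℕ) * l : ℚ) : K)) (by
        rw [hcount]; exact hl)
      have hS' : TSmp (WL (Matrix.toBilin' J) (GE G)) (TE Γ) :=
        fun M hM hT => hS M hM fun τ hτ => hT τ (te_mono hle hτ)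
      rcases jforward h1 h2 hsk k1 hS' R h3 with h4 | h4
      · exact h4 g hg
      · exact absurd h4 h

end PR
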