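import Pool.Agent.Helper27.PR.SDefs

/-!
Several places of one pair: the three families of pairs (slopes, index), and the group of all the
semilinear symmetries of a group.
-/

open Module MTPairs

namespace PR

section places

variable {K : Type*} [Field K] {m : Type*} [Fintype m] [DecidableEq m]

/-- There is a subgroup `Γv` of `Γ` and a cocharacter `πv` of `G` with both weights `0` and `1`
with the slopes `Λ` and the index `N`. -/
def HasPl (Γ : Subgroup (Equiv.Perm (m → K))) (G : Subgroup (Matrix.GeneralLinearGroup m K))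
    (Λ : Multiset ℚ) (N : ℕ) : Prop :=
  ∃ Γv ≤ Γ, ∃ πv : Matrix m m K, IsCochar G πv ∧ πv ≠ 0 ∧ πv ≠ 1 ∧
    HasSlopes Γv G πv Λ ∧ HasIndex Γv G πv N

/-- The group of the semilinear automorphisms of `K^m` which normalise `G`. -/
def Nor (G : Subgroup (Matrix.GeneralLinearGroup m K)) : Subgroup (Equiv.Perm (m → K)) where
  carrier := {θ | (IsSemilinear θ ∧ ∀ g ∈ G, ∃ g' ∈ G, ∀ v : m → K,
      (g' : Matrix m m K).mulVec (θ v) = θ ((g : Matrix m m K).mulVec v)) ∧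
    (IsSemilinear θ⁻¹ ∧ ∀ g ∈ G, ∃ g' ∈ G, ∀ v : m → K,
      (g' : Matrix m m K).mulVec (θ⁻¹ v) = θ⁻¹ ((g : Matrix m m K).mulVec v))}
  one_mem' := by
    have h : IsSemilinear (1 : Equiv.Perm (m → K)) ∧ ∀ g ∈ G, ∃ g' ∈ G, ∀ v : m → K,
        (g' : Matrix m m K).mulVec ((1 : Equiv.Perm (m → K)) v) =
          (1 : Equiv.Perm (m → K)) ((g : Matrix m m K).mulVec v) :=
      ⟨⟨RingEquiv.refl K, fun v w => rfl, fun c v => rfl⟩, fun g hg => ⟨g, hg, fun v => rfl⟩⟩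
    refine ⟨h, ?_⟩
    rw [inv_one]
    exact h
  inv_mem' := by
    rintro θ ⟨h1, h2⟩
    refine ⟨h2, ?_⟩
    rw [inv_inv]
    exact h1
  mul_mem' := by
    have key : ∀ a b : Equiv.Perm (m → K),
        (IsSemilinear a ∧ ∀ g ∈ G, ∃ g' ∈ G, ∀ v : m → K,
          (g' : Matrix m m K).mulVec (a v) = a ((g : Matrix m m K).mulVec v)) →
        (IsSemilinear b ∧ ∀ g ∈ G, ∃ g' ∈ G, ∀ v : m → K,
          (g' : Matrix m m K).mulVec (b v) = b ((g : Matrix m m K).mulVec v)) →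
        (IsSemilinear (a * b) ∧ ∀ g ∈ G, ∃ g' ∈ G, ∀ v : m → K,
          (g' : Matrix m m K).mulVec ((a * b) v) = (a * b) ((g : Matrix m m K).mulVec v)) := by
      rintro a b ⟨⟨σ, h1, h2⟩, h3⟩ ⟨⟨τ, k1, k2⟩, k3⟩
      refine ⟨⟨τ.trans σ, fun v w => ?_, fun c v => ?_⟩, fun g hg => ?_⟩
      · rw [Equiv.Perm.mul_apply, Equiv.Perm.mul_apply, Equiv.Perm.mul_apply, k1, h1]
      · rw [Equiv.Perm.mul_apply, Equiv.Perm.mul_apply, k2, h2, RingEquiv.trans_apply]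
      · obtain ⟨g1, hg1, e1⟩ := k3 g hg
        obtain ⟨g2, hg2, e2⟩ := h3 g1 hg1
        exact ⟨g2, hg2, fun v => by
          rw [Equiv.Perm.mul_apply, Equiv.Perm.mul_apply, e2, e1]⟩
    rintro a b ⟨h1, h2⟩ ⟨k1, k2⟩
    refine ⟨key a b h1 k1, ?_⟩
    rw [mul_inv_rev]
    exact key _ _ k2 h2

theorem le_nor {Γ : Subgroup (Equiv.Perm (m → K))} {J : Matrix m m K}
    {G : Subgroup (Matrix.GeneralLinearGroup m K)} (h : IsGalPair Γ J G) : Γ ≤ Nor G :=
  fun θ hθ => ⟨⟨h.semi θ hθ, h.norm θ hθ⟩,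
    ⟨h.semi _ (Γ.inv_mem hθ), h.norm _ (Γ.inv_mem hθ)⟩⟩

theorem strong_nor {Γ : Subgroup (Equiv.Perm (m → K))} {J : Matrix m m K}
    {G : Subgroup (Matrix.GeneralLinearGroup m K)} {π : Matrix m m K}
    (h : IsStrongMTPair Γ J G π) : IsStrongMTPair (Nor G) J G π :=
  { skew := h.skew
    det := h.det
    sim := h.sim
    closed := h.closed
    semi := fun θ hθ => hθ.1.1
    norm := fun θ hθ => hθ.1.2
    coch := h.coch
    gen := fun H hH hP => h.gen H hH fun P ⟨θ, hθ, g, hg, e⟩ =>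
      hP P ⟨θ, le_nor (strong_gal h) hθ, g, hg, e⟩ }

/-- Restriction of the symmetries. -/
theorem IsGalPair.mono {Γ Γv : Subgroup (Equiv.Perm (m → K))} {J : Matrix m m K}
    {G : Subgroup (Matrix.GeneralLinearGroup m K)} (h : IsGalPair Γ J G) (hle : Γv ≤ Γ) :
    IsGalPair Γv J G :=
  { toIsMTPair := h.toIsMTPair
    semi := fun θ hθ => h.semi θ (hle hθ)
    norm := fun θ hθ => h.norm θ (hle hθ) }

/-- A place from a pair with the same group. -/
theorem HasPl.mk' {Γv : Subgroup (Equiv.Perm (m → K))} {J : Matrix m m K}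
    {G : Subgroup (Matrix.GeneralLinearGroup m K)} {πv : Matrix m m K} {Λ : Multiset ℚ} {N : ℕ}
    (h : IsGalPair Γv J G) (h1 : IsCochar G πv) (h2 : πv ≠ 0) (h3 : πv ≠ 1)
    (h4 : HasSlopes Γv G πv Λ) (h5 : HasIndex Γv G πv N) : HasPl (Nor G) G Λ N :=
  ⟨Γv, le_nor h, πv, h1, h2, h3, h4, h5⟩

end places

/-- The family of the tensor polygons for `k` factors of dimension `d`: the sums of one half and of
`j` terms of a symmetric family of `d` numbers of absolute value at most `1 / (2 j)`, with the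
multiplicities multiplied by `d ^ (k - j)`, for a divisor `j ≤ k` of `N`. -/
def TensorAt (k d : ℕ) (Λ : Multiset ℚ) (N : ℕ) : Prop :=
  ∃ (j : ℕ) (a : Fin d → ℚ), 0 < j ∧ j ≤ k ∧ j ∣ N ∧ Symm a ∧ (∀ i, |a i| ≤ 1 / (2 * j)) ∧
    Λ = d ^ (k - j) • Finset.univ.val.map (fun φ : Fin j → Fin d => 1 / 2 + ∑ i, a (φ i))

/-- The family of the wedge polygons. -/
def WedgeAt (n : ℕ) (Λ : Multiset ℚ) (N : ℕ) : Prop :=
  ∃ x : Fin (2 * n) → ℚ,
    ((∀ i, 0 ≤ x i) ∧ ∑ i, x i = 1 ∧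
      Λ = (Finset.powersetCard n Finset.univ).val.map (fun I => ∑ i ∈ I, x i)) ∨
    (Even N ∧ Symm x ∧ ∑ i, |x i| ≤ 1 ∧
      Λ = (Finset.powersetCard n Finset.univ).val.map (fun I => 1 / 2 + ∑ i ∈ I, x i))

/-- The family of the spin polygons. -/
def SpinAt (q : ℕ) (Λ : Multiset ℚ) : Prop :=
  ∃ x : Fin (q + 1) → ℚ, (q % 4 = 1 ∨ x 0 = 0) ∧ ∑ i, |x i| ≤ 1 ∧
    Λ = (Finset.univ.filter (fun I : Finset (Fin (q + 1)) => Even I.card)).val.map
      (fun I => 1 / 2 + 1 / 2 * ∑ i, if i ∈ I then - x i else x i)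

/-- The set `R` of pairs (slopes, index) is in one of the families. -/
def Exceptional (R : Set (Multiset ℚ × ℕ)) : Prop :=
  (∃ k d, 3 ≤ k ∧ Odd k ∧ 0 < d ∧ Even d ∧ ∀ r ∈ R, TensorAt k d r.1 r.2) ∨
  (∃ n, 3 ≤ n ∧ Odd n ∧ ∀ r ∈ R, WedgeAt n r.1 r.2) ∨
  (∃ q, 5 ≤ q ∧ (q % 4 = 1 ∨ q % 4 = 2) ∧ ∀ r ∈ R, SpinAt q r.1)

/-- There is one strong pair which is not full and has a place with data `(Λ, N)` for every
`(Λ, N)` in the family `F`, `N > 0`. -/
def JBad (K : Type*) [Field K] (F : Multiset ℚ → ℕ → Prop) : Prop :=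
  ∃ (m : Type) (_ : Fintype m) (_ : DecidableEq m) (Γ : Subgroup (Equiv.Perm (m → K)))
    (J : Matrix m m K) (G : Subgroup (Matrix.GeneralLinearGroup m K)) (π : Matrix m m K),
    IsStrongMTPair Γ J G π ∧ IsIrr G ∧
    (∀ (Λ : Multiset ℚ) (N : ℕ), 0 < N → F Λ N → HasPl Γ G Λ N) ∧
    ∃ g : Matrix.GeneralLinearGroup m K,
      (∃ c : K, (g : Matrix m m K).transpose * J * (g : Matrix m m K) = c • J) ∧ g ∉ G

end PR
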