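import Pool.Agent.Helper27.PR.JDefs

/-!
Block JN. Cardinalities.

`(2 n).choose n` is not a power of two for `n ≥ 3`: there is a prime `p` with `n < p ≤ 2 n`
(`Nat.exists_prime_lt_and_le_two_mul`), `p` is odd and divides `(2 n).choose n`
(`Nat.factorization`, or: `(2 n)! = (2 n).choose n * (n ! * n !)`).
-/

namespace PR

theorem choose_ne_two_pow {n q : ℕ} (h3 : 3 ≤ n) : (2 * n).choose n ≠ 2 ^ q := by
  intro h
  obtain ⟨p, hp, h1, h2⟩ := Nat.exists_prime_lt_and_le_two_mul n (by omega)
  have h4 : p ∣ (2 * n).factorial := (Nat.Prime.dvd_factorial hp).mpr h2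
  have h5 : (2 * n).choose n * n.factorial * (2 * n - n).factorial = (2 * n).factorial :=
    Nat.choose_mul_factorial_mul_factorial (by omega)
  have h6 : 2 * n - n = n := by omega
  rw [h6] at h5
  rw [← h5] at h4
  have h7 : ¬ p ∣ n.factorial := by
    rw [Nat.Prime.dvd_factorial hp]
    omega
  rcases (Nat.Prime.dvd_mul hp).mp h4 with h8 | h8
  · rcases (Nat.Prime.dvd_mul hp).mp h8 with h9 | h9
    · rw [h] at h9
      have h10 := (Nat.prime_dvd_prime_iff_eq hp Nat.prime_two).mp (hp.dvd_of_dvd_pow h9)
      omega
    · exact h7 h9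
  · exact h7 h8

theorem choose_inj {n n' : ℕ} (h : (2 * n).choose n = (2 * n').choose n') : n = n' := by
  have h1 : Nat.centralBinom n = Nat.centralBinom n' := h
  exact Nat.centralBinom_strictMono.injective h1

theorem TensorAt.card {k d : ℕ} {Λ : Multiset ℚ} {N : ℕ} (h : TensorAt k d Λ N) :
    Λ.card = d ^ k := by
  obtain ⟨j, a, h1, h2, h3, h4, h5, rfl⟩ := h
  rw [Multiset.card_nsmul, Multiset.card_map, Finset.card_val, Finset.card_univ, Fintype.card_fun,
    Fintype.card_fin, Fintype.card_fin, ← pow_add]
  congr 1
  omega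

theorem WedgeAt.card {n : ℕ} {Λ : Multiset ℚ} {N : ℕ} (h : WedgeAt n Λ N) :
    Λ.card = (2 * n).choose n := by
  obtain ⟨x, ⟨h1, h2, rfl⟩ | ⟨h1, h2, h3, rfl⟩⟩ := h
  · rw [Multiset.card_map, Finset.card_val, Finset.card_powersetCard, Finset.card_univ,
      Fintype.card_fin]
  · rw [Multiset.card_map, Finset.card_val, Finset.card_powersetCard, Finset.card_univ,
      Fintype.card_fin]

private theorem card_even67 (q : ℕ) :
    (Finset.univ.filter (fun I : Finset (Fin (q + 1)) => Even I.card)).card = 2 ^ q := by
  have h1 : (Finset.univ.filter (fun I : Finset (Fin (q + 1)) => Even I.card)).card =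
      (Finset.univ.filter (fun I : Finset (Fin (q + 1)) => ¬ Even I.card)).card := by
    have hinv : ∀ I : Finset (Fin (q + 1)), symmDiff (symmDiff I {0}) {0} = I := by
      intro I
      rw [symmDiff_assoc, symmDiff_self, Finset.bot_eq_empty, ← Finset.bot_eq_empty, symmDiff_bot]
    have hpar : ∀ I : Finset (Fin (q + 1)), (Even (symmDiff I {0}).card ↔ ¬ Even I.card) := by
      intro I
      by_cases h0 : (0 : Fin (q + 1)) ∈ I
      · have e : symmDiff I {0} = I.erase 0 := by
          ext a
          simp only [Finset.mem_symmDiff, Finset.mem_singleton, Finset.mem_erase]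
          constructor
          · rintro (⟨ha, hb⟩ | ⟨ha, hb⟩)
            · exact ⟨hb, ha⟩
            · subst ha
              exact absurd h0 hb
          · rintro ⟨ha, hb⟩
            exact Or.inl ⟨hb, ha⟩
        have hc := Finset.card_erase_add_one h0
        rw [e, ← hc, Nat.even_add_one, not_not]
      · have e : symmDiff I {0} = insert 0 I := by
          ext a
          simp only [Finset.mem_symmDiff, Finset.mem_singleton, Finset.mem_insert]
          constructor
          · rintro (⟨ha, hb⟩ | ⟨ha, hb⟩)
            · exact Or.inr ha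
            · exact Or.inl ha
          · rintro (ha | ha)
            · subst ha
              exact Or.inr ⟨rfl, h0⟩
            · refine Or.inl ⟨ha, ?_⟩
              rintro rfl
              exact h0 ha
        rw [e, Finset.card_insert_of_notMem h0, Nat.even_add_one]
    refine Finset.card_bij' (fun I _ => symmDiff I {0}) (fun I _ => symmDiff I {0}) ?_ ?_ ?_ ?_
    · intro I hI
      simp only [Finset.mem_filter, Finset.mem_univ, true_and] at hI ⊢
      rw [hpar]
      exact fun h => h hI
    · intro I hI
      simp only [Finset.mem_filter, Finset.mem_univ, true_and] at hI ⊢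
      rw [hpar]
      exact hI
    · intro I _
      exact hinv I
    · intro I _
      exact hinv I
  have h2 := Finset.card_filter_add_card_filter_not (s := (Finset.univ : Finset (Finset (Fin (q + 1)))))
    (fun I : Finset (Fin (q + 1)) => Even I.card)
  rw [← h1, Finset.card_univ, Fintype.card_finset, Fintype.card_fin, pow_succ] at h2
  omega

theorem SpinAt.card {q : ℕ} {Λ : Multiset ℚ} (h : SpinAt q Λ) : Λ.card = 2 ^ q := by
  obtain ⟨x, h1, h2, rfl⟩ := h
  rw [Multiset.card_map, Finset.card_val, card_even67]

end PR
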