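import Pool.Agent.Helper27.PR.Ten
import Pool.Agent.Helper27.PR.Orb

/-!
Block JT. The slopes in the tensor case when the symmetries do not permute the minimal ideals
transitively.

As `WStr.tensor` (`Ten.lean`) and `WStr.orbit` (`Orb.lean`), but without the hypothesis
`TSmp (WL ω G) T`: `L = WL ω G` is a direct sum of `k` minimal ideals (`Dec`), and `j` is the length
of the orbit under `T` of the minimal ideal `I` which contains `2 p0 - 1`. Every `s i = 2 p i - 1`
is in an ideal of the orbit (`p i = g (τ p0) h`, `τ ∈ T`). So in the notation of `Ten.lean`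
`S_M = 0` for the minimal ideals `M` outside the orbit (`m_M z = d` for `z = 0` and `0` for `z ≠ 0`),
`m_{τ I} = m_I =: m` for `τ ∈ T` (step (4), no transitivity needed), `j * C_0 ≤ C` for the least
`C_0` of the `C_{τ I}`. In the induction (6) over `Dec`, with `j'` the number of the ideals of the
orbit in the decomposition of `M` (of `n'` ideals):
`dim (eigenspace S_M z) * d ^ j' = dim V * #{φ : Fin j' → Fin d | ∑ 2 C a (φ i) = z}`.
(The minimal ideals of `L` are exactly the `k` ideals of the decomposition.)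
-/

set_option linter.unusedSectionVars false
set_option linter.unusedVariables false

open Module MTP

namespace PR

variable {K : Type*} [Field K] {V : Type*} [AddCommGroup V] [Module K V] [FiniteDimensional K V]
variable {ω : LinearMap.BilinForm K V} {G : Set (Module.End K V)}
  {T : Set (Module.End K V ≃+* Module.End K V)} {p0 : Module.End K V}

private lemma symm_smul56 {τ : Module.End K V ≃+* Module.End K V} {σ : K ≃+* K}
    (hσ : ∀ (c : K) (x : Module.End K V), τ (c • x) = σ c • τ x) (c : K) (x : Module.End K V) :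
    τ.symm (c • x) = σ.symm c • τ.symm x := by
  apply τ.injective
  rw [hσ]; simp

private lemma imT_isId56 {L I : Submodule K (Module.End K V)} (hId : IsId L I)
    {τ : Module.End K V ≃+* Module.End K V} (hτ : Tw L τ) {σ : K ≃+* K}
    (hσ : ∀ (c : K) (x : Module.End K V), τ (c • x) = σ c • τ x) : IsId L (imT τ hσ I) := by
  have hsL : ∀ y, τ.symm y ∈ L ↔ y ∈ L := by
    intro y
    rw [← hτ.mem, RingEquiv.apply_symm_apply]
  refine ⟨fun y hy => (hsL y).mp (hId.1 hy), ?_⟩
  intro x hx y hy
  rw [mem_imT, map_sub, map_mul, map_mul]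
  exact hId.2 _ ((hsL x).mpr hx) _ hy

private lemma imT_min56 {L I : Submodule K (Module.End K V)} (hI : IsMin L I)
    {τ : Module.End K V ≃+* Module.End K V} (hτ : Tw L τ) {σ : K ≃+* K}
    (hσ : ∀ (c : K) (x : Module.End K V), τ (c • x) = σ c • τ x) : IsMin L (imT τ hσ I) := by
  obtain ⟨hId, hne, hmin⟩ := hI
  refine ⟨imT_isId56 hId hτ hσ, ?_, ?_⟩
  · intro h
    apply hne
    rw [eq_bot_iff]
    intro x hx
    have h1 : τ x ∈ imT τ hσ I := by rw [mem_imT, RingEquiv.symm_apply_apply]; exact hx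
    rw [h, Submodule.mem_bot] at h1
    rw [Submodule.mem_bot]
    exact (map_eq_zero_iff τ τ.injective).mp h1
  · intro J hJ hJid hJ0
    have e1 : imT τ.symm (σ := σ.symm) (symm_smul56 hσ) J = I := by
      apply hmin
      · intro x hx
        rw [mem_imT, RingEquiv.symm_symm] at hx
        have := hJ hx
        rwa [mem_imT, RingEquiv.symm_apply_apply] at this
      · refine ⟨fun y hy => ?_, ?_⟩
        · rw [mem_imT, RingEquiv.symm_symm] at hy
          exact (hτ.mem y).mp (hJid.1 hy)
        · intro x hx y hy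
          rw [mem_imT, RingEquiv.symm_symm, map_sub, map_mul, map_mul]
          rw [mem_imT, RingEquiv.symm_symm] at hy
          exact hJid.2 _ ((hτ.mem x).mpr hx) _ hy
      · intro h'
        apply hJ0
        rw [eq_bot_iff]
        intro x hx
        have h1 : τ.symm x ∈ imT τ.symm (σ := σ.symm) (symm_smul56 hσ) J := by
          rw [mem_imT, RingEquiv.symm_symm, RingEquiv.apply_symm_apply]; exact hx
        rw [h', Submodule.mem_bot] at h1
        rw [Submodule.mem_bot]
        exact (map_eq_zero_iff τ.symm τ.symm.injective).mp h1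
    apply le_antisymm hJ
    intro x hx
    rw [mem_imT, ← e1, mem_imT, RingEquiv.symm_symm, RingEquiv.apply_symm_apply] at hx
    exact hx

private lemma coe_imT56 {I : Submodule K (Module.End K V)}
    {τ : Module.End K V ≃+* Module.End K V} {σ : K ≃+* K}
    (hσ : ∀ (c : K) (x : Module.End K V), τ (c • x) = σ c • τ x) :
    (imT τ hσ I : Set (Module.End K V)) = τ '' (I : Set (Module.End K V)) := by
  ext y
  constructor
  · intro hy
    exact ⟨τ.symm y, hy, RingEquiv.apply_symm_apply τ y⟩
  · rintro ⟨x, hx, rfl⟩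
    change τ x ∈ imT τ hσ I
    rw [mem_imT, RingEquiv.symm_apply_apply]
    exact hx

private lemma find56 [IsAlgClosed K] [CharZero K] {L : Submodule K (Module.End K V)}
    (hL : IrrSymp ω L) (hω : ω.Nondegenerate) {ρ d : ℕ}
    {ε : K} (hρ : finrank K V = ρ * d) (hV : Nontrivial V) {x : Module.End K V} {c : K}
    (hxx : x * x = c • 1) (hx0 : x ≠ 0) : ∀ (n : ℕ) (M : Submodule K (Module.End K V)),
    Dec ω L ρ ε n M → x ∈ M → ∃ I, QI ω L ρ ε I ∧ x ∈ I := by
  intro n
  induction n with
  | zero =>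
    intro M hM hx
    change M = ⊥ at hM
    rw [hM, Submodule.mem_bot] at hx
    exact absurd hx hx0
  | succ n ih =>
    rintro M hMM hx
    obtain ⟨hMid, -⟩ := Dec.main hL hω hρ hV _ M hMM
    obtain ⟨I, M', hI, hM', hinf, rfl⟩ := hMM
    obtain ⟨hM'id, -⟩ := Dec.main hL hω hρ hV _ M' hM'
    rcases hL.sq_dich hω hI.1 (hMid.1 hx) hxx with h | h
    · exact ⟨I, hI, h⟩
    · obtain ⟨i, hi, m, hm, hxe⟩ := Submodule.mem_sup.mp hx
      have h1 : i = 0 := by
        apply hL.inf_orth hω hI.1 hi
        have h2 := (orth L I).sub_mem h (hL.le_orth hω hI.1 hM'id hinf hm)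
        rwa [← hxe, add_sub_cancel_right] at h2
      have h2 : x = m := by rw [← hxe, h1, zero_add]
      exact ih M' hM' (by rw [h2]; exact hm)

/-- Rewriting of the counting conditions. -/
private lemma cond56 {C : ℕ} (hC : 0 < C) (x : ℤ) (l : ℚ) :
    ((C : ℚ) + x) / 2 = C * l ↔ (x : ℚ) = C * (2 * l - 1) := by
  have hC' : (C : ℚ) ≠ 0 := by exact_mod_cast hC.ne'
  constructor
  · intro h
    linarith
  · intro h
    linarith

private lemma cond56' {C : ℕ} (hC : 0 < C) (x : ℤ) (l : ℚ) :
    1 / 2 + (x : ℚ) / (2 * C) = l ↔ (x : ℚ) = C * (2 * l - 1) := by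
  have hC' : (C : ℚ) ≠ 0 := by exact_mod_cast hC.ne'
  constructor
  · intro h
    rw [← h]
    field_simp
    ring
  · intro h
    rw [h]
    field_simp
    ring

/-- The parts in two conjugate ideals are conjugate. -/
private lemma XI_conj56 [IsAlgClosed K] [CharZero K] (D : WStr ω G T)
    {n : ℕ} {c : Fin n → ℕ} {p : Fin n → Module.End K V} (N : Newt G T p0 c p)
    {s : Fin n → Module.End K V} (hsp : ∀ i, s i = (2 : K) • p i - 1)
    (hs : ∀ i, s i ∈ WL ω G) (hss : ∀ i, s i * s i = 1)
    {I I' : Submodule K (Module.End K V)} (hI : IsId (WL ω G) I) (hI' : IsId (WL ω G) I')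
    {τ : Module.End K V ≃+* Module.End K V} (hτ : τ ∈ T) (hmap : ∀ x, τ x ∈ I' ↔ x ∈ I)
    (z : ℤ) : rk (XI c s I - (z : K) • 1) = rk (XI c s I' - (z : K) • 1) := by
  classical
  have hL := D.ctx.irr
  have hω := D.nd
  obtain ⟨g, hg, h, hh, hgh, hhg, hnu⟩ := N.rat τ hτ
  set S := ∑ i, c i • s i with hSdef
  have hSnu : S = (2 : ℕ) • nu c p - (∑ i, c i) • (1 : Module.End K V) := by
    rw [hSdef]
    unfold nu
    rw [Finset.smul_sum, Finset.sum_smul, ← Finset.sum_sub_distrib]
    apply Finset.sum_congr rfl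
    intro i _
    rw [hsp, smul_sub, smul_comm (2 : ℕ), two_smul, two_smul]
  have hST : g * τ S * h = S := by
    have e1 : τ S = (2 : ℕ) • τ (nu c p) - (∑ i, c i) • (1 : Module.End K V) := by
      rw [hSnu, map_sub, map_nsmul, map_nsmul, map_one]
    rw [e1, mul_sub, sub_mul, mul_smul_comm, smul_mul_assoc, hnu, mul_smul_comm,
      smul_mul_assoc, mul_one, hgh, ← hSnu]
  have hR := XI_compl14 (c := c) hL hω hs hss hI
  have hR' := XI_compl14 (c := c) hL hω hs hss hI'
  rw [← hSdef] at hR hR'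
  -- the images
  have k1 : g * τ (XI c s I) * h ∈ I' :=
    D.id_conj hI' hg hh hgh hhg ((hmap _).mpr XI_mem)
  have k2 : τ (S - XI c s I) ∈ orth (WL ω G) I' := by
    rw [hL.mem_orth_iff hω hI' (D.lie_tw hτ hR.1)]
    intro y hy
    have h1 : τ.symm y ∈ I := by
      rw [← hmap, RingEquiv.apply_symm_apply]; exact hy
    have h2 := (hL.mem_orth_iff hω hI hR.1).mp hR _ h1
    have h3 := congrArg τ h2
    rwa [map_mul, map_mul, RingEquiv.apply_symm_apply] at h3
  have k3 : g * τ (S - XI c s I) * h ∈ orth (WL ω G) I' :=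
    D.id_conj (orth_isId hL.br hI') hg hh hgh hhg k2
  have k4 : XI c s I' - g * τ (XI c s I) * h = 0 := by
    apply hL.inf_orth hω hI' (I'.sub_mem XI_mem k1)
    have h1 := (orth (WL ω G) I').sub_mem k3 hR'
    have e : g * τ (S - XI c s I) * h - (S - XI c s I') =
        XI c s I' - g * τ (XI c s I) * h := by
      rw [map_sub, mul_sub, sub_mul, hST]
      abel
    rwa [e] at h1
  have k5 : XI c s I' - (z : K) • 1 = g * τ (XI c s I - (z : K) • 1) * h := by
    rw [Int.cast_smul_eq_zsmul, map_sub, map_zsmul, map_one, mul_sub, sub_mul, mul_smul_comm,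
      smul_mul_assoc, mul_one, hgh, sub_eq_zero.mp k4]
  rw [k5, rk_conj hhg hgh, D.rk τ hτ]

/-- The induction on the decomposition, with the number of the ideals of `O`. -/
private lemma ind56 [IsAlgClosed K] [CharZero K] {L : Submodule K (Module.End K V)}
    {D : ℕ} (b : Basis (Fin D) K V) {n : ℕ} {c : Fin n → ℕ} {s : Fin n → Module.End K V}
    {χ : Fin n → Fin D → ℤ} (hL : IrrSymp ω L) (hω : ω.Nondegenerate)
    [Nontrivial V] {ρ d C : ℕ} {ε : K} (hρ : finrank K V = ρ * d)
    (hs : ∀ i, s i ∈ L) (hss : ∀ i, s i * s i = 1)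
    (hb : ∀ i j, s i (b j) = (χ i j : K) • b j) (hχ : ∀ i j, χ i j = 1 ∨ χ i j = -1)
    (hC : ∑ i, c i = C) {m : ℤ → ℕ} (hρ0 : 0 < ρ)
    {O : Set (Submodule K (Module.End K V))}
    (hO : ∀ I, QI ω L ρ ε I → I ∉ O → AI s I = ∅)
    (hm : ∀ I, QI ω L ρ ε I → I ∈ O →
      (∀ z, (Finset.univ.filter (fun j => FI c s χ I j = z)).card = ρ * m z) ∧
      ∀ J : Finset (Fin D), (∀ x ∈ alg I, ∀ w ∈ Submodule.span K (b '' (J : Set (Fin D))),
        x w ∈ Submodule.span K (b '' (J : Set (Fin D)))) →
        ∀ z, (J.filter (fun j => FI c s χ I j = z)).card * d = J.card * m z)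
    (h0 : ∀ z, m z ≠ 0 → |z| ≤ C)
    {β : Fin d → ℤ} (hβ : ∀ z, (Finset.univ.filter (fun t => β t = z)).card = m z) :
    ∀ (N : ℕ) (M : Submodule K (Module.End K V)), Dec ω L ρ ε N M →
      ∃ j' ≤ N, {I : Submodule K (Module.End K V) | IsMin L I ∧ I ≤ M ∧ I ∈ O}.Finite ∧
        {I : Submodule K (Module.End K V) | IsMin L I ∧ I ≤ M ∧ I ∈ O}.ncard = j' ∧
      (∀ z, m z ≠ 0 → j' * |z| ≤ ∑ i ∈ AI s M, (c i : ℤ)) ∧
      ∀ z, (Finset.univ.filter (fun j => FI c s χ M j = z)).card * d ^ j' =
        D * cnt14 β j' z := by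
  classical
  intro N
  induction N with
  | zero =>
    intro M hM
    change M = ⊥ at hM
    subst hM
    have hA : AI s (⊥ : Submodule K (Module.End K V)) = ∅ := by
      ext i
      rw [mem_AI, Submodule.mem_bot]
      constructor
      · intro h
        have h2 := hss i
        rw [h, mul_zero] at h2
        exact absurd h2.symm one_ne_zero
      · intro h
        simp at h
    have e : {I : Submodule K (Module.End K V) | IsMin L I ∧ I ≤ ⊥ ∧ I ∈ O} = ∅ := by
      ext I
      simp only [Set.mem_ofPred_eq, Set.mem_empty_iff_false, iff_false]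
      rintro ⟨h1, h2, -⟩
      rw [le_bot_iff] at h2
      exact h1.2.1 h2
    refine ⟨0, le_rfl, ?_, ?_, ?_, ?_⟩
    · rw [e]; exact Set.finite_empty
    · rw [e]; exact Set.ncard_empty _
    · intro z _
      rw [hA]
      simp
    · intro z
      have hF : ∀ j, FI c s χ (⊥ : Submodule K (Module.End K V)) j = 0 := by
        intro j
        unfold FI
        rw [hA, Finset.sum_empty]
      rw [cnt14_zero, pow_zero, mul_one]
      by_cases hz : z = 0
      · rw [if_pos hz, hz, mul_one]
        simp [hF]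
      · rw [if_neg hz, mul_zero, Finset.card_eq_zero, Finset.filter_eq_empty_iff]
        intro j _ h
        rw [hF] at h
        exact hz h.symm
  | succ N ih =>
    rintro M ⟨I, M', hI, hM', hinf, rfl⟩
    obtain ⟨j', hj', hfin, hcard, ih1, ih2⟩ := ih M' hM'
    obtain ⟨hM'id, -⟩ := Dec.main hL hω hρ inferInstance _ M' hM'
    obtain ⟨hdisj, hun⟩ := AI_sup hL hω hs hss hI.1 hM'id hinf
    have hF : ∀ j, FI c s χ (I ⊔ M') j = FI c s χ I j + FI c s χ M' j := by
      intro j
      unfold FI
      rw [hun, Finset.sum_union hdisj]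
    have hnot : ¬ I ≤ M' := by
      intro h2
      apply hI.2.1
      rw [inf_eq_left.mpr h2] at hinf
      exact hinf
    by_cases hIO : I ∈ O
    · obtain ⟨m1, m2⟩ := hm I hI hIO
      have e : {J : Submodule K (Module.End K V) | IsMin L J ∧ J ≤ I ⊔ M' ∧ J ∈ O} =
          insert I {J : Submodule K (Module.End K V) | IsMin L J ∧ J ≤ M' ∧ J ∈ O} := by
        ext J
        simp only [Set.mem_ofPred_eq, Set.mem_insert_iff]
        constructor
        · rintro ⟨h1, h2, h3⟩
          rcases min_of_le hL hω h1 (QI.isMin14 hI) hM'id hinf h2 with h | h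
          · exact Or.inl h
          · exact Or.inr ⟨h1, h, h3⟩
        · rintro (rfl | ⟨h1, h2, h3⟩)
          · exact ⟨QI.isMin14 hI, le_sup_left, hIO⟩
          · exact ⟨h1, h2.trans le_sup_right, h3⟩
      have hn : I ∉ {J : Submodule K (Module.End K V) | IsMin L J ∧ J ≤ M' ∧ J ∈ O} := by
        rintro ⟨-, h2, -⟩
        exact hnot h2
      refine ⟨j' + 1, by omega, ?_, ?_, ?_, ?_⟩
      · rw [e]; exact hfin.insert _
      · rw [e, Set.ncard_insert_of_notMem hn hfin, hcard]
      · intro z hz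
        rw [hun, Finset.sum_union hdisj]
        have h1 : |z| ≤ ∑ i ∈ AI s I, (c i : ℤ) := by
          have h2 : (Finset.univ.filter (fun j => FI c s χ I j = z)).Nonempty := by
            rw [← Finset.card_pos, m1]
            positivity
          obtain ⟨j, hj⟩ := h2
          rw [Finset.mem_filter] at hj
          rw [← hj.2]
          exact FI_le hχ I j
        have h3 := ih1 z hz
        push_cast
        linarith
      · intro z
        have h1 : ∀ y x, (Finset.univ.filter (fun j => FI c s χ M' j = y ∧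
            FI c s χ I j = x)).card * d =
            (Finset.univ.filter (fun j => FI c s χ M' j = y)).card * m x := by
          intro y x
          rw [← Finset.filter_filter]
          apply m2
          intro a ha w hw
          -- the subspace is an eigenspace of `XI c s M'`
          have e1 : (Finset.univ.filter (fun j => FI c s χ M' j = y)) =
              (Finset.univ.filter (fun j => ((FI c s χ M' j : ℤ) : K) = (y : K))) := by
            apply Finset.filter_congr
            intro j _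
            rw [Int.cast_inj]
          rw [e1, ← eigen14 b (XI_b b hb M') (y : K), Module.End.mem_eigenspace_iff] at hw ⊢
          have hcomm : ∀ x ∈ I, ∀ y ∈ M', x * y = y * x := fun x hx y hy =>
            IrrSymp.comm_of_inf hI.1 hM'id hinf hx hy
          have h3 : a * XI c s M' = XI c s M' * a := alg_comm hcomm ha (le_alg XI_mem)
          have h4 : (XI c s M') (a w) = a (XI c s M' w) :=
            (congrArg (fun z : Module.End K V => z w) h3).symm
          rw [h4, hw, map_smul]
        have h5 := step14 h0 hβ (fun j => FI c s χ I j) (fun j => FI c s χ M' j) (C := C) (by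
          intro j
          refine (FI_le hχ I j).trans ?_
          rw [← hC]
          push_cast
          exact Finset.sum_le_univ_sum_of_nonneg (fun i => by positivity)) h1 ih2 z
        rw [← h5]
        congr 2
        apply Finset.filter_congr
        intro j _
        rw [hF]
    · have hA := hO I hI hIO
      have e : {J : Submodule K (Module.End K V) | IsMin L J ∧ J ≤ I ⊔ M' ∧ J ∈ O} =
          {J : Submodule K (Module.End K V) | IsMin L J ∧ J ≤ M' ∧ J ∈ O} := by
        ext J
        simp only [Set.mem_ofPred_eq]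
        constructor
        · rintro ⟨h1, h2, h3⟩
          rcases min_of_le hL hω h1 (QI.isMin14 hI) hM'id hinf h2 with h | h
          · rw [h] at h3
            exact absurd h3 hIO
          · exact ⟨h1, h, h3⟩
        · rintro ⟨h1, h2, h3⟩
          exact ⟨h1, h2.trans le_sup_right, h3⟩
      have hF' : ∀ j, FI c s χ (I ⊔ M') j = FI c s χ M' j := by
        intro j
        rw [hF]
        unfold FI
        rw [hA, Finset.sum_empty, zero_add]
      refine ⟨j', by omega, ?_, ?_, ?_, ?_⟩
      · rw [e]; exact hfin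
      · rw [e]; exact hcard
      · intro z hz
        rw [hun, hA, Finset.empty_union]
        exact ih1 z hz
      · intro z
        simp only [hF']
        exact ih2 z

theorem WStr.tensor_sub [IsAlgClosed K] [CharZero K] (D : WStr ω G T)
    (hsk : IsSk ω ((2 : K) • p0 - 1)) {n : ℕ} (hn : 0 < n) {c : Fin n → ℕ}
    {p : Fin n → Module.End K V} (N : Newt G T p0 c p) {k d ρ : ℕ} {ε : K}
    (hd : finrank K V = d ^ k) (hρ : finrank K V = ρ * d)
    (hdec : Dec ω (WL ω G) ρ ε k (WL ω G)) :
    ∃ (I : Submodule K (Module.End K V)) (j : ℕ) (a : Fin d → ℚ), 0 < j ∧ j ≤ k ∧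
      (∀ τ ∈ T, ∀ g ∈ G, ∀ h ∈ G, g * h = 1 → h * g = 1 → g * τ p0 * h = p0 →
        τ '' (I : Set (Module.End K V)) = I) ∧
      {J : Set (Module.End K V) | ∃ τ ∈ T, J = τ '' (I : Set (Module.End K V))}.ncard = j ∧
      Symm a ∧ (∀ i, |a i| ≤ 1 / (2 * j)) ∧ ∀ l : ℚ,
      finrank K (Module.End.eigenspace (nu c p) (((∑ i, c i : ℕ) * l : ℚ) : K)) =
        d ^ (k - j) *
          (Finset.univ.filter (fun φ : Fin j → Fin d => 1 / 2 + ∑ i, a (φ i) = l)).card := by
  classical
  have hL := D.ctx.irr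
  have hω := D.nd
  have hnt := D.nt
  have hsp := fun i => D.sk_of_sc N.base hsk (N.conj i)
  have hpp : ∀ i, p i * p i = p i := fun i => (D.cc_of_sc N.base (N.conj i)).1
  obtain ⟨s, hsdef⟩ : ∃ s : Fin n → Module.End K V, ∀ i, s i = (2 : K) • p i - 1 :=
    ⟨_, fun _ => rfl⟩
  have hs : ∀ i, s i ∈ WL ω G := fun i => by rw [hsdef]; exact (hsp i).2
  have hss : ∀ i, s i * s i = 1 := by
    intro i
    rw [hsdef]
    simp only [sub_mul, mul_sub, smul_mul_assoc, mul_smul_comm, hpp, mul_one, one_mul]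
    module
  have hcomm : ∀ i j, s i * s j = s j * s i := by
    intro i j
    rw [hsdef, hsdef]
    simp only [sub_mul, mul_sub, smul_mul_assoc, mul_smul_comm, mul_one, one_mul]
    rw [N.comm i j]
    module
  obtain ⟨D', hD'⟩ : ∃ D', D' = finrank K V := ⟨_, rfl⟩
  have hB := exists_basis14 s hss hcomm
  rw [← hD'] at hB
  obtain ⟨b, χ, hχ, hb⟩ := hB
  have hD0 : 0 < D' := by rw [hD']; exact Module.finrank_pos
  -- the minimal ideal with `2 p0 - 1`
  have hs0L : (2 : K) • p0 - 1 ∈ WL ω G := subset_lieGen _ ⟨p0, N.base, hsk, rfl⟩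
  have hs0s : ((2 : K) • p0 - 1) * ((2 : K) • p0 - 1) = (1 : K) • 1 := by
    have h1 : p0 * p0 = p0 := N.base.1
    simp only [sub_mul, mul_sub, smul_mul_assoc, mul_smul_comm, h1, mul_one, one_mul]
    module
  have hs00 : (2 : K) • p0 - 1 ≠ 0 := by
    intro h
    rw [h, zero_mul, one_smul] at hs0s
    exact zero_ne_one hs0s
  obtain ⟨I0, hI0, hsI⟩ := find56 hL hω hρ hnt hs0s hs00 k _ hdec hs0L
  have hmin : IsMin (WL ω G) I0 := QI.isMin14 hI0
  -- `k` is positive
  have hk0 : k ≠ 0 := by
    rintro rfl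
    have h1 : WL ω G = ⊥ := hdec
    rw [h1, Submodule.mem_bot] at hs0L
    exact hs00 hs0L
  -- the orbit
  obtain ⟨O, hOdef⟩ : ∃ O : Set (Submodule K (Module.End K V)),
      ∀ J, J ∈ O ↔ ∃ τ ∈ T, (J : Set (Module.End K V)) = τ '' (I0 : Set (Module.End K V)) :=
    ⟨{J | ∃ τ ∈ T, (J : Set (Module.End K V)) = τ '' (I0 : Set (Module.End K V))},
      fun J => Iff.rfl⟩
  have hOmin : ∀ J ∈ O, IsMin (WL ω G) J := by
    intro J hJ
    obtain ⟨τ, hτ, hJτ⟩ := (hOdef J).mp hJ
    obtain ⟨σ, hσ⟩ := D.semi τ hτ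
    have h1 : J = imT τ hσ I0 := by
      apply SetLike.coe_injective
      rw [coe_imT56 hσ, hJτ]
    rw [h1]
    exact imT_min56 hmin (D.isTw hτ) hσ
  have hO : ∀ J, QI ω (WL ω G) ρ ε J → J ∉ O → AI s J = ∅ := by
    intro J hJ hJO
    rw [Finset.eq_empty_iff_forall_notMem]
    intro i hi
    rw [mem_AI] at hi
    apply hJO
    obtain ⟨τ, hτ, g, hg, h, hh, hgh, hhg, hpi⟩ := N.conj i
    obtain ⟨σ, hσ⟩ := D.semi τ hτ
    have hm2 := imT_min56 hmin (D.isTw hτ) hσ
    have h1 : τ ((2 : K) • p0 - 1) ∈ imT τ hσ I0 := by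
      rw [mem_imT, RingEquiv.symm_apply_apply]; exact hsI
    have h2 := D.id_conj hm2.1 hg hh hgh hhg h1
    have e : g * τ ((2 : K) • p0 - 1) * h = s i := by
      rw [map_sub, map_one, hσ, map_ofNat, mul_sub, sub_mul, mul_one, hgh, mul_smul_comm,
        smul_mul_assoc, hsdef, hpi]
    rw [e] at h2
    have hne : J ⊓ imT τ hσ I0 ≠ ⊥ := by
      intro h3
      have h4 : s i = 0 := by
        rw [← Submodule.mem_bot (R := K), ← h3]
        exact ⟨hi, h2⟩
      have h5 := hss i
      rw [h4, mul_zero] at h5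
      exact one_ne_zero h5.symm
    have e1 : J ⊓ imT τ hσ I0 = J :=
      (QI.isMin14 hJ).2.2 _ inf_le_left (inf_isId hJ.1 hm2.1) hne
    have e2 : J ⊓ imT τ hσ I0 = imT τ hσ I0 :=
      hm2.2.2 _ inf_le_right (inf_isId hJ.1 hm2.1) hne
    rw [hOdef]
    refine ⟨τ, hτ, ?_⟩
    rw [← coe_imT56 hσ, ← e2, e1]
  obtain ⟨C, hC⟩ : ∃ C, C = ∑ i, c i := ⟨_, rfl⟩
  have hC0 : 0 < C := by
    rw [hC]
    exact Finset.sum_pos (fun i _ => N.pos i) ⟨⟨0, hn⟩, Finset.mem_univ _⟩
  -- the common multiplicity function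
  obtain ⟨m, hm0, hm0'⟩ := QI_mult14 b hL hω hρ hI0 (X := XI c s I0) XI_mem
    (XI_b b hb I0)
  have hρ0 : 0 < ρ := (QI_kappa14 hL hω hρ hI0).1
  have hrk : ∀ (M : Submodule K (Module.End K V)) (z : ℤ), MTP.rk (XI c s M - (z : K) • 1) +
      (Finset.univ.filter (fun j => FI c s χ M j = z)).card = D' := by
    intro M z
    have h1 : ∀ j, (XI c s M - (z : K) • 1) (b j) = (((FI c s χ M j - z : ℤ) : K)) • b j := by
      intro j
      rw [LinearMap.sub_apply, XI_b b hb, LinearMap.smul_apply, Module.End.one_apply, ← sub_smul]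
      push_cast
      rfl
    have h5 : (Finset.univ.filter (fun j => ((FI c s χ M j - z : ℤ) : K) ≠ 0)) =
        Finset.univ.filter (fun j => ¬ FI c s χ M j = z) := by
      apply Finset.filter_congr
      intro j _
      rw [Ne, Int.cast_eq_zero, sub_eq_zero]
    rw [rk14 b h1, h5, add_comm]
    have h6 := Finset.card_filter_add_card_filter_not (s := (Finset.univ : Finset (Fin D')))
      (fun j => FI c s χ M j = z)
    rw [Finset.card_univ, Fintype.card_fin] at h6
    exact h6
  have hm : ∀ I, QI ω (WL ω G) ρ ε I → I ∈ O →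
      (∀ z, (Finset.univ.filter (fun j => FI c s χ I j = z)).card = ρ * m z) ∧
      ∀ J : Finset (Fin D'), (∀ x ∈ alg I, ∀ w ∈ Submodule.span K (b '' (J : Set (Fin D'))),
        x w ∈ Submodule.span K (b '' (J : Set (Fin D')))) →
        ∀ z, (J.filter (fun j => FI c s χ I j = z)).card * d = J.card * m z := by
    intro I hI hIO
    obtain ⟨mI, h1, h2⟩ := QI_mult14 b hL hω hρ hI (X := XI c s I) XI_mem (XI_b b hb I)
    obtain ⟨τ, hτ, hIτ⟩ := (hOdef I).mp hIO
    have hmap : ∀ x, τ x ∈ I ↔ x ∈ I0 := by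
      intro x
      rw [← SetLike.mem_coe, hIτ]
      constructor
      · rintro ⟨y, hy, hyx⟩
        rw [← τ.injective hyx]
        exact hy
      · intro hx
        exact ⟨x, hx, rfl⟩
    have h3 : mI = m := by
      funext z
      apply Nat.eq_of_mul_eq_mul_left hρ0
      rw [← h1, ← hm0]
      have e1 := hrk I z
      have e2 := hrk I0 z
      have e3 := XI_conj56 D N hsdef hs hss hI0.1 hI.1 hτ hmap z
      omega
    subst h3
    exact ⟨h1, h2⟩
  have hFC : ∀ M j, |FI c s χ M j| ≤ (C : ℤ) := by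
    intro M j
    refine (FI_le hχ M j).trans ?_
    rw [hC]
    push_cast
    exact Finset.sum_le_univ_sum_of_nonneg (fun i => by positivity)
  have h0 : ∀ z, m z ≠ 0 → |z| ≤ (C : ℤ) := by
    intro z hz
    have h2 : (Finset.univ.filter (fun j => FI c s χ I0 j = z)).Nonempty := by
      rw [← Finset.card_pos, hm0]
      positivity
    obtain ⟨j, hj⟩ := h2
    rw [Finset.mem_filter] at hj
    rw [← hj.2]
    exact hFC I0 j
  have hsum : ∑ z ∈ Finset.Icc (-(C : ℤ)) C, m z = d := by
    apply Nat.eq_of_mul_eq_mul_left hρ0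
    rw [← hρ, ← hD', Finset.mul_sum]
    have h1 := Finset.card_eq_sum_card_fiberwise (f := fun j => FI c s χ I0 j)
      (s := (Finset.univ : Finset (Fin D'))) (t := Finset.Icc (-(C : ℤ)) C) (by
        intro j _
        rw [Finset.coe_Icc, Set.mem_Icc, ← abs_le]
        exact hFC I0 j)
    rw [Finset.card_univ, Fintype.card_fin] at h1
    rw [h1]
    apply Finset.sum_congr rfl
    intro z _
    rw [hm0]
  have hmsym : ∀ z, m (-z) = m z := by
    intro z
    apply Nat.eq_of_mul_eq_mul_left hρ0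
    rw [← hm0, ← hm0]
    have e1 := hrk I0 z
    have e2 := hrk I0 (-z)
    have e3 := rk_symm14 hω (hL.sk _ (hI0.1.1 (XI_mem (c := c) (s := s)))) (z : K)
    rw [Int.cast_neg] at e2
    omega
  obtain ⟨β, hβ, e, he⟩ := exists_family14 C m h0 hsum hmsym
  obtain ⟨j, hjk, hfin, hcard, hbd, hcnt⟩ :=
    ind56 b hL hω hρ hs hss hb hχ hC.symm hρ0 hO hm h0 hβ k _ hdec
  have hAL : AI s (WL ω G) = Finset.univ := by
    ext i
    rw [mem_AI]
    simp [hs i]
  -- the orbit as a set of sets
  have hset : {J : Set (Module.End K V) | ∃ τ ∈ T, J = τ '' (I0 : Set (Module.End K V))} =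
      (fun I' : Submodule K (Module.End K V) => (I' : Set (Module.End K V))) ''
        {I : Submodule K (Module.End K V) | IsMin (WL ω G) I ∧ I ≤ WL ω G ∧ I ∈ O} := by
    ext J
    constructor
    · rintro ⟨τ, hτ, rfl⟩
      obtain ⟨σ, hσ⟩ := D.semi τ hτ
      have h1 : imT τ hσ I0 ∈ O := (hOdef _).mpr ⟨τ, hτ, coe_imT56 hσ⟩
      exact ⟨imT τ hσ I0, ⟨hOmin _ h1, (hOmin _ h1).1.1, h1⟩, coe_imT56 hσ⟩
    · rintro ⟨I', ⟨-, -, hI'⟩, rfl⟩
      exact (hOdef I').mp hI'
  have hncard : {J : Set (Module.End K V) |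
      ∃ τ ∈ T, J = τ '' (I0 : Set (Module.End K V))}.ncard = j := by
    rw [hset, Set.ncard_image_of_injective _ SetLike.coe_injective, hcard]
  have hj0 : 0 < j := by
    rw [← hcard, Set.ncard_pos hfin]
    have h1 : I0 ∈ O := by
      rw [hOdef]
      refine ⟨_, D.tone, ?_⟩
      ext x
      simp
    exact ⟨I0, hmin, hmin.1.1, h1⟩
  refine ⟨I0, j, fun t => (β t : ℚ) / (2 * C), hj0, hjk, ?_, hncard, ⟨e, ?_⟩, ?_, ?_⟩
  · intro τ hτ g hg h hh hgh hhg he
    obtain ⟨σ, hσ⟩ := D.semi τ hτ
    have hm2 := imT_min56 hmin (D.isTw hτ) hσ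
    have h1 : τ ((2 : K) • p0 - 1) ∈ imT τ hσ I0 := by
      rw [mem_imT, RingEquiv.symm_apply_apply]; exact hsI
    have h2 := D.id_conj hm2.1 hg hh hgh hhg h1
    have e : g * τ ((2 : K) • p0 - 1) * h = (2 : K) • p0 - 1 := by
      rw [map_sub, map_one, hσ, map_ofNat, mul_sub, sub_mul, mul_one, hgh, mul_smul_comm,
        smul_mul_assoc, he]
    rw [e] at h2
    have hne : I0 ⊓ imT τ hσ I0 ≠ ⊥ := by
      intro h3
      apply hs00
      rw [← Submodule.mem_bot (R := K), ← h3]
      exact ⟨hsI, h2⟩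
    have e1 : I0 ⊓ imT τ hσ I0 = I0 := hmin.2.2 _ inf_le_left (inf_isId hmin.1 hm2.1) hne
    have e2 : I0 ⊓ imT τ hσ I0 = imT τ hσ I0 :=
      hm2.2.2 _ inf_le_right (inf_isId hmin.1 hm2.1) hne
    rw [← coe_imT56 hσ, ← e2, e1]
  · intro t
    simp only
    rw [he, Int.cast_neg, neg_div]
  · intro t
    have h1 : m (β t) ≠ 0 := by
      rw [← hβ]
      intro h
      rw [Finset.card_eq_zero, Finset.filter_eq_empty_iff] at h
      exact h (Finset.mem_univ t) rfl
    have h2 := hbd _ h1
    rw [hAL] at h2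
    have h3 : (j : ℚ) * |(β t : ℚ)| ≤ C := by
      have h4 : (((j : ℤ) * |β t| : ℤ) : ℚ) ≤ ((∑ i, (c i : ℤ) : ℤ) : ℚ) := by exact_mod_cast h2
      rw [hC]
      push_cast at h4 ⊢
      exact h4
    have hk1 : (0 : ℚ) < j := by exact_mod_cast hj0
    have hC1 : (0 : ℚ) < C := by exact_mod_cast hC0
    rw [abs_div, abs_of_pos (by positivity : (0 : ℚ) < 2 * C), div_le_div_iff₀ (by positivity)
      (by positivity)]
    nlinarith
  · intro l
    have hnub : ∀ j, nu c p (b j) =
        ((((C : ℚ) + (FI c s χ (WL ω G) j : ℤ)) / 2 : ℚ) : K) • b j := by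
      intro j
      have e1 : nu c p = (2 : K)⁻¹ • (XI c s (WL ω G) + (C : K) • 1) := by
        unfold nu XI
        rw [hAL, hC, Nat.cast_sum, Finset.sum_smul, ← Finset.sum_add_distrib, Finset.smul_sum]
        apply Finset.sum_congr rfl
        intro i _
        rw [hsdef, Nat.cast_smul_eq_nsmul, ← smul_add, sub_add_cancel, smul_comm,
          smul_smul, inv_mul_cancel₀ two_ne_zero, one_smul]
      rw [e1, LinearMap.smul_apply, LinearMap.add_apply, XI_b b hb, LinearMap.smul_apply,
        Module.End.one_apply, ← add_smul, smul_smul]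
      congr 1
      push_cast
      ring
    rw [eigen14 b hnub, finrank_span14, ← hC]
    have e2 : (Finset.univ.filter (fun j => ((((C : ℚ) + (FI c s χ (WL ω G) j : ℤ)) / 2 : ℚ) : K) =
        (((C : ℕ) * l : ℚ) : K))) =
        Finset.univ.filter (fun j => ((FI c s χ (WL ω G) j : ℤ) : ℚ) = C * (2 * l - 1)) := by
      apply Finset.filter_congr
      intro j _
      rw [Rat.cast_inj]
      exact cond56 hC0 _ l
    have e3 : (Finset.univ.filter (fun φ : Fin j → Fin d =>
        1 / 2 + ∑ i, (β (φ i) : ℚ) / (2 * C) = l)) =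
        Finset.univ.filter (fun φ : Fin j → Fin d =>
          ((∑ i, β (φ i) : ℤ) : ℚ) = C * (2 * l - 1)) := by
      apply Finset.filter_congr
      intro φ _
      rw [← Finset.sum_div, ← Int.cast_sum]
      exact cond56' hC0 _ l
    rw [e2, e3]
    by_cases hz : ∃ z : ℤ, (z : ℚ) = C * (2 * l - 1)
    · obtain ⟨z, hz⟩ := hz
      have h1 := hcnt z
      unfold cnt14 at h1
      have hdk : 0 < d ^ k := by rw [← hd, ← hD']; exact hD0
      have hd0 : 0 < d := by
        rcases Nat.eq_zero_or_pos d with h | h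
        · rw [h, zero_pow hk0] at hdk
          exact absurd hdk (lt_irrefl 0)
        · exact h
      have h3 : D' = d ^ k := hD'.trans hd
      have h4 : d ^ k = d ^ (k - j) * d ^ j := by
        rw [← pow_add, Nat.sub_add_cancel hjk]
      have h6 : D' * (Finset.univ.filter (fun φ : Fin j → Fin d => ∑ i, β (φ i) = z)).card =
          (d ^ (k - j) *
            (Finset.univ.filter (fun φ : Fin j → Fin d => ∑ i, β (φ i) = z)).card) * d ^ j := by
        rw [h3, h4]
        ring
      rw [h6] at h1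
      have h2 := Nat.eq_of_mul_eq_mul_right (pow_pos hd0 j) h1
      rw [← hz]
      simp only [Int.cast_inj]
      exact h2
    · push Not at hz
      rw [Finset.filter_false_of_mem (fun j _ => hz _),
        Finset.filter_false_of_mem (fun φ _ => hz _)]
      rfl

end PR
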