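import Pool.Agent.Helper27.PR.Fwd
import Pool.Agent.Helper27.PR.StrS
import Pool.Agent.Helper27.PR.JTen
import Pool.Agent.Helper27.PR.JDefs
import Pool.Agent.Helper27.PR.JNum

/-!
Several places of one pair: the slopes and the indices at all the places are in one of the three
families, or the pair is full.
-/

set_option linter.unusedSectionVars false
set_option linter.unusedVariables false

open Module MTPairs MTP

attribute [local instance 100] LieRing.ofAssociativeRing

namespace PR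

variable {K : Type*} [Field K] {m : Type*} [Fintype m] [DecidableEq m]
  {Γ : Subgroup (Equiv.Perm (m → K))} {J : Matrix m m K}
  {G : Subgroup (Matrix.GeneralLinearGroup m K)} {π : Matrix m m K}

lemma jfwd_pos {Λ : Multiset ℚ} (hG : IsGalPair Γ J G) [Nonempty m] {n : ℕ} {c : Fin n → ℕ}
    {p : Fin n → Module.End K (m → K)} (hcard : Λ.card = Fintype.card m)
    (hcount : ∀ l : ℚ, finrank K (Module.End.eigenspace (nu c p)
      (((∑ i, c i : ℕ) * l : ℚ) : K)) = Λ.count l) : 0 < n := by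
  have hpos : 0 < Λ.card := by rw [hcard]; exact Fintype.card_pos
  rcases Nat.eq_zero_or_pos n with h0 | h0
  · exfalso
    subst h0
    have h1 : ∀ l : ℚ, Λ.count l = Λ.card := by
      intro l
      rw [← hcount l, hcard]
      have e1 : nu c p = 0 := by simp [nu]
      have e2 : (((∑ i, c i : ℕ) * l : ℚ) : K) = 0 := by simp
      rw [e1, e2]
      have e3 : Module.End.eigenspace (0 : Module.End K (m → K)) 0 = ⊤ := by
        rw [Module.End.eigenspace_zero]
        exact LinearMap.ker_zero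
      rw [e3, finrank_top, Module.finrank_pi]
    obtain ⟨x, hx⟩ := Multiset.card_pos_iff_exists_mem.mp hpos
    have h2 := Multiset.count_eq_card.mp (h1 0) x hx
    have h3 := Multiset.count_eq_card.mp (h1 1) x hx
    rw [← h2] at h3
    exact one_ne_zero h3
  · exact h0

/-- One place, simple case. -/
theorem jfwd_simple [IsAlgClosed K] [CharZero K] {Λ : Multiset ℚ} {N : ℕ} [Nonempty m]
    (hG : IsGalPair Γ J G) (hirr : IsIrr G) (hπ : IsCochar G π) (hΛ : HasSlopes Γ G π Λ)
    (hN : HasIndex Γ G π N) (hsk : IsSk (Matrix.toBilin' J) ((2 : K) • Matrix.toLin' π - 1))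
    (hS : Smp (WL (Matrix.toBilin' J) (GE G))) :
    (∀ g : Matrix.GeneralLinearGroup m K,
      (∃ c : K, (g : Matrix m m K).transpose * J * (g : Matrix m m K) = c • J) → g ∈ G) ∨
    (∃ a, 3 ≤ a ∧ Odd a ∧ WedgeAt a Λ N) ∨
    ∃ q, 5 ≤ q ∧ (q % 4 = 1 ∨ q % 4 = 2) ∧ SpinAt q Λ := by
  classical
  obtain ⟨n, c, p, NN, hcard, hcount⟩ := newt_of_slopes hG hπ hΛ
  have D := wstr hG hirr
  have hn : 0 < n := jfwd_pos hG hcard hcount
  obtain ⟨Γ', hle, hrel, hstab⟩ := index_of hG hN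
  rcases D.simple_case hS hsk hn NN with h | ⟨a, W, hW⟩ | ⟨q, hq, h5, b, hb⟩
  · left
    intro g hg
    exact full_of_sk hG.toIsMTPair hirr h g hg
  · right; left
    rcases D.wedge_slopes hn NN W hW with ⟨x, ⟨hx0, hx1, hx⟩ | ⟨hx0, hx1, hx, i, i', j, j', hi, hi'⟩⟩
    · refine ⟨a, W.three, W.odd, x, Or.inl ⟨hx0, hx1, ?_⟩⟩
      apply eq_map_of_count
      intro l
      rw [← hcount l, hx l]
    · refine ⟨a, W.three, W.odd, x, Or.inr ⟨?_, hx0, hx1, ?_⟩⟩
      · obtain ⟨Z, hZ1, hZ2, τ, hτ, hZ3⟩ := D.even NN W hi hi'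
        obtain ⟨θ, hθ, hθτ⟩ := hτ
        have := two_dvd_index hle (actZ (K := K) (m := m)) actZ_one
          (fun a ha b hb x => actZ_mul hG ha hb x) negz
          (fun a ha x => by
            obtain ⟨τ', _, hτ'⟩ := exists_te hG ha
            rw [actZ_eq hτ', actZ_eq hτ', twz_negz]) Z (negz_negz Z) hZ2
          (fun a ha => by
            obtain ⟨τ', hτ1, hτ'⟩ := exists_te hG (hle ha)
            rw [actZ_eq hτ']
            obtain ⟨g, hg, h, hh, hgh, hhg, hfix⟩ := hstab a ha τ' hτ'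
            exact hZ1 τ' hτ1 g hg h hh hgh hhg hfix) hθ (by rw [actZ_eq hθτ, hZ3])
        rw [hrel] at this
        exact even_iff_two_dvd.mpr this
      · apply eq_map_of_count
        intro l
        rw [← hcount l, hx l]
  · right; right
    obtain ⟨x, hx0, hx1, hx⟩ := spin_slopes hn NN.pos b hb
    refine ⟨q, h5, hq, x, ?_, hx1, ?_⟩
    · rcases hq with hq | hq
      · exact Or.inl hq
      · exact Or.inr (hx0 hq)
    · apply eq_map_of_count
      intro l
      rw [← hcount l, hx l]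

lemma nsmul_map_of_count {ι : Type*} (s : Finset ι) (f : ι → ℚ) (Λ : Multiset ℚ) (r : ℕ)
    (h : ∀ l, Λ.count l = r * (s.filter (fun i => f i = l)).card) : Λ = r • s.val.map f := by
  ext l
  rw [h l, Multiset.count_nsmul, Multiset.count_map, Finset.card_def, Finset.filter_val]
  congr 2
  exact Multiset.filter_congr fun x _ => eq_comm

/-- One place, tensor case. -/
theorem jfwd_tensor [IsAlgClosed K] [CharZero K] {Λ : Multiset ℚ} {N : ℕ} [Nonempty m]
    (hG : IsGalPair Γ J G) (hirr : IsIrr G) (hπ : IsCochar G π) (hΛ : HasSlopes Γ G π Λ)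
    (hN : HasIndex Γ G π N) (hsk : IsSk (Matrix.toBilin' J) ((2 : K) • Matrix.toLin' π - 1))
    {k d ρ : ℕ} {ε : K} (hd : finrank K (m → K) = d ^ k) (hρ : finrank K (m → K) = ρ * d)
    (hdec : Dec (Matrix.toBilin' J) (WL (Matrix.toBilin' J) (GE G)) ρ ε k
      (WL (Matrix.toBilin' J) (GE G))) : TensorAt k d Λ N := by
  classical
  obtain ⟨n, c, p, NN, hcard, hcount⟩ := newt_of_slopes hG hπ hΛ
  have D := wstr hG hirr
  have hn : 0 < n := jfwd_pos hG hcard hcount
  obtain ⟨Γ', hle, hrel, hstab⟩ := index_of hG hN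
  obtain ⟨I, j, a, hj, hjk, hI1, hI2, ha1, ha2, ha⟩ := D.tensor_sub hsk hn NN hd hρ hdec
  refine ⟨j, a, hj, hjk, ?_, ha1, ha2, ?_⟩
  · have := dvd_index hle (actS (K := K) (m := m)) actS_one
      (fun a ha b hb x => actS_mul hG ha hb x) (I : Set (Module.End K (m → K)))
      (fun a ha => by
        obtain ⟨τ', hτ1, hτ'⟩ := exists_te hG (hle ha)
        rw [actS_eq hτ']
        obtain ⟨g, hg, h, hh, hgh, hhg, hfix⟩ := hstab a ha τ' hτ'
        exact hI1 τ' hτ1 g hg h hh hgh hhg hfix) (k := j) (by omega) (by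
      rw [← hI2]
      congr 1
      ext S
      constructor
      · rintro ⟨θ, hθ, rfl⟩
        obtain ⟨τ', hτ1, hτ'⟩ := exists_te hG hθ
        exact ⟨τ', hτ1, actS_eq hτ' _⟩
      · rintro ⟨τ, ⟨θ, hθ, hθτ⟩, rfl⟩
        exact ⟨θ, hθ, (actS_eq hθτ _).symm⟩)
    rw [hrel] at this
    exact this
  · apply nsmul_map_of_count
    intro l
    rw [← hcount l, ha l]

/-- Both weights occur: the involution is skew. -/
lemma sk_of_cochar [IsAlgClosed K] [CharZero K] [Nonempty m] (hG : IsGalPair Γ J G)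
    (hirr : IsIrr G) (hπ : IsCochar G π) (h0 : π ≠ 0) (h1 : π ≠ 1) :
    IsSk (Matrix.toBilin' J) ((2 : K) • Matrix.toLin' π - 1) := by
  have D := wstr hG hirr
  rcases D.c2 (mem_cc.2 hπ) with h | h | h
  · exact h
  · exact absurd ((map_eq_zero_iff _ (Matrix.toLin' (R := K) (m := m) (n := m)).injective).mp h) h0
  · exfalso
    apply h1
    apply (Matrix.toLin' (R := K) (m := m) (n := m)).injective
    rw [h, Matrix.toLin'_one]
    rfl

/-- The dimension is even. -/
lemma jeven_card [CharZero K] (hG : IsMTPair J G) : Even (Fintype.card m) := by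
  by_contra hodd
  rw [Nat.not_even_iff_odd] at hodd
  have h3 := congrArg Matrix.det hG.skew
  rw [Matrix.det_transpose, Matrix.det_neg, hodd.neg_one_pow] at h3
  apply hG.det
  have h4 : (2 : K) * J.det = 0 := by linear_combination h3
  exact (mul_eq_zero.mp h4).resolve_left two_ne_zero

lemma te_mono {Γv : Subgroup (Equiv.Perm (m → K))} (h : Γv ≤ Γ) : TE Γv ⊆ TE Γ :=
  fun _ ⟨θ, hθ, e⟩ => ⟨θ, h hθ, e⟩

/-- **The theorem for several places.** -/
theorem jforward [IsAlgClosed K] [CharZero K] [Nonempty m] (hG : IsGalPair Γ J G)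
    (hirr : IsIrr G) (hsk : IsSk (Matrix.toBilin' J) ((2 : K) • Matrix.toLin' π - 1))
    (hπ : IsCochar G π) (hS : TSmp (WL (Matrix.toBilin' J) (GE G)) (TE Γ))
    (R : Set (Multiset ℚ × ℕ)) (hR : ∀ r ∈ R, HasPl Γ G r.1 r.2) :
    (∀ g : Matrix.GeneralLinearGroup m K,
      (∃ c : K, (g : Matrix m m K).transpose * J * (g : Matrix m m K) = c • J) → g ∈ G) ∨
    Exceptional R := by
  classical
  by_cases hne : R.Nonempty
  swap
  · right; left
    refine ⟨3, 2, le_rfl, ⟨1, rfl⟩, two_pos, even_two, fun r hr => ?_⟩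
    exact absurd ⟨r, hr⟩ hne
  have D := wstr hG hirr
  have hV := D.nt
  have hbase : Matrix.toLin' π ∈ CC (GE G) := mem_cc.2 hπ
  have hs0 : (2 : K) • Matrix.toLin' π - 1 ∈ WL (Matrix.toBilin' J) (GE G) :=
    (D.ctx.inv _ ⟨_, hbase, hsk, rfl⟩).1
  have hsq : ((2 : K) • Matrix.toLin' π - 1) * ((2 : K) • Matrix.toLin' π - 1) = 1 :=
    invol hbase.1
  have hL0 : WL (Matrix.toBilin' J) (GE G) ≠ ⊥ := by
    intro h
    rw [h, Submodule.mem_bot] at hs0
    rw [hs0, mul_zero] at hsq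
    exact zero_ne_one hsq
  obtain ⟨k, d, ρ, ε, hk, hd, hρ, hdec, hk1⟩ :=
    dec D.ctx.irr D.nd D.alt hL0 (fun τ hτ => D.isTw hτ) hS
  have hcd : ∀ Λ N, (Λ, N) ∈ R → Λ.card = Fintype.card m := by
    intro Λ N hr
    obtain ⟨Γv, hle, πv, -, -, -, ⟨_, _, _, _, _, _, hh, _⟩, -⟩ := hR _ hr
    exact hh
  by_cases hk' : k = 1
  · by_contra hcon
    push Not at hcon
    obtain ⟨hnf, hexc⟩ := hcon
    have hnf' : ¬ (∀ g : Matrix.GeneralLinearGroup m K,
      (∃ c : K, (g : Matrix m m K).transpose * J * (g : Matrix m m K) = c • J) → g ∈ G) := by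
      intro h
      obtain ⟨g, hg, hgG⟩ := hnf
      exact hgG (h g hg)
    have key : ∀ Λ N, (Λ, N) ∈ R → (∃ a, 3 ≤ a ∧ Odd a ∧ WedgeAt a Λ N) ∨
        ∃ q, 5 ≤ q ∧ (q % 4 = 1 ∨ q % 4 = 2) ∧ SpinAt q Λ := by
      intro Λ N hr
      obtain ⟨Γv, hle, πv, h1, h2, h3, h4, h5⟩ := hR _ hr
      exact (jfwd_simple (hG.mono hle) hirr h1 h4 h5 (sk_of_cochar hG hirr h1 h2 h3)
        (hk1 hk')).resolve_left hnf'
    obtain ⟨⟨Λ0, N0⟩, hr0⟩ := hne
    rcases key Λ0 N0 hr0 with ⟨a, ha3, hao, ha⟩ | ⟨q, hq5, hq, ha⟩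
    · apply hexc
      right; left
      refine ⟨a, ha3, hao, ?_⟩
      rintro ⟨Λ, N⟩ hr
      have e0 := ha.card
      rw [hcd _ _ hr0] at e0
      rcases key Λ N hr with ⟨a', ha3', hao', ha'⟩ | ⟨q, hq5, hq, ha'⟩
      · have e1 := ha'.card
        rw [hcd _ _ hr, e0] at e1
        rw [choose_inj e1]
        exact ha'
      · exfalso
        have e1 := ha'.card
        rw [hcd _ _ hr, e0] at e1
        exact choose_ne_two_pow ha3 e1
    · apply hexc
      right; right
      refine ⟨q, hq5, hq, ?_⟩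
      rintro ⟨Λ, N⟩ hr
      have e0 := ha.card
      rw [hcd _ _ hr0] at e0
      rcases key Λ N hr with ⟨a', ha3', hao', ha'⟩ | ⟨q', hq5', hq', ha'⟩
      · exfalso
        have e1 := ha'.card
        rw [hcd _ _ hr, e0] at e1
        exact choose_ne_two_pow ha3' e1.symm
      · have e1 := ha'.card
        rw [hcd _ _ hr, e0] at e1
        rw [Nat.pow_right_injective le_rfl e1]
        exact ha'
  · right; left
    have hk3 : 3 ≤ k := by
      obtain ⟨r, hr⟩ := hk
      omega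
    have hd0 : 0 < d := by
      rcases Nat.eq_zero_or_pos d with h | h
      · exfalso
        rw [h, zero_pow (by omega)] at hd
        exact (Module.finrank_pos (R := K) (M := m → K)).ne' hd
      · exact h
    have hdE : Even d := by
      have h1 := jeven_card hG.toIsMTPair
      rw [← Module.finrank_pi (R := K), hd] at h1
      exact (Nat.even_pow.mp h1).1
    refine ⟨k, d, hk3, hk, hd0, hdE, ?_⟩
    rintro ⟨Λ, N⟩ hr
    obtain ⟨Γv, hle, πv, h1, h2, h3, h4, h5⟩ := hR _ hr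
    exact jfwd_tensor (hG.mono hle) hirr h1 h4 h5 (sk_of_cochar hG hirr h1 h2 h3) hd hρ hdec

end PR
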