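import Pool.Agent.Helper21.MT.Rank

/-!
The data of a Lie algebra of type `A` acting on the middle exterior power of its standard
representation.
-/

open Module

namespace PR

variable {K : Type*} [Field K] {V : Type*} [AddCommGroup V] [Module K V]

/-- The Lie algebra `L` acts on `V` as the Lie algebra of traceless matrices of size `2 m` acts on
the exterior power of degree `m` of the standard representation: `b` is a basis of weight vectors
indexed by the subsets of order `m` of `Fin (2 m)`, `t j` is the involution which is `-1` on the
vectors whose subset contains `j` and `1` on the other ones, and `e i j` is the root vector which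
replaces `j` by `i`. -/
structure WD (L : Submodule K (Module.End K V)) (m : ℕ) where
  b : Basis {I : Finset (Fin (2 * m)) // I.card = m} K V
  t : Fin (2 * m) → Module.End K V
  e : Fin (2 * m) → Fin (2 * m) → Module.End K V
  odd : Odd m
  three : 3 ≤ m
  t_mem : ∀ j, t j ∈ L
  e_mem : ∀ i j, i ≠ j → e i j ∈ L
  e_ne : ∀ i j, i ≠ j → e i j ≠ 0
  t_b : ∀ j I, t j (b I) = (if j ∈ I.1 then (-1 : K) else 1) • b I
  t_e : ∀ l i j, i ≠ j → t l * e i j - e i j * t l =
    ((if l = j then (2 : K) else 0) - (if l = i then (2 : K) else 0)) • e i j
  span : L ≤ Submodule.span K (Set.range t ∪ {x | ∃ i j, i ≠ j ∧ x = e i j})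

end PR
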