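import Pool.Agent.Helper43.PR.Flat
import Pool.Agent.Helper21.TR.SL6
import Pool.Agent.Helper27.PR.WD

/-!
Block RW. The explicit data `WD` in case A of the simply laced systems (all roots of value two have
pairwise products one).

Write `s = t 0`, `P = h.P` (the roots with `s a = 2`), `m = (h.R x0).card`, so `P.card = 2 m - 1`, and
let `J = Option P` (`none` is the index `0`), of cardinality `2 m`, with a bijection
`J ≃ Fin (2 m)`. Facts on `X₊ = h.Xp` (the weights with `s x = 1`): `R x = {a ∈ P | B x a = 1}` has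
`m` elements for every `x ∈ X₊` (`SL.card_R`), and `x ↦ R x` is a bijection of `X₊` with the
`m`-subsets of `P` (`imageA`, `R_injOn` in `Helper21/TR/SL4.lean`); for `x ∈ X₊`, `a ∈ P`:
`B x a ∈ {0, 1}` (`SL.xp`). The other weights are the `-x`, `x ∈ X₊`.
Put `I x = some '' R x` for `x ∈ X₊` and `I x = {none} ∪ some '' (P \ R (-x))` for `-x ∈ X₊`: an
`m`-subset of `J` in both cases, and `I` is a bijection of `X` with the `m`-subsets of `J`. The basis
`b` is `F.v` reindexed.
`D.t none = F.tor s`, `D.t (some a) = F.tor (s - 2 co a)` with `co a x = B x a`: on `x ∈ X₊` the value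
is `1 - 2 B x a`, `-1` iff `a ∈ R x`; on `-x`, `x ∈ X₊`, it is the opposite: `-1` iff `a ∉ R x`. OK.
Roots: `P`, `-P`, and the roots `g` with `s g = 0`, which are the `a - b`, `a ≠ b ∈ P`
(`SL.zero_root` in `SL5.lean`; all `a - b` are roots, `SL.sub`), by `SL.s_root`.
`D.e (some a) none = F.e a`, `D.e none (some a) = F.e (-a)`, `D.e (some a) (some b) = F.e (a - b)`.
Weights (`F.tor_e`): `s` is `2`, `-2`, `0` on `a`, `-a`, `a - b`; with `B a a = 2` and `B a b = 1` for
`a ≠ b ∈ P` the value of `s - 2 co c` on `a` is `2 - 2 B a c = -2 δ_ac`, on `a - b` it is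
`-2 (δ_ac - δ_bc)`. So `t_e` holds. `span`: `F.span`, and every functional is a combination of the
`co g`, `g ∈ Φ` (`F.span_co`), `co (-a) = - co a`, `co (a - b) = co a - co b` on roots: as functionals
on `M`: `co a x = B x a` is linear in `a`; and `co a = (s - (s - 2 co a)) / 2`.
The index of `t i =: s'`: `s'` has values `1, -1` on `X`.
(a) `s' g ∈ {0, 2, -2}` for every root `g` (there is `x ∈ X` with `B x g = 1` and `x - g ∈ X`).
(b) for `x ∈ X₊` and `a ∈ R x`, `b ∈ P \ R x`: `x - (a - b) ∈ X₊` (`SL.flip`), so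
`s' (x) - s'(a) + s'(b) ∈ {1, -1}`; and `s' a - s' b = s' (a - b) ∈ {0, 2, -2}`.
(c) If `s'` is constant on `P` then by (b) and connectedness (any two `m`-subsets are joined by
exchanges, or use: `s'` of the weight of the subset `R` depends only on the sum over `R`, prove
`s' x - ∑_{a ∈ R x} s'(a)`... is constant on `X₊` by exchanges) `s'` is constant on `X₊`, so `s' = ± s`
on `X` (`X = X₊ ∪ -X₊`), and two functionals equal on `X` have equal `F.tor` (`F.tor_v`, basis).
(d) Otherwise `s'` takes two values `v, v + 2` on `P` (`v = 0` or `-2`); put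
`Q = {a ∈ P | s' a = v + 2}`, both `Q` and `P \ Q` nonempty. The value of `s'` at the weight with
`R x = R` is `k0 - 2 #(R ∩ Q)` for a constant `k0` (exchange formula `s' (x - (a - b)) = s' x - s' a +
s' b`, so removing an element of `Q` and adding one outside adds `-2`... signs as they come: it is
affine in `#(R ∩ Q)` with slope `2` in absolute value). It takes only the values `1, -1`, so
`#(R ∩ Q)` takes at most two consecutive values on the `m`-subsets `R` of `P`,
`#P = 2 m - 1`, `m ≥ 3`: the maximum is `min (m, #Q)` and the minimum is `max (0, m - #(P \ Q))`, and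
this forces `#Q = 1` or `#(P \ Q) = 1`. With `Q = {j}` or `P \ Q = {j}` the functional `s'` on `X₊`
depends only on whether `j ∈ R x`, so it is `± (s - 2 co j)` on `X₊`, hence on `X`.
Any other route to the statement is fine.
-/

set_option linter.unusedSectionVars false
set_option linter.unusedVariables false

open Module MTP TR

namespace PR

section aux54

variable {K : Type*} [Field K] [CharZero K] {M : Type*} [AddCommGroup M] [Module K M]
  {B : LinearMap.BilinForm K M} {s : Module.Dual K M} {Φ X : Finset M}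

private lemma exists_W54 (h : TR.SL B s Φ X)
    (hadj : ∀ a ∈ h.P, ∀ b ∈ h.P, a ≠ b → B a b = 1) {x0 : M} (hx0 : x0 ∈ h.Xp) {m : ℕ}
    (hm : (h.R x0).card = m) (hP : h.P.card + 1 = 2 * m) :
    ∃ W : Fin (2 * m) → M, (∀ i j, i ≠ j → W i - W j ∈ Φ) ∧
      (∀ g ∈ Φ, ∃ i j, i ≠ j ∧ g = W i - W j) ∧
      (∀ l i j, s (W i - W j) - 2 * B (W i - W j) (W l) =
        (if l = j then (2 : K) else 0) - (if l = i then (2 : K) else 0)) ∧
      (∀ x ∈ X, ∀ l, s x - 2 * B x (W l) = 1 ∨ s x - 2 * B x (W l) = -1) ∧
      (∀ x ∈ X, ∑ l, (s x - 2 * B x (W l)) = 0) := by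
  classical
  have hc : Fintype.card (Option {a // a ∈ h.P}) = 2 * m := by
    rw [Fintype.card_option, Fintype.card_coe]
    exact hP
  obtain ⟨φ⟩ : Nonempty (Option {a // a ∈ h.P} ≃ Fin (2 * m)) := ⟨Fintype.equivFinOfCardEq hc⟩
  obtain ⟨w, hw0, hw1⟩ : ∃ w : Option {a // a ∈ h.P} → M, w none = 0 ∧
      ∀ a : {a // a ∈ h.P}, w (some a) = a.1 := ⟨fun o => o.elim 0 (fun a => a.1), rfl, fun _ => rfl⟩
  have hs : ∀ a : {a // a ∈ h.P}, s a.1 = 2 := fun a => (h.mem_P.mp a.2).2
  have hΦ : ∀ a : {a // a ∈ h.P}, a.1 ∈ Φ := fun a => (h.mem_P.mp a.2).1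
  have hw : ∀ l i : Option {a // a ∈ h.P}, s (w i) - 2 * B (w i) (w l) =
      (if l = none then (2 : K) else 0) - (if l = i then (2 : K) else 0) := by
    intro l i
    rcases l with _ | c
    · rcases i with _ | a
      · rw [hw0, map_zero, map_zero]
        simp
      · rw [hw0, hw1, map_zero, hs a]
        simp
    · rcases i with _ | a
      · rw [hw0, hw1, map_zero, map_zero]
        simp
      · by_cases hca : c = a
        · subst hca
          rw [hw1, hs c, h.two c.1 (hΦ c), if_neg (by simp), if_pos rfl]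
          norm_num
        · rw [hw1, hw1, hs a, hadj a.1 a.2 c.1 c.2 (fun e => hca (Subtype.ext e.symm)),
            if_neg (by simp), if_neg (by simpa using hca)]
          norm_num
  have hmem : ∀ i j : Option {a // a ∈ h.P}, i ≠ j → w i - w j ∈ Φ := by
    intro i j hij
    rcases i with _ | a
    · rcases j with _ | b
      · exact absurd rfl hij
      · rw [hw0, hw1, zero_sub]
        exact h.neg _ (hΦ b)
    · rcases j with _ | b
      · rw [hw0, hw1, sub_zero]
        exact hΦ a
      · rw [hw1, hw1]
        refine h.sub _ (hΦ a) _ (hΦ b) (hadj a.1 a.2 b.1 b.2 fun e => hij ?_)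
        rw [Subtype.ext e]
  have hform : ∀ g ∈ Φ, ∃ i j : Option {a // a ∈ h.P}, i ≠ j ∧ g = w i - w j := by
    intro g hg
    rcases h.s_root hg with sg | sg | sg
    · obtain ⟨a, ha, b, hb, hab, rfl⟩ := h.zero_root hg sg
      refine ⟨some ⟨a, ha⟩, some ⟨b, hb⟩, ?_, by rw [hw1, hw1]⟩
      intro e
      have e' : a = b := congrArg Subtype.val (Option.some.inj e)
      rw [e', h.two b (h.mem_P.mp hb).1] at hab
      norm_num at hab
    · exact ⟨some ⟨g, h.mem_P.mpr ⟨hg, sg⟩⟩, none, by simp, by rw [hw0, hw1, sub_zero]⟩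
    · refine ⟨none, some ⟨-g, h.mem_P.mpr ⟨h.neg g hg, by rw [map_neg, sg, neg_neg]⟩⟩, by simp, ?_⟩
      rw [hw0, hw1, zero_sub, neg_neg]
  have hpm1 : ∀ x ∈ X, s x = 1 → ∀ l : Option {a // a ∈ h.P},
      s x - 2 * B x (w l) = 1 ∨ s x - 2 * B x (w l) = -1 := by
    intro x hx sx l
    rcases l with _ | a
    · left
      rw [hw0, map_zero, sx]
      norm_num
    · rcases h.xp hx sx (hΦ a) (hs a) with h1 | h1
      · left
        rw [hw1, h1, sx]
        norm_num
      · right
        rw [hw1, h1, sx]
        norm_num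
  have hsum1 : ∀ x ∈ X, s x = 1 → ∑ l : Option {a // a ∈ h.P}, (s x - 2 * B x (w l)) = 0 := by
    intro x hx sx
    have hxp : x ∈ h.Xp := h.mem_Xp.mpr ⟨hx, sx⟩
    have hx0' := h.mem_Xp.mp hx0
    have hRc : (h.R x).card = m := by
      rw [← hm]
      exact h.card_R hx hx0'.1 sx hx0'.2
    have hB : ∑ a ∈ h.P, B x a = (m : K) := by
      have h1 : ∑ a ∈ h.P, B x a = ∑ a ∈ h.P, (if a ∈ h.R x then (1 : K) else 0) := by
        refine Finset.sum_congr rfl fun a ha => ?_
        split_ifs with h2
        · exact (h.mem_R' ha).mp h2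
        · exact (h.xp hx sx (h.mem_P.mp ha).1 (h.mem_P.mp ha).2).resolve_right
            fun h3 => h2 ((h.mem_R' ha).mpr h3)
      rw [h1, Finset.sum_ite_mem, Finset.inter_eq_right.mpr (h.R_sub x), Finset.sum_const, hRc,
        nsmul_eq_mul, mul_one]
    rw [Fintype.sum_option, hw0, map_zero, sx]
    have h2 : ∑ a : {a // a ∈ h.P}, ((1 : K) - 2 * B x (w (some a))) = ∑ a ∈ h.P, ((1 : K) - 2 * B x a) := by
      rw [← Finset.sum_coe_sort h.P (fun a => (1 : K) - 2 * B x a)]
      refine Finset.sum_congr rfl fun a _ => ?_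
      rw [hw1]
    rw [h2, Finset.sum_sub_distrib, ← Finset.mul_sum, hB, Finset.sum_const, nsmul_eq_mul, mul_one]
    have h3 : ((h.P.card : ℕ) : K) + 1 = 2 * m := by exact_mod_cast congrArg (Nat.cast : ℕ → K) hP
    linear_combination h3
  refine ⟨fun j => w (φ.symm j), fun i j hij => hmem _ _ fun e => hij (φ.symm.injective e), ?_, ?_, ?_, ?_⟩
  · intro g hg
    obtain ⟨i, j, hij, e⟩ := hform g hg
    refine ⟨φ i, φ j, fun e => hij (φ.injective e), ?_⟩
    show g = w (φ.symm (φ i)) - w (φ.symm (φ j))
    rw [φ.symm_apply_apply, φ.symm_apply_apply]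
    exact e
  · intro l i j
    have h1 := hw (φ.symm l) (φ.symm i)
    have h2 := hw (φ.symm l) (φ.symm j)
    have e0 : ∀ k, (if φ.symm l = φ.symm k then (2 : K) else 0) = if l = k then 2 else 0 := by
      intro k
      by_cases hlk : l = k
      · rw [if_pos (by rw [hlk]), if_pos hlk]
      · rw [if_neg (fun e => hlk (φ.symm.injective e)), if_neg hlk]
    have e1 := e0 i
    have e2 := e0 j
    rw [e1] at h1
    rw [e2] at h2
    rw [map_sub, map_sub, LinearMap.sub_apply]
    linear_combination h1 - h2
  · intro x hx l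
    rcases h.sx x hx with sx | sx
    · exact hpm1 x hx sx _
    · have h1 := hpm1 (-x) (h.xneg x hx) (by rw [map_neg, sx, neg_neg]) (φ.symm l)
      rw [map_neg, map_neg, LinearMap.neg_apply] at h1
      rcases h1 with h1 | h1
      · right
        linear_combination -h1
      · left
        linear_combination -h1
  · intro x hx
    rw [Equiv.sum_comp φ.symm (fun l => s x - 2 * B x (w l))]
    rcases h.sx x hx with sx | sx
    · exact hsum1 x hx sx
    · have h1 := hsum1 (-x) (h.xneg x hx) (by rw [map_neg, sx, neg_neg])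
      have h2 : ∑ l : Option {a // a ∈ h.P}, (s (-x) - 2 * B (-x) (w l)) =
          - ∑ l : Option {a // a ∈ h.P}, (s x - 2 * B x (w l)) := by
        rw [← Finset.sum_neg_distrib]
        refine Finset.sum_congr rfl fun l _ => ?_
        rw [map_neg, map_neg, LinearMap.neg_apply]
        ring
      rw [h2, neg_eq_zero] at h1
      exact h1

private lemma card_X54 (h : TR.SL B s Φ X)
    (hadj : ∀ a ∈ h.P, ∀ b ∈ h.P, a ≠ b → B a b = 1) {x0 : M} (hx0 : x0 ∈ h.Xp) {m : ℕ}
    (hm : (h.R x0).card = m) (hP : h.P.card + 1 = 2 * m) : X.card = (2 * m).choose m := by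
  have c1 := h.cardA hadj hx0
  rw [hm] at c1
  obtain ⟨k, hk⟩ : ∃ k, m = k + 1 := ⟨m - 1, by omega⟩
  have hP2 : h.P.card = 2 * k + 1 := by omega
  rw [h.card_X, c1, hP2, hk]
  have e1 : 2 * (k + 1) = (2 * k + 1) + 1 := by ring
  have e3 : (2 * k + 1 + 1).choose (k + 1) = (2 * k + 1).choose k + (2 * k + 1).choose (k + 1) :=
    Nat.choose_succ_succ' _ _
  have e2 : (2 * k + 1).choose (k + 1) = (2 * k + 1).choose k := Nat.choose_symm_half k
  rw [e1, e3, e2]
  ring

end aux54

theorem wedge_case {K V M : Type*} [Field K] [CharZero K] [AddCommGroup V] [Module K V]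
    [AddCommGroup M] [Module K M] {L : Submodule K (Module.End K V)} {X Φ : Finset M}
    {co : M → Module.Dual K M} (F : Fl L X Φ co) {n : ℕ} (hn : 0 < n)
    (t : Fin n → Module.Dual K M) (ht : ∀ i, ∀ x ∈ X, t i x = 1 ∨ t i x = -1)
    {B : LinearMap.BilinForm K M} (h : TR.SL B (t ⟨0, hn⟩) Φ X)
    (hco : ∀ a ∈ Φ, ∀ x, co a x = B x a)
    (hadj : ∀ a ∈ h.P, ∀ b ∈ h.P, a ≠ b → B a b = 1) {x0 : M} (hx0 : x0 ∈ h.Xp)
    (hP : h.P.card + 1 = 2 * (h.R x0).card) (hodd : Odd (h.R x0).card)
    (h3 : 3 ≤ (h.R x0).card) :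
    ∃ m, ∃ D : WD L m, ∀ i, ∃ j, F.tor (t i) = D.t j ∨ F.tor (t i) = - D.t j := by
  classical
  obtain ⟨m, hm⟩ : ∃ m, (h.R x0).card = m := ⟨_, rfl⟩
  rw [hm] at hP hodd h3
  obtain ⟨W, W1, W2, W3, W4, W5⟩ := exists_W54 h hadj hx0 hm hP
  have hXc := card_X54 h hadj hx0 hm hP
  obtain ⟨τ, hτd⟩ : ∃ τ : Fin (2 * m) → Module.Dual K M,
      τ = fun l => t ⟨0, hn⟩ - (2 : K) • B.flip (W l) := ⟨_, rfl⟩
  have hτ : ∀ l x, τ l x = t ⟨0, hn⟩ x - 2 * B x (W l) := by
    intro l x
    rw [hτd]
    rfl
  have pm : ∀ x ∈ X, ∀ l, τ l x = 1 ∨ τ l x = -1 := by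
    intro x hx l
    rw [hτ]
    exact W4 x hx l
  have hτW : ∀ l i j, τ l (W i - W j) = (if l = j then (2 : K) else 0) - (if l = i then (2 : K) else 0) := by
    intro l i j
    rw [hτ]
    exact W3 l i j
  obtain ⟨I, hId⟩ : ∃ I : X → Finset (Fin (2 * m)), I = fun x => Finset.univ.filter (fun l => τ l x.1 = -1) :=
    ⟨_, rfl⟩
  have hI : ∀ (x : X) l, l ∈ I x ↔ τ l x.1 = -1 := by
    intro x l
    rw [hId]
    simp
  have hI' : ∀ (x : X) l, l ∉ I x → τ l x.1 = 1 := by
    intro x l hl
    rw [hI] at hl
    exact (pm x.1 x.2 l).resolve_right hl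
  have hIc : ∀ x : X, (I x).card = m := by
    intro x
    have h1 : ∑ l, τ l x.1 = 0 := by
      have := W5 x.1 x.2
      simpa only [hτ] using this
    have h2 : ∀ l, τ l x.1 = 1 - 2 * (if l ∈ I x then (1 : K) else 0) := by
      intro l
      split_ifs with h4
      · rw [(hI x l).mp h4]
        norm_num
      · rw [hI' x l h4]
        norm_num
    rw [Finset.sum_congr rfl (fun l _ => h2 l), Finset.sum_sub_distrib, ← Finset.mul_sum,
      Finset.sum_const, Finset.card_univ, Fintype.card_fin, Finset.sum_ite_mem, Finset.univ_inter,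
      Finset.sum_const, nsmul_eq_mul, nsmul_eq_mul, mul_one, mul_one] at h1
    have h4 : (((I x).card : ℕ) : K) = (m : ℕ) := by
      push_cast at h1
      have h5 : (2 : K) * ((I x).card : K) = 2 * m := by linear_combination -h1
      exact mul_left_cancel₀ two_ne_zero h5
    exact_mod_cast h4
  have hinj : Function.Injective (fun x : X =>
      (⟨I x, hIc x⟩ : {J : Finset (Fin (2 * m)) // J.card = m})) := by
    intro x y hxy
    have h1 : I x = I y := congrArg Subtype.val hxy
    have h2 : ∀ l, τ l x.1 = τ l y.1 := by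
      intro l
      by_cases hl : l ∈ I x
      · rw [(hI x l).mp hl]
        rw [h1] at hl
        rw [(hI y l).mp hl]
      · rw [hI' x l hl]
        rw [h1] at hl
        rw [hI' y l hl]
    apply Subtype.ext
    refine h.sep x.1 x.2 y.1 y.2 fun a ha => ?_
    obtain ⟨i, j, -, rfl⟩ := W2 a ha
    have e1 := h2 i
    have e2 := h2 j
    rw [hτ, hτ] at e1 e2
    rw [map_sub, map_sub]
    linear_combination (e2 - e1) / 2
  have hbij : Function.Bijective (fun x : X =>
      (⟨I x, hIc x⟩ : {J : Finset (Fin (2 * m)) // J.card = m})) := by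
    rw [Fintype.bijective_iff_injective_and_card]
    refine ⟨hinj, ?_⟩
    rw [Fintype.card_coe, Fintype.card_finset_len, Fintype.card_fin, hXc]
  obtain ⟨e, he⟩ : ∃ e : X ≃ {J : Finset (Fin (2 * m)) // J.card = m}, ∀ x, (e x).1 = I x :=
    ⟨Equiv.ofBijective _ hbij, fun x => rfl⟩
  have hsurj : ∀ T : Finset (Fin (2 * m)), T.card = m → ∃ x : X, I x = T := by
    intro T hT
    refine ⟨e.symm ⟨T, hT⟩, ?_⟩
    rw [← he, Equiv.apply_symm_apply]
  have hcoτ : ∀ i j, i ≠ j → co (W i - W j) = (1 / 2 : K) • (τ j - τ i) := by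
    intro i j hij
    ext x
    rw [hco _ (W1 i j hij), LinearMap.smul_apply, LinearMap.sub_apply, hτ, hτ, map_sub, smul_eq_mul]
    ring
  let D : WD L m :=
    { b := F.v.reindex e
      t := fun l => F.tor (τ l)
      e := fun i j => F.e (W i - W j)
      odd := hodd
      three := h3
      t_mem := fun j => F.tor_mem _
      e_mem := fun i j hij => F.e_mem _ (W1 i j hij)
      e_ne := fun i j hij => F.e_ne _ (W1 i j hij)
      t_b := by
        intro j J
        rw [Basis.reindex_apply, F.tor_v]
        congr 1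
        have h1 : J.1 = I (e.symm J) := by rw [← he, Equiv.apply_symm_apply]
        rw [h1]
        split_ifs with h2
        · exact (hI _ _).mp h2
        · exact hI' _ _ h2
      t_e := by
        intro l i j hij
        rw [F.tor_e _ _ (W1 i j hij), hτW]
      span := by
        refine F.span.trans ?_
        rw [Submodule.span_le]
        have hT : ∀ l, F.tor (τ l) ∈ Submodule.span K
            (Set.range (fun l => F.tor (τ l)) ∪ {x | ∃ i j, i ≠ j ∧ x = F.e (W i - W j)}) :=
          fun l => Submodule.subset_span (Or.inl ⟨l, rfl⟩)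
        rintro z (⟨c, rfl⟩ | ⟨g, hg, rfl⟩)
        · have hc := F.span_co c
          have h1 : Submodule.span K (co '' (Φ : Set M)) ≤ (Submodule.span K
            (Set.range (fun l => F.tor (τ l)) ∪ {x | ∃ i j, i ≠ j ∧ x = F.e (W i - W j)})).comap
              F.tor := by
            rw [Submodule.span_le]
            rintro _ ⟨g, hg, rfl⟩
            obtain ⟨i, j, hij, rfl⟩ := W2 g hg
            rw [hcoτ i j hij]
            change F.tor ((1 / 2 : K) • (τ j - τ i)) ∈ Submodule.span K
              (Set.range (fun l => F.tor (τ l)) ∪ {x | ∃ i j, i ≠ j ∧ x = F.e (W i - W j)})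
            rw [map_smul, map_sub]
            exact Submodule.smul_mem _ _ (Submodule.sub_mem _ (hT j) (hT i))
          exact h1 hc
        · obtain ⟨i, j, hij, rfl⟩ := W2 g hg
          exact Submodule.subset_span (Or.inr ⟨i, j, hij, rfl⟩) }
  refine ⟨m, D, fun i0 => ?_⟩
  -- the involution `t i0`
  have hexch : ∀ (x : X) i j, i ∈ I x → j ∉ I x → x.1 - (W i - W j) ∈ X := by
    intro x i j hi hj
    have hij : i ≠ j := by
      rintro rfl
      exact hj hi
    refine h.xsub x.1 x.2 _ (W1 i j hij) ?_
    have e1 := (hI x i).mp hi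
    have e2 := hI' x j hj
    rw [hτ] at e1 e2
    rw [map_sub]
    linear_combination (e2 - e1) / 2
  have hval := ht i0
  have hstep : ∀ (x : X) i j, i ∈ I x → j ∉ I x →
      t i0 x.1 - (t i0 (W i) - t i0 (W j)) = 1 ∨ t i0 x.1 - (t i0 (W i) - t i0 (W j)) = -1 := by
    intro x i j hi hj
    have h1 := hval _ (hexch x i j hi hj)
    rwa [map_sub, map_sub] at h1
  have hin : ∀ x : X, ∃ i, i ∈ I x := by
    intro x
    have h1 : (I x).Nonempty := by
      rw [← Finset.card_pos, hIc x]
      omega
    exact h1
  have hout : ∀ x : X, ∃ j, j ∉ I x := by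
    intro x
    by_contra hcon
    push Not at hcon
    have h1 : I x = Finset.univ := Finset.eq_univ_iff_forall.mpr hcon
    have h2 := hIc x
    rw [h1, Finset.card_univ, Fintype.card_fin] at h2
    omega
  have hdiff : ∀ i j, i ≠ j → t i0 (W i) - t i0 (W j) = 0 ∨ t i0 (W i) - t i0 (W j) = 2 ∨
      t i0 (W i) - t i0 (W j) = -2 := by
    intro i j hij
    have hsub : ({i} : Finset (Fin (2 * m))) ⊆ Finset.univ.erase j := by
      intro l hl
      rw [Finset.mem_singleton] at hl
      rw [hl, Finset.mem_erase]
      exact ⟨hij, Finset.mem_univ _⟩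
    obtain ⟨T, hT1, hT2, hT3⟩ := Finset.exists_subsuperset_card_eq (n := m) hsub
      (by rw [Finset.card_singleton]; omega)
      (by rw [Finset.card_erase_of_mem (Finset.mem_univ _), Finset.card_univ, Fintype.card_fin]; omega)
    obtain ⟨x, hx⟩ := hsurj T hT3
    have hi : i ∈ I x := by
      rw [hx]
      exact hT1 (Finset.mem_singleton_self i)
    have hj : j ∉ I x := by
      rw [hx]
      intro hj
      exact (Finset.mem_erase.mp (hT2 hj)).1 rfl
    have h1 := hstep x i j hi hj
    have h2 := hval x.1 x.2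
    rcases h1 with h1 | h1 <;> rcases h2 with h2 | h2 <;> rw [h2] at h1
    · left; linear_combination -h1
    · right; right; linear_combination -h1
    · right; left; linear_combination -h1
    · left; linear_combination -h1
  -- conclusion from equality on the weights
  have hfin1 : ∀ l, (∀ x ∈ X, t i0 x = τ l x) → F.tor (t i0) = D.t l := by
    intro l hl
    refine F.v.ext fun x => ?_
    show F.tor (t i0) (F.v x) = F.tor (τ l) (F.v x)
    rw [F.tor_v, F.tor_v, hl x.1 x.2]
  have hfin2 : ∀ l, (∀ x ∈ X, t i0 x = - τ l x) → F.tor (t i0) = - D.t l := by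
    intro l hl
    refine F.v.ext fun x => ?_
    show F.tor (t i0) (F.v x) = - (F.tor (τ l) (F.v x))
    rw [F.tor_v, F.tor_v, hl x.1 x.2, neg_smul]
  by_cases hconst : ∀ i j, t i0 (W i) = t i0 (W j)
  · exfalso
    have hx0' := h.mem_Xp.mp hx0
    have hne : (h.R x0).Nonempty := by
      rw [← Finset.card_pos, hm]
      omega
    obtain ⟨a, ha⟩ := hne
    rw [h.mem_R] at ha
    obtain ⟨A, hA1, -, -, -, hA5, -⟩ := h.orth x0 hx0'.1 a ha.1 ha.2.2
    have h1 : t i0 (x0 + x0) = 0 := by
      rw [← hA5, map_sum]
      refine Finset.sum_eq_zero fun g hg => ?_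
      obtain ⟨i, j, -, rfl⟩ := W2 g (hA1 hg)
      rw [map_sub, hconst i j, sub_self]
    rw [map_add] at h1
    rcases hval x0 hx0'.1 with h2 | h2 <;> rw [h2] at h1 <;> norm_num at h1
  · obtain ⟨i1, j1, hij1⟩ : ∃ i1 j1, t i0 (W i1) = t i0 (W j1) + 2 := by
      push Not at hconst
      obtain ⟨i, j, hij⟩ := hconst
      have hne : i ≠ j := by
        rintro rfl
        exact hij rfl
      rcases hdiff i j hne with h1 | h1 | h1
      · exact absurd (sub_eq_zero.mp h1) hij
      · exact ⟨i, j, by linear_combination h1⟩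
      · exact ⟨j, i, by linear_combination -h1⟩
    have hne1 : i1 ≠ j1 := by
      rintro rfl
      have : (2 : K) = 0 := by linear_combination -hij1
      exact two_ne_zero this
    have htwo : ∀ k, t i0 (W k) = t i0 (W j1) ∨ t i0 (W k) = t i0 (W j1) + 2 := by
      intro k
      by_cases hk1 : k = j1
      · left
        rw [hk1]
      by_cases hk2 : k = i1
      · right
        rw [hk2]
        exact hij1
      rcases hdiff k j1 hk1 with h1 | h1 | h1
      · left; linear_combination h1
      · right; linear_combination h1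
      · exfalso
        rcases hdiff k i1 hk2 with h2 | h2 | h2
        · have : (4 : K) = 0 := by linear_combination h1 - h2 - hij1
          norm_num at this
        · have : (6 : K) = 0 := by linear_combination h1 - h2 - hij1
          norm_num at this
        · have : (2 : K) = 0 := by linear_combination h1 - h2 - hij1
          exact two_ne_zero this
    by_cases hQ : ∀ k, k ≠ i1 → t i0 (W k) = t i0 (W j1)
    · -- `t i0 = - τ i1`
      refine ⟨i1, Or.inr (hfin2 i1 fun x hx => ?_)⟩
      by_cases hi : i1 ∈ I ⟨x, hx⟩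
      · obtain ⟨j, hj⟩ := hout ⟨x, hx⟩
        have hji : j ≠ i1 := by
          rintro rfl
          exact hj hi
        have h1 := hstep ⟨x, hx⟩ i1 j hi hj
        rw [hij1, hQ j hji] at h1
        rw [(hI ⟨x, hx⟩ i1).mp hi, neg_neg]
        rcases hval x hx with h2 | h2
        · exact h2
        · exfalso
          simp only [h2] at h1
          rcases h1 with h1 | h1
          · have : (4 : K) = 0 := by linear_combination -h1
            norm_num at this
          · have : (2 : K) = 0 := by linear_combination -h1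
            exact two_ne_zero this
      · obtain ⟨i, hi2⟩ := hin ⟨x, hx⟩
        have hii : i ≠ i1 := by
          rintro rfl
          exact hi hi2
        have h1 := hstep ⟨x, hx⟩ i i1 hi2 hi
        rw [hij1, hQ i hii] at h1
        rw [hI' ⟨x, hx⟩ i1 hi]
        rcases hval x hx with h2 | h2
        · exfalso
          simp only [h2] at h1
          rcases h1 with h1 | h1
          · have : (2 : K) = 0 := by linear_combination h1
            exact two_ne_zero this
          · have : (4 : K) = 0 := by linear_combination h1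
            norm_num at this
        · exact h2
    · -- `t i0 = τ j1`
      push Not at hQ
      obtain ⟨i2, hi2ne, hi2v⟩ := hQ
      have hi2 : t i0 (W i2) = t i0 (W j1) + 2 := (htwo i2).resolve_left hi2v
      have hi2j : i2 ≠ j1 := by
        rintro rfl
        exact hi2v rfl
      have hQ' : ∀ k, k ≠ j1 → t i0 (W k) = t i0 (W j1) + 2 := by
        intro j2 hj2
        rcases htwo j2 with h1 | h1
        swap
        · exact h1
        exfalso
        have hj2i1 : i1 ≠ j2 := by
          rintro rfl
          rw [h1] at hij1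
          have : (2 : K) = 0 := by linear_combination -hij1
          exact two_ne_zero this
        have hj2i2 : i2 ≠ j2 := by
          rintro rfl
          exact hi2v h1
        have hsub : ({i1, i2} : Finset (Fin (2 * m))) ⊆ (Finset.univ.erase j1).erase j2 := by
          intro l hl
          rw [Finset.mem_insert, Finset.mem_singleton] at hl
          rw [Finset.mem_erase, Finset.mem_erase]
          rcases hl with rfl | rfl
          · exact ⟨hj2i1, hne1, Finset.mem_univ _⟩
          · exact ⟨hj2i2, hi2j, Finset.mem_univ _⟩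
        obtain ⟨T, hT1, hT2, hT3⟩ := Finset.exists_subsuperset_card_eq (n := m) hsub
          (by rw [Finset.card_pair (Ne.symm hi2ne)]; omega)
          (by
            rw [Finset.card_erase_of_mem (Finset.mem_erase.mpr ⟨hj2, Finset.mem_univ _⟩),
              Finset.card_erase_of_mem (Finset.mem_univ _), Finset.card_univ, Fintype.card_fin]
            omega)
        obtain ⟨x, hx⟩ := hsurj T hT3
        have m1 : i1 ∈ I x := by
          rw [hx]
          exact hT1 (Finset.mem_insert_self _ _)
        have m2 : i2 ∈ I x := by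
          rw [hx]
          exact hT1 (Finset.mem_insert_of_mem (Finset.mem_singleton_self _))
        have m3 : j1 ∉ I x := by
          rw [hx]
          intro hj
          exact (Finset.mem_erase.mp (Finset.mem_erase.mp (hT2 hj)).2).1 rfl
        have m4 : j2 ∉ I x := by
          rw [hx]
          intro hj
          exact (Finset.mem_erase.mp (hT2 hj)).1 rfl
        have hx1 := hexch x i1 j1 m1 m3
        have m5 : i2 ∈ I ⟨_, hx1⟩ := by
          rw [hI]
          simp only
          rw [map_sub, (hI x i2).mp m2, hτW, if_neg hi2j, if_neg hi2ne]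
          ring
        have m6 : j2 ∉ I ⟨_, hx1⟩ := by
          rw [hI]
          simp only
          rw [map_sub, hI' x j2 m4, hτW, if_neg hj2, if_neg (Ne.symm hj2i1)]
          intro h4
          have : (2 : K) = 0 := by linear_combination h4
          exact two_ne_zero this
        have h4 := hstep ⟨_, hx1⟩ i2 j2 m5 m6
        simp only at h4
        rw [map_sub, map_sub, hij1, hi2, h1] at h4
        have e4 : t i0 x.1 - (t i0 (W j1) + 2 - t i0 (W j1)) - (t i0 (W j1) + 2 - t i0 (W j1)) =
            t i0 x.1 - 4 := by ring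
        rw [e4] at h4
        rcases hval x.1 x.2 with h5 | h5 <;> rw [h5] at h4 <;> rcases h4 with h4 | h4 <;>
          norm_num at h4
      refine ⟨j1, Or.inl (hfin1 j1 fun x hx => ?_)⟩
      by_cases hi : j1 ∈ I ⟨x, hx⟩
      · obtain ⟨j, hj⟩ := hout ⟨x, hx⟩
        have hji : j ≠ j1 := by
          rintro rfl
          exact hj hi
        have h1 := hstep ⟨x, hx⟩ j1 j hi hj
        rw [hQ' j hji] at h1
        rw [(hI ⟨x, hx⟩ j1).mp hi]
        rcases hval x hx with h2 | h2
        · exfalso
          simp only [h2] at h1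
          rcases h1 with h1 | h1
          · have : (2 : K) = 0 := by linear_combination h1
            exact two_ne_zero this
          · have : (4 : K) = 0 := by linear_combination h1
            norm_num at this
        · exact h2
      · obtain ⟨i, hi3⟩ := hin ⟨x, hx⟩
        have hii : i ≠ j1 := by
          intro e5
          rw [e5] at hi3
          exact hi hi3
        have h1 := hstep ⟨x, hx⟩ i j1 hi3 hi
        rw [hQ' i hii] at h1
        rw [hI' ⟨x, hx⟩ j1 hi]
        rcases hval x hx with h2 | h2
        · exact h2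
        · exfalso
          simp only [h2] at h1
          rcases h1 with h1 | h1
          · have : (4 : K) = 0 := by linear_combination -h1
            norm_num at this
          · have : (2 : K) = 0 := by linear_combination -h1
            exact two_ne_zero this

end PR
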