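import Pool.Agent.Helper93.SR.Ideals

/-!
Block K1. An involution `s` of a Lie algebra `L` of endomorphisms all of whose elements of degree
one are extremal defines a representation of `L` on the space `K × LP L s`.

Here `s * s = 1`; `pl s z = (1 + s) z (1 - s) / 4` is the component of `z` which maps the eigenspace
of `s` for `-1` to the one for `1`; for `z ∈ L` it is `([s, z] / 2 + [s, [s, z]] / 4) / 2`, so it is in
`L` (`[s, z] = s z - z s`, `[s, [s, z]] = 2 z - 2 s z s`, so
`pl s z = (z + s z - z s - s z s) / 4 = [s, z] / 4 + [s, [s, z]] / 8`). `LP L s` is the set of the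
`y ∈ L` with `s y = y`, `y s = - y`; two such elements have product zero. Write
`a x = - tr (x s) / (2 r)`. The operator `rho x` maps `(t, y)` to
`(a x * t + tr (x y) / r, t • pl s x + pl s (x y - y x) + a x • y)`.

* `rho_lie`: `x ↦ rho x` is a representation. Decompose `x = x₊ + x₀ + x₋` with `x₊ = pl s x`,
  `x₋ = pl (-s) x`, `x₀ = (x + s x s) / 2`, all in `L`. `tr (x₊ s) = 0 = tr (x₋ s)`, for `y ∈ LP L s`
  `tr (x y) = tr (x₋ y)`, `pl s (x y - y x) = x₀ y - y x₀`. So `rho x₊ (t, y) = (0, t x₊)`,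
  `rho x₀ (t, y) = (a t, [x₀, y] + a y)`, `rho x₋ (t, y) = (tr (x₋ y) / r, 0)`. The bracket relation is
  bilinear, so it is enough to check the cases; all are immediate except `[x₋, y₊]`, which is
  `[[z, y], u] = - (tr (z y) u + tr (z u) y) / r` for `y, u ∈ LP L s`, `z ∈ L`, `z s = z`, `s z = - z`:
  as `y u = u y = 0` the left side is `- (y z u + u z y)`, and this is the polarisation of the
  hypothesis `ext`; and `a [z, y] = - tr ([z, y] s) / 2 r = - tr (z [y, s]) / 2 r = tr (z y) / r`
  because `[y, s] = y s - s y = - 2 y`.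
* `chi_torus`: let `A' = rho (2 p - 1) / 2` and decompose `x ∈ L` as
  `x = x₋₁ + x₀ + x₁` with respect to `p` (`x₁ = p x (1 - p)`, `x₋₁ = (1 - p) x p`, all in `L` as above),
  so `[2 p - 1, x_b] = 2 b x_b`, `(1 + (t - 1) p) x (1 + (t⁻¹ - 1) p) = t⁻¹ x₋₁ + x₀ + t x₁` and
  `[A', rho x_b] = b rho x_b`. Claim: if `[A', Z] = b Z` then
  `tr (Z * Y(t) ^ q) = t ^ (-b) * tr (Z * Y(1) ^ q)` with `Y(t) = t⁻¹ rho x₋₁ + rho x₀ + t rho x₁`.
  Induction on `q`: for `q = 0` the trace of `Z` is zero if `b ≠ 0`; the step is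
  `tr (Z Y(t)^(q+1)) = ∑_c t ^ c tr ((Z rho x_c) Y(t) ^ q)`. For `Z = 1`, `b = 0` this is the
  statement. The cases `p = 0`, `p = 1` are trivial.
-/

set_option linter.unusedSectionVars false
set_option linter.unusedVariables false

open Module MTP

namespace PR

variable {K : Type*} [Field K] {V : Type*} [AddCommGroup V] [Module K V] [FiniteDimensional K V]

/-- The component `(1 + s) z (1 - s) / 4`. -/
noncomputable def pl (s : Module.End K V) : Module.End K V →ₗ[K] Module.End K V :=
  (4 : K)⁻¹ • (LinearMap.id + LinearMap.mulLeft K s - LinearMap.mulRight K s -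
    (LinearMap.mulRight K s) ∘ₗ (LinearMap.mulLeft K s))

omit [FiniteDimensional K V] in
lemma pl_apply (s z : Module.End K V) :
    pl s z = (4 : K)⁻¹ • (z + s * z - z * s - s * z * s) := rfl

/-- The elements of `L` which map the eigenspace of `s` for `-1` to the one for `1` and are zero on
the latter. -/
def LP (L : Submodule K (Module.End K V)) (s : Module.End K V) :
    Submodule K (Module.End K V) where
  carrier := {y | y ∈ L ∧ s * y = y ∧ y * s = - y}
  add_mem' := by
    rintro a b ⟨h1, h2, h3⟩ ⟨h1', h2', h3'⟩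
    exact ⟨L.add_mem h1 h1', by rw [mul_add, h2, h2'], by rw [add_mul, h3, h3', neg_add]⟩
  zero_mem' := ⟨L.zero_mem, mul_zero _, by rw [zero_mul, neg_zero]⟩
  smul_mem' := by
    rintro c a ⟨h1, h2, h3⟩
    exact ⟨L.smul_mem c h1, by rw [mul_smul_comm, h2], by rw [smul_mul_assoc, h3, smul_neg]⟩

/-- The element `s` is an involution in the Lie algebra `L` and all elements of degree one are
extremal, with the constant `r`. -/
structure RD (L : Submodule K (Module.End K V)) (s : Module.End K V) (r : K) : Prop where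
  br : ∀ x ∈ L, ∀ y ∈ L, x * y - y * x ∈ L
  sL : s ∈ L
  ss : s * s = 1
  r0 : r ≠ 0
  ext : ∀ y ∈ LP L s, ∀ z ∈ L, y * z * y = (LinearMap.trace K V (y * z) / r) • y

variable {L : Submodule K (Module.End K V)} {s : Module.End K V} {r : K}

omit [FiniteDimensional K V] in
private lemma hss17 (hs : s * s = 1) (z : Module.End K V) : s * (s * z) = z := by
  rw [← mul_assoc, hs, one_mul]

omit [FiniteDimensional K V] in
private lemma plL17 [CharZero K] (br : ∀ x ∈ L, ∀ y ∈ L, x * y - y * x ∈ L) {e : Module.End K V}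
    (heL : e ∈ L) (he : e * e = 1) {z : Module.End K V} (hz : z ∈ L) : pl e z ∈ L := by
  have h1 := br _ heL _ hz
  have h2 := br _ heL _ h1
  have h3 : pl e z = (4 : K)⁻¹ • (e * z - z * e) + (8 : K)⁻¹ •
      (e * (e * z - z * e) - (e * z - z * e) * e) := by
    rw [pl_apply]
    simp only [mul_sub, sub_mul, mul_assoc, he, hss17 he, mul_one]
    module
  rw [h3]
  exact L.add_mem (L.smul_mem _ h1) (L.smul_mem _ h2)

theorem RD.pl_mem [CharZero K] (D : RD L s r) {z : Module.End K V} (hz : z ∈ L) :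
    pl s z ∈ LP L s := by
  refine ⟨plL17 D.br D.sL D.ss hz, ?_, ?_⟩
  · rw [pl_apply, mul_smul_comm]
    simp only [mul_sub, mul_add, mul_assoc, hss17 D.ss]
    module
  · rw [pl_apply, smul_mul_assoc]
    simp only [sub_mul, add_mul, mul_assoc, D.ss, mul_one]
    module

/-- The projection of `L` to `LP L s`. -/
noncomputable def RD.plL [CharZero K] (D : RD L s r) : L →ₗ[K] LP L s :=
  (pl s).restrict fun _ h => D.pl_mem h

/-- The bracket of an element of `L` and an element of `LP L s`. -/
noncomputable def RD.bk (D : RD L s r) : L →ₗ[K] LP L s →ₗ[K] L :=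
  LinearMap.mk₂ K (fun x y => ⟨x.1 * y.1 - y.1 * x.1, D.br _ x.2 _ y.2.1⟩)
    (by intro x x' y; ext1; simp only [Submodule.coe_add, add_mul, mul_add]; abel)
    (by intro c x y; ext1; simp only [Submodule.coe_smul, smul_mul_assoc, mul_smul_comm, smul_sub])
    (by intro x y y'; ext1; simp only [Submodule.coe_add, add_mul, mul_add]; abel)
    (by intro c x y; ext1; simp only [Submodule.coe_smul, smul_mul_assoc, mul_smul_comm, smul_sub])

/-- The trace form on `L` and `LP L s`, divided by `r`. -/
noncomputable def tf (L : Submodule K (Module.End K V)) (s : Module.End K V) (r : K) :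
    L →ₗ[K] LP L s →ₗ[K] K :=
  LinearMap.mk₂ K (fun x y => LinearMap.trace K V (x.1 * y.1) / r)
    (by intro x x' y; simp only [Submodule.coe_add, add_mul, map_add, add_div])
    (by intro c x y; simp only [Submodule.coe_smul, smul_mul_assoc, map_smul, smul_eq_mul,
          mul_div_assoc])
    (by intro x y y'; simp only [Submodule.coe_add, mul_add, map_add, add_div])
    (by intro c x y; simp only [Submodule.coe_smul, mul_smul_comm, map_smul, smul_eq_mul,
          mul_div_assoc])

/-- The linear form `x ↦ - tr (x s) / (2 r)`. -/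
noncomputable def al (L : Submodule K (Module.End K V)) (s : Module.End K V) (r : K) :
    L →ₗ[K] K :=
  (- (2 * r)⁻¹) • ((LinearMap.trace K V) ∘ₗ (LinearMap.mulRight K s) ∘ₗ L.subtype)

/-- The representation of `L` on `K × LP L s`. -/
noncomputable def RD.rho [CharZero K] (D : RD L s r) : L →ₗ[K] Module.End K (K × LP L s) :=
  LinearMap.mk₂ K (fun x u => (al L s r x * u.1 + tf L s r x u.2,
      u.1 • D.plL x + D.plL (D.bk x u.2) + al L s r x • u.2))
    (by
      intro x x' u
      ext1
      · simp only [map_add, LinearMap.add_apply, Prod.fst_add]; ring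
      · simp only [map_add, LinearMap.add_apply, Prod.snd_add, smul_add, add_smul]; abel)
    (by
      intro c x u
      ext1
      · simp only [map_smul, LinearMap.smul_apply, Prod.smul_fst, smul_eq_mul]; ring
      · simp only [map_smul, LinearMap.smul_apply, Prod.smul_snd, smul_add, smul_eq_mul, mul_smul,
          smul_comm u.1 c])
    (by
      intro x u u'
      ext1
      · simp only [map_add, Prod.fst_add, Prod.snd_add]; ring
      · simp only [map_add, Prod.fst_add, Prod.snd_add, smul_add, add_smul]; abel)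
    (by
      intro c x u
      ext1
      · simp only [map_smul, Prod.smul_fst, Prod.smul_snd, smul_eq_mul]; ring
      · simp only [map_smul, Prod.smul_fst, Prod.smul_snd, smul_add, smul_eq_mul, mul_smul,
          smul_comm (al L s r x) c])

private lemma rho_fst17 [CharZero K] (D : RD L s r) (x : L) (u : K × LP L s) :
    (D.rho x u).1 = al L s r x * u.1 + tf L s r x u.2 := rfl

private lemma rho_snd17 [CharZero K] (D : RD L s r) (x : L) (u : K × LP L s) :
    ((D.rho x u).2 : Module.End K V) = u.1 • pl s x.1 + pl s (x.1 * u.2.1 - u.2.1 * x.1) +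
      al L s r x • u.2.1 := rfl

private lemma al17 (x : L) : al L s r x = - (2 * r)⁻¹ * LinearMap.trace K V (x.1 * s) := rfl

private lemma tf17 (x : L) (y : LP L s) : tf L s r x y = LinearMap.trace K V (x.1 * y.1) / r := rfl

/-- (1) -/
private lemma tr1 [CharZero K] (r0 : r ≠ 0) (x y : Module.End K V) :
    - (2 * r)⁻¹ * LinearMap.trace K V ((x * y - y * x) * s) =
      (LinearMap.trace K V (x * pl s y) - LinearMap.trace K V (y * pl s x)) / r := by
  have e1 : LinearMap.trace K V (y * x) = LinearMap.trace K V (x * y) :=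
    LinearMap.trace_mul_comm K y x
  have e2 : LinearMap.trace K V (x * (s * y)) = LinearMap.trace K V (y * (x * s)) := by
    rw [← mul_assoc]; exact LinearMap.trace_mul_comm K (x * s) y
  have e3 : LinearMap.trace K V (y * (s * x)) = LinearMap.trace K V (x * (y * s)) := by
    rw [← mul_assoc]; exact LinearMap.trace_mul_comm K (y * s) x
  have e4 : LinearMap.trace K V (y * (s * (x * s))) = LinearMap.trace K V (x * (s * (y * s))) := by
    rw [← mul_assoc y, ← mul_assoc x]; exact LinearMap.trace_mul_comm K (y * s) (x * s)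
  simp only [pl_apply, mul_smul_comm, mul_add, mul_sub, sub_mul, map_smul, map_add, map_sub,
    mul_assoc, smul_eq_mul]
  rw [e1, e2, e3, e4]
  field_simp
  ring

/-- (2) -/
private lemma tr2 [CharZero K] (hs : s * s = 1) {w : Module.End K V} (h1 : s * w = w)
    (h2 : w * s = - w) (x y : Module.End K V) :
    LinearMap.trace K V ((x * y - y * x) * w) =
      LinearMap.trace K V (x * pl s (y * w - w * y)) - LinearMap.trace K V (y * pl s (x * w - w * x)) := by
  have h3 : ∀ z : Module.End K V, s * (w * z) = w * z := fun z => by rw [← mul_assoc, h1]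
  have key : ∀ y : Module.End K V, pl s (y * w - w * y) =
      (2 : K)⁻¹ • (y * w + s * (y * w) - w * y + w * (y * s)) := by
    intro y
    rw [pl_apply]
    simp only [mul_sub, sub_mul, mul_assoc, h2, h3, mul_neg]
    module
  have e1 : LinearMap.trace K V (x * (w * y)) = LinearMap.trace K V (y * (x * w)) := by
    rw [← mul_assoc]; exact LinearMap.trace_mul_comm K (x * w) y
  have e2 : LinearMap.trace K V (y * (w * x)) = LinearMap.trace K V (x * (y * w)) := by
    rw [← mul_assoc]; exact LinearMap.trace_mul_comm K (y * w) x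
  have e3 : LinearMap.trace K V (x * (w * (y * s))) = LinearMap.trace K V (y * (s * (x * w))) := by
    rw [← mul_assoc x, ← mul_assoc y]; exact LinearMap.trace_mul_comm K (x * w) (y * s)
  have e4 : LinearMap.trace K V (y * (w * (x * s))) = LinearMap.trace K V (x * (s * (y * w))) := by
    rw [← mul_assoc x, ← mul_assoc y]; exact LinearMap.trace_mul_comm K (y * w) (x * s)
  rw [key, key]
  simp only [mul_smul_comm, mul_add, mul_sub, sub_mul, map_smul, map_add, map_sub,
    mul_assoc, smul_eq_mul]
  rw [e1, e2, e3, e4]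
  ring

/-- (3) -/
private lemma tr3 [CharZero K] (hs : s * s = 1) (x y : Module.End K V) :
    pl s (x * y - y * x) = pl s (x * pl s y - pl s y * x) - pl s (y * pl s x - pl s x * y) := by
  simp only [pl_apply, mul_smul_comm, smul_mul_assoc, mul_add, mul_sub, sub_mul, add_mul,
    mul_assoc, hs, hss17 hs, mul_one]
  module

/-- The polarisation of `ext`. -/
private lemma pol17 [CharZero K] (D : RD L s r) {u v z : Module.End K V} (hu : u ∈ LP L s)
    (hv : v ∈ LP L s) (hz : z ∈ L) :
    u * (z * v) + v * (z * u) = (LinearMap.trace K V (z * u) / r) • v +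
      (LinearMap.trace K V (z * v) / r) • u := by
  have h1 := D.ext _ hu _ hz
  have h2 := D.ext _ hv _ hz
  have h3 := D.ext _ ((LP L s).add_mem hu hv) _ hz
  rw [LinearMap.trace_mul_comm] at h1 h2 h3
  have h4 : u * (z * v) + v * (z * u) = (u + v) * z * (u + v) - u * z * u - v * z * v := by
    noncomm_ring
  rw [h4, h1, h2, h3]
  simp only [mul_add, map_add, add_div, smul_add, add_smul]
  abel

/-- (4) -/
private lemma tr4 [CharZero K] (D : RD L s r) {x y : Module.End K V} (hx : x ∈ L) (hy : y ∈ L)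
    {w : Module.End K V} (hw : w ∈ LP L s) :
    pl s ((x * y - y * x) * w - w * (x * y - y * x)) +
        (- (2 * r)⁻¹ * LinearMap.trace K V ((x * y - y * x) * s)) • w =
      (LinearMap.trace K V (y * w) / r) • pl s x - (LinearMap.trace K V (x * w) / r) • pl s y +
      (pl s (x * pl s (y * w - w * y) - pl s (y * w - w * y) * x) -
        pl s (y * pl s (x * w - w * x) - pl s (x * w - w * x) * y)) := by
  have p1 := pol17 D (D.pl_mem hx) hw hy
  have p2 := pol17 D (D.pl_mem hy) hw hx
  rw [tr1 D.r0]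
  obtain ⟨hwL, h1, h2⟩ := hw
  have h3 : ∀ z : Module.End K V, s * (w * z) = w * z := fun z => by rw [← mul_assoc, h1]
  have key : pl s ((x * y - y * x) * w - w * (x * y - y * x)) -
      (pl s (x * pl s (y * w - w * y) - pl s (y * w - w * y) * x) -
        pl s (y * pl s (x * w - w * x) - pl s (x * w - w * x) * y)) =
      (pl s x * (y * w) + w * (y * pl s x)) - (pl s y * (x * w) + w * (x * pl s y)) := by
    simp only [pl_apply, mul_smul_comm, smul_mul_assoc, mul_add, mul_sub, sub_mul, add_mul,
      mul_assoc, D.ss, hss17 D.ss, mul_one, h2, h3, mul_neg, neg_mul]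
    module
  rw [p1, p2] at key
  rw [sub_eq_iff_eq_add] at key
  rw [key, sub_div]
  module

/-- `rho` is a representation. -/
theorem RD.rho_lie [CharZero K] (D : RD L s r) (x y : L) :
    D.rho ⟨x.1 * y.1 - y.1 * x.1, D.br _ x.2 _ y.2⟩ = D.rho x * D.rho y - D.rho y * D.rho x := by
  apply LinearMap.ext
  rintro ⟨t, w⟩
  have hr := D.r0
  have t1 := tr1 (s := s) D.r0 x.1 y.1
  have t2 := tr2 D.ss w.2.2.1 w.2.2.2 x.1 y.1
  have t3 := tr3 D.ss x.1 y.1
  have t4 := tr4 D x.2 y.2 w.2
  refine Prod.ext ?_ (Subtype.ext ?_)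
  · simp only [LinearMap.sub_apply, Module.End.mul_apply, Prod.fst_sub, rho_fst17, tf17, rho_snd17,
      al17]
    rw [t1, t2]
    simp only [mul_add, map_add, mul_smul_comm, map_smul, smul_eq_mul]
    field_simp
    ring
  · simp only [LinearMap.sub_apply, Module.End.mul_apply, Prod.snd_sub, Submodule.coe_sub,
      rho_fst17, tf17, rho_snd17, al17]
    have t5 := t4
    rw [t3]
    simp only [mul_add, add_mul, map_add, mul_smul_comm, smul_mul_assoc, map_smul, map_sub] at t5 ⊢
    rw [← sub_eq_zero] at t5 ⊢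
    rw [← t5]
    module

open Classical in
/-- The traces of the powers of `rho x`. -/
noncomputable def chi [CharZero K] (L : Submodule K (Module.End K V)) (s : Module.End K V) (r : K)
    (q : ℕ) (x : Module.End K V) : K :=
  if h : RD L s r ∧ x ∈ L then LinearMap.trace K _ (h.1.rho ⟨x, h.2⟩ ^ q) else 0

theorem chi_eq [CharZero K] (D : RD L s r) {x : Module.End K V} (hx : x ∈ L) (q : ℕ) :
    chi L s r q x = LinearMap.trace K _ (D.rho ⟨x, hx⟩ ^ q) := by
  unfold chi
  rw [dif_pos ⟨D, hx⟩]

/-- The graded trace argument. -/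
private lemma grtr17 [CharZero K] {W : Type*} [AddCommGroup W] [Module K W] {A R1 R0 R2 : Module.End K W}
    (h1 : A * R1 - R1 * A = - R1) (h0 : A * R0 - R0 * A = 0) (h2 : A * R2 - R2 * A = R2)
    {t : K} (ht : t ≠ 0) (q : ℕ) :
    ∀ (b : ℤ) (Z : Module.End K W), A * Z - Z * A = (b : K) • Z →
      LinearMap.trace K W (Z * (t⁻¹ • R1 + R0 + t • R2) ^ q) =
        t ^ (-b) * LinearMap.trace K W (Z * (R1 + R0 + R2) ^ q) := by
  induction q with
  | zero =>
    intro b Z hZ
    rw [pow_zero, pow_zero, mul_one]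
    by_cases hb : b = 0
    · subst hb; simp
    · have h3 : (b : K) * LinearMap.trace K W Z = 0 := by
        rw [← smul_eq_mul, ← map_smul, ← hZ, map_sub, LinearMap.trace_mul_comm, sub_self]
      have h4 : LinearMap.trace K W Z = 0 := by
        rcases mul_eq_zero.1 h3 with h | h
        · exact absurd (Int.cast_eq_zero.1 h) hb
        · exact h
      rw [h4, mul_zero]
  | succ q ih =>
    intro b Z hZ
    have g1 : A * (Z * R1) - (Z * R1) * A = ((b - 1 : ℤ) : K) • (Z * R1) := by
      have : A * (Z * R1) - (Z * R1) * A = (A * Z - Z * A) * R1 + Z * (A * R1 - R1 * A) := by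
        noncomm_ring
      rw [this, hZ, h1]
      push_cast
      rw [smul_mul_assoc, mul_neg]
      module
    have g0 : A * (Z * R0) - (Z * R0) * A = (b : K) • (Z * R0) := by
      have : A * (Z * R0) - (Z * R0) * A = (A * Z - Z * A) * R0 + Z * (A * R0 - R0 * A) := by
        noncomm_ring
      rw [this, hZ, h0, smul_mul_assoc, mul_zero, add_zero]
    have g2 : A * (Z * R2) - (Z * R2) * A = ((b + 1 : ℤ) : K) • (Z * R2) := by
      have : A * (Z * R2) - (Z * R2) * A = (A * Z - Z * A) * R2 + Z * (A * R2 - R2 * A) := by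
        noncomm_ring
      rw [this, hZ, h2]
      push_cast
      rw [smul_mul_assoc]
      module
    have i1 := ih _ _ g1
    have i0 := ih _ _ g0
    have i2 := ih _ _ g2
    have e1 : t ^ (-(b - 1)) = t * t ^ (-b) := by
      rw [show -(b - 1) = 1 + -b by ring, zpow_add₀ ht, zpow_one]
    have e2 : t * t ^ (-(b + 1)) = t ^ (-b) := by
      rw [show -b = 1 + -(b + 1) by ring, zpow_add₀ ht, zpow_one]
    rw [pow_succ', pow_succ', ← mul_assoc, ← mul_assoc]
    have k1 : Z * (t⁻¹ • R1 + R0 + t • R2) = t⁻¹ • (Z * R1) + Z * R0 + t • (Z * R2) := by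
      simp only [mul_add, mul_smul_comm]
    have k2 : Z * (R1 + R0 + R2) = Z * R1 + Z * R0 + Z * R2 := by
      simp only [mul_add]
    rw [k1, k2]
    simp only [add_mul, smul_mul_assoc, map_add, map_smul, smul_eq_mul]
    rw [i1, i0, i2, e1, ← mul_assoc t, e2]
    field_simp

/-- Invariance under the cocharacters. -/
theorem chi_torus [CharZero K] (D : RD L s r) {p : Module.End K V} (hp : p * p = p)
    (hpL : (2 : K) • p - 1 ∈ L ∨ p = 0 ∨ p = 1) {t : K} (ht : t ≠ 0) {x : Module.End K V}
    (hx : x ∈ L) (q : ℕ) :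
    (1 + (t - 1) • p) * x * (1 + (t⁻¹ - 1) • p) ∈ L ∧
    chi L s r q ((1 + (t - 1) • p) * x * (1 + (t⁻¹ - 1) • p)) = chi L s r q x := by
  have c0 : ∀ y : Module.End K V, y = x → y ∈ L ∧ chi L s r q y = chi L s r q x := by
    rintro y rfl
    exact ⟨hx, rfl⟩
  rcases hpL with hpL | rfl | rfl
  · set e : Module.End K V := (2 : K) • p - 1 with he
    have hee : e * e = 1 := by
      rw [he]
      simp only [sub_mul, mul_sub, smul_mul_assoc, mul_smul_comm, hp, one_mul, mul_one]
      module
    have hee' : (-e) * (-e) = 1 := by rw [neg_mul_neg, hee]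
    have m2 : pl e x ∈ L := plL17 D.br hpL hee hx
    have m1 : pl (-e) x ∈ L := plL17 D.br (L.neg_mem hpL) hee' hx
    have m0 : x - pl e x - pl (-e) x ∈ L := L.sub_mem (L.sub_mem hx m2) m1
    have key : (1 + (t - 1) • p) * x * (1 + (t⁻¹ - 1) • p) =
        t⁻¹ • pl (-e) x + (x - pl e x - pl (-e) x) + t • pl e x := by
      have hp2 : p = (2 : K)⁻¹ • (e + 1) := by
        rw [he]; module
      rw [hp2]
      simp only [pl_apply, add_mul, mul_add, smul_mul_assoc, mul_smul_comm, one_mul, mul_one,
        mul_assoc, smul_add, mul_neg, neg_mul, smul_smul, neg_neg, smul_sub]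
      match_scalars <;> field_simp <;> ring
    have m3 : (1 + (t - 1) • p) * x * (1 + (t⁻¹ - 1) • p) ∈ L := by
      rw [key]
      exact L.add_mem (L.add_mem (L.smul_mem _ m1) m0) (L.smul_mem _ m2)
    refine ⟨m3, ?_⟩
    rw [chi_eq D m3, chi_eq D hx]
    have f : ∀ (c : K) (z : Module.End K V) (hz : z ∈ L), e * z - z * e = c • z →
        ((2 : K)⁻¹ • D.rho ⟨e, hpL⟩) * D.rho ⟨z, hz⟩ - D.rho ⟨z, hz⟩ * ((2 : K)⁻¹ • D.rho ⟨e, hpL⟩) =
          (c / 2) • D.rho ⟨z, hz⟩ := by
      intro c z hz h
      have h5 := D.rho_lie ⟨e, hpL⟩ ⟨z, hz⟩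
      have h6 : (⟨e * z - z * e, D.br _ hpL _ hz⟩ : L) = c • ⟨z, hz⟩ := Subtype.ext h
      have h7 : ((2 : K)⁻¹ • D.rho ⟨e, hpL⟩) * D.rho ⟨z, hz⟩ -
          D.rho ⟨z, hz⟩ * ((2 : K)⁻¹ • D.rho ⟨e, hpL⟩) =
          (2 : K)⁻¹ • (D.rho ⟨e, hpL⟩ * D.rho ⟨z, hz⟩ - D.rho ⟨z, hz⟩ * D.rho ⟨e, hpL⟩) := by
        rw [smul_mul_assoc, mul_smul_comm]
        module
      rw [h7, ← h5]
      change (2 : K)⁻¹ • D.rho (⟨e * z - z * e, D.br _ hpL _ hz⟩ : L) = _
      rw [h6, map_smul, smul_smul]
      congr 1
      ring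
    have f2 := f 2 (pl e x) m2 (by
      simp only [pl_apply, smul_mul_assoc, mul_smul_comm, mul_add, mul_sub, sub_mul, add_mul,
        mul_assoc, hee, hss17 hee, mul_one]
      module)
    have f1 := f (-2) (pl (-e) x) m1 (by
      simp only [pl_apply, smul_mul_assoc, mul_smul_comm, mul_add, mul_sub, sub_mul, add_mul,
        mul_assoc, hee, hss17 hee, mul_one, mul_neg, neg_mul, neg_neg]
      module)
    have f0 := f 0 (x - pl e x - pl (-e) x) m0 (by
      simp only [pl_apply, smul_mul_assoc, mul_smul_comm, mul_add, mul_sub, sub_mul, add_mul,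
        mul_assoc, hee, hss17 hee, mul_one, mul_neg, neg_mul, neg_neg]
      module)
    have g := grtr17 (A := (2 : K)⁻¹ • D.rho ⟨e, hpL⟩) (R1 := D.rho ⟨pl (-e) x, m1⟩)
      (R0 := D.rho ⟨x - pl e x - pl (-e) x, m0⟩) (R2 := D.rho ⟨pl e x, m2⟩)
      (by rw [f1]; module) (by rw [f0]; module) (by rw [f2]; module) ht q 0 1
      (by rw [mul_one, one_mul, Int.cast_zero, zero_smul]; module)
    rw [one_mul, one_mul, neg_zero, zpow_zero, one_mul] at g
    have r1 : D.rho ⟨(1 + (t - 1) • p) * x * (1 + (t⁻¹ - 1) • p), m3⟩ =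
        t⁻¹ • D.rho ⟨pl (-e) x, m1⟩ + D.rho ⟨x - pl e x - pl (-e) x, m0⟩ + t • D.rho ⟨pl e x, m2⟩ := by
      rw [← map_smul, ← map_smul, ← map_add, ← map_add]
      congr 1
      exact Subtype.ext key
    have r2 : D.rho ⟨x, hx⟩ =
        D.rho ⟨pl (-e) x, m1⟩ + D.rho ⟨x - pl e x - pl (-e) x, m0⟩ + D.rho ⟨pl e x, m2⟩ := by
      rw [← map_add, ← map_add]
      congr 1
      apply Subtype.ext
      change x = pl (-e) x + (x - pl e x - pl (-e) x) + pl e x
      abel
    rw [r1, r2]
    exact g
  · apply c0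
    simp
  · apply c0
    have h1 : (1 : Module.End K V) + (t - 1) • 1 = t • 1 := by module
    have h2 : (1 : Module.End K V) + (t⁻¹ - 1) • 1 = t⁻¹ • 1 := by module
    rw [h1, h2, smul_mul_assoc, one_mul, smul_mul_assoc, mul_smul_comm, mul_one, smul_smul,
      mul_inv_cancel₀ ht, one_smul]

end PR
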