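import Pool.Agent.Helper27.PR.Rho

/-!
Block K2. Semilinear ring automorphisms, and the dual representation.

* `trace_tw`: the function `f x = σ⁻¹ (tr (τ x))` is `K`-linear and `f (x y) = f (y x)`, so it is a
  multiple `c * tr` of the trace (rank one operators / matrix units: `E i j = E i k * E k j`,
  `E k j * E i k = 0` for `i ≠ j`, and all `E i i` have the same value), and `f 1 = dim V = tr 1`,
  so `c = 1` if `V` is not zero. Any other proof is fine.
* `rd_tw`, `chi_tw`: `τ` maps `LP L s` to `LP L (τ s)` and `tr (τ x) = σ (tr x)`; the additive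
  bijection `φ (t, y) = (σ t, τ y)` of `K × LP L s` to `K × LP L (τ s)` is `σ`-semilinear and
  `φ (rho x u) = rho (τ x) (φ u)`; for such `φ` the trace of `rho (τ x) ^ q` is `σ` of the trace of
  `rho x ^ q` (general lemma `trace_semi`: in a basis `b` and the basis `φ b` the matrices are `A`
  and `σ A`; `φ ∘ A ^ q = A' ^ q ∘ φ`). If `x ∉ L` both sides are `0`.
* `chi_neg`: the bilinear map `B ((t, y), (t', y')) = t t' - tr (y y') / r` of `K × LP L s` and
  `K × LP L (-s)` satisfies `B (rho x u, u') + B (u, rho' x u') = 0` (with the decomposition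
  `x = x₊ + x₀ + x₋` of block K1: `rho x (t, y) = (a t + tr (x₋ y) / r, t x₊ + [x₀, y] + a y)`,
  `rho' x (t', y') = (- a t' + tr (x₊ y') / r, t' x₋ + [x₀, y'] - a y')`), and it is nondegenerate on
  both sides, because for `y ∈ LP L s` the form `tr (y z)` on `L` only sees the component
  `pl (-s) z ∈ LP L (-s)`. So `rho' x` is the negative of the adjoint of `rho x`, and the traces of
  the powers are equal up to `(-1) ^ q`.
-/

set_option linter.unusedSectionVars false
set_option linter.unusedVariables false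

open Module MTP

namespace PR

variable {K : Type*} [Field K] {V : Type*} [AddCommGroup V] [Module K V] [FiniteDimensional K V]
variable {L : Submodule K (Module.End K V)} {s : Module.End K V} {r : K}

theorem trace_semi {E F : Type*} [AddCommGroup E] [Module K E] [FiniteDimensional K E]
    [AddCommGroup F] [Module K F] [FiniteDimensional K F] (σ : K ≃+* K) (φ : E ≃+ F)
    (hφ : ∀ (c : K) v, φ (c • v) = σ c • φ v) {A : Module.End K E} {B : Module.End K F}
    (h : ∀ v, φ (A v) = B (φ v)) : LinearMap.trace K F B = σ (LinearMap.trace K E A) := by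
  have hsymm : ∀ (c : K) w, φ.symm (c • w) = σ.symm c • φ.symm w := by
    intro c w
    apply φ.injective
    rw [φ.apply_symm_apply, hφ, σ.apply_symm_apply, φ.apply_symm_apply]
  let b := Module.finBasis K E
  let e : F ≃ₗ[K] (Fin (Module.finrank K E) → K) :=
    { toFun := fun w i => σ (b.equivFun (φ.symm w) i)
      map_add' := by
        intro w w'
        funext i
        simp only [map_add, Pi.add_apply]
      map_smul' := by
        intro c w
        funext i
        simp only [hsymm, map_smul, Pi.smul_apply, smul_eq_mul, map_mul, σ.apply_symm_apply,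
          RingHom.id_apply]
      invFun := fun c => φ (b.equivFun.symm fun i => σ.symm (c i))
      left_inv := by
        intro w
        simp only [σ.symm_apply_apply]
        rw [LinearEquiv.symm_apply_apply, φ.apply_symm_apply]
      right_inv := by
        intro c
        funext i
        simp only [φ.symm_apply_apply]
        rw [LinearEquiv.apply_symm_apply, σ.apply_symm_apply] }
  let b' : Module.Basis (Fin (Module.finrank K E)) K F := Module.Basis.ofEquivFun e
  have hb' : ∀ i, b' i = φ (b i) := by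
    intro i
    apply b'.equivFun.injective
    funext j
    rw [b'.equivFun_self]
    have h1 : b'.equivFun = e := Module.Basis.equivFun_ofEquivFun e
    rw [h1]
    show _ = σ (b.equivFun (φ.symm (φ (b i))) j)
    rw [φ.symm_apply_apply, b.equivFun_self]
    split_ifs <;> simp
  have hr : ∀ w i, b'.repr w i = σ (b.repr (φ.symm w) i) := by
    intro w i
    have h1 : b'.equivFun = e := Module.Basis.equivFun_ofEquivFun e
    have h2 := congrArg (fun f : F ≃ₗ[K] (Fin (Module.finrank K E) → K) => f w i) h1
    exact h2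
  rw [LinearMap.trace_eq_matrix_trace K b' B, LinearMap.trace_eq_matrix_trace K b A, Matrix.trace,
    Matrix.trace, map_sum]
  refine Finset.sum_congr rfl fun i _ => ?_
  rw [Matrix.diag_apply, Matrix.diag_apply, LinearMap.toMatrix_apply, LinearMap.toMatrix_apply, hr,
    hb', ← h, φ.symm_apply_apply]

private lemma mat_tr30 {n : Type*} [Fintype n] [DecidableEq n] (g : Matrix n n K →ₗ[K] K)
    (hg : ∀ A B, g (A * B) = g (B * A)) (k : n) (A : Matrix n n K) :
    g A = g (Matrix.single k k 1) * Matrix.trace A := by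
  have h0 : ∀ i j, i ≠ j → g (Matrix.single i j 1) = 0 := by
    intro i j hij
    have h1 : Matrix.single i j (1 : K) = Matrix.single i i 1 * Matrix.single i j 1 := by
      rw [Matrix.single_mul_single_same, one_mul]
    rw [h1, hg, Matrix.single_mul_single_of_ne _ _ _ _ hij.symm, map_zero]
  have h1 : ∀ i j, g (Matrix.single i i 1) = g (Matrix.single j j 1) := by
    intro i j
    have h2 : Matrix.single i i (1 : K) = Matrix.single i j 1 * Matrix.single j i 1 := by
      rw [Matrix.single_mul_single_same, one_mul]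
    rw [h2, hg, Matrix.single_mul_single_same, one_mul]
  have h2 : ∀ (i j : n) (c : K), Matrix.single i j c = c • Matrix.single i j 1 := by
    intro i j c
    rw [Matrix.smul_single, smul_eq_mul, mul_one]
  conv_lhs => rw [Matrix.matrix_eq_sum_single A]
  rw [map_sum, Matrix.trace, Finset.mul_sum]
  refine Finset.sum_congr rfl fun i _ => ?_
  rw [map_sum, Finset.sum_eq_single i]
  · rw [h2, map_smul, smul_eq_mul, h1 i k, Matrix.diag_apply, mul_comm]
  · intro j _ hj
    rw [h2, map_smul, h0 i j (Ne.symm hj), smul_zero]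
  · intro h
    exact absurd (Finset.mem_univ i) h

private lemma end_tr30 [CharZero K] (g : Module.End K V →ₗ[K] K) (hg : ∀ A B, g (A * B) = g (B * A))
    (h1 : g 1 = Module.finrank K V) (x : Module.End K V) : g x = LinearMap.trace K V x := by
  classical
  rcases Nat.eq_zero_or_pos (Module.finrank K V) with h | h
  · have : Subsingleton V := Module.finrank_zero_iff.mp h
    have hx : x = 0 := Subsingleton.elim _ _
    rw [hx, map_zero, map_zero]
  · let b := Module.finBasis K V
    let k : Fin (Module.finrank K V) := ⟨0, h⟩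
    have key := mat_tr30 (g ∘ₗ (LinearMap.toMatrixAlgEquiv b).symm.toLinearMap) (by
      intro A B
      simp only [LinearMap.comp_apply, AlgEquiv.toLinearMap_apply, map_mul]
      exact hg _ _) k
    have key1 := key 1
    have keyx := key (LinearMap.toMatrixAlgEquiv b x)
    simp only [LinearMap.comp_apply, AlgEquiv.toLinearMap_apply, AlgEquiv.symm_apply_apply,
      map_one] at key1 keyx
    rw [h1, Matrix.trace_one, Fintype.card_fin] at key1
    have hn : (Module.finrank K V : K) ≠ 0 := Nat.cast_ne_zero.mpr h.ne'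
    have hc := mul_right_cancel₀ hn ((one_mul _).trans key1)
    rw [keyx, ← hc, one_mul, LinearMap.trace_eq_matrix_trace K b x]
    rfl

theorem trace_tw [CharZero K] {τ : Module.End K V ≃+* Module.End K V} {σ : K ≃+* K}
    (hσ : ∀ (c : K) (x : Module.End K V), τ (c • x) = σ c • τ x) (x : Module.End K V) :
    LinearMap.trace K V (τ x) = σ (LinearMap.trace K V x) := by
  let g : Module.End K V →ₗ[K] K :=
    { toFun := fun x => σ.symm (LinearMap.trace K V (τ x))
      map_add' := by
        intro x y
        rw [map_add, map_add, map_add]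
      map_smul' := by
        intro c x
        rw [hσ, map_smul, smul_eq_mul, map_mul, σ.symm_apply_apply, RingHom.id_apply, smul_eq_mul] }
  have h := end_tr30 g (fun A B => by
    show σ.symm (LinearMap.trace K V (τ (A * B))) = σ.symm (LinearMap.trace K V (τ (B * A)))
    rw [map_mul τ, map_mul τ, LinearMap.trace_mul_comm]) (by
    show σ.symm (LinearMap.trace K V (τ 1)) = _
    rw [map_one, LinearMap.trace_one, map_natCast]) x
  rw [← h]
  show _ = σ (σ.symm (LinearMap.trace K V (τ x)))
  rw [σ.apply_symm_apply]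

theorem rd_tw [CharZero K] (D : RD L s r) {τ : Module.End K V ≃+* Module.End K V} {σ : K ≃+* K}
    (hσ : ∀ (c : K) (x : Module.End K V), τ (c • x) = σ c • τ x) (hL : ∀ x, τ x ∈ L ↔ x ∈ L)
    (hr : σ r = r) : RD L (τ s) r := by
  refine ⟨D.br, (hL s).2 D.sL, by rw [← map_mul, D.ss, map_one], D.r0, ?_⟩
  rintro y ⟨h1, h2, h3⟩ z hz
  obtain ⟨y', rfl⟩ := τ.surjective y
  obtain ⟨z', rfl⟩ := τ.surjective z
  have hy' : y' ∈ LP L s := by
    refine ⟨(hL y').1 h1, τ.injective ?_, τ.injective ?_⟩
    · rw [map_mul, h2]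
    · rw [map_mul, h3, map_neg]
  have h4 := congrArg τ (D.ext y' hy' z' ((hL z').1 hz))
  rw [map_mul, map_mul, hσ, map_div₀, hr, ← trace_tw hσ, map_mul] at h4
  exact h4

private lemma pl_tw30 {τ : Module.End K V ≃+* Module.End K V} {σ : K ≃+* K}
    (hσ : ∀ (c : K) (x : Module.End K V), τ (c • x) = σ c • τ x) (z : Module.End K V) :
    τ (pl s z) = pl (τ s) (τ z) := by
  have h4 : σ (4 : K)⁻¹ = (4 : K)⁻¹ := by rw [map_inv₀, map_ofNat]
  simp only [pl_apply, hσ, h4, map_sub, map_add, map_mul]

theorem chi_tw [CharZero K] (D : RD L s r) {τ : Module.End K V ≃+* Module.End K V}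
    {σ : K ≃+* K} (hσ : ∀ (c : K) (x : Module.End K V), τ (c • x) = σ c • τ x)
    (hL : ∀ x, τ x ∈ L ↔ x ∈ L) (hr : σ r = r) (q : ℕ) (x : Module.End K V) :
    chi L (τ s) r q (τ x) = σ (chi L s r q x) := by
  by_cases hx : x ∈ L
  swap
  · unfold chi
    rw [dif_neg (fun h => hx ((hL x).1 h.2)), dif_neg (fun h => hx h.2), map_zero]
  have D' : RD L (τ s) r := rd_tw D hσ hL hr
  have hx' : τ x ∈ L := (hL x).2 hx
  rw [chi_eq D' hx', chi_eq D hx]
  have hLP : ∀ y, τ y ∈ LP L (τ s) ↔ y ∈ LP L s := by
    intro y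
    constructor
    · rintro ⟨h1, h2, h3⟩
      refine ⟨(hL y).1 h1, τ.injective ?_, τ.injective ?_⟩
      · rw [map_mul, h2]
      · rw [map_mul, h3, map_neg]
    · rintro ⟨h1, h2, h3⟩
      exact ⟨(hL y).2 h1, by rw [← map_mul, h2], by rw [← map_mul, h3, map_neg]⟩
  let φ : (K × LP L s) ≃+ (K × LP L (τ s)) :=
    { toFun := fun u => (σ u.1, ⟨τ u.2.1, (hLP _).2 u.2.2⟩)
      invFun := fun u => (σ.symm u.1, ⟨τ.symm u.2.1, (hLP _).1 (by
        rw [τ.apply_symm_apply]; exact u.2.2)⟩)
      left_inv := by
        rintro ⟨t, y, hy⟩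
        simp
      right_inv := by
        rintro ⟨t, y, hy⟩
        simp
      map_add' := by
        rintro ⟨t, y, hy⟩ ⟨t', y', hy'⟩
        simp }
  refine trace_semi σ φ ?_ ?_
  · rintro c ⟨t, y, hy⟩
    refine Prod.ext ?_ (Subtype.ext ?_)
    · show σ (c * t) = σ c * σ t
      exact map_mul σ c t
    · show τ (c • y) = σ c • τ y
      exact hσ c y
  have hal : al L (τ s) r ⟨τ x, hx'⟩ = σ (al L s r ⟨x, hx⟩) := by
    show (-(2 * r)⁻¹) * LinearMap.trace K V (τ x * τ s) = σ ((-(2 * r)⁻¹) * LinearMap.trace K V (x * s))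
    rw [map_mul σ, ← trace_tw hσ, map_mul τ, map_neg σ, map_inv₀ σ, map_mul σ, hr, map_ofNat]
  have h1 : ∀ v, φ (D.rho ⟨x, hx⟩ v) = D'.rho ⟨τ x, hx'⟩ (φ v) := by
    rintro ⟨t, y, hy⟩
    refine Prod.ext ?_ (Subtype.ext ?_)
    · show σ (al L s r ⟨x, hx⟩ * t + LinearMap.trace K V (x * y) / r) =
        al L (τ s) r ⟨τ x, hx'⟩ * σ t + LinearMap.trace K V (τ x * τ y) / r
      rw [hal, map_add, map_mul, map_div₀, hr, ← trace_tw hσ, map_mul]
    · show τ (t • pl s x + pl s (x * y - y * x) + al L s r ⟨x, hx⟩ • y) =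
        σ t • pl (τ s) (τ x) + pl (τ s) (τ x * τ y - τ y * τ x) + al L (τ s) r ⟨τ x, hx'⟩ • τ y
      rw [hal, map_add, map_add, hσ, hσ, pl_tw30 hσ, pl_tw30 hσ, map_sub, map_mul, map_mul]
  intro v
  induction q generalizing v with
  | zero => rfl
  | succ q ih =>
    rw [pow_succ, pow_succ, Module.End.mul_apply, Module.End.mul_apply, ih, h1]

private lemma tr_pl30 [CharZero K] {y : Module.End K V} (hy : s * y = y) (hy' : y * s = - y)
    (z : Module.End K V) :
    LinearMap.trace K V (y * pl (-s) z) = LinearMap.trace K V (y * z) := by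
  have h1 : LinearMap.trace K V (y * z * s) = LinearMap.trace K V (y * z) := by
    rw [LinearMap.trace_mul_comm, ← mul_assoc, hy]
  have h2 : y * pl (-s) z = (4 : K)⁻¹ • (y * z + y * z + y * z * s + y * z * s) := by
    have h3 : y * s * z = - (y * z) := by rw [hy', neg_mul]
    have h4 : y * s * z * s = - (y * z * s) := by rw [h3, neg_mul]
    rw [pl_apply, mul_smul_comm]
    congr 1
    simp only [mul_sub, mul_add, neg_mul, mul_neg, neg_neg, ← mul_assoc, h3]
    abel
  rw [h2, map_smul, map_add, map_add, map_add, h1, smul_eq_mul]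
  ring

private noncomputable def bb30 (L : Submodule K (Module.End K V)) (s : Module.End K V) (r : K) :
    (K × LP L s) →ₗ[K] (K × LP L (-s)) →ₗ[K] K :=
  LinearMap.mk₂ K (fun u v => u.1 * v.1 - LinearMap.trace K V (u.2.1 * v.2.1) / r)
    (by intro u u' v; simp only [Prod.fst_add, Prod.snd_add, Submodule.coe_add, add_mul, map_add,
          add_div]; ring)
    (by intro c u v; simp only [Prod.smul_fst, Prod.smul_snd, Submodule.coe_smul, smul_mul_assoc,
          map_smul, smul_eq_mul]; ring)
    (by intro u v v'; simp only [Prod.fst_add, Prod.snd_add, Submodule.coe_add, mul_add, map_add,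
          add_div]; ring)
    (by intro c u v; simp only [Prod.smul_fst, Prod.smul_snd, Submodule.coe_smul, mul_smul_comm,
          map_smul, smul_eq_mul]; ring)

private lemma bb_apply30 (u : K × LP L s) (v : K × LP L (-s)) :
    bb30 L s r u v = u.1 * v.1 - LinearMap.trace K V (u.2.1 * v.2.1) / r := rfl

private lemma neg_LP30 {y : Module.End K V} (hy : y ∈ LP L (-s)) : s * y = - y ∧ y * s = y := by
  obtain ⟨h1, h2, h3⟩ := hy
  constructor
  · rw [neg_mul] at h2
    rw [← neg_neg (s * y), h2]
  · rw [mul_neg, neg_inj] at h3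
    exact h3

theorem chi_neg [CharZero K] (D : RD L s r) (D' : RD L (-s) r)
    (hnd : ∀ x ∈ L, (∀ y ∈ L, LinearMap.trace K V (x * y) = 0) → x = 0) (q : ℕ)
    (x : Module.End K V) : chi L (-s) r q x = (-1) ^ q * chi L s r q x := by
  by_cases hx : x ∈ L
  swap
  · unfold chi
    rw [dif_neg (fun h => hx h.2), dif_neg (fun h => hx h.2), mul_zero]
  rw [chi_eq D' hx, chi_eq D hx]
  have hr := D.r0
  have tr1 : ∀ y ∈ LP L s, ∀ z, LinearMap.trace K V (y * pl (-s) z) = LinearMap.trace K V (y * z) :=
    fun y hy z => tr_pl30 hy.2.1 hy.2.2 z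
  have tr2 : ∀ y ∈ LP L (-s), ∀ z, LinearMap.trace K V (y * pl s z) = LinearMap.trace K V (y * z) := by
    intro y hy z
    have := tr_pl30 (s := -s) hy.2.1 hy.2.2 z
    rwa [neg_neg] at this
  have hinj : Function.Injective (bb30 L s r) := by
    rw [← LinearMap.ker_eq_bot, LinearMap.ker_eq_bot']
    rintro ⟨t, y, hy⟩ h
    have h1 := congrArg (fun f => f ((1 : K), (0 : LP L (-s)))) h
    simp only [bb_apply30, LinearMap.zero_apply, ZeroMemClass.coe_zero, mul_zero, map_zero, zero_div,
      sub_zero, mul_one] at h1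
    have h2 : y = 0 := by
      refine hnd y hy.1 fun z hz => ?_
      have h3 := congrArg (fun f => f ((0 : K), (⟨pl (-s) z, D'.pl_mem hz⟩ : LP L (-s)))) h
      simp only [bb_apply30, LinearMap.zero_apply, mul_zero, zero_sub, neg_eq_zero, div_eq_zero_iff,
        hr, or_false] at h3
      rw [tr1 y hy z] at h3
      exact h3
    subst h2
    rw [h1]
    rfl
  have hinj' : Function.Injective (bb30 L s r).flip := by
    rw [← LinearMap.ker_eq_bot, LinearMap.ker_eq_bot']
    rintro ⟨t, y, hy⟩ h
    have h1 := congrArg (fun f => f ((1 : K), (0 : LP L s))) h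
    simp only [LinearMap.flip_apply, bb_apply30, LinearMap.zero_apply, ZeroMemClass.coe_zero,
      zero_mul, map_zero, zero_div, sub_zero, one_mul] at h1
    have h2 : y = 0 := by
      refine hnd y hy.1 fun z hz => ?_
      have h3 := congrArg (fun f => f ((0 : K), (⟨pl s z, D.pl_mem hz⟩ : LP L s))) h
      simp only [LinearMap.flip_apply, bb_apply30, LinearMap.zero_apply, zero_mul, zero_sub,
        neg_eq_zero, div_eq_zero_iff, hr, or_false] at h3
      rw [LinearMap.trace_mul_comm, tr2 y hy z] at h3
      exact h3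
    subst h2
    rw [h1]
    rfl
  have hpp : (bb30 L s r).IsPerfPair := LinearMap.IsPerfPair.of_injective hinj hinj'
  have hskew : ∀ u v, bb30 L s r (D.rho ⟨x, hx⟩ u) v = - bb30 L s r u (D'.rho ⟨x, hx⟩ v) := by
    rintro ⟨t, y, hy⟩ ⟨t', y', hy'⟩
    have ha : al L (-s) r ⟨x, hx⟩ = - al L s r ⟨x, hx⟩ := by
      show (-(2 * r)⁻¹) * LinearMap.trace K V (x * -s) = -((-(2 * r)⁻¹) * LinearMap.trace K V (x * s))
      rw [mul_neg, map_neg]
      ring
    show (al L s r ⟨x, hx⟩ * t + LinearMap.trace K V (x * y) / r) * t' -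
        LinearMap.trace K V ((t • pl s x + pl s (x * y - y * x) + al L s r ⟨x, hx⟩ • y) * y') / r =
      - (t * (al L (-s) r ⟨x, hx⟩ * t' + LinearMap.trace K V (x * y') / r) -
        LinearMap.trace K V (y * (t' • pl (-s) x + pl (-s) (x * y' - y' * x) +
          al L (-s) r ⟨x, hx⟩ • y')) / r)
    have e1 : LinearMap.trace K V (pl s x * y') = LinearMap.trace K V (x * y') := by
      rw [LinearMap.trace_mul_comm, tr2 y' hy', LinearMap.trace_mul_comm]
    have e2 : LinearMap.trace K V (pl s (x * y - y * x) * y') =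
        LinearMap.trace K V ((x * y - y * x) * y') := by
      rw [LinearMap.trace_mul_comm, tr2 y' hy', LinearMap.trace_mul_comm]
    have e3 : LinearMap.trace K V (y * pl (-s) x) = LinearMap.trace K V (x * y) := by
      rw [tr1 y hy, LinearMap.trace_mul_comm]
    have e4 := tr1 y hy (x * y' - y' * x)
    have e5 : LinearMap.trace K V ((x * y - y * x) * y') =
        - LinearMap.trace K V (y * (x * y' - y' * x)) := by
      have e6 : LinearMap.trace K V (x * y * y') = LinearMap.trace K V (y * y' * x) := by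
        rw [mul_assoc, LinearMap.trace_mul_comm]
      rw [sub_mul, mul_sub, map_sub, map_sub, e6, mul_assoc y x y', ← mul_assoc y y' x]
      ring
    have e7 : LinearMap.trace K V ((t • pl s x + pl s (x * y - y * x) + al L s r ⟨x, hx⟩ • y) * y') =
        t * LinearMap.trace K V (x * y') - LinearMap.trace K V (y * (x * y' - y' * x)) +
          al L s r ⟨x, hx⟩ * LinearMap.trace K V (y * y') := by
      simp only [add_mul, map_add, smul_mul_assoc, map_smul, e1, e2, e5, smul_eq_mul]
      ring
    have e8 : LinearMap.trace K V (y * (t' • pl (-s) x + pl (-s) (x * y' - y' * x) +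
          al L (-s) r ⟨x, hx⟩ • y')) =
        t' * LinearMap.trace K V (x * y) + LinearMap.trace K V (y * (x * y' - y' * x)) -
          al L s r ⟨x, hx⟩ * LinearMap.trace K V (y * y') := by
      simp only [mul_add, map_add, mul_smul_comm, map_smul, e3, e4, ha, smul_eq_mul]
      ring
    rw [e7, e8, ha]
    ring
  let Φ := (bb30 L s r).flip.toPerfPair
  have hΦ : ∀ v u, Φ v u = bb30 L s r u v := fun v u => rfl
  have hconj : Φ.conj (D'.rho ⟨x, hx⟩ ^ q) =
      Module.Dual.transpose (R := K) ((-1 : K) ^ q • D.rho ⟨x, hx⟩ ^ q) := by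
    have h1 : ∀ (q : ℕ) u v, bb30 L s r u ((D'.rho ⟨x, hx⟩ ^ q) v) =
        (-1) ^ q * bb30 L s r ((D.rho ⟨x, hx⟩ ^ q) u) v := by
      intro q
      induction q with
      | zero => intro u v; simp
      | succ q ih =>
        intro u v
        rw [pow_succ', Module.End.mul_apply]
        have h2 := hskew u ((D'.rho ⟨x, hx⟩ ^ q) v)
        rw [eq_neg_iff_add_eq_zero, add_comm, ← eq_neg_iff_add_eq_zero] at h2
        rw [h2, ih, pow_succ (D.rho ⟨x, hx⟩) q, Module.End.mul_apply]
        ring
    apply LinearMap.ext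
    intro f
    apply LinearMap.ext
    intro u
    obtain ⟨v, rfl⟩ := Φ.surjective f
    rw [LinearEquiv.conj_apply_apply, LinearEquiv.symm_apply_apply, hΦ, h1 q u v]
    show _ = Φ v (((-1 : K) ^ q • D.rho ⟨x, hx⟩ ^ q) u)
    rw [hΦ, LinearMap.smul_apply, map_smul, LinearMap.smul_apply, smul_eq_mul]
  rw [← LinearMap.trace_conj' (D'.rho ⟨x, hx⟩ ^ q) Φ, hconj, LinearMap.trace_transpose', map_smul,
    smul_eq_mul]

end PR
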