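import Pool.Agent.Helper93.SR.Dec

/-!
Irreducible groups of symplectic similitudes generated by cocharacters of weights zero and one,
with symmetries: abstract form.
-/

set_option linter.unusedVariables false

open Module MTP

namespace PR

variable {K : Type*} [Field K] {V : Type*} [AddCommGroup V] [Module K V] [FiniteDimensional K V]

/-- The idempotents of the cocharacters of weights `0` and `1`. -/
def CC (G : Set (Module.End K V)) : Set (Module.End K V) :=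
  {p | p * p = p ∧ ∀ t : K, t ≠ 0 → 1 + (t - 1) • p ∈ G}

/-- The involutions. -/
def WI (ω : LinearMap.BilinForm K V) (G : Set (Module.End K V)) : Set (Module.End K V) :=
  {s | ∃ p ∈ CC G, IsSk ω ((2 : K) • p - 1) ∧ s = (2 : K) • p - 1}

/-- The Lie algebra. -/
def WL (ω : LinearMap.BilinForm K V) (G : Set (Module.End K V)) :
    Submodule K (Module.End K V) := lieGen K (WI ω G)

/-- The hypotheses of the group theorem, in abstract form. -/
structure WStr (ω : LinearMap.BilinForm K V) (G : Set (Module.End K V))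
    (T : Set (Module.End K V ≃+* Module.End K V)) : Prop where
  nt : Nontrivial V
  nd : ω.Nondegenerate
  alt : ω.IsAlt
  one : 1 ∈ G
  mul : ∀ g ∈ G, ∀ h ∈ G, g * h ∈ G
  inv : ∀ g ∈ G, ∃ h ∈ G, g * h = 1 ∧ h * g = 1
  sim : ∀ g ∈ G, ∃ c : K, ∀ v w, ω (g v) (g w) = c * ω v w
  irr : ∀ W : Submodule K V, (∀ g ∈ G, ∀ w ∈ W, g w ∈ W) → W = ⊥ ∨ W = ⊤
  semi : ∀ τ ∈ T, ∃ σ : K ≃+* K, ∀ (c : K) (x : Module.End K V), τ (c • x) = σ c • τ x
  rk : ∀ τ ∈ T, ∀ x, rk (τ x) = rk x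
  tone : RingEquiv.refl _ ∈ T
  tmul : ∀ τ ∈ T, ∀ τ' ∈ T, τ'.trans τ ∈ T
  tinv : ∀ τ ∈ T, τ.symm ∈ T
  tgrp : ∀ τ ∈ T, ∀ g ∈ G, τ g ∈ G
  genA : ∀ M : Subalgebra K (Module.End K V), (∀ p ∈ CC G, p ∈ M) → ∀ g ∈ G, g ∈ M
  genB : ∀ M : Submodule K (Module.End K V),
    (∀ p ∈ CC G, ∀ t : K, t ≠ 0 → ∀ x ∈ M, (1 + (t - 1) • p) * x * (1 + (t⁻¹ - 1) • p) ∈ M) →
    ∀ g ∈ G, ∀ h ∈ G, g * h = 1 → h * g = 1 → ∀ x ∈ M, g * x * h ∈ M
  genC : ∀ (M : Submodule K (Module.End K V)) (N q : ℕ)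
    (R : Module.End K V →ₗ[K] Matrix (Fin N) (Fin N) K),
    (∀ p ∈ CC G, ∀ t : K, t ≠ 0 → ∀ x ∈ M, (1 + (t - 1) • p) * x * (1 + (t⁻¹ - 1) • p) ∈ M) →
    (∀ p ∈ CC G, ∀ t : K, t ≠ 0 → ∀ x ∈ M,
      (R ((1 + (t - 1) • p) * x * (1 + (t⁻¹ - 1) • p)) ^ q).trace = (R x ^ q).trace) →
    ∀ g ∈ G, ∀ h ∈ G, g * h = 1 → h * g = 1 → ∀ x ∈ M,
      (R (g * x * h) ^ q).trace = (R x ^ q).trace
  uni : ∀ x ∈ WL ω G, ∀ y ∈ WL ω G, (x * y - y * x) * (x * y - y * x) = 0 →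
    ∀ c : K, 1 + c • (x * y - y * x) ∈ G

/-- The operator `∑ c i • p i`. -/
noncomputable def nu {n : ℕ} (c : Fin n → ℕ) (p : Fin n → Module.End K V) : Module.End K V :=
  ∑ i, (c i) • p i

/-- Commuting conjugates `p i` of the cocharacter `p0` with positive coefficients `c i` such that
the class of `∑ c i • p i` is stable under the symmetries. -/
structure Newt (G : Set (Module.End K V)) (T : Set (Module.End K V ≃+* Module.End K V))
    (p0 : Module.End K V) {n : ℕ} (c : Fin n → ℕ) (p : Fin n → Module.End K V) : Prop where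
  base : p0 ∈ CC G
  pos : ∀ i, 0 < c i
  conj : ∀ i, p i ∈ SC G T p0
  comm : ∀ i j, p i * p j = p j * p i
  rat : ∀ τ ∈ T, ∃ g ∈ G, ∃ h ∈ G, g * h = 1 ∧ h * g = 1 ∧ g * τ (nu c p) * h = nu c p

end PR
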