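import Pool.Agent.Helper27.PR.StrA
import Pool.Agent.Helper27.PR.PrIso

/-!
Block B. If some eigenvalue of `nu c p` has odd multiplicity then the Lie algebra has no proper
nonzero ideal stable under the symmetries.

Proof. Write `L = WL ω G`, `ν = nu c p`. If `2 p0 - 1` is not skew then `p0 = 0` or `1` (`c2`), all
`p i` are equal to `p0` (conjugates of `0` and `1`), `ν` is a scalar, all its eigenspaces are `0`
or `V`, and the dimension of `V` is even (`ω` is alternating and nondegenerate): contradiction.
So `2 p0 - 1` is skew and the `2 p i - 1` lie in `L` (`sk_of_sc`). Let `M` be the ideal of `L`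
generated by the `2 p - 1`, `p ∈ SC G T p0`: for instance the intersection of all ideals of `L`
which contain them (it is stable under `T` and `G`: `τ` permutes these ideals, because
`τ (SC) = SC`, `Tw`), or `lieGen K` of this set, which is an ideal: it is stable under `G`
(`sc_conj`), hence under the tori `1 + (t - 1) p` for `p ∈ CC G`, hence under the commutators with
the elements of `WI ω G` (as in `Str.id_conj`: `p x - x p` is a combination of `x` and of two
conjugates; simpler: use `t = 2` and `t = 1/2`), hence under those with `L` (the set of `x ∈ L`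
with `[x, M] ≤ M` is a Lie subalgebra which contains the generators).
Put `M' = orth L M`. Claim: `M' = ⊥`. Every `p i` commutes with `M'` (`2 p i - 1 ∈ M` and
`IrrSymp.orth_comm`), so the eigenspace `W` of `ν` is stable under `alg M'`. If all `s ∈ WI ω G`
are in `M` then `L ≤ M` (`Ctx.gen`, `M` is closed under brackets) and `M' = ⊥` (`inf_orth`).
Otherwise some `s ∈ WI ω G` is in `M'` (`IrrSymp.inv_dich`); the algebra `A = alg M'` and
`alg M` form a pair `Pr` (`IrrSymp.pr` with `orth_comm`, `sup_orth`), and `A` has an extremal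
element (`exists_mark`, `M' ≠ ⊥` since `s ≠ 0`), so by `Pr.iso`, applied to `W` and to `V`:
every `A`-stable subspace `U` has dimension `n * e`, with `e` fixed. The multiplicity of `s` :
the subspaces `W ∩ ker (s - 1)` and `W ∩ ker (s + 1)` must have the same dimension. To see this
without the isotypic decomposition: trace of `s` on `W`. For `x ∈ A` the trace on a stable `U` is
`n * (trace on the simple module)`: prove the version of `Pr.iso` with a common function: there is
`κ : End → ℕ` with `finrank (U.map x) = n * κ x` for all stable `U` (same proof: `iso_core` gives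
`κ x = finrank (range (act K S x))` independent of `W`). Then `κ (1 + s)` and `κ (1 - s)` are equal,
because on `V` the ranks of `1 + s` and `1 - s` are equal (`s` is skew, `s * s = 1`: the
eigenspaces are maximal isotropic; or trace zero, `trace_eq_zero_of_sk`), and
`e = κ (1 + s) + κ (1 - s)` as `V = ker (s - 1) ⊕ ker (s + 1)`. So `e` is even, and
`dim W = n * e` is even: contradiction.
So `M' = ⊥`, `M = L` (`sup_orth`). Finally let `I` be an ideal of `L` stable under `T`. By
`inv_dich`, `2 p0 - 1 ∈ I` or `2 p0 - 1 ∈ orth L I`. In the first case all `2 p - 1` are in `I`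
(`id_top`) so `L = M ≤ I`. In the second case the same for `orth L I` (it is an ideal,
`orth_isId`, and stable under `T`: `τ x ∈ orth L I` iff `τ x` commutes with `I` iff `x` commutes
with `τ⁻¹ I = I`, `mem_orth_iff`), so `orth L I = L` and `I = ⊥` (`inf_orth`).
-/

set_option linter.unusedSectionVars false
set_option linter.unusedVariables false

open Module MTP

namespace PR

variable {K : Type*} [Field K] {V : Type*} [AddCommGroup V] [Module K V] [FiniteDimensional K V]
variable {ω : LinearMap.BilinForm K V} {G : Set (Module.End K V)}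
  {T : Set (Module.End K V ≃+* Module.End K V)} {p0 : Module.End K V}

omit [FiniteDimensional K V] in
/-- A nondegenerate alternating form lives on an even dimensional space. -/
private lemma even_finrank85 [CharZero K] [FiniteDimensional K V] (hω : ω.Nondegenerate)
    (halt : ω.IsAlt) : Even (finrank K V) := by
  classical
  let b := Module.finBasis K V
  have h1 : (LinearMap.BilinForm.toMatrix b ω).transpose =
      -(LinearMap.BilinForm.toMatrix b ω) := by
    ext i j
    rw [Matrix.transpose_apply, Matrix.neg_apply, LinearMap.BilinForm.toMatrix_apply,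
      LinearMap.BilinForm.toMatrix_apply]
    exact (LinearMap.IsAlt.neg halt (b i) (b j)).symm
  have h2 : (LinearMap.BilinForm.toMatrix b ω).det ≠ 0 :=
    (LinearMap.BilinForm.nondegenerate_iff_det_ne_zero b).mp hω
  by_contra hodd
  rw [Nat.not_even_iff_odd] at hodd
  have h3 := congrArg Matrix.det h1
  rw [Matrix.det_transpose, Matrix.det_neg, Fintype.card_fin, hodd.neg_one_pow] at h3
  apply h2
  have h4 : (2 : K) * (LinearMap.BilinForm.toMatrix b ω).det = 0 := by linear_combination h3
  exact (mul_eq_zero.mp h4).resolve_left two_ne_zero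

omit [FiniteDimensional K V] in
private lemma even_eig85 [FiniteDimensional K V] (a : K) (he : Even (finrank K V)) (μ : K) :
    Even (finrank K (Module.End.eigenspace (a • (1 : Module.End K V)) μ)) := by
  by_cases h : a = μ
  · have e : Module.End.eigenspace (a • (1 : Module.End K V)) μ = ⊤ := by
      rw [eq_top_iff]
      intro v _
      rw [Module.End.mem_eigenspace_iff, LinearMap.smul_apply, Module.End.one_apply, h]
    rw [e, finrank_top]
    exact he
  · have e : Module.End.eigenspace (a • (1 : Module.End K V)) μ = ⊥ := by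
      rw [eq_bot_iff]
      intro v hv
      rw [Module.End.mem_eigenspace_iff, LinearMap.smul_apply, Module.End.one_apply, ← sub_eq_zero,
        ← sub_smul] at hv
      rw [Submodule.mem_bot]
      exact (smul_eq_zero.mp hv).resolve_left (sub_ne_zero.mpr h)
    rw [e, finrank_bot]
    exact Even.zero

private lemma rank_idem85 [CharZero K] {e : Module.End K V} (he : e * e = e) :
    LinearMap.trace K V e = (finrank K (LinearMap.range e) : K) := by
  have hproj : LinearMap.IsProj (LinearMap.range e) e := by
    constructor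
    · intro z; exact ⟨z, rfl⟩
    · rintro _ ⟨z, rfl⟩
      exact congrArg (fun t : Module.End K V => t z) he
  exact hproj.trace

/-- The ranks of `1 + s` and `1 - s` for a skew involution `s`. -/
private lemma rank_inv85 [CharZero K] (hω : ω.Nondegenerate) {s : Module.End K V} (hs : IsSk ω s)
    (hss : s * s = 1) :
    finrank K ((⊤ : Submodule K V).map (1 + s)) = finrank K ((⊤ : Submodule K V).map (1 - s)) ∧
      finrank K V = finrank K ((⊤ : Submodule K V).map (1 + s)) +
        finrank K ((⊤ : Submodule K V).map (1 - s)) := by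
  have h2 : (2 : K) ≠ 0 := two_ne_zero
  have htr := trace_eq_zero_of_sk hω hs
  have key : ∀ t : Module.End K V, t * t = 1 → LinearMap.trace K V t = 0 →
      (finrank K ((⊤ : Submodule K V).map (1 + t)) : K) = (2 : K)⁻¹ * finrank K V := by
    intro t htt ht0
    have hid : ((2 : K)⁻¹ • (1 + t)) * ((2 : K)⁻¹ • (1 + t)) = (2 : K)⁻¹ • (1 + t) := by
      have e1 : (1 + t) * (1 + t) = (2 : K) • (1 + t) := by
        rw [mul_add, add_mul, add_mul, one_mul, mul_one, one_mul, htt]
        module
      rw [smul_mul_smul_comm, e1, smul_smul]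
      congr 1
      field_simp
    have h3 := rank_idem85 hid
    have h4 : LinearMap.range ((2 : K)⁻¹ • (1 + t)) = (⊤ : Submodule K V).map (1 + t) := by
      rw [Submodule.map_top]
      exact LinearMap.range_smul _ _ (inv_ne_zero h2)
    rw [h4, map_smul, map_add, ht0, add_zero, LinearMap.trace_one, smul_eq_mul] at h3
    exact h3.symm
  have a1 := key s hss htr
  have a2 := key (-s) (by rw [neg_mul_neg, hss]) (by rw [map_neg, htr, neg_zero])
  rw [← sub_eq_add_neg] at a2
  constructor
  · have : (finrank K ((⊤ : Submodule K V).map (1 + s)) : K) =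
        (finrank K ((⊤ : Submodule K V).map (1 - s)) : K) := by rw [a1, a2]
    exact_mod_cast this
  · have : (finrank K V : K) = ((finrank K ((⊤ : Submodule K V).map (1 + s)) +
        finrank K ((⊤ : Submodule K V).map (1 - s)) : ℕ) : K) := by
      push_cast
      rw [a1, a2]
      field_simp
      ring
    exact_mod_cast this

private lemma sinf_isId85 {L : Submodule K (Module.End K V)} (hL : IsId L L)
    (X : Set (Module.End K V)) (hX : X ⊆ L) :
    IsId L (sInf {I : Submodule K (Module.End K V) | IsId L I ∧ X ⊆ I}) := by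
  refine ⟨sInf_le ⟨hL, hX⟩, ?_⟩
  intro x hx y hy
  rw [Submodule.mem_sInf] at hy ⊢
  intro I hI
  exact hI.1.2 x hx y (hy I hI)

/-- The complement of the ideal generated by the `2 p - 1` is zero. -/
private lemma orth_bot85 [IsAlgClosed K] [CharZero K] {L : Submodule K (Module.End K V)}
    {S : Set (Module.End K V)} (C : Ctx ω L S) (halt : ω.IsAlt)
    {M : Submodule K (Module.End K V)} (hM : IsId L M) [Nontrivial V] {n : ℕ} {c : Fin n → ℕ}
    {p : Fin n → Module.End K V} (hp : ∀ i, (2 : K) • p i - 1 ∈ M) {μ : K}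
    (hodd : Odd (finrank K (Module.End.eigenspace (nu c p) μ))) : orth L M = ⊥ := by
  by_contra hne
  have hI : IsId L (orth L M) := orth_isId C.irr.br hM
  have hcomm : ∀ x ∈ orth L M, ∀ y ∈ M, x * y = y * x := fun x hx y hy =>
    (C.irr.orth_comm C.nd hM hy hx).symm
  have P := C.irr.pr hcomm (by
    intro z hz
    obtain ⟨a, ha, hb⟩ := C.irr.sup_orth C.nd hM hz
    exact ⟨z - a, hb, by rw [sub_sub_cancel]; exact ha⟩)
  have hs : ∃ s ∈ S, s ∈ orth L M := by
    by_contra hcon
    push Not at hcon
    have hle : L ≤ M := by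
      apply C.gen M
      · intro x hx y hy
        exact hM.2 x (hM.1 hx) y hy
      · intro s hs
        obtain ⟨h1, h2⟩ := C.inv s hs
        exact (C.irr.inv_dich C.nd hM h1 h2).resolve_right (hcon s hs)
    apply hne
    rw [eq_bot_iff]
    intro x hx
    rw [Submodule.mem_bot]
    exact C.irr.inf_orth C.nd hM (hle hx.1) hx
  obtain ⟨s, hsS, hsI⟩ := hs
  obtain ⟨hsL, hss⟩ := C.inv s hsS
  obtain ⟨ε, a, -, ha⟩ := exists_mark C.nd halt (fun x (hx : x ∈ orth L M) => C.irr.sk x hx.1) P hne
  obtain ⟨d, κ, hd, -, hκ⟩ := pr_iso P ha.mem ha.ne ha.ext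
  have hsA : s ∈ alg (orth L M) := le_alg hsI
  have h1 : 1 + s ∈ alg (orth L M) := add_mem (one_mem _) hsA
  have h2 : 1 - s ∈ alg (orth L M) := sub_mem (one_mem _) hsA
  obtain ⟨n0, hn0, hk0⟩ := hκ ⊤ (fun x hx w hw => trivial)
  obtain ⟨r1, r2⟩ := rank_inv85 C.nd (C.irr.sk s hsL) hss
  rw [hk0 _ h1, hk0 _ h2] at r1
  rw [hk0 _ h1, hk0 _ h2] at r2
  rw [finrank_top] at hn0
  have hpos : 0 < finrank K V := Module.finrank_pos
  have hn0p : 0 < n0 := by
    rcases Nat.eq_zero_or_pos n0 with h | h
    · rw [hn0, h, zero_mul] at hpos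
      exact absurd hpos (lt_irrefl _)
    · exact h
  have hkk : κ (1 + s) = κ (1 - s) := Nat.eq_of_mul_eq_mul_left hn0p r1
  have hdd : d = κ (1 + s) + κ (1 + s) := by
    apply Nat.eq_of_mul_eq_mul_left hn0p
    rw [← hn0, r2, ← hkk, mul_add]
  have hst : ∀ x ∈ alg (orth L M), ∀ w ∈ Module.End.eigenspace (nu c p) μ,
      x w ∈ Module.End.eigenspace (nu c p) μ := by
    intro x hx
    have hx' : ∀ i, p i * x = x * p i := by
      intro i
      have h3 : x * ((2 : K) • p i - 1) = ((2 : K) • p i - 1) * x := P.comm x hx _ (le_alg (hp i))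
      rw [mul_sub, sub_mul, mul_one, one_mul, mul_smul_comm, smul_mul_assoc, sub_left_inj] at h3
      exact (smul_right_injective _ (two_ne_zero (α := K)) h3).symm
    have hnu : nu c p * x = x * nu c p := by
      unfold nu
      rw [Finset.sum_mul, Finset.mul_sum]
      refine Finset.sum_congr rfl fun i _ => ?_
      rw [smul_mul_assoc, mul_smul_comm, hx' i]
    intro w hw
    rw [Module.End.mem_eigenspace_iff] at hw ⊢
    have h4 := congrArg (fun t : Module.End K V => t w) hnu
    simp only [Module.End.mul_apply] at h4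
    rw [h4, hw, map_smul]
  obtain ⟨m, hm, -⟩ := hκ _ hst
  rw [hm, hdd] at hodd
  have : Even (m * (κ (1 + s) + κ (1 + s))) := (Even.add_self _).mul_left m
  exact (Nat.not_even_iff_odd.mpr hodd) this

theorem WStr.tsmp [IsAlgClosed K] [CharZero K] (D : WStr ω G T) {n : ℕ} {c : Fin n → ℕ}
    {p : Fin n → Module.End K V} (N : Newt G T p0 c p) {μ : K}
    (hodd : Odd (finrank K (Module.End.eigenspace (nu c p) μ))) :
    IsSk ω ((2 : K) • p0 - 1) ∧ TSmp (WL ω G) T := by
  have C := D.ctx
  have hnt := D.nt
  have hev : Even (finrank K V) := even_finrank85 D.nd D.alt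
  have hsk : IsSk ω ((2 : K) • p0 - 1) := by
    rcases D.c2 N.base with h | h | h
    · exact h
    · exfalso
      have e1 : ∀ i, p i = 0 := by
        intro i
        obtain ⟨τ, hτ, g, hg, h', hh, hgh, hhg, e⟩ := N.conj i
        rw [e, h, map_zero, mul_zero, zero_mul]
      have e2 : nu c p = (0 : K) • (1 : Module.End K V) := by
        unfold nu
        rw [zero_smul]
        exact Finset.sum_eq_zero fun i _ => by rw [e1 i, smul_zero]
      rw [e2] at hodd
      exact (Nat.not_even_iff_odd.mpr hodd) (even_eig85 0 hev μ)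
    · exfalso
      have e1 : ∀ i, p i = 1 := by
        intro i
        obtain ⟨τ, hτ, g, hg, h', hh, hgh, hhg, e⟩ := N.conj i
        rw [e, h, map_one, mul_one, hgh]
      have e2 : nu c p = ((∑ i, c i : ℕ) : K) • (1 : Module.End K V) := by
        unfold nu
        rw [Nat.cast_smul_eq_nsmul, Finset.sum_smul]
        exact Finset.sum_congr rfl fun i _ => by rw [e1 i]
      rw [e2] at hodd
      exact (Nat.not_even_iff_odd.mpr hodd) (even_eig85 _ hev μ)
  refine ⟨hsk, ?_⟩
  have hLL : IsId (WL ω G) (WL ω G) := ⟨le_refl _, C.irr.br⟩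
  have hX : {x : Module.End K V | ∃ q ∈ SC G T p0, x = (2 : K) • q - 1} ⊆ WL ω G := by
    rintro _ ⟨q, hq, rfl⟩
    exact (D.sk_of_sc N.base hsk hq).2
  obtain ⟨M, hMdef⟩ : ∃ M, M = sInf {I : Submodule K (Module.End K V) | IsId (WL ω G) I ∧
    {x : Module.End K V | ∃ q ∈ SC G T p0, x = (2 : K) • q - 1} ⊆ I} := ⟨_, rfl⟩
  have hM : IsId (WL ω G) M := by
    rw [hMdef]
    exact sinf_isId85 hLL _ hX
  have hMmem : ∀ q ∈ SC G T p0, (2 : K) • q - 1 ∈ M := by
    intro q hq
    rw [hMdef, Submodule.mem_sInf]
    intro I hI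
    exact hI.2 ⟨q, hq, rfl⟩
  have hbot : orth (WL ω G) M = ⊥ := orth_bot85 C D.alt hM (fun i => hMmem _ (N.conj i)) hodd
  have hML : WL ω G ≤ M := by
    intro z hz
    obtain ⟨a, ha, hb⟩ := C.irr.sup_orth C.nd hM hz
    rw [hbot, Submodule.mem_bot, sub_eq_zero] at hb
    rw [hb]
    exact ha
  have htop : ∀ I : Submodule K (Module.End K V), IsId (WL ω G) I → (∀ τ ∈ T, ∀ x ∈ I, τ x ∈ I) →
      (2 : K) • p0 - 1 ∈ I → WL ω G ≤ I := by
    intro I hI hIT h0
    refine hML.trans ?_
    rw [hMdef]
    refine sInf_le ⟨hI, ?_⟩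
    rintro _ ⟨q, hq, rfl⟩
    exact D.id_top hI hIT h0 hq
  intro I hI hIT
  have hs : (2 : K) • p0 - 1 ∈ WI ω G := ⟨p0, N.base, hsk, rfl⟩
  obtain ⟨hsL, hss⟩ := C.inv _ hs
  rcases C.irr.inv_dich C.nd hI hsL hss with h | h
  · right
    exact le_antisymm hI.1 (htop I hI hIT h)
  · left
    have hN := orth_isId C.irr.br hI
    have hNT : ∀ τ ∈ T, ∀ x ∈ orth (WL ω G) I, τ x ∈ orth (WL ω G) I := by
      intro τ hτ x hx
      rw [C.irr.mem_orth_iff C.nd hI (D.lie_tw hτ hx.1)]
      intro y hy
      have h1 := hIT _ (D.tinv τ hτ) y hy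
      have h2 := (C.irr.mem_orth_iff C.nd hI hx.1).mp hx _ h1
      have h3 := congrArg τ h2
      rwa [map_mul, map_mul, RingEquiv.apply_symm_apply] at h3
    have h1 := htop _ hN hNT h
    rw [eq_bot_iff]
    intro x hx
    rw [Submodule.mem_bot]
    exact C.irr.inf_orth C.nd hI hx (h1 (hI.1 hx))

end PR
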