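import Pool.Agent.Helper27.PR.WD
import Pool.Agent.Helper27.PR.Rho
import Pool.Agent.Helper21.MT.Span

/-!
Block X1. Elementary facts on the data `WD`.

`flip`: exchange the subsets with their complements. `t_sum`: each subset has `m` of the `2 m`
elements. `tr_tt`: the trace in the basis `b` is `∑_I (1 - 2 [i ∈ I]) (1 - 2 [l ∈ I])`; it is `D` for
`i = l`; for `i ≠ l` use the symmetry (all pairs have the same value, by a permutation of
`Fin (2 m)`) and `∑_l t l = 0`, or count with binomial coefficients
(`C(2m-2, m) + C(2m-2, m-2) - 2 C(2m-2, m-1) = - C(2m, m) / (2m-1)`).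
`tr_te`: `[t l, e i j] = w • e i j` with `w ≠ 0` for `l = i`, and `t l` commutes with `t k`.
-/

set_option linter.unusedSectionVars false
set_option linter.unusedVariables false

open Module MTP

namespace PR

variable {K : Type*} [Field K] {V : Type*} [AddCommGroup V] [Module K V] [FiniteDimensional K V]
variable {L : Submodule K (Module.End K V)} {m : ℕ}

/-- The data with the complementary subsets. -/
noncomputable def WD.flip (D : WD L m) : WD L m where
  b := D.b.reindex
    { toFun := fun I => ⟨I.1ᶜ, by
        rw [Finset.card_compl, Fintype.card_fin, I.2]; omega⟩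
      invFun := fun I => ⟨I.1ᶜ, by
        rw [Finset.card_compl, Fintype.card_fin, I.2]; omega⟩
      left_inv := fun I => Subtype.ext (compl_compl _)
      right_inv := fun I => Subtype.ext (compl_compl _) }
  t := fun j => - D.t j
  e := fun i j => D.e j i
  odd := D.odd
  three := D.three
  t_mem := fun j => L.neg_mem (D.t_mem j)
  e_mem := fun i j h => D.e_mem j i h.symm
  e_ne := fun i j h => D.e_ne j i h.symm
  t_b := by
    intro j I
    rw [Basis.reindex_apply, LinearMap.neg_apply, D.t_b, ← neg_smul]
    congr 1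
    change -(if j ∈ I.1ᶜ then (-1 : K) else 1) = if j ∈ I.1 then (-1 : K) else 1
    by_cases h : j ∈ I.1
    · rw [if_neg (by rwa [Finset.mem_compl, not_not]), if_pos h]
    · rw [if_pos (by rwa [Finset.mem_compl]), if_neg h, neg_neg]
  t_e := by
    intro l i j h
    have h1 := D.t_e l j i h.symm
    have e1 : -D.t l * D.e j i - D.e j i * -D.t l = -(D.t l * D.e j i - D.e j i * D.t l) := by
      rw [neg_mul, mul_neg, sub_neg_eq_add, neg_sub, sub_eq_neg_add, add_comm]
    rw [e1, h1, ← neg_smul, neg_sub]
  span := by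
    refine D.span.trans (Submodule.span_le.mpr ?_)
    rintro x (⟨j, rfl⟩ | ⟨i, j, hij, rfl⟩)
    · have h1 : - D.t j ∈ Submodule.span K (Set.range (fun j => - D.t j) ∪
          {x | ∃ i j, i ≠ j ∧ x = D.e j i}) := Submodule.subset_span (Or.inl ⟨j, rfl⟩)
      have h2 := Submodule.neg_mem _ h1
      rwa [neg_neg] at h2
    · exact Submodule.subset_span (Or.inr ⟨j, i, hij.symm, rfl⟩)

theorem WD.finrank (D : WD L m) : Module.finrank K V = (2 * m).choose m := by
  rw [Module.finrank_eq_card_basis D.b, Fintype.card_finset_len, Fintype.card_fin]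

private lemma sign_sum63 (I : {I : Finset (Fin (2 * m)) // I.card = m}) :
    ∑ j : Fin (2 * m), (if j ∈ I.1 then (-1 : K) else 1) = 0 := by
  classical
  have h1 : ∀ j : Fin (2 * m), (if j ∈ I.1 then (-1 : K) else 1) =
      1 - (if j ∈ I.1 then (2 : K) else 0) := by
    intro j
    by_cases h : j ∈ I.1
    · rw [if_pos h, if_pos h]; norm_num
    · rw [if_neg h, if_neg h, sub_zero]
  simp only [h1]
  rw [Finset.sum_sub_distrib, Finset.sum_const, Finset.card_univ, Fintype.card_fin,
    ← Finset.sum_filter, Finset.sum_const, Finset.filter_mem_eq_inter, Finset.univ_inter, I.2,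
    nsmul_eq_mul, nsmul_eq_mul]
  push_cast
  ring

theorem WD.t_sum (D : WD L m) : ∑ j, D.t j = 0 := by
  refine D.b.ext fun I => ?_
  rw [LinearMap.sum_apply, LinearMap.zero_apply]
  simp only [D.t_b]
  rw [← Finset.sum_smul, sign_sum63, zero_smul]

theorem WD.t_comm (D : WD L m) (i j : Fin (2 * m)) : D.t i * D.t j = D.t j * D.t i := by
  refine D.b.ext fun I => ?_
  rw [Module.End.mul_apply, Module.End.mul_apply, D.t_b, D.t_b, map_smul, map_smul, D.t_b, D.t_b,
    smul_smul, smul_smul, mul_comm]

/-- the trace of a product of two of the involutions -/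
private lemma tr_sum63 (D : WD L m) (i l : Fin (2 * m)) :
    LinearMap.trace K V (D.t i * D.t l) = ∑ I : {I : Finset (Fin (2 * m)) // I.card = m},
      (if i ∈ I.1 then (-1 : K) else 1) * (if l ∈ I.1 then (-1 : K) else 1) := by
  classical
  rw [LinearMap.trace_eq_matrix_trace K D.b, Matrix.trace]
  refine Finset.sum_congr rfl fun I _ => ?_
  rw [Matrix.diag_apply, LinearMap.toMatrix_apply, Module.End.mul_apply, D.t_b, map_smul, D.t_b,
    smul_smul, map_smul, Finsupp.smul_apply, Basis.repr_self, Finsupp.single_eq_same, smul_eq_mul,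
    mul_one, mul_comm]

private lemma tr_swap63 (D : WD L m) {i l l' : Fin (2 * m)} (h : i ≠ l) (h' : i ≠ l') :
    LinearMap.trace K V (D.t i * D.t l) = LinearMap.trace K V (D.t i * D.t l') := by
  classical
  rw [tr_sum63, tr_sum63]
  let σ : Equiv.Perm (Fin (2 * m)) := Equiv.swap l l'
  let e : {I : Finset (Fin (2 * m)) // I.card = m} ≃ {I : Finset (Fin (2 * m)) // I.card = m} :=
    { toFun := fun I => ⟨I.1.map σ.toEmbedding, by rw [Finset.card_map, I.2]⟩
      invFun := fun I => ⟨I.1.map σ.symm.toEmbedding, by rw [Finset.card_map, I.2]⟩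
      left_inv := fun I => Subtype.ext (by
        ext a
        simp [Finset.mem_map_equiv])
      right_inv := fun I => Subtype.ext (by
        ext a
        simp [Finset.mem_map_equiv]) }
  refine Fintype.sum_equiv e _ _ fun I => ?_
  have h1 : i ∈ (e I).1 ↔ i ∈ I.1 := by
    change i ∈ I.1.map σ.toEmbedding ↔ _
    rw [Finset.mem_map_equiv]
    have : σ.symm i = i := Equiv.swap_apply_of_ne_of_ne h h'
    rw [this]
  have h2 : l' ∈ (e I).1 ↔ l ∈ I.1 := by
    change l' ∈ I.1.map σ.toEmbedding ↔ _
    rw [Finset.mem_map_equiv]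
    have : σ.symm l' = l := Equiv.swap_apply_right l l'
    rw [this]
  simp only [h1, h2]

private lemma tr_self63 (D : WD L m) (i : Fin (2 * m)) :
    LinearMap.trace K V (D.t i * D.t i) = ((2 * m).choose m : K) := by
  classical
  rw [tr_sum63]
  have h1 : ∀ I : {I : Finset (Fin (2 * m)) // I.card = m},
      (if i ∈ I.1 then (-1 : K) else 1) * (if i ∈ I.1 then (-1 : K) else 1) = 1 := by
    intro I
    by_cases h : i ∈ I.1
    · rw [if_pos h]; norm_num
    · rw [if_neg h]; norm_num
  simp only [h1]
  rw [Finset.sum_const, Finset.card_univ, Fintype.card_finset_len, Fintype.card_fin, nsmul_eq_mul,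
    mul_one]

theorem WD.tr_tt [CharZero K] (D : WD L m) (i l : Fin (2 * m)) :
    LinearMap.trace K V (D.t i * D.t l) =
      ((2 * m).choose m : K) * ((if i = l then (2 * m : K) else 0) - 1) / (2 * m - 1) := by
  classical
  have hm := D.three
  have h0 : (2 * m - 1 : K) ≠ 0 := by
    have h1 : ((2 * m - 1 : ℕ) : K) ≠ 0 := Nat.cast_ne_zero.mpr (by omega)
    rw [Nat.cast_sub (by omega)] at h1
    push_cast at h1
    exact h1
  by_cases h : i = l
  · subst h
    rw [tr_self63, if_pos rfl, mul_div_assoc, div_self h0, mul_one]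
  · rw [if_neg h]
    have h1 : ∑ l', LinearMap.trace K V (D.t i * D.t l') = 0 := by
      rw [← map_sum, ← Finset.mul_sum, D.t_sum, mul_zero, map_zero]
    rw [← Finset.add_sum_erase Finset.univ _ (Finset.mem_univ i), tr_self63,
      Finset.sum_congr rfl (fun l' hl' => tr_swap63 D (Finset.ne_of_mem_erase hl').symm h),
      Finset.sum_const, Finset.card_erase_of_mem (Finset.mem_univ i), Finset.card_univ,
      Fintype.card_fin, nsmul_eq_mul, Nat.cast_sub (by omega)] at h1
    push_cast at h1
    rw [eq_div_iff h0]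
    linear_combination h1

private lemma tr_weight63 [CharZero K] (D : WD L m) {x : Module.End K V} {a : Fin (2 * m)} {w : K}
    (hw : w ≠ 0) (h : D.t a * x - x * D.t a = w • x) : LinearMap.trace K V x = 0 := by
  have h1 : LinearMap.trace K V (D.t a * x - x * D.t a) = 0 := by
    rw [map_sub, LinearMap.trace_mul_comm, sub_self]
  rw [h, map_smul, smul_eq_mul] at h1
  exact (mul_eq_zero.mp h1).resolve_left hw

theorem WD.tr_te [CharZero K] (D : WD L m) {i j : Fin (2 * m)} (h : i ≠ j) (k : Fin (2 * m)) :
    LinearMap.trace K V (D.t k * D.e i j) = 0 := by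
  have h1 := D.t_e i i j h
  rw [if_neg h, if_pos rfl, zero_sub] at h1
  refine tr_weight63 D (a := i) (w := -2) (by norm_num) ?_
  have e1 : D.t i * (D.t k * D.e i j) - D.t k * D.e i j * D.t i =
      D.t k * (D.t i * D.e i j - D.e i j * D.t i) := by
    rw [← mul_assoc, D.t_comm i k, mul_assoc, mul_sub, mul_assoc]
  rw [e1, h1, mul_smul_comm]

theorem WD.tr_ee [CharZero K] (D : WD L m) {i j k l : Fin (2 * m)} (h : i ≠ j) (h' : k ≠ l)
    (hne : ¬ (k = j ∧ l = i)) : LinearMap.trace K V (D.e i j * D.e k l) = 0 := by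
  have key : ∀ a, D.t a * (D.e i j * D.e k l) - D.e i j * D.e k l * D.t a =
      (((if a = j then (2 : K) else 0) - (if a = i then (2 : K) else 0)) +
        ((if a = l then (2 : K) else 0) - (if a = k then (2 : K) else 0))) • (D.e i j * D.e k l) := by
    intro a
    have h1 := D.t_e a i j h
    have h2 := D.t_e a k l h'
    have e1 : D.t a * (D.e i j * D.e k l) - D.e i j * D.e k l * D.t a =
        (D.t a * D.e i j - D.e i j * D.t a) * D.e k l +
          D.e i j * (D.t a * D.e k l - D.e k l * D.t a) := by
      noncomm_ring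
    rw [e1, h1, h2, smul_mul_assoc, mul_smul_comm, ← add_smul]
  by_cases hk : k = j
  · have hl : l ≠ i := fun hl => hne ⟨hk, hl⟩
    refine tr_weight63 D (a := i) ?_ (key i)
    rw [if_neg h, if_pos rfl, if_neg hl.symm, if_neg (fun h3 => h (h3.trans hk))]
    norm_num
  · refine tr_weight63 D (a := j) ?_ (key j)
    have hjk : ¬ j = k := fun h3 => hk h3.symm
    rw [if_pos rfl, if_neg h.symm, if_neg hjk]
    by_cases hjl : j = l
    · rw [if_pos hjl]; norm_num
    · rw [if_neg hjl]; norm_num

end PR
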