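import Pool.Agent.Helper27.PR.WDr

/-!
Block Y. The characters `chi` of the data `WD` on the span of the `t l`.

Write `h = ∑ β l • t l`, `B = ∑ β l`, `y l = B / m - 2 β l`, `r = (2 m - 2).choose (m - 1)`,
`D = (2 m).choose m = r * 2 (2 m - 1) / m`. By `tr_tt`,
`- tr (h * t j) / (2 r) = - D (2 m β j - B) / (2 r (2 m - 1)) = (B - 2 m β j) / m = y j`, and
`[h, e l j] = (2 β j - 2 β l) • e l j = (y l - y j) • e l j`. So in the basis `(1, 0)`, `(0, e l j)`
(`l ≠ j`) of `K × LP L (t j)` (`lp_eq`; the `e l j` are linearly independent, their weights are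
different) the operator `rho h` is diagonal: `rho h (1, 0) = (y j, pl (t j) h) = (y j, 0)`
(`pl (t j) h = 0` because `h` commutes with `t j`), and
`rho h (0, e l j) = (tr (h * e l j) / r, [h, e l j] + y j • e l j) = (0, y l • e l j)`
(`tr (h * e l j) = 0`: the trace of `[t l, e l j]` times `h`...). The trace of its power is
`∑ y l ^ q`.
-/

set_option linter.unusedSectionVars false
set_option linter.unusedVariables false

open Module MTP

namespace PR

variable {K : Type*} [Field K] {V : Type*} [AddCommGroup V] [Module K V] [FiniteDimensional K V]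
variable {L : Submodule K (Module.End K V)} {m : ℕ}

private lemma trpow31 {W : Type*} [AddCommGroup W] [Module K W] {ι : Type*} [Fintype ι]
    [DecidableEq ι] (v : Basis ι K W) (f : Module.End K W) (y : ι → K)
    (hf : ∀ i, f (v i) = y i • v i) (q : ℕ) :
    LinearMap.trace K W (f ^ q) = ∑ i, y i ^ q := by
  have hq : ∀ i, (f ^ q) (v i) = y i ^ q • v i := by
    intro i
    induction q with
    | zero => simp
    | succ q ih =>
      rw [pow_succ', Module.End.mul_apply, ih, map_smul, hf, smul_smul, pow_succ]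
  rw [LinearMap.trace_eq_matrix_trace K v, Matrix.trace]
  refine Finset.sum_congr rfl fun i _ => ?_
  rw [Matrix.diag_apply, LinearMap.toMatrix_apply, hq, map_smul, Finsupp.smul_apply,
    Basis.repr_self, Finsupp.single_eq_same, smul_eq_mul, mul_one]

private lemma elp31 [CharZero K] (D : WD L m) {l j : Fin (2 * m)} (h : l ≠ j) :
    D.e l j ∈ LP L (D.t j) := by
  rw [D.lp_eq j]
  exact Submodule.subset_span ⟨l, h, rfl⟩

private lemma choose31 {m : ℕ} (hm : 3 ≤ m) :
    (m : ℕ) * (2 * m).choose m = 2 * (2 * m - 1) * (2 * m - 2).choose (m - 1) := by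
  obtain ⟨n, rfl⟩ : ∃ n, m = n + 1 := ⟨m - 1, by omega⟩
  have h := Nat.succ_mul_centralBinom_succ n
  rw [Nat.centralBinom_eq_two_mul_choose, Nat.centralBinom_eq_two_mul_choose] at h
  have e1 : 2 * (n + 1) - 1 = 2 * n + 1 := by omega
  have e2 : 2 * (n + 1) - 2 = 2 * n := by omega
  rw [e1, e2, Nat.add_sub_cancel]
  exact h

private lemma comm31 [CharZero K] (D : WD L m) (β : Fin (2 * m) → K) {l j : Fin (2 * m)}
    (h : l ≠ j) : (∑ k, β k • D.t k) * D.e l j - D.e l j * (∑ k, β k • D.t k) =
      (2 * β j - 2 * β l) • D.e l j := by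
  rw [Finset.sum_mul, Finset.mul_sum, ← Finset.sum_sub_distrib]
  have h1 : ∀ k ∈ (Finset.univ : Finset (Fin (2 * m))),
      β k • D.t k * D.e l j - D.e l j * β k • D.t k =
        ((if k = j then 2 * β k else 0) - (if k = l then 2 * β k else 0)) • D.e l j := by
    intro k _
    rw [smul_mul_assoc, mul_smul_comm, ← smul_sub, D.t_e k l j h, smul_smul]
    congr 1
    split_ifs <;> ring
  rw [Finset.sum_congr rfl h1, ← Finset.sum_smul, Finset.sum_sub_distrib,
    Finset.sum_ite_eq' Finset.univ j, Finset.sum_ite_eq' Finset.univ l, if_pos (Finset.mem_univ _),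
    if_pos (Finset.mem_univ _)]

theorem WD.chi_t [CharZero K] (D : WD L m) (hbr : ∀ x ∈ L, ∀ y ∈ L, x * y - y * x ∈ L)
    (hnd : ∀ x ∈ L, (∀ y ∈ L, LinearMap.trace K V (x * y) = 0) → x = 0) (j : Fin (2 * m))
    (β : Fin (2 * m) → K) (q : ℕ) :
    chi L (D.t j) (((2 * m - 2).choose (m - 1) : ℕ) : K) q (∑ l, β l • D.t l) =
      ∑ l, ((∑ i, β i) / m - 2 * β l) ^ q := by
  classical
  have R := D.rd hbr hnd j
  have hm3 := D.three
  have hh : (∑ l, β l • D.t l) ∈ L :=
    Submodule.sum_mem _ fun l _ => L.smul_mem _ (D.t_mem l)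
  have hcom : (∑ l, β l • D.t l) * D.t j = D.t j * (∑ l, β l • D.t l) := by
    rw [Finset.sum_mul, Finset.mul_sum]
    refine Finset.sum_congr rfl fun l _ => ?_
    rw [smul_mul_assoc, mul_smul_comm, D.t_comm]
  rw [chi_eq R hh]
  -- the basis
  set v : Fin (2 * m) → K × LP L (D.t j) := fun l =>
    if h : l = j then (1, 0) else (0, ⟨D.e l j, elp31 D h⟩) with hv
  have vj : v j = (1, 0) := by simp [hv]
  have vl : ∀ l (h : l ≠ j), v l = (0, ⟨D.e l j, elp31 D h⟩) := by
    intro l h
    simp [hv, h]
  have hli : LinearIndependent K v := by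
    rw [Fintype.linearIndependent_iff]
    intro c hc
    have h1 : c j = 0 := by
      have h2 := congrArg Prod.fst hc
      rw [Prod.fst_sum, Prod.fst_zero, Finset.sum_eq_single j] at h2
      · simpa [vj] using h2
      · intro l _ hl
        rw [vl l hl]
        simp
      · intro h
        exact absurd (Finset.mem_univ _) h
    have h3 : ∑ l, (if l = j then (0 : K) else c l) • D.e l j = 0 := by
      have h2 := congrArg (fun u : K × LP L (D.t j) => (u.2 : Module.End K V)) hc
      simp only [Prod.snd_sum, Prod.snd_zero, Submodule.coe_zero, AddSubmonoidClass.coe_finsetSum,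
        Prod.smul_snd, Submodule.coe_smul] at h2
      rw [← h2]
      refine Finset.sum_congr rfl fun l _ => ?_
      by_cases hl : l = j
      · subst hl
        rw [vj]
        simp
      · rw [vl l hl, if_neg hl]
    intro k
    by_cases hk : k = j
    · rw [hk, h1]
    have h4 : D.t k * (∑ l, (if l = j then (0 : K) else c l) • D.e l j) -
        (∑ l, (if l = j then (0 : K) else c l) • D.e l j) * D.t k = 0 := by
      rw [h3]; simp
    rw [Finset.mul_sum, Finset.sum_mul, ← Finset.sum_sub_distrib, Finset.sum_eq_single k] at h4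
    · rw [if_neg hk, mul_smul_comm, smul_mul_assoc, ← smul_sub, D.t_e k k j hk, if_neg hk,
        if_pos rfl, smul_smul] at h4
      rcases smul_eq_zero.1 h4 with h | h
      · have : (2 : K) ≠ 0 := two_ne_zero
        simpa using h
      · exact absurd h (D.e_ne k j hk)
    · intro l _ hl
      by_cases hlj : l = j
      · rw [if_pos hlj]; simp
      · rw [if_neg hlj, mul_smul_comm, smul_mul_assoc, ← smul_sub, D.t_e k l j hlj, if_neg hk,
          if_neg (Ne.symm hl)]
        simp
    · intro h
      exact absurd (Finset.mem_univ _) h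
  have hsp : ⊤ ≤ Submodule.span K (Set.range v) := by
    have h0 : ∀ y ∈ Submodule.span K {x | ∃ l, l ≠ j ∧ x = D.e l j}, ∀ hy : y ∈ LP L (D.t j),
        ((0 : K), (⟨y, hy⟩ : LP L (D.t j))) ∈ Submodule.span K (Set.range v) := by
      intro y hy'
      induction hy' using Submodule.span_induction with
      | mem x hx =>
        rintro hy
        obtain ⟨l, hl, rfl⟩ := hx
        have h5 := vl l hl
        rw [← h5]
        exact Submodule.subset_span ⟨l, rfl⟩
      | zero =>
        intro hy
        exact Submodule.zero_mem _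
      | add x y hx hy ihx ihy =>
        intro hxy
        rw [← D.lp_eq j] at hx hy
        have h6 : ((0 : K), (⟨x + y, hxy⟩ : LP L (D.t j))) = (0, ⟨x, hx⟩) + (0, ⟨y, hy⟩) := by
          rw [Prod.mk_add_mk, add_zero]
          rfl
        rw [h6]
        exact Submodule.add_mem _ (ihx hx) (ihy hy)
      | smul a x hx ih =>
        intro hax
        rw [← D.lp_eq j] at hx
        have h6 : ((0 : K), (⟨a • x, hax⟩ : LP L (D.t j))) = a • (0, ⟨x, hx⟩) := by
          rw [Prod.smul_mk, smul_zero]
          rfl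
        rw [h6]
        exact Submodule.smul_mem _ _ (ih hx)
    rintro ⟨a, y⟩ _
    have h7 : ((a, y) : K × LP L (D.t j)) = a • v j + (0, y) := by
      rw [vj, Prod.smul_mk, Prod.mk_add_mk]
      simp
    rw [h7]
    refine Submodule.add_mem _ (Submodule.smul_mem _ _ (Submodule.subset_span ⟨j, rfl⟩)) ?_
    have h8 : y.1 ∈ Submodule.span K {x | ∃ l, l ≠ j ∧ x = D.e l j} :=
      (le_of_eq (D.lp_eq j)) y.2
    exact h0 y.1 h8 y.2
  have hm0 : (m : K) ≠ 0 := by
    rw [Nat.cast_ne_zero]; omega
  have hm1 : (2 * (m : K) - 1) ≠ 0 := by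
    have h9 : ((2 * m - 1 : ℕ) : K) ≠ 0 := by
      rw [Nat.cast_ne_zero]; omega
    rw [Nat.cast_sub (by omega)] at h9
    push_cast at h9
    exact h9
  have hr0 := R.r0
  have hD : ((m : K)) * ((2 * m).choose m : K) =
      2 * (2 * (m : K) - 1) * (((2 * m - 2).choose (m - 1) : ℕ) : K) := by
    have h := congrArg (Nat.cast : ℕ → K) (choose31 hm3)
    rw [Nat.cast_mul, Nat.cast_mul, Nat.cast_mul, Nat.cast_sub (by omega)] at h
    push_cast at h
    exact h
  have hal : al L (D.t j) (((2 * m - 2).choose (m - 1) : ℕ) : K) ⟨∑ l, β l • D.t l, hh⟩ =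
      (∑ i, β i) / m - 2 * β j := by
    change - (2 * (((2 * m - 2).choose (m - 1) : ℕ) : K))⁻¹ *
      LinearMap.trace K V ((∑ l, β l • D.t l) * D.t j) = _
    have h1 : LinearMap.trace K V ((∑ l, β l • D.t l) * D.t j) =
        ((2 * m).choose m : K) * (2 * m * β j - ∑ i, β i) / (2 * m - 1) := by
      rw [Finset.sum_mul, map_sum]
      have h2 : ∀ l ∈ (Finset.univ : Finset (Fin (2 * m))),
          LinearMap.trace K V (β l • D.t l * D.t j) =
            ((2 * m).choose m : K) / (2 * m - 1) * ((if l = j then 2 * m * β l else 0) - β l) := by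
        intro l _
        rw [smul_mul_assoc, map_smul, D.tr_tt, smul_eq_mul]
        split_ifs <;> field_simp <;> ring
      rw [Finset.sum_congr rfl h2, ← Finset.mul_sum, Finset.sum_sub_distrib,
        Finset.sum_ite_eq' Finset.univ j, if_pos (Finset.mem_univ _)]
      ring
    rw [h1]
    have hD' : ((2 * m).choose m : K) =
      2 * (2 * (m : K) - 1) * (((2 * m - 2).choose (m - 1) : ℕ) : K) / m := by
      rw [← hD]; field_simp
    rw [hD']
    field_simp
    ring
  have hrho : ∀ l, R.rho ⟨∑ l, β l • D.t l, hh⟩ (v l) = ((∑ i, β i) / m - 2 * β l) • v l := by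
    intro l
    by_cases hl : l = j
    · subst hl
      rw [vj]
      refine Prod.ext ?_ (Subtype.ext ?_)
      · change al L (D.t l) _ _ * 1 + tf L (D.t l) _ _ 0 = _ * 1
        rw [hal, map_zero, add_zero]
      · change (1 : K) • pl (D.t l) (∑ l, β l • D.t l) +
          pl (D.t l) ((∑ l, β l • D.t l) * 0 - 0 * (∑ l, β l • D.t l)) + al L (D.t l) _ _ • 0 =
            _ • (0 : Module.End K V)
        rw [mul_zero, zero_mul, sub_zero, map_zero, add_zero, smul_zero, smul_zero, add_zero,
          one_smul, pl_apply, ← hcom, mul_assoc _ (D.t l) (D.t l), R.ss, mul_one]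
        module
    · obtain ⟨he1, he2, he3⟩ := elp31 D hl
      rw [vl l hl]
      refine Prod.ext ?_ (Subtype.ext ?_)
      · change al L (D.t j) _ _ * 0 + LinearMap.trace K V ((∑ l, β l • D.t l) * D.e l j) / _ = _ * 0
        rw [mul_zero, mul_zero, zero_add, Finset.sum_mul, map_sum, Finset.sum_eq_zero, zero_div]
        intro k _
        rw [smul_mul_assoc, map_smul, D.tr_te hl, smul_zero]
      · change (0 : K) • pl (D.t j) (∑ l, β l • D.t l) +
          pl (D.t j) ((∑ l, β l • D.t l) * D.e l j - D.e l j * (∑ l, β l • D.t l)) +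
            al L (D.t j) _ _ • D.e l j = _ • D.e l j
        rw [comm31 D β hl, map_smul, hal, zero_smul, zero_add, pl_apply (D.t j) (D.e l j), he2,
          he3]
        module
  exact trpow31 (Basis.mk hli hsp) _ _ (fun i => by rw [Basis.mk_apply]; exact hrho i) q

/-- The eigenvalues of an element of the span of the `t l`. -/
theorem WD.eig [CharZero K] (D : WD L m) (β : Fin (2 * m) → K)
    (I : {I : Finset (Fin (2 * m)) // I.card = m}) :
    (∑ l, β l • D.t l) (D.b I) = (∑ l, β l - 2 * ∑ l ∈ I.1, β l) • D.b I := by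
  rw [LinearMap.sum_apply]
  have h1 : ∀ l ∈ (Finset.univ : Finset (Fin (2 * m))), (β l • D.t l) (D.b I) =
      (β l - 2 * (if l ∈ I.1 then β l else 0)) • D.b I := by
    intro l _
    rw [LinearMap.smul_apply, D.t_b, smul_smul]
    congr 1
    split_ifs <;> ring
  rw [Finset.sum_congr rfl h1, ← Finset.sum_smul, Finset.sum_sub_distrib, ← Finset.mul_sum,
    Finset.sum_ite_mem, Finset.univ_inter]

end PR
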