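import Pool.Agent.Helper27.PR.WDa

/-!
Block X2. The data `WD` of type `A` satisfy `RD` for `t j` and `- t j`, with
`r = (2 m - 2).choose (m - 1)`.

(1) Weights. For `x ∈ L` write `x = ∑ β_l t l + ∑ γ_ij e i j` (`D.span`). The joint eigenvalues
`2 δ_lj - 2 δ_li` of `ad (t l)` on `e i j` are different for different pairs `(i, j)` and nonzero
(`m ≥ 3`), so an element `y ∈ L` with `[t l, y] = w l • y` for all `l` is a multiple of `e i j` if `w` is
the weight of `e i j`, is in the span of the `t l` if `w = 0`, and is `0` otherwise. In particular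
`LP L (t j)` is the span of the `e l j`, `l ≠ j`, and `LP L (- t j)` the span of the `e j l`
(`y ∈ LP L s` iff `y ∈ L` and `s y - y s = 2 y`, for `s * s = 1`).
(2) `∑_j t j = 0` (each subset has `m` of the `2 m` elements), and
`tr (t i * t l) = D (2 m δ_il - 1) / (2 m - 1)`, `D = (2 m).choose m` (count the subsets which contain
both or none of `i, l`). For `x ∈ L`, `tr (t l * e i j) = 0`; `tr (e i j * e k l) = 0` unless
`(k, l) = (j, i)`. The trace form on `L` is nondegenerate (`hnd`), so `tr (e i j * e j i) ≠ 0`.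
(3) `h_ij = [e i j, e j i]` has weight `0`, so it is in the span of the `t l`, and
`tr (h_ij * t l) = tr (e i j * [e j i, t l]) = (2 δ_lj - 2 δ_li) τ`, `τ = tr (e i j * e j i) ≠ 0`
(sign: check). By (2) `h_ij = c (t j - t i)` with `c ≠ 0` (the trace form is nondegenerate on the span
of the `t l`, or: both sides have the same traces with all elements of `L`). On `b I` with `i ∈ I`,
`j ∉ I`: `e i j (b I) = 0` (weights: `i ∈ I` already), so `e i j (e j i (b I)) = ± 2 c • b I ≠ 0`.
Hence `e j i (b I) ≠ 0` for all these `I`, and the rank of `e i j` is exactly the number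
`r = (2 m - 2).choose (m - 1)` of the `I` with `j ∈ I`, `i ∉ I` (`e i j (b I) ∈ K b (I - j + i)`, and it
is `0` for the other `I`). And `τ = tr (e i j * e j i) = ± 2 c r`.
(4) The identity `y z u + u z y = (tr (y z) u + tr (u z) y) / r` for `y, u ∈ LP L (t j)`, `z ∈ L`
(put `u = y` to get `ext`). It is trilinear; take `y = e q j`, `u = e l j` and `z` one of the
generators. As `y u = u y = 0`, `y z u + u z y = - [[z, y], u]`. By weights both sides vanish unless
`z = e j p` with `p = q` or `p = l` (if `p ≠ q, l` then `[[z, y], u]` has the weight of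
`ε_q + ε_l - ε_p - ε_j`, which is not a weight of `L`). `p = q = l`: `[h, e l j]` with `h` as in (3).
`p = q ≠ l`: `[[e j q, e q j], e l j] = c (..)`, weight of `e l j` under `t j - t q`. All follow from
`h_ij = c (t j - t i)` and `τ = ± 2 c r`.
The same for `- t j` (exchange the two indices of `e`; or deduce it from the symmetry of the data:
the complement of the subsets and `t j → - t j`, `e i j → e j i` give again data `WD`).
-/

set_option linter.unusedSectionVars false
set_option linter.unusedVariables false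

open Module MTP

namespace PR

variable {K : Type*} [Field K] {V : Type*} [AddCommGroup V] [Module K V] [FiniteDimensional K V]
variable {L : Submodule K (Module.End K V)} {m : ℕ}

omit [FiniteDimensional K V] in
private lemma sn67 [CharZero K] {x : Module.End K V} (h : x = - x) : x = 0 := by
  have h1 : (2 : K) • x = 0 := by
    rw [two_smul]
    nth_rewrite 1 [h]
    exact neg_add_cancel x
  exact (smul_eq_zero.mp h1).resolve_left two_ne_zero

omit [FiniteDimensional K V] in
private lemma tt67 (D : WD L m) (j : Fin (2 * m)) : D.t j * D.t j = 1 := by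
  refine D.b.ext fun I => ?_
  rw [Module.End.mul_apply, D.t_b, map_smul, D.t_b, smul_smul, Module.End.one_apply]
  by_cases h : j ∈ I.1
  · rw [if_pos h, neg_mul_neg, one_mul, one_smul]
  · rw [if_neg h, one_mul, one_smul]

omit [FiniteDimensional K V] in
private lemma inv67 [CharZero K] {s x : Module.End K V} (hs : s * s = 1)
    (h : s * x - x * s = (2 : K) • x) : s * x = x ∧ x * s = - x := by
  have e1 : s * x + x * s = 0 := by
    have e2 : (2 : K) • (s * x + x * s) = 0 := by
      have e3 : (2 : K) • (s * x + x * s) = s * ((2 : K) • x) + ((2 : K) • x) * s := by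
        rw [mul_smul_comm, smul_mul_assoc, smul_add]
      rw [e3, ← h, mul_sub, sub_mul, ← mul_assoc, hs, one_mul, mul_assoc x s s, hs, mul_one,
        ← mul_assoc]
      abel
    exact (smul_eq_zero.mp e2).resolve_left two_ne_zero
  have e4 : x * s = - (s * x) := eq_neg_of_add_eq_zero_right e1
  have e5 : s * x = x := by
    have e6 : (2 : K) • (s * x) = (2 : K) • x := by
      rw [← h, e4, sub_neg_eq_add, two_smul]
    exact smul_right_injective _ (two_ne_zero : (2 : K) ≠ 0) e6
  exact ⟨e5, by rw [e4, e5]⟩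

omit [FiniteDimensional K V] in
private lemma tj67 [CharZero K] (D : WD L m) {i j : Fin (2 * m)} (h : i ≠ j) :
    D.t j * D.e i j = D.e i j ∧ D.e i j * D.t j = - D.e i j := by
  refine inv67 (tt67 D j) ?_
  rw [D.t_e j i j h, if_pos rfl, if_neg h.symm, sub_zero]

omit [FiniteDimensional K V] in
private lemma ti67 [CharZero K] (D : WD L m) {i j : Fin (2 * m)} (h : i ≠ j) :
    D.t i * D.e i j = - D.e i j ∧ D.e i j * D.t i = D.e i j := by
  have h1 := inv67 (s := - D.t i) (x := D.e i j) (by rw [neg_mul_neg, tt67]) (by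
    have h2 := D.t_e i i j h
    rw [if_pos rfl, if_neg h, zero_sub, neg_smul] at h2
    rw [neg_mul, mul_neg, sub_neg_eq_add, neg_add_eq_sub, ← neg_sub, h2, neg_neg])
  rw [neg_mul, mul_neg] at h1
  exact ⟨by rw [← neg_eq_iff_eq_neg]; exact h1.1, neg_injective h1.2⟩

omit [FiniteDimensional K V] in
private lemma tl67 [CharZero K] (D : WD L m) {l i j : Fin (2 * m)} (h : i ≠ j) (h1 : l ≠ i)
    (h2 : l ≠ j) : D.t l * D.e i j = D.e i j * D.t l := by
  have h3 := D.t_e l i j h
  rw [if_neg h1, if_neg h2, sub_zero, zero_smul] at h3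
  exact sub_eq_zero.mp h3

omit [FiniteDimensional K V] in
private lemma mem67 [CharZero K] (D : WD L m) {i j : Fin (2 * m)} (h : i ≠ j) :
    D.e i j ∈ LP L (D.t j) :=
  ⟨D.e_mem i j h, (tj67 D h).1, (tj67 D h).2⟩

private lemma plt67 [CharZero K] (D : WD L m) (j l : Fin (2 * m)) : pl (D.t j) (D.t l) = 0 := by
  have h1 : D.t j * D.t l = D.t l * D.t j := D.t_comm j l
  rw [pl_apply, h1, mul_assoc, tt67, mul_one]
  simp

omit [FiniteDimensional K V] in
private lemma ple67 [CharZero K] (D : WD L m) {j a b : Fin (2 * m)} (h : a ≠ b) (hb : b ≠ j) :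
    pl (D.t j) (D.e a b) = 0 := by
  rw [pl_apply]
  by_cases ha : a = j
  · subst ha
    rw [(ti67 D h).1, (ti67 D h).2, neg_mul, (ti67 D h).2]
    simp
  · rw [tl67 D h (Ne.symm ha) (Ne.symm hb), mul_assoc, tt67, mul_one]
    simp

omit [FiniteDimensional K V] in
private lemma plf67 [CharZero K] {s y : Module.End K V} (h1 : s * y = y) (h2 : y * s = - y) :
    pl s y = y := by
  rw [pl_apply, h1, h2]
  module

/-- The elements of degree one. -/
theorem WD.lp_eq [CharZero K] (D : WD L m) (j : Fin (2 * m)) :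
    LP L (D.t j) = Submodule.span K {x | ∃ l, l ≠ j ∧ x = D.e l j} := by
  apply le_antisymm
  · intro y hy
    have h1 : pl (D.t j) y = y := plf67 hy.2.1 hy.2.2
    have h2 : Submodule.span K (Set.range D.t ∪ {x | ∃ i j, i ≠ j ∧ x = D.e i j}) ≤
        (Submodule.span K {x | ∃ l, l ≠ j ∧ x = D.e l j}).comap (pl (D.t j)) := by
      refine Submodule.span_le.mpr ?_
      rintro x (⟨l, rfl⟩ | ⟨a, b, hab, rfl⟩)
      · rw [SetLike.mem_coe, Submodule.mem_comap, plt67]
        exact Submodule.zero_mem _
      · rw [SetLike.mem_coe, Submodule.mem_comap]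
        by_cases hb : b = j
        · subst hb
          rw [plf67 (tj67 D hab).1 (tj67 D hab).2]
          exact Submodule.subset_span ⟨a, hab, rfl⟩
        · rw [ple67 D hab hb]
          exact Submodule.zero_mem _
    have h3 := h2 (D.span hy.1)
    rwa [Submodule.mem_comap, h1] at h3
  · refine Submodule.span_le.mpr ?_
    rintro x ⟨l, hl, rfl⟩
    exact mem67 D hl

/-- An element of degree one for two of the involutions is zero. -/
private lemma two67 [CharZero K] (D : WD L m) {j p : Fin (2 * m)} (h : p ≠ j)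
    {y : Module.End K V} (hy : y ∈ LP L (D.t j)) (h1 : D.t p * y = y) (h2 : y * D.t p = - y) :
    y = 0 := by
  have h3 : y ∈ (LinearMap.ker (pl (D.t p)) : Submodule K (Module.End K V)) := by
    rw [WD.lp_eq] at hy
    refine Submodule.span_le.mpr ?_ hy
    rintro x ⟨l, hl, rfl⟩
    rw [SetLike.mem_coe, LinearMap.mem_ker]
    exact ple67 D hl h.symm
  rw [LinearMap.mem_ker, plf67 h1 h2] at h3
  exact h3

private lemma r67 [CharZero K] (hm : 3 ≤ m) :
    (((2 * m - 2).choose (m - 1) : ℕ) : K) ≠ 0 ∧
      ((2 * m).choose m : K) * m = 2 * (2 * m - 1) * (((2 * m - 2).choose (m - 1) : ℕ) : K) := by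
  obtain ⟨n, rfl⟩ : ∃ n, m = n + 1 := ⟨m - 1, by omega⟩
  have e1 : 2 * (n + 1) - 2 = 2 * n := by omega
  rw [e1, Nat.add_sub_cancel]
  refine ⟨Nat.cast_ne_zero.mpr (Nat.choose_pos (by omega)).ne', ?_⟩
  have h1 := Nat.succ_mul_centralBinom_succ n
  rw [Nat.centralBinom, Nat.centralBinom] at h1
  have h2 := congrArg (Nat.cast : ℕ → K) h1
  push_cast at h2 ⊢
  linear_combination h2

private lemma wt67 [CharZero K] (D : WD L m) {x : Module.End K V} {a : Fin (2 * m)} {w : K}
    (hw : w ≠ 0) (h : D.t a * x - x * D.t a = w • x) : LinearMap.trace K V x = 0 := by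
  have h1 : LinearMap.trace K V (D.t a * x - x * D.t a) = 0 := by
    rw [map_sub, LinearMap.trace_mul_comm, sub_self]
  rw [h, map_smul, smul_eq_mul] at h1
  exact (mul_eq_zero.mp h1).resolve_left hw

/-- The bracket of two opposite root vectors. -/
private lemma h67 [CharZero K] (D : WD L m) (hbr : ∀ x ∈ L, ∀ y ∈ L, x * y - y * x ∈ L)
    (hnd : ∀ x ∈ L, (∀ y ∈ L, LinearMap.trace K V (x * y) = 0) → x = 0)
    {j p : Fin (2 * m)} (h : p ≠ j) :
    D.e j p * D.e p j - D.e p j * D.e j p =
      (LinearMap.trace K V (D.e p j * D.e j p) / (2 * (((2 * m - 2).choose (m - 1) : ℕ) : K))) •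
        (D.t p - D.t j) := by
  obtain ⟨hr, hc⟩ := r67 (K := K) D.three
  have hm := D.three
  have h0 : (2 * m - 1 : K) ≠ 0 := by
    have h1 : ((2 * m - 1 : ℕ) : K) ≠ 0 := Nat.cast_ne_zero.mpr (by omega)
    rw [Nat.cast_sub (by omega)] at h1
    push_cast at h1
    exact h1
  set r : K := (((2 * m - 2).choose (m - 1) : ℕ) : K) with hr'
  set τ : K := LinearMap.trace K V (D.e p j * D.e j p) with hτ
  rw [← sub_eq_zero]
  refine hnd _ (L.sub_mem (hbr _ (D.e_mem _ _ h.symm) _ (D.e_mem _ _ h))
    (L.smul_mem _ (L.sub_mem (D.t_mem _) (D.t_mem _)))) ?_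
  have key : Submodule.span K (Set.range D.t ∪ {x | ∃ i j, i ≠ j ∧ x = D.e i j}) ≤
      LinearMap.ker ((LinearMap.trace K V) ∘ₗ (LinearMap.mulLeft K
        (D.e j p * D.e p j - D.e p j * D.e j p - (τ / (2 * r)) • (D.t p - D.t j)))) := by
    refine Submodule.span_le.mpr ?_
    rintro x (⟨l, rfl⟩ | ⟨a, b, hab, rfl⟩)
    · rw [SetLike.mem_coe, LinearMap.mem_ker, LinearMap.comp_apply, LinearMap.mulLeft_apply,
        sub_mul, map_sub, sub_eq_zero, smul_mul_assoc, map_smul, smul_eq_mul, sub_mul, map_sub,
        sub_mul (D.t p), map_sub, D.tr_tt, D.tr_tt]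
      have e1 : LinearMap.trace K V (D.e j p * D.e p j * D.t l) -
          LinearMap.trace K V (D.e p j * D.e j p * D.t l) =
          ((if l = p then (2 : K) else 0) - (if l = j then (2 : K) else 0)) * τ := by
        have e2 := D.t_e l p j h
        have e3 : LinearMap.trace K V (D.e p j * D.e j p * D.t l) =
            LinearMap.trace K V (D.e j p * (D.t l * D.e p j)) := by
          rw [mul_assoc, LinearMap.trace_mul_comm, mul_assoc]
        have e4 : LinearMap.trace K V (D.e j p * D.e p j) = τ := by
          rw [LinearMap.trace_mul_comm]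
        rw [e3, mul_assoc, ← map_sub, ← mul_sub, ← neg_sub (D.t l * D.e p j), e2, mul_neg,
          mul_smul_comm, map_neg, map_smul, e4, smul_eq_mul]
        ring
      rw [e1]
      by_cases hp : l = p
      · subst hp
        rw [if_pos rfl, if_neg h, if_pos rfl, if_neg h.symm]
        field_simp
        linear_combination (-2 * τ) * hc
      · by_cases hj : l = j
        · subst hj
          rw [if_pos rfl, if_neg hp, if_neg h, if_pos rfl]
          field_simp
          linear_combination (2 * τ) * hc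
        · rw [if_neg hp, if_neg hj, if_neg (Ne.symm hp), if_neg (Ne.symm hj)]
          ring
    · rw [SetLike.mem_coe, LinearMap.mem_ker, LinearMap.comp_apply, LinearMap.mulLeft_apply]
      set d := D.e j p * D.e p j - D.e p j * D.e j p - (τ / (2 * r)) • (D.t p - D.t j) with hd
      have hdc : D.t a * d = d * D.t a := by
        have f1 := D.t_e a p j h
        have f2 := D.t_e a j p h.symm
        have f3 := D.t_comm a p
        have f4 := D.t_comm a j
        have f5 : D.t a * (D.e j p * D.e p j) - (D.e j p * D.e p j) * D.t a = 0 := by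
          have g1 : D.t a * (D.e j p * D.e p j) - (D.e j p * D.e p j) * D.t a =
            (D.t a * D.e j p - D.e j p * D.t a) * D.e p j +
              D.e j p * (D.t a * D.e p j - D.e p j * D.t a) := by noncomm_ring
          rw [g1, f1, f2, smul_mul_assoc, mul_smul_comm, ← add_smul]
          have g2 : ∀ u v : K, u - v + (v - u) = 0 := fun u v => by ring
          rw [g2, zero_smul]
        have f6 : D.t a * (D.e p j * D.e j p) - (D.e p j * D.e j p) * D.t a = 0 := by
          have g1 : D.t a * (D.e p j * D.e j p) - (D.e p j * D.e j p) * D.t a =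
            (D.t a * D.e p j - D.e p j * D.t a) * D.e j p +
              D.e p j * (D.t a * D.e j p - D.e j p * D.t a) := by noncomm_ring
          rw [g1, f1, f2, smul_mul_assoc, mul_smul_comm, ← add_smul]
          have g2 : ∀ u v : K, u - v + (v - u) = 0 := fun u v => by ring
          rw [g2, zero_smul]
        rw [hd, mul_sub, mul_sub, mul_smul_comm, mul_sub, sub_mul, sub_mul, smul_mul_assoc,
          sub_mul, f3, f4, sub_eq_zero.mp f5, sub_eq_zero.mp f6]
      refine wt67 D (a := a) (w := -2) (by norm_num) ?_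
      have h1 := D.t_e a a b hab
      rw [if_neg hab, if_pos rfl, zero_sub] at h1
      rw [← mul_assoc, hdc, mul_assoc, mul_assoc, ← mul_sub, h1, mul_smul_comm]
  intro y hy
  exact key (D.span hy)

/-- The identity for the generators. -/
private lemma gen67 [CharZero K] (D : WD L m) (hbr : ∀ x ∈ L, ∀ y ∈ L, x * y - y * x ∈ L)
    (hnd : ∀ x ∈ L, (∀ y ∈ L, LinearMap.trace K V (x * y) = 0) → x = 0)
    {j q l p : Fin (2 * m)} (hq : q ≠ j) (hl : l ≠ j) (hp : p ≠ j) :
    D.e q j * D.e j p * D.e l j + D.e l j * D.e j p * D.e q j =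
      (LinearMap.trace K V (D.e q j * D.e j p) / (((2 * m - 2).choose (m - 1) : ℕ) : K)) • D.e l j +
      (LinearMap.trace K V (D.e l j * D.e j p) / (((2 * m - 2).choose (m - 1) : ℕ) : K)) •
        D.e q j := by
  obtain ⟨hr, hc⟩ := r67 (K := K) D.three
  set r : K := (((2 * m - 2).choose (m - 1) : ℕ) : K) with hr'
  have zz : ∀ {a b : Fin (2 * m)}, a ≠ j → b ≠ j → D.e a j * D.e b j = 0 := by
    intro a b ha hb
    have e1 : D.e a j * D.e b j = - (D.e a j * D.e b j) := by
      nth_rewrite 1 [← (tj67 D hb).1]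
      rw [← mul_assoc, (tj67 D ha).2, neg_mul]
    exact sn67 e1
  have half : ∀ {a b : Fin (2 * m)}, a ≠ j → b ≠ j → (D.e a j * D.e j a * D.e b j +
      D.e b j * D.e j a * D.e a j = (LinearMap.trace K V (D.e a j * D.e j a) / (2 * r)) •
        (D.e b j * (D.t a - D.t j) - (D.t a - D.t j) * D.e b j)) := by
    intro a b ha hb
    have e1 := h67 D hbr hnd ha
    have e2 : D.e a j * D.e j a * D.e b j + D.e b j * D.e j a * D.e a j =
        D.e b j * (D.e j a * D.e a j - D.e a j * D.e j a) -
          (D.e j a * D.e a j - D.e a j * D.e j a) * D.e b j := by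
      rw [mul_sub, sub_mul, ← mul_assoc (D.e b j) (D.e a j), zz hb ha, zero_mul, sub_zero,
        mul_assoc (D.e j a), zz ha hb, mul_zero, zero_sub, sub_neg_eq_add, ← mul_assoc]
      abel
    rw [e2, e1, mul_smul_comm, smul_mul_assoc, ← smul_sub]
  by_cases hpq : p = q
  · subst hpq
    by_cases hpl : p = l
    · subst hpl
      rw [half hp hp, mul_sub, sub_mul, (tj67 D hp).1, (tj67 D hp).2, (ti67 D hp).1, (ti67 D hp).2]
      match_scalars
      field_simp
      ring
    · rw [half hp hl, D.tr_ee hl hp.symm (fun h => hpl h.2), mul_sub, sub_mul, (tj67 D hl).1,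
        (tj67 D hl).2, tl67 D hl hpl hp]
      match_scalars
      · field_simp
        ring
      all_goals ring
  · by_cases hpl : p = l
    · subst hpl
      rw [add_comm, half hp hq, D.tr_ee hq hp.symm (fun h => hpq h.2), mul_sub, sub_mul,
        (tj67 D hq).1, (tj67 D hq).2, tl67 D hq hpq hp]
      match_scalars
      · field_simp
        ring
      all_goals ring
    · rw [D.tr_ee hq hp.symm (fun h => hpq h.2), D.tr_ee hl hp.symm (fun h => hpl h.2)]
      rw [zero_div, zero_smul, zero_smul, add_zero]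
      have hmem : D.e q j * D.e j p * D.e l j + D.e l j * D.e j p * D.e q j ∈ L := by
        have e2 : D.e q j * D.e j p * D.e l j + D.e l j * D.e j p * D.e q j =
            D.e l j * (D.e j p * D.e q j - D.e q j * D.e j p) -
              (D.e j p * D.e q j - D.e q j * D.e j p) * D.e l j := by
          rw [mul_sub, sub_mul, ← mul_assoc (D.e l j) (D.e q j), zz hl hq, zero_mul, sub_zero,
            mul_assoc (D.e j p), zz hq hl, mul_zero, zero_sub, sub_neg_eq_add, ← mul_assoc]
          abel
        rw [e2]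
        exact hbr _ (D.e_mem _ _ hl) _ (hbr _ (D.e_mem _ _ hp.symm) _ (D.e_mem _ _ hq))
      refine two67 D hp ⟨hmem, ?_, ?_⟩ ?_ ?_
      · rw [mul_add, ← mul_assoc, ← mul_assoc, (tj67 D hq).1, ← mul_assoc, ← mul_assoc,
          (tj67 D hl).1]
      · rw [add_mul, mul_assoc _ _ (D.t j), (tj67 D hl).2, mul_assoc _ _ (D.t j), (tj67 D hq).2]
        simp only [mul_neg, neg_add]
      · have e1 : D.t p * (D.e q j * D.e j p * D.e l j) = D.e q j * D.e j p * D.e l j := by
          rw [← mul_assoc, ← mul_assoc, tl67 D hq hpq hp, mul_assoc (D.e q j), (tj67 D hp.symm).1]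
        have e2 : D.t p * (D.e l j * D.e j p * D.e q j) = D.e l j * D.e j p * D.e q j := by
          rw [← mul_assoc, ← mul_assoc, tl67 D hl hpl hp, mul_assoc (D.e l j), (tj67 D hp.symm).1]
        rw [mul_add, e1, e2]
      · have e1 : D.e q j * D.e j p * D.e l j * D.t p = - (D.e q j * D.e j p * D.e l j) := by
          rw [mul_assoc, ← tl67 D hl hpl hp, ← mul_assoc, mul_assoc (D.e q j),
            (tj67 D hp.symm).2, mul_neg, neg_mul]
        have e2 : D.e l j * D.e j p * D.e q j * D.t p = - (D.e l j * D.e j p * D.e q j) := by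
          rw [mul_assoc, ← tl67 D hq hpq hp, ← mul_assoc, mul_assoc (D.e l j),
            (tj67 D hp.symm).2, mul_neg, neg_mul]
        rw [add_mul, e1, e2, neg_add]

/-- The identity for the generators, all cases. -/
private lemma all67 [CharZero K] (D : WD L m) (hbr : ∀ x ∈ L, ∀ y ∈ L, x * y - y * x ∈ L)
    (hnd : ∀ x ∈ L, (∀ y ∈ L, LinearMap.trace K V (x * y) = 0) → x = 0)
    {j q l : Fin (2 * m)} (hq : q ≠ j) (hl : l ≠ j) {z : Module.End K V}
    (hz : z ∈ (Set.range D.t ∪ {x | ∃ i j, i ≠ j ∧ x = D.e i j} : Set (Module.End K V))) :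
    D.e q j * z * D.e l j + D.e l j * z * D.e q j =
      (LinearMap.trace K V (D.e q j * z) / (((2 * m - 2).choose (m - 1) : ℕ) : K)) • D.e l j +
      (LinearMap.trace K V (D.e l j * z) / (((2 * m - 2).choose (m - 1) : ℕ) : K)) •
        D.e q j := by
  have comm : ∀ {a b : Fin (2 * m)}, a ≠ j → b ≠ j → D.t j * z = z * D.t j →
      D.e a j * z * D.e b j = 0 := by
    intro a b ha hb hc
    have e1 : D.e a j * z * D.e b j = - (D.e a j * z * D.e b j) := by
      nth_rewrite 1 [← (tj67 D hb).1]
      rw [← mul_assoc, mul_assoc (D.e a j), ← hc, ← mul_assoc, (tj67 D ha).2, neg_mul, neg_mul]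
    exact sn67 e1
  rcases hz with ⟨a, rfl⟩ | ⟨a, b, hab, rfl⟩
  · rw [comm hq hl (D.t_comm j a), comm hl hq (D.t_comm j a), LinearMap.trace_mul_comm,
      D.tr_te hq, LinearMap.trace_mul_comm K (D.e l j), D.tr_te hl]
    simp
  · by_cases ha : a = j
    · subst ha
      exact gen67 D hbr hnd hq hl hab.symm
    · rw [D.tr_ee hq hab (fun h => ha h.1), D.tr_ee hl hab (fun h => ha h.1)]
      by_cases hb : b = j
      · subst hb
        have zz : ∀ {c : Fin (2 * m)}, c ≠ b → D.e c b * D.e a b = 0 := by
          intro c hc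
          have e1 : D.e c b * D.e a b = - (D.e c b * D.e a b) := by
            nth_rewrite 1 [← (tj67 D hab).1]
            rw [← mul_assoc, (tj67 D hc).2, neg_mul]
          exact sn67 e1
        rw [zz hq, zz hl]
        simp
      · rw [comm hq hl (tl67 D hab (Ne.symm ha) (Ne.symm hb)),
          comm hl hq (tl67 D hab (Ne.symm ha) (Ne.symm hb))]
        simp

theorem WD.rd [CharZero K] (D : WD L m) (hbr : ∀ x ∈ L, ∀ y ∈ L, x * y - y * x ∈ L)
    (hnd : ∀ x ∈ L, (∀ y ∈ L, LinearMap.trace K V (x * y) = 0) → x = 0) (j : Fin (2 * m)) :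
    RD L (D.t j) (((2 * m - 2).choose (m - 1) : ℕ) : K) := by
  obtain ⟨hr, hc⟩ := r67 (K := K) D.three
  set r : K := (((2 * m - 2).choose (m - 1) : ℕ) : K) with hr'
  have key : ∀ y ∈ Submodule.span K {x | ∃ l, l ≠ j ∧ x = D.e l j},
      ∀ u ∈ Submodule.span K {x | ∃ l, l ≠ j ∧ x = D.e l j},
      ∀ z ∈ Submodule.span K (Set.range D.t ∪ {x | ∃ i j, i ≠ j ∧ x = D.e i j}),
      y * z * u + u * z * y = (LinearMap.trace K V (y * z) / r) • u +
        (LinearMap.trace K V (u * z) / r) • y := by
    intro y hy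
    refine Submodule.span_induction ?_ ?_ ?_ ?_ hy
    · rintro y ⟨q, hq, rfl⟩ u hu
      refine Submodule.span_induction ?_ ?_ ?_ ?_ hu
      · rintro u ⟨l, hl, rfl⟩ z hz
        refine Submodule.span_induction ?_ ?_ ?_ ?_ hz
        · intro z hz
          exact all67 D hbr hnd hq hl hz
        · simp
        · intro z1 z2 _ _ h1 h2
          simp only [mul_add, add_mul, map_add, add_div, add_smul]
          rw [add_add_add_comm, h1, h2]
          abel
        · intro c z _ h1
          simp only [mul_smul_comm, smul_mul_assoc, map_smul, smul_eq_mul, mul_div_assoc, mul_smul]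
          rw [← smul_add, h1, smul_add]
      · intro z _
        simp
      · intro u1 u2 _ _ h1 h2 z hz
        have g1 := h1 z hz
        have g2 := h2 z hz
        simp only [mul_add, add_mul, map_add, add_div, add_smul, smul_add]
        rw [add_add_add_comm, g1, g2]
        abel
      · intro c u _ h1 z hz
        have g1 := h1 z hz
        simp only [mul_smul_comm, smul_mul_assoc, map_smul, smul_eq_mul, mul_div_assoc, mul_smul]
        rw [← smul_add, g1, smul_add, smul_comm c]
    · intro u _ z _
      simp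
    · intro y1 y2 _ _ h1 h2 u hu z hz
      have g1 := h1 u hu z hz
      have g2 := h2 u hu z hz
      simp only [mul_add, add_mul, map_add, add_div, add_smul, smul_add]
      rw [add_add_add_comm, g1, g2]
      abel
    · intro c y _ h1 u hu z hz
      have g1 := h1 u hu z hz
      simp only [mul_smul_comm, smul_mul_assoc, map_smul, smul_eq_mul, mul_div_assoc, mul_smul]
      rw [← smul_add, g1, smul_add, smul_comm c (LinearMap.trace K V (u * z) / r)]
  refine ⟨hbr, D.t_mem j, tt67 D j, hr, ?_⟩
  intro y hy z hz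
  rw [WD.lp_eq] at hy
  have h1 := key y hy y hy z (D.span hz)
  rw [← two_smul K, ← two_smul K] at h1
  exact smul_right_injective _ (two_ne_zero : (2 : K) ≠ 0) h1

theorem WD.rd_neg [CharZero K] (D : WD L m) (hbr : ∀ x ∈ L, ∀ y ∈ L, x * y - y * x ∈ L)
    (hnd : ∀ x ∈ L, (∀ y ∈ L, LinearMap.trace K V (x * y) = 0) → x = 0) (j : Fin (2 * m)) :
    RD L (- D.t j) (((2 * m - 2).choose (m - 1) : ℕ) : K) :=
  D.flip.rd hbr hnd j

end PR
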